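import Pool.Agent.Gen.F5.X12DC3Dm3.S000
import Pool.Agent.Gen.F5.X12DC3Dm3.S001
import Pool.Agent.Gen.F5.X12DC3Dm3.S002
import Pool.Agent.Gen.F5.X12DC3Dm3.S003
import Pool.Agent.Gen.F5.X12DC3Dm3.S004
import Pool.Agent.Gen.F5.X12DC3Dm3.S005
import Pool.Agent.Gen.F5.X12DC3Dm3.S006
import Pool.Agent.Gen.F5.X12DC3Dm3.S007
import Pool.Agent.Gen.F5.X12DC3Dm3.S008
import Pool.Agent.Gen.F5.X12DC3Dm3.S009
import Pool.Agent.Gen.F5.X12DC3Dm3.S010
import Pool.Agent.Gen.F5.X12DC3Dm3.S011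
import Pool.Agent.Gen.F5.X12DC3Dm3.S012
import Pool.Agent.Gen.F5.X12DC3Dm3.S013
import Pool.Agent.Gen.F5.X12DC3Dm3.S014
import Pool.Agent.Gen.F5.X12DC3Dm3.S015
import Pool.Agent.Gen.F5.X12DC3Dm3.S016

set_option autoImplicit false
set_option maxRecDepth 100000

namespace Pool.Agent.Gen.F5.X12DC3Dm3

open Pool.Agent.Helper72.F5

def n0 : Cl (O (nat_lit 3)) (R (nat_lit 143633))
    (p (nat_lit 0x8f8e8f0d8d1a) (nat_lit 0) (p (nat_lit 0xf0e0e8d0c9a) (nat_lit 0) (p (nat_lit 0x8d0d8e0c8c1a) (nat_lit 0) (p (nat_lit 0xc8d0d8c0b9a) (nat_lit 0) (p (nat_lit 0x3c907228010d8d0b8b0a) (nat_lit 0) (p (nat_lit 0x3c907228010b8c8b0a8a) (nat_lit 0) (p (nat_lit 0x14000c) (nat_lit 0) (p (nat_lit 0xc8014) (nat_lit 0) (p (nat_lit 0x18000c) (nat_lit 0) (p (nat_lit 0x80004) (nat_lit 0) (p (nat_lit 0xdc014) (nat_lit 0) (p (nat_lit 0x100004) (nat_lit 0) (p (nat_lit 0x108014) (nat_lit 0) (p (nat_lit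 0x10000c) (nat_lit 1) (p (nat_lit 0x1fc00c) (nat_lit 0) (p (nat_lit 0x1fc004) (nat_lit 0) (p (nat_lit 0xb0014) (nat_lit 1) (p (nat_lit 0x380c2) (nat_lit 0) (p (nat_lit 0x444aa) (nat_lit 7) (p (nat_lit 0xd1) (nat_lit 1) (p (nat_lit 0x111) (nat_lit 1) (p (nat_lit 0x109) (nat_lit 0) (p (nat_lit 0x101) (nat_lit 0) (p (nat_lit 0x119) (nat_lit 0) (p (nat_lit 0xc9) (nat_lit 0) (p (nat_lit 0x89) (nat_lit 1) (p (nat_lit 0x41) (nat_lit 0) (p (nat_lit 0x8a898a08881a) (nat_lit 0) (p (nat_lit 0xa090988079a) (nat_lit 0) (p (nat_lit 0x88088907871a) (nat_lit 0) (p (nat_lit 0x7880887069a) (nat_lit 0) (p (nat_lit 0x80000800088806860a) (nat_lit 0) (p (nat_lit 0x80000800068786058a) (nat_lit 0) (p (nat_lit 0x8687058502) (nat_lit 0) (p (nat_lit 0x606850482) (nat_lit 0) (p (nat_lit 0x160014) (nat_lit 0) (p (nat_lit 0x68612) (nat_lit 0) (p (nat_lit 0x50592) (nat_lit 0) (p (nat_lit 0x40512) (nat_lit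 0) (p (nat_lit 0x50312) (nat_lit 0) (p (nat_lit 0x38292) (nat_lit 0) (p (nat_lit 0x28212) (nat_lit 0) (p (nat_lit 0x38112) (nat_lit 0) (p (nat_lit 0x20092) (nat_lit 0) (p (nat_lit 0x10012) (nat_lit 0) pn))))))))))))))))))))))))))))))))))))))))))))) :=
  Cl.node (nat_lit 0xc1) (nat_lit 2) (by decide +kernel) (ClAll.succ (ClAll.succ ClAll.zero s344) s345)

def n1 : Cl (O (nat_lit 3)) (R (nat_lit 143633))
    (p (nat_lit 0xf0e0e8d0c9a) (nat_lit 0) (p (nat_lit 0x8d0d8e0c8c1a) (nat_lit 0) (p (nat_lit 0xc8d0d8c0b9a) (nat_lit 0) (p (nat_lit 0x3c907228010d8d0b8b0a) (nat_lit 0) (p (nat_lit 0x3c907228010b8c8b0a8a) (nat_lit 0) (p (nat_lit 0x14000c) (nat_lit 0) (p (nat_lit 0xc8014) (nat_lit 0) (p (nat_lit 0x18000c) (nat_lit 0) (p (nat_lit 0x80004) (nat_lit 0) (p (nat_lit 0xdc014) (nat_lit 0) (p (nat_lit 0x100004) (nat_lit 0) (p (nat_lit 0x108014) (nat_lit 0) (p (nat_lit 0x10000c) (nat_lit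 1) (p (nat_lit 0x1fc00c) (nat_lit 0) (p (nat_lit 0x1fc004) (nat_lit 0) (p (nat_lit 0xb0014) (nat_lit 1) (p (nat_lit 0x380c2) (nat_lit 0) (p (nat_lit 0x444aa) (nat_lit 7) (p (nat_lit 0xd1) (nat_lit 1) (p (nat_lit 0x111) (nat_lit 1) (p (nat_lit 0x109) (nat_lit 0) (p (nat_lit 0x101) (nat_lit 0) (p (nat_lit 0x119) (nat_lit 0) (p (nat_lit 0xc9) (nat_lit 0) (p (nat_lit 0x89) (nat_lit 1) (p (nat_lit 0x41) (nat_lit 0) (p (nat_lit 0x8a898a08881a) (nat_lit 0) (p (nat_lit 0xa090988079a) (nat_lit 0) (p (nat_lit 0x88088907871a) (nat_lit 0) (p (nat_lit 0x7880887069a) (nat_lit 0) (p (nat_lit 0x80000800088806860a) (nat_lit 0) (p (nat_lit 0x80000800068786058a) (nat_lit 0) (p (nat_lit 0x8687058502) (nat_lit 0) (p (nat_lit 0x606850482) (nat_lit 0) (p (nat_lit 0x160014) (nat_lit 0) (p (nat_lit 0x68612) (nat_lit 0) (p (nat_lit 0x50592) (nat_lit 0) (p (nat_lit 0x40512) (nat_lit 0) (p (nat_lit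 0x50312) (nat_lit 0) (p (nat_lit 0x38292) (nat_lit 0) (p (nat_lit 0x28212) (nat_lit 0) (p (nat_lit 0x38112) (nat_lit 0) (p (nat_lit 0x20092) (nat_lit 0) (p (nat_lit 0x10012) (nat_lit 0) pn)))))))))))))))))))))))))))))))))))))))))))) :=
  Cl.node (nat_lit 0x8f8e8f0d8d1a) (nat_lit 1) (by decide +kernel) (ClAll.succ ClAll.zero n0)

def n2 : Cl (O (nat_lit 3)) (R (nat_lit 143633))
    (p (nat_lit 0x8d0d8e0c8c1a) (nat_lit 0) (p (nat_lit 0xc8d0d8c0b9a) (nat_lit 0) (p (nat_lit 0x3c907228010d8d0b8b0a) (nat_lit 0) (p (nat_lit 0x3c907228010b8c8b0a8a) (nat_lit 0) (p (nat_lit 0x14000c) (nat_lit 0) (p (nat_lit 0xc8014) (nat_lit 0) (p (nat_lit 0x18000c) (nat_lit 0) (p (nat_lit 0x80004) (nat_lit 0) (p (nat_lit 0xdc014) (nat_lit 0) (p (nat_lit 0x100004) (nat_lit 0) (p (nat_lit 0x108014) (nat_lit 0) (p (nat_lit 0x10000c) (nat_lit 1) (p (nat_lit 0x1fc00c) (nat_lit 0) (p (nat_lit 0x1fc004)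 (nat_lit 0) (p (nat_lit 0xb0014) (nat_lit 1) (p (nat_lit 0x380c2) (nat_lit 0) (p (nat_lit 0x444aa) (nat_lit 7) (p (nat_lit 0xd1) (nat_lit 1) (p (nat_lit 0x111) (nat_lit 1) (p (nat_lit 0x109) (nat_lit 0) (p (nat_lit 0x101) (nat_lit 0) (p (nat_lit 0x119) (nat_lit 0) (p (nat_lit 0xc9) (nat_lit 0) (p (nat_lit 0x89) (nat_lit 1) (p (nat_lit 0x41) (nat_lit 0) (p (nat_lit 0x8a898a08881a) (nat_lit 0) (p (nat_lit 0xa090988079a) (nat_lit 0) (p (nat_lit 0x88088907871a) (nat_lit 0) (p (nat_lit 0x7880887069a) (nat_lit 0) (p (nat_lit 0x80000800088806860a) (nat_lit 0) (p (nat_lit 0x80000800068786058a) (nat_lit 0) (p (nat_lit 0x8687058502) (nat_lit 0) (p (nat_lit 0x606850482) (nat_lit 0) (p (nat_lit 0x160014) (nat_lit 0) (p (nat_lit 0x68612) (nat_lit 0) (p (nat_lit 0x50592) (nat_lit 0) (p (nat_lit 0x40512) (nat_lit 0) (p (nat_lit 0x50312) (nat_lit 0) (p (nat_lit 0x38292) (nat_lit 0) (p (nat_lit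 0x28212) (nat_lit 0) (p (nat_lit 0x38112) (nat_lit 0) (p (nat_lit 0x20092) (nat_lit 0) (p (nat_lit 0x10012) (nat_lit 0) pn))))))))))))))))))))))))))))))))))))))))))) :=
  Cl.node (nat_lit 0xf0e0e8d0c9a) (nat_lit 1) (by decide +kernel) (ClAll.succ ClAll.zero n1)

def n3 : Cl (O (nat_lit 3)) (R (nat_lit 143633))
    (p (nat_lit 0x2680d2280110900e8e0a) (nat_lit 0) (p (nat_lit 0x2680d228010e8f8e0d8a) (nat_lit 0) (p (nat_lit 0x80004) (nat_lit 0) (p (nat_lit 0x101) (nat_lit 1) (p (nat_lit 0x8f8e8f0d8d1a) (nat_lit 0) (p (nat_lit 0xf0e0e8d0c9a) (nat_lit 0) (p (nat_lit 0x8d0d8e0c8c1a) (nat_lit 0) (p (nat_lit 0xc8d0d8c0b9a) (nat_lit 0) (p (nat_lit 0x2680d2680d0d8d0b8b0a) (nat_lit 0) (p (nat_lit 0x2680d2680d0b8c8b0a8a) (nat_lit 0) (p (nat_lit 0x10000c) (nat_lit 0) (p (nat_lit 0x100004) (nat_lit 0) (p (nat_lit 0x1fc00c) (nat_lit 0) (p (nat_lit 0x1fc004) (nat_lit 0) (p (nat_lit 0xb0014)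 (nat_lit 1) (p (nat_lit 0x380c2) (nat_lit 1) (p (nat_lit 0x3c4aa) (nat_lit 7) (p (nat_lit 0x109) (nat_lit 1) (p (nat_lit 0x89) (nat_lit 1) (p (nat_lit 0xc9) (nat_lit 1) (p (nat_lit 0xc1) (nat_lit 0) (p (nat_lit 0x119) (nat_lit 1) (p (nat_lit 0xd1) (nat_lit 0) (p (nat_lit 0x81) (nat_lit 0) (p (nat_lit 0x41) (nat_lit 1) (p (nat_lit 0x8a898a08881a) (nat_lit 0) (p (nat_lit 0xa090988079a) (nat_lit 0) (p (nat_lit 0x88088907871a) (nat_lit 0) (p (nat_lit 0x7880887069a) (nat_lit 0) (p (nat_lit 0x80000800088806860a) (nat_lit 0) (p (nat_lit 0x80000800068786058a) (nat_lit 0) (p (nat_lit 0x8687058502) (nat_lit 0) (p (nat_lit 0x606850482) (nat_lit 0) (p (nat_lit 0x160014) (nat_lit 0) (p (nat_lit 0x68612) (nat_lit 0) (p (nat_lit 0x50592) (nat_lit 0) (p (nat_lit 0x40512) (nat_lit 0) (p (nat_lit 0x50312) (nat_lit 0) (p (nat_lit 0x38292) (nat_lit 0) (p (nat_lit 0x28212) (nat_lit 0) (p (nat_lit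 0x38112) (nat_lit 0) (p (nat_lit 0x20092) (nat_lit 0) (p (nat_lit 0x10012) (nat_lit 0) pn))))))))))))))))))))))))))))))))))))))))))) :=
  Cl.node (nat_lit 0x81) (nat_lit 2) (by decide +kernel) (ClAll.succ (ClAll.succ ClAll.zero s737) s738)

def n4 : Cl (O (nat_lit 3)) (R (nat_lit 143633))
    (p (nat_lit 0xc8d0d8c0b9a) (nat_lit 0) (p (nat_lit 0x3c907228010d8d0b8b0a) (nat_lit 0) (p (nat_lit 0x3c907228010b8c8b0a8a) (nat_lit 0) (p (nat_lit 0x14000c) (nat_lit 0) (p (nat_lit 0xc8014) (nat_lit 0) (p (nat_lit 0x18000c) (nat_lit 0) (p (nat_lit 0x80004) (nat_lit 0) (p (nat_lit 0xdc014) (nat_lit 0) (p (nat_lit 0x100004) (nat_lit 0) (p (nat_lit 0x108014) (nat_lit 0) (p (nat_lit 0x10000c) (nat_lit 1) (p (nat_lit 0x1fc00c) (nat_lit 0) (p (nat_lit 0x1fc004) (nat_lit 0) (p (nat_lit 0xb0014) (nat_lit 1) (p (nat_lit 0x380c2) (nat_lit 0) (p (nat_lit 0x444aa) (nat_lit 7) (p (nat_lit 0xd1) (nat_lit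 1) (p (nat_lit 0x111) (nat_lit 1) (p (nat_lit 0x109) (nat_lit 0) (p (nat_lit 0x101) (nat_lit 0) (p (nat_lit 0x119) (nat_lit 0) (p (nat_lit 0xc9) (nat_lit 0) (p (nat_lit 0x89) (nat_lit 1) (p (nat_lit 0x41) (nat_lit 0) (p (nat_lit 0x8a898a08881a) (nat_lit 0) (p (nat_lit 0xa090988079a) (nat_lit 0) (p (nat_lit 0x88088907871a) (nat_lit 0) (p (nat_lit 0x7880887069a) (nat_lit 0) (p (nat_lit 0x80000800088806860a) (nat_lit 0) (p (nat_lit 0x80000800068786058a) (nat_lit 0) (p (nat_lit 0x8687058502) (nat_lit 0) (p (nat_lit 0x606850482) (nat_lit 0) (p (nat_lit 0x160014) (nat_lit 0) (p (nat_lit 0x68612) (nat_lit 0) (p (nat_lit 0x50592) (nat_lit 0) (p (nat_lit 0x40512) (nat_lit 0) (p (nat_lit 0x50312) (nat_lit 0) (p (nat_lit 0x38292) (nat_lit 0) (p (nat_lit 0x28212) (nat_lit 0) (p (nat_lit 0x38112) (nat_lit 0) (p (nat_lit 0x20092) (nat_lit 0) (p (nat_lit 0x10012) (nat_lit 0) pn))))))))))))))))))))))))))))))))))))))))))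 :=
  Cl.node (nat_lit 0x8d0d8e0c8c1a) (nat_lit 1) (by decide +kernel) (ClAll.succ ClAll.zero n2)

def n5 : Cl (O (nat_lit 3)) (R (nat_lit 143633))
    (p (nat_lit 0x2680d228010e8f8e0d8a) (nat_lit 0) (p (nat_lit 0x80004) (nat_lit 0) (p (nat_lit 0x101) (nat_lit 1) (p (nat_lit 0x8f8e8f0d8d1a) (nat_lit 0) (p (nat_lit 0xf0e0e8d0c9a) (nat_lit 0) (p (nat_lit 0x8d0d8e0c8c1a) (nat_lit 0) (p (nat_lit 0xc8d0d8c0b9a) (nat_lit 0) (p (nat_lit 0x2680d2680d0d8d0b8b0a) (nat_lit 0) (p (nat_lit 0x2680d2680d0b8c8b0a8a) (nat_lit 0) (p (nat_lit 0x10000c) (nat_lit 0) (p (nat_lit 0x100004) (nat_lit 0) (p (nat_lit 0x1fc00c) (nat_lit 0) (p (nat_lit 0x1fc004) (nat_lit 0) (p (nat_lit 0xb0014) (nat_lit 1) (p (nat_lit 0x380c2) (nat_lit 1) (p (nat_lit 0x3c4aa) (nat_lit 7) (p (nat_lit 0x109) (nat_lit 1) (p (nat_lit 0x89) (nat_lit 1) (p (nat_lit 0xc9) (nat_lit 1) (p (nat_lit 0xc1) (nat_lit 0) (p (nat_lit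 0x119) (nat_lit 1) (p (nat_lit 0xd1) (nat_lit 0) (p (nat_lit 0x81) (nat_lit 0) (p (nat_lit 0x41) (nat_lit 1) (p (nat_lit 0x8a898a08881a) (nat_lit 0) (p (nat_lit 0xa090988079a) (nat_lit 0) (p (nat_lit 0x88088907871a) (nat_lit 0) (p (nat_lit 0x7880887069a) (nat_lit 0) (p (nat_lit 0x80000800088806860a) (nat_lit 0) (p (nat_lit 0x80000800068786058a) (nat_lit 0) (p (nat_lit 0x8687058502) (nat_lit 0) (p (nat_lit 0x606850482) (nat_lit 0) (p (nat_lit 0x160014) (nat_lit 0) (p (nat_lit 0x68612) (nat_lit 0) (p (nat_lit 0x50592) (nat_lit 0) (p (nat_lit 0x40512) (nat_lit 0) (p (nat_lit 0x50312) (nat_lit 0) (p (nat_lit 0x38292) (nat_lit 0) (p (nat_lit 0x28212) (nat_lit 0) (p (nat_lit 0x38112) (nat_lit 0) (p (nat_lit 0x20092) (nat_lit 0) (p (nat_lit 0x10012) (nat_lit 0) pn)))))))))))))))))))))))))))))))))))))))))) :=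
  Cl.node (nat_lit 0x2680d2280110900e8e0a) (nat_lit 1) (by decide +kernel) (ClAll.succ ClAll.zero n3)

def n6 : Cl (O (nat_lit 3)) (R (nat_lit 143633))
    (p (nat_lit 0x3c907228010d8d0b8b0a) (nat_lit 0) (p (nat_lit 0x3c907228010b8c8b0a8a) (nat_lit 0) (p (nat_lit 0x14000c) (nat_lit 0) (p (nat_lit 0xc8014) (nat_lit 0) (p (nat_lit 0x18000c) (nat_lit 0) (p (nat_lit 0x80004) (nat_lit 0) (p (nat_lit 0xdc014) (nat_lit 0) (p (nat_lit 0x100004) (nat_lit 0) (p (nat_lit 0x108014) (nat_lit 0) (p (nat_lit 0x10000c) (nat_lit 1) (p (nat_lit 0x1fc00c) (nat_lit 0) (p (nat_lit 0x1fc004) (nat_lit 0) (p (nat_lit 0xb0014) (nat_lit 1) (p (nat_lit 0x380c2) (nat_lit 0) (p (nat_lit 0x444aa) (nat_lit 7) (p (nat_lit 0xd1) (nat_lit 1) (p (nat_lit 0x111) (nat_lit 1) (p (nat_lit 0x109) (nat_lit 0) (p (nat_lit 0x101) (nat_lit 0) (p (nat_lit 0x119) (nat_lit 0) (p (nat_lit 0xc9) (nat_lit 0) (p (nat_lit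 0x89) (nat_lit 1) (p (nat_lit 0x41) (nat_lit 0) (p (nat_lit 0x8a898a08881a) (nat_lit 0) (p (nat_lit 0xa090988079a) (nat_lit 0) (p (nat_lit 0x88088907871a) (nat_lit 0) (p (nat_lit 0x7880887069a) (nat_lit 0) (p (nat_lit 0x80000800088806860a) (nat_lit 0) (p (nat_lit 0x80000800068786058a) (nat_lit 0) (p (nat_lit 0x8687058502) (nat_lit 0) (p (nat_lit 0x606850482) (nat_lit 0) (p (nat_lit 0x160014) (nat_lit 0) (p (nat_lit 0x68612) (nat_lit 0) (p (nat_lit 0x50592) (nat_lit 0) (p (nat_lit 0x40512) (nat_lit 0) (p (nat_lit 0x50312) (nat_lit 0) (p (nat_lit 0x38292) (nat_lit 0) (p (nat_lit 0x28212) (nat_lit 0) (p (nat_lit 0x38112) (nat_lit 0) (p (nat_lit 0x20092) (nat_lit 0) (p (nat_lit 0x10012) (nat_lit 0) pn))))))))))))))))))))))))))))))))))))))))) :=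
  Cl.node (nat_lit 0xc8d0d8c0b9a) (nat_lit 1) (by decide +kernel) (ClAll.succ ClAll.zero n4)

def n7 : Cl (O (nat_lit 3)) (R (nat_lit 143633))
    (p (nat_lit 0x80004) (nat_lit 0) (p (nat_lit 0x101) (nat_lit 1) (p (nat_lit 0x8f8e8f0d8d1a) (nat_lit 0) (p (nat_lit 0xf0e0e8d0c9a) (nat_lit 0) (p (nat_lit 0x8d0d8e0c8c1a) (nat_lit 0) (p (nat_lit 0xc8d0d8c0b9a) (nat_lit 0) (p (nat_lit 0x2680d2680d0d8d0b8b0a) (nat_lit 0) (p (nat_lit 0x2680d2680d0b8c8b0a8a) (nat_lit 0) (p (nat_lit 0x10000c) (nat_lit 0) (p (nat_lit 0x100004) (nat_lit 0) (p (nat_lit 0x1fc00c) (nat_lit 0) (p (nat_lit 0x1fc004) (nat_lit 0) (p (nat_lit 0xb0014) (nat_lit 1) (p (nat_lit 0x380c2) (nat_lit 1) (p (nat_lit 0x3c4aa) (nat_lit 7) (p (nat_lit 0x109) (nat_lit 1) (p (nat_lit 0x89) (nat_lit 1) (p (nat_lit 0xc9) (nat_lit 1) (p (nat_lit 0xc1) (nat_lit 0) (p (nat_lit 0x119) (nat_lit 1) (p (nat_lit 0xd1) (nat_lit 0) (p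 (nat_lit 0x81) (nat_lit 0) (p (nat_lit 0x41) (nat_lit 1) (p (nat_lit 0x8a898a08881a) (nat_lit 0) (p (nat_lit 0xa090988079a) (nat_lit 0) (p (nat_lit 0x88088907871a) (nat_lit 0) (p (nat_lit 0x7880887069a) (nat_lit 0) (p (nat_lit 0x80000800088806860a) (nat_lit 0) (p (nat_lit 0x80000800068786058a) (nat_lit 0) (p (nat_lit 0x8687058502) (nat_lit 0) (p (nat_lit 0x606850482) (nat_lit 0) (p (nat_lit 0x160014) (nat_lit 0) (p (nat_lit 0x68612) (nat_lit 0) (p (nat_lit 0x50592) (nat_lit 0) (p (nat_lit 0x40512) (nat_lit 0) (p (nat_lit 0x50312) (nat_lit 0) (p (nat_lit 0x38292) (nat_lit 0) (p (nat_lit 0x28212) (nat_lit 0) (p (nat_lit 0x38112) (nat_lit 0) (p (nat_lit 0x20092) (nat_lit 0) (p (nat_lit 0x10012) (nat_lit 0) pn))))))))))))))))))))))))))))))))))))))))) :=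
  Cl.node (nat_lit 0x2680d228010e8f8e0d8a) (nat_lit 1) (by decide +kernel) (ClAll.succ ClAll.zero n5)

def n8 : Cl (O (nat_lit 3)) (R (nat_lit 143633))
    (p (nat_lit 0x8f8e8f0d8d1a) (nat_lit 0) (p (nat_lit 0xf0e0e8d0c9a) (nat_lit 0) (p (nat_lit 0x8d0d8e0c8c1a) (nat_lit 0) (p (nat_lit 0xc8d0d8c0b9a) (nat_lit 0) (p (nat_lit 0x2a825a28010d8d0b8b0a) (nat_lit 0) (p (nat_lit 0x2a825a28010b8c8b0a8a) (nat_lit 0) (p (nat_lit 0x40004) (nat_lit 0) (p (nat_lit 0x80004) (nat_lit 0) (p (nat_lit 0x108014) (nat_lit 0) (p (nat_lit 0x100004) (nat_lit 0) (p (nat_lit 0x1fc00c) (nat_lit 0) (p (nat_lit 0xb0014) (nat_lit 1) (p (nat_lit 0x200004) (nat_lit 0) (p (nat_lit 0x380c2) (nat_lit 1) (p (nat_lit 0x3c4aa) (nat_lit 10) (p (nat_lit 0x109) (nat_lit 1) (p (nat_lit 0x89) (nat_lit 1) (p (nat_lit 0xc9) (nat_lit 1) (p (nat_lit 0xc1) (nat_lit 0) (p (nat_lit 0x119) (nat_lit 1) (p (nat_lit 0xd1) (nat_lit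 0) (p (nat_lit 0x81) (nat_lit 0) (p (nat_lit 0x41) (nat_lit 1) (p (nat_lit 0x8a898a08881a) (nat_lit 0) (p (nat_lit 0xa090988079a) (nat_lit 0) (p (nat_lit 0x88088907871a) (nat_lit 0) (p (nat_lit 0x7880887069a) (nat_lit 0) (p (nat_lit 0x80000800088806860a) (nat_lit 0) (p (nat_lit 0x80000800068786058a) (nat_lit 0) (p (nat_lit 0x8687058502) (nat_lit 0) (p (nat_lit 0x606850482) (nat_lit 0) (p (nat_lit 0x160014) (nat_lit 0) (p (nat_lit 0x68612) (nat_lit 0) (p (nat_lit 0x50592) (nat_lit 0) (p (nat_lit 0x40512) (nat_lit 0) (p (nat_lit 0x50312) (nat_lit 0) (p (nat_lit 0x38292) (nat_lit 0) (p (nat_lit 0x28212) (nat_lit 0) (p (nat_lit 0x38112) (nat_lit 0) (p (nat_lit 0x20092) (nat_lit 0) (p (nat_lit 0x10012) (nat_lit 0) pn))))))))))))))))))))))))))))))))))))))))) :=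
  Cl.node (nat_lit 0x101) (nat_lit 2) (by decide +kernel) (ClAll.succ (ClAll.succ ClAll.zero s748) s749)

def n9 : Cl (O (nat_lit 3)) (R (nat_lit 143633))
    (p (nat_lit 0x3c907228010b8c8b0a8a) (nat_lit 0) (p (nat_lit 0x14000c) (nat_lit 0) (p (nat_lit 0xc8014) (nat_lit 0) (p (nat_lit 0x18000c) (nat_lit 0) (p (nat_lit 0x80004) (nat_lit 0) (p (nat_lit 0xdc014) (nat_lit 0) (p (nat_lit 0x100004) (nat_lit 0) (p (nat_lit 0x108014) (nat_lit 0) (p (nat_lit 0x10000c) (nat_lit 1) (p (nat_lit 0x1fc00c) (nat_lit 0) (p (nat_lit 0x1fc004) (nat_lit 0) (p (nat_lit 0xb0014) (nat_lit 1) (p (nat_lit 0x380c2) (nat_lit 0) (p (nat_lit 0x444aa) (nat_lit 7) (p (nat_lit 0xd1) (nat_lit 1) (p (nat_lit 0x111) (nat_lit 1) (p (nat_lit 0x109) (nat_lit 0) (p (nat_lit 0x101) (nat_lit 0) (p (nat_lit 0x119) (nat_lit 0) (p (nat_lit 0xc9) (nat_lit 0) (p (nat_lit 0x89) (nat_lit 1) (p (nat_lit 0x41) (nat_lit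 0) (p (nat_lit 0x8a898a08881a) (nat_lit 0) (p (nat_lit 0xa090988079a) (nat_lit 0) (p (nat_lit 0x88088907871a) (nat_lit 0) (p (nat_lit 0x7880887069a) (nat_lit 0) (p (nat_lit 0x80000800088806860a) (nat_lit 0) (p (nat_lit 0x80000800068786058a) (nat_lit 0) (p (nat_lit 0x8687058502) (nat_lit 0) (p (nat_lit 0x606850482) (nat_lit 0) (p (nat_lit 0x160014) (nat_lit 0) (p (nat_lit 0x68612) (nat_lit 0) (p (nat_lit 0x50592) (nat_lit 0) (p (nat_lit 0x40512) (nat_lit 0) (p (nat_lit 0x50312) (nat_lit 0) (p (nat_lit 0x38292) (nat_lit 0) (p (nat_lit 0x28212) (nat_lit 0) (p (nat_lit 0x38112) (nat_lit 0) (p (nat_lit 0x20092) (nat_lit 0) (p (nat_lit 0x10012) (nat_lit 0) pn)))))))))))))))))))))))))))))))))))))))) :=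
  Cl.node (nat_lit 0x3c907228010d8d0b8b0a) (nat_lit 1) (by decide +kernel) (ClAll.succ ClAll.zero n6)

def n10 : Cl (O (nat_lit 3)) (R (nat_lit 143633))
    (p (nat_lit 0x101) (nat_lit 1) (p (nat_lit 0x8f8e8f0d8d1a) (nat_lit 0) (p (nat_lit 0xf0e0e8d0c9a) (nat_lit 0) (p (nat_lit 0x8d0d8e0c8c1a) (nat_lit 0) (p (nat_lit 0xc8d0d8c0b9a) (nat_lit 0) (p (nat_lit 0x2680d2680d0d8d0b8b0a) (nat_lit 0) (p (nat_lit 0x2680d2680d0b8c8b0a8a) (nat_lit 0) (p (nat_lit 0x10000c) (nat_lit 0) (p (nat_lit 0x100004) (nat_lit 0) (p (nat_lit 0x1fc00c) (nat_lit 0) (p (nat_lit 0x1fc004) (nat_lit 0) (p (nat_lit 0xb0014) (nat_lit 1) (p (nat_lit 0x380c2) (nat_lit 1) (p (nat_lit 0x3c4aa) (nat_lit 7) (p (nat_lit 0x109) (nat_lit 1) (p (nat_lit 0x89) (nat_lit 1) (p (nat_lit 0xc9) (nat_lit 1) (p (nat_lit 0xc1) (nat_lit 0) (p (nat_lit 0x119) (nat_lit 1) (p (nat_lit 0xd1) (nat_lit 0) (p (nat_lit 0x81) (nat_lit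 0) (p (nat_lit 0x41) (nat_lit 1) (p (nat_lit 0x8a898a08881a) (nat_lit 0) (p (nat_lit 0xa090988079a) (nat_lit 0) (p (nat_lit 0x88088907871a) (nat_lit 0) (p (nat_lit 0x7880887069a) (nat_lit 0) (p (nat_lit 0x80000800088806860a) (nat_lit 0) (p (nat_lit 0x80000800068786058a) (nat_lit 0) (p (nat_lit 0x8687058502) (nat_lit 0) (p (nat_lit 0x606850482) (nat_lit 0) (p (nat_lit 0x160014) (nat_lit 0) (p (nat_lit 0x68612) (nat_lit 0) (p (nat_lit 0x50592) (nat_lit 0) (p (nat_lit 0x40512) (nat_lit 0) (p (nat_lit 0x50312) (nat_lit 0) (p (nat_lit 0x38292) (nat_lit 0) (p (nat_lit 0x28212) (nat_lit 0) (p (nat_lit 0x38112) (nat_lit 0) (p (nat_lit 0x20092) (nat_lit 0) (p (nat_lit 0x10012) (nat_lit 0) pn)))))))))))))))))))))))))))))))))))))))) :=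
  Cl.node (nat_lit 0x80004) (nat_lit 2) (by decide +kernel) (ClAll.succ (ClAll.succ ClAll.zero n7) s739)

def n11 : Cl (O (nat_lit 3)) (R (nat_lit 143633))
    (p (nat_lit 0xf0e0e8d0c9a) (nat_lit 0) (p (nat_lit 0x8d0d8e0c8c1a) (nat_lit 0) (p (nat_lit 0xc8d0d8c0b9a) (nat_lit 0) (p (nat_lit 0x2a825a28010d8d0b8b0a) (nat_lit 0) (p (nat_lit 0x2a825a28010b8c8b0a8a) (nat_lit 0) (p (nat_lit 0x40004) (nat_lit 0) (p (nat_lit 0x80004) (nat_lit 0) (p (nat_lit 0x108014) (nat_lit 0) (p (nat_lit 0x100004) (nat_lit 0) (p (nat_lit 0x1fc00c) (nat_lit 0) (p (nat_lit 0xb0014) (nat_lit 1) (p (nat_lit 0x200004) (nat_lit 0) (p (nat_lit 0x380c2) (nat_lit 1) (p (nat_lit 0x3c4aa) (nat_lit 10) (p (nat_lit 0x109) (nat_lit 1) (p (nat_lit 0x89) (nat_lit 1) (p (nat_lit 0xc9) (nat_lit 1) (p (nat_lit 0xc1) (nat_lit 0) (p (nat_lit 0x119) (nat_lit 1) (p (nat_lit 0xd1) (nat_lit 0) (p (nat_lit 0x81) (nat_lit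 0) (p (nat_lit 0x41) (nat_lit 1) (p (nat_lit 0x8a898a08881a) (nat_lit 0) (p (nat_lit 0xa090988079a) (nat_lit 0) (p (nat_lit 0x88088907871a) (nat_lit 0) (p (nat_lit 0x7880887069a) (nat_lit 0) (p (nat_lit 0x80000800088806860a) (nat_lit 0) (p (nat_lit 0x80000800068786058a) (nat_lit 0) (p (nat_lit 0x8687058502) (nat_lit 0) (p (nat_lit 0x606850482) (nat_lit 0) (p (nat_lit 0x160014) (nat_lit 0) (p (nat_lit 0x68612) (nat_lit 0) (p (nat_lit 0x50592) (nat_lit 0) (p (nat_lit 0x40512) (nat_lit 0) (p (nat_lit 0x50312) (nat_lit 0) (p (nat_lit 0x38292) (nat_lit 0) (p (nat_lit 0x28212) (nat_lit 0) (p (nat_lit 0x38112) (nat_lit 0) (p (nat_lit 0x20092) (nat_lit 0) (p (nat_lit 0x10012) (nat_lit 0) pn)))))))))))))))))))))))))))))))))))))))) :=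
  Cl.node (nat_lit 0x8f8e8f0d8d1a) (nat_lit 1) (by decide +kernel) (ClAll.succ ClAll.zero n8)

def n12 : Cl (O (nat_lit 3)) (R (nat_lit 143633))
    (p (nat_lit 0x8f8e8f0d8d1a) (nat_lit 0) (p (nat_lit 0xf0e0e8d0c9a) (nat_lit 0) (p (nat_lit 0x8d0d8e0c8c1a) (nat_lit 0) (p (nat_lit 0xc8d0d8c0b9a) (nat_lit 0) (p (nat_lit 0x2680d2680d0d8d0b8b0a) (nat_lit 0) (p (nat_lit 0x2680d2680d0b8c8b0a8a) (nat_lit 0) (p (nat_lit 0x10000c) (nat_lit 0) (p (nat_lit 0x100004) (nat_lit 0) (p (nat_lit 0x1fc00c) (nat_lit 0) (p (nat_lit 0x1fc004) (nat_lit 0) (p (nat_lit 0xb0014) (nat_lit 1) (p (nat_lit 0x380c2) (nat_lit 0) (p (nat_lit 0x444aa) (nat_lit 7) (p (nat_lit 0x81) (nat_lit 1) (p (nat_lit 0xc9) (nat_lit 1) (p (nat_lit 0x109) (nat_lit 1) (p (nat_lit 0x101) (nat_lit 0) (p (nat_lit 0x119) (nat_lit 0) (p (nat_lit 0xd1) (nat_lit 0) (p (nat_lit 0x89) (nat_lit 0) (p (nat_lit 0x41) (nat_lit 0) (p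 (nat_lit 0x8a898a08881a) (nat_lit 0) (p (nat_lit 0xa090988079a) (nat_lit 0) (p (nat_lit 0x88088907871a) (nat_lit 0) (p (nat_lit 0x7880887069a) (nat_lit 0) (p (nat_lit 0x80000800088806860a) (nat_lit 0) (p (nat_lit 0x80000800068786058a) (nat_lit 0) (p (nat_lit 0x8687058502) (nat_lit 0) (p (nat_lit 0x606850482) (nat_lit 0) (p (nat_lit 0x160014) (nat_lit 0) (p (nat_lit 0x68612) (nat_lit 0) (p (nat_lit 0x50592) (nat_lit 0) (p (nat_lit 0x40512) (nat_lit 0) (p (nat_lit 0x50312) (nat_lit 0) (p (nat_lit 0x38292) (nat_lit 0) (p (nat_lit 0x28212) (nat_lit 0) (p (nat_lit 0x38112) (nat_lit 0) (p (nat_lit 0x20092) (nat_lit 0) (p (nat_lit 0x10012) (nat_lit 0) pn))))))))))))))))))))))))))))))))))))))) :=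
  Cl.node (nat_lit 0x81) (nat_lit 2) (by decide +kernel) (ClAll.succ (ClAll.succ ClAll.zero s15) s16)

def n13 : Cl (O (nat_lit 3)) (R (nat_lit 143633))
    (p (nat_lit 0x14000c) (nat_lit 0) (p (nat_lit 0xc8014) (nat_lit 0) (p (nat_lit 0x18000c) (nat_lit 0) (p (nat_lit 0x80004) (nat_lit 0) (p (nat_lit 0xdc014) (nat_lit 0) (p (nat_lit 0x100004) (nat_lit 0) (p (nat_lit 0x108014) (nat_lit 0) (p (nat_lit 0x10000c) (nat_lit 1) (p (nat_lit 0x1fc00c) (nat_lit 0) (p (nat_lit 0x1fc004) (nat_lit 0) (p (nat_lit 0xb0014) (nat_lit 1) (p (nat_lit 0x380c2) (nat_lit 0) (p (nat_lit 0x444aa) (nat_lit 7) (p (nat_lit 0xd1) (nat_lit 1) (p (nat_lit 0x111) (nat_lit 1) (p (nat_lit 0x109) (nat_lit 0) (p (nat_lit 0x101) (nat_lit 0) (p (nat_lit 0x119) (nat_lit 0) (p (nat_lit 0xc9) (nat_lit 0) (p (nat_lit 0x89) (nat_lit 1) (p (nat_lit 0x41) (nat_lit 0) (p (nat_lit 0x8a898a08881a) (nat_lit 0) (p (nat_lit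 0xa090988079a) (nat_lit 0) (p (nat_lit 0x88088907871a) (nat_lit 0) (p (nat_lit 0x7880887069a) (nat_lit 0) (p (nat_lit 0x80000800088806860a) (nat_lit 0) (p (nat_lit 0x80000800068786058a) (nat_lit 0) (p (nat_lit 0x8687058502) (nat_lit 0) (p (nat_lit 0x606850482) (nat_lit 0) (p (nat_lit 0x160014) (nat_lit 0) (p (nat_lit 0x68612) (nat_lit 0) (p (nat_lit 0x50592) (nat_lit 0) (p (nat_lit 0x40512) (nat_lit 0) (p (nat_lit 0x50312) (nat_lit 0) (p (nat_lit 0x38292) (nat_lit 0) (p (nat_lit 0x28212) (nat_lit 0) (p (nat_lit 0x38112) (nat_lit 0) (p (nat_lit 0x20092) (nat_lit 0) (p (nat_lit 0x10012) (nat_lit 0) pn))))))))))))))))))))))))))))))))))))))) :=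
  Cl.node (nat_lit 0x3c907228010b8c8b0a8a) (nat_lit 1) (by decide +kernel) (ClAll.succ ClAll.zero n9)

def n14 : Cl (O (nat_lit 3)) (R (nat_lit 143633))
    (p (nat_lit 0x109) (nat_lit 0) (p (nat_lit 0x8f8e8f0d8d1a) (nat_lit 0) (p (nat_lit 0xf0e0e8d0c9a) (nat_lit 0) (p (nat_lit 0x8d0d8e0c8c1a) (nat_lit 0) (p (nat_lit 0xc8d0d8c0b9a) (nat_lit 0) (p (nat_lit 0x2680d2680d0d8d0b8b0a) (nat_lit 0) (p (nat_lit 0x2680d2680d0b8c8b0a8a) (nat_lit 0) (p (nat_lit 0x100004) (nat_lit 0) (p (nat_lit 0x10000c) (nat_lit 0) (p (nat_lit 0x1fc00c) (nat_lit 0) (p (nat_lit 0x1fc004) (nat_lit 0) (p (nat_lit 0xb0014) (nat_lit 1) (p (nat_lit 0x380c2) (nat_lit 0) (p (nat_lit 0x444aa) (nat_lit 7) (p (nat_lit 0x111) (nat_lit 1) (p (nat_lit 0xd1) (nat_lit 1) (p (nat_lit 0xc1) (nat_lit 0) (p (nat_lit 0x119) (nat_lit 1) (p (nat_lit 0xc9) (nat_lit 0) (p (nat_lit 0x89) (nat_lit 1) (p (nat_lit 0x41) (nat_lit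 0) (p (nat_lit 0x8a898a08881a) (nat_lit 0) (p (nat_lit 0xa090988079a) (nat_lit 0) (p (nat_lit 0x88088907871a) (nat_lit 0) (p (nat_lit 0x7880887069a) (nat_lit 0) (p (nat_lit 0x80000800088806860a) (nat_lit 0) (p (nat_lit 0x80000800068786058a) (nat_lit 0) (p (nat_lit 0x8687058502) (nat_lit 0) (p (nat_lit 0x606850482) (nat_lit 0) (p (nat_lit 0x160014) (nat_lit 0) (p (nat_lit 0x68612) (nat_lit 0) (p (nat_lit 0x50592) (nat_lit 0) (p (nat_lit 0x40512) (nat_lit 0) (p (nat_lit 0x50312) (nat_lit 0) (p (nat_lit 0x38292) (nat_lit 0) (p (nat_lit 0x28212) (nat_lit 0) (p (nat_lit 0x38112) (nat_lit 0) (p (nat_lit 0x20092) (nat_lit 0) (p (nat_lit 0x10012) (nat_lit 0) pn))))))))))))))))))))))))))))))))))))))) :=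
  Cl.node (nat_lit 0x101) (nat_lit 2) (by decide +kernel) (ClAll.succ (ClAll.succ ClAll.zero s500) s501)

def n15 : Cl (O (nat_lit 3)) (R (nat_lit 143633))
    (p (nat_lit 0x8f8e8f0d8d1a) (nat_lit 0) (p (nat_lit 0xf0e0e8d0c9a) (nat_lit 0) (p (nat_lit 0x8d0d8e0c8c1a) (nat_lit 0) (p (nat_lit 0xc8d0d8c0b9a) (nat_lit 0) (p (nat_lit 0x2680d2680d0d8d0b8b0a) (nat_lit 0) (p (nat_lit 0x2680d2680d0b8c8b0a8a) (nat_lit 0) (p (nat_lit 0x10000c) (nat_lit 0) (p (nat_lit 0x100004) (nat_lit 0) (p (nat_lit 0x1fc00c) (nat_lit 0) (p (nat_lit 0x1fc004) (nat_lit 0) (p (nat_lit 0xb0014) (nat_lit 1) (p (nat_lit 0x380c2) (nat_lit 1) (p (nat_lit 0x3c4aa) (nat_lit 7) (p (nat_lit 0x109) (nat_lit 1) (p (nat_lit 0x89) (nat_lit 1) (p (nat_lit 0xc9) (nat_lit 1) (p (nat_lit 0xc1) (nat_lit 0) (p (nat_lit 0x119) (nat_lit 1) (p (nat_lit 0xd1) (nat_lit 0) (p (nat_lit 0x81) (nat_lit 0) (p (nat_lit 0x41) (nat_lit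 1) (p (nat_lit 0x8a898a08881a) (nat_lit 0) (p (nat_lit 0xa090988079a) (nat_lit 0) (p (nat_lit 0x88088907871a) (nat_lit 0) (p (nat_lit 0x7880887069a) (nat_lit 0) (p (nat_lit 0x80000800088806860a) (nat_lit 0) (p (nat_lit 0x80000800068786058a) (nat_lit 0) (p (nat_lit 0x8687058502) (nat_lit 0) (p (nat_lit 0x606850482) (nat_lit 0) (p (nat_lit 0x160014) (nat_lit 0) (p (nat_lit 0x68612) (nat_lit 0) (p (nat_lit 0x50592) (nat_lit 0) (p (nat_lit 0x40512) (nat_lit 0) (p (nat_lit 0x50312) (nat_lit 0) (p (nat_lit 0x38292) (nat_lit 0) (p (nat_lit 0x28212) (nat_lit 0) (p (nat_lit 0x38112) (nat_lit 0) (p (nat_lit 0x20092) (nat_lit 0) (p (nat_lit 0x10012) (nat_lit 0) pn))))))))))))))))))))))))))))))))))))))) :=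
  Cl.node (nat_lit 0x101) (nat_lit 2) (by decide +kernel) (ClAll.succ (ClAll.succ ClAll.zero s736) n10)

def n16 : Cl (O (nat_lit 3)) (R (nat_lit 143633))
    (p (nat_lit 0x8d0d8e0c8c1a) (nat_lit 0) (p (nat_lit 0xc8d0d8c0b9a) (nat_lit 0) (p (nat_lit 0x2a825a28010d8d0b8b0a) (nat_lit 0) (p (nat_lit 0x2a825a28010b8c8b0a8a) (nat_lit 0) (p (nat_lit 0x40004) (nat_lit 0) (p (nat_lit 0x80004) (nat_lit 0) (p (nat_lit 0x108014) (nat_lit 0) (p (nat_lit 0x100004) (nat_lit 0) (p (nat_lit 0x1fc00c) (nat_lit 0) (p (nat_lit 0xb0014) (nat_lit 1) (p (nat_lit 0x200004) (nat_lit 0) (p (nat_lit 0x380c2) (nat_lit 1) (p (nat_lit 0x3c4aa) (nat_lit 10) (p (nat_lit 0x109) (nat_lit 1) (p (nat_lit 0x89) (nat_lit 1) (p (nat_lit 0xc9) (nat_lit 1) (p (nat_lit 0xc1) (nat_lit 0) (p (nat_lit 0x119) (nat_lit 1) (p (nat_lit 0xd1) (nat_lit 0) (p (nat_lit 0x81) (nat_lit 0) (p (nat_lit 0x41) (nat_lit 1) (p (nat_lit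 0x8a898a08881a) (nat_lit 0) (p (nat_lit 0xa090988079a) (nat_lit 0) (p (nat_lit 0x88088907871a) (nat_lit 0) (p (nat_lit 0x7880887069a) (nat_lit 0) (p (nat_lit 0x80000800088806860a) (nat_lit 0) (p (nat_lit 0x80000800068786058a) (nat_lit 0) (p (nat_lit 0x8687058502) (nat_lit 0) (p (nat_lit 0x606850482) (nat_lit 0) (p (nat_lit 0x160014) (nat_lit 0) (p (nat_lit 0x68612) (nat_lit 0) (p (nat_lit 0x50592) (nat_lit 0) (p (nat_lit 0x40512) (nat_lit 0) (p (nat_lit 0x50312) (nat_lit 0) (p (nat_lit 0x38292) (nat_lit 0) (p (nat_lit 0x28212) (nat_lit 0) (p (nat_lit 0x38112) (nat_lit 0) (p (nat_lit 0x20092) (nat_lit 0) (p (nat_lit 0x10012) (nat_lit 0) pn))))))))))))))))))))))))))))))))))))))) :=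
  Cl.node (nat_lit 0xf0e0e8d0c9a) (nat_lit 1) (by decide +kernel) (ClAll.succ ClAll.zero n11)

def n17 : Cl (O (nat_lit 3)) (R (nat_lit 143633))
    (p (nat_lit 0x101) (nat_lit 0) (p (nat_lit 0x8f8e8f0d8d1a) (nat_lit 0) (p (nat_lit 0xf0e0e8d0c9a) (nat_lit 0) (p (nat_lit 0x8d0d8e0c8c1a) (nat_lit 0) (p (nat_lit 0xc8d0d8c0b9a) (nat_lit 0) (p (nat_lit 0x2680d2680d0d8d0b8b0a) (nat_lit 0) (p (nat_lit 0x2680d2680d0b8c8b0a8a) (nat_lit 0) (p (nat_lit 0x10000c) (nat_lit 0) (p (nat_lit 0x100004) (nat_lit 0) (p (nat_lit 0x1fc00c) (nat_lit 0) (p (nat_lit 0x1fc004) (nat_lit 0) (p (nat_lit 0xb0014) (nat_lit 1) (p (nat_lit 0x380c2) (nat_lit 1) (p (nat_lit 0x3c4aa) (nat_lit 7) (p (nat_lit 0x111) (nat_lit 1) (p (nat_lit 0x109) (nat_lit 0) (p (nat_lit 0xc9) (nat_lit 1) (p (nat_lit 0x119) (nat_lit 1) (p (nat_lit 0xc1) (nat_lit 0) (p (nat_lit 0x81) (nat_lit 1) (p (nat_lit 0x41) (nat_lit 1) (p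 (nat_lit 0x8a898a08881a) (nat_lit 0) (p (nat_lit 0xa090988079a) (nat_lit 0) (p (nat_lit 0x88088907871a) (nat_lit 0) (p (nat_lit 0x7880887069a) (nat_lit 0) (p (nat_lit 0x80000800088806860a) (nat_lit 0) (p (nat_lit 0x80000800068786058a) (nat_lit 0) (p (nat_lit 0x8687058502) (nat_lit 0) (p (nat_lit 0x606850482) (nat_lit 0) (p (nat_lit 0x160014) (nat_lit 0) (p (nat_lit 0x68612) (nat_lit 0) (p (nat_lit 0x50592) (nat_lit 0) (p (nat_lit 0x40512) (nat_lit 0) (p (nat_lit 0x50312) (nat_lit 0) (p (nat_lit 0x38292) (nat_lit 0) (p (nat_lit 0x28212) (nat_lit 0) (p (nat_lit 0x38112) (nat_lit 0) (p (nat_lit 0x20092) (nat_lit 0) (p (nat_lit 0x10012) (nat_lit 0) pn))))))))))))))))))))))))))))))))))))))) :=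
  Cl.node (nat_lit 0x111) (nat_lit 2) (by decide +kernel) (ClAll.succ (ClAll.succ ClAll.zero s1130) s1131)

def n18 : Cl (O (nat_lit 3)) (R (nat_lit 143633))
    (p (nat_lit 0xf0e0e8d0c9a) (nat_lit 0) (p (nat_lit 0x8d0d8e0c8c1a) (nat_lit 0) (p (nat_lit 0xc8d0d8c0b9a) (nat_lit 0) (p (nat_lit 0x2680d2680d0d8d0b8b0a) (nat_lit 0) (p (nat_lit 0x2680d2680d0b8c8b0a8a) (nat_lit 0) (p (nat_lit 0x10000c) (nat_lit 0) (p (nat_lit 0x100004) (nat_lit 0) (p (nat_lit 0x1fc00c) (nat_lit 0) (p (nat_lit 0x1fc004) (nat_lit 0) (p (nat_lit 0xb0014) (nat_lit 1) (p (nat_lit 0x380c2) (nat_lit 0) (p (nat_lit 0x444aa) (nat_lit 7) (p (nat_lit 0x81) (nat_lit 1) (p (nat_lit 0xc9) (nat_lit 1) (p (nat_lit 0x109) (nat_lit 1) (p (nat_lit 0x101) (nat_lit 0) (p (nat_lit 0x119) (nat_lit 0) (p (nat_lit 0xd1) (nat_lit 0) (p (nat_lit 0x89) (nat_lit 0) (p (nat_lit 0x41) (nat_lit 0) (p (nat_lit 0x8a898a08881a) (nat_lit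 0) (p (nat_lit 0xa090988079a) (nat_lit 0) (p (nat_lit 0x88088907871a) (nat_lit 0) (p (nat_lit 0x7880887069a) (nat_lit 0) (p (nat_lit 0x80000800088806860a) (nat_lit 0) (p (nat_lit 0x80000800068786058a) (nat_lit 0) (p (nat_lit 0x8687058502) (nat_lit 0) (p (nat_lit 0x606850482) (nat_lit 0) (p (nat_lit 0x160014) (nat_lit 0) (p (nat_lit 0x68612) (nat_lit 0) (p (nat_lit 0x50592) (nat_lit 0) (p (nat_lit 0x40512) (nat_lit 0) (p (nat_lit 0x50312) (nat_lit 0) (p (nat_lit 0x38292) (nat_lit 0) (p (nat_lit 0x28212) (nat_lit 0) (p (nat_lit 0x38112) (nat_lit 0) (p (nat_lit 0x20092) (nat_lit 0) (p (nat_lit 0x10012) (nat_lit 0) pn)))))))))))))))))))))))))))))))))))))) :=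
  Cl.node (nat_lit 0x8f8e8f0d8d1a) (nat_lit 1) (by decide +kernel) (ClAll.succ ClAll.zero n12)

def n19 : Cl (O (nat_lit 3)) (R (nat_lit 143633))
    (p (nat_lit 0xc8014) (nat_lit 0) (p (nat_lit 0x18000c) (nat_lit 0) (p (nat_lit 0x80004) (nat_lit 0) (p (nat_lit 0xdc014) (nat_lit 0) (p (nat_lit 0x100004) (nat_lit 0) (p (nat_lit 0x108014) (nat_lit 0) (p (nat_lit 0x10000c) (nat_lit 1) (p (nat_lit 0x1fc00c) (nat_lit 0) (p (nat_lit 0x1fc004) (nat_lit 0) (p (nat_lit 0xb0014) (nat_lit 1) (p (nat_lit 0x380c2) (nat_lit 0) (p (nat_lit 0x444aa) (nat_lit 7) (p (nat_lit 0xd1) (nat_lit 1) (p (nat_lit 0x111) (nat_lit 1) (p (nat_lit 0x109) (nat_lit 0) (p (nat_lit 0x101) (nat_lit 0) (p (nat_lit 0x119) (nat_lit 0) (p (nat_lit 0xc9) (nat_lit 0) (p (nat_lit 0x89) (nat_lit 1) (p (nat_lit 0x41) (nat_lit 0) (p (nat_lit 0x8a898a08881a) (nat_lit 0) (p (nat_lit 0xa090988079a) (nat_lit 0) (p (nat_lit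 0x88088907871a) (nat_lit 0) (p (nat_lit 0x7880887069a) (nat_lit 0) (p (nat_lit 0x80000800088806860a) (nat_lit 0) (p (nat_lit 0x80000800068786058a) (nat_lit 0) (p (nat_lit 0x8687058502) (nat_lit 0) (p (nat_lit 0x606850482) (nat_lit 0) (p (nat_lit 0x160014) (nat_lit 0) (p (nat_lit 0x68612) (nat_lit 0) (p (nat_lit 0x50592) (nat_lit 0) (p (nat_lit 0x40512) (nat_lit 0) (p (nat_lit 0x50312) (nat_lit 0) (p (nat_lit 0x38292) (nat_lit 0) (p (nat_lit 0x28212) (nat_lit 0) (p (nat_lit 0x38112) (nat_lit 0) (p (nat_lit 0x20092) (nat_lit 0) (p (nat_lit 0x10012) (nat_lit 0) pn)))))))))))))))))))))))))))))))))))))) :=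
  Cl.node (nat_lit 0x14000c) (nat_lit 2) (by decide +kernel) (ClAll.succ (ClAll.succ ClAll.zero n13) s346)

def n20 : Cl (O (nat_lit 3)) (R (nat_lit 143633))
    (p (nat_lit 0x8f8e8f0d8d1a) (nat_lit 0) (p (nat_lit 0xf0e0e8d0c9a) (nat_lit 0) (p (nat_lit 0x8d0d8e0c8c1a) (nat_lit 0) (p (nat_lit 0xc8d0d8c0b9a) (nat_lit 0) (p (nat_lit 0x2680d2680d0d8d0b8b0a) (nat_lit 0) (p (nat_lit 0x2680d2680d0b8c8b0a8a) (nat_lit 0) (p (nat_lit 0x100004) (nat_lit 0) (p (nat_lit 0x10000c) (nat_lit 0) (p (nat_lit 0x1fc00c) (nat_lit 0) (p (nat_lit 0x1fc004) (nat_lit 0) (p (nat_lit 0xb0014) (nat_lit 1) (p (nat_lit 0x380c2) (nat_lit 0) (p (nat_lit 0x444aa) (nat_lit 7) (p (nat_lit 0xd1) (nat_lit 1) (p (nat_lit 0x109) (nat_lit 1) (p (nat_lit 0x101) (nat_lit 0) (p (nat_lit 0x119) (nat_lit 0) (p (nat_lit 0xc9) (nat_lit 0) (p (nat_lit 0x89) (nat_lit 1) (p (nat_lit 0x41) (nat_lit 0) (p (nat_lit 0x8a898a08881a)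 (nat_lit 0) (p (nat_lit 0xa090988079a) (nat_lit 0) (p (nat_lit 0x88088907871a) (nat_lit 0) (p (nat_lit 0x7880887069a) (nat_lit 0) (p (nat_lit 0x80000800088806860a) (nat_lit 0) (p (nat_lit 0x80000800068786058a) (nat_lit 0) (p (nat_lit 0x8687058502) (nat_lit 0) (p (nat_lit 0x606850482) (nat_lit 0) (p (nat_lit 0x160014) (nat_lit 0) (p (nat_lit 0x68612) (nat_lit 0) (p (nat_lit 0x50592) (nat_lit 0) (p (nat_lit 0x40512) (nat_lit 0) (p (nat_lit 0x50312) (nat_lit 0) (p (nat_lit 0x38292) (nat_lit 0) (p (nat_lit 0x28212) (nat_lit 0) (p (nat_lit 0x38112) (nat_lit 0) (p (nat_lit 0x20092) (nat_lit 0) (p (nat_lit 0x10012) (nat_lit 0) pn)))))))))))))))))))))))))))))))))))))) :=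
  Cl.node (nat_lit 0xc1) (nat_lit 2) (by decide +kernel) (ClAll.succ (ClAll.succ ClAll.zero s417) s418)

def n21 : Cl (O (nat_lit 3)) (R (nat_lit 143633))
    (p (nat_lit 0x8f8e8f0d8d1a) (nat_lit 0) (p (nat_lit 0xf0e0e8d0c9a) (nat_lit 0) (p (nat_lit 0x8d0d8e0c8c1a) (nat_lit 0) (p (nat_lit 0xc8d0d8c0b9a) (nat_lit 0) (p (nat_lit 0x2680d2680d0d8d0b8b0a) (nat_lit 0) (p (nat_lit 0x2680d2680d0b8c8b0a8a) (nat_lit 0) (p (nat_lit 0x100004) (nat_lit 0) (p (nat_lit 0x10000c) (nat_lit 0) (p (nat_lit 0x1fc00c) (nat_lit 0) (p (nat_lit 0x1fc004) (nat_lit 0) (p (nat_lit 0xb0014) (nat_lit 1) (p (nat_lit 0x380c2) (nat_lit 0) (p (nat_lit 0x444aa) (nat_lit 7) (p (nat_lit 0x111) (nat_lit 1) (p (nat_lit 0xd1) (nat_lit 1) (p (nat_lit 0xc1) (nat_lit 0) (p (nat_lit 0x119) (nat_lit 1) (p (nat_lit 0xc9) (nat_lit 0) (p (nat_lit 0x89) (nat_lit 1) (p (nat_lit 0x41) (nat_lit 0) (p (nat_lit 0x8a898a08881a)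 (nat_lit 0) (p (nat_lit 0xa090988079a) (nat_lit 0) (p (nat_lit 0x88088907871a) (nat_lit 0) (p (nat_lit 0x7880887069a) (nat_lit 0) (p (nat_lit 0x80000800088806860a) (nat_lit 0) (p (nat_lit 0x80000800068786058a) (nat_lit 0) (p (nat_lit 0x8687058502) (nat_lit 0) (p (nat_lit 0x606850482) (nat_lit 0) (p (nat_lit 0x160014) (nat_lit 0) (p (nat_lit 0x68612) (nat_lit 0) (p (nat_lit 0x50592) (nat_lit 0) (p (nat_lit 0x40512) (nat_lit 0) (p (nat_lit 0x50312) (nat_lit 0) (p (nat_lit 0x38292) (nat_lit 0) (p (nat_lit 0x28212) (nat_lit 0) (p (nat_lit 0x38112) (nat_lit 0) (p (nat_lit 0x20092) (nat_lit 0) (p (nat_lit 0x10012) (nat_lit 0) pn)))))))))))))))))))))))))))))))))))))) :=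
  Cl.node (nat_lit 0x109) (nat_lit 2) (by decide +kernel) (ClAll.succ (ClAll.succ ClAll.zero n14) s502)

def n22 : Cl (O (nat_lit 3)) (R (nat_lit 143633))
    (p (nat_lit 0xf0e0e8d0c9a) (nat_lit 0) (p (nat_lit 0x8d0d8e0c8c1a) (nat_lit 0) (p (nat_lit 0xc8d0d8c0b9a) (nat_lit 0) (p (nat_lit 0x2680d2680d0d8d0b8b0a) (nat_lit 0) (p (nat_lit 0x2680d2680d0b8c8b0a8a) (nat_lit 0) (p (nat_lit 0x10000c) (nat_lit 0) (p (nat_lit 0x100004) (nat_lit 0) (p (nat_lit 0x1fc00c) (nat_lit 0) (p (nat_lit 0x1fc004) (nat_lit 0) (p (nat_lit 0xb0014) (nat_lit 1) (p (nat_lit 0x380c2) (nat_lit 1) (p (nat_lit 0x3c4aa) (nat_lit 7) (p (nat_lit 0x109) (nat_lit 1) (p (nat_lit 0x89) (nat_lit 1) (p (nat_lit 0xc9) (nat_lit 1) (p (nat_lit 0xc1) (nat_lit 0) (p (nat_lit 0x119) (nat_lit 1) (p (nat_lit 0xd1) (nat_lit 0) (p (nat_lit 0x81) (nat_lit 0) (p (nat_lit 0x41) (nat_lit 1) (p (nat_lit 0x8a898a08881a) (nat_lit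 0) (p (nat_lit 0xa090988079a) (nat_lit 0) (p (nat_lit 0x88088907871a) (nat_lit 0) (p (nat_lit 0x7880887069a) (nat_lit 0) (p (nat_lit 0x80000800088806860a) (nat_lit 0) (p (nat_lit 0x80000800068786058a) (nat_lit 0) (p (nat_lit 0x8687058502) (nat_lit 0) (p (nat_lit 0x606850482) (nat_lit 0) (p (nat_lit 0x160014) (nat_lit 0) (p (nat_lit 0x68612) (nat_lit 0) (p (nat_lit 0x50592) (nat_lit 0) (p (nat_lit 0x40512) (nat_lit 0) (p (nat_lit 0x50312) (nat_lit 0) (p (nat_lit 0x38292) (nat_lit 0) (p (nat_lit 0x28212) (nat_lit 0) (p (nat_lit 0x38112) (nat_lit 0) (p (nat_lit 0x20092) (nat_lit 0) (p (nat_lit 0x10012) (nat_lit 0) pn)))))))))))))))))))))))))))))))))))))) :=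
  Cl.node (nat_lit 0x8f8e8f0d8d1a) (nat_lit 1) (by decide +kernel) (ClAll.succ ClAll.zero n15)

def n23 : Cl (O (nat_lit 3)) (R (nat_lit 143633))
    (p (nat_lit 0xc8d0d8c0b9a) (nat_lit 0) (p (nat_lit 0x2a825a28010d8d0b8b0a) (nat_lit 0) (p (nat_lit 0x2a825a28010b8c8b0a8a) (nat_lit 0) (p (nat_lit 0x40004) (nat_lit 0) (p (nat_lit 0x80004) (nat_lit 0) (p (nat_lit 0x108014) (nat_lit 0) (p (nat_lit 0x100004) (nat_lit 0) (p (nat_lit 0x1fc00c) (nat_lit 0) (p (nat_lit 0xb0014) (nat_lit 1) (p (nat_lit 0x200004) (nat_lit 0) (p (nat_lit 0x380c2) (nat_lit 1) (p (nat_lit 0x3c4aa) (nat_lit 10) (p (nat_lit 0x109) (nat_lit 1) (p (nat_lit 0x89) (nat_lit 1) (p (nat_lit 0xc9) (nat_lit 1) (p (nat_lit 0xc1) (nat_lit 0) (p (nat_lit 0x119) (nat_lit 1) (p (nat_lit 0xd1) (nat_lit 0) (p (nat_lit 0x81) (nat_lit 0) (p (nat_lit 0x41) (nat_lit 1) (p (nat_lit 0x8a898a08881a) (nat_lit 0) (p (nat_lit 0xa090988079a)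 (nat_lit 0) (p (nat_lit 0x88088907871a) (nat_lit 0) (p (nat_lit 0x7880887069a) (nat_lit 0) (p (nat_lit 0x80000800088806860a) (nat_lit 0) (p (nat_lit 0x80000800068786058a) (nat_lit 0) (p (nat_lit 0x8687058502) (nat_lit 0) (p (nat_lit 0x606850482) (nat_lit 0) (p (nat_lit 0x160014) (nat_lit 0) (p (nat_lit 0x68612) (nat_lit 0) (p (nat_lit 0x50592) (nat_lit 0) (p (nat_lit 0x40512) (nat_lit 0) (p (nat_lit 0x50312) (nat_lit 0) (p (nat_lit 0x38292) (nat_lit 0) (p (nat_lit 0x28212) (nat_lit 0) (p (nat_lit 0x38112) (nat_lit 0) (p (nat_lit 0x20092) (nat_lit 0) (p (nat_lit 0x10012) (nat_lit 0) pn)))))))))))))))))))))))))))))))))))))) :=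
  Cl.node (nat_lit 0x8d0d8e0c8c1a) (nat_lit 1) (by decide +kernel) (ClAll.succ ClAll.zero n16)

def n24 : Cl (O (nat_lit 3)) (R (nat_lit 143633))
    (p (nat_lit 0x8f8e8f0d8d1a) (nat_lit 0) (p (nat_lit 0xf0e0e8d0c9a) (nat_lit 0) (p (nat_lit 0x8d0d8e0c8c1a) (nat_lit 0) (p (nat_lit 0xc8d0d8c0b9a) (nat_lit 0) (p (nat_lit 0x2680d2680d0d8d0b8b0a) (nat_lit 0) (p (nat_lit 0x2680d2680d0b8c8b0a8a) (nat_lit 0) (p (nat_lit 0x10000c) (nat_lit 0) (p (nat_lit 0x100004) (nat_lit 0) (p (nat_lit 0x1fc00c) (nat_lit 0) (p (nat_lit 0x1fc004) (nat_lit 0) (p (nat_lit 0xb0014) (nat_lit 1) (p (nat_lit 0x380c2) (nat_lit 1) (p (nat_lit 0x3c4aa) (nat_lit 7) (p (nat_lit 0x111) (nat_lit 1) (p (nat_lit 0x109) (nat_lit 0) (p (nat_lit 0xc9) (nat_lit 1) (p (nat_lit 0x119) (nat_lit 1) (p (nat_lit 0xc1) (nat_lit 0) (p (nat_lit 0x81) (nat_lit 1) (p (nat_lit 0x41) (nat_lit 1) (p (nat_lit 0x8a898a08881a) (nat_lit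 0) (p (nat_lit 0xa090988079a) (nat_lit 0) (p (nat_lit 0x88088907871a) (nat_lit 0) (p (nat_lit 0x7880887069a) (nat_lit 0) (p (nat_lit 0x80000800088806860a) (nat_lit 0) (p (nat_lit 0x80000800068786058a) (nat_lit 0) (p (nat_lit 0x8687058502) (nat_lit 0) (p (nat_lit 0x606850482) (nat_lit 0) (p (nat_lit 0x160014) (nat_lit 0) (p (nat_lit 0x68612) (nat_lit 0) (p (nat_lit 0x50592) (nat_lit 0) (p (nat_lit 0x40512) (nat_lit 0) (p (nat_lit 0x50312) (nat_lit 0) (p (nat_lit 0x38292) (nat_lit 0) (p (nat_lit 0x28212) (nat_lit 0) (p (nat_lit 0x38112) (nat_lit 0) (p (nat_lit 0x20092) (nat_lit 0) (p (nat_lit 0x10012) (nat_lit 0) pn)))))))))))))))))))))))))))))))))))))) :=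
  Cl.node (nat_lit 0x101) (nat_lit 2) (by decide +kernel) (ClAll.succ (ClAll.succ ClAll.zero n17) s1132)

def n25 : Cl (O (nat_lit 3)) (R (nat_lit 143633))
    (p (nat_lit 0x8d0d8e0c8c1a) (nat_lit 0) (p (nat_lit 0xc8d0d8c0b9a) (nat_lit 0) (p (nat_lit 0x2680d2680d0d8d0b8b0a) (nat_lit 0) (p (nat_lit 0x2680d2680d0b8c8b0a8a) (nat_lit 0) (p (nat_lit 0x10000c) (nat_lit 0) (p (nat_lit 0x100004) (nat_lit 0) (p (nat_lit 0x1fc00c) (nat_lit 0) (p (nat_lit 0x1fc004) (nat_lit 0) (p (nat_lit 0xb0014) (nat_lit 1) (p (nat_lit 0x380c2) (nat_lit 0) (p (nat_lit 0x444aa) (nat_lit 7) (p (nat_lit 0x81) (nat_lit 1) (p (nat_lit 0xc9) (nat_lit 1) (p (nat_lit 0x109) (nat_lit 1) (p (nat_lit 0x101) (nat_lit 0) (p (nat_lit 0x119) (nat_lit 0) (p (nat_lit 0xd1) (nat_lit 0) (p (nat_lit 0x89) (nat_lit 0) (p (nat_lit 0x41) (nat_lit 0) (p (nat_lit 0x8a898a08881a) (nat_lit 0) (p (nat_lit 0xa090988079a) (nat_lit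 0) (p (nat_lit 0x88088907871a) (nat_lit 0) (p (nat_lit 0x7880887069a) (nat_lit 0) (p (nat_lit 0x80000800088806860a) (nat_lit 0) (p (nat_lit 0x80000800068786058a) (nat_lit 0) (p (nat_lit 0x8687058502) (nat_lit 0) (p (nat_lit 0x606850482) (nat_lit 0) (p (nat_lit 0x160014) (nat_lit 0) (p (nat_lit 0x68612) (nat_lit 0) (p (nat_lit 0x50592) (nat_lit 0) (p (nat_lit 0x40512) (nat_lit 0) (p (nat_lit 0x50312) (nat_lit 0) (p (nat_lit 0x38292) (nat_lit 0) (p (nat_lit 0x28212) (nat_lit 0) (p (nat_lit 0x38112) (nat_lit 0) (p (nat_lit 0x20092) (nat_lit 0) (p (nat_lit 0x10012) (nat_lit 0) pn))))))))))))))))))))))))))))))))))))) :=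
  Cl.node (nat_lit 0xf0e0e8d0c9a) (nat_lit 1) (by decide +kernel) (ClAll.succ ClAll.zero n18)

def n26 : Cl (O (nat_lit 3)) (R (nat_lit 143633))
    (p (nat_lit 0x18000c) (nat_lit 0) (p (nat_lit 0x80004) (nat_lit 0) (p (nat_lit 0xdc014) (nat_lit 0) (p (nat_lit 0x100004) (nat_lit 0) (p (nat_lit 0x108014) (nat_lit 0) (p (nat_lit 0x10000c) (nat_lit 1) (p (nat_lit 0x1fc00c) (nat_lit 0) (p (nat_lit 0x1fc004) (nat_lit 0) (p (nat_lit 0xb0014) (nat_lit 1) (p (nat_lit 0x380c2) (nat_lit 0) (p (nat_lit 0x444aa) (nat_lit 7) (p (nat_lit 0xd1) (nat_lit 1) (p (nat_lit 0x111) (nat_lit 1) (p (nat_lit 0x109) (nat_lit 0) (p (nat_lit 0x101) (nat_lit 0) (p (nat_lit 0x119) (nat_lit 0) (p (nat_lit 0xc9) (nat_lit 0) (p (nat_lit 0x89) (nat_lit 1) (p (nat_lit 0x41) (nat_lit 0) (p (nat_lit 0x8a898a08881a) (nat_lit 0) (p (nat_lit 0xa090988079a) (nat_lit 0) (p (nat_lit 0x88088907871a) (nat_lit 0) (p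 (nat_lit 0x7880887069a) (nat_lit 0) (p (nat_lit 0x80000800088806860a) (nat_lit 0) (p (nat_lit 0x80000800068786058a) (nat_lit 0) (p (nat_lit 0x8687058502) (nat_lit 0) (p (nat_lit 0x606850482) (nat_lit 0) (p (nat_lit 0x160014) (nat_lit 0) (p (nat_lit 0x68612) (nat_lit 0) (p (nat_lit 0x50592) (nat_lit 0) (p (nat_lit 0x40512) (nat_lit 0) (p (nat_lit 0x50312) (nat_lit 0) (p (nat_lit 0x38292) (nat_lit 0) (p (nat_lit 0x28212) (nat_lit 0) (p (nat_lit 0x38112) (nat_lit 0) (p (nat_lit 0x20092) (nat_lit 0) (p (nat_lit 0x10012) (nat_lit 0) pn))))))))))))))))))))))))))))))))))))) :=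
  Cl.node (nat_lit 0xc8014) (nat_lit 2) (by decide +kernel) (ClAll.succ (ClAll.succ ClAll.zero n19) s347)

def n27 : Cl (O (nat_lit 3)) (R (nat_lit 143633))
    (p (nat_lit 0xf0e0e8d0c9a) (nat_lit 0) (p (nat_lit 0x8d0d8e0c8c1a) (nat_lit 0) (p (nat_lit 0xc8d0d8c0b9a) (nat_lit 0) (p (nat_lit 0x2680d2680d0d8d0b8b0a) (nat_lit 0) (p (nat_lit 0x2680d2680d0b8c8b0a8a) (nat_lit 0) (p (nat_lit 0x100004) (nat_lit 0) (p (nat_lit 0x10000c) (nat_lit 0) (p (nat_lit 0x1fc00c) (nat_lit 0) (p (nat_lit 0x1fc004) (nat_lit 0) (p (nat_lit 0xb0014) (nat_lit 1) (p (nat_lit 0x380c2) (nat_lit 0) (p (nat_lit 0x444aa) (nat_lit 7) (p (nat_lit 0xd1) (nat_lit 1) (p (nat_lit 0x109) (nat_lit 1) (p (nat_lit 0x101) (nat_lit 0) (p (nat_lit 0x119) (nat_lit 0) (p (nat_lit 0xc9) (nat_lit 0) (p (nat_lit 0x89) (nat_lit 1) (p (nat_lit 0x41) (nat_lit 0) (p (nat_lit 0x8a898a08881a) (nat_lit 0) (p (nat_lit 0xa090988079a)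 (nat_lit 0) (p (nat_lit 0x88088907871a) (nat_lit 0) (p (nat_lit 0x7880887069a) (nat_lit 0) (p (nat_lit 0x80000800088806860a) (nat_lit 0) (p (nat_lit 0x80000800068786058a) (nat_lit 0) (p (nat_lit 0x8687058502) (nat_lit 0) (p (nat_lit 0x606850482) (nat_lit 0) (p (nat_lit 0x160014) (nat_lit 0) (p (nat_lit 0x68612) (nat_lit 0) (p (nat_lit 0x50592) (nat_lit 0) (p (nat_lit 0x40512) (nat_lit 0) (p (nat_lit 0x50312) (nat_lit 0) (p (nat_lit 0x38292) (nat_lit 0) (p (nat_lit 0x28212) (nat_lit 0) (p (nat_lit 0x38112) (nat_lit 0) (p (nat_lit 0x20092) (nat_lit 0) (p (nat_lit 0x10012) (nat_lit 0) pn))))))))))))))))))))))))))))))))))))) :=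
  Cl.node (nat_lit 0x8f8e8f0d8d1a) (nat_lit 1) (by decide +kernel) (ClAll.succ ClAll.zero n20)

def n28 : Cl (O (nat_lit 3)) (R (nat_lit 143633))
    (p (nat_lit 0xf0e0e8d0c9a) (nat_lit 0) (p (nat_lit 0x8d0d8e0c8c1a) (nat_lit 0) (p (nat_lit 0xc8d0d8c0b9a) (nat_lit 0) (p (nat_lit 0x2680d2680d0d8d0b8b0a) (nat_lit 0) (p (nat_lit 0x2680d2680d0b8c8b0a8a) (nat_lit 0) (p (nat_lit 0x100004) (nat_lit 0) (p (nat_lit 0x10000c) (nat_lit 0) (p (nat_lit 0x1fc00c) (nat_lit 0) (p (nat_lit 0x1fc004) (nat_lit 0) (p (nat_lit 0xb0014) (nat_lit 1) (p (nat_lit 0x380c2) (nat_lit 0) (p (nat_lit 0x444aa) (nat_lit 7) (p (nat_lit 0x111) (nat_lit 1) (p (nat_lit 0xd1) (nat_lit 1) (p (nat_lit 0xc1) (nat_lit 0) (p (nat_lit 0x119) (nat_lit 1) (p (nat_lit 0xc9) (nat_lit 0) (p (nat_lit 0x89) (nat_lit 1) (p (nat_lit 0x41) (nat_lit 0) (p (nat_lit 0x8a898a08881a) (nat_lit 0) (p (nat_lit 0xa090988079a) (nat_lit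 0) (p (nat_lit 0x88088907871a) (nat_lit 0) (p (nat_lit 0x7880887069a) (nat_lit 0) (p (nat_lit 0x80000800088806860a) (nat_lit 0) (p (nat_lit 0x80000800068786058a) (nat_lit 0) (p (nat_lit 0x8687058502) (nat_lit 0) (p (nat_lit 0x606850482) (nat_lit 0) (p (nat_lit 0x160014) (nat_lit 0) (p (nat_lit 0x68612) (nat_lit 0) (p (nat_lit 0x50592) (nat_lit 0) (p (nat_lit 0x40512) (nat_lit 0) (p (nat_lit 0x50312) (nat_lit 0) (p (nat_lit 0x38292) (nat_lit 0) (p (nat_lit 0x28212) (nat_lit 0) (p (nat_lit 0x38112) (nat_lit 0) (p (nat_lit 0x20092) (nat_lit 0) (p (nat_lit 0x10012) (nat_lit 0) pn))))))))))))))))))))))))))))))))))))) :=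
  Cl.node (nat_lit 0x8f8e8f0d8d1a) (nat_lit 1) (by decide +kernel) (ClAll.succ ClAll.zero n21)

def n29 : Cl (O (nat_lit 3)) (R (nat_lit 143633))
    (p (nat_lit 0x8d0d8e0c8c1a) (nat_lit 0) (p (nat_lit 0xc8d0d8c0b9a) (nat_lit 0) (p (nat_lit 0x2680d2680d0d8d0b8b0a) (nat_lit 0) (p (nat_lit 0x2680d2680d0b8c8b0a8a) (nat_lit 0) (p (nat_lit 0x10000c) (nat_lit 0) (p (nat_lit 0x100004) (nat_lit 0) (p (nat_lit 0x1fc00c) (nat_lit 0) (p (nat_lit 0x1fc004) (nat_lit 0) (p (nat_lit 0xb0014) (nat_lit 1) (p (nat_lit 0x380c2) (nat_lit 1) (p (nat_lit 0x3c4aa) (nat_lit 7) (p (nat_lit 0x109) (nat_lit 1) (p (nat_lit 0x89) (nat_lit 1) (p (nat_lit 0xc9) (nat_lit 1) (p (nat_lit 0xc1) (nat_lit 0) (p (nat_lit 0x119) (nat_lit 1) (p (nat_lit 0xd1) (nat_lit 0) (p (nat_lit 0x81) (nat_lit 0) (p (nat_lit 0x41) (nat_lit 1) (p (nat_lit 0x8a898a08881a) (nat_lit 0) (p (nat_lit 0xa090988079a) (nat_lit 0) (p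 (nat_lit 0x88088907871a) (nat_lit 0) (p (nat_lit 0x7880887069a) (nat_lit 0) (p (nat_lit 0x80000800088806860a) (nat_lit 0) (p (nat_lit 0x80000800068786058a) (nat_lit 0) (p (nat_lit 0x8687058502) (nat_lit 0) (p (nat_lit 0x606850482) (nat_lit 0) (p (nat_lit 0x160014) (nat_lit 0) (p (nat_lit 0x68612) (nat_lit 0) (p (nat_lit 0x50592) (nat_lit 0) (p (nat_lit 0x40512) (nat_lit 0) (p (nat_lit 0x50312) (nat_lit 0) (p (nat_lit 0x38292) (nat_lit 0) (p (nat_lit 0x28212) (nat_lit 0) (p (nat_lit 0x38112) (nat_lit 0) (p (nat_lit 0x20092) (nat_lit 0) (p (nat_lit 0x10012) (nat_lit 0) pn))))))))))))))))))))))))))))))))))))) :=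
  Cl.node (nat_lit 0xf0e0e8d0c9a) (nat_lit 1) (by decide +kernel) (ClAll.succ ClAll.zero n22)

def n30 : Cl (O (nat_lit 3)) (R (nat_lit 143633))
    (p (nat_lit 0x2a825a28010d8d0b8b0a) (nat_lit 0) (p (nat_lit 0x2a825a28010b8c8b0a8a) (nat_lit 0) (p (nat_lit 0x40004) (nat_lit 0) (p (nat_lit 0x80004) (nat_lit 0) (p (nat_lit 0x108014) (nat_lit 0) (p (nat_lit 0x100004) (nat_lit 0) (p (nat_lit 0x1fc00c) (nat_lit 0) (p (nat_lit 0xb0014) (nat_lit 1) (p (nat_lit 0x200004) (nat_lit 0) (p (nat_lit 0x380c2) (nat_lit 1) (p (nat_lit 0x3c4aa) (nat_lit 10) (p (nat_lit 0x109) (nat_lit 1) (p (nat_lit 0x89) (nat_lit 1) (p (nat_lit 0xc9) (nat_lit 1) (p (nat_lit 0xc1) (nat_lit 0) (p (nat_lit 0x119) (nat_lit 1) (p (nat_lit 0xd1) (nat_lit 0) (p (nat_lit 0x81) (nat_lit 0) (p (nat_lit 0x41) (nat_lit 1) (p (nat_lit 0x8a898a08881a) (nat_lit 0) (p (nat_lit 0xa090988079a) (nat_lit 0) (p (nat_lit 0x88088907871a)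 (nat_lit 0) (p (nat_lit 0x7880887069a) (nat_lit 0) (p (nat_lit 0x80000800088806860a) (nat_lit 0) (p (nat_lit 0x80000800068786058a) (nat_lit 0) (p (nat_lit 0x8687058502) (nat_lit 0) (p (nat_lit 0x606850482) (nat_lit 0) (p (nat_lit 0x160014) (nat_lit 0) (p (nat_lit 0x68612) (nat_lit 0) (p (nat_lit 0x50592) (nat_lit 0) (p (nat_lit 0x40512) (nat_lit 0) (p (nat_lit 0x50312) (nat_lit 0) (p (nat_lit 0x38292) (nat_lit 0) (p (nat_lit 0x28212) (nat_lit 0) (p (nat_lit 0x38112) (nat_lit 0) (p (nat_lit 0x20092) (nat_lit 0) (p (nat_lit 0x10012) (nat_lit 0) pn))))))))))))))))))))))))))))))))))))) :=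
  Cl.node (nat_lit 0xc8d0d8c0b9a) (nat_lit 1) (by decide +kernel) (ClAll.succ ClAll.zero n23)

def n31 : Cl (O (nat_lit 3)) (R (nat_lit 143633))
    (p (nat_lit 0xf0e0e8d0c9a) (nat_lit 0) (p (nat_lit 0x8d0d8e0c8c1a) (nat_lit 0) (p (nat_lit 0xc8d0d8c0b9a) (nat_lit 0) (p (nat_lit 0x2680d2680d0d8d0b8b0a) (nat_lit 0) (p (nat_lit 0x2680d2680d0b8c8b0a8a) (nat_lit 0) (p (nat_lit 0x10000c) (nat_lit 0) (p (nat_lit 0x100004) (nat_lit 0) (p (nat_lit 0x1fc00c) (nat_lit 0) (p (nat_lit 0x1fc004) (nat_lit 0) (p (nat_lit 0xb0014) (nat_lit 1) (p (nat_lit 0x380c2) (nat_lit 1) (p (nat_lit 0x3c4aa) (nat_lit 7) (p (nat_lit 0x111) (nat_lit 1) (p (nat_lit 0x109) (nat_lit 0) (p (nat_lit 0xc9) (nat_lit 1) (p (nat_lit 0x119) (nat_lit 1) (p (nat_lit 0xc1) (nat_lit 0) (p (nat_lit 0x81) (nat_lit 1) (p (nat_lit 0x41) (nat_lit 1) (p (nat_lit 0x8a898a08881a) (nat_lit 0) (p (nat_lit 0xa090988079a) (nat_lit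 0) (p (nat_lit 0x88088907871a) (nat_lit 0) (p (nat_lit 0x7880887069a) (nat_lit 0) (p (nat_lit 0x80000800088806860a) (nat_lit 0) (p (nat_lit 0x80000800068786058a) (nat_lit 0) (p (nat_lit 0x8687058502) (nat_lit 0) (p (nat_lit 0x606850482) (nat_lit 0) (p (nat_lit 0x160014) (nat_lit 0) (p (nat_lit 0x68612) (nat_lit 0) (p (nat_lit 0x50592) (nat_lit 0) (p (nat_lit 0x40512) (nat_lit 0) (p (nat_lit 0x50312) (nat_lit 0) (p (nat_lit 0x38292) (nat_lit 0) (p (nat_lit 0x28212) (nat_lit 0) (p (nat_lit 0x38112) (nat_lit 0) (p (nat_lit 0x20092) (nat_lit 0) (p (nat_lit 0x10012) (nat_lit 0) pn))))))))))))))))))))))))))))))))))))) :=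
  Cl.node (nat_lit 0x8f8e8f0d8d1a) (nat_lit 1) (by decide +kernel) (ClAll.succ ClAll.zero n24)

def n32 : Cl (O (nat_lit 3)) (R (nat_lit 143633))
    (p (nat_lit 0xc8d0d8c0b9a) (nat_lit 0) (p (nat_lit 0x2680d2680d0d8d0b8b0a) (nat_lit 0) (p (nat_lit 0x2680d2680d0b8c8b0a8a) (nat_lit 0) (p (nat_lit 0x10000c) (nat_lit 0) (p (nat_lit 0x100004) (nat_lit 0) (p (nat_lit 0x1fc00c) (nat_lit 0) (p (nat_lit 0x1fc004) (nat_lit 0) (p (nat_lit 0xb0014) (nat_lit 1) (p (nat_lit 0x380c2) (nat_lit 0) (p (nat_lit 0x444aa) (nat_lit 7) (p (nat_lit 0x81) (nat_lit 1) (p (nat_lit 0xc9) (nat_lit 1) (p (nat_lit 0x109) (nat_lit 1) (p (nat_lit 0x101) (nat_lit 0) (p (nat_lit 0x119) (nat_lit 0) (p (nat_lit 0xd1) (nat_lit 0) (p (nat_lit 0x89) (nat_lit 0) (p (nat_lit 0x41) (nat_lit 0) (p (nat_lit 0x8a898a08881a) (nat_lit 0) (p (nat_lit 0xa090988079a) (nat_lit 0) (p (nat_lit 0x88088907871a) (nat_lit 0) (p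 (nat_lit 0x7880887069a) (nat_lit 0) (p (nat_lit 0x80000800088806860a) (nat_lit 0) (p (nat_lit 0x80000800068786058a) (nat_lit 0) (p (nat_lit 0x8687058502) (nat_lit 0) (p (nat_lit 0x606850482) (nat_lit 0) (p (nat_lit 0x160014) (nat_lit 0) (p (nat_lit 0x68612) (nat_lit 0) (p (nat_lit 0x50592) (nat_lit 0) (p (nat_lit 0x40512) (nat_lit 0) (p (nat_lit 0x50312) (nat_lit 0) (p (nat_lit 0x38292) (nat_lit 0) (p (nat_lit 0x28212) (nat_lit 0) (p (nat_lit 0x38112) (nat_lit 0) (p (nat_lit 0x20092) (nat_lit 0) (p (nat_lit 0x10012) (nat_lit 0) pn)))))))))))))))))))))))))))))))))))) :=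
  Cl.node (nat_lit 0x8d0d8e0c8c1a) (nat_lit 1) (by decide +kernel) (ClAll.succ ClAll.zero n25)

def n33 : Cl (O (nat_lit 3)) (R (nat_lit 143633))
    (p (nat_lit 0x80004) (nat_lit 0) (p (nat_lit 0xdc014) (nat_lit 0) (p (nat_lit 0x100004) (nat_lit 0) (p (nat_lit 0x108014) (nat_lit 0) (p (nat_lit 0x10000c) (nat_lit 1) (p (nat_lit 0x1fc00c) (nat_lit 0) (p (nat_lit 0x1fc004) (nat_lit 0) (p (nat_lit 0xb0014) (nat_lit 1) (p (nat_lit 0x380c2) (nat_lit 0) (p (nat_lit 0x444aa) (nat_lit 7) (p (nat_lit 0xd1) (nat_lit 1) (p (nat_lit 0x111) (nat_lit 1) (p (nat_lit 0x109) (nat_lit 0) (p (nat_lit 0x101) (nat_lit 0) (p (nat_lit 0x119) (nat_lit 0) (p (nat_lit 0xc9) (nat_lit 0) (p (nat_lit 0x89) (nat_lit 1) (p (nat_lit 0x41) (nat_lit 0) (p (nat_lit 0x8a898a08881a) (nat_lit 0) (p (nat_lit 0xa090988079a) (nat_lit 0) (p (nat_lit 0x88088907871a) (nat_lit 0) (p (nat_lit 0x7880887069a) (nat_lit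 0) (p (nat_lit 0x80000800088806860a) (nat_lit 0) (p (nat_lit 0x80000800068786058a) (nat_lit 0) (p (nat_lit 0x8687058502) (nat_lit 0) (p (nat_lit 0x606850482) (nat_lit 0) (p (nat_lit 0x160014) (nat_lit 0) (p (nat_lit 0x68612) (nat_lit 0) (p (nat_lit 0x50592) (nat_lit 0) (p (nat_lit 0x40512) (nat_lit 0) (p (nat_lit 0x50312) (nat_lit 0) (p (nat_lit 0x38292) (nat_lit 0) (p (nat_lit 0x28212) (nat_lit 0) (p (nat_lit 0x38112) (nat_lit 0) (p (nat_lit 0x20092) (nat_lit 0) (p (nat_lit 0x10012) (nat_lit 0) pn)))))))))))))))))))))))))))))))))))) :=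
  Cl.node (nat_lit 0x18000c) (nat_lit 2) (by decide +kernel) (ClAll.succ (ClAll.succ ClAll.zero n26) s348)

def n34 : Cl (O (nat_lit 3)) (R (nat_lit 143633))
    (p (nat_lit 0x111) (nat_lit 0) (p (nat_lit 0xd1) (nat_lit 1) (p (nat_lit 0xc9) (nat_lit 0) (p (nat_lit 0x100004) (nat_lit 0) (p (nat_lit 0xc1) (nat_lit 0) (p (nat_lit 0x10000c) (nat_lit 0) (p (nat_lit 0x200004) (nat_lit 0) (p (nat_lit 0x20000c) (nat_lit 0) (p (nat_lit 0xb0014) (nat_lit 0) (p (nat_lit 0x380c2) (nat_lit 0) (p (nat_lit 0x444aa) (nat_lit 7) (p (nat_lit 0xd1) (nat_lit 1) (p (nat_lit 0x109) (nat_lit 1) (p (nat_lit 0x101) (nat_lit 0) (p (nat_lit 0x119) (nat_lit 0) (p (nat_lit 0xc9) (nat_lit 0) (p (nat_lit 0x89) (nat_lit 1) (p (nat_lit 0x41) (nat_lit 0) (p (nat_lit 0x8a898a08881a) (nat_lit 0) (p (nat_lit 0xa090988079a) (nat_lit 0) (p (nat_lit 0x88088907871a) (nat_lit 0) (p (nat_lit 0x7880887069a) (nat_lit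 0) (p (nat_lit 0x80000800088806860a) (nat_lit 0) (p (nat_lit 0x80000800068786058a) (nat_lit 0) (p (nat_lit 0x8687058502) (nat_lit 0) (p (nat_lit 0x606850482) (nat_lit 0) (p (nat_lit 0x160014) (nat_lit 0) (p (nat_lit 0x68612) (nat_lit 0) (p (nat_lit 0x50592) (nat_lit 0) (p (nat_lit 0x40512) (nat_lit 0) (p (nat_lit 0x50312) (nat_lit 0) (p (nat_lit 0x38292) (nat_lit 0) (p (nat_lit 0x28212) (nat_lit 0) (p (nat_lit 0x38112) (nat_lit 0) (p (nat_lit 0x20092) (nat_lit 0) (p (nat_lit 0x10012) (nat_lit 0) pn)))))))))))))))))))))))))))))))))))) :=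
  Cl.node (nat_lit 0x109) (nat_lit 2) (by decide +kernel) (ClAll.succ (ClAll.succ ClAll.zero s407) s408)

def n35 : Cl (O (nat_lit 3)) (R (nat_lit 143633))
    (p (nat_lit 0x8d0d8e0c8c1a) (nat_lit 0) (p (nat_lit 0xc8d0d8c0b9a) (nat_lit 0) (p (nat_lit 0x2680d2680d0d8d0b8b0a) (nat_lit 0) (p (nat_lit 0x2680d2680d0b8c8b0a8a) (nat_lit 0) (p (nat_lit 0x100004) (nat_lit 0) (p (nat_lit 0x10000c) (nat_lit 0) (p (nat_lit 0x1fc00c) (nat_lit 0) (p (nat_lit 0x1fc004) (nat_lit 0) (p (nat_lit 0xb0014) (nat_lit 1) (p (nat_lit 0x380c2) (nat_lit 0) (p (nat_lit 0x444aa) (nat_lit 7) (p (nat_lit 0xd1) (nat_lit 1) (p (nat_lit 0x109) (nat_lit 1) (p (nat_lit 0x101) (nat_lit 0) (p (nat_lit 0x119) (nat_lit 0) (p (nat_lit 0xc9) (nat_lit 0) (p (nat_lit 0x89) (nat_lit 1) (p (nat_lit 0x41) (nat_lit 0) (p (nat_lit 0x8a898a08881a) (nat_lit 0) (p (nat_lit 0xa090988079a) (nat_lit 0) (p (nat_lit 0x88088907871a)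 (nat_lit 0) (p (nat_lit 0x7880887069a) (nat_lit 0) (p (nat_lit 0x80000800088806860a) (nat_lit 0) (p (nat_lit 0x80000800068786058a) (nat_lit 0) (p (nat_lit 0x8687058502) (nat_lit 0) (p (nat_lit 0x606850482) (nat_lit 0) (p (nat_lit 0x160014) (nat_lit 0) (p (nat_lit 0x68612) (nat_lit 0) (p (nat_lit 0x50592) (nat_lit 0) (p (nat_lit 0x40512) (nat_lit 0) (p (nat_lit 0x50312) (nat_lit 0) (p (nat_lit 0x38292) (nat_lit 0) (p (nat_lit 0x28212) (nat_lit 0) (p (nat_lit 0x38112) (nat_lit 0) (p (nat_lit 0x20092) (nat_lit 0) (p (nat_lit 0x10012) (nat_lit 0) pn)))))))))))))))))))))))))))))))))))) :=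
  Cl.node (nat_lit 0xf0e0e8d0c9a) (nat_lit 1) (by decide +kernel) (ClAll.succ ClAll.zero n27)

def n36 : Cl (O (nat_lit 3)) (R (nat_lit 143633))
    (p (nat_lit 0x8d0d8e0c8c1a) (nat_lit 0) (p (nat_lit 0xc8d0d8c0b9a) (nat_lit 0) (p (nat_lit 0x2680d2680d0d8d0b8b0a) (nat_lit 0) (p (nat_lit 0x2680d2680d0b8c8b0a8a) (nat_lit 0) (p (nat_lit 0x100004) (nat_lit 0) (p (nat_lit 0x10000c) (nat_lit 0) (p (nat_lit 0x1fc00c) (nat_lit 0) (p (nat_lit 0x1fc004) (nat_lit 0) (p (nat_lit 0xb0014) (nat_lit 1) (p (nat_lit 0x380c2) (nat_lit 0) (p (nat_lit 0x444aa) (nat_lit 7) (p (nat_lit 0x111) (nat_lit 1) (p (nat_lit 0xd1) (nat_lit 1) (p (nat_lit 0xc1) (nat_lit 0) (p (nat_lit 0x119) (nat_lit 1) (p (nat_lit 0xc9) (nat_lit 0) (p (nat_lit 0x89) (nat_lit 1) (p (nat_lit 0x41) (nat_lit 0) (p (nat_lit 0x8a898a08881a) (nat_lit 0) (p (nat_lit 0xa090988079a) (nat_lit 0) (p (nat_lit 0x88088907871a) (nat_lit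 0) (p (nat_lit 0x7880887069a) (nat_lit 0) (p (nat_lit 0x80000800088806860a) (nat_lit 0) (p (nat_lit 0x80000800068786058a) (nat_lit 0) (p (nat_lit 0x8687058502) (nat_lit 0) (p (nat_lit 0x606850482) (nat_lit 0) (p (nat_lit 0x160014) (nat_lit 0) (p (nat_lit 0x68612) (nat_lit 0) (p (nat_lit 0x50592) (nat_lit 0) (p (nat_lit 0x40512) (nat_lit 0) (p (nat_lit 0x50312) (nat_lit 0) (p (nat_lit 0x38292) (nat_lit 0) (p (nat_lit 0x28212) (nat_lit 0) (p (nat_lit 0x38112) (nat_lit 0) (p (nat_lit 0x20092) (nat_lit 0) (p (nat_lit 0x10012) (nat_lit 0) pn)))))))))))))))))))))))))))))))))))) :=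
  Cl.node (nat_lit 0xf0e0e8d0c9a) (nat_lit 1) (by decide +kernel) (ClAll.succ ClAll.zero n28)

def n37 : Cl (O (nat_lit 3)) (R (nat_lit 143633))
    (p (nat_lit 0xc8d0d8c0b9a) (nat_lit 0) (p (nat_lit 0x2680d2680d0d8d0b8b0a) (nat_lit 0) (p (nat_lit 0x2680d2680d0b8c8b0a8a) (nat_lit 0) (p (nat_lit 0x10000c) (nat_lit 0) (p (nat_lit 0x100004) (nat_lit 0) (p (nat_lit 0x1fc00c) (nat_lit 0) (p (nat_lit 0x1fc004) (nat_lit 0) (p (nat_lit 0xb0014) (nat_lit 1) (p (nat_lit 0x380c2) (nat_lit 1) (p (nat_lit 0x3c4aa) (nat_lit 7) (p (nat_lit 0x109) (nat_lit 1) (p (nat_lit 0x89) (nat_lit 1) (p (nat_lit 0xc9) (nat_lit 1) (p (nat_lit 0xc1) (nat_lit 0) (p (nat_lit 0x119) (nat_lit 1) (p (nat_lit 0xd1) (nat_lit 0) (p (nat_lit 0x81) (nat_lit 0) (p (nat_lit 0x41) (nat_lit 1) (p (nat_lit 0x8a898a08881a) (nat_lit 0) (p (nat_lit 0xa090988079a) (nat_lit 0) (p (nat_lit 0x88088907871a) (nat_lit 0) (p (nat_lit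 0x7880887069a) (nat_lit 0) (p (nat_lit 0x80000800088806860a) (nat_lit 0) (p (nat_lit 0x80000800068786058a) (nat_lit 0) (p (nat_lit 0x8687058502) (nat_lit 0) (p (nat_lit 0x606850482) (nat_lit 0) (p (nat_lit 0x160014) (nat_lit 0) (p (nat_lit 0x68612) (nat_lit 0) (p (nat_lit 0x50592) (nat_lit 0) (p (nat_lit 0x40512) (nat_lit 0) (p (nat_lit 0x50312) (nat_lit 0) (p (nat_lit 0x38292) (nat_lit 0) (p (nat_lit 0x28212) (nat_lit 0) (p (nat_lit 0x38112) (nat_lit 0) (p (nat_lit 0x20092) (nat_lit 0) (p (nat_lit 0x10012) (nat_lit 0) pn)))))))))))))))))))))))))))))))))))) :=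
  Cl.node (nat_lit 0x8d0d8e0c8c1a) (nat_lit 1) (by decide +kernel) (ClAll.succ ClAll.zero n29)

def n38 : Cl (O (nat_lit 3)) (R (nat_lit 143633))
    (p (nat_lit 0x2a825a28010b8c8b0a8a) (nat_lit 0) (p (nat_lit 0x40004) (nat_lit 0) (p (nat_lit 0x80004) (nat_lit 0) (p (nat_lit 0x108014) (nat_lit 0) (p (nat_lit 0x100004) (nat_lit 0) (p (nat_lit 0x1fc00c) (nat_lit 0) (p (nat_lit 0xb0014) (nat_lit 1) (p (nat_lit 0x200004) (nat_lit 0) (p (nat_lit 0x380c2) (nat_lit 1) (p (nat_lit 0x3c4aa) (nat_lit 10) (p (nat_lit 0x109) (nat_lit 1) (p (nat_lit 0x89) (nat_lit 1) (p (nat_lit 0xc9) (nat_lit 1) (p (nat_lit 0xc1) (nat_lit 0) (p (nat_lit 0x119) (nat_lit 1) (p (nat_lit 0xd1) (nat_lit 0) (p (nat_lit 0x81) (nat_lit 0) (p (nat_lit 0x41) (nat_lit 1) (p (nat_lit 0x8a898a08881a) (nat_lit 0) (p (nat_lit 0xa090988079a) (nat_lit 0) (p (nat_lit 0x88088907871a) (nat_lit 0) (p (nat_lit 0x7880887069a)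 (nat_lit 0) (p (nat_lit 0x80000800088806860a) (nat_lit 0) (p (nat_lit 0x80000800068786058a) (nat_lit 0) (p (nat_lit 0x8687058502) (nat_lit 0) (p (nat_lit 0x606850482) (nat_lit 0) (p (nat_lit 0x160014) (nat_lit 0) (p (nat_lit 0x68612) (nat_lit 0) (p (nat_lit 0x50592) (nat_lit 0) (p (nat_lit 0x40512) (nat_lit 0) (p (nat_lit 0x50312) (nat_lit 0) (p (nat_lit 0x38292) (nat_lit 0) (p (nat_lit 0x28212) (nat_lit 0) (p (nat_lit 0x38112) (nat_lit 0) (p (nat_lit 0x20092) (nat_lit 0) (p (nat_lit 0x10012) (nat_lit 0) pn)))))))))))))))))))))))))))))))))))) :=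
  Cl.node (nat_lit 0x2a825a28010d8d0b8b0a) (nat_lit 1) (by decide +kernel) (ClAll.succ ClAll.zero n30)

def n39 : Cl (O (nat_lit 3)) (R (nat_lit 143633))
    (p (nat_lit 0xc1) (nat_lit 1) (p (nat_lit 0x119) (nat_lit 1) (p (nat_lit 0x100004) (nat_lit 0) (p (nat_lit 0x134014) (nat_lit 0) (p (nat_lit 0x8000c) (nat_lit 1) (p (nat_lit 0x10000c) (nat_lit 0) (p (nat_lit 0x20000c) (nat_lit 0) (p (nat_lit 0x200004) (nat_lit 0) (p (nat_lit 0x380c2) (nat_lit 1) (p (nat_lit 0x3c4aa) (nat_lit 7) (p (nat_lit 0x109) (nat_lit 1) (p (nat_lit 0x89) (nat_lit 1) (p (nat_lit 0x101) (nat_lit 0) (p (nat_lit 0xc1) (nat_lit 1) (p (nat_lit 0x119) (nat_lit 1) (p (nat_lit 0xd1) (nat_lit 0) (p (nat_lit 0x81) (nat_lit 0) (p (nat_lit 0x41) (nat_lit 1) (p (nat_lit 0x8a898a08881a) (nat_lit 0) (p (nat_lit 0xa090988079a) (nat_lit 0) (p (nat_lit 0x88088907871a) (nat_lit 0) (p (nat_lit 0x7880887069a) (nat_lit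 0) (p (nat_lit 0x80000800088806860a) (nat_lit 0) (p (nat_lit 0x80000800068786058a) (nat_lit 0) (p (nat_lit 0x8687058502) (nat_lit 0) (p (nat_lit 0x606850482) (nat_lit 0) (p (nat_lit 0x160014) (nat_lit 0) (p (nat_lit 0x68612) (nat_lit 0) (p (nat_lit 0x50592) (nat_lit 0) (p (nat_lit 0x40512) (nat_lit 0) (p (nat_lit 0x50312) (nat_lit 0) (p (nat_lit 0x38292) (nat_lit 0) (p (nat_lit 0x28212) (nat_lit 0) (p (nat_lit 0x38112) (nat_lit 0) (p (nat_lit 0x20092) (nat_lit 0) (p (nat_lit 0x10012) (nat_lit 0) pn)))))))))))))))))))))))))))))))))))) :=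
  Cl.node (nat_lit 0x4c42a) (nat_lit 12) (by decide +kernel) (ClAll.succ (ClAll.succ (ClAll.succ (ClAll.succ (ClAll.succ (ClAll.succ (ClAll.succ (ClAll.succ (ClAll.succ (ClAll.succ (ClAll.succ (ClAll.succ ClAll.zero s795) s796) s797) s798) s799) s800) s801) s802) s803) s804) s805) s806)

def n40 : Cl (O (nat_lit 3)) (R (nat_lit 143633))
    (p (nat_lit 0x8d0d8e0c8c1a) (nat_lit 0) (p (nat_lit 0xc8d0d8c0b9a) (nat_lit 0) (p (nat_lit 0x2680d2680d0d8d0b8b0a) (nat_lit 0) (p (nat_lit 0x2680d2680d0b8c8b0a8a) (nat_lit 0) (p (nat_lit 0x10000c) (nat_lit 0) (p (nat_lit 0x100004) (nat_lit 0) (p (nat_lit 0x1fc00c) (nat_lit 0) (p (nat_lit 0x1fc004) (nat_lit 0) (p (nat_lit 0xb0014) (nat_lit 1) (p (nat_lit 0x380c2) (nat_lit 1) (p (nat_lit 0x3c4aa) (nat_lit 7) (p (nat_lit 0x111) (nat_lit 1) (p (nat_lit 0x109) (nat_lit 0) (p (nat_lit 0xc9) (nat_lit 1) (p (nat_lit 0x119) (nat_lit 1) (p (nat_lit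 0xc1) (nat_lit 0) (p (nat_lit 0x81) (nat_lit 1) (p (nat_lit 0x41) (nat_lit 1) (p (nat_lit 0x8a898a08881a) (nat_lit 0) (p (nat_lit 0xa090988079a) (nat_lit 0) (p (nat_lit 0x88088907871a) (nat_lit 0) (p (nat_lit 0x7880887069a) (nat_lit 0) (p (nat_lit 0x80000800088806860a) (nat_lit 0) (p (nat_lit 0x80000800068786058a) (nat_lit 0) (p (nat_lit 0x8687058502) (nat_lit 0) (p (nat_lit 0x606850482) (nat_lit 0) (p (nat_lit 0x160014) (nat_lit 0) (p (nat_lit 0x68612) (nat_lit 0) (p (nat_lit 0x50592) (nat_lit 0) (p (nat_lit 0x40512) (nat_lit 0) (p (nat_lit 0x50312) (nat_lit 0) (p (nat_lit 0x38292) (nat_lit 0) (p (nat_lit 0x28212) (nat_lit 0) (p (nat_lit 0x38112) (nat_lit 0) (p (nat_lit 0x20092) (nat_lit 0) (p (nat_lit 0x10012) (nat_lit 0) pn)))))))))))))))))))))))))))))))))))) :=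
  Cl.node (nat_lit 0xf0e0e8d0c9a) (nat_lit 1) (by decide +kernel) (ClAll.succ ClAll.zero n31)

def n41 : Cl (O (nat_lit 3)) (R (nat_lit 143633))
    (p (nat_lit 0x2680d2680d0d8d0b8b0a) (nat_lit 0) (p (nat_lit 0x2680d2680d0b8c8b0a8a) (nat_lit 0) (p (nat_lit 0x10000c) (nat_lit 0) (p (nat_lit 0x100004) (nat_lit 0) (p (nat_lit 0x1fc00c) (nat_lit 0) (p (nat_lit 0x1fc004) (nat_lit 0) (p (nat_lit 0xb0014) (nat_lit 1) (p (nat_lit 0x380c2) (nat_lit 0) (p (nat_lit 0x444aa) (nat_lit 7) (p (nat_lit 0x81) (nat_lit 1) (p (nat_lit 0xc9) (nat_lit 1) (p (nat_lit 0x109) (nat_lit 1) (p (nat_lit 0x101) (nat_lit 0) (p (nat_lit 0x119) (nat_lit 0) (p (nat_lit 0xd1) (nat_lit 0) (p (nat_lit 0x89) (nat_lit 0) (p (nat_lit 0x41) (nat_lit 0) (p (nat_lit 0x8a898a08881a) (nat_lit 0) (p (nat_lit 0xa090988079a) (nat_lit 0) (p (nat_lit 0x88088907871a) (nat_lit 0) (p (nat_lit 0x7880887069a) (nat_lit 0) (p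 (nat_lit 0x80000800088806860a) (nat_lit 0) (p (nat_lit 0x80000800068786058a) (nat_lit 0) (p (nat_lit 0x8687058502) (nat_lit 0) (p (nat_lit 0x606850482) (nat_lit 0) (p (nat_lit 0x160014) (nat_lit 0) (p (nat_lit 0x68612) (nat_lit 0) (p (nat_lit 0x50592) (nat_lit 0) (p (nat_lit 0x40512) (nat_lit 0) (p (nat_lit 0x50312) (nat_lit 0) (p (nat_lit 0x38292) (nat_lit 0) (p (nat_lit 0x28212) (nat_lit 0) (p (nat_lit 0x38112) (nat_lit 0) (p (nat_lit 0x20092) (nat_lit 0) (p (nat_lit 0x10012) (nat_lit 0) pn))))))))))))))))))))))))))))))))))) :=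
  Cl.node (nat_lit 0xc8d0d8c0b9a) (nat_lit 1) (by decide +kernel) (ClAll.succ ClAll.zero n32)

def n42 : Cl (O (nat_lit 3)) (R (nat_lit 143633))
    (p (nat_lit 0x8000c) (nat_lit 0) (p (nat_lit 0x119) (nat_lit 1) (p (nat_lit 0x109) (nat_lit 0) (p (nat_lit 0x100004) (nat_lit 0) (p (nat_lit 0x10000c) (nat_lit 0) (p (nat_lit 0x200004) (nat_lit 0) (p (nat_lit 0x20000c) (nat_lit 0) (p (nat_lit 0x380c2) (nat_lit 1) (p (nat_lit 0x444aa) (nat_lit 7) (p (nat_lit 0x109) (nat_lit 1) (p (nat_lit 0x101) (nat_lit 0) (p (nat_lit 0x81) (nat_lit 1) (p (nat_lit 0xc1) (nat_lit 1) (p (nat_lit 0x119) (nat_lit 1) (p (nat_lit 0xd1) (nat_lit 0) (p (nat_lit 0x89) (nat_lit 0) (p (nat_lit 0x41) (nat_lit 0) (p (nat_lit 0x8a898a08881a) (nat_lit 0) (p (nat_lit 0xa090988079a) (nat_lit 0) (p (nat_lit 0x88088907871a) (nat_lit 0) (p (nat_lit 0x7880887069a) (nat_lit 0) (p (nat_lit 0x80000800088806860a) (nat_lit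 0) (p (nat_lit 0x80000800068786058a) (nat_lit 0) (p (nat_lit 0x8687058502) (nat_lit 0) (p (nat_lit 0x606850482) (nat_lit 0) (p (nat_lit 0x160014) (nat_lit 0) (p (nat_lit 0x68612) (nat_lit 0) (p (nat_lit 0x50592) (nat_lit 0) (p (nat_lit 0x40512) (nat_lit 0) (p (nat_lit 0x50312) (nat_lit 0) (p (nat_lit 0x38292) (nat_lit 0) (p (nat_lit 0x28212) (nat_lit 0) (p (nat_lit 0x38112) (nat_lit 0) (p (nat_lit 0x20092) (nat_lit 0) (p (nat_lit 0x10012) (nat_lit 0) pn))))))))))))))))))))))))))))))))))) :=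
  Cl.node (nat_lit 0xc1) (nat_lit 2) (by decide +kernel) (ClAll.succ (ClAll.succ ClAll.zero s214) s215)

def n43 : Cl (O (nat_lit 3)) (R (nat_lit 143633))
    (p (nat_lit 0x80004) (nat_lit 0) (p (nat_lit 0xc1) (nat_lit 0) (p (nat_lit 0x100004) (nat_lit 0) (p (nat_lit 0x10000c) (nat_lit 0) (p (nat_lit 0x200004) (nat_lit 0) (p (nat_lit 0x20000c) (nat_lit 0) (p (nat_lit 0xb0014) (nat_lit 0) (p (nat_lit 0x380c2) (nat_lit 0) (p (nat_lit 0x444aa) (nat_lit 7) (p (nat_lit 0xd1) (nat_lit 1) (p (nat_lit 0x111) (nat_lit 1) (p (nat_lit 0x109) (nat_lit 0) (p (nat_lit 0x101) (nat_lit 0) (p (nat_lit 0x119) (nat_lit 0) (p (nat_lit 0xc9) (nat_lit 0) (p (nat_lit 0x89) (nat_lit 1) (p (nat_lit 0x41) (nat_lit 0) (p (nat_lit 0x8a898a08881a) (nat_lit 0) (p (nat_lit 0xa090988079a) (nat_lit 0) (p (nat_lit 0x88088907871a) (nat_lit 0) (p (nat_lit 0x7880887069a) (nat_lit 0) (p (nat_lit 0x80000800088806860a)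 (nat_lit 0) (p (nat_lit 0x80000800068786058a) (nat_lit 0) (p (nat_lit 0x8687058502) (nat_lit 0) (p (nat_lit 0x606850482) (nat_lit 0) (p (nat_lit 0x160014) (nat_lit 0) (p (nat_lit 0x68612) (nat_lit 0) (p (nat_lit 0x50592) (nat_lit 0) (p (nat_lit 0x40512) (nat_lit 0) (p (nat_lit 0x50312) (nat_lit 0) (p (nat_lit 0x38292) (nat_lit 0) (p (nat_lit 0x28212) (nat_lit 0) (p (nat_lit 0x38112) (nat_lit 0) (p (nat_lit 0x20092) (nat_lit 0) (p (nat_lit 0x10012) (nat_lit 0) pn))))))))))))))))))))))))))))))))))) :=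
  Cl.node (nat_lit 0xc9) (nat_lit 2) (by decide +kernel) (ClAll.succ (ClAll.succ ClAll.zero s334) s335)

def n44 : Cl (O (nat_lit 3)) (R (nat_lit 143633))
    (p (nat_lit 0xdc014) (nat_lit 0) (p (nat_lit 0x100004) (nat_lit 0) (p (nat_lit 0x108014) (nat_lit 0) (p (nat_lit 0x10000c) (nat_lit 1) (p (nat_lit 0x1fc00c) (nat_lit 0) (p (nat_lit 0x1fc004) (nat_lit 0) (p (nat_lit 0xb0014) (nat_lit 1) (p (nat_lit 0x380c2) (nat_lit 0) (p (nat_lit 0x444aa) (nat_lit 7) (p (nat_lit 0xd1) (nat_lit 1) (p (nat_lit 0x111) (nat_lit 1) (p (nat_lit 0x109) (nat_lit 0) (p (nat_lit 0x101) (nat_lit 0) (p (nat_lit 0x119) (nat_lit 0) (p (nat_lit 0xc9) (nat_lit 0) (p (nat_lit 0x89) (nat_lit 1) (p (nat_lit 0x41) (nat_lit 0) (p (nat_lit 0x8a898a08881a) (nat_lit 0) (p (nat_lit 0xa090988079a) (nat_lit 0) (p (nat_lit 0x88088907871a) (nat_lit 0) (p (nat_lit 0x7880887069a) (nat_lit 0) (p (nat_lit 0x80000800088806860a)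 (nat_lit 0) (p (nat_lit 0x80000800068786058a) (nat_lit 0) (p (nat_lit 0x8687058502) (nat_lit 0) (p (nat_lit 0x606850482) (nat_lit 0) (p (nat_lit 0x160014) (nat_lit 0) (p (nat_lit 0x68612) (nat_lit 0) (p (nat_lit 0x50592) (nat_lit 0) (p (nat_lit 0x40512) (nat_lit 0) (p (nat_lit 0x50312) (nat_lit 0) (p (nat_lit 0x38292) (nat_lit 0) (p (nat_lit 0x28212) (nat_lit 0) (p (nat_lit 0x38112) (nat_lit 0) (p (nat_lit 0x20092) (nat_lit 0) (p (nat_lit 0x10012) (nat_lit 0) pn))))))))))))))))))))))))))))))))))) :=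
  Cl.node (nat_lit 0x80004) (nat_lit 2) (by decide +kernel) (ClAll.succ (ClAll.succ ClAll.zero n33) s349)

def n45 : Cl (O (nat_lit 3)) (R (nat_lit 143633))
    (p (nat_lit 0x380c2) (nat_lit 0) (p (nat_lit 0x3cc2a) (nat_lit 0) (p (nat_lit 0xc1) (nat_lit 0) (p (nat_lit 0x10000c) (nat_lit 0) (p (nat_lit 0x100004) (nat_lit 0) (p (nat_lit 0x200004) (nat_lit 0) (p (nat_lit 0x20000c) (nat_lit 0) (p (nat_lit 0x380c2) (nat_lit 1) (p (nat_lit 0x444aa) (nat_lit 7) (p (nat_lit 0xd1) (nat_lit 1) (p (nat_lit 0x111) (nat_lit 1) (p (nat_lit 0x109) (nat_lit 0) (p (nat_lit 0x101) (nat_lit 0) (p (nat_lit 0x119) (nat_lit 0) (p (nat_lit 0xc9) (nat_lit 0) (p (nat_lit 0x89) (nat_lit 1) (p (nat_lit 0x41) (nat_lit 0) (p (nat_lit 0x8a898a08881a) (nat_lit 0) (p (nat_lit 0xa090988079a) (nat_lit 0) (p (nat_lit 0x88088907871a) (nat_lit 0) (p (nat_lit 0x7880887069a) (nat_lit 0) (p (nat_lit 0x80000800088806860a)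 (nat_lit 0) (p (nat_lit 0x80000800068786058a) (nat_lit 0) (p (nat_lit 0x8687058502) (nat_lit 0) (p (nat_lit 0x606850482) (nat_lit 0) (p (nat_lit 0x160014) (nat_lit 0) (p (nat_lit 0x68612) (nat_lit 0) (p (nat_lit 0x50592) (nat_lit 0) (p (nat_lit 0x40512) (nat_lit 0) (p (nat_lit 0x50312) (nat_lit 0) (p (nat_lit 0x38292) (nat_lit 0) (p (nat_lit 0x28212) (nat_lit 0) (p (nat_lit 0x38112) (nat_lit 0) (p (nat_lit 0x20092) (nat_lit 0) (p (nat_lit 0x10012) (nat_lit 0) pn))))))))))))))))))))))))))))))))))) :=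
  Cl.node (nat_lit 0xb0014) (nat_lit 2) (by decide +kernel) (ClAll.succ (ClAll.succ ClAll.zero s355) s356)

def n46 : Cl (O (nat_lit 3)) (R (nat_lit 143633))
    (p (nat_lit 0xd1) (nat_lit 0) (p (nat_lit 0xc9) (nat_lit 0) (p (nat_lit 0x100004) (nat_lit 0) (p (nat_lit 0xc1) (nat_lit 0) (p (nat_lit 0x10000c) (nat_lit 0) (p (nat_lit 0x200004) (nat_lit 0) (p (nat_lit 0x20000c) (nat_lit 0) (p (nat_lit 0xb0014) (nat_lit 0) (p (nat_lit 0x380c2) (nat_lit 0) (p (nat_lit 0x444aa) (nat_lit 7) (p (nat_lit 0xd1) (nat_lit 1) (p (nat_lit 0x109) (nat_lit 1) (p (nat_lit 0x101) (nat_lit 0) (p (nat_lit 0x119) (nat_lit 0) (p (nat_lit 0xc9) (nat_lit 0) (p (nat_lit 0x89) (nat_lit 1) (p (nat_lit 0x41) (nat_lit 0) (p (nat_lit 0x8a898a08881a) (nat_lit 0) (p (nat_lit 0xa090988079a) (nat_lit 0) (p (nat_lit 0x88088907871a) (nat_lit 0) (p (nat_lit 0x7880887069a) (nat_lit 0) (p (nat_lit 0x80000800088806860a)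 (nat_lit 0) (p (nat_lit 0x80000800068786058a) (nat_lit 0) (p (nat_lit 0x8687058502) (nat_lit 0) (p (nat_lit 0x606850482) (nat_lit 0) (p (nat_lit 0x160014) (nat_lit 0) (p (nat_lit 0x68612) (nat_lit 0) (p (nat_lit 0x50592) (nat_lit 0) (p (nat_lit 0x40512) (nat_lit 0) (p (nat_lit 0x50312) (nat_lit 0) (p (nat_lit 0x38292) (nat_lit 0) (p (nat_lit 0x28212) (nat_lit 0) (p (nat_lit 0x38112) (nat_lit 0) (p (nat_lit 0x20092) (nat_lit 0) (p (nat_lit 0x10012) (nat_lit 0) pn))))))))))))))))))))))))))))))))))) :=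
  Cl.node (nat_lit 0x80004) (nat_lit 2) (by decide +kernel) (ClAll.succ (ClAll.succ ClAll.zero s405) s406)

def n47 : Cl (O (nat_lit 3)) (R (nat_lit 143633))
    (p (nat_lit 0xd1) (nat_lit 1) (p (nat_lit 0xc9) (nat_lit 0) (p (nat_lit 0x100004) (nat_lit 0) (p (nat_lit 0xc1) (nat_lit 0) (p (nat_lit 0x10000c) (nat_lit 0) (p (nat_lit 0x200004) (nat_lit 0) (p (nat_lit 0x20000c) (nat_lit 0) (p (nat_lit 0xb0014) (nat_lit 0) (p (nat_lit 0x380c2) (nat_lit 0) (p (nat_lit 0x444aa) (nat_lit 7) (p (nat_lit 0xd1) (nat_lit 1) (p (nat_lit 0x109) (nat_lit 1) (p (nat_lit 0x101) (nat_lit 0) (p (nat_lit 0x119) (nat_lit 0) (p (nat_lit 0xc9) (nat_lit 0) (p (nat_lit 0x89) (nat_lit 1) (p (nat_lit 0x41) (nat_lit 0) (p (nat_lit 0x8a898a08881a) (nat_lit 0) (p (nat_lit 0xa090988079a) (nat_lit 0) (p (nat_lit 0x88088907871a) (nat_lit 0) (p (nat_lit 0x7880887069a) (nat_lit 0) (p (nat_lit 0x80000800088806860a)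 (nat_lit 0) (p (nat_lit 0x80000800068786058a) (nat_lit 0) (p (nat_lit 0x8687058502) (nat_lit 0) (p (nat_lit 0x606850482) (nat_lit 0) (p (nat_lit 0x160014) (nat_lit 0) (p (nat_lit 0x68612) (nat_lit 0) (p (nat_lit 0x50592) (nat_lit 0) (p (nat_lit 0x40512) (nat_lit 0) (p (nat_lit 0x50312) (nat_lit 0) (p (nat_lit 0x38292) (nat_lit 0) (p (nat_lit 0x28212) (nat_lit 0) (p (nat_lit 0x38112) (nat_lit 0) (p (nat_lit 0x20092) (nat_lit 0) (p (nat_lit 0x10012) (nat_lit 0) pn))))))))))))))))))))))))))))))))))) :=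
  Cl.node (nat_lit 0x111) (nat_lit 2) (by decide +kernel) (ClAll.succ (ClAll.succ ClAll.zero n34) s409)

def n48 : Cl (O (nat_lit 3)) (R (nat_lit 143633))
    (p (nat_lit 0xc8d0d8c0b9a) (nat_lit 0) (p (nat_lit 0x2680d2680d0d8d0b8b0a) (nat_lit 0) (p (nat_lit 0x2680d2680d0b8c8b0a8a) (nat_lit 0) (p (nat_lit 0x100004) (nat_lit 0) (p (nat_lit 0x10000c) (nat_lit 0) (p (nat_lit 0x1fc00c) (nat_lit 0) (p (nat_lit 0x1fc004) (nat_lit 0) (p (nat_lit 0xb0014) (nat_lit 1) (p (nat_lit 0x380c2) (nat_lit 0) (p (nat_lit 0x444aa) (nat_lit 7) (p (nat_lit 0xd1) (nat_lit 1) (p (nat_lit 0x109) (nat_lit 1) (p (nat_lit 0x101) (nat_lit 0) (p (nat_lit 0x119) (nat_lit 0) (p (nat_lit 0xc9) (nat_lit 0) (p (nat_lit 0x89) (nat_lit 1) (p (nat_lit 0x41) (nat_lit 0) (p (nat_lit 0x8a898a08881a) (nat_lit 0) (p (nat_lit 0xa090988079a) (nat_lit 0) (p (nat_lit 0x88088907871a) (nat_lit 0) (p (nat_lit 0x7880887069a)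 (nat_lit 0) (p (nat_lit 0x80000800088806860a) (nat_lit 0) (p (nat_lit 0x80000800068786058a) (nat_lit 0) (p (nat_lit 0x8687058502) (nat_lit 0) (p (nat_lit 0x606850482) (nat_lit 0) (p (nat_lit 0x160014) (nat_lit 0) (p (nat_lit 0x68612) (nat_lit 0) (p (nat_lit 0x50592) (nat_lit 0) (p (nat_lit 0x40512) (nat_lit 0) (p (nat_lit 0x50312) (nat_lit 0) (p (nat_lit 0x38292) (nat_lit 0) (p (nat_lit 0x28212) (nat_lit 0) (p (nat_lit 0x38112) (nat_lit 0) (p (nat_lit 0x20092) (nat_lit 0) (p (nat_lit 0x10012) (nat_lit 0) pn))))))))))))))))))))))))))))))))))) :=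
  Cl.node (nat_lit 0x8d0d8e0c8c1a) (nat_lit 1) (by decide +kernel) (ClAll.succ ClAll.zero n35)

def n49 : Cl (O (nat_lit 3)) (R (nat_lit 143633))
    (p (nat_lit 0x80004) (nat_lit 0) (p (nat_lit 0xd1) (nat_lit 0) (p (nat_lit 0x119) (nat_lit 1) (p (nat_lit 0xc9) (nat_lit 0) (p (nat_lit 0x100004) (nat_lit 0) (p (nat_lit 0x10000c) (nat_lit 0) (p (nat_lit 0x200004) (nat_lit 0) (p (nat_lit 0x20000c) (nat_lit 0) (p (nat_lit 0x380c2) (nat_lit 1) (p (nat_lit 0x444aa) (nat_lit 7) (p (nat_lit 0xd1) (nat_lit 1) (p (nat_lit 0xc1) (nat_lit 0) (p (nat_lit 0x101) (nat_lit 1) (p (nat_lit 0x119) (nat_lit 0) (p (nat_lit 0xc9) (nat_lit 0) (p (nat_lit 0x89) (nat_lit 1) (p (nat_lit 0x41) (nat_lit 0) (p (nat_lit 0x8a898a08881a) (nat_lit 0) (p (nat_lit 0xa090988079a) (nat_lit 0) (p (nat_lit 0x88088907871a) (nat_lit 0) (p (nat_lit 0x7880887069a) (nat_lit 0) (p (nat_lit 0x80000800088806860a) (nat_lit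 0) (p (nat_lit 0x80000800068786058a) (nat_lit 0) (p (nat_lit 0x8687058502) (nat_lit 0) (p (nat_lit 0x606850482) (nat_lit 0) (p (nat_lit 0x160014) (nat_lit 0) (p (nat_lit 0x68612) (nat_lit 0) (p (nat_lit 0x50592) (nat_lit 0) (p (nat_lit 0x40512) (nat_lit 0) (p (nat_lit 0x50312) (nat_lit 0) (p (nat_lit 0x38292) (nat_lit 0) (p (nat_lit 0x28212) (nat_lit 0) (p (nat_lit 0x38112) (nat_lit 0) (p (nat_lit 0x20092) (nat_lit 0) (p (nat_lit 0x10012) (nat_lit 0) pn))))))))))))))))))))))))))))))))))) :=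
  Cl.node (nat_lit 0x81) (nat_lit 2) (by decide +kernel) (ClAll.succ (ClAll.succ ClAll.zero s471) s472)

def n50 : Cl (O (nat_lit 3)) (R (nat_lit 143633))
    (p (nat_lit 0xc8d0d8c0b9a) (nat_lit 0) (p (nat_lit 0x2680d2680d0d8d0b8b0a) (nat_lit 0) (p (nat_lit 0x2680d2680d0b8c8b0a8a) (nat_lit 0) (p (nat_lit 0x100004) (nat_lit 0) (p (nat_lit 0x10000c) (nat_lit 0) (p (nat_lit 0x1fc00c) (nat_lit 0) (p (nat_lit 0x1fc004) (nat_lit 0) (p (nat_lit 0xb0014) (nat_lit 1) (p (nat_lit 0x380c2) (nat_lit 0) (p (nat_lit 0x444aa) (nat_lit 7) (p (nat_lit 0x111) (nat_lit 1) (p (nat_lit 0xd1) (nat_lit 1) (p (nat_lit 0xc1) (nat_lit 0) (p (nat_lit 0x119) (nat_lit 1) (p (nat_lit 0xc9) (nat_lit 0) (p (nat_lit 0x89) (nat_lit 1) (p (nat_lit 0x41) (nat_lit 0) (p (nat_lit 0x8a898a08881a) (nat_lit 0) (p (nat_lit 0xa090988079a) (nat_lit 0) (p (nat_lit 0x88088907871a) (nat_lit 0) (p (nat_lit 0x7880887069a)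 (nat_lit 0) (p (nat_lit 0x80000800088806860a) (nat_lit 0) (p (nat_lit 0x80000800068786058a) (nat_lit 0) (p (nat_lit 0x8687058502) (nat_lit 0) (p (nat_lit 0x606850482) (nat_lit 0) (p (nat_lit 0x160014) (nat_lit 0) (p (nat_lit 0x68612) (nat_lit 0) (p (nat_lit 0x50592) (nat_lit 0) (p (nat_lit 0x40512) (nat_lit 0) (p (nat_lit 0x50312) (nat_lit 0) (p (nat_lit 0x38292) (nat_lit 0) (p (nat_lit 0x28212) (nat_lit 0) (p (nat_lit 0x38112) (nat_lit 0) (p (nat_lit 0x20092) (nat_lit 0) (p (nat_lit 0x10012) (nat_lit 0) pn))))))))))))))))))))))))))))))))))) :=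
  Cl.node (nat_lit 0x8d0d8e0c8c1a) (nat_lit 1) (by decide +kernel) (ClAll.succ ClAll.zero n36)

def n51 : Cl (O (nat_lit 3)) (R (nat_lit 143633))
    (p (nat_lit 0x2680d2680d0d8d0b8b0a) (nat_lit 0) (p (nat_lit 0x2680d2680d0b8c8b0a8a) (nat_lit 0) (p (nat_lit 0x10000c) (nat_lit 0) (p (nat_lit 0x100004) (nat_lit 0) (p (nat_lit 0x1fc00c) (nat_lit 0) (p (nat_lit 0x1fc004) (nat_lit 0) (p (nat_lit 0xb0014) (nat_lit 1) (p (nat_lit 0x380c2) (nat_lit 1) (p (nat_lit 0x3c4aa) (nat_lit 7) (p (nat_lit 0x109) (nat_lit 1) (p (nat_lit 0x89) (nat_lit 1) (p (nat_lit 0xc9) (nat_lit 1) (p (nat_lit 0xc1) (nat_lit 0) (p (nat_lit 0x119) (nat_lit 1) (p (nat_lit 0xd1) (nat_lit 0) (p (nat_lit 0x81) (nat_lit 0) (p (nat_lit 0x41) (nat_lit 1) (p (nat_lit 0x8a898a08881a) (nat_lit 0) (p (nat_lit 0xa090988079a) (nat_lit 0) (p (nat_lit 0x88088907871a) (nat_lit 0) (p (nat_lit 0x7880887069a) (nat_lit 0) (p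 (nat_lit 0x80000800088806860a) (nat_lit 0) (p (nat_lit 0x80000800068786058a) (nat_lit 0) (p (nat_lit 0x8687058502) (nat_lit 0) (p (nat_lit 0x606850482) (nat_lit 0) (p (nat_lit 0x160014) (nat_lit 0) (p (nat_lit 0x68612) (nat_lit 0) (p (nat_lit 0x50592) (nat_lit 0) (p (nat_lit 0x40512) (nat_lit 0) (p (nat_lit 0x50312) (nat_lit 0) (p (nat_lit 0x38292) (nat_lit 0) (p (nat_lit 0x28212) (nat_lit 0) (p (nat_lit 0x38112) (nat_lit 0) (p (nat_lit 0x20092) (nat_lit 0) (p (nat_lit 0x10012) (nat_lit 0) pn))))))))))))))))))))))))))))))))))) :=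
  Cl.node (nat_lit 0xc8d0d8c0b9a) (nat_lit 1) (by decide +kernel) (ClAll.succ ClAll.zero n37)

def n52 : Cl (O (nat_lit 3)) (R (nat_lit 143633))
    (p (nat_lit 0x40004) (nat_lit 0) (p (nat_lit 0x80004) (nat_lit 0) (p (nat_lit 0x108014) (nat_lit 0) (p (nat_lit 0x100004) (nat_lit 0) (p (nat_lit 0x1fc00c) (nat_lit 0) (p (nat_lit 0xb0014) (nat_lit 1) (p (nat_lit 0x200004) (nat_lit 0) (p (nat_lit 0x380c2) (nat_lit 1) (p (nat_lit 0x3c4aa) (nat_lit 10) (p (nat_lit 0x109) (nat_lit 1) (p (nat_lit 0x89) (nat_lit 1) (p (nat_lit 0xc9) (nat_lit 1) (p (nat_lit 0xc1) (nat_lit 0) (p (nat_lit 0x119) (nat_lit 1) (p (nat_lit 0xd1) (nat_lit 0) (p (nat_lit 0x81) (nat_lit 0) (p (nat_lit 0x41) (nat_lit 1) (p (nat_lit 0x8a898a08881a) (nat_lit 0) (p (nat_lit 0xa090988079a) (nat_lit 0) (p (nat_lit 0x88088907871a) (nat_lit 0) (p (nat_lit 0x7880887069a) (nat_lit 0) (p (nat_lit 0x80000800088806860a)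 (nat_lit 0) (p (nat_lit 0x80000800068786058a) (nat_lit 0) (p (nat_lit 0x8687058502) (nat_lit 0) (p (nat_lit 0x606850482) (nat_lit 0) (p (nat_lit 0x160014) (nat_lit 0) (p (nat_lit 0x68612) (nat_lit 0) (p (nat_lit 0x50592) (nat_lit 0) (p (nat_lit 0x40512) (nat_lit 0) (p (nat_lit 0x50312) (nat_lit 0) (p (nat_lit 0x38292) (nat_lit 0) (p (nat_lit 0x28212) (nat_lit 0) (p (nat_lit 0x38112) (nat_lit 0) (p (nat_lit 0x20092) (nat_lit 0) (p (nat_lit 0x10012) (nat_lit 0) pn))))))))))))))))))))))))))))))))))) :=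
  Cl.node (nat_lit 0x2a825a28010b8c8b0a8a) (nat_lit 1) (by decide +kernel) (ClAll.succ ClAll.zero n38)

def n53 : Cl (O (nat_lit 3)) (R (nat_lit 143633))
    (p (nat_lit 0x119) (nat_lit 1) (p (nat_lit 0x100004) (nat_lit 0) (p (nat_lit 0x134014) (nat_lit 0) (p (nat_lit 0x8000c) (nat_lit 1) (p (nat_lit 0x10000c) (nat_lit 0) (p (nat_lit 0x20000c) (nat_lit 0) (p (nat_lit 0x200004) (nat_lit 0) (p (nat_lit 0x380c2) (nat_lit 1) (p (nat_lit 0x3c4aa) (nat_lit 7) (p (nat_lit 0x109) (nat_lit 1) (p (nat_lit 0x89) (nat_lit 1) (p (nat_lit 0x101) (nat_lit 0) (p (nat_lit 0xc1) (nat_lit 1) (p (nat_lit 0x119) (nat_lit 1) (p (nat_lit 0xd1) (nat_lit 0) (p (nat_lit 0x81) (nat_lit 0) (p (nat_lit 0x41) (nat_lit 1) (p (nat_lit 0x8a898a08881a) (nat_lit 0) (p (nat_lit 0xa090988079a) (nat_lit 0) (p (nat_lit 0x88088907871a) (nat_lit 0) (p (nat_lit 0x7880887069a) (nat_lit 0) (p (nat_lit 0x80000800088806860a)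 (nat_lit 0) (p (nat_lit 0x80000800068786058a) (nat_lit 0) (p (nat_lit 0x8687058502) (nat_lit 0) (p (nat_lit 0x606850482) (nat_lit 0) (p (nat_lit 0x160014) (nat_lit 0) (p (nat_lit 0x68612) (nat_lit 0) (p (nat_lit 0x50592) (nat_lit 0) (p (nat_lit 0x40512) (nat_lit 0) (p (nat_lit 0x50312) (nat_lit 0) (p (nat_lit 0x38292) (nat_lit 0) (p (nat_lit 0x28212) (nat_lit 0) (p (nat_lit 0x38112) (nat_lit 0) (p (nat_lit 0x20092) (nat_lit 0) (p (nat_lit 0x10012) (nat_lit 0) pn))))))))))))))))))))))))))))))))))) :=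
  Cl.node (nat_lit 0xc1) (nat_lit 2) (by decide +kernel) (ClAll.succ (ClAll.succ ClAll.zero s794) n39)

def n54 : Cl (O (nat_lit 3)) (R (nat_lit 143633))
    (p (nat_lit 0x100004) (nat_lit 0) (p (nat_lit 0x380c2) (nat_lit 0) (p (nat_lit 0x3cc2a) (nat_lit 0) (p (nat_lit 0xc9) (nat_lit 0) (p (nat_lit 0x10000c) (nat_lit 0) (p (nat_lit 0x20000c) (nat_lit 0) (p (nat_lit 0x200004) (nat_lit 0) (p (nat_lit 0x380c2) (nat_lit 1) (p (nat_lit 0x3c4aa) (nat_lit 7) (p (nat_lit 0xd1) (nat_lit 1) (p (nat_lit 0x111) (nat_lit 1) (p (nat_lit 0x109) (nat_lit 0) (p (nat_lit 0x101) (nat_lit 0) (p (nat_lit 0x119) (nat_lit 0) (p (nat_lit 0xc1) (nat_lit 0) (p (nat_lit 0x81) (nat_lit 1) (p (nat_lit 0x41) (nat_lit 1) (p (nat_lit 0x8a898a08881a) (nat_lit 0) (p (nat_lit 0xa090988079a) (nat_lit 0) (p (nat_lit 0x88088907871a) (nat_lit 0) (p (nat_lit 0x7880887069a) (nat_lit 0) (p (nat_lit 0x80000800088806860a)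 (nat_lit 0) (p (nat_lit 0x80000800068786058a) (nat_lit 0) (p (nat_lit 0x8687058502) (nat_lit 0) (p (nat_lit 0x606850482) (nat_lit 0) (p (nat_lit 0x160014) (nat_lit 0) (p (nat_lit 0x68612) (nat_lit 0) (p (nat_lit 0x50592) (nat_lit 0) (p (nat_lit 0x40512) (nat_lit 0) (p (nat_lit 0x50312) (nat_lit 0) (p (nat_lit 0x38292) (nat_lit 0) (p (nat_lit 0x28212) (nat_lit 0) (p (nat_lit 0x38112) (nat_lit 0) (p (nat_lit 0x20092) (nat_lit 0) (p (nat_lit 0x10012) (nat_lit 0) pn))))))))))))))))))))))))))))))))))) :=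
  Cl.node (nat_lit 0x80004) (nat_lit 2) (by decide +kernel) (ClAll.succ (ClAll.succ ClAll.zero s953) s954)

def n55 : Cl (O (nat_lit 3)) (R (nat_lit 143633))
    (p (nat_lit 0x41) (nat_lit 1) (p (nat_lit 0x101) (nat_lit 0) (p (nat_lit 0x100004) (nat_lit 0) (p (nat_lit 0xc9) (nat_lit 1) (p (nat_lit 0x10000c) (nat_lit 0) (p (nat_lit 0x20000c) (nat_lit 0) (p (nat_lit 0x200004) (nat_lit 0) (p (nat_lit 0x380c2) (nat_lit 1) (p (nat_lit 0x3c4aa) (nat_lit 7) (p (nat_lit 0xd1) (nat_lit 1) (p (nat_lit 0x111) (nat_lit 1) (p (nat_lit 0x109) (nat_lit 0) (p (nat_lit 0x101) (nat_lit 0) (p (nat_lit 0x119) (nat_lit 0) (p (nat_lit 0xc1) (nat_lit 0) (p (nat_lit 0x81) (nat_lit 1) (p (nat_lit 0x41) (nat_lit 1) (p (nat_lit 0x8a898a08881a) (nat_lit 0) (p (nat_lit 0xa090988079a) (nat_lit 0) (p (nat_lit 0x88088907871a) (nat_lit 0) (p (nat_lit 0x7880887069a) (nat_lit 0) (p (nat_lit 0x80000800088806860a)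 (nat_lit 0) (p (nat_lit 0x80000800068786058a) (nat_lit 0) (p (nat_lit 0x8687058502) (nat_lit 0) (p (nat_lit 0x606850482) (nat_lit 0) (p (nat_lit 0x160014) (nat_lit 0) (p (nat_lit 0x68612) (nat_lit 0) (p (nat_lit 0x50592) (nat_lit 0) (p (nat_lit 0x40512) (nat_lit 0) (p (nat_lit 0x50312) (nat_lit 0) (p (nat_lit 0x38292) (nat_lit 0) (p (nat_lit 0x28212) (nat_lit 0) (p (nat_lit 0x38112) (nat_lit 0) (p (nat_lit 0x20092) (nat_lit 0) (p (nat_lit 0x10012) (nat_lit 0) pn))))))))))))))))))))))))))))))))))) :=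
  Cl.node (nat_lit 0xb0014) (nat_lit 2) (by decide +kernel) (ClAll.succ (ClAll.succ ClAll.zero s968) s969)

def n56 : Cl (O (nat_lit 3)) (R (nat_lit 143633))
    (p (nat_lit 0xc8d0d8c0b9a) (nat_lit 0) (p (nat_lit 0x2680d2680d0d8d0b8b0a) (nat_lit 0) (p (nat_lit 0x2680d2680d0b8c8b0a8a) (nat_lit 0) (p (nat_lit 0x10000c) (nat_lit 0) (p (nat_lit 0x100004) (nat_lit 0) (p (nat_lit 0x1fc00c) (nat_lit 0) (p (nat_lit 0x1fc004) (nat_lit 0) (p (nat_lit 0xb0014) (nat_lit 1) (p (nat_lit 0x380c2) (nat_lit 1) (p (nat_lit 0x3c4aa) (nat_lit 7) (p (nat_lit 0x111) (nat_lit 1) (p (nat_lit 0x109) (nat_lit 0) (p (nat_lit 0xc9) (nat_lit 1) (p (nat_lit 0x119) (nat_lit 1) (p (nat_lit 0xc1) (nat_lit 0) (p (nat_lit 0x81) (nat_lit 1) (p (nat_lit 0x41) (nat_lit 1) (p (nat_lit 0x8a898a08881a) (nat_lit 0) (p (nat_lit 0xa090988079a) (nat_lit 0) (p (nat_lit 0x88088907871a) (nat_lit 0) (p (nat_lit 0x7880887069a)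 (nat_lit 0) (p (nat_lit 0x80000800088806860a) (nat_lit 0) (p (nat_lit 0x80000800068786058a) (nat_lit 0) (p (nat_lit 0x8687058502) (nat_lit 0) (p (nat_lit 0x606850482) (nat_lit 0) (p (nat_lit 0x160014) (nat_lit 0) (p (nat_lit 0x68612) (nat_lit 0) (p (nat_lit 0x50592) (nat_lit 0) (p (nat_lit 0x40512) (nat_lit 0) (p (nat_lit 0x50312) (nat_lit 0) (p (nat_lit 0x38292) (nat_lit 0) (p (nat_lit 0x28212) (nat_lit 0) (p (nat_lit 0x38112) (nat_lit 0) (p (nat_lit 0x20092) (nat_lit 0) (p (nat_lit 0x10012) (nat_lit 0) pn))))))))))))))))))))))))))))))))))) :=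
  Cl.node (nat_lit 0x8d0d8e0c8c1a) (nat_lit 1) (by decide +kernel) (ClAll.succ ClAll.zero n40)

def n57 : Cl (O (nat_lit 3)) (R (nat_lit 143633))
    (p (nat_lit 0x2680d2680d0b8c8b0a8a) (nat_lit 0) (p (nat_lit 0x10000c) (nat_lit 0) (p (nat_lit 0x100004) (nat_lit 0) (p (nat_lit 0x1fc00c) (nat_lit 0) (p (nat_lit 0x1fc004) (nat_lit 0) (p (nat_lit 0xb0014) (nat_lit 1) (p (nat_lit 0x380c2) (nat_lit 0) (p (nat_lit 0x444aa) (nat_lit 7) (p (nat_lit 0x81) (nat_lit 1) (p (nat_lit 0xc9) (nat_lit 1) (p (nat_lit 0x109) (nat_lit 1) (p (nat_lit 0x101) (nat_lit 0) (p (nat_lit 0x119) (nat_lit 0) (p (nat_lit 0xd1) (nat_lit 0) (p (nat_lit 0x89) (nat_lit 0) (p (nat_lit 0x41) (nat_lit 0) (p (nat_lit 0x8a898a08881a) (nat_lit 0) (p (nat_lit 0xa090988079a) (nat_lit 0) (p (nat_lit 0x88088907871a) (nat_lit 0) (p (nat_lit 0x7880887069a) (nat_lit 0) (p (nat_lit 0x80000800088806860a) (nat_lit 0) (p (nat_lit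 0x80000800068786058a) (nat_lit 0) (p (nat_lit 0x8687058502) (nat_lit 0) (p (nat_lit 0x606850482) (nat_lit 0) (p (nat_lit 0x160014) (nat_lit 0) (p (nat_lit 0x68612) (nat_lit 0) (p (nat_lit 0x50592) (nat_lit 0) (p (nat_lit 0x40512) (nat_lit 0) (p (nat_lit 0x50312) (nat_lit 0) (p (nat_lit 0x38292) (nat_lit 0) (p (nat_lit 0x28212) (nat_lit 0) (p (nat_lit 0x38112) (nat_lit 0) (p (nat_lit 0x20092) (nat_lit 0) (p (nat_lit 0x10012) (nat_lit 0) pn)))))))))))))))))))))))))))))))))) :=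
  Cl.node (nat_lit 0x2680d2680d0d8d0b8b0a) (nat_lit 1) (by decide +kernel) (ClAll.succ ClAll.zero n41)

def n58 : Cl (O (nat_lit 3)) (R (nat_lit 143633))
    (p (nat_lit 0x80004) (nat_lit 0) (p (nat_lit 0x81) (nat_lit 1) (p (nat_lit 0x100004) (nat_lit 0) (p (nat_lit 0x10000c) (nat_lit 0) (p (nat_lit 0x200004) (nat_lit 0) (p (nat_lit 0x20000c) (nat_lit 0) (p (nat_lit 0x380c2) (nat_lit 1) (p (nat_lit 0x444aa) (nat_lit 7) (p (nat_lit 0x81) (nat_lit 1) (p (nat_lit 0xc9) (nat_lit 1) (p (nat_lit 0x109) (nat_lit 1) (p (nat_lit 0x101) (nat_lit 0) (p (nat_lit 0x119) (nat_lit 0) (p (nat_lit 0xd1) (nat_lit 0) (p (nat_lit 0x89) (nat_lit 0) (p (nat_lit 0x41) (nat_lit 0) (p (nat_lit 0x8a898a08881a) (nat_lit 0) (p (nat_lit 0xa090988079a) (nat_lit 0) (p (nat_lit 0x88088907871a) (nat_lit 0) (p (nat_lit 0x7880887069a) (nat_lit 0) (p (nat_lit 0x80000800088806860a) (nat_lit 0) (p (nat_lit 0x80000800068786058a)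 (nat_lit 0) (p (nat_lit 0x8687058502) (nat_lit 0) (p (nat_lit 0x606850482) (nat_lit 0) (p (nat_lit 0x160014) (nat_lit 0) (p (nat_lit 0x68612) (nat_lit 0) (p (nat_lit 0x50592) (nat_lit 0) (p (nat_lit 0x40512) (nat_lit 0) (p (nat_lit 0x50312) (nat_lit 0) (p (nat_lit 0x38292) (nat_lit 0) (p (nat_lit 0x28212) (nat_lit 0) (p (nat_lit 0x38112) (nat_lit 0) (p (nat_lit 0x20092) (nat_lit 0) (p (nat_lit 0x10012) (nat_lit 0) pn)))))))))))))))))))))))))))))))))) :=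
  Cl.node (nat_lit 0xc1) (nat_lit 2) (by decide +kernel) (ClAll.succ (ClAll.succ ClAll.zero s22) s23)

def n59 : Cl (O (nat_lit 3)) (R (nat_lit 143633))
    (p (nat_lit 0x119) (nat_lit 1) (p (nat_lit 0x109) (nat_lit 0) (p (nat_lit 0x100004) (nat_lit 0) (p (nat_lit 0x10000c) (nat_lit 0) (p (nat_lit 0x200004) (nat_lit 0) (p (nat_lit 0x20000c) (nat_lit 0) (p (nat_lit 0x380c2) (nat_lit 1) (p (nat_lit 0x444aa) (nat_lit 7) (p (nat_lit 0x109) (nat_lit 1) (p (nat_lit 0x101) (nat_lit 0) (p (nat_lit 0x81) (nat_lit 1) (p (nat_lit 0xc1) (nat_lit 1) (p (nat_lit 0x119) (nat_lit 1) (p (nat_lit 0xd1) (nat_lit 0) (p (nat_lit 0x89) (nat_lit 0) (p (nat_lit 0x41) (nat_lit 0) (p (nat_lit 0x8a898a08881a) (nat_lit 0) (p (nat_lit 0xa090988079a) (nat_lit 0) (p (nat_lit 0x88088907871a) (nat_lit 0) (p (nat_lit 0x7880887069a) (nat_lit 0) (p (nat_lit 0x80000800088806860a) (nat_lit 0) (p (nat_lit 0x80000800068786058a)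 (nat_lit 0) (p (nat_lit 0x8687058502) (nat_lit 0) (p (nat_lit 0x606850482) (nat_lit 0) (p (nat_lit 0x160014) (nat_lit 0) (p (nat_lit 0x68612) (nat_lit 0) (p (nat_lit 0x50592) (nat_lit 0) (p (nat_lit 0x40512) (nat_lit 0) (p (nat_lit 0x50312) (nat_lit 0) (p (nat_lit 0x38292) (nat_lit 0) (p (nat_lit 0x28212) (nat_lit 0) (p (nat_lit 0x38112) (nat_lit 0) (p (nat_lit 0x20092) (nat_lit 0) (p (nat_lit 0x10012) (nat_lit 0) pn)))))))))))))))))))))))))))))))))) :=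
  Cl.node (nat_lit 0x8000c) (nat_lit 2) (by decide +kernel) (ClAll.succ (ClAll.succ ClAll.zero n42) s216)

def n60 : Cl (O (nat_lit 3)) (R (nat_lit 143633))
    (p (nat_lit 0xc1) (nat_lit 0) (p (nat_lit 0x100004) (nat_lit 0) (p (nat_lit 0x10000c) (nat_lit 0) (p (nat_lit 0x200004) (nat_lit 0) (p (nat_lit 0x20000c) (nat_lit 0) (p (nat_lit 0xb0014) (nat_lit 0) (p (nat_lit 0x380c2) (nat_lit 0) (p (nat_lit 0x444aa) (nat_lit 7) (p (nat_lit 0xd1) (nat_lit 1) (p (nat_lit 0x111) (nat_lit 1) (p (nat_lit 0x109) (nat_lit 0) (p (nat_lit 0x101) (nat_lit 0) (p (nat_lit 0x119) (nat_lit 0) (p (nat_lit 0xc9) (nat_lit 0) (p (nat_lit 0x89) (nat_lit 1) (p (nat_lit 0x41) (nat_lit 0) (p (nat_lit 0x8a898a08881a) (nat_lit 0) (p (nat_lit 0xa090988079a) (nat_lit 0) (p (nat_lit 0x88088907871a) (nat_lit 0) (p (nat_lit 0x7880887069a) (nat_lit 0) (p (nat_lit 0x80000800088806860a) (nat_lit 0) (p (nat_lit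 0x80000800068786058a) (nat_lit 0) (p (nat_lit 0x8687058502) (nat_lit 0) (p (nat_lit 0x606850482) (nat_lit 0) (p (nat_lit 0x160014) (nat_lit 0) (p (nat_lit 0x68612) (nat_lit 0) (p (nat_lit 0x50592) (nat_lit 0) (p (nat_lit 0x40512) (nat_lit 0) (p (nat_lit 0x50312) (nat_lit 0) (p (nat_lit 0x38292) (nat_lit 0) (p (nat_lit 0x28212) (nat_lit 0) (p (nat_lit 0x38112) (nat_lit 0) (p (nat_lit 0x20092) (nat_lit 0) (p (nat_lit 0x10012) (nat_lit 0) pn)))))))))))))))))))))))))))))))))) :=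
  Cl.node (nat_lit 0x80004) (nat_lit 2) (by decide +kernel) (ClAll.succ (ClAll.succ ClAll.zero n43) s336)

def n61 : Cl (O (nat_lit 3)) (R (nat_lit 143633))
    (p (nat_lit 0x100004) (nat_lit 0) (p (nat_lit 0x108014) (nat_lit 0) (p (nat_lit 0x10000c) (nat_lit 1) (p (nat_lit 0x1fc00c) (nat_lit 0) (p (nat_lit 0x1fc004) (nat_lit 0) (p (nat_lit 0xb0014) (nat_lit 1) (p (nat_lit 0x380c2) (nat_lit 0) (p (nat_lit 0x444aa) (nat_lit 7) (p (nat_lit 0xd1) (nat_lit 1) (p (nat_lit 0x111) (nat_lit 1) (p (nat_lit 0x109) (nat_lit 0) (p (nat_lit 0x101) (nat_lit 0) (p (nat_lit 0x119) (nat_lit 0) (p (nat_lit 0xc9) (nat_lit 0) (p (nat_lit 0x89) (nat_lit 1) (p (nat_lit 0x41) (nat_lit 0) (p (nat_lit 0x8a898a08881a) (nat_lit 0) (p (nat_lit 0xa090988079a) (nat_lit 0) (p (nat_lit 0x88088907871a) (nat_lit 0) (p (nat_lit 0x7880887069a) (nat_lit 0) (p (nat_lit 0x80000800088806860a) (nat_lit 0) (p (nat_lit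 0x80000800068786058a) (nat_lit 0) (p (nat_lit 0x8687058502) (nat_lit 0) (p (nat_lit 0x606850482) (nat_lit 0) (p (nat_lit 0x160014) (nat_lit 0) (p (nat_lit 0x68612) (nat_lit 0) (p (nat_lit 0x50592) (nat_lit 0) (p (nat_lit 0x40512) (nat_lit 0) (p (nat_lit 0x50312) (nat_lit 0) (p (nat_lit 0x38292) (nat_lit 0) (p (nat_lit 0x28212) (nat_lit 0) (p (nat_lit 0x38112) (nat_lit 0) (p (nat_lit 0x20092) (nat_lit 0) (p (nat_lit 0x10012) (nat_lit 0) pn)))))))))))))))))))))))))))))))))) :=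
  Cl.node (nat_lit 0xdc014) (nat_lit 2) (by decide +kernel) (ClAll.succ (ClAll.succ ClAll.zero n44) s350)

def n62 : Cl (O (nat_lit 3)) (R (nat_lit 143633))
    (p (nat_lit 0x3cc2a) (nat_lit 0) (p (nat_lit 0xc1) (nat_lit 0) (p (nat_lit 0x10000c) (nat_lit 0) (p (nat_lit 0x100004) (nat_lit 0) (p (nat_lit 0x200004) (nat_lit 0) (p (nat_lit 0x20000c) (nat_lit 0) (p (nat_lit 0x380c2) (nat_lit 1) (p (nat_lit 0x444aa) (nat_lit 7) (p (nat_lit 0xd1) (nat_lit 1) (p (nat_lit 0x111) (nat_lit 1) (p (nat_lit 0x109) (nat_lit 0) (p (nat_lit 0x101) (nat_lit 0) (p (nat_lit 0x119) (nat_lit 0) (p (nat_lit 0xc9) (nat_lit 0) (p (nat_lit 0x89) (nat_lit 1) (p (nat_lit 0x41) (nat_lit 0) (p (nat_lit 0x8a898a08881a) (nat_lit 0) (p (nat_lit 0xa090988079a) (nat_lit 0) (p (nat_lit 0x88088907871a) (nat_lit 0) (p (nat_lit 0x7880887069a) (nat_lit 0) (p (nat_lit 0x80000800088806860a) (nat_lit 0) (p (nat_lit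 0x80000800068786058a) (nat_lit 0) (p (nat_lit 0x8687058502) (nat_lit 0) (p (nat_lit 0x606850482) (nat_lit 0) (p (nat_lit 0x160014) (nat_lit 0) (p (nat_lit 0x68612) (nat_lit 0) (p (nat_lit 0x50592) (nat_lit 0) (p (nat_lit 0x40512) (nat_lit 0) (p (nat_lit 0x50312) (nat_lit 0) (p (nat_lit 0x38292) (nat_lit 0) (p (nat_lit 0x28212) (nat_lit 0) (p (nat_lit 0x38112) (nat_lit 0) (p (nat_lit 0x20092) (nat_lit 0) (p (nat_lit 0x10012) (nat_lit 0) pn)))))))))))))))))))))))))))))))))) :=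
  Cl.node (nat_lit 0x380c2) (nat_lit 1) (by decide +kernel) (ClAll.succ ClAll.zero n45)

def n63 : Cl (O (nat_lit 3)) (R (nat_lit 143633))
    (p (nat_lit 0x101) (nat_lit 0) (p (nat_lit 0xc1) (nat_lit 1) (p (nat_lit 0x10000c) (nat_lit 0) (p (nat_lit 0x100004) (nat_lit 0) (p (nat_lit 0x200004) (nat_lit 0) (p (nat_lit 0x20000c) (nat_lit 0) (p (nat_lit 0x380c2) (nat_lit 1) (p (nat_lit 0x444aa) (nat_lit 7) (p (nat_lit 0xd1) (nat_lit 1) (p (nat_lit 0x111) (nat_lit 1) (p (nat_lit 0x109) (nat_lit 0) (p (nat_lit 0x101) (nat_lit 0) (p (nat_lit 0x119) (nat_lit 0) (p (nat_lit 0xc9) (nat_lit 0) (p (nat_lit 0x89) (nat_lit 1) (p (nat_lit 0x41) (nat_lit 0) (p (nat_lit 0x8a898a08881a) (nat_lit 0) (p (nat_lit 0xa090988079a) (nat_lit 0) (p (nat_lit 0x88088907871a) (nat_lit 0) (p (nat_lit 0x7880887069a) (nat_lit 0) (p (nat_lit 0x80000800088806860a) (nat_lit 0) (p (nat_lit 0x80000800068786058a)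 (nat_lit 0) (p (nat_lit 0x8687058502) (nat_lit 0) (p (nat_lit 0x606850482) (nat_lit 0) (p (nat_lit 0x160014) (nat_lit 0) (p (nat_lit 0x68612) (nat_lit 0) (p (nat_lit 0x50592) (nat_lit 0) (p (nat_lit 0x40512) (nat_lit 0) (p (nat_lit 0x50312) (nat_lit 0) (p (nat_lit 0x38292) (nat_lit 0) (p (nat_lit 0x28212) (nat_lit 0) (p (nat_lit 0x38112) (nat_lit 0) (p (nat_lit 0x20092) (nat_lit 0) (p (nat_lit 0x10012) (nat_lit 0) pn)))))))))))))))))))))))))))))))))) :=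
  Cl.node (nat_lit 0x109) (nat_lit 2) (by decide +kernel) (ClAll.succ (ClAll.succ ClAll.zero s368) s369)

def n64 : Cl (O (nat_lit 3)) (R (nat_lit 143633))
    (p (nat_lit 0xc9) (nat_lit 0) (p (nat_lit 0x100004) (nat_lit 0) (p (nat_lit 0xc1) (nat_lit 0) (p (nat_lit 0x10000c) (nat_lit 0) (p (nat_lit 0x200004) (nat_lit 0) (p (nat_lit 0x20000c) (nat_lit 0) (p (nat_lit 0xb0014) (nat_lit 0) (p (nat_lit 0x380c2) (nat_lit 0) (p (nat_lit 0x444aa) (nat_lit 7) (p (nat_lit 0xd1) (nat_lit 1) (p (nat_lit 0x109) (nat_lit 1) (p (nat_lit 0x101) (nat_lit 0) (p (nat_lit 0x119) (nat_lit 0) (p (nat_lit 0xc9) (nat_lit 0) (p (nat_lit 0x89) (nat_lit 1) (p (nat_lit 0x41) (nat_lit 0) (p (nat_lit 0x8a898a08881a) (nat_lit 0) (p (nat_lit 0xa090988079a) (nat_lit 0) (p (nat_lit 0x88088907871a) (nat_lit 0) (p (nat_lit 0x7880887069a) (nat_lit 0) (p (nat_lit 0x80000800088806860a) (nat_lit 0) (p (nat_lit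 0x80000800068786058a) (nat_lit 0) (p (nat_lit 0x8687058502) (nat_lit 0) (p (nat_lit 0x606850482) (nat_lit 0) (p (nat_lit 0x160014) (nat_lit 0) (p (nat_lit 0x68612) (nat_lit 0) (p (nat_lit 0x50592) (nat_lit 0) (p (nat_lit 0x40512) (nat_lit 0) (p (nat_lit 0x50312) (nat_lit 0) (p (nat_lit 0x38292) (nat_lit 0) (p (nat_lit 0x28212) (nat_lit 0) (p (nat_lit 0x38112) (nat_lit 0) (p (nat_lit 0x20092) (nat_lit 0) (p (nat_lit 0x10012) (nat_lit 0) pn)))))))))))))))))))))))))))))))))) :=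
  Cl.node (nat_lit 0xd1) (nat_lit 2) (by decide +kernel) (ClAll.succ (ClAll.succ ClAll.zero n46) n47)

def n65 : Cl (O (nat_lit 3)) (R (nat_lit 143633))
    (p (nat_lit 0x2680d2680d0d8d0b8b0a) (nat_lit 0) (p (nat_lit 0x2680d2680d0b8c8b0a8a) (nat_lit 0) (p (nat_lit 0x100004) (nat_lit 0) (p (nat_lit 0x10000c) (nat_lit 0) (p (nat_lit 0x1fc00c) (nat_lit 0) (p (nat_lit 0x1fc004) (nat_lit 0) (p (nat_lit 0xb0014) (nat_lit 1) (p (nat_lit 0x380c2) (nat_lit 0) (p (nat_lit 0x444aa) (nat_lit 7) (p (nat_lit 0xd1) (nat_lit 1) (p (nat_lit 0x109) (nat_lit 1) (p (nat_lit 0x101) (nat_lit 0) (p (nat_lit 0x119) (nat_lit 0) (p (nat_lit 0xc9) (nat_lit 0) (p (nat_lit 0x89) (nat_lit 1) (p (nat_lit 0x41) (nat_lit 0) (p (nat_lit 0x8a898a08881a) (nat_lit 0) (p (nat_lit 0xa090988079a) (nat_lit 0) (p (nat_lit 0x88088907871a) (nat_lit 0) (p (nat_lit 0x7880887069a) (nat_lit 0) (p (nat_lit 0x80000800088806860a)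 (nat_lit 0) (p (nat_lit 0x80000800068786058a) (nat_lit 0) (p (nat_lit 0x8687058502) (nat_lit 0) (p (nat_lit 0x606850482) (nat_lit 0) (p (nat_lit 0x160014) (nat_lit 0) (p (nat_lit 0x68612) (nat_lit 0) (p (nat_lit 0x50592) (nat_lit 0) (p (nat_lit 0x40512) (nat_lit 0) (p (nat_lit 0x50312) (nat_lit 0) (p (nat_lit 0x38292) (nat_lit 0) (p (nat_lit 0x28212) (nat_lit 0) (p (nat_lit 0x38112) (nat_lit 0) (p (nat_lit 0x20092) (nat_lit 0) (p (nat_lit 0x10012) (nat_lit 0) pn)))))))))))))))))))))))))))))))))) :=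
  Cl.node (nat_lit 0xc8d0d8c0b9a) (nat_lit 1) (by decide +kernel) (ClAll.succ ClAll.zero n48)

def n66 : Cl (O (nat_lit 3)) (R (nat_lit 143633))
    (p (nat_lit 0xd1) (nat_lit 0) (p (nat_lit 0x119) (nat_lit 1) (p (nat_lit 0xc9) (nat_lit 0) (p (nat_lit 0x100004) (nat_lit 0) (p (nat_lit 0x10000c) (nat_lit 0) (p (nat_lit 0x200004) (nat_lit 0) (p (nat_lit 0x20000c) (nat_lit 0) (p (nat_lit 0x380c2) (nat_lit 1) (p (nat_lit 0x444aa) (nat_lit 7) (p (nat_lit 0xd1) (nat_lit 1) (p (nat_lit 0xc1) (nat_lit 0) (p (nat_lit 0x101) (nat_lit 1) (p (nat_lit 0x119) (nat_lit 0) (p (nat_lit 0xc9) (nat_lit 0) (p (nat_lit 0x89) (nat_lit 1) (p (nat_lit 0x41) (nat_lit 0) (p (nat_lit 0x8a898a08881a) (nat_lit 0) (p (nat_lit 0xa090988079a) (nat_lit 0) (p (nat_lit 0x88088907871a) (nat_lit 0) (p (nat_lit 0x7880887069a) (nat_lit 0) (p (nat_lit 0x80000800088806860a) (nat_lit 0) (p (nat_lit 0x80000800068786058a)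 (nat_lit 0) (p (nat_lit 0x8687058502) (nat_lit 0) (p (nat_lit 0x606850482) (nat_lit 0) (p (nat_lit 0x160014) (nat_lit 0) (p (nat_lit 0x68612) (nat_lit 0) (p (nat_lit 0x50592) (nat_lit 0) (p (nat_lit 0x40512) (nat_lit 0) (p (nat_lit 0x50312) (nat_lit 0) (p (nat_lit 0x38292) (nat_lit 0) (p (nat_lit 0x28212) (nat_lit 0) (p (nat_lit 0x38112) (nat_lit 0) (p (nat_lit 0x20092) (nat_lit 0) (p (nat_lit 0x10012) (nat_lit 0) pn)))))))))))))))))))))))))))))))))) :=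
  Cl.node (nat_lit 0x80004) (nat_lit 2) (by decide +kernel) (ClAll.succ (ClAll.succ ClAll.zero n49) s473)

def n67 : Cl (O (nat_lit 3)) (R (nat_lit 143633))
    (p (nat_lit 0x2680d2680d0d8d0b8b0a) (nat_lit 0) (p (nat_lit 0x2680d2680d0b8c8b0a8a) (nat_lit 0) (p (nat_lit 0x100004) (nat_lit 0) (p (nat_lit 0x10000c) (nat_lit 0) (p (nat_lit 0x1fc00c) (nat_lit 0) (p (nat_lit 0x1fc004) (nat_lit 0) (p (nat_lit 0xb0014) (nat_lit 1) (p (nat_lit 0x380c2) (nat_lit 0) (p (nat_lit 0x444aa) (nat_lit 7) (p (nat_lit 0x111) (nat_lit 1) (p (nat_lit 0xd1) (nat_lit 1) (p (nat_lit 0xc1) (nat_lit 0) (p (nat_lit 0x119) (nat_lit 1) (p (nat_lit 0xc9) (nat_lit 0) (p (nat_lit 0x89) (nat_lit 1) (p (nat_lit 0x41) (nat_lit 0) (p (nat_lit 0x8a898a08881a) (nat_lit 0) (p (nat_lit 0xa090988079a) (nat_lit 0) (p (nat_lit 0x88088907871a) (nat_lit 0) (p (nat_lit 0x7880887069a) (nat_lit 0) (p (nat_lit 0x80000800088806860a)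 (nat_lit 0) (p (nat_lit 0x80000800068786058a) (nat_lit 0) (p (nat_lit 0x8687058502) (nat_lit 0) (p (nat_lit 0x606850482) (nat_lit 0) (p (nat_lit 0x160014) (nat_lit 0) (p (nat_lit 0x68612) (nat_lit 0) (p (nat_lit 0x50592) (nat_lit 0) (p (nat_lit 0x40512) (nat_lit 0) (p (nat_lit 0x50312) (nat_lit 0) (p (nat_lit 0x38292) (nat_lit 0) (p (nat_lit 0x28212) (nat_lit 0) (p (nat_lit 0x38112) (nat_lit 0) (p (nat_lit 0x20092) (nat_lit 0) (p (nat_lit 0x10012) (nat_lit 0) pn)))))))))))))))))))))))))))))))))) :=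
  Cl.node (nat_lit 0xc8d0d8c0b9a) (nat_lit 1) (by decide +kernel) (ClAll.succ ClAll.zero n50)

def n68 : Cl (O (nat_lit 3)) (R (nat_lit 143633))
    (p (nat_lit 0x101) (nat_lit 0) (p (nat_lit 0x119) (nat_lit 0) (p (nat_lit 0x109) (nat_lit 0) (p (nat_lit 0x100004) (nat_lit 0) (p (nat_lit 0x10000c) (nat_lit 0) (p (nat_lit 0x200004) (nat_lit 0) (p (nat_lit 0x20000c) (nat_lit 0) (p (nat_lit 0x380c2) (nat_lit 1) (p (nat_lit 0x444aa) (nat_lit 7) (p (nat_lit 0x111) (nat_lit 1) (p (nat_lit 0x101) (nat_lit 0) (p (nat_lit 0xc1) (nat_lit 1) (p (nat_lit 0x119) (nat_lit 1) (p (nat_lit 0xc9) (nat_lit 0) (p (nat_lit 0x89) (nat_lit 1) (p (nat_lit 0x41) (nat_lit 0) (p (nat_lit 0x8a898a08881a) (nat_lit 0) (p (nat_lit 0xa090988079a) (nat_lit 0) (p (nat_lit 0x88088907871a) (nat_lit 0) (p (nat_lit 0x7880887069a) (nat_lit 0) (p (nat_lit 0x80000800088806860a) (nat_lit 0) (p (nat_lit 0x80000800068786058a)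 (nat_lit 0) (p (nat_lit 0x8687058502) (nat_lit 0) (p (nat_lit 0x606850482) (nat_lit 0) (p (nat_lit 0x160014) (nat_lit 0) (p (nat_lit 0x68612) (nat_lit 0) (p (nat_lit 0x50592) (nat_lit 0) (p (nat_lit 0x40512) (nat_lit 0) (p (nat_lit 0x50312) (nat_lit 0) (p (nat_lit 0x38292) (nat_lit 0) (p (nat_lit 0x28212) (nat_lit 0) (p (nat_lit 0x38112) (nat_lit 0) (p (nat_lit 0x20092) (nat_lit 0) (p (nat_lit 0x10012) (nat_lit 0) pn)))))))))))))))))))))))))))))))))) :=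
  Cl.node (nat_lit 0x3cc2a) (nat_lit 12) (by decide +kernel) (ClAll.succ (ClAll.succ (ClAll.succ (ClAll.succ (ClAll.succ (ClAll.succ (ClAll.succ (ClAll.succ (ClAll.succ (ClAll.succ (ClAll.succ (ClAll.succ ClAll.zero s542) s543) s544) s545) s546) s547) s548) s549) s550) s551) s552) s553)

def n69 : Cl (O (nat_lit 3)) (R (nat_lit 143633))
    (p (nat_lit 0x2680d2680d0b8c8b0a8a) (nat_lit 0) (p (nat_lit 0x10000c) (nat_lit 0) (p (nat_lit 0x100004) (nat_lit 0) (p (nat_lit 0x1fc00c) (nat_lit 0) (p (nat_lit 0x1fc004) (nat_lit 0) (p (nat_lit 0xb0014) (nat_lit 1) (p (nat_lit 0x380c2) (nat_lit 1) (p (nat_lit 0x3c4aa) (nat_lit 7) (p (nat_lit 0x109) (nat_lit 1) (p (nat_lit 0x89) (nat_lit 1) (p (nat_lit 0xc9) (nat_lit 1) (p (nat_lit 0xc1) (nat_lit 0) (p (nat_lit 0x119) (nat_lit 1) (p (nat_lit 0xd1) (nat_lit 0) (p (nat_lit 0x81) (nat_lit 0) (p (nat_lit 0x41) (nat_lit 1) (p (nat_lit 0x8a898a08881a)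 (nat_lit 0) (p (nat_lit 0xa090988079a) (nat_lit 0) (p (nat_lit 0x88088907871a) (nat_lit 0) (p (nat_lit 0x7880887069a) (nat_lit 0) (p (nat_lit 0x80000800088806860a) (nat_lit 0) (p (nat_lit 0x80000800068786058a) (nat_lit 0) (p (nat_lit 0x8687058502) (nat_lit 0) (p (nat_lit 0x606850482) (nat_lit 0) (p (nat_lit 0x160014) (nat_lit 0) (p (nat_lit 0x68612) (nat_lit 0) (p (nat_lit 0x50592) (nat_lit 0) (p (nat_lit 0x40512) (nat_lit 0) (p (nat_lit 0x50312) (nat_lit 0) (p (nat_lit 0x38292) (nat_lit 0) (p (nat_lit 0x28212) (nat_lit 0) (p (nat_lit 0x38112) (nat_lit 0) (p (nat_lit 0x20092) (nat_lit 0) (p (nat_lit 0x10012) (nat_lit 0) pn)))))))))))))))))))))))))))))))))) :=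
  Cl.node (nat_lit 0x2680d2680d0d8d0b8b0a) (nat_lit 1) (by decide +kernel) (ClAll.succ ClAll.zero n51)

def n70 : Cl (O (nat_lit 3)) (R (nat_lit 143633))
    (p (nat_lit 0x80004) (nat_lit 0) (p (nat_lit 0x108014) (nat_lit 0) (p (nat_lit 0x100004) (nat_lit 0) (p (nat_lit 0x1fc00c) (nat_lit 0) (p (nat_lit 0xb0014) (nat_lit 1) (p (nat_lit 0x200004) (nat_lit 0) (p (nat_lit 0x380c2) (nat_lit 1) (p (nat_lit 0x3c4aa) (nat_lit 10) (p (nat_lit 0x109) (nat_lit 1) (p (nat_lit 0x89) (nat_lit 1) (p (nat_lit 0xc9) (nat_lit 1) (p (nat_lit 0xc1) (nat_lit 0) (p (nat_lit 0x119) (nat_lit 1) (p (nat_lit 0xd1) (nat_lit 0) (p (nat_lit 0x81) (nat_lit 0) (p (nat_lit 0x41) (nat_lit 1) (p (nat_lit 0x8a898a08881a) (nat_lit 0) (p (nat_lit 0xa090988079a) (nat_lit 0) (p (nat_lit 0x88088907871a) (nat_lit 0) (p (nat_lit 0x7880887069a) (nat_lit 0) (p (nat_lit 0x80000800088806860a) (nat_lit 0) (p (nat_lit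 0x80000800068786058a) (nat_lit 0) (p (nat_lit 0x8687058502) (nat_lit 0) (p (nat_lit 0x606850482) (nat_lit 0) (p (nat_lit 0x160014) (nat_lit 0) (p (nat_lit 0x68612) (nat_lit 0) (p (nat_lit 0x50592) (nat_lit 0) (p (nat_lit 0x40512) (nat_lit 0) (p (nat_lit 0x50312) (nat_lit 0) (p (nat_lit 0x38292) (nat_lit 0) (p (nat_lit 0x28212) (nat_lit 0) (p (nat_lit 0x38112) (nat_lit 0) (p (nat_lit 0x20092) (nat_lit 0) (p (nat_lit 0x10012) (nat_lit 0) pn)))))))))))))))))))))))))))))))))) :=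
  Cl.node (nat_lit 0x40004) (nat_lit 2) (by decide +kernel) (ClAll.succ (ClAll.succ ClAll.zero n52) s750)

def n71 : Cl (O (nat_lit 3)) (R (nat_lit 143633))
    (p (nat_lit 0x100004) (nat_lit 0) (p (nat_lit 0x134014) (nat_lit 0) (p (nat_lit 0x8000c) (nat_lit 1) (p (nat_lit 0x10000c) (nat_lit 0) (p (nat_lit 0x200004) (nat_lit 0) (p (nat_lit 0x20000c) (nat_lit 0) (p (nat_lit 0x380c2) (nat_lit 0) (p (nat_lit 0x3c4aa) (nat_lit 7) (p (nat_lit 0x109) (nat_lit 1) (p (nat_lit 0x89) (nat_lit 1) (p (nat_lit 0x101) (nat_lit 0) (p (nat_lit 0xc1) (nat_lit 1) (p (nat_lit 0x119) (nat_lit 1) (p (nat_lit 0xd1) (nat_lit 0) (p (nat_lit 0x81) (nat_lit 0) (p (nat_lit 0x41) (nat_lit 1) (p (nat_lit 0x8a898a08881a) (nat_lit 0) (p (nat_lit 0xa090988079a) (nat_lit 0) (p (nat_lit 0x88088907871a) (nat_lit 0) (p (nat_lit 0x7880887069a) (nat_lit 0) (p (nat_lit 0x80000800088806860a) (nat_lit 0) (p (nat_lit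 0x80000800068786058a) (nat_lit 0) (p (nat_lit 0x8687058502) (nat_lit 0) (p (nat_lit 0x606850482) (nat_lit 0) (p (nat_lit 0x160014) (nat_lit 0) (p (nat_lit 0x68612) (nat_lit 0) (p (nat_lit 0x50592) (nat_lit 0) (p (nat_lit 0x40512) (nat_lit 0) (p (nat_lit 0x50312) (nat_lit 0) (p (nat_lit 0x38292) (nat_lit 0) (p (nat_lit 0x28212) (nat_lit 0) (p (nat_lit 0x38112) (nat_lit 0) (p (nat_lit 0x20092) (nat_lit 0) (p (nat_lit 0x10012) (nat_lit 0) pn)))))))))))))))))))))))))))))))))) :=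
  Cl.node (nat_lit 0x119) (nat_lit 2) (by decide +kernel) (ClAll.succ (ClAll.succ ClAll.zero s780) s781)

def n72 : Cl (O (nat_lit 3)) (R (nat_lit 143633))
    (p (nat_lit 0x100004) (nat_lit 0) (p (nat_lit 0x109) (nat_lit 0) (p (nat_lit 0x8000c) (nat_lit 0) (p (nat_lit 0x10000c) (nat_lit 0) (p (nat_lit 0x20000c) (nat_lit 0) (p (nat_lit 0x200004) (nat_lit 0) (p (nat_lit 0x380c2) (nat_lit 1) (p (nat_lit 0x3c4aa) (nat_lit 7) (p (nat_lit 0x109) (nat_lit 1) (p (nat_lit 0x89) (nat_lit 1) (p (nat_lit 0x101) (nat_lit 0) (p (nat_lit 0xc1) (nat_lit 1) (p (nat_lit 0x119) (nat_lit 1) (p (nat_lit 0xd1) (nat_lit 0) (p (nat_lit 0x81) (nat_lit 0) (p (nat_lit 0x41) (nat_lit 1) (p (nat_lit 0x8a898a08881a) (nat_lit 0) (p (nat_lit 0xa090988079a) (nat_lit 0) (p (nat_lit 0x88088907871a) (nat_lit 0) (p (nat_lit 0x7880887069a) (nat_lit 0) (p (nat_lit 0x80000800088806860a) (nat_lit 0) (p (nat_lit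 0x80000800068786058a) (nat_lit 0) (p (nat_lit 0x8687058502) (nat_lit 0) (p (nat_lit 0x606850482) (nat_lit 0) (p (nat_lit 0x160014) (nat_lit 0) (p (nat_lit 0x68612) (nat_lit 0) (p (nat_lit 0x50592) (nat_lit 0) (p (nat_lit 0x40512) (nat_lit 0) (p (nat_lit 0x50312) (nat_lit 0) (p (nat_lit 0x38292) (nat_lit 0) (p (nat_lit 0x28212) (nat_lit 0) (p (nat_lit 0x38112) (nat_lit 0) (p (nat_lit 0x20092) (nat_lit 0) (p (nat_lit 0x10012) (nat_lit 0) pn)))))))))))))))))))))))))))))))))) :=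
  Cl.node (nat_lit 0xc1) (nat_lit 2) (by decide +kernel) (ClAll.succ (ClAll.succ ClAll.zero s787) s788)

def n73 : Cl (O (nat_lit 3)) (R (nat_lit 143633))
    (p (nat_lit 0x41) (nat_lit 1) (p (nat_lit 0x109) (nat_lit 1) (p (nat_lit 0x8000c) (nat_lit 0) (p (nat_lit 0x10000c) (nat_lit 0) (p (nat_lit 0x20000c) (nat_lit 0) (p (nat_lit 0x200004) (nat_lit 0) (p (nat_lit 0x380c2) (nat_lit 1) (p (nat_lit 0x3c4aa) (nat_lit 7) (p (nat_lit 0x109) (nat_lit 1) (p (nat_lit 0x89) (nat_lit 1) (p (nat_lit 0x101) (nat_lit 0) (p (nat_lit 0xc1) (nat_lit 1) (p (nat_lit 0x119) (nat_lit 1) (p (nat_lit 0xd1) (nat_lit 0) (p (nat_lit 0x81) (nat_lit 0) (p (nat_lit 0x41) (nat_lit 1) (p (nat_lit 0x8a898a08881a) (nat_lit 0) (p (nat_lit 0xa090988079a) (nat_lit 0) (p (nat_lit 0x88088907871a) (nat_lit 0) (p (nat_lit 0x7880887069a) (nat_lit 0) (p (nat_lit 0x80000800088806860a) (nat_lit 0) (p (nat_lit 0x80000800068786058a)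 (nat_lit 0) (p (nat_lit 0x8687058502) (nat_lit 0) (p (nat_lit 0x606850482) (nat_lit 0) (p (nat_lit 0x160014) (nat_lit 0) (p (nat_lit 0x68612) (nat_lit 0) (p (nat_lit 0x50592) (nat_lit 0) (p (nat_lit 0x40512) (nat_lit 0) (p (nat_lit 0x50312) (nat_lit 0) (p (nat_lit 0x38292) (nat_lit 0) (p (nat_lit 0x28212) (nat_lit 0) (p (nat_lit 0x38112) (nat_lit 0) (p (nat_lit 0x20092) (nat_lit 0) (p (nat_lit 0x10012) (nat_lit 0) pn)))))))))))))))))))))))))))))))))) :=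
  Cl.node (nat_lit 0xc1) (nat_lit 2) (by decide +kernel) (ClAll.succ (ClAll.succ ClAll.zero s791) s792)

def n74 : Cl (O (nat_lit 3)) (R (nat_lit 143633))
    (p (nat_lit 0x100004) (nat_lit 0) (p (nat_lit 0x134014) (nat_lit 0) (p (nat_lit 0x8000c) (nat_lit 1) (p (nat_lit 0x10000c) (nat_lit 0) (p (nat_lit 0x20000c) (nat_lit 0) (p (nat_lit 0x200004) (nat_lit 0) (p (nat_lit 0x380c2) (nat_lit 1) (p (nat_lit 0x3c4aa) (nat_lit 7) (p (nat_lit 0x109) (nat_lit 1) (p (nat_lit 0x89) (nat_lit 1) (p (nat_lit 0x101) (nat_lit 0) (p (nat_lit 0xc1) (nat_lit 1) (p (nat_lit 0x119) (nat_lit 1) (p (nat_lit 0xd1) (nat_lit 0) (p (nat_lit 0x81) (nat_lit 0) (p (nat_lit 0x41) (nat_lit 1) (p (nat_lit 0x8a898a08881a) (nat_lit 0) (p (nat_lit 0xa090988079a) (nat_lit 0) (p (nat_lit 0x88088907871a) (nat_lit 0) (p (nat_lit 0x7880887069a) (nat_lit 0) (p (nat_lit 0x80000800088806860a) (nat_lit 0) (p (nat_lit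 0x80000800068786058a) (nat_lit 0) (p (nat_lit 0x8687058502) (nat_lit 0) (p (nat_lit 0x606850482) (nat_lit 0) (p (nat_lit 0x160014) (nat_lit 0) (p (nat_lit 0x68612) (nat_lit 0) (p (nat_lit 0x50592) (nat_lit 0) (p (nat_lit 0x40512) (nat_lit 0) (p (nat_lit 0x50312) (nat_lit 0) (p (nat_lit 0x38292) (nat_lit 0) (p (nat_lit 0x28212) (nat_lit 0) (p (nat_lit 0x38112) (nat_lit 0) (p (nat_lit 0x20092) (nat_lit 0) (p (nat_lit 0x10012) (nat_lit 0) pn)))))))))))))))))))))))))))))))))) :=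
  Cl.node (nat_lit 0x119) (nat_lit 2) (by decide +kernel) (ClAll.succ (ClAll.succ ClAll.zero s793) n53)

def n75 : Cl (O (nat_lit 3)) (R (nat_lit 143633))
    (p (nat_lit 0x80004) (nat_lit 0) (p (nat_lit 0xc9) (nat_lit 1) (p (nat_lit 0x100004) (nat_lit 0) (p (nat_lit 0x10000c) (nat_lit 0) (p (nat_lit 0x20000c) (nat_lit 0) (p (nat_lit 0x200004) (nat_lit 0) (p (nat_lit 0x380c2) (nat_lit 0) (p (nat_lit 0x3c4aa) (nat_lit 7) (p (nat_lit 0xd1) (nat_lit 1) (p (nat_lit 0x111) (nat_lit 1) (p (nat_lit 0x109) (nat_lit 0) (p (nat_lit 0x101) (nat_lit 0) (p (nat_lit 0x119) (nat_lit 0) (p (nat_lit 0xc1) (nat_lit 0) (p (nat_lit 0x81) (nat_lit 1) (p (nat_lit 0x41) (nat_lit 1) (p (nat_lit 0x8a898a08881a) (nat_lit 0) (p (nat_lit 0xa090988079a) (nat_lit 0) (p (nat_lit 0x88088907871a) (nat_lit 0) (p (nat_lit 0x7880887069a) (nat_lit 0) (p (nat_lit 0x80000800088806860a) (nat_lit 0) (p (nat_lit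 0x80000800068786058a) (nat_lit 0) (p (nat_lit 0x8687058502) (nat_lit 0) (p (nat_lit 0x606850482) (nat_lit 0) (p (nat_lit 0x160014) (nat_lit 0) (p (nat_lit 0x68612) (nat_lit 0) (p (nat_lit 0x50592) (nat_lit 0) (p (nat_lit 0x40512) (nat_lit 0) (p (nat_lit 0x50312) (nat_lit 0) (p (nat_lit 0x38292) (nat_lit 0) (p (nat_lit 0x28212) (nat_lit 0) (p (nat_lit 0x38112) (nat_lit 0) (p (nat_lit 0x20092) (nat_lit 0) (p (nat_lit 0x10012) (nat_lit 0) pn)))))))))))))))))))))))))))))))))) :=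
  Cl.node (nat_lit 0x101) (nat_lit 2) (by decide +kernel) (ClAll.succ (ClAll.succ ClAll.zero s944) s945)

def n76 : Cl (O (nat_lit 3)) (R (nat_lit 143633))
    (p (nat_lit 0x380c2) (nat_lit 0) (p (nat_lit 0x3cc2a) (nat_lit 0) (p (nat_lit 0xc9) (nat_lit 0) (p (nat_lit 0x10000c) (nat_lit 0) (p (nat_lit 0x20000c) (nat_lit 0) (p (nat_lit 0x200004) (nat_lit 0) (p (nat_lit 0x380c2) (nat_lit 1) (p (nat_lit 0x3c4aa) (nat_lit 7) (p (nat_lit 0xd1) (nat_lit 1) (p (nat_lit 0x111) (nat_lit 1) (p (nat_lit 0x109) (nat_lit 0) (p (nat_lit 0x101) (nat_lit 0) (p (nat_lit 0x119) (nat_lit 0) (p (nat_lit 0xc1) (nat_lit 0) (p (nat_lit 0x81) (nat_lit 1) (p (nat_lit 0x41) (nat_lit 1) (p (nat_lit 0x8a898a08881a) (nat_lit 0) (p (nat_lit 0xa090988079a) (nat_lit 0) (p (nat_lit 0x88088907871a) (nat_lit 0) (p (nat_lit 0x7880887069a) (nat_lit 0) (p (nat_lit 0x80000800088806860a) (nat_lit 0) (p (nat_lit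 0x80000800068786058a) (nat_lit 0) (p (nat_lit 0x8687058502) (nat_lit 0) (p (nat_lit 0x606850482) (nat_lit 0) (p (nat_lit 0x160014) (nat_lit 0) (p (nat_lit 0x68612) (nat_lit 0) (p (nat_lit 0x50592) (nat_lit 0) (p (nat_lit 0x40512) (nat_lit 0) (p (nat_lit 0x50312) (nat_lit 0) (p (nat_lit 0x38292) (nat_lit 0) (p (nat_lit 0x28212) (nat_lit 0) (p (nat_lit 0x38112) (nat_lit 0) (p (nat_lit 0x20092) (nat_lit 0) (p (nat_lit 0x10012) (nat_lit 0) pn)))))))))))))))))))))))))))))))))) :=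
  Cl.node (nat_lit 0x100004) (nat_lit 2) (by decide +kernel) (ClAll.succ (ClAll.succ ClAll.zero n54) s955)

def n77 : Cl (O (nat_lit 3)) (R (nat_lit 143633))
    (p (nat_lit 0x101) (nat_lit 0) (p (nat_lit 0x100004) (nat_lit 0) (p (nat_lit 0xc9) (nat_lit 1) (p (nat_lit 0x10000c) (nat_lit 0) (p (nat_lit 0x20000c) (nat_lit 0) (p (nat_lit 0x200004) (nat_lit 0) (p (nat_lit 0x380c2) (nat_lit 1) (p (nat_lit 0x3c4aa) (nat_lit 7) (p (nat_lit 0xd1) (nat_lit 1) (p (nat_lit 0x111) (nat_lit 1) (p (nat_lit 0x109) (nat_lit 0) (p (nat_lit 0x101) (nat_lit 0) (p (nat_lit 0x119) (nat_lit 0) (p (nat_lit 0xc1) (nat_lit 0) (p (nat_lit 0x81) (nat_lit 1) (p (nat_lit 0x41) (nat_lit 1) (p (nat_lit 0x8a898a08881a) (nat_lit 0) (p (nat_lit 0xa090988079a) (nat_lit 0) (p (nat_lit 0x88088907871a) (nat_lit 0) (p (nat_lit 0x7880887069a) (nat_lit 0) (p (nat_lit 0x80000800088806860a) (nat_lit 0) (p (nat_lit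 0x80000800068786058a) (nat_lit 0) (p (nat_lit 0x8687058502) (nat_lit 0) (p (nat_lit 0x606850482) (nat_lit 0) (p (nat_lit 0x160014) (nat_lit 0) (p (nat_lit 0x68612) (nat_lit 0) (p (nat_lit 0x50592) (nat_lit 0) (p (nat_lit 0x40512) (nat_lit 0) (p (nat_lit 0x50312) (nat_lit 0) (p (nat_lit 0x38292) (nat_lit 0) (p (nat_lit 0x28212) (nat_lit 0) (p (nat_lit 0x38112) (nat_lit 0) (p (nat_lit 0x20092) (nat_lit 0) (p (nat_lit 0x10012) (nat_lit 0) pn)))))))))))))))))))))))))))))))))) :=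
  Cl.node (nat_lit 0x41) (nat_lit 2) (by decide +kernel) (ClAll.succ (ClAll.succ ClAll.zero s967) n55)

def n78 : Cl (O (nat_lit 3)) (R (nat_lit 143633))
    (p (nat_lit 0x101) (nat_lit 1) (p (nat_lit 0x100004) (nat_lit 0) (p (nat_lit 0xc9) (nat_lit 1) (p (nat_lit 0x10000c) (nat_lit 0) (p (nat_lit 0x20000c) (nat_lit 0) (p (nat_lit 0x200004) (nat_lit 0) (p (nat_lit 0x380c2) (nat_lit 1) (p (nat_lit 0x3c4aa) (nat_lit 7) (p (nat_lit 0xd1) (nat_lit 1) (p (nat_lit 0x111) (nat_lit 1) (p (nat_lit 0x109) (nat_lit 0) (p (nat_lit 0x101) (nat_lit 0) (p (nat_lit 0x119) (nat_lit 0) (p (nat_lit 0xc1) (nat_lit 0) (p (nat_lit 0x81) (nat_lit 1) (p (nat_lit 0x41) (nat_lit 1) (p (nat_lit 0x8a898a08881a) (nat_lit 0) (p (nat_lit 0xa090988079a) (nat_lit 0) (p (nat_lit 0x88088907871a) (nat_lit 0) (p (nat_lit 0x7880887069a) (nat_lit 0) (p (nat_lit 0x80000800088806860a) (nat_lit 0) (p (nat_lit 0x80000800068786058a)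 (nat_lit 0) (p (nat_lit 0x8687058502) (nat_lit 0) (p (nat_lit 0x606850482) (nat_lit 0) (p (nat_lit 0x160014) (nat_lit 0) (p (nat_lit 0x68612) (nat_lit 0) (p (nat_lit 0x50592) (nat_lit 0) (p (nat_lit 0x40512) (nat_lit 0) (p (nat_lit 0x50312) (nat_lit 0) (p (nat_lit 0x38292) (nat_lit 0) (p (nat_lit 0x28212) (nat_lit 0) (p (nat_lit 0x38112) (nat_lit 0) (p (nat_lit 0x20092) (nat_lit 0) (p (nat_lit 0x10012) (nat_lit 0) pn)))))))))))))))))))))))))))))))))) :=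
  Cl.node (nat_lit 0x109) (nat_lit 2) (by decide +kernel) (ClAll.succ (ClAll.succ ClAll.zero s970) s971)

def n79 : Cl (O (nat_lit 3)) (R (nat_lit 143633))
    (p (nat_lit 0x100004) (nat_lit 0) (p (nat_lit 0x84014) (nat_lit 0) (p (nat_lit 0x108014) (nat_lit 0) (p (nat_lit 0x10000c) (nat_lit 1) (p (nat_lit 0x20000c) (nat_lit 0) (p (nat_lit 0x200004) (nat_lit 0) (p (nat_lit 0x380c2) (nat_lit 1) (p (nat_lit 0x3c4aa) (nat_lit 7) (p (nat_lit 0xd1) (nat_lit 1) (p (nat_lit 0x111) (nat_lit 1) (p (nat_lit 0x109) (nat_lit 0) (p (nat_lit 0x101) (nat_lit 0) (p (nat_lit 0x119) (nat_lit 0) (p (nat_lit 0xc1) (nat_lit 0) (p (nat_lit 0x81) (nat_lit 1) (p (nat_lit 0x41) (nat_lit 1) (p (nat_lit 0x8a898a08881a) (nat_lit 0) (p (nat_lit 0xa090988079a) (nat_lit 0) (p (nat_lit 0x88088907871a) (nat_lit 0) (p (nat_lit 0x7880887069a) (nat_lit 0) (p (nat_lit 0x80000800088806860a) (nat_lit 0) (p (nat_lit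 0x80000800068786058a) (nat_lit 0) (p (nat_lit 0x8687058502) (nat_lit 0) (p (nat_lit 0x606850482) (nat_lit 0) (p (nat_lit 0x160014) (nat_lit 0) (p (nat_lit 0x68612) (nat_lit 0) (p (nat_lit 0x50592) (nat_lit 0) (p (nat_lit 0x40512) (nat_lit 0) (p (nat_lit 0x50312) (nat_lit 0) (p (nat_lit 0x38292) (nat_lit 0) (p (nat_lit 0x28212) (nat_lit 0) (p (nat_lit 0x38112) (nat_lit 0) (p (nat_lit 0x20092) (nat_lit 0) (p (nat_lit 0x10012) (nat_lit 0) pn)))))))))))))))))))))))))))))))))) :=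
  Cl.node (nat_lit 0x44014) (nat_lit 2) (by decide +kernel) (ClAll.succ (ClAll.succ ClAll.zero s973) s974)

def n80 : Cl (O (nat_lit 3)) (R (nat_lit 143633))
    (p (nat_lit 0x100004) (nat_lit 0) (p (nat_lit 0xc1) (nat_lit 0) (p (nat_lit 0x119) (nat_lit 1) (p (nat_lit 0x10000c) (nat_lit 0) (p (nat_lit 0x20000c) (nat_lit 0) (p (nat_lit 0x200004) (nat_lit 0) (p (nat_lit 0x380c2) (nat_lit 1) (p (nat_lit 0x3c4aa) (nat_lit 7) (p (nat_lit 0xd1) (nat_lit 1) (p (nat_lit 0xc9) (nat_lit 0) (p (nat_lit 0x109) (nat_lit 1) (p (nat_lit 0x101) (nat_lit 0) (p (nat_lit 0x119) (nat_lit 0) (p (nat_lit 0xc1) (nat_lit 0) (p (nat_lit 0x81) (nat_lit 1) (p (nat_lit 0x41) (nat_lit 1) (p (nat_lit 0x8a898a08881a) (nat_lit 0) (p (nat_lit 0xa090988079a) (nat_lit 0) (p (nat_lit 0x88088907871a) (nat_lit 0) (p (nat_lit 0x7880887069a) (nat_lit 0) (p (nat_lit 0x80000800088806860a) (nat_lit 0) (p (nat_lit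 0x80000800068786058a) (nat_lit 0) (p (nat_lit 0x8687058502) (nat_lit 0) (p (nat_lit 0x606850482) (nat_lit 0) (p (nat_lit 0x160014) (nat_lit 0) (p (nat_lit 0x68612) (nat_lit 0) (p (nat_lit 0x50592) (nat_lit 0) (p (nat_lit 0x40512) (nat_lit 0) (p (nat_lit 0x50312) (nat_lit 0) (p (nat_lit 0x38292) (nat_lit 0) (p (nat_lit 0x28212) (nat_lit 0) (p (nat_lit 0x38112) (nat_lit 0) (p (nat_lit 0x20092) (nat_lit 0) (p (nat_lit 0x10012) (nat_lit 0) pn)))))))))))))))))))))))))))))))))) :=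
  Cl.node (nat_lit 0xc9) (nat_lit 2) (by decide +kernel) (ClAll.succ (ClAll.succ ClAll.zero s997) s998)

def n81 : Cl (O (nat_lit 3)) (R (nat_lit 143633))
    (p (nat_lit 0x2680d2680d0d8d0b8b0a) (nat_lit 0) (p (nat_lit 0x2680d2680d0b8c8b0a8a) (nat_lit 0) (p (nat_lit 0x10000c) (nat_lit 0) (p (nat_lit 0x100004) (nat_lit 0) (p (nat_lit 0x1fc00c) (nat_lit 0) (p (nat_lit 0x1fc004) (nat_lit 0) (p (nat_lit 0xb0014) (nat_lit 1) (p (nat_lit 0x380c2) (nat_lit 1) (p (nat_lit 0x3c4aa) (nat_lit 7) (p (nat_lit 0x111) (nat_lit 1) (p (nat_lit 0x109) (nat_lit 0) (p (nat_lit 0xc9) (nat_lit 1) (p (nat_lit 0x119) (nat_lit 1) (p (nat_lit 0xc1) (nat_lit 0) (p (nat_lit 0x81) (nat_lit 1) (p (nat_lit 0x41) (nat_lit 1) (p (nat_lit 0x8a898a08881a) (nat_lit 0) (p (nat_lit 0xa090988079a) (nat_lit 0) (p (nat_lit 0x88088907871a) (nat_lit 0) (p (nat_lit 0x7880887069a) (nat_lit 0) (p (nat_lit 0x80000800088806860a)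 (nat_lit 0) (p (nat_lit 0x80000800068786058a) (nat_lit 0) (p (nat_lit 0x8687058502) (nat_lit 0) (p (nat_lit 0x606850482) (nat_lit 0) (p (nat_lit 0x160014) (nat_lit 0) (p (nat_lit 0x68612) (nat_lit 0) (p (nat_lit 0x50592) (nat_lit 0) (p (nat_lit 0x40512) (nat_lit 0) (p (nat_lit 0x50312) (nat_lit 0) (p (nat_lit 0x38292) (nat_lit 0) (p (nat_lit 0x28212) (nat_lit 0) (p (nat_lit 0x38112) (nat_lit 0) (p (nat_lit 0x20092) (nat_lit 0) (p (nat_lit 0x10012) (nat_lit 0) pn)))))))))))))))))))))))))))))))))) :=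
  Cl.node (nat_lit 0xc8d0d8c0b9a) (nat_lit 1) (by decide +kernel) (ClAll.succ ClAll.zero n56)

def n82 : Cl (O (nat_lit 3)) (R (nat_lit 143633))
    (p (nat_lit 0x10000c) (nat_lit 0) (p (nat_lit 0x100004) (nat_lit 0) (p (nat_lit 0x1fc00c) (nat_lit 0) (p (nat_lit 0x1fc004) (nat_lit 0) (p (nat_lit 0xb0014) (nat_lit 1) (p (nat_lit 0x380c2) (nat_lit 0) (p (nat_lit 0x444aa) (nat_lit 7) (p (nat_lit 0x81) (nat_lit 1) (p (nat_lit 0xc9) (nat_lit 1) (p (nat_lit 0x109) (nat_lit 1) (p (nat_lit 0x101) (nat_lit 0) (p (nat_lit 0x119) (nat_lit 0) (p (nat_lit 0xd1) (nat_lit 0) (p (nat_lit 0x89) (nat_lit 0) (p (nat_lit 0x41) (nat_lit 0) (p (nat_lit 0x8a898a08881a) (nat_lit 0) (p (nat_lit 0xa090988079a) (nat_lit 0) (p (nat_lit 0x88088907871a) (nat_lit 0) (p (nat_lit 0x7880887069a) (nat_lit 0) (p (nat_lit 0x80000800088806860a) (nat_lit 0) (p (nat_lit 0x80000800068786058a) (nat_lit 0) (p (nat_lit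 0x8687058502) (nat_lit 0) (p (nat_lit 0x606850482) (nat_lit 0) (p (nat_lit 0x160014) (nat_lit 0) (p (nat_lit 0x68612) (nat_lit 0) (p (nat_lit 0x50592) (nat_lit 0) (p (nat_lit 0x40512) (nat_lit 0) (p (nat_lit 0x50312) (nat_lit 0) (p (nat_lit 0x38292) (nat_lit 0) (p (nat_lit 0x28212) (nat_lit 0) (p (nat_lit 0x38112) (nat_lit 0) (p (nat_lit 0x20092) (nat_lit 0) (p (nat_lit 0x10012) (nat_lit 0) pn))))))))))))))))))))))))))))))))) :=
  Cl.node (nat_lit 0x2680d2680d0b8c8b0a8a) (nat_lit 1) (by decide +kernel) (ClAll.succ ClAll.zero n57)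

def n83 : Cl (O (nat_lit 3)) (R (nat_lit 143633))
    (p (nat_lit 0x81) (nat_lit 1) (p (nat_lit 0x100004) (nat_lit 0) (p (nat_lit 0x10000c) (nat_lit 0) (p (nat_lit 0x200004) (nat_lit 0) (p (nat_lit 0x20000c) (nat_lit 0) (p (nat_lit 0x380c2) (nat_lit 1) (p (nat_lit 0x444aa) (nat_lit 7) (p (nat_lit 0x81) (nat_lit 1) (p (nat_lit 0xc9) (nat_lit 1) (p (nat_lit 0x109) (nat_lit 1) (p (nat_lit 0x101) (nat_lit 0) (p (nat_lit 0x119) (nat_lit 0) (p (nat_lit 0xd1) (nat_lit 0) (p (nat_lit 0x89) (nat_lit 0) (p (nat_lit 0x41) (nat_lit 0) (p (nat_lit 0x8a898a08881a) (nat_lit 0) (p (nat_lit 0xa090988079a) (nat_lit 0) (p (nat_lit 0x88088907871a) (nat_lit 0) (p (nat_lit 0x7880887069a) (nat_lit 0) (p (nat_lit 0x80000800088806860a) (nat_lit 0) (p (nat_lit 0x80000800068786058a) (nat_lit 0) (p (nat_lit 0x8687058502) (nat_lit 0) (p (nat_lit 0x606850482) (nat_lit 0) (p (nat_lit 0x160014) (nat_lit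 0) (p (nat_lit 0x68612) (nat_lit 0) (p (nat_lit 0x50592) (nat_lit 0) (p (nat_lit 0x40512) (nat_lit 0) (p (nat_lit 0x50312) (nat_lit 0) (p (nat_lit 0x38292) (nat_lit 0) (p (nat_lit 0x28212) (nat_lit 0) (p (nat_lit 0x38112) (nat_lit 0) (p (nat_lit 0x20092) (nat_lit 0) (p (nat_lit 0x10012) (nat_lit 0) pn))))))))))))))))))))))))))))))))) :=
  Cl.node (nat_lit 0x80004) (nat_lit 2) (by decide +kernel) (ClAll.succ (ClAll.succ ClAll.zero n58) s24)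

def n84 : Cl (O (nat_lit 3)) (R (nat_lit 143633))
    (p (nat_lit 0x8000c) (nat_lit 0) (p (nat_lit 0x100004) (nat_lit 0) (p (nat_lit 0x10000c) (nat_lit 0) (p (nat_lit 0x200004) (nat_lit 0) (p (nat_lit 0x20000c) (nat_lit 0) (p (nat_lit 0x380c2) (nat_lit 1) (p (nat_lit 0x444aa) (nat_lit 7) (p (nat_lit 0x111) (nat_lit 0) (p (nat_lit 0xc9) (nat_lit 1) (p (nat_lit 0x81) (nat_lit 0) (p (nat_lit 0x101) (nat_lit 1) (p (nat_lit 0x119) (nat_lit 0) (p (nat_lit 0xd1) (nat_lit 0) (p (nat_lit 0x89) (nat_lit 0) (p (nat_lit 0x41) (nat_lit 0) (p (nat_lit 0x8a898a08881a) (nat_lit 0) (p (nat_lit 0xa090988079a) (nat_lit 0) (p (nat_lit 0x88088907871a) (nat_lit 0) (p (nat_lit 0x7880887069a) (nat_lit 0) (p (nat_lit 0x80000800088806860a) (nat_lit 0) (p (nat_lit 0x80000800068786058a) (nat_lit 0) (p (nat_lit 0x8687058502) (nat_lit 0) (p (nat_lit 0x606850482) (nat_lit 0) (p (nat_lit 0x160014) (nat_lit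 0) (p (nat_lit 0x68612) (nat_lit 0) (p (nat_lit 0x50592) (nat_lit 0) (p (nat_lit 0x40512) (nat_lit 0) (p (nat_lit 0x50312) (nat_lit 0) (p (nat_lit 0x38292) (nat_lit 0) (p (nat_lit 0x28212) (nat_lit 0) (p (nat_lit 0x38112) (nat_lit 0) (p (nat_lit 0x20092) (nat_lit 0) (p (nat_lit 0x10012) (nat_lit 0) pn))))))))))))))))))))))))))))))))) :=
  Cl.node (nat_lit 0x89) (nat_lit 2) (by decide +kernel) (ClAll.succ (ClAll.succ ClAll.zero s62) s63)

def n85 : Cl (O (nat_lit 3)) (R (nat_lit 143633))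
    (p (nat_lit 0x109) (nat_lit 0) (p (nat_lit 0x100004) (nat_lit 0) (p (nat_lit 0x10000c) (nat_lit 0) (p (nat_lit 0x200004) (nat_lit 0) (p (nat_lit 0x20000c) (nat_lit 0) (p (nat_lit 0x380c2) (nat_lit 1) (p (nat_lit 0x444aa) (nat_lit 7) (p (nat_lit 0x109) (nat_lit 1) (p (nat_lit 0x101) (nat_lit 0) (p (nat_lit 0x81) (nat_lit 1) (p (nat_lit 0xc1) (nat_lit 1) (p (nat_lit 0x119) (nat_lit 1) (p (nat_lit 0xd1) (nat_lit 0) (p (nat_lit 0x89) (nat_lit 0) (p (nat_lit 0x41) (nat_lit 0) (p (nat_lit 0x8a898a08881a) (nat_lit 0) (p (nat_lit 0xa090988079a) (nat_lit 0) (p (nat_lit 0x88088907871a) (nat_lit 0) (p (nat_lit 0x7880887069a) (nat_lit 0) (p (nat_lit 0x80000800088806860a) (nat_lit 0) (p (nat_lit 0x80000800068786058a) (nat_lit 0) (p (nat_lit 0x8687058502) (nat_lit 0) (p (nat_lit 0x606850482) (nat_lit 0) (p (nat_lit 0x160014) (nat_lit 0) (p (nat_lit 0x68612) (nat_lit 0) (p (nat_lit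 0x50592) (nat_lit 0) (p (nat_lit 0x40512) (nat_lit 0) (p (nat_lit 0x50312) (nat_lit 0) (p (nat_lit 0x38292) (nat_lit 0) (p (nat_lit 0x28212) (nat_lit 0) (p (nat_lit 0x38112) (nat_lit 0) (p (nat_lit 0x20092) (nat_lit 0) (p (nat_lit 0x10012) (nat_lit 0) pn))))))))))))))))))))))))))))))))) :=
  Cl.node (nat_lit 0x119) (nat_lit 2) (by decide +kernel) (ClAll.succ (ClAll.succ ClAll.zero s213) n59)

def n86 : Cl (O (nat_lit 3)) (R (nat_lit 143633))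
    (p (nat_lit 0x8000c) (nat_lit 0) (p (nat_lit 0x10000c) (nat_lit 0) (p (nat_lit 0x100004) (nat_lit 0) (p (nat_lit 0x380c2) (nat_lit 0) (p (nat_lit 0x3cc2a) (nat_lit 0) (p (nat_lit 0x109) (nat_lit 1) (p (nat_lit 0x20000c) (nat_lit 0) (p (nat_lit 0x200004) (nat_lit 0) (p (nat_lit 0x119) (nat_lit 0) (p (nat_lit 0x81) (nat_lit 0) (p (nat_lit 0x101) (nat_lit 1) (p (nat_lit 0x111) (nat_lit 0) (p (nat_lit 0xd1) (nat_lit 1) (p (nat_lit 0x89) (nat_lit 0) (p (nat_lit 0x41) (nat_lit 0) (p (nat_lit 0x8a898a08881a) (nat_lit 0) (p (nat_lit 0xa090988079a) (nat_lit 0) (p (nat_lit 0x88088907871a) (nat_lit 0) (p (nat_lit 0x7880887069a) (nat_lit 0) (p (nat_lit 0x80000800088806860a) (nat_lit 0) (p (nat_lit 0x80000800068786058a) (nat_lit 0) (p (nat_lit 0x8687058502) (nat_lit 0) (p (nat_lit 0x606850482) (nat_lit 0) (p (nat_lit 0x160014) (nat_lit 0) (p (nat_lit 0x68612) (nat_lit 0) (p (nat_lit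 0x50592) (nat_lit 0) (p (nat_lit 0x40512) (nat_lit 0) (p (nat_lit 0x50312) (nat_lit 0) (p (nat_lit 0x38292) (nat_lit 0) (p (nat_lit 0x28212) (nat_lit 0) (p (nat_lit 0x38112) (nat_lit 0) (p (nat_lit 0x20092) (nat_lit 0) (p (nat_lit 0x10012) (nat_lit 0) pn))))))))))))))))))))))))))))))))) :=
  Cl.node (nat_lit 0xb0014) (nat_lit 2) (by decide +kernel) (ClAll.succ (ClAll.succ ClAll.zero s264) s265)

def n87 : Cl (O (nat_lit 3)) (R (nat_lit 143633))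
    (p (nat_lit 0x100004) (nat_lit 0) (p (nat_lit 0x10000c) (nat_lit 0) (p (nat_lit 0x200004) (nat_lit 0) (p (nat_lit 0x20000c) (nat_lit 0) (p (nat_lit 0xb0014) (nat_lit 0) (p (nat_lit 0x380c2) (nat_lit 0) (p (nat_lit 0x444aa) (nat_lit 7) (p (nat_lit 0xd1) (nat_lit 1) (p (nat_lit 0x111) (nat_lit 1) (p (nat_lit 0x109) (nat_lit 0) (p (nat_lit 0x101) (nat_lit 0) (p (nat_lit 0x119) (nat_lit 0) (p (nat_lit 0xc9) (nat_lit 0) (p (nat_lit 0x89) (nat_lit 1) (p (nat_lit 0x41) (nat_lit 0) (p (nat_lit 0x8a898a08881a) (nat_lit 0) (p (nat_lit 0xa090988079a) (nat_lit 0) (p (nat_lit 0x88088907871a) (nat_lit 0) (p (nat_lit 0x7880887069a) (nat_lit 0) (p (nat_lit 0x80000800088806860a) (nat_lit 0) (p (nat_lit 0x80000800068786058a) (nat_lit 0) (p (nat_lit 0x8687058502) (nat_lit 0) (p (nat_lit 0x606850482) (nat_lit 0) (p (nat_lit 0x160014) (nat_lit 0) (p (nat_lit 0x68612) (nat_lit 0) (p (nat_lit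 0x50592) (nat_lit 0) (p (nat_lit 0x40512) (nat_lit 0) (p (nat_lit 0x50312) (nat_lit 0) (p (nat_lit 0x38292) (nat_lit 0) (p (nat_lit 0x28212) (nat_lit 0) (p (nat_lit 0x38112) (nat_lit 0) (p (nat_lit 0x20092) (nat_lit 0) (p (nat_lit 0x10012) (nat_lit 0) pn))))))))))))))))))))))))))))))))) :=
  Cl.node (nat_lit 0xc1) (nat_lit 2) (by decide +kernel) (ClAll.succ (ClAll.succ ClAll.zero n60) s337)

def n88 : Cl (O (nat_lit 3)) (R (nat_lit 143633))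
    (p (nat_lit 0x108014) (nat_lit 0) (p (nat_lit 0x10000c) (nat_lit 1) (p (nat_lit 0x1fc00c) (nat_lit 0) (p (nat_lit 0x1fc004) (nat_lit 0) (p (nat_lit 0xb0014) (nat_lit 1) (p (nat_lit 0x380c2) (nat_lit 0) (p (nat_lit 0x444aa) (nat_lit 7) (p (nat_lit 0xd1) (nat_lit 1) (p (nat_lit 0x111) (nat_lit 1) (p (nat_lit 0x109) (nat_lit 0) (p (nat_lit 0x101) (nat_lit 0) (p (nat_lit 0x119) (nat_lit 0) (p (nat_lit 0xc9) (nat_lit 0) (p (nat_lit 0x89) (nat_lit 1) (p (nat_lit 0x41) (nat_lit 0) (p (nat_lit 0x8a898a08881a) (nat_lit 0) (p (nat_lit 0xa090988079a) (nat_lit 0) (p (nat_lit 0x88088907871a) (nat_lit 0) (p (nat_lit 0x7880887069a) (nat_lit 0) (p (nat_lit 0x80000800088806860a) (nat_lit 0) (p (nat_lit 0x80000800068786058a) (nat_lit 0) (p (nat_lit 0x8687058502) (nat_lit 0) (p (nat_lit 0x606850482) (nat_lit 0) (p (nat_lit 0x160014) (nat_lit 0) (p (nat_lit 0x68612) (nat_lit 0) (p (nat_lit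 0x50592) (nat_lit 0) (p (nat_lit 0x40512) (nat_lit 0) (p (nat_lit 0x50312) (nat_lit 0) (p (nat_lit 0x38292) (nat_lit 0) (p (nat_lit 0x28212) (nat_lit 0) (p (nat_lit 0x38112) (nat_lit 0) (p (nat_lit 0x20092) (nat_lit 0) (p (nat_lit 0x10012) (nat_lit 0) pn))))))))))))))))))))))))))))))))) :=
  Cl.node (nat_lit 0x100004) (nat_lit 2) (by decide +kernel) (ClAll.succ (ClAll.succ ClAll.zero n61) s351)

def n89 : Cl (O (nat_lit 3)) (R (nat_lit 143633))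
    (p (nat_lit 0xc1) (nat_lit 0) (p (nat_lit 0x10000c) (nat_lit 0) (p (nat_lit 0x100004) (nat_lit 0) (p (nat_lit 0x200004) (nat_lit 0) (p (nat_lit 0x20000c) (nat_lit 0) (p (nat_lit 0x380c2) (nat_lit 1) (p (nat_lit 0x444aa) (nat_lit 7) (p (nat_lit 0xd1) (nat_lit 1) (p (nat_lit 0x111) (nat_lit 1) (p (nat_lit 0x109) (nat_lit 0) (p (nat_lit 0x101) (nat_lit 0) (p (nat_lit 0x119) (nat_lit 0) (p (nat_lit 0xc9) (nat_lit 0) (p (nat_lit 0x89) (nat_lit 1) (p (nat_lit 0x41) (nat_lit 0) (p (nat_lit 0x8a898a08881a) (nat_lit 0) (p (nat_lit 0xa090988079a) (nat_lit 0) (p (nat_lit 0x88088907871a) (nat_lit 0) (p (nat_lit 0x7880887069a) (nat_lit 0) (p (nat_lit 0x80000800088806860a) (nat_lit 0) (p (nat_lit 0x80000800068786058a) (nat_lit 0) (p (nat_lit 0x8687058502) (nat_lit 0) (p (nat_lit 0x606850482) (nat_lit 0) (p (nat_lit 0x160014) (nat_lit 0) (p (nat_lit 0x68612) (nat_lit 0) (p (nat_lit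 0x50592) (nat_lit 0) (p (nat_lit 0x40512) (nat_lit 0) (p (nat_lit 0x50312) (nat_lit 0) (p (nat_lit 0x38292) (nat_lit 0) (p (nat_lit 0x28212) (nat_lit 0) (p (nat_lit 0x38112) (nat_lit 0) (p (nat_lit 0x20092) (nat_lit 0) (p (nat_lit 0x10012) (nat_lit 0) pn))))))))))))))))))))))))))))))))) :=
  Cl.node (nat_lit 0x3cc2a) (nat_lit 12) (by decide +kernel) (ClAll.succ (ClAll.succ (ClAll.succ (ClAll.succ (ClAll.succ (ClAll.succ (ClAll.succ (ClAll.succ (ClAll.succ (ClAll.succ (ClAll.succ (ClAll.succ ClAll.zero n62) s357) s358) s359) s360) s361) s362) s363) s364) s365) s366) s367)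

def n90 : Cl (O (nat_lit 3)) (R (nat_lit 143633))
    (p (nat_lit 0xc1) (nat_lit 1) (p (nat_lit 0x10000c) (nat_lit 0) (p (nat_lit 0x100004) (nat_lit 0) (p (nat_lit 0x200004) (nat_lit 0) (p (nat_lit 0x20000c) (nat_lit 0) (p (nat_lit 0x380c2) (nat_lit 1) (p (nat_lit 0x444aa) (nat_lit 7) (p (nat_lit 0xd1) (nat_lit 1) (p (nat_lit 0x111) (nat_lit 1) (p (nat_lit 0x109) (nat_lit 0) (p (nat_lit 0x101) (nat_lit 0) (p (nat_lit 0x119) (nat_lit 0) (p (nat_lit 0xc9) (nat_lit 0) (p (nat_lit 0x89) (nat_lit 1) (p (nat_lit 0x41) (nat_lit 0) (p (nat_lit 0x8a898a08881a) (nat_lit 0) (p (nat_lit 0xa090988079a) (nat_lit 0) (p (nat_lit 0x88088907871a) (nat_lit 0) (p (nat_lit 0x7880887069a) (nat_lit 0) (p (nat_lit 0x80000800088806860a) (nat_lit 0) (p (nat_lit 0x80000800068786058a) (nat_lit 0) (p (nat_lit 0x8687058502) (nat_lit 0) (p (nat_lit 0x606850482) (nat_lit 0) (p (nat_lit 0x160014) (nat_lit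 0) (p (nat_lit 0x68612) (nat_lit 0) (p (nat_lit 0x50592) (nat_lit 0) (p (nat_lit 0x40512) (nat_lit 0) (p (nat_lit 0x50312) (nat_lit 0) (p (nat_lit 0x38292) (nat_lit 0) (p (nat_lit 0x28212) (nat_lit 0) (p (nat_lit 0x38112) (nat_lit 0) (p (nat_lit 0x20092) (nat_lit 0) (p (nat_lit 0x10012) (nat_lit 0) pn))))))))))))))))))))))))))))))))) :=
  Cl.node (nat_lit 0x101) (nat_lit 2) (by decide +kernel) (ClAll.succ (ClAll.succ ClAll.zero n63) s370)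

def n91 : Cl (O (nat_lit 3)) (R (nat_lit 143633))
    (p (nat_lit 0x108014) (nat_lit 0) (p (nat_lit 0x10000c) (nat_lit 1) (p (nat_lit 0x100004) (nat_lit 0) (p (nat_lit 0x200004) (nat_lit 0) (p (nat_lit 0x20000c) (nat_lit 0) (p (nat_lit 0x380c2) (nat_lit 1) (p (nat_lit 0x444aa) (nat_lit 7) (p (nat_lit 0xd1) (nat_lit 1) (p (nat_lit 0x111) (nat_lit 1) (p (nat_lit 0x109) (nat_lit 0) (p (nat_lit 0x101) (nat_lit 0) (p (nat_lit 0x119) (nat_lit 0) (p (nat_lit 0xc9) (nat_lit 0) (p (nat_lit 0x89) (nat_lit 1) (p (nat_lit 0x41) (nat_lit 0) (p (nat_lit 0x8a898a08881a) (nat_lit 0) (p (nat_lit 0xa090988079a) (nat_lit 0) (p (nat_lit 0x88088907871a) (nat_lit 0) (p (nat_lit 0x7880887069a) (nat_lit 0) (p (nat_lit 0x80000800088806860a) (nat_lit 0) (p (nat_lit 0x80000800068786058a) (nat_lit 0) (p (nat_lit 0x8687058502) (nat_lit 0) (p (nat_lit 0x606850482) (nat_lit 0) (p (nat_lit 0x160014) (nat_lit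 0) (p (nat_lit 0x68612) (nat_lit 0) (p (nat_lit 0x50592) (nat_lit 0) (p (nat_lit 0x40512) (nat_lit 0) (p (nat_lit 0x50312) (nat_lit 0) (p (nat_lit 0x38292) (nat_lit 0) (p (nat_lit 0x28212) (nat_lit 0) (p (nat_lit 0x38112) (nat_lit 0) (p (nat_lit 0x20092) (nat_lit 0) (p (nat_lit 0x10012) (nat_lit 0) pn))))))))))))))))))))))))))))))))) :=
  Cl.node (nat_lit 0x84014) (nat_lit 2) (by decide +kernel) (ClAll.succ (ClAll.succ ClAll.zero s371) s372)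

def n92 : Cl (O (nat_lit 3)) (R (nat_lit 143633))
    (p (nat_lit 0x100004) (nat_lit 0) (p (nat_lit 0xc1) (nat_lit 0) (p (nat_lit 0x10000c) (nat_lit 0) (p (nat_lit 0x200004) (nat_lit 0) (p (nat_lit 0x20000c) (nat_lit 0) (p (nat_lit 0xb0014) (nat_lit 0) (p (nat_lit 0x380c2) (nat_lit 0) (p (nat_lit 0x444aa) (nat_lit 7) (p (nat_lit 0xd1) (nat_lit 1) (p (nat_lit 0x109) (nat_lit 1) (p (nat_lit 0x101) (nat_lit 0) (p (nat_lit 0x119) (nat_lit 0) (p (nat_lit 0xc9) (nat_lit 0) (p (nat_lit 0x89) (nat_lit 1) (p (nat_lit 0x41) (nat_lit 0) (p (nat_lit 0x8a898a08881a) (nat_lit 0) (p (nat_lit 0xa090988079a) (nat_lit 0) (p (nat_lit 0x88088907871a) (nat_lit 0) (p (nat_lit 0x7880887069a) (nat_lit 0) (p (nat_lit 0x80000800088806860a) (nat_lit 0) (p (nat_lit 0x80000800068786058a) (nat_lit 0) (p (nat_lit 0x8687058502) (nat_lit 0) (p (nat_lit 0x606850482) (nat_lit 0) (p (nat_lit 0x160014) (nat_lit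 0) (p (nat_lit 0x68612) (nat_lit 0) (p (nat_lit 0x50592) (nat_lit 0) (p (nat_lit 0x40512) (nat_lit 0) (p (nat_lit 0x50312) (nat_lit 0) (p (nat_lit 0x38292) (nat_lit 0) (p (nat_lit 0x28212) (nat_lit 0) (p (nat_lit 0x38112) (nat_lit 0) (p (nat_lit 0x20092) (nat_lit 0) (p (nat_lit 0x10012) (nat_lit 0) pn))))))))))))))))))))))))))))))))) :=
  Cl.node (nat_lit 0xc9) (nat_lit 2) (by decide +kernel) (ClAll.succ (ClAll.succ ClAll.zero n64) s410)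

def n93 : Cl (O (nat_lit 3)) (R (nat_lit 143633))
    (p (nat_lit 0x2680d2680d0b8c8b0a8a) (nat_lit 0) (p (nat_lit 0x100004) (nat_lit 0) (p (nat_lit 0x10000c) (nat_lit 0) (p (nat_lit 0x1fc00c) (nat_lit 0) (p (nat_lit 0x1fc004) (nat_lit 0) (p (nat_lit 0xb0014) (nat_lit 1) (p (nat_lit 0x380c2) (nat_lit 0) (p (nat_lit 0x444aa) (nat_lit 7) (p (nat_lit 0xd1) (nat_lit 1) (p (nat_lit 0x109) (nat_lit 1) (p (nat_lit 0x101) (nat_lit 0) (p (nat_lit 0x119) (nat_lit 0) (p (nat_lit 0xc9) (nat_lit 0) (p (nat_lit 0x89) (nat_lit 1) (p (nat_lit 0x41) (nat_lit 0) (p (nat_lit 0x8a898a08881a) (nat_lit 0) (p (nat_lit 0xa090988079a) (nat_lit 0) (p (nat_lit 0x88088907871a) (nat_lit 0) (p (nat_lit 0x7880887069a) (nat_lit 0) (p (nat_lit 0x80000800088806860a) (nat_lit 0) (p (nat_lit 0x80000800068786058a) (nat_lit 0) (p (nat_lit 0x8687058502) (nat_lit 0) (p (nat_lit 0x606850482) (nat_lit 0) (p (nat_lit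 0x160014) (nat_lit 0) (p (nat_lit 0x68612) (nat_lit 0) (p (nat_lit 0x50592) (nat_lit 0) (p (nat_lit 0x40512) (nat_lit 0) (p (nat_lit 0x50312) (nat_lit 0) (p (nat_lit 0x38292) (nat_lit 0) (p (nat_lit 0x28212) (nat_lit 0) (p (nat_lit 0x38112) (nat_lit 0) (p (nat_lit 0x20092) (nat_lit 0) (p (nat_lit 0x10012) (nat_lit 0) pn))))))))))))))))))))))))))))))))) :=
  Cl.node (nat_lit 0x2680d2680d0d8d0b8b0a) (nat_lit 1) (by decide +kernel) (ClAll.succ ClAll.zero n65)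

def n94 : Cl (O (nat_lit 3)) (R (nat_lit 143633))
    (p (nat_lit 0xc9) (nat_lit 0) (p (nat_lit 0xc1) (nat_lit 0) (p (nat_lit 0x100004) (nat_lit 0) (p (nat_lit 0x10000c) (nat_lit 0) (p (nat_lit 0x200004) (nat_lit 0) (p (nat_lit 0x20000c) (nat_lit 0) (p (nat_lit 0x380c2) (nat_lit 1) (p (nat_lit 0x444aa) (nat_lit 7) (p (nat_lit 0xd1) (nat_lit 1) (p (nat_lit 0x109) (nat_lit 1) (p (nat_lit 0x101) (nat_lit 0) (p (nat_lit 0x119) (nat_lit 0) (p (nat_lit 0xc9) (nat_lit 0) (p (nat_lit 0x89) (nat_lit 1) (p (nat_lit 0x41) (nat_lit 0) (p (nat_lit 0x8a898a08881a) (nat_lit 0) (p (nat_lit 0xa090988079a) (nat_lit 0) (p (nat_lit 0x88088907871a) (nat_lit 0) (p (nat_lit 0x7880887069a) (nat_lit 0) (p (nat_lit 0x80000800088806860a) (nat_lit 0) (p (nat_lit 0x80000800068786058a) (nat_lit 0) (p (nat_lit 0x8687058502) (nat_lit 0) (p (nat_lit 0x606850482) (nat_lit 0) (p (nat_lit 0x160014) (nat_lit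 0) (p (nat_lit 0x68612) (nat_lit 0) (p (nat_lit 0x50592) (nat_lit 0) (p (nat_lit 0x40512) (nat_lit 0) (p (nat_lit 0x50312) (nat_lit 0) (p (nat_lit 0x38292) (nat_lit 0) (p (nat_lit 0x28212) (nat_lit 0) (p (nat_lit 0x38112) (nat_lit 0) (p (nat_lit 0x20092) (nat_lit 0) (p (nat_lit 0x10012) (nat_lit 0) pn))))))))))))))))))))))))))))))))) :=
  Cl.node (nat_lit 0x3cc2a) (nat_lit 12) (by decide +kernel) (ClAll.succ (ClAll.succ (ClAll.succ (ClAll.succ (ClAll.succ (ClAll.succ (ClAll.succ (ClAll.succ (ClAll.succ (ClAll.succ (ClAll.succ (ClAll.succ ClAll.zero s423) s424) s425) s426) s427) s428) s429) s430) s431) s432) s433) s434)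

def n95 : Cl (O (nat_lit 3)) (R (nat_lit 143633))
    (p (nat_lit 0x119) (nat_lit 1) (p (nat_lit 0xc9) (nat_lit 0) (p (nat_lit 0x100004) (nat_lit 0) (p (nat_lit 0x10000c) (nat_lit 0) (p (nat_lit 0x200004) (nat_lit 0) (p (nat_lit 0x20000c) (nat_lit 0) (p (nat_lit 0x380c2) (nat_lit 1) (p (nat_lit 0x444aa) (nat_lit 7) (p (nat_lit 0xd1) (nat_lit 1) (p (nat_lit 0xc1) (nat_lit 0) (p (nat_lit 0x101) (nat_lit 1) (p (nat_lit 0x119) (nat_lit 0) (p (nat_lit 0xc9) (nat_lit 0) (p (nat_lit 0x89) (nat_lit 1) (p (nat_lit 0x41) (nat_lit 0) (p (nat_lit 0x8a898a08881a) (nat_lit 0) (p (nat_lit 0xa090988079a) (nat_lit 0) (p (nat_lit 0x88088907871a) (nat_lit 0) (p (nat_lit 0x7880887069a) (nat_lit 0) (p (nat_lit 0x80000800088806860a) (nat_lit 0) (p (nat_lit 0x80000800068786058a) (nat_lit 0) (p (nat_lit 0x8687058502) (nat_lit 0) (p (nat_lit 0x606850482) (nat_lit 0) (p (nat_lit 0x160014) (nat_lit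 0) (p (nat_lit 0x68612) (nat_lit 0) (p (nat_lit 0x50592) (nat_lit 0) (p (nat_lit 0x40512) (nat_lit 0) (p (nat_lit 0x50312) (nat_lit 0) (p (nat_lit 0x38292) (nat_lit 0) (p (nat_lit 0x28212) (nat_lit 0) (p (nat_lit 0x38112) (nat_lit 0) (p (nat_lit 0x20092) (nat_lit 0) (p (nat_lit 0x10012) (nat_lit 0) pn))))))))))))))))))))))))))))))))) :=
  Cl.node (nat_lit 0xd1) (nat_lit 2) (by decide +kernel) (ClAll.succ (ClAll.succ ClAll.zero n66) s474)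

def n96 : Cl (O (nat_lit 3)) (R (nat_lit 143633))
    (p (nat_lit 0x2680d2680d0b8c8b0a8a) (nat_lit 0) (p (nat_lit 0x100004) (nat_lit 0) (p (nat_lit 0x10000c) (nat_lit 0) (p (nat_lit 0x1fc00c) (nat_lit 0) (p (nat_lit 0x1fc004) (nat_lit 0) (p (nat_lit 0xb0014) (nat_lit 1) (p (nat_lit 0x380c2) (nat_lit 0) (p (nat_lit 0x444aa) (nat_lit 7) (p (nat_lit 0x111) (nat_lit 1) (p (nat_lit 0xd1) (nat_lit 1) (p (nat_lit 0xc1) (nat_lit 0) (p (nat_lit 0x119) (nat_lit 1) (p (nat_lit 0xc9) (nat_lit 0) (p (nat_lit 0x89) (nat_lit 1) (p (nat_lit 0x41) (nat_lit 0) (p (nat_lit 0x8a898a08881a) (nat_lit 0) (p (nat_lit 0xa090988079a) (nat_lit 0) (p (nat_lit 0x88088907871a) (nat_lit 0) (p (nat_lit 0x7880887069a) (nat_lit 0) (p (nat_lit 0x80000800088806860a) (nat_lit 0) (p (nat_lit 0x80000800068786058a) (nat_lit 0) (p (nat_lit 0x8687058502) (nat_lit 0) (p (nat_lit 0x606850482) (nat_lit 0) (p (nat_lit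 0x160014) (nat_lit 0) (p (nat_lit 0x68612) (nat_lit 0) (p (nat_lit 0x50592) (nat_lit 0) (p (nat_lit 0x40512) (nat_lit 0) (p (nat_lit 0x50312) (nat_lit 0) (p (nat_lit 0x38292) (nat_lit 0) (p (nat_lit 0x28212) (nat_lit 0) (p (nat_lit 0x38112) (nat_lit 0) (p (nat_lit 0x20092) (nat_lit 0) (p (nat_lit 0x10012) (nat_lit 0) pn))))))))))))))))))))))))))))))))) :=
  Cl.node (nat_lit 0x2680d2680d0d8d0b8b0a) (nat_lit 1) (by decide +kernel) (ClAll.succ ClAll.zero n67)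

def n97 : Cl (O (nat_lit 3)) (R (nat_lit 143633))
    (p (nat_lit 0x119) (nat_lit 0) (p (nat_lit 0x109) (nat_lit 0) (p (nat_lit 0x100004) (nat_lit 0) (p (nat_lit 0x10000c) (nat_lit 0) (p (nat_lit 0x200004) (nat_lit 0) (p (nat_lit 0x20000c) (nat_lit 0) (p (nat_lit 0x380c2) (nat_lit 1) (p (nat_lit 0x444aa) (nat_lit 7) (p (nat_lit 0x111) (nat_lit 1) (p (nat_lit 0x101) (nat_lit 0) (p (nat_lit 0xc1) (nat_lit 1) (p (nat_lit 0x119) (nat_lit 1) (p (nat_lit 0xc9) (nat_lit 0) (p (nat_lit 0x89) (nat_lit 1) (p (nat_lit 0x41) (nat_lit 0) (p (nat_lit 0x8a898a08881a) (nat_lit 0) (p (nat_lit 0xa090988079a) (nat_lit 0) (p (nat_lit 0x88088907871a) (nat_lit 0) (p (nat_lit 0x7880887069a) (nat_lit 0) (p (nat_lit 0x80000800088806860a) (nat_lit 0) (p (nat_lit 0x80000800068786058a) (nat_lit 0) (p (nat_lit 0x8687058502) (nat_lit 0) (p (nat_lit 0x606850482) (nat_lit 0) (p (nat_lit 0x160014) (nat_lit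 0) (p (nat_lit 0x68612) (nat_lit 0) (p (nat_lit 0x50592) (nat_lit 0) (p (nat_lit 0x40512) (nat_lit 0) (p (nat_lit 0x50312) (nat_lit 0) (p (nat_lit 0x38292) (nat_lit 0) (p (nat_lit 0x28212) (nat_lit 0) (p (nat_lit 0x38112) (nat_lit 0) (p (nat_lit 0x20092) (nat_lit 0) (p (nat_lit 0x10012) (nat_lit 0) pn))))))))))))))))))))))))))))))))) :=
  Cl.node (nat_lit 0x101) (nat_lit 2) (by decide +kernel) (ClAll.succ (ClAll.succ ClAll.zero n68) s554)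

def n98 : Cl (O (nat_lit 3)) (R (nat_lit 143633))
    (p (nat_lit 0x10000c) (nat_lit 0) (p (nat_lit 0x100004) (nat_lit 0) (p (nat_lit 0x1fc00c) (nat_lit 0) (p (nat_lit 0x1fc004) (nat_lit 0) (p (nat_lit 0xb0014) (nat_lit 1) (p (nat_lit 0x380c2) (nat_lit 1) (p (nat_lit 0x3c4aa) (nat_lit 7) (p (nat_lit 0x109) (nat_lit 1) (p (nat_lit 0x89) (nat_lit 1) (p (nat_lit 0xc9) (nat_lit 1) (p (nat_lit 0xc1) (nat_lit 0) (p (nat_lit 0x119) (nat_lit 1) (p (nat_lit 0xd1) (nat_lit 0) (p (nat_lit 0x81) (nat_lit 0) (p (nat_lit 0x41) (nat_lit 1) (p (nat_lit 0x8a898a08881a) (nat_lit 0) (p (nat_lit 0xa090988079a) (nat_lit 0) (p (nat_lit 0x88088907871a) (nat_lit 0) (p (nat_lit 0x7880887069a) (nat_lit 0) (p (nat_lit 0x80000800088806860a) (nat_lit 0) (p (nat_lit 0x80000800068786058a) (nat_lit 0) (p (nat_lit 0x8687058502) (nat_lit 0) (p (nat_lit 0x606850482) (nat_lit 0) (p (nat_lit 0x160014) (nat_lit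 0) (p (nat_lit 0x68612) (nat_lit 0) (p (nat_lit 0x50592) (nat_lit 0) (p (nat_lit 0x40512) (nat_lit 0) (p (nat_lit 0x50312) (nat_lit 0) (p (nat_lit 0x38292) (nat_lit 0) (p (nat_lit 0x28212) (nat_lit 0) (p (nat_lit 0x38112) (nat_lit 0) (p (nat_lit 0x20092) (nat_lit 0) (p (nat_lit 0x10012) (nat_lit 0) pn))))))))))))))))))))))))))))))))) :=
  Cl.node (nat_lit 0x2680d2680d0b8c8b0a8a) (nat_lit 1) (by decide +kernel) (ClAll.succ ClAll.zero n69)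

def n99 : Cl (O (nat_lit 3)) (R (nat_lit 143633))
    (p (nat_lit 0x108014) (nat_lit 0) (p (nat_lit 0x100004) (nat_lit 0) (p (nat_lit 0x1fc00c) (nat_lit 0) (p (nat_lit 0xb0014) (nat_lit 1) (p (nat_lit 0x200004) (nat_lit 0) (p (nat_lit 0x380c2) (nat_lit 1) (p (nat_lit 0x3c4aa) (nat_lit 10) (p (nat_lit 0x109) (nat_lit 1) (p (nat_lit 0x89) (nat_lit 1) (p (nat_lit 0xc9) (nat_lit 1) (p (nat_lit 0xc1) (nat_lit 0) (p (nat_lit 0x119) (nat_lit 1) (p (nat_lit 0xd1) (nat_lit 0) (p (nat_lit 0x81) (nat_lit 0) (p (nat_lit 0x41) (nat_lit 1) (p (nat_lit 0x8a898a08881a) (nat_lit 0) (p (nat_lit 0xa090988079a) (nat_lit 0) (p (nat_lit 0x88088907871a) (nat_lit 0) (p (nat_lit 0x7880887069a) (nat_lit 0) (p (nat_lit 0x80000800088806860a) (nat_lit 0) (p (nat_lit 0x80000800068786058a) (nat_lit 0) (p (nat_lit 0x8687058502) (nat_lit 0) (p (nat_lit 0x606850482) (nat_lit 0) (p (nat_lit 0x160014) (nat_lit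 0) (p (nat_lit 0x68612) (nat_lit 0) (p (nat_lit 0x50592) (nat_lit 0) (p (nat_lit 0x40512) (nat_lit 0) (p (nat_lit 0x50312) (nat_lit 0) (p (nat_lit 0x38292) (nat_lit 0) (p (nat_lit 0x28212) (nat_lit 0) (p (nat_lit 0x38112) (nat_lit 0) (p (nat_lit 0x20092) (nat_lit 0) (p (nat_lit 0x10012) (nat_lit 0) pn))))))))))))))))))))))))))))))))) :=
  Cl.node (nat_lit 0x80004) (nat_lit 2) (by decide +kernel) (ClAll.succ (ClAll.succ ClAll.zero n70) s751)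

def n100 : Cl (O (nat_lit 3)) (R (nat_lit 143633))
    (p (nat_lit 0x134014) (nat_lit 0) (p (nat_lit 0x8000c) (nat_lit 1) (p (nat_lit 0x10000c) (nat_lit 0) (p (nat_lit 0x200004) (nat_lit 0) (p (nat_lit 0x20000c) (nat_lit 0) (p (nat_lit 0x380c2) (nat_lit 0) (p (nat_lit 0x3c4aa) (nat_lit 7) (p (nat_lit 0x109) (nat_lit 1) (p (nat_lit 0x89) (nat_lit 1) (p (nat_lit 0x101) (nat_lit 0) (p (nat_lit 0xc1) (nat_lit 1) (p (nat_lit 0x119) (nat_lit 1) (p (nat_lit 0xd1) (nat_lit 0) (p (nat_lit 0x81) (nat_lit 0) (p (nat_lit 0x41) (nat_lit 1) (p (nat_lit 0x8a898a08881a) (nat_lit 0) (p (nat_lit 0xa090988079a) (nat_lit 0) (p (nat_lit 0x88088907871a) (nat_lit 0) (p (nat_lit 0x7880887069a) (nat_lit 0) (p (nat_lit 0x80000800088806860a) (nat_lit 0) (p (nat_lit 0x80000800068786058a) (nat_lit 0) (p (nat_lit 0x8687058502) (nat_lit 0) (p (nat_lit 0x606850482) (nat_lit 0) (p (nat_lit 0x160014) (nat_lit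 0) (p (nat_lit 0x68612) (nat_lit 0) (p (nat_lit 0x50592) (nat_lit 0) (p (nat_lit 0x40512) (nat_lit 0) (p (nat_lit 0x50312) (nat_lit 0) (p (nat_lit 0x38292) (nat_lit 0) (p (nat_lit 0x28212) (nat_lit 0) (p (nat_lit 0x38112) (nat_lit 0) (p (nat_lit 0x20092) (nat_lit 0) (p (nat_lit 0x10012) (nat_lit 0) pn))))))))))))))))))))))))))))))))) :=
  Cl.node (nat_lit 0x100004) (nat_lit 2) (by decide +kernel) (ClAll.succ (ClAll.succ ClAll.zero n71) s782)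

def n101 : Cl (O (nat_lit 3)) (R (nat_lit 143633))
    (p (nat_lit 0x109) (nat_lit 0) (p (nat_lit 0x8000c) (nat_lit 0) (p (nat_lit 0x10000c) (nat_lit 0) (p (nat_lit 0x20000c) (nat_lit 0) (p (nat_lit 0x200004) (nat_lit 0) (p (nat_lit 0x380c2) (nat_lit 1) (p (nat_lit 0x3c4aa) (nat_lit 7) (p (nat_lit 0x109) (nat_lit 1) (p (nat_lit 0x89) (nat_lit 1) (p (nat_lit 0x101) (nat_lit 0) (p (nat_lit 0xc1) (nat_lit 1) (p (nat_lit 0x119) (nat_lit 1) (p (nat_lit 0xd1) (nat_lit 0) (p (nat_lit 0x81) (nat_lit 0) (p (nat_lit 0x41) (nat_lit 1) (p (nat_lit 0x8a898a08881a) (nat_lit 0) (p (nat_lit 0xa090988079a) (nat_lit 0) (p (nat_lit 0x88088907871a) (nat_lit 0) (p (nat_lit 0x7880887069a) (nat_lit 0) (p (nat_lit 0x80000800088806860a) (nat_lit 0) (p (nat_lit 0x80000800068786058a) (nat_lit 0) (p (nat_lit 0x8687058502) (nat_lit 0) (p (nat_lit 0x606850482) (nat_lit 0) (p (nat_lit 0x160014) (nat_lit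 0) (p (nat_lit 0x68612) (nat_lit 0) (p (nat_lit 0x50592) (nat_lit 0) (p (nat_lit 0x40512) (nat_lit 0) (p (nat_lit 0x50312) (nat_lit 0) (p (nat_lit 0x38292) (nat_lit 0) (p (nat_lit 0x28212) (nat_lit 0) (p (nat_lit 0x38112) (nat_lit 0) (p (nat_lit 0x20092) (nat_lit 0) (p (nat_lit 0x10012) (nat_lit 0) pn))))))))))))))))))))))))))))))))) :=
  Cl.node (nat_lit 0x100004) (nat_lit 2) (by decide +kernel) (ClAll.succ (ClAll.succ ClAll.zero n72) s789)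

def n102 : Cl (O (nat_lit 3)) (R (nat_lit 143633))
    (p (nat_lit 0x109) (nat_lit 1) (p (nat_lit 0x8000c) (nat_lit 0) (p (nat_lit 0x10000c) (nat_lit 0) (p (nat_lit 0x20000c) (nat_lit 0) (p (nat_lit 0x200004) (nat_lit 0) (p (nat_lit 0x380c2) (nat_lit 1) (p (nat_lit 0x3c4aa) (nat_lit 7) (p (nat_lit 0x109) (nat_lit 1) (p (nat_lit 0x89) (nat_lit 1) (p (nat_lit 0x101) (nat_lit 0) (p (nat_lit 0xc1) (nat_lit 1) (p (nat_lit 0x119) (nat_lit 1) (p (nat_lit 0xd1) (nat_lit 0) (p (nat_lit 0x81) (nat_lit 0) (p (nat_lit 0x41) (nat_lit 1) (p (nat_lit 0x8a898a08881a) (nat_lit 0) (p (nat_lit 0xa090988079a) (nat_lit 0) (p (nat_lit 0x88088907871a) (nat_lit 0) (p (nat_lit 0x7880887069a) (nat_lit 0) (p (nat_lit 0x80000800088806860a) (nat_lit 0) (p (nat_lit 0x80000800068786058a) (nat_lit 0) (p (nat_lit 0x8687058502) (nat_lit 0) (p (nat_lit 0x606850482) (nat_lit 0) (p (nat_lit 0x160014) (nat_lit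 0) (p (nat_lit 0x68612) (nat_lit 0) (p (nat_lit 0x50592) (nat_lit 0) (p (nat_lit 0x40512) (nat_lit 0) (p (nat_lit 0x50312) (nat_lit 0) (p (nat_lit 0x38292) (nat_lit 0) (p (nat_lit 0x28212) (nat_lit 0) (p (nat_lit 0x38112) (nat_lit 0) (p (nat_lit 0x20092) (nat_lit 0) (p (nat_lit 0x10012) (nat_lit 0) pn))))))))))))))))))))))))))))))))) :=
  Cl.node (nat_lit 0x41) (nat_lit 2) (by decide +kernel) (ClAll.succ (ClAll.succ ClAll.zero s790) n73)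

def n103 : Cl (O (nat_lit 3)) (R (nat_lit 143633))
    (p (nat_lit 0x134014) (nat_lit 0) (p (nat_lit 0x8000c) (nat_lit 1) (p (nat_lit 0x10000c) (nat_lit 0) (p (nat_lit 0x20000c) (nat_lit 0) (p (nat_lit 0x200004) (nat_lit 0) (p (nat_lit 0x380c2) (nat_lit 1) (p (nat_lit 0x3c4aa) (nat_lit 7) (p (nat_lit 0x109) (nat_lit 1) (p (nat_lit 0x89) (nat_lit 1) (p (nat_lit 0x101) (nat_lit 0) (p (nat_lit 0xc1) (nat_lit 1) (p (nat_lit 0x119) (nat_lit 1) (p (nat_lit 0xd1) (nat_lit 0) (p (nat_lit 0x81) (nat_lit 0) (p (nat_lit 0x41) (nat_lit 1) (p (nat_lit 0x8a898a08881a) (nat_lit 0) (p (nat_lit 0xa090988079a) (nat_lit 0) (p (nat_lit 0x88088907871a) (nat_lit 0) (p (nat_lit 0x7880887069a) (nat_lit 0) (p (nat_lit 0x80000800088806860a) (nat_lit 0) (p (nat_lit 0x80000800068786058a) (nat_lit 0) (p (nat_lit 0x8687058502) (nat_lit 0) (p (nat_lit 0x606850482) (nat_lit 0) (p (nat_lit 0x160014) (nat_lit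 0) (p (nat_lit 0x68612) (nat_lit 0) (p (nat_lit 0x50592) (nat_lit 0) (p (nat_lit 0x40512) (nat_lit 0) (p (nat_lit 0x50312) (nat_lit 0) (p (nat_lit 0x38292) (nat_lit 0) (p (nat_lit 0x28212) (nat_lit 0) (p (nat_lit 0x38112) (nat_lit 0) (p (nat_lit 0x20092) (nat_lit 0) (p (nat_lit 0x10012) (nat_lit 0) pn))))))))))))))))))))))))))))))))) :=
  Cl.node (nat_lit 0x100004) (nat_lit 2) (by decide +kernel) (ClAll.succ (ClAll.succ ClAll.zero n74) s807)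

def n104 : Cl (O (nat_lit 3)) (R (nat_lit 143633))
    (p (nat_lit 0xc9) (nat_lit 1) (p (nat_lit 0x100004) (nat_lit 0) (p (nat_lit 0x10000c) (nat_lit 0) (p (nat_lit 0x20000c) (nat_lit 0) (p (nat_lit 0x200004) (nat_lit 0) (p (nat_lit 0x380c2) (nat_lit 0) (p (nat_lit 0x3c4aa) (nat_lit 7) (p (nat_lit 0xd1) (nat_lit 1) (p (nat_lit 0x111) (nat_lit 1) (p (nat_lit 0x109) (nat_lit 0) (p (nat_lit 0x101) (nat_lit 0) (p (nat_lit 0x119) (nat_lit 0) (p (nat_lit 0xc1) (nat_lit 0) (p (nat_lit 0x81) (nat_lit 1) (p (nat_lit 0x41) (nat_lit 1) (p (nat_lit 0x8a898a08881a) (nat_lit 0) (p (nat_lit 0xa090988079a) (nat_lit 0) (p (nat_lit 0x88088907871a) (nat_lit 0) (p (nat_lit 0x7880887069a) (nat_lit 0) (p (nat_lit 0x80000800088806860a) (nat_lit 0) (p (nat_lit 0x80000800068786058a) (nat_lit 0) (p (nat_lit 0x8687058502) (nat_lit 0) (p (nat_lit 0x606850482) (nat_lit 0) (p (nat_lit 0x160014) (nat_lit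 0) (p (nat_lit 0x68612) (nat_lit 0) (p (nat_lit 0x50592) (nat_lit 0) (p (nat_lit 0x40512) (nat_lit 0) (p (nat_lit 0x50312) (nat_lit 0) (p (nat_lit 0x38292) (nat_lit 0) (p (nat_lit 0x28212) (nat_lit 0) (p (nat_lit 0x38112) (nat_lit 0) (p (nat_lit 0x20092) (nat_lit 0) (p (nat_lit 0x10012) (nat_lit 0) pn))))))))))))))))))))))))))))))))) :=
  Cl.node (nat_lit 0x80004) (nat_lit 2) (by decide +kernel) (ClAll.succ (ClAll.succ ClAll.zero n75) s946)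

def n105 : Cl (O (nat_lit 3)) (R (nat_lit 143633))
    (p (nat_lit 0x3cc2a) (nat_lit 0) (p (nat_lit 0xc9) (nat_lit 0) (p (nat_lit 0x10000c) (nat_lit 0) (p (nat_lit 0x20000c) (nat_lit 0) (p (nat_lit 0x200004) (nat_lit 0) (p (nat_lit 0x380c2) (nat_lit 1) (p (nat_lit 0x3c4aa) (nat_lit 7) (p (nat_lit 0xd1) (nat_lit 1) (p (nat_lit 0x111) (nat_lit 1) (p (nat_lit 0x109) (nat_lit 0) (p (nat_lit 0x101) (nat_lit 0) (p (nat_lit 0x119) (nat_lit 0) (p (nat_lit 0xc1) (nat_lit 0) (p (nat_lit 0x81) (nat_lit 1) (p (nat_lit 0x41) (nat_lit 1) (p (nat_lit 0x8a898a08881a) (nat_lit 0) (p (nat_lit 0xa090988079a) (nat_lit 0) (p (nat_lit 0x88088907871a) (nat_lit 0) (p (nat_lit 0x7880887069a) (nat_lit 0) (p (nat_lit 0x80000800088806860a) (nat_lit 0) (p (nat_lit 0x80000800068786058a) (nat_lit 0) (p (nat_lit 0x8687058502) (nat_lit 0) (p (nat_lit 0x606850482) (nat_lit 0) (p (nat_lit 0x160014) (nat_lit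 0) (p (nat_lit 0x68612) (nat_lit 0) (p (nat_lit 0x50592) (nat_lit 0) (p (nat_lit 0x40512) (nat_lit 0) (p (nat_lit 0x50312) (nat_lit 0) (p (nat_lit 0x38292) (nat_lit 0) (p (nat_lit 0x28212) (nat_lit 0) (p (nat_lit 0x38112) (nat_lit 0) (p (nat_lit 0x20092) (nat_lit 0) (p (nat_lit 0x10012) (nat_lit 0) pn))))))))))))))))))))))))))))))))) :=
  Cl.node (nat_lit 0x380c2) (nat_lit 1) (by decide +kernel) (ClAll.succ ClAll.zero n76)

def n106 : Cl (O (nat_lit 3)) (R (nat_lit 143633))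
    (p (nat_lit 0x100004) (nat_lit 0) (p (nat_lit 0xc9) (nat_lit 1) (p (nat_lit 0x10000c) (nat_lit 0) (p (nat_lit 0x20000c) (nat_lit 0) (p (nat_lit 0x200004) (nat_lit 0) (p (nat_lit 0x380c2) (nat_lit 1) (p (nat_lit 0x3c4aa) (nat_lit 7) (p (nat_lit 0xd1) (nat_lit 1) (p (nat_lit 0x111) (nat_lit 1) (p (nat_lit 0x109) (nat_lit 0) (p (nat_lit 0x101) (nat_lit 0) (p (nat_lit 0x119) (nat_lit 0) (p (nat_lit 0xc1) (nat_lit 0) (p (nat_lit 0x81) (nat_lit 1) (p (nat_lit 0x41) (nat_lit 1) (p (nat_lit 0x8a898a08881a) (nat_lit 0) (p (nat_lit 0xa090988079a) (nat_lit 0) (p (nat_lit 0x88088907871a) (nat_lit 0) (p (nat_lit 0x7880887069a) (nat_lit 0) (p (nat_lit 0x80000800088806860a) (nat_lit 0) (p (nat_lit 0x80000800068786058a) (nat_lit 0) (p (nat_lit 0x8687058502) (nat_lit 0) (p (nat_lit 0x606850482) (nat_lit 0) (p (nat_lit 0x160014) (nat_lit 0) (p (nat_lit 0x68612) (nat_lit 0) (p (nat_lit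 0x50592) (nat_lit 0) (p (nat_lit 0x40512) (nat_lit 0) (p (nat_lit 0x50312) (nat_lit 0) (p (nat_lit 0x38292) (nat_lit 0) (p (nat_lit 0x28212) (nat_lit 0) (p (nat_lit 0x38112) (nat_lit 0) (p (nat_lit 0x20092) (nat_lit 0) (p (nat_lit 0x10012) (nat_lit 0) pn))))))))))))))))))))))))))))))))) :=
  Cl.node (nat_lit 0x101) (nat_lit 2) (by decide +kernel) (ClAll.succ (ClAll.succ ClAll.zero n77) n78)

def n107 : Cl (O (nat_lit 3)) (R (nat_lit 143633))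
    (p (nat_lit 0x84014) (nat_lit 0) (p (nat_lit 0x108014) (nat_lit 0) (p (nat_lit 0x10000c) (nat_lit 1) (p (nat_lit 0x20000c) (nat_lit 0) (p (nat_lit 0x200004) (nat_lit 0) (p (nat_lit 0x380c2) (nat_lit 1) (p (nat_lit 0x3c4aa) (nat_lit 7) (p (nat_lit 0xd1) (nat_lit 1) (p (nat_lit 0x111) (nat_lit 1) (p (nat_lit 0x109) (nat_lit 0) (p (nat_lit 0x101) (nat_lit 0) (p (nat_lit 0x119) (nat_lit 0) (p (nat_lit 0xc1) (nat_lit 0) (p (nat_lit 0x81) (nat_lit 1) (p (nat_lit 0x41) (nat_lit 1) (p (nat_lit 0x8a898a08881a) (nat_lit 0) (p (nat_lit 0xa090988079a) (nat_lit 0) (p (nat_lit 0x88088907871a) (nat_lit 0) (p (nat_lit 0x7880887069a) (nat_lit 0) (p (nat_lit 0x80000800088806860a) (nat_lit 0) (p (nat_lit 0x80000800068786058a) (nat_lit 0) (p (nat_lit 0x8687058502) (nat_lit 0) (p (nat_lit 0x606850482) (nat_lit 0) (p (nat_lit 0x160014) (nat_lit 0) (p (nat_lit 0x68612) (nat_lit 0) (p (nat_lit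 0x50592) (nat_lit 0) (p (nat_lit 0x40512) (nat_lit 0) (p (nat_lit 0x50312) (nat_lit 0) (p (nat_lit 0x38292) (nat_lit 0) (p (nat_lit 0x28212) (nat_lit 0) (p (nat_lit 0x38112) (nat_lit 0) (p (nat_lit 0x20092) (nat_lit 0) (p (nat_lit 0x10012) (nat_lit 0) pn))))))))))))))))))))))))))))))))) :=
  Cl.node (nat_lit 0x100004) (nat_lit 2) (by decide +kernel) (ClAll.succ (ClAll.succ ClAll.zero n79) s975)

def n108 : Cl (O (nat_lit 3)) (R (nat_lit 143633))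
    (p (nat_lit 0xc1) (nat_lit 0) (p (nat_lit 0x119) (nat_lit 1) (p (nat_lit 0x10000c) (nat_lit 0) (p (nat_lit 0x20000c) (nat_lit 0) (p (nat_lit 0x200004) (nat_lit 0) (p (nat_lit 0x380c2) (nat_lit 1) (p (nat_lit 0x3c4aa) (nat_lit 7) (p (nat_lit 0xd1) (nat_lit 1) (p (nat_lit 0xc9) (nat_lit 0) (p (nat_lit 0x109) (nat_lit 1) (p (nat_lit 0x101) (nat_lit 0) (p (nat_lit 0x119) (nat_lit 0) (p (nat_lit 0xc1) (nat_lit 0) (p (nat_lit 0x81) (nat_lit 1) (p (nat_lit 0x41) (nat_lit 1) (p (nat_lit 0x8a898a08881a) (nat_lit 0) (p (nat_lit 0xa090988079a) (nat_lit 0) (p (nat_lit 0x88088907871a) (nat_lit 0) (p (nat_lit 0x7880887069a) (nat_lit 0) (p (nat_lit 0x80000800088806860a) (nat_lit 0) (p (nat_lit 0x80000800068786058a) (nat_lit 0) (p (nat_lit 0x8687058502) (nat_lit 0) (p (nat_lit 0x606850482) (nat_lit 0) (p (nat_lit 0x160014) (nat_lit 0) (p (nat_lit 0x68612) (nat_lit 0) (p (nat_lit 0x50592)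 (nat_lit 0) (p (nat_lit 0x40512) (nat_lit 0) (p (nat_lit 0x50312) (nat_lit 0) (p (nat_lit 0x38292) (nat_lit 0) (p (nat_lit 0x28212) (nat_lit 0) (p (nat_lit 0x38112) (nat_lit 0) (p (nat_lit 0x20092) (nat_lit 0) (p (nat_lit 0x10012) (nat_lit 0) pn))))))))))))))))))))))))))))))))) :=
  Cl.node (nat_lit 0x100004) (nat_lit 2) (by decide +kernel) (ClAll.succ (ClAll.succ ClAll.zero n80) s999)

def n109 : Cl (O (nat_lit 3)) (R (nat_lit 143633))
    (p (nat_lit 0x2680d2680d0b8c8b0a8a) (nat_lit 0) (p (nat_lit 0x10000c) (nat_lit 0) (p (nat_lit 0x100004) (nat_lit 0) (p (nat_lit 0x1fc00c) (nat_lit 0) (p (nat_lit 0x1fc004) (nat_lit 0) (p (nat_lit 0xb0014) (nat_lit 1) (p (nat_lit 0x380c2) (nat_lit 1) (p (nat_lit 0x3c4aa) (nat_lit 7) (p (nat_lit 0x111) (nat_lit 1) (p (nat_lit 0x109) (nat_lit 0) (p (nat_lit 0xc9) (nat_lit 1) (p (nat_lit 0x119) (nat_lit 1) (p (nat_lit 0xc1) (nat_lit 0) (p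 (nat_lit 0x81) (nat_lit 1) (p (nat_lit 0x41) (nat_lit 1) (p (nat_lit 0x8a898a08881a) (nat_lit 0) (p (nat_lit 0xa090988079a) (nat_lit 0) (p (nat_lit 0x88088907871a) (nat_lit 0) (p (nat_lit 0x7880887069a) (nat_lit 0) (p (nat_lit 0x80000800088806860a) (nat_lit 0) (p (nat_lit 0x80000800068786058a) (nat_lit 0) (p (nat_lit 0x8687058502) (nat_lit 0) (p (nat_lit 0x606850482) (nat_lit 0) (p (nat_lit 0x160014) (nat_lit 0) (p (nat_lit 0x68612) (nat_lit 0) (p (nat_lit 0x50592) (nat_lit 0) (p (nat_lit 0x40512) (nat_lit 0) (p (nat_lit 0x50312) (nat_lit 0) (p (nat_lit 0x38292) (nat_lit 0) (p (nat_lit 0x28212) (nat_lit 0) (p (nat_lit 0x38112) (nat_lit 0) (p (nat_lit 0x20092) (nat_lit 0) (p (nat_lit 0x10012) (nat_lit 0) pn))))))))))))))))))))))))))))))))) :=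
  Cl.node (nat_lit 0x2680d2680d0d8d0b8b0a) (nat_lit 1) (by decide +kernel) (ClAll.succ ClAll.zero n81)

def n110 : Cl (O (nat_lit 3)) (R (nat_lit 143633))
    (p (nat_lit 0x89) (nat_lit 1) (p (nat_lit 0x10000c) (nat_lit 0) (p (nat_lit 0x20000c) (nat_lit 0) (p (nat_lit 0xb0014) (nat_lit 0) (p (nat_lit 0x380c2) (nat_lit 0) (p (nat_lit 0x444aa) (nat_lit 7) (p (nat_lit 0x81) (nat_lit 1) (p (nat_lit 0xc9) (nat_lit 1) (p (nat_lit 0x109) (nat_lit 1) (p (nat_lit 0x101) (nat_lit 0) (p (nat_lit 0x119) (nat_lit 0) (p (nat_lit 0xd1) (nat_lit 0) (p (nat_lit 0x89) (nat_lit 0) (p (nat_lit 0x41) (nat_lit 0) (p (nat_lit 0x8a898a08881a) (nat_lit 0) (p (nat_lit 0xa090988079a) (nat_lit 0) (p (nat_lit 0x88088907871a) (nat_lit 0) (p (nat_lit 0x7880887069a) (nat_lit 0) (p (nat_lit 0x80000800088806860a) (nat_lit 0) (p (nat_lit 0x80000800068786058a) (nat_lit 0) (p (nat_lit 0x8687058502) (nat_lit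 0) (p (nat_lit 0x606850482) (nat_lit 0) (p (nat_lit 0x160014) (nat_lit 0) (p (nat_lit 0x68612) (nat_lit 0) (p (nat_lit 0x50592) (nat_lit 0) (p (nat_lit 0x40512) (nat_lit 0) (p (nat_lit 0x50312) (nat_lit 0) (p (nat_lit 0x38292) (nat_lit 0) (p (nat_lit 0x28212) (nat_lit 0) (p (nat_lit 0x38112) (nat_lit 0) (p (nat_lit 0x20092) (nat_lit 0) (p (nat_lit 0x10012) (nat_lit 0) pn)))))))))))))))))))))))))))))))) :=
  Cl.node (nat_lit 0x200004) (nat_lit 2) (by decide +kernel) (ClAll.succ (ClAll.succ ClAll.zero s11) s12)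

def n111 : Cl (O (nat_lit 3)) (R (nat_lit 143633))
    (p (nat_lit 0x100004) (nat_lit 0) (p (nat_lit 0x1fc00c) (nat_lit 0) (p (nat_lit 0x1fc004) (nat_lit 0) (p (nat_lit 0xb0014) (nat_lit 1) (p (nat_lit 0x380c2) (nat_lit 0) (p (nat_lit 0x444aa) (nat_lit 7) (p (nat_lit 0x81) (nat_lit 1) (p (nat_lit 0xc9) (nat_lit 1) (p (nat_lit 0x109) (nat_lit 1) (p (nat_lit 0x101) (nat_lit 0) (p (nat_lit 0x119) (nat_lit 0) (p (nat_lit 0xd1) (nat_lit 0) (p (nat_lit 0x89) (nat_lit 0) (p (nat_lit 0x41) (nat_lit 0) (p (nat_lit 0x8a898a08881a) (nat_lit 0) (p (nat_lit 0xa090988079a) (nat_lit 0) (p (nat_lit 0x88088907871a) (nat_lit 0) (p (nat_lit 0x7880887069a) (nat_lit 0) (p (nat_lit 0x80000800088806860a) (nat_lit 0) (p (nat_lit 0x80000800068786058a) (nat_lit 0) (p (nat_lit 0x8687058502) (nat_lit 0) (p (nat_lit 0x606850482) (nat_lit 0) (p (nat_lit 0x160014) (nat_lit 0) (p (nat_lit 0x68612) (nat_lit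 0) (p (nat_lit 0x50592) (nat_lit 0) (p (nat_lit 0x40512) (nat_lit 0) (p (nat_lit 0x50312) (nat_lit 0) (p (nat_lit 0x38292) (nat_lit 0) (p (nat_lit 0x28212) (nat_lit 0) (p (nat_lit 0x38112) (nat_lit 0) (p (nat_lit 0x20092) (nat_lit 0) (p (nat_lit 0x10012) (nat_lit 0) pn)))))))))))))))))))))))))))))))) :=
  Cl.node (nat_lit 0x10000c) (nat_lit 2) (by decide +kernel) (ClAll.succ (ClAll.succ ClAll.zero n82) s17)

def n112 : Cl (O (nat_lit 3)) (R (nat_lit 143633))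
    (p (nat_lit 0x100004) (nat_lit 0) (p (nat_lit 0x10000c) (nat_lit 0) (p (nat_lit 0x200004) (nat_lit 0) (p (nat_lit 0x20000c) (nat_lit 0) (p (nat_lit 0x380c2) (nat_lit 1) (p (nat_lit 0x444aa) (nat_lit 7) (p (nat_lit 0x81) (nat_lit 1) (p (nat_lit 0xc9) (nat_lit 1) (p (nat_lit 0x109) (nat_lit 1) (p (nat_lit 0x101) (nat_lit 0) (p (nat_lit 0x119) (nat_lit 0) (p (nat_lit 0xd1) (nat_lit 0) (p (nat_lit 0x89) (nat_lit 0) (p (nat_lit 0x41) (nat_lit 0) (p (nat_lit 0x8a898a08881a) (nat_lit 0) (p (nat_lit 0xa090988079a) (nat_lit 0) (p (nat_lit 0x88088907871a) (nat_lit 0) (p (nat_lit 0x7880887069a) (nat_lit 0) (p (nat_lit 0x80000800088806860a) (nat_lit 0) (p (nat_lit 0x80000800068786058a) (nat_lit 0) (p (nat_lit 0x8687058502) (nat_lit 0) (p (nat_lit 0x606850482) (nat_lit 0) (p (nat_lit 0x160014) (nat_lit 0) (p (nat_lit 0x68612) (nat_lit 0) (p (nat_lit 0x50592) (nat_lit 0) (p (nat_lit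 0x40512) (nat_lit 0) (p (nat_lit 0x50312) (nat_lit 0) (p (nat_lit 0x38292) (nat_lit 0) (p (nat_lit 0x28212) (nat_lit 0) (p (nat_lit 0x38112) (nat_lit 0) (p (nat_lit 0x20092) (nat_lit 0) (p (nat_lit 0x10012) (nat_lit 0) pn)))))))))))))))))))))))))))))))) :=
  Cl.node (nat_lit 0x81) (nat_lit 2) (by decide +kernel) (ClAll.succ (ClAll.succ ClAll.zero s21) n83)

def n113 : Cl (O (nat_lit 3)) (R (nat_lit 143633))
    (p (nat_lit 0x10000c) (nat_lit 0) (p (nat_lit 0x200004) (nat_lit 0) (p (nat_lit 0x20000c) (nat_lit 0) (p (nat_lit 0xb0014) (nat_lit 0) (p (nat_lit 0x380c2) (nat_lit 0) (p (nat_lit 0x444aa) (nat_lit 7) (p (nat_lit 0x111) (nat_lit 0) (p (nat_lit 0xc9) (nat_lit 1) (p (nat_lit 0x81) (nat_lit 0) (p (nat_lit 0x101) (nat_lit 1) (p (nat_lit 0x119) (nat_lit 0) (p (nat_lit 0xd1) (nat_lit 0) (p (nat_lit 0x89) (nat_lit 0) (p (nat_lit 0x41) (nat_lit 0) (p (nat_lit 0x8a898a08881a)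 (nat_lit 0) (p (nat_lit 0xa090988079a) (nat_lit 0) (p (nat_lit 0x88088907871a) (nat_lit 0) (p (nat_lit 0x7880887069a) (nat_lit 0) (p (nat_lit 0x80000800088806860a) (nat_lit 0) (p (nat_lit 0x80000800068786058a) (nat_lit 0) (p (nat_lit 0x8687058502) (nat_lit 0) (p (nat_lit 0x606850482) (nat_lit 0) (p (nat_lit 0x160014) (nat_lit 0) (p (nat_lit 0x68612) (nat_lit 0) (p (nat_lit 0x50592) (nat_lit 0) (p (nat_lit 0x40512) (nat_lit 0) (p (nat_lit 0x50312) (nat_lit 0) (p (nat_lit 0x38292) (nat_lit 0) (p (nat_lit 0x28212) (nat_lit 0) (p (nat_lit 0x38112) (nat_lit 0) (p (nat_lit 0x20092) (nat_lit 0) (p (nat_lit 0x10012) (nat_lit 0) pn)))))))))))))))))))))))))))))))) :=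
  Cl.node (nat_lit 0x100004) (nat_lit 2) (by decide +kernel) (ClAll.succ (ClAll.succ ClAll.zero s53) s54)

def n114 : Cl (O (nat_lit 3)) (R (nat_lit 143633))
    (p (nat_lit 0x100004) (nat_lit 0) (p (nat_lit 0x10000c) (nat_lit 0) (p (nat_lit 0x200004) (nat_lit 0) (p (nat_lit 0x20000c) (nat_lit 0) (p (nat_lit 0x380c2) (nat_lit 1) (p (nat_lit 0x444aa) (nat_lit 7) (p (nat_lit 0x111) (nat_lit 0) (p (nat_lit 0xc9) (nat_lit 1) (p (nat_lit 0x81) (nat_lit 0) (p (nat_lit 0x101) (nat_lit 1) (p (nat_lit 0x119) (nat_lit 0) (p (nat_lit 0xd1) (nat_lit 0) (p (nat_lit 0x89) (nat_lit 0) (p (nat_lit 0x41) (nat_lit 0) (p (nat_lit 0x8a898a08881a) (nat_lit 0) (p (nat_lit 0xa090988079a) (nat_lit 0) (p (nat_lit 0x88088907871a) (nat_lit 0) (p (nat_lit 0x7880887069a) (nat_lit 0) (p (nat_lit 0x80000800088806860a) (nat_lit 0) (p (nat_lit 0x80000800068786058a) (nat_lit 0) (p (nat_lit 0x8687058502) (nat_lit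 0) (p (nat_lit 0x606850482) (nat_lit 0) (p (nat_lit 0x160014) (nat_lit 0) (p (nat_lit 0x68612) (nat_lit 0) (p (nat_lit 0x50592) (nat_lit 0) (p (nat_lit 0x40512) (nat_lit 0) (p (nat_lit 0x50312) (nat_lit 0) (p (nat_lit 0x38292) (nat_lit 0) (p (nat_lit 0x28212) (nat_lit 0) (p (nat_lit 0x38112) (nat_lit 0) (p (nat_lit 0x20092) (nat_lit 0) (p (nat_lit 0x10012) (nat_lit 0) pn)))))))))))))))))))))))))))))))) :=
  Cl.node (nat_lit 0x8000c) (nat_lit 2) (by decide +kernel) (ClAll.succ (ClAll.succ ClAll.zero n84) s64)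

def n115 : Cl (O (nat_lit 3)) (R (nat_lit 143633))
    (p (nat_lit 0xb0014) (nat_lit 0) (p (nat_lit 0x380c2) (nat_lit 0) (p (nat_lit 0x444aa) (nat_lit 7) (p (nat_lit 0x101) (nat_lit 1) (p (nat_lit 0x81) (nat_lit 1) (p (nat_lit 0x380c2) (nat_lit 1) (p (nat_lit 0x3cc2a) (nat_lit 11) (p (nat_lit 0x109) (nat_lit 1) (p (nat_lit 0xc9) (nat_lit 1) (p (nat_lit 0xc1) (nat_lit 0) (p (nat_lit 0x119) (nat_lit 1) (p (nat_lit 0xd1) (nat_lit 0) (p (nat_lit 0x89) (nat_lit 0) (p (nat_lit 0x41) (nat_lit 0) (p (nat_lit 0x8a898a08881a) (nat_lit 0) (p (nat_lit 0xa090988079a) (nat_lit 0) (p (nat_lit 0x88088907871a) (nat_lit 0) (p (nat_lit 0x7880887069a) (nat_lit 0) (p (nat_lit 0x80000800088806860a) (nat_lit 0) (p (nat_lit 0x80000800068786058a) (nat_lit 0) (p (nat_lit 0x8687058502) (nat_lit 0) (p (nat_lit 0x606850482) (nat_lit 0) (p (nat_lit 0x160014) (nat_lit 0) (p (nat_lit 0x68612) (nat_lit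 0) (p (nat_lit 0x50592) (nat_lit 0) (p (nat_lit 0x40512) (nat_lit 0) (p (nat_lit 0x50312) (nat_lit 0) (p (nat_lit 0x38292) (nat_lit 0) (p (nat_lit 0x28212) (nat_lit 0) (p (nat_lit 0x38112) (nat_lit 0) (p (nat_lit 0x20092) (nat_lit 0) (p (nat_lit 0x10012) (nat_lit 0) pn)))))))))))))))))))))))))))))))) :=
  Cl.node (nat_lit 0x3ccaa) (nat_lit 12) (by decide +kernel) (ClAll.succ (ClAll.succ (ClAll.succ (ClAll.succ (ClAll.succ (ClAll.succ (ClAll.succ (ClAll.succ (ClAll.succ (ClAll.succ (ClAll.succ (ClAll.succ ClAll.zero s145) s146) s147) s148) s149) s150) s151) s152) s153) s154) s155) s156)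

def n116 : Cl (O (nat_lit 3)) (R (nat_lit 143633))
    (p (nat_lit 0x10000c) (nat_lit 0) (p (nat_lit 0x200004) (nat_lit 0) (p (nat_lit 0x20000c) (nat_lit 0) (p (nat_lit 0xb0014) (nat_lit 0) (p (nat_lit 0x380c2) (nat_lit 0) (p (nat_lit 0x444aa) (nat_lit 7) (p (nat_lit 0x109) (nat_lit 1) (p (nat_lit 0x101) (nat_lit 0) (p (nat_lit 0x81) (nat_lit 1) (p (nat_lit 0xc1) (nat_lit 1) (p (nat_lit 0x119) (nat_lit 1) (p (nat_lit 0xd1) (nat_lit 0) (p (nat_lit 0x89) (nat_lit 0) (p (nat_lit 0x41) (nat_lit 0) (p (nat_lit 0x8a898a08881a) (nat_lit 0) (p (nat_lit 0xa090988079a) (nat_lit 0) (p (nat_lit 0x88088907871a) (nat_lit 0) (p (nat_lit 0x7880887069a) (nat_lit 0) (p (nat_lit 0x80000800088806860a) (nat_lit 0) (p (nat_lit 0x80000800068786058a) (nat_lit 0) (p (nat_lit 0x8687058502) (nat_lit 0) (p (nat_lit 0x606850482) (nat_lit 0) (p (nat_lit 0x160014) (nat_lit 0) (p (nat_lit 0x68612) (nat_lit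 0) (p (nat_lit 0x50592) (nat_lit 0) (p (nat_lit 0x40512) (nat_lit 0) (p (nat_lit 0x50312) (nat_lit 0) (p (nat_lit 0x38292) (nat_lit 0) (p (nat_lit 0x28212) (nat_lit 0) (p (nat_lit 0x38112) (nat_lit 0) (p (nat_lit 0x20092) (nat_lit 0) (p (nat_lit 0x10012) (nat_lit 0) pn)))))))))))))))))))))))))))))))) :=
  Cl.node (nat_lit 0x100004) (nat_lit 2) (by decide +kernel) (ClAll.succ (ClAll.succ ClAll.zero s207) s208)

def n117 : Cl (O (nat_lit 3)) (R (nat_lit 143633))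
    (p (nat_lit 0x100004) (nat_lit 0) (p (nat_lit 0x10000c) (nat_lit 0) (p (nat_lit 0x200004) (nat_lit 0) (p (nat_lit 0x20000c) (nat_lit 0) (p (nat_lit 0x380c2) (nat_lit 1) (p (nat_lit 0x444aa) (nat_lit 7) (p (nat_lit 0x109) (nat_lit 1) (p (nat_lit 0x101) (nat_lit 0) (p (nat_lit 0x81) (nat_lit 1) (p (nat_lit 0xc1) (nat_lit 1) (p (nat_lit 0x119) (nat_lit 1) (p (nat_lit 0xd1) (nat_lit 0) (p (nat_lit 0x89) (nat_lit 0) (p (nat_lit 0x41) (nat_lit 0) (p (nat_lit 0x8a898a08881a) (nat_lit 0) (p (nat_lit 0xa090988079a) (nat_lit 0) (p (nat_lit 0x88088907871a) (nat_lit 0) (p (nat_lit 0x7880887069a) (nat_lit 0) (p (nat_lit 0x80000800088806860a) (nat_lit 0) (p (nat_lit 0x80000800068786058a) (nat_lit 0) (p (nat_lit 0x8687058502) (nat_lit 0) (p (nat_lit 0x606850482) (nat_lit 0) (p (nat_lit 0x160014) (nat_lit 0) (p (nat_lit 0x68612) (nat_lit 0) (p (nat_lit 0x50592) (nat_lit 0) (p (nat_lit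 0x40512) (nat_lit 0) (p (nat_lit 0x50312) (nat_lit 0) (p (nat_lit 0x38292) (nat_lit 0) (p (nat_lit 0x28212) (nat_lit 0) (p (nat_lit 0x38112) (nat_lit 0) (p (nat_lit 0x20092) (nat_lit 0) (p (nat_lit 0x10012) (nat_lit 0) pn)))))))))))))))))))))))))))))))) :=
  Cl.node (nat_lit 0x109) (nat_lit 2) (by decide +kernel) (ClAll.succ (ClAll.succ ClAll.zero n85) s217)

def n118 : Cl (O (nat_lit 3)) (R (nat_lit 143633))
    (p (nat_lit 0x8000c) (nat_lit 0) (p (nat_lit 0x10000c) (nat_lit 0) (p (nat_lit 0x380c2) (nat_lit 0) (p (nat_lit 0x3cc2a) (nat_lit 0) (p (nat_lit 0x41) (nat_lit 0) (p (nat_lit 0x20000c) (nat_lit 0) (p (nat_lit 0x200004) (nat_lit 0) (p (nat_lit 0xc1) (nat_lit 1) (p (nat_lit 0x109) (nat_lit 1) (p (nat_lit 0x101) (nat_lit 0) (p (nat_lit 0x111) (nat_lit 0) (p (nat_lit 0xd1) (nat_lit 1) (p (nat_lit 0x89) (nat_lit 0) (p (nat_lit 0x41) (nat_lit 0) (p (nat_lit 0x8a898a08881a)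 (nat_lit 0) (p (nat_lit 0xa090988079a) (nat_lit 0) (p (nat_lit 0x88088907871a) (nat_lit 0) (p (nat_lit 0x7880887069a) (nat_lit 0) (p (nat_lit 0x80000800088806860a) (nat_lit 0) (p (nat_lit 0x80000800068786058a) (nat_lit 0) (p (nat_lit 0x8687058502) (nat_lit 0) (p (nat_lit 0x606850482) (nat_lit 0) (p (nat_lit 0x160014) (nat_lit 0) (p (nat_lit 0x68612) (nat_lit 0) (p (nat_lit 0x50592) (nat_lit 0) (p (nat_lit 0x40512) (nat_lit 0) (p (nat_lit 0x50312) (nat_lit 0) (p (nat_lit 0x38292) (nat_lit 0) (p (nat_lit 0x28212) (nat_lit 0) (p (nat_lit 0x38112) (nat_lit 0) (p (nat_lit 0x20092) (nat_lit 0) (p (nat_lit 0x10012) (nat_lit 0) pn)))))))))))))))))))))))))))))))) :=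
  Cl.node (nat_lit 0x81) (nat_lit 2) (by decide +kernel) (ClAll.succ (ClAll.succ ClAll.zero s245) s246)

def n119 : Cl (O (nat_lit 3)) (R (nat_lit 143633))
    (p (nat_lit 0x10000c) (nat_lit 0) (p (nat_lit 0x100004) (nat_lit 0) (p (nat_lit 0x380c2) (nat_lit 0) (p (nat_lit 0x3cc2a) (nat_lit 0) (p (nat_lit 0x109) (nat_lit 1) (p (nat_lit 0x20000c) (nat_lit 0) (p (nat_lit 0x200004) (nat_lit 0) (p (nat_lit 0x119) (nat_lit 0) (p (nat_lit 0x81) (nat_lit 0) (p (nat_lit 0x101) (nat_lit 1) (p (nat_lit 0x111) (nat_lit 0) (p (nat_lit 0xd1) (nat_lit 1) (p (nat_lit 0x89) (nat_lit 0) (p (nat_lit 0x41) (nat_lit 0) (p (nat_lit 0x8a898a08881a) (nat_lit 0) (p (nat_lit 0xa090988079a) (nat_lit 0) (p (nat_lit 0x88088907871a) (nat_lit 0) (p (nat_lit 0x7880887069a) (nat_lit 0) (p (nat_lit 0x80000800088806860a) (nat_lit 0) (p (nat_lit 0x80000800068786058a) (nat_lit 0) (p (nat_lit 0x8687058502) (nat_lit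 0) (p (nat_lit 0x606850482) (nat_lit 0) (p (nat_lit 0x160014) (nat_lit 0) (p (nat_lit 0x68612) (nat_lit 0) (p (nat_lit 0x50592) (nat_lit 0) (p (nat_lit 0x40512) (nat_lit 0) (p (nat_lit 0x50312) (nat_lit 0) (p (nat_lit 0x38292) (nat_lit 0) (p (nat_lit 0x28212) (nat_lit 0) (p (nat_lit 0x38112) (nat_lit 0) (p (nat_lit 0x20092) (nat_lit 0) (p (nat_lit 0x10012) (nat_lit 0) pn)))))))))))))))))))))))))))))))) :=
  Cl.node (nat_lit 0x8000c) (nat_lit 2) (by decide +kernel) (ClAll.succ (ClAll.succ ClAll.zero n86) s266)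

def n120 : Cl (O (nat_lit 3)) (R (nat_lit 143633))
    (p (nat_lit 0x10000c) (nat_lit 0) (p (nat_lit 0x200004) (nat_lit 0) (p (nat_lit 0x20000c) (nat_lit 0) (p (nat_lit 0xb0014) (nat_lit 0) (p (nat_lit 0x380c2) (nat_lit 0) (p (nat_lit 0x444aa) (nat_lit 7) (p (nat_lit 0xd1) (nat_lit 1) (p (nat_lit 0x111) (nat_lit 1) (p (nat_lit 0x109) (nat_lit 0) (p (nat_lit 0x101) (nat_lit 0) (p (nat_lit 0x119) (nat_lit 0) (p (nat_lit 0xc9) (nat_lit 0) (p (nat_lit 0x89) (nat_lit 1) (p (nat_lit 0x41) (nat_lit 0) (p (nat_lit 0x8a898a08881a) (nat_lit 0) (p (nat_lit 0xa090988079a) (nat_lit 0) (p (nat_lit 0x88088907871a) (nat_lit 0) (p (nat_lit 0x7880887069a) (nat_lit 0) (p (nat_lit 0x80000800088806860a) (nat_lit 0) (p (nat_lit 0x80000800068786058a) (nat_lit 0) (p (nat_lit 0x8687058502) (nat_lit 0) (p (nat_lit 0x606850482) (nat_lit 0) (p (nat_lit 0x160014) (nat_lit 0) (p (nat_lit 0x68612) (nat_lit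 0) (p (nat_lit 0x50592) (nat_lit 0) (p (nat_lit 0x40512) (nat_lit 0) (p (nat_lit 0x50312) (nat_lit 0) (p (nat_lit 0x38292) (nat_lit 0) (p (nat_lit 0x28212) (nat_lit 0) (p (nat_lit 0x38112) (nat_lit 0) (p (nat_lit 0x20092) (nat_lit 0) (p (nat_lit 0x10012) (nat_lit 0) pn)))))))))))))))))))))))))))))))) :=
  Cl.node (nat_lit 0x100004) (nat_lit 2) (by decide +kernel) (ClAll.succ (ClAll.succ ClAll.zero n87) s338)

def n121 : Cl (O (nat_lit 3)) (R (nat_lit 143633))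
    (p (nat_lit 0x10000c) (nat_lit 1) (p (nat_lit 0x200004) (nat_lit 0) (p (nat_lit 0x20000c) (nat_lit 0) (p (nat_lit 0xb0014) (nat_lit 0) (p (nat_lit 0x380c2) (nat_lit 0) (p (nat_lit 0x444aa) (nat_lit 7) (p (nat_lit 0xd1) (nat_lit 1) (p (nat_lit 0x111) (nat_lit 1) (p (nat_lit 0x109) (nat_lit 0) (p (nat_lit 0x101) (nat_lit 0) (p (nat_lit 0x119) (nat_lit 0) (p (nat_lit 0xc9) (nat_lit 0) (p (nat_lit 0x89) (nat_lit 1) (p (nat_lit 0x41) (nat_lit 0) (p (nat_lit 0x8a898a08881a) (nat_lit 0) (p (nat_lit 0xa090988079a) (nat_lit 0) (p (nat_lit 0x88088907871a) (nat_lit 0) (p (nat_lit 0x7880887069a) (nat_lit 0) (p (nat_lit 0x80000800088806860a) (nat_lit 0) (p (nat_lit 0x80000800068786058a) (nat_lit 0) (p (nat_lit 0x8687058502) (nat_lit 0) (p (nat_lit 0x606850482) (nat_lit 0) (p (nat_lit 0x160014) (nat_lit 0) (p (nat_lit 0x68612) (nat_lit 0) (p (nat_lit 0x50592) (nat_lit 0) (p (nat_lit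 0x40512) (nat_lit 0) (p (nat_lit 0x50312) (nat_lit 0) (p (nat_lit 0x38292) (nat_lit 0) (p (nat_lit 0x28212) (nat_lit 0) (p (nat_lit 0x38112) (nat_lit 0) (p (nat_lit 0x20092) (nat_lit 0) (p (nat_lit 0x10012) (nat_lit 0) pn)))))))))))))))))))))))))))))))) :=
  Cl.node (nat_lit 0x58014) (nat_lit 2) (by decide +kernel) (ClAll.succ (ClAll.succ ClAll.zero s339) s340)

def n122 : Cl (O (nat_lit 3)) (R (nat_lit 143633))
    (p (nat_lit 0x10000c) (nat_lit 1) (p (nat_lit 0x1fc00c) (nat_lit 0) (p (nat_lit 0x1fc004) (nat_lit 0) (p (nat_lit 0xb0014) (nat_lit 1) (p (nat_lit 0x380c2) (nat_lit 0) (p (nat_lit 0x444aa) (nat_lit 7) (p (nat_lit 0xd1) (nat_lit 1) (p (nat_lit 0x111) (nat_lit 1) (p (nat_lit 0x109) (nat_lit 0) (p (nat_lit 0x101) (nat_lit 0) (p (nat_lit 0x119) (nat_lit 0) (p (nat_lit 0xc9) (nat_lit 0) (p (nat_lit 0x89) (nat_lit 1) (p (nat_lit 0x41) (nat_lit 0) (p (nat_lit 0x8a898a08881a)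 (nat_lit 0) (p (nat_lit 0xa090988079a) (nat_lit 0) (p (nat_lit 0x88088907871a) (nat_lit 0) (p (nat_lit 0x7880887069a) (nat_lit 0) (p (nat_lit 0x80000800088806860a) (nat_lit 0) (p (nat_lit 0x80000800068786058a) (nat_lit 0) (p (nat_lit 0x8687058502) (nat_lit 0) (p (nat_lit 0x606850482) (nat_lit 0) (p (nat_lit 0x160014) (nat_lit 0) (p (nat_lit 0x68612) (nat_lit 0) (p (nat_lit 0x50592) (nat_lit 0) (p (nat_lit 0x40512) (nat_lit 0) (p (nat_lit 0x50312) (nat_lit 0) (p (nat_lit 0x38292) (nat_lit 0) (p (nat_lit 0x28212) (nat_lit 0) (p (nat_lit 0x38112) (nat_lit 0) (p (nat_lit 0x20092) (nat_lit 0) (p (nat_lit 0x10012) (nat_lit 0) pn)))))))))))))))))))))))))))))))) :=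
  Cl.node (nat_lit 0x108014) (nat_lit 2) (by decide +kernel) (ClAll.succ (ClAll.succ ClAll.zero n88) s352)

def n123 : Cl (O (nat_lit 3)) (R (nat_lit 143633))
    (p (nat_lit 0x10000c) (nat_lit 0) (p (nat_lit 0x100004) (nat_lit 0) (p (nat_lit 0x200004) (nat_lit 0) (p (nat_lit 0x20000c) (nat_lit 0) (p (nat_lit 0x380c2) (nat_lit 1) (p (nat_lit 0x444aa) (nat_lit 7) (p (nat_lit 0xd1) (nat_lit 1) (p (nat_lit 0x111) (nat_lit 1) (p (nat_lit 0x109) (nat_lit 0) (p (nat_lit 0x101) (nat_lit 0) (p (nat_lit 0x119) (nat_lit 0) (p (nat_lit 0xc9) (nat_lit 0) (p (nat_lit 0x89) (nat_lit 1) (p (nat_lit 0x41) (nat_lit 0) (p (nat_lit 0x8a898a08881a) (nat_lit 0) (p (nat_lit 0xa090988079a) (nat_lit 0) (p (nat_lit 0x88088907871a) (nat_lit 0) (p (nat_lit 0x7880887069a) (nat_lit 0) (p (nat_lit 0x80000800088806860a) (nat_lit 0) (p (nat_lit 0x80000800068786058a) (nat_lit 0) (p (nat_lit 0x8687058502)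 (nat_lit 0) (p (nat_lit 0x606850482) (nat_lit 0) (p (nat_lit 0x160014) (nat_lit 0) (p (nat_lit 0x68612) (nat_lit 0) (p (nat_lit 0x50592) (nat_lit 0) (p (nat_lit 0x40512) (nat_lit 0) (p (nat_lit 0x50312) (nat_lit 0) (p (nat_lit 0x38292) (nat_lit 0) (p (nat_lit 0x28212) (nat_lit 0) (p (nat_lit 0x38112) (nat_lit 0) (p (nat_lit 0x20092) (nat_lit 0) (p (nat_lit 0x10012) (nat_lit 0) pn)))))))))))))))))))))))))))))))) :=
  Cl.node (nat_lit 0xc1) (nat_lit 2) (by decide +kernel) (ClAll.succ (ClAll.succ ClAll.zero n89) n90)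

def n124 : Cl (O (nat_lit 3)) (R (nat_lit 143633))
    (p (nat_lit 0x10000c) (nat_lit 1) (p (nat_lit 0x100004) (nat_lit 0) (p (nat_lit 0x200004) (nat_lit 0) (p (nat_lit 0x20000c) (nat_lit 0) (p (nat_lit 0x380c2) (nat_lit 1) (p (nat_lit 0x444aa) (nat_lit 7) (p (nat_lit 0xd1) (nat_lit 1) (p (nat_lit 0x111) (nat_lit 1) (p (nat_lit 0x109) (nat_lit 0) (p (nat_lit 0x101) (nat_lit 0) (p (nat_lit 0x119) (nat_lit 0) (p (nat_lit 0xc9) (nat_lit 0) (p (nat_lit 0x89) (nat_lit 1) (p (nat_lit 0x41) (nat_lit 0) (p (nat_lit 0x8a898a08881a) (nat_lit 0) (p (nat_lit 0xa090988079a) (nat_lit 0) (p (nat_lit 0x88088907871a) (nat_lit 0) (p (nat_lit 0x7880887069a) (nat_lit 0) (p (nat_lit 0x80000800088806860a) (nat_lit 0) (p (nat_lit 0x80000800068786058a) (nat_lit 0) (p (nat_lit 0x8687058502) (nat_lit 0) (p (nat_lit 0x606850482) (nat_lit 0) (p (nat_lit 0x160014) (nat_lit 0) (p (nat_lit 0x68612) (nat_lit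 0) (p (nat_lit 0x50592) (nat_lit 0) (p (nat_lit 0x40512) (nat_lit 0) (p (nat_lit 0x50312) (nat_lit 0) (p (nat_lit 0x38292) (nat_lit 0) (p (nat_lit 0x28212) (nat_lit 0) (p (nat_lit 0x38112) (nat_lit 0) (p (nat_lit 0x20092) (nat_lit 0) (p (nat_lit 0x10012) (nat_lit 0) pn)))))))))))))))))))))))))))))))) :=
  Cl.node (nat_lit 0x108014) (nat_lit 2) (by decide +kernel) (ClAll.succ (ClAll.succ ClAll.zero n91) s373)

def n125 : Cl (O (nat_lit 3)) (R (nat_lit 143633))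
    (p (nat_lit 0xc1) (nat_lit 0) (p (nat_lit 0x10000c) (nat_lit 0) (p (nat_lit 0x200004) (nat_lit 0) (p (nat_lit 0x20000c) (nat_lit 0) (p (nat_lit 0xb0014) (nat_lit 0) (p (nat_lit 0x380c2) (nat_lit 0) (p (nat_lit 0x444aa) (nat_lit 7) (p (nat_lit 0xd1) (nat_lit 1) (p (nat_lit 0x109) (nat_lit 1) (p (nat_lit 0x101) (nat_lit 0) (p (nat_lit 0x119) (nat_lit 0) (p (nat_lit 0xc9) (nat_lit 0) (p (nat_lit 0x89) (nat_lit 1) (p (nat_lit 0x41) (nat_lit 0) (p (nat_lit 0x8a898a08881a) (nat_lit 0) (p (nat_lit 0xa090988079a) (nat_lit 0) (p (nat_lit 0x88088907871a) (nat_lit 0) (p (nat_lit 0x7880887069a) (nat_lit 0) (p (nat_lit 0x80000800088806860a) (nat_lit 0) (p (nat_lit 0x80000800068786058a) (nat_lit 0) (p (nat_lit 0x8687058502) (nat_lit 0) (p (nat_lit 0x606850482) (nat_lit 0) (p (nat_lit 0x160014) (nat_lit 0) (p (nat_lit 0x68612) (nat_lit 0) (p (nat_lit 0x50592) (nat_lit 0) (p (nat_lit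 0x40512) (nat_lit 0) (p (nat_lit 0x50312) (nat_lit 0) (p (nat_lit 0x38292) (nat_lit 0) (p (nat_lit 0x28212) (nat_lit 0) (p (nat_lit 0x38112) (nat_lit 0) (p (nat_lit 0x20092) (nat_lit 0) (p (nat_lit 0x10012) (nat_lit 0) pn)))))))))))))))))))))))))))))))) :=
  Cl.node (nat_lit 0x100004) (nat_lit 2) (by decide +kernel) (ClAll.succ (ClAll.succ ClAll.zero n92) s411)

def n126 : Cl (O (nat_lit 3)) (R (nat_lit 143633))
    (p (nat_lit 0x100004) (nat_lit 0) (p (nat_lit 0x10000c) (nat_lit 0) (p (nat_lit 0x1fc00c) (nat_lit 0) (p (nat_lit 0x1fc004) (nat_lit 0) (p (nat_lit 0xb0014) (nat_lit 1) (p (nat_lit 0x380c2) (nat_lit 0) (p (nat_lit 0x444aa) (nat_lit 7) (p (nat_lit 0xd1) (nat_lit 1) (p (nat_lit 0x109) (nat_lit 1) (p (nat_lit 0x101) (nat_lit 0) (p (nat_lit 0x119) (nat_lit 0) (p (nat_lit 0xc9) (nat_lit 0) (p (nat_lit 0x89) (nat_lit 1) (p (nat_lit 0x41) (nat_lit 0) (p (nat_lit 0x8a898a08881a)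 (nat_lit 0) (p (nat_lit 0xa090988079a) (nat_lit 0) (p (nat_lit 0x88088907871a) (nat_lit 0) (p (nat_lit 0x7880887069a) (nat_lit 0) (p (nat_lit 0x80000800088806860a) (nat_lit 0) (p (nat_lit 0x80000800068786058a) (nat_lit 0) (p (nat_lit 0x8687058502) (nat_lit 0) (p (nat_lit 0x606850482) (nat_lit 0) (p (nat_lit 0x160014) (nat_lit 0) (p (nat_lit 0x68612) (nat_lit 0) (p (nat_lit 0x50592) (nat_lit 0) (p (nat_lit 0x40512) (nat_lit 0) (p (nat_lit 0x50312) (nat_lit 0) (p (nat_lit 0x38292) (nat_lit 0) (p (nat_lit 0x28212) (nat_lit 0) (p (nat_lit 0x38112) (nat_lit 0) (p (nat_lit 0x20092) (nat_lit 0) (p (nat_lit 0x10012) (nat_lit 0) pn)))))))))))))))))))))))))))))))) :=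
  Cl.node (nat_lit 0x2680d2680d0b8c8b0a8a) (nat_lit 1) (by decide +kernel) (ClAll.succ ClAll.zero n93)

def n127 : Cl (O (nat_lit 3)) (R (nat_lit 143633))
    (p (nat_lit 0xc1) (nat_lit 0) (p (nat_lit 0x100004) (nat_lit 0) (p (nat_lit 0x10000c) (nat_lit 0) (p (nat_lit 0x200004) (nat_lit 0) (p (nat_lit 0x20000c) (nat_lit 0) (p (nat_lit 0x380c2) (nat_lit 1) (p (nat_lit 0x444aa) (nat_lit 7) (p (nat_lit 0xd1) (nat_lit 1) (p (nat_lit 0x109) (nat_lit 1) (p (nat_lit 0x101) (nat_lit 0) (p (nat_lit 0x119) (nat_lit 0) (p (nat_lit 0xc9) (nat_lit 0) (p (nat_lit 0x89) (nat_lit 1) (p (nat_lit 0x41) (nat_lit 0) (p (nat_lit 0x8a898a08881a) (nat_lit 0) (p (nat_lit 0xa090988079a) (nat_lit 0) (p (nat_lit 0x88088907871a) (nat_lit 0) (p (nat_lit 0x7880887069a) (nat_lit 0) (p (nat_lit 0x80000800088806860a) (nat_lit 0) (p (nat_lit 0x80000800068786058a) (nat_lit 0) (p (nat_lit 0x8687058502) (nat_lit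 0) (p (nat_lit 0x606850482) (nat_lit 0) (p (nat_lit 0x160014) (nat_lit 0) (p (nat_lit 0x68612) (nat_lit 0) (p (nat_lit 0x50592) (nat_lit 0) (p (nat_lit 0x40512) (nat_lit 0) (p (nat_lit 0x50312) (nat_lit 0) (p (nat_lit 0x38292) (nat_lit 0) (p (nat_lit 0x28212) (nat_lit 0) (p (nat_lit 0x38112) (nat_lit 0) (p (nat_lit 0x20092) (nat_lit 0) (p (nat_lit 0x10012) (nat_lit 0) pn)))))))))))))))))))))))))))))))) :=
  Cl.node (nat_lit 0xc9) (nat_lit 2) (by decide +kernel) (ClAll.succ (ClAll.succ ClAll.zero n94) s435)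

def n128 : Cl (O (nat_lit 3)) (R (nat_lit 143633))
    (p (nat_lit 0xc9) (nat_lit 0) (p (nat_lit 0x100004) (nat_lit 0) (p (nat_lit 0x10000c) (nat_lit 0) (p (nat_lit 0x200004) (nat_lit 0) (p (nat_lit 0x20000c) (nat_lit 0) (p (nat_lit 0x380c2) (nat_lit 1) (p (nat_lit 0x444aa) (nat_lit 7) (p (nat_lit 0xd1) (nat_lit 1) (p (nat_lit 0xc1) (nat_lit 0) (p (nat_lit 0x101) (nat_lit 1) (p (nat_lit 0x119) (nat_lit 0) (p (nat_lit 0xc9) (nat_lit 0) (p (nat_lit 0x89) (nat_lit 1) (p (nat_lit 0x41) (nat_lit 0) (p (nat_lit 0x8a898a08881a) (nat_lit 0) (p (nat_lit 0xa090988079a) (nat_lit 0) (p (nat_lit 0x88088907871a) (nat_lit 0) (p (nat_lit 0x7880887069a) (nat_lit 0) (p (nat_lit 0x80000800088806860a) (nat_lit 0) (p (nat_lit 0x80000800068786058a) (nat_lit 0) (p (nat_lit 0x8687058502) (nat_lit 0) (p (nat_lit 0x606850482) (nat_lit 0) (p (nat_lit 0x160014) (nat_lit 0) (p (nat_lit 0x68612) (nat_lit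 0) (p (nat_lit 0x50592) (nat_lit 0) (p (nat_lit 0x40512) (nat_lit 0) (p (nat_lit 0x50312) (nat_lit 0) (p (nat_lit 0x38292) (nat_lit 0) (p (nat_lit 0x28212) (nat_lit 0) (p (nat_lit 0x38112) (nat_lit 0) (p (nat_lit 0x20092) (nat_lit 0) (p (nat_lit 0x10012) (nat_lit 0) pn)))))))))))))))))))))))))))))))) :=
  Cl.node (nat_lit 0x119) (nat_lit 2) (by decide +kernel) (ClAll.succ (ClAll.succ ClAll.zero s470) n95)

def n129 : Cl (O (nat_lit 3)) (R (nat_lit 143633))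
    (p (nat_lit 0x100004) (nat_lit 0) (p (nat_lit 0x200004) (nat_lit 0) (p (nat_lit 0x10000c) (nat_lit 0) (p (nat_lit 0x20000c) (nat_lit 0) (p (nat_lit 0xb0014) (nat_lit 0) (p (nat_lit 0x380c2) (nat_lit 0) (p (nat_lit 0x444aa) (nat_lit 7) (p (nat_lit 0x111) (nat_lit 1) (p (nat_lit 0xd1) (nat_lit 1) (p (nat_lit 0xc1) (nat_lit 0) (p (nat_lit 0x119) (nat_lit 1) (p (nat_lit 0xc9) (nat_lit 0) (p (nat_lit 0x89) (nat_lit 1) (p (nat_lit 0x41) (nat_lit 0) (p (nat_lit 0x8a898a08881a) (nat_lit 0) (p (nat_lit 0xa090988079a) (nat_lit 0) (p (nat_lit 0x88088907871a) (nat_lit 0) (p (nat_lit 0x7880887069a) (nat_lit 0) (p (nat_lit 0x80000800088806860a) (nat_lit 0) (p (nat_lit 0x80000800068786058a) (nat_lit 0) (p (nat_lit 0x8687058502) (nat_lit 0) (p (nat_lit 0x606850482) (nat_lit 0) (p (nat_lit 0x160014) (nat_lit 0) (p (nat_lit 0x68612) (nat_lit 0) (p (nat_lit 0x50592) (nat_lit 0) (p (nat_lit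 0x40512) (nat_lit 0) (p (nat_lit 0x50312) (nat_lit 0) (p (nat_lit 0x38292) (nat_lit 0) (p (nat_lit 0x28212) (nat_lit 0) (p (nat_lit 0x38112) (nat_lit 0) (p (nat_lit 0x20092) (nat_lit 0) (p (nat_lit 0x10012) (nat_lit 0) pn)))))))))))))))))))))))))))))))) :=
  Cl.node (nat_lit 0x111) (nat_lit 2) (by decide +kernel) (ClAll.succ (ClAll.succ ClAll.zero s494) s495)

def n130 : Cl (O (nat_lit 3)) (R (nat_lit 143633))
    (p (nat_lit 0x100004) (nat_lit 0) (p (nat_lit 0x10000c) (nat_lit 0) (p (nat_lit 0x1fc00c) (nat_lit 0) (p (nat_lit 0x1fc004) (nat_lit 0) (p (nat_lit 0xb0014) (nat_lit 1) (p (nat_lit 0x380c2) (nat_lit 0) (p (nat_lit 0x444aa) (nat_lit 7) (p (nat_lit 0x111) (nat_lit 1) (p (nat_lit 0xd1) (nat_lit 1) (p (nat_lit 0xc1) (nat_lit 0) (p (nat_lit 0x119) (nat_lit 1) (p (nat_lit 0xc9) (nat_lit 0) (p (nat_lit 0x89) (nat_lit 1) (p (nat_lit 0x41) (nat_lit 0) (p (nat_lit 0x8a898a08881a)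 (nat_lit 0) (p (nat_lit 0xa090988079a) (nat_lit 0) (p (nat_lit 0x88088907871a) (nat_lit 0) (p (nat_lit 0x7880887069a) (nat_lit 0) (p (nat_lit 0x80000800088806860a) (nat_lit 0) (p (nat_lit 0x80000800068786058a) (nat_lit 0) (p (nat_lit 0x8687058502) (nat_lit 0) (p (nat_lit 0x606850482) (nat_lit 0) (p (nat_lit 0x160014) (nat_lit 0) (p (nat_lit 0x68612) (nat_lit 0) (p (nat_lit 0x50592) (nat_lit 0) (p (nat_lit 0x40512) (nat_lit 0) (p (nat_lit 0x50312) (nat_lit 0) (p (nat_lit 0x38292) (nat_lit 0) (p (nat_lit 0x28212) (nat_lit 0) (p (nat_lit 0x38112) (nat_lit 0) (p (nat_lit 0x20092) (nat_lit 0) (p (nat_lit 0x10012) (nat_lit 0) pn)))))))))))))))))))))))))))))))) :=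
  Cl.node (nat_lit 0x2680d2680d0b8c8b0a8a) (nat_lit 1) (by decide +kernel) (ClAll.succ ClAll.zero n96)

def n131 : Cl (O (nat_lit 3)) (R (nat_lit 143633))
    (p (nat_lit 0x109) (nat_lit 0) (p (nat_lit 0x100004) (nat_lit 0) (p (nat_lit 0x10000c) (nat_lit 0) (p (nat_lit 0x200004) (nat_lit 0) (p (nat_lit 0x20000c) (nat_lit 0) (p (nat_lit 0x380c2) (nat_lit 1) (p (nat_lit 0x444aa) (nat_lit 7) (p (nat_lit 0x111) (nat_lit 1) (p (nat_lit 0xd1) (nat_lit 1) (p (nat_lit 0xc1) (nat_lit 0) (p (nat_lit 0x119) (nat_lit 1) (p (nat_lit 0xc9) (nat_lit 0) (p (nat_lit 0x89) (nat_lit 1) (p (nat_lit 0x41) (nat_lit 0) (p (nat_lit 0x8a898a08881a) (nat_lit 0) (p (nat_lit 0xa090988079a) (nat_lit 0) (p (nat_lit 0x88088907871a) (nat_lit 0) (p (nat_lit 0x7880887069a) (nat_lit 0) (p (nat_lit 0x80000800088806860a) (nat_lit 0) (p (nat_lit 0x80000800068786058a) (nat_lit 0) (p (nat_lit 0x8687058502) (nat_lit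 0) (p (nat_lit 0x606850482) (nat_lit 0) (p (nat_lit 0x160014) (nat_lit 0) (p (nat_lit 0x68612) (nat_lit 0) (p (nat_lit 0x50592) (nat_lit 0) (p (nat_lit 0x40512) (nat_lit 0) (p (nat_lit 0x50312) (nat_lit 0) (p (nat_lit 0x38292) (nat_lit 0) (p (nat_lit 0x28212) (nat_lit 0) (p (nat_lit 0x38112) (nat_lit 0) (p (nat_lit 0x20092) (nat_lit 0) (p (nat_lit 0x10012) (nat_lit 0) pn)))))))))))))))))))))))))))))))) :=
  Cl.node (nat_lit 0x80004) (nat_lit 2) (by decide +kernel) (ClAll.succ (ClAll.succ ClAll.zero s507) s508)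

def n132 : Cl (O (nat_lit 3)) (R (nat_lit 143633))
    (p (nat_lit 0x109) (nat_lit 0) (p (nat_lit 0x100004) (nat_lit 0) (p (nat_lit 0x10000c) (nat_lit 0) (p (nat_lit 0x200004) (nat_lit 0) (p (nat_lit 0x20000c) (nat_lit 0) (p (nat_lit 0x380c2) (nat_lit 1) (p (nat_lit 0x444aa) (nat_lit 7) (p (nat_lit 0x111) (nat_lit 1) (p (nat_lit 0x101) (nat_lit 0) (p (nat_lit 0xc1) (nat_lit 1) (p (nat_lit 0x119) (nat_lit 1) (p (nat_lit 0xc9) (nat_lit 0) (p (nat_lit 0x89) (nat_lit 1) (p (nat_lit 0x41) (nat_lit 0) (p (nat_lit 0x8a898a08881a) (nat_lit 0) (p (nat_lit 0xa090988079a) (nat_lit 0) (p (nat_lit 0x88088907871a) (nat_lit 0) (p (nat_lit 0x7880887069a) (nat_lit 0) (p (nat_lit 0x80000800088806860a) (nat_lit 0) (p (nat_lit 0x80000800068786058a) (nat_lit 0) (p (nat_lit 0x8687058502) (nat_lit 0) (p (nat_lit 0x606850482) (nat_lit 0) (p (nat_lit 0x160014) (nat_lit 0) (p (nat_lit 0x68612) (nat_lit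 0) (p (nat_lit 0x50592) (nat_lit 0) (p (nat_lit 0x40512) (nat_lit 0) (p (nat_lit 0x50312) (nat_lit 0) (p (nat_lit 0x38292) (nat_lit 0) (p (nat_lit 0x28212) (nat_lit 0) (p (nat_lit 0x38112) (nat_lit 0) (p (nat_lit 0x20092) (nat_lit 0) (p (nat_lit 0x10012) (nat_lit 0) pn)))))))))))))))))))))))))))))))) :=
  Cl.node (nat_lit 0x119) (nat_lit 2) (by decide +kernel) (ClAll.succ (ClAll.succ ClAll.zero n97) s555)

def n133 : Cl (O (nat_lit 3)) (R (nat_lit 143633))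
    (p (nat_lit 0x100004) (nat_lit 0) (p (nat_lit 0x1fc00c) (nat_lit 0) (p (nat_lit 0x1fc004) (nat_lit 0) (p (nat_lit 0xb0014) (nat_lit 1) (p (nat_lit 0x380c2) (nat_lit 1) (p (nat_lit 0x3c4aa) (nat_lit 7) (p (nat_lit 0x109) (nat_lit 1) (p (nat_lit 0x89) (nat_lit 1) (p (nat_lit 0xc9) (nat_lit 1) (p (nat_lit 0xc1) (nat_lit 0) (p (nat_lit 0x119) (nat_lit 1) (p (nat_lit 0xd1) (nat_lit 0) (p (nat_lit 0x81) (nat_lit 0) (p (nat_lit 0x41) (nat_lit 1) (p (nat_lit 0x8a898a08881a) (nat_lit 0) (p (nat_lit 0xa090988079a) (nat_lit 0) (p (nat_lit 0x88088907871a) (nat_lit 0) (p (nat_lit 0x7880887069a) (nat_lit 0) (p (nat_lit 0x80000800088806860a) (nat_lit 0) (p (nat_lit 0x80000800068786058a) (nat_lit 0) (p (nat_lit 0x8687058502) (nat_lit 0) (p (nat_lit 0x606850482) (nat_lit 0) (p (nat_lit 0x160014) (nat_lit 0) (p (nat_lit 0x68612) (nat_lit 0) (p (nat_lit 0x50592) (nat_lit 0) (p (nat_lit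 0x40512) (nat_lit 0) (p (nat_lit 0x50312) (nat_lit 0) (p (nat_lit 0x38292) (nat_lit 0) (p (nat_lit 0x28212) (nat_lit 0) (p (nat_lit 0x38112) (nat_lit 0) (p (nat_lit 0x20092) (nat_lit 0) (p (nat_lit 0x10012) (nat_lit 0) pn)))))))))))))))))))))))))))))))) :=
  Cl.node (nat_lit 0x10000c) (nat_lit 2) (by decide +kernel) (ClAll.succ (ClAll.succ ClAll.zero n98) s740)

def n134 : Cl (O (nat_lit 3)) (R (nat_lit 143633))
    (p (nat_lit 0x100004) (nat_lit 0) (p (nat_lit 0x1fc00c) (nat_lit 0) (p (nat_lit 0xb0014) (nat_lit 1) (p (nat_lit 0x200004) (nat_lit 0) (p (nat_lit 0x380c2) (nat_lit 1) (p (nat_lit 0x3c4aa) (nat_lit 10) (p (nat_lit 0x109) (nat_lit 1) (p (nat_lit 0x89) (nat_lit 1) (p (nat_lit 0xc9) (nat_lit 1) (p (nat_lit 0xc1) (nat_lit 0) (p (nat_lit 0x119) (nat_lit 1) (p (nat_lit 0xd1) (nat_lit 0) (p (nat_lit 0x81) (nat_lit 0) (p (nat_lit 0x41) (nat_lit 1) (p (nat_lit 0x8a898a08881a)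 (nat_lit 0) (p (nat_lit 0xa090988079a) (nat_lit 0) (p (nat_lit 0x88088907871a) (nat_lit 0) (p (nat_lit 0x7880887069a) (nat_lit 0) (p (nat_lit 0x80000800088806860a) (nat_lit 0) (p (nat_lit 0x80000800068786058a) (nat_lit 0) (p (nat_lit 0x8687058502) (nat_lit 0) (p (nat_lit 0x606850482) (nat_lit 0) (p (nat_lit 0x160014) (nat_lit 0) (p (nat_lit 0x68612) (nat_lit 0) (p (nat_lit 0x50592) (nat_lit 0) (p (nat_lit 0x40512) (nat_lit 0) (p (nat_lit 0x50312) (nat_lit 0) (p (nat_lit 0x38292) (nat_lit 0) (p (nat_lit 0x28212) (nat_lit 0) (p (nat_lit 0x38112) (nat_lit 0) (p (nat_lit 0x20092) (nat_lit 0) (p (nat_lit 0x10012) (nat_lit 0) pn)))))))))))))))))))))))))))))))) :=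
  Cl.node (nat_lit 0x108014) (nat_lit 2) (by decide +kernel) (ClAll.succ (ClAll.succ ClAll.zero n99) s752)

def n135 : Cl (O (nat_lit 3)) (R (nat_lit 143633))
    (p (nat_lit 0x8000c) (nat_lit 0) (p (nat_lit 0x10000c) (nat_lit 0) (p (nat_lit 0x200004) (nat_lit 0) (p (nat_lit 0x20000c) (nat_lit 0) (p (nat_lit 0x380c2) (nat_lit 0) (p (nat_lit 0x3c4aa) (nat_lit 7) (p (nat_lit 0x109) (nat_lit 1) (p (nat_lit 0x89) (nat_lit 1) (p (nat_lit 0x101) (nat_lit 0) (p (nat_lit 0xc1) (nat_lit 1) (p (nat_lit 0x119) (nat_lit 1) (p (nat_lit 0xd1) (nat_lit 0) (p (nat_lit 0x81) (nat_lit 0) (p (nat_lit 0x41) (nat_lit 1) (p (nat_lit 0x8a898a08881a) (nat_lit 0) (p (nat_lit 0xa090988079a) (nat_lit 0) (p (nat_lit 0x88088907871a) (nat_lit 0) (p (nat_lit 0x7880887069a) (nat_lit 0) (p (nat_lit 0x80000800088806860a) (nat_lit 0) (p (nat_lit 0x80000800068786058a) (nat_lit 0) (p (nat_lit 0x8687058502) (nat_lit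 0) (p (nat_lit 0x606850482) (nat_lit 0) (p (nat_lit 0x160014) (nat_lit 0) (p (nat_lit 0x68612) (nat_lit 0) (p (nat_lit 0x50592) (nat_lit 0) (p (nat_lit 0x40512) (nat_lit 0) (p (nat_lit 0x50312) (nat_lit 0) (p (nat_lit 0x38292) (nat_lit 0) (p (nat_lit 0x28212) (nat_lit 0) (p (nat_lit 0x38112) (nat_lit 0) (p (nat_lit 0x20092) (nat_lit 0) (p (nat_lit 0x10012) (nat_lit 0) pn)))))))))))))))))))))))))))))))) :=
  Cl.node (nat_lit 0x109) (nat_lit 2) (by decide +kernel) (ClAll.succ (ClAll.succ ClAll.zero s778) s779)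

def n136 : Cl (O (nat_lit 3)) (R (nat_lit 143633))
    (p (nat_lit 0x8000c) (nat_lit 1) (p (nat_lit 0x10000c) (nat_lit 0) (p (nat_lit 0x200004) (nat_lit 0) (p (nat_lit 0x20000c) (nat_lit 0) (p (nat_lit 0x380c2) (nat_lit 0) (p (nat_lit 0x3c4aa) (nat_lit 7) (p (nat_lit 0x109) (nat_lit 1) (p (nat_lit 0x89) (nat_lit 1) (p (nat_lit 0x101) (nat_lit 0) (p (nat_lit 0xc1) (nat_lit 1) (p (nat_lit 0x119) (nat_lit 1) (p (nat_lit 0xd1) (nat_lit 0) (p (nat_lit 0x81) (nat_lit 0) (p (nat_lit 0x41) (nat_lit 1) (p (nat_lit 0x8a898a08881a) (nat_lit 0) (p (nat_lit 0xa090988079a) (nat_lit 0) (p (nat_lit 0x88088907871a) (nat_lit 0) (p (nat_lit 0x7880887069a) (nat_lit 0) (p (nat_lit 0x80000800088806860a) (nat_lit 0) (p (nat_lit 0x80000800068786058a) (nat_lit 0) (p (nat_lit 0x8687058502) (nat_lit 0) (p (nat_lit 0x606850482) (nat_lit 0) (p (nat_lit 0x160014) (nat_lit 0) (p (nat_lit 0x68612) (nat_lit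 0) (p (nat_lit 0x50592) (nat_lit 0) (p (nat_lit 0x40512) (nat_lit 0) (p (nat_lit 0x50312) (nat_lit 0) (p (nat_lit 0x38292) (nat_lit 0) (p (nat_lit 0x28212) (nat_lit 0) (p (nat_lit 0x38112) (nat_lit 0) (p (nat_lit 0x20092) (nat_lit 0) (p (nat_lit 0x10012) (nat_lit 0) pn)))))))))))))))))))))))))))))))) :=
  Cl.node (nat_lit 0x134014) (nat_lit 2) (by decide +kernel) (ClAll.succ (ClAll.succ ClAll.zero n100) s783)

def n137 : Cl (O (nat_lit 3)) (R (nat_lit 143633))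
    (p (nat_lit 0x8000c) (nat_lit 0) (p (nat_lit 0x10000c) (nat_lit 0) (p (nat_lit 0x20000c) (nat_lit 0) (p (nat_lit 0x200004) (nat_lit 0) (p (nat_lit 0x380c2) (nat_lit 1) (p (nat_lit 0x3c4aa) (nat_lit 7) (p (nat_lit 0x109) (nat_lit 1) (p (nat_lit 0x89) (nat_lit 1) (p (nat_lit 0x101) (nat_lit 0) (p (nat_lit 0xc1) (nat_lit 1) (p (nat_lit 0x119) (nat_lit 1) (p (nat_lit 0xd1) (nat_lit 0) (p (nat_lit 0x81) (nat_lit 0) (p (nat_lit 0x41) (nat_lit 1) (p (nat_lit 0x8a898a08881a) (nat_lit 0) (p (nat_lit 0xa090988079a) (nat_lit 0) (p (nat_lit 0x88088907871a) (nat_lit 0) (p (nat_lit 0x7880887069a) (nat_lit 0) (p (nat_lit 0x80000800088806860a) (nat_lit 0) (p (nat_lit 0x80000800068786058a) (nat_lit 0) (p (nat_lit 0x8687058502) (nat_lit 0) (p (nat_lit 0x606850482) (nat_lit 0) (p (nat_lit 0x160014) (nat_lit 0) (p (nat_lit 0x68612) (nat_lit 0) (p (nat_lit 0x50592) (nat_lit 0) (p (nat_lit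 0x40512) (nat_lit 0) (p (nat_lit 0x50312) (nat_lit 0) (p (nat_lit 0x38292) (nat_lit 0) (p (nat_lit 0x28212) (nat_lit 0) (p (nat_lit 0x38112) (nat_lit 0) (p (nat_lit 0x20092) (nat_lit 0) (p (nat_lit 0x10012) (nat_lit 0) pn)))))))))))))))))))))))))))))))) :=
  Cl.node (nat_lit 0x109) (nat_lit 2) (by decide +kernel) (ClAll.succ (ClAll.succ ClAll.zero n101) n102)

def n138 : Cl (O (nat_lit 3)) (R (nat_lit 143633))
    (p (nat_lit 0x8000c) (nat_lit 1) (p (nat_lit 0x10000c) (nat_lit 0) (p (nat_lit 0x20000c) (nat_lit 0) (p (nat_lit 0x200004) (nat_lit 0) (p (nat_lit 0x380c2) (nat_lit 1) (p (nat_lit 0x3c4aa) (nat_lit 7) (p (nat_lit 0x109) (nat_lit 1) (p (nat_lit 0x89) (nat_lit 1) (p (nat_lit 0x101) (nat_lit 0) (p (nat_lit 0xc1) (nat_lit 1) (p (nat_lit 0x119) (nat_lit 1) (p (nat_lit 0xd1) (nat_lit 0) (p (nat_lit 0x81) (nat_lit 0) (p (nat_lit 0x41) (nat_lit 1) (p (nat_lit 0x8a898a08881a)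 (nat_lit 0) (p (nat_lit 0xa090988079a) (nat_lit 0) (p (nat_lit 0x88088907871a) (nat_lit 0) (p (nat_lit 0x7880887069a) (nat_lit 0) (p (nat_lit 0x80000800088806860a) (nat_lit 0) (p (nat_lit 0x80000800068786058a) (nat_lit 0) (p (nat_lit 0x8687058502) (nat_lit 0) (p (nat_lit 0x606850482) (nat_lit 0) (p (nat_lit 0x160014) (nat_lit 0) (p (nat_lit 0x68612) (nat_lit 0) (p (nat_lit 0x50592) (nat_lit 0) (p (nat_lit 0x40512) (nat_lit 0) (p (nat_lit 0x50312) (nat_lit 0) (p (nat_lit 0x38292) (nat_lit 0) (p (nat_lit 0x28212) (nat_lit 0) (p (nat_lit 0x38112) (nat_lit 0) (p (nat_lit 0x20092) (nat_lit 0) (p (nat_lit 0x10012) (nat_lit 0) pn)))))))))))))))))))))))))))))))) :=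
  Cl.node (nat_lit 0x134014) (nat_lit 2) (by decide +kernel) (ClAll.succ (ClAll.succ ClAll.zero n103) s808)

def n139 : Cl (O (nat_lit 3)) (R (nat_lit 143633))
    (p (nat_lit 0x119) (nat_lit 1) (p (nat_lit 0x100004) (nat_lit 0) (p (nat_lit 0x200004) (nat_lit 0) (p (nat_lit 0xb0014) (nat_lit 0) (p (nat_lit 0x380c2) (nat_lit 0) (p (nat_lit 0x3c4aa) (nat_lit 10) (p (nat_lit 0x109) (nat_lit 1) (p (nat_lit 0x89) (nat_lit 1) (p (nat_lit 0x101) (nat_lit 0) (p (nat_lit 0xc1) (nat_lit 1) (p (nat_lit 0x119) (nat_lit 1) (p (nat_lit 0xd1) (nat_lit 0) (p (nat_lit 0x81) (nat_lit 0) (p (nat_lit 0x41) (nat_lit 1) (p (nat_lit 0x8a898a08881a) (nat_lit 0) (p (nat_lit 0xa090988079a) (nat_lit 0) (p (nat_lit 0x88088907871a) (nat_lit 0) (p (nat_lit 0x7880887069a) (nat_lit 0) (p (nat_lit 0x80000800088806860a) (nat_lit 0) (p (nat_lit 0x80000800068786058a) (nat_lit 0) (p (nat_lit 0x8687058502) (nat_lit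 0) (p (nat_lit 0x606850482) (nat_lit 0) (p (nat_lit 0x160014) (nat_lit 0) (p (nat_lit 0x68612) (nat_lit 0) (p (nat_lit 0x50592) (nat_lit 0) (p (nat_lit 0x40512) (nat_lit 0) (p (nat_lit 0x50312) (nat_lit 0) (p (nat_lit 0x38292) (nat_lit 0) (p (nat_lit 0x28212) (nat_lit 0) (p (nat_lit 0x38112) (nat_lit 0) (p (nat_lit 0x20092) (nat_lit 0) (p (nat_lit 0x10012) (nat_lit 0) pn)))))))))))))))))))))))))))))))) :=
  Cl.node (nat_lit 0x4c42a) (nat_lit 12) (by decide +kernel) (ClAll.succ (ClAll.succ (ClAll.succ (ClAll.succ (ClAll.succ (ClAll.succ (ClAll.succ (ClAll.succ (ClAll.succ (ClAll.succ (ClAll.succ (ClAll.succ ClAll.zero s815) s816) s817) s818) s819) s820) s821) s822) s823) s824) s825) s826)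

def n140 : Cl (O (nat_lit 3)) (R (nat_lit 143633))
    (p (nat_lit 0x100004) (nat_lit 0) (p (nat_lit 0x10000c) (nat_lit 0) (p (nat_lit 0x20000c) (nat_lit 0) (p (nat_lit 0x200004) (nat_lit 0) (p (nat_lit 0x380c2) (nat_lit 0) (p (nat_lit 0x3c4aa) (nat_lit 7) (p (nat_lit 0xd1) (nat_lit 1) (p (nat_lit 0x111) (nat_lit 1) (p (nat_lit 0x109) (nat_lit 0) (p (nat_lit 0x101) (nat_lit 0) (p (nat_lit 0x119) (nat_lit 0) (p (nat_lit 0xc1) (nat_lit 0) (p (nat_lit 0x81) (nat_lit 1) (p (nat_lit 0x41) (nat_lit 1) (p (nat_lit 0x8a898a08881a) (nat_lit 0) (p (nat_lit 0xa090988079a) (nat_lit 0) (p (nat_lit 0x88088907871a) (nat_lit 0) (p (nat_lit 0x7880887069a) (nat_lit 0) (p (nat_lit 0x80000800088806860a) (nat_lit 0) (p (nat_lit 0x80000800068786058a) (nat_lit 0) (p (nat_lit 0x8687058502) (nat_lit 0) (p (nat_lit 0x606850482) (nat_lit 0) (p (nat_lit 0x160014) (nat_lit 0) (p (nat_lit 0x68612) (nat_lit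 0) (p (nat_lit 0x50592) (nat_lit 0) (p (nat_lit 0x40512) (nat_lit 0) (p (nat_lit 0x50312) (nat_lit 0) (p (nat_lit 0x38292) (nat_lit 0) (p (nat_lit 0x28212) (nat_lit 0) (p (nat_lit 0x38112) (nat_lit 0) (p (nat_lit 0x20092) (nat_lit 0) (p (nat_lit 0x10012) (nat_lit 0) pn)))))))))))))))))))))))))))))))) :=
  Cl.node (nat_lit 0xc9) (nat_lit 2) (by decide +kernel) (ClAll.succ (ClAll.succ ClAll.zero s943) n104)

def n141 : Cl (O (nat_lit 3)) (R (nat_lit 143633))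
    (p (nat_lit 0x108014) (nat_lit 0) (p (nat_lit 0x10000c) (nat_lit 1) (p (nat_lit 0x20000c) (nat_lit 0) (p (nat_lit 0x200004) (nat_lit 0) (p (nat_lit 0x380c2) (nat_lit 0) (p (nat_lit 0x3c4aa) (nat_lit 7) (p (nat_lit 0xd1) (nat_lit 1) (p (nat_lit 0x111) (nat_lit 1) (p (nat_lit 0x109) (nat_lit 0) (p (nat_lit 0x101) (nat_lit 0) (p (nat_lit 0x119) (nat_lit 0) (p (nat_lit 0xc1) (nat_lit 0) (p (nat_lit 0x81) (nat_lit 1) (p (nat_lit 0x41) (nat_lit 1) (p (nat_lit 0x8a898a08881a) (nat_lit 0) (p (nat_lit 0xa090988079a) (nat_lit 0) (p (nat_lit 0x88088907871a) (nat_lit 0) (p (nat_lit 0x7880887069a) (nat_lit 0) (p (nat_lit 0x80000800088806860a) (nat_lit 0) (p (nat_lit 0x80000800068786058a) (nat_lit 0) (p (nat_lit 0x8687058502) (nat_lit 0) (p (nat_lit 0x606850482) (nat_lit 0) (p (nat_lit 0x160014) (nat_lit 0) (p (nat_lit 0x68612) (nat_lit 0) (p (nat_lit 0x50592) (nat_lit 0) (p (nat_lit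 0x40512) (nat_lit 0) (p (nat_lit 0x50312) (nat_lit 0) (p (nat_lit 0x38292) (nat_lit 0) (p (nat_lit 0x28212) (nat_lit 0) (p (nat_lit 0x38112) (nat_lit 0) (p (nat_lit 0x20092) (nat_lit 0) (p (nat_lit 0x10012) (nat_lit 0) pn)))))))))))))))))))))))))))))))) :=
  Cl.node (nat_lit 0x84014) (nat_lit 2) (by decide +kernel) (ClAll.succ (ClAll.succ ClAll.zero s948) s949)

def n142 : Cl (O (nat_lit 3)) (R (nat_lit 143633))
    (p (nat_lit 0xc9) (nat_lit 0) (p (nat_lit 0x10000c) (nat_lit 0) (p (nat_lit 0x20000c) (nat_lit 0) (p (nat_lit 0x200004) (nat_lit 0) (p (nat_lit 0x380c2) (nat_lit 1) (p (nat_lit 0x3c4aa) (nat_lit 7) (p (nat_lit 0xd1) (nat_lit 1) (p (nat_lit 0x111) (nat_lit 1) (p (nat_lit 0x109) (nat_lit 0) (p (nat_lit 0x101) (nat_lit 0) (p (nat_lit 0x119) (nat_lit 0) (p (nat_lit 0xc1) (nat_lit 0) (p (nat_lit 0x81) (nat_lit 1) (p (nat_lit 0x41) (nat_lit 1) (p (nat_lit 0x8a898a08881a)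 (nat_lit 0) (p (nat_lit 0xa090988079a) (nat_lit 0) (p (nat_lit 0x88088907871a) (nat_lit 0) (p (nat_lit 0x7880887069a) (nat_lit 0) (p (nat_lit 0x80000800088806860a) (nat_lit 0) (p (nat_lit 0x80000800068786058a) (nat_lit 0) (p (nat_lit 0x8687058502) (nat_lit 0) (p (nat_lit 0x606850482) (nat_lit 0) (p (nat_lit 0x160014) (nat_lit 0) (p (nat_lit 0x68612) (nat_lit 0) (p (nat_lit 0x50592) (nat_lit 0) (p (nat_lit 0x40512) (nat_lit 0) (p (nat_lit 0x50312) (nat_lit 0) (p (nat_lit 0x38292) (nat_lit 0) (p (nat_lit 0x28212) (nat_lit 0) (p (nat_lit 0x38112) (nat_lit 0) (p (nat_lit 0x20092) (nat_lit 0) (p (nat_lit 0x10012) (nat_lit 0) pn)))))))))))))))))))))))))))))))) :=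
  Cl.node (nat_lit 0x3cc2a) (nat_lit 12) (by decide +kernel) (ClAll.succ (ClAll.succ (ClAll.succ (ClAll.succ (ClAll.succ (ClAll.succ (ClAll.succ (ClAll.succ (ClAll.succ (ClAll.succ (ClAll.succ (ClAll.succ ClAll.zero n105) s956) s957) s958) s959) s960) s961) s962) s963) s964) s965) s966)

def n143 : Cl (O (nat_lit 3)) (R (nat_lit 143633))
    (p (nat_lit 0xc9) (nat_lit 1) (p (nat_lit 0x10000c) (nat_lit 0) (p (nat_lit 0x20000c) (nat_lit 0) (p (nat_lit 0x200004) (nat_lit 0) (p (nat_lit 0x380c2) (nat_lit 1) (p (nat_lit 0x3c4aa) (nat_lit 7) (p (nat_lit 0xd1) (nat_lit 1) (p (nat_lit 0x111) (nat_lit 1) (p (nat_lit 0x109) (nat_lit 0) (p (nat_lit 0x101) (nat_lit 0) (p (nat_lit 0x119) (nat_lit 0) (p (nat_lit 0xc1) (nat_lit 0) (p (nat_lit 0x81) (nat_lit 1) (p (nat_lit 0x41) (nat_lit 1) (p (nat_lit 0x8a898a08881a) (nat_lit 0) (p (nat_lit 0xa090988079a) (nat_lit 0) (p (nat_lit 0x88088907871a)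 (nat_lit 0) (p (nat_lit 0x7880887069a) (nat_lit 0) (p (nat_lit 0x80000800088806860a) (nat_lit 0) (p (nat_lit 0x80000800068786058a) (nat_lit 0) (p (nat_lit 0x8687058502) (nat_lit 0) (p (nat_lit 0x606850482) (nat_lit 0) (p (nat_lit 0x160014) (nat_lit 0) (p (nat_lit 0x68612) (nat_lit 0) (p (nat_lit 0x50592) (nat_lit 0) (p (nat_lit 0x40512) (nat_lit 0) (p (nat_lit 0x50312) (nat_lit 0) (p (nat_lit 0x38292) (nat_lit 0) (p (nat_lit 0x28212) (nat_lit 0) (p (nat_lit 0x38112) (nat_lit 0) (p (nat_lit 0x20092) (nat_lit 0) (p (nat_lit 0x10012) (nat_lit 0) pn)))))))))))))))))))))))))))))))) :=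
  Cl.node (nat_lit 0x100004) (nat_lit 2) (by decide +kernel) (ClAll.succ (ClAll.succ ClAll.zero n106) s972)

def n144 : Cl (O (nat_lit 3)) (R (nat_lit 143633))
    (p (nat_lit 0x108014) (nat_lit 0) (p (nat_lit 0x10000c) (nat_lit 1) (p (nat_lit 0x20000c) (nat_lit 0) (p (nat_lit 0x200004) (nat_lit 0) (p (nat_lit 0x380c2) (nat_lit 1) (p (nat_lit 0x3c4aa) (nat_lit 7) (p (nat_lit 0xd1) (nat_lit 1) (p (nat_lit 0x111) (nat_lit 1) (p (nat_lit 0x109) (nat_lit 0) (p (nat_lit 0x101) (nat_lit 0) (p (nat_lit 0x119) (nat_lit 0) (p (nat_lit 0xc1) (nat_lit 0) (p (nat_lit 0x81) (nat_lit 1) (p (nat_lit 0x41) (nat_lit 1) (p (nat_lit 0x8a898a08881a) (nat_lit 0) (p (nat_lit 0xa090988079a) (nat_lit 0) (p (nat_lit 0x88088907871a) (nat_lit 0) (p (nat_lit 0x7880887069a) (nat_lit 0) (p (nat_lit 0x80000800088806860a) (nat_lit 0) (p (nat_lit 0x80000800068786058a) (nat_lit 0) (p (nat_lit 0x8687058502)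 (nat_lit 0) (p (nat_lit 0x606850482) (nat_lit 0) (p (nat_lit 0x160014) (nat_lit 0) (p (nat_lit 0x68612) (nat_lit 0) (p (nat_lit 0x50592) (nat_lit 0) (p (nat_lit 0x40512) (nat_lit 0) (p (nat_lit 0x50312) (nat_lit 0) (p (nat_lit 0x38292) (nat_lit 0) (p (nat_lit 0x28212) (nat_lit 0) (p (nat_lit 0x38112) (nat_lit 0) (p (nat_lit 0x20092) (nat_lit 0) (p (nat_lit 0x10012) (nat_lit 0) pn)))))))))))))))))))))))))))))))) :=
  Cl.node (nat_lit 0x84014) (nat_lit 2) (by decide +kernel) (ClAll.succ (ClAll.succ ClAll.zero n107) s976)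

def n145 : Cl (O (nat_lit 3)) (R (nat_lit 143633))
    (p (nat_lit 0x119) (nat_lit 1) (p (nat_lit 0x10000c) (nat_lit 0) (p (nat_lit 0x20000c) (nat_lit 0) (p (nat_lit 0x200004) (nat_lit 0) (p (nat_lit 0x380c2) (nat_lit 1) (p (nat_lit 0x3c4aa) (nat_lit 7) (p (nat_lit 0xd1) (nat_lit 1) (p (nat_lit 0xc9) (nat_lit 0) (p (nat_lit 0x109) (nat_lit 1) (p (nat_lit 0x101) (nat_lit 0) (p (nat_lit 0x119) (nat_lit 0) (p (nat_lit 0xc1) (nat_lit 0) (p (nat_lit 0x81) (nat_lit 1) (p (nat_lit 0x41) (nat_lit 1) (p (nat_lit 0x8a898a08881a) (nat_lit 0) (p (nat_lit 0xa090988079a) (nat_lit 0) (p (nat_lit 0x88088907871a) (nat_lit 0) (p (nat_lit 0x7880887069a) (nat_lit 0) (p (nat_lit 0x80000800088806860a) (nat_lit 0) (p (nat_lit 0x80000800068786058a) (nat_lit 0) (p (nat_lit 0x8687058502) (nat_lit 0) (p (nat_lit 0x606850482) (nat_lit 0) (p (nat_lit 0x160014) (nat_lit 0) (p (nat_lit 0x68612) (nat_lit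 0) (p (nat_lit 0x50592) (nat_lit 0) (p (nat_lit 0x40512) (nat_lit 0) (p (nat_lit 0x50312) (nat_lit 0) (p (nat_lit 0x38292) (nat_lit 0) (p (nat_lit 0x28212) (nat_lit 0) (p (nat_lit 0x38112) (nat_lit 0) (p (nat_lit 0x20092) (nat_lit 0) (p (nat_lit 0x10012) (nat_lit 0) pn)))))))))))))))))))))))))))))))) :=
  Cl.node (nat_lit 0xc1) (nat_lit 2) (by decide +kernel) (ClAll.succ (ClAll.succ ClAll.zero n108) s1000)

def n146 : Cl (O (nat_lit 3)) (R (nat_lit 143633))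
    (p (nat_lit 0xc1) (nat_lit 0) (p (nat_lit 0x100004) (nat_lit 0) (p (nat_lit 0x10000c) (nat_lit 0) (p (nat_lit 0x200004) (nat_lit 0) (p (nat_lit 0x20000c) (nat_lit 0) (p (nat_lit 0x380c2) (nat_lit 0) (p (nat_lit 0x3c4aa) (nat_lit 7) (p (nat_lit 0xd1) (nat_lit 1) (p (nat_lit 0xc9) (nat_lit 0) (p (nat_lit 0x101) (nat_lit 1) (p (nat_lit 0x119) (nat_lit 0) (p (nat_lit 0xc1) (nat_lit 0) (p (nat_lit 0x81) (nat_lit 1) (p (nat_lit 0x41) (nat_lit 1) (p (nat_lit 0x8a898a08881a) (nat_lit 0) (p (nat_lit 0xa090988079a) (nat_lit 0) (p (nat_lit 0x88088907871a) (nat_lit 0) (p (nat_lit 0x7880887069a) (nat_lit 0) (p (nat_lit 0x80000800088806860a) (nat_lit 0) (p (nat_lit 0x80000800068786058a) (nat_lit 0) (p (nat_lit 0x8687058502) (nat_lit 0) (p (nat_lit 0x606850482) (nat_lit 0) (p (nat_lit 0x160014) (nat_lit 0) (p (nat_lit 0x68612) (nat_lit 0) (p (nat_lit 0x50592) (nat_lit 0) (p (nat_lit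 0x40512) (nat_lit 0) (p (nat_lit 0x50312) (nat_lit 0) (p (nat_lit 0x38292) (nat_lit 0) (p (nat_lit 0x28212) (nat_lit 0) (p (nat_lit 0x38112) (nat_lit 0) (p (nat_lit 0x20092) (nat_lit 0) (p (nat_lit 0x10012) (nat_lit 0) pn)))))))))))))))))))))))))))))))) :=
  Cl.node (nat_lit 0x3cc2a) (nat_lit 12) (by decide +kernel) (ClAll.succ (ClAll.succ (ClAll.succ (ClAll.succ (ClAll.succ (ClAll.succ (ClAll.succ (ClAll.succ (ClAll.succ (ClAll.succ (ClAll.succ (ClAll.succ ClAll.zero s1029) s1030) s1031) s1032) s1033) s1034) s1035) s1036) s1037) s1038) s1039) s1040)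

def n147 : Cl (O (nat_lit 3)) (R (nat_lit 143633))
    (p (nat_lit 0xc1) (nat_lit 0) (p (nat_lit 0x100004) (nat_lit 0) (p (nat_lit 0x10000c) (nat_lit 0) (p (nat_lit 0x20000c) (nat_lit 0) (p (nat_lit 0x200004) (nat_lit 0) (p (nat_lit 0x380c2) (nat_lit 1) (p (nat_lit 0x3c4aa) (nat_lit 7) (p (nat_lit 0xd1) (nat_lit 1) (p (nat_lit 0xc9) (nat_lit 0) (p (nat_lit 0x101) (nat_lit 1) (p (nat_lit 0x119) (nat_lit 0) (p (nat_lit 0xc1) (nat_lit 0) (p (nat_lit 0x81) (nat_lit 1) (p (nat_lit 0x41) (nat_lit 1) (p (nat_lit 0x8a898a08881a) (nat_lit 0) (p (nat_lit 0xa090988079a) (nat_lit 0) (p (nat_lit 0x88088907871a) (nat_lit 0) (p (nat_lit 0x7880887069a) (nat_lit 0) (p (nat_lit 0x80000800088806860a) (nat_lit 0) (p (nat_lit 0x80000800068786058a) (nat_lit 0) (p (nat_lit 0x8687058502) (nat_lit 0) (p (nat_lit 0x606850482) (nat_lit 0) (p (nat_lit 0x160014) (nat_lit 0) (p (nat_lit 0x68612) (nat_lit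 0) (p (nat_lit 0x50592) (nat_lit 0) (p (nat_lit 0x40512) (nat_lit 0) (p (nat_lit 0x50312) (nat_lit 0) (p (nat_lit 0x38292) (nat_lit 0) (p (nat_lit 0x28212) (nat_lit 0) (p (nat_lit 0x38112) (nat_lit 0) (p (nat_lit 0x20092) (nat_lit 0) (p (nat_lit 0x10012) (nat_lit 0) pn)))))))))))))))))))))))))))))))) :=
  Cl.node (nat_lit 0x3cc2a) (nat_lit 12) (by decide +kernel) (ClAll.succ (ClAll.succ (ClAll.succ (ClAll.succ (ClAll.succ (ClAll.succ (ClAll.succ (ClAll.succ (ClAll.succ (ClAll.succ (ClAll.succ (ClAll.succ ClAll.zero s1046) s1047) s1048) s1049) s1050) s1051) s1052) s1053) s1054) s1055) s1056) s1057)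

def n148 : Cl (O (nat_lit 3)) (R (nat_lit 143633))
    (p (nat_lit 0x20000c) (nat_lit 0) (p (nat_lit 0x101) (nat_lit 0) (p (nat_lit 0x100004) (nat_lit 0) (p (nat_lit 0x200004) (nat_lit 0) (p (nat_lit 0xb0014) (nat_lit 0) (p (nat_lit 0x380c2) (nat_lit 1) (p (nat_lit 0x3c4aa) (nat_lit 7) (p (nat_lit 0x111) (nat_lit 1) (p (nat_lit 0xd1) (nat_lit 1) (p (nat_lit 0xc9) (nat_lit 0) (p (nat_lit 0x119) (nat_lit 1) (p (nat_lit 0xc1) (nat_lit 0) (p (nat_lit 0x81) (nat_lit 1) (p (nat_lit 0x41) (nat_lit 1) (p (nat_lit 0x8a898a08881a) (nat_lit 0) (p (nat_lit 0xa090988079a) (nat_lit 0) (p (nat_lit 0x88088907871a) (nat_lit 0) (p (nat_lit 0x7880887069a) (nat_lit 0) (p (nat_lit 0x80000800088806860a) (nat_lit 0) (p (nat_lit 0x80000800068786058a) (nat_lit 0) (p (nat_lit 0x8687058502) (nat_lit 0) (p (nat_lit 0x606850482) (nat_lit 0) (p (nat_lit 0x160014) (nat_lit 0) (p (nat_lit 0x68612) (nat_lit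 0) (p (nat_lit 0x50592) (nat_lit 0) (p (nat_lit 0x40512) (nat_lit 0) (p (nat_lit 0x50312) (nat_lit 0) (p (nat_lit 0x38292) (nat_lit 0) (p (nat_lit 0x28212) (nat_lit 0) (p (nat_lit 0x38112) (nat_lit 0) (p (nat_lit 0x20092) (nat_lit 0) (p (nat_lit 0x10012) (nat_lit 0) pn)))))))))))))))))))))))))))))))) :=
  Cl.node (nat_lit 0x10000c) (nat_lit 2) (by decide +kernel) (ClAll.succ (ClAll.succ ClAll.zero s1083) s1084)

def n149 : Cl (O (nat_lit 3)) (R (nat_lit 143633))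
    (p (nat_lit 0x10000c) (nat_lit 0) (p (nat_lit 0x100004) (nat_lit 0) (p (nat_lit 0x1fc00c) (nat_lit 0) (p (nat_lit 0x1fc004) (nat_lit 0) (p (nat_lit 0xb0014) (nat_lit 1) (p (nat_lit 0x380c2) (nat_lit 1) (p (nat_lit 0x3c4aa) (nat_lit 7) (p (nat_lit 0x111) (nat_lit 1) (p (nat_lit 0xd1) (nat_lit 1) (p (nat_lit 0xc9) (nat_lit 0) (p (nat_lit 0x119) (nat_lit 1) (p (nat_lit 0xc1) (nat_lit 0) (p (nat_lit 0x81) (nat_lit 1) (p (nat_lit 0x41) (nat_lit 1) (p (nat_lit 0x8a898a08881a) (nat_lit 0) (p (nat_lit 0xa090988079a) (nat_lit 0) (p (nat_lit 0x88088907871a) (nat_lit 0) (p (nat_lit 0x7880887069a) (nat_lit 0) (p (nat_lit 0x80000800088806860a) (nat_lit 0) (p (nat_lit 0x80000800068786058a) (nat_lit 0) (p (nat_lit 0x8687058502) (nat_lit 0) (p (nat_lit 0x606850482) (nat_lit 0) (p (nat_lit 0x160014) (nat_lit 0) (p (nat_lit 0x68612) (nat_lit 0) (p (nat_lit 0x50592) (nat_lit 0) (p (nat_lit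 0x40512) (nat_lit 0) (p (nat_lit 0x50312) (nat_lit 0) (p (nat_lit 0x38292) (nat_lit 0) (p (nat_lit 0x28212) (nat_lit 0) (p (nat_lit 0x38112) (nat_lit 0) (p (nat_lit 0x20092) (nat_lit 0) (p (nat_lit 0x10012) (nat_lit 0) pn)))))))))))))))))))))))))))))))) :=
  Cl.node (nat_lit 0x80004) (nat_lit 2) (by decide +kernel) (ClAll.succ (ClAll.succ ClAll.zero s1089) s1090)

def n150 : Cl (O (nat_lit 3)) (R (nat_lit 143633))
    (p (nat_lit 0x101) (nat_lit 0) (p (nat_lit 0x10000c) (nat_lit 0) (p (nat_lit 0x100004) (nat_lit 0) (p (nat_lit 0x200004) (nat_lit 0) (p (nat_lit 0x20000c) (nat_lit 0) (p (nat_lit 0x380c2) (nat_lit 0) (p (nat_lit 0x3c4aa) (nat_lit 7) (p (nat_lit 0x111) (nat_lit 1) (p (nat_lit 0x109) (nat_lit 0) (p (nat_lit 0xc9) (nat_lit 1) (p (nat_lit 0x119) (nat_lit 1) (p (nat_lit 0xc1) (nat_lit 0) (p (nat_lit 0x81) (nat_lit 1) (p (nat_lit 0x41) (nat_lit 1) (p (nat_lit 0x8a898a08881a)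 (nat_lit 0) (p (nat_lit 0xa090988079a) (nat_lit 0) (p (nat_lit 0x88088907871a) (nat_lit 0) (p (nat_lit 0x7880887069a) (nat_lit 0) (p (nat_lit 0x80000800088806860a) (nat_lit 0) (p (nat_lit 0x80000800068786058a) (nat_lit 0) (p (nat_lit 0x8687058502) (nat_lit 0) (p (nat_lit 0x606850482) (nat_lit 0) (p (nat_lit 0x160014) (nat_lit 0) (p (nat_lit 0x68612) (nat_lit 0) (p (nat_lit 0x50592) (nat_lit 0) (p (nat_lit 0x40512) (nat_lit 0) (p (nat_lit 0x50312) (nat_lit 0) (p (nat_lit 0x38292) (nat_lit 0) (p (nat_lit 0x28212) (nat_lit 0) (p (nat_lit 0x38112) (nat_lit 0) (p (nat_lit 0x20092) (nat_lit 0) (p (nat_lit 0x10012) (nat_lit 0) pn)))))))))))))))))))))))))))))))) :=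
  Cl.node (nat_lit 0x119) (nat_lit 2) (by decide +kernel) (ClAll.succ (ClAll.succ ClAll.zero s1118) s1119)

def n151 : Cl (O (nat_lit 3)) (R (nat_lit 143633))
    (p (nat_lit 0x10000c) (nat_lit 0) (p (nat_lit 0x100004) (nat_lit 0) (p (nat_lit 0x1fc00c) (nat_lit 0) (p (nat_lit 0x1fc004) (nat_lit 0) (p (nat_lit 0xb0014) (nat_lit 1) (p (nat_lit 0x380c2) (nat_lit 1) (p (nat_lit 0x3c4aa) (nat_lit 7) (p (nat_lit 0x111) (nat_lit 1) (p (nat_lit 0x109) (nat_lit 0) (p (nat_lit 0xc9) (nat_lit 1) (p (nat_lit 0x119) (nat_lit 1) (p (nat_lit 0xc1) (nat_lit 0) (p (nat_lit 0x81) (nat_lit 1) (p (nat_lit 0x41) (nat_lit 1) (p (nat_lit 0x8a898a08881a) (nat_lit 0) (p (nat_lit 0xa090988079a) (nat_lit 0) (p (nat_lit 0x88088907871a) (nat_lit 0) (p (nat_lit 0x7880887069a) (nat_lit 0) (p (nat_lit 0x80000800088806860a) (nat_lit 0) (p (nat_lit 0x80000800068786058a) (nat_lit 0) (p (nat_lit 0x8687058502)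 (nat_lit 0) (p (nat_lit 0x606850482) (nat_lit 0) (p (nat_lit 0x160014) (nat_lit 0) (p (nat_lit 0x68612) (nat_lit 0) (p (nat_lit 0x50592) (nat_lit 0) (p (nat_lit 0x40512) (nat_lit 0) (p (nat_lit 0x50312) (nat_lit 0) (p (nat_lit 0x38292) (nat_lit 0) (p (nat_lit 0x28212) (nat_lit 0) (p (nat_lit 0x38112) (nat_lit 0) (p (nat_lit 0x20092) (nat_lit 0) (p (nat_lit 0x10012) (nat_lit 0) pn)))))))))))))))))))))))))))))))) :=
  Cl.node (nat_lit 0x2680d2680d0b8c8b0a8a) (nat_lit 1) (by decide +kernel) (ClAll.succ ClAll.zero n109)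

def n152 : Cl (O (nat_lit 3)) (R (nat_lit 143633))
    (p (nat_lit 0x10000c) (nat_lit 0) (p (nat_lit 0x20000c) (nat_lit 0) (p (nat_lit 0xb0014) (nat_lit 0) (p (nat_lit 0x380c2) (nat_lit 0) (p (nat_lit 0x444aa) (nat_lit 7) (p (nat_lit 0x81) (nat_lit 1) (p (nat_lit 0xc9) (nat_lit 1) (p (nat_lit 0x109) (nat_lit 1) (p (nat_lit 0x101) (nat_lit 0) (p (nat_lit 0x119) (nat_lit 0) (p (nat_lit 0xd1) (nat_lit 0) (p (nat_lit 0x89) (nat_lit 0) (p (nat_lit 0x41) (nat_lit 0) (p (nat_lit 0x8a898a08881a) (nat_lit 0) (p (nat_lit 0xa090988079a) (nat_lit 0) (p (nat_lit 0x88088907871a) (nat_lit 0) (p (nat_lit 0x7880887069a) (nat_lit 0) (p (nat_lit 0x80000800088806860a) (nat_lit 0) (p (nat_lit 0x80000800068786058a) (nat_lit 0) (p (nat_lit 0x8687058502) (nat_lit 0) (p (nat_lit 0x606850482) (nat_lit 0) (p (nat_lit 0x160014) (nat_lit 0) (p (nat_lit 0x68612) (nat_lit 0) (p (nat_lit 0x50592) (nat_lit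 0) (p (nat_lit 0x40512) (nat_lit 0) (p (nat_lit 0x50312) (nat_lit 0) (p (nat_lit 0x38292) (nat_lit 0) (p (nat_lit 0x28212) (nat_lit 0) (p (nat_lit 0x38112) (nat_lit 0) (p (nat_lit 0x20092) (nat_lit 0) (p (nat_lit 0x10012) (nat_lit 0) pn))))))))))))))))))))))))))))))) :=
  Cl.node (nat_lit 0x89) (nat_lit 2) (by decide +kernel) (ClAll.succ (ClAll.succ ClAll.zero s10) n110)

def n153 : Cl (O (nat_lit 3)) (R (nat_lit 143633))
    (p (nat_lit 0x1fc00c) (nat_lit 0) (p (nat_lit 0x1fc004) (nat_lit 0) (p (nat_lit 0xb0014) (nat_lit 1) (p (nat_lit 0x380c2) (nat_lit 0) (p (nat_lit 0x444aa) (nat_lit 7) (p (nat_lit 0x81) (nat_lit 1) (p (nat_lit 0xc9) (nat_lit 1) (p (nat_lit 0x109) (nat_lit 1) (p (nat_lit 0x101) (nat_lit 0) (p (nat_lit 0x119) (nat_lit 0) (p (nat_lit 0xd1) (nat_lit 0) (p (nat_lit 0x89) (nat_lit 0) (p (nat_lit 0x41) (nat_lit 0) (p (nat_lit 0x8a898a08881a) (nat_lit 0) (p (nat_lit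 0xa090988079a) (nat_lit 0) (p (nat_lit 0x88088907871a) (nat_lit 0) (p (nat_lit 0x7880887069a) (nat_lit 0) (p (nat_lit 0x80000800088806860a) (nat_lit 0) (p (nat_lit 0x80000800068786058a) (nat_lit 0) (p (nat_lit 0x8687058502) (nat_lit 0) (p (nat_lit 0x606850482) (nat_lit 0) (p (nat_lit 0x160014) (nat_lit 0) (p (nat_lit 0x68612) (nat_lit 0) (p (nat_lit 0x50592) (nat_lit 0) (p (nat_lit 0x40512) (nat_lit 0) (p (nat_lit 0x50312) (nat_lit 0) (p (nat_lit 0x38292) (nat_lit 0) (p (nat_lit 0x28212) (nat_lit 0) (p (nat_lit 0x38112) (nat_lit 0) (p (nat_lit 0x20092) (nat_lit 0) (p (nat_lit 0x10012) (nat_lit 0) pn))))))))))))))))))))))))))))))) :=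
  Cl.node (nat_lit 0x100004) (nat_lit 2) (by decide +kernel) (ClAll.succ (ClAll.succ ClAll.zero n111) s18)

def n154 : Cl (O (nat_lit 3)) (R (nat_lit 143633))
    (p (nat_lit 0x10000c) (nat_lit 0) (p (nat_lit 0x200004) (nat_lit 0) (p (nat_lit 0x20000c) (nat_lit 0) (p (nat_lit 0x380c2) (nat_lit 1) (p (nat_lit 0x444aa) (nat_lit 7) (p (nat_lit 0x81) (nat_lit 1) (p (nat_lit 0xc9) (nat_lit 1) (p (nat_lit 0x109) (nat_lit 1) (p (nat_lit 0x101) (nat_lit 0) (p (nat_lit 0x119) (nat_lit 0) (p (nat_lit 0xd1) (nat_lit 0) (p (nat_lit 0x89) (nat_lit 0) (p (nat_lit 0x41) (nat_lit 0) (p (nat_lit 0x8a898a08881a) (nat_lit 0) (p (nat_lit 0xa090988079a) (nat_lit 0) (p (nat_lit 0x88088907871a) (nat_lit 0) (p (nat_lit 0x7880887069a) (nat_lit 0) (p (nat_lit 0x80000800088806860a) (nat_lit 0) (p (nat_lit 0x80000800068786058a) (nat_lit 0) (p (nat_lit 0x8687058502) (nat_lit 0) (p (nat_lit 0x606850482)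 (nat_lit 0) (p (nat_lit 0x160014) (nat_lit 0) (p (nat_lit 0x68612) (nat_lit 0) (p (nat_lit 0x50592) (nat_lit 0) (p (nat_lit 0x40512) (nat_lit 0) (p (nat_lit 0x50312) (nat_lit 0) (p (nat_lit 0x38292) (nat_lit 0) (p (nat_lit 0x28212) (nat_lit 0) (p (nat_lit 0x38112) (nat_lit 0) (p (nat_lit 0x20092) (nat_lit 0) (p (nat_lit 0x10012) (nat_lit 0) pn))))))))))))))))))))))))))))))) :=
  Cl.node (nat_lit 0x100004) (nat_lit 2) (by decide +kernel) (ClAll.succ (ClAll.succ ClAll.zero n112) s25)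

def n155 : Cl (O (nat_lit 3)) (R (nat_lit 143633))
    (p (nat_lit 0x200004) (nat_lit 0) (p (nat_lit 0x20000c) (nat_lit 0) (p (nat_lit 0xb0014) (nat_lit 0) (p (nat_lit 0x380c2) (nat_lit 0) (p (nat_lit 0x444aa) (nat_lit 7) (p (nat_lit 0x111) (nat_lit 0) (p (nat_lit 0xc9) (nat_lit 1) (p (nat_lit 0x81) (nat_lit 0) (p (nat_lit 0x101) (nat_lit 1) (p (nat_lit 0x119) (nat_lit 0) (p (nat_lit 0xd1) (nat_lit 0) (p (nat_lit 0x89) (nat_lit 0) (p (nat_lit 0x41) (nat_lit 0) (p (nat_lit 0x8a898a08881a) (nat_lit 0) (p (nat_lit 0xa090988079a) (nat_lit 0) (p (nat_lit 0x88088907871a) (nat_lit 0) (p (nat_lit 0x7880887069a) (nat_lit 0) (p (nat_lit 0x80000800088806860a) (nat_lit 0) (p (nat_lit 0x80000800068786058a) (nat_lit 0) (p (nat_lit 0x8687058502) (nat_lit 0) (p (nat_lit 0x606850482) (nat_lit 0) (p (nat_lit 0x160014) (nat_lit 0) (p (nat_lit 0x68612) (nat_lit 0) (p (nat_lit 0x50592) (nat_lit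 0) (p (nat_lit 0x40512) (nat_lit 0) (p (nat_lit 0x50312) (nat_lit 0) (p (nat_lit 0x38292) (nat_lit 0) (p (nat_lit 0x28212) (nat_lit 0) (p (nat_lit 0x38112) (nat_lit 0) (p (nat_lit 0x20092) (nat_lit 0) (p (nat_lit 0x10012) (nat_lit 0) pn))))))))))))))))))))))))))))))) :=
  Cl.node (nat_lit 0x10000c) (nat_lit 2) (by decide +kernel) (ClAll.succ (ClAll.succ ClAll.zero n113) s55)

def n156 : Cl (O (nat_lit 3)) (R (nat_lit 143633))
    (p (nat_lit 0x1fc00c) (nat_lit 0) (p (nat_lit 0x1fc004) (nat_lit 0) (p (nat_lit 0xb0014) (nat_lit 1) (p (nat_lit 0x380c2) (nat_lit 0) (p (nat_lit 0x444aa) (nat_lit 7) (p (nat_lit 0x111) (nat_lit 0) (p (nat_lit 0xc9) (nat_lit 1) (p (nat_lit 0x81) (nat_lit 0) (p (nat_lit 0x101) (nat_lit 1) (p (nat_lit 0x119) (nat_lit 0) (p (nat_lit 0xd1) (nat_lit 0) (p (nat_lit 0x89) (nat_lit 0) (p (nat_lit 0x41) (nat_lit 0) (p (nat_lit 0x8a898a08881a) (nat_lit 0)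 (p (nat_lit 0xa090988079a) (nat_lit 0) (p (nat_lit 0x88088907871a) (nat_lit 0) (p (nat_lit 0x7880887069a) (nat_lit 0) (p (nat_lit 0x80000800088806860a) (nat_lit 0) (p (nat_lit 0x80000800068786058a) (nat_lit 0) (p (nat_lit 0x8687058502) (nat_lit 0) (p (nat_lit 0x606850482) (nat_lit 0) (p (nat_lit 0x160014) (nat_lit 0) (p (nat_lit 0x68612) (nat_lit 0) (p (nat_lit 0x50592) (nat_lit 0) (p (nat_lit 0x40512) (nat_lit 0) (p (nat_lit 0x50312) (nat_lit 0) (p (nat_lit 0x38292) (nat_lit 0) (p (nat_lit 0x28212) (nat_lit 0) (p (nat_lit 0x38112) (nat_lit 0) (p (nat_lit 0x20092) (nat_lit 0) (p (nat_lit 0x10012) (nat_lit 0) pn))))))))))))))))))))))))))))))) :=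
  Cl.node (nat_lit 0x10000c) (nat_lit 2) (by decide +kernel) (ClAll.succ (ClAll.succ ClAll.zero s58) s59)

def n157 : Cl (O (nat_lit 3)) (R (nat_lit 143633))
    (p (nat_lit 0x10000c) (nat_lit 0) (p (nat_lit 0x200004) (nat_lit 0) (p (nat_lit 0x20000c) (nat_lit 0) (p (nat_lit 0x380c2) (nat_lit 1) (p (nat_lit 0x444aa) (nat_lit 7) (p (nat_lit 0x111) (nat_lit 0) (p (nat_lit 0xc9) (nat_lit 1) (p (nat_lit 0x81) (nat_lit 0) (p (nat_lit 0x101) (nat_lit 1) (p (nat_lit 0x119) (nat_lit 0) (p (nat_lit 0xd1) (nat_lit 0) (p (nat_lit 0x89) (nat_lit 0) (p (nat_lit 0x41) (nat_lit 0) (p (nat_lit 0x8a898a08881a) (nat_lit 0) (p (nat_lit 0xa090988079a) (nat_lit 0) (p (nat_lit 0x88088907871a) (nat_lit 0) (p (nat_lit 0x7880887069a) (nat_lit 0) (p (nat_lit 0x80000800088806860a) (nat_lit 0) (p (nat_lit 0x80000800068786058a) (nat_lit 0) (p (nat_lit 0x8687058502) (nat_lit 0) (p (nat_lit 0x606850482)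 (nat_lit 0) (p (nat_lit 0x160014) (nat_lit 0) (p (nat_lit 0x68612) (nat_lit 0) (p (nat_lit 0x50592) (nat_lit 0) (p (nat_lit 0x40512) (nat_lit 0) (p (nat_lit 0x50312) (nat_lit 0) (p (nat_lit 0x38292) (nat_lit 0) (p (nat_lit 0x28212) (nat_lit 0) (p (nat_lit 0x38112) (nat_lit 0) (p (nat_lit 0x20092) (nat_lit 0) (p (nat_lit 0x10012) (nat_lit 0) pn))))))))))))))))))))))))))))))) :=
  Cl.node (nat_lit 0x100004) (nat_lit 2) (by decide +kernel) (ClAll.succ (ClAll.succ ClAll.zero n114) s65)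

def n158 : Cl (O (nat_lit 3)) (R (nat_lit 143633))
    (p (nat_lit 0x10000c) (nat_lit 0) (p (nat_lit 0x200004) (nat_lit 0) (p (nat_lit 0x20000c) (nat_lit 0) (p (nat_lit 0x380c2) (nat_lit 1) (p (nat_lit 0x444aa) (nat_lit 7) (p (nat_lit 0xc9) (nat_lit 1) (p (nat_lit 0xc1) (nat_lit 0) (p (nat_lit 0x81) (nat_lit 1) (p (nat_lit 0x101) (nat_lit 1) (p (nat_lit 0x119) (nat_lit 0) (p (nat_lit 0xd1) (nat_lit 0) (p (nat_lit 0x89) (nat_lit 0) (p (nat_lit 0x41) (nat_lit 0) (p (nat_lit 0x8a898a08881a) (nat_lit 0) (p (nat_lit 0xa090988079a) (nat_lit 0) (p (nat_lit 0x88088907871a) (nat_lit 0) (p (nat_lit 0x7880887069a) (nat_lit 0) (p (nat_lit 0x80000800088806860a) (nat_lit 0) (p (nat_lit 0x80000800068786058a) (nat_lit 0) (p (nat_lit 0x8687058502) (nat_lit 0) (p (nat_lit 0x606850482) (nat_lit 0) (p (nat_lit 0x160014) (nat_lit 0) (p (nat_lit 0x68612) (nat_lit 0) (p (nat_lit 0x50592) (nat_lit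 0) (p (nat_lit 0x40512) (nat_lit 0) (p (nat_lit 0x50312) (nat_lit 0) (p (nat_lit 0x38292) (nat_lit 0) (p (nat_lit 0x28212) (nat_lit 0) (p (nat_lit 0x38112) (nat_lit 0) (p (nat_lit 0x20092) (nat_lit 0) (p (nat_lit 0x10012) (nat_lit 0) pn))))))))))))))))))))))))))))))) :=
  Cl.node (nat_lit 0x100004) (nat_lit 2) (by decide +kernel) (ClAll.succ (ClAll.succ ClAll.zero s95) s96)

def n159 : Cl (O (nat_lit 3)) (R (nat_lit 143633))
    (p (nat_lit 0x380c2) (nat_lit 0) (p (nat_lit 0x444aa) (nat_lit 7) (p (nat_lit 0x101) (nat_lit 1) (p (nat_lit 0x81) (nat_lit 1) (p (nat_lit 0x380c2) (nat_lit 1) (p (nat_lit 0x3cc2a) (nat_lit 11) (p (nat_lit 0x109) (nat_lit 1) (p (nat_lit 0xc9) (nat_lit 1) (p (nat_lit 0xc1) (nat_lit 0) (p (nat_lit 0x119) (nat_lit 1) (p (nat_lit 0xd1) (nat_lit 0) (p (nat_lit 0x89) (nat_lit 0) (p (nat_lit 0x41) (nat_lit 0) (p (nat_lit 0x8a898a08881a) (nat_lit 0) (p (nat_lit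 0xa090988079a) (nat_lit 0) (p (nat_lit 0x88088907871a) (nat_lit 0) (p (nat_lit 0x7880887069a) (nat_lit 0) (p (nat_lit 0x80000800088806860a) (nat_lit 0) (p (nat_lit 0x80000800068786058a) (nat_lit 0) (p (nat_lit 0x8687058502) (nat_lit 0) (p (nat_lit 0x606850482) (nat_lit 0) (p (nat_lit 0x160014) (nat_lit 0) (p (nat_lit 0x68612) (nat_lit 0) (p (nat_lit 0x50592) (nat_lit 0) (p (nat_lit 0x40512) (nat_lit 0) (p (nat_lit 0x50312) (nat_lit 0) (p (nat_lit 0x38292) (nat_lit 0) (p (nat_lit 0x28212) (nat_lit 0) (p (nat_lit 0x38112) (nat_lit 0) (p (nat_lit 0x20092) (nat_lit 0) (p (nat_lit 0x10012) (nat_lit 0) pn))))))))))))))))))))))))))))))) :=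
  Cl.node (nat_lit 0xb0014) (nat_lit 2) (by decide +kernel) (ClAll.succ (ClAll.succ ClAll.zero n115) s157)

def n160 : Cl (O (nat_lit 3)) (R (nat_lit 143633))
    (p (nat_lit 0x200004) (nat_lit 0) (p (nat_lit 0x20000c) (nat_lit 0) (p (nat_lit 0xb0014) (nat_lit 0) (p (nat_lit 0x380c2) (nat_lit 0) (p (nat_lit 0x444aa) (nat_lit 7) (p (nat_lit 0x109) (nat_lit 1) (p (nat_lit 0x101) (nat_lit 0) (p (nat_lit 0x81) (nat_lit 1) (p (nat_lit 0xc1) (nat_lit 1) (p (nat_lit 0x119) (nat_lit 1) (p (nat_lit 0xd1) (nat_lit 0) (p (nat_lit 0x89) (nat_lit 0) (p (nat_lit 0x41) (nat_lit 0) (p (nat_lit 0x8a898a08881a) (nat_lit 0) (p (nat_lit 0xa090988079a) (nat_lit 0) (p (nat_lit 0x88088907871a) (nat_lit 0) (p (nat_lit 0x7880887069a) (nat_lit 0) (p (nat_lit 0x80000800088806860a) (nat_lit 0) (p (nat_lit 0x80000800068786058a) (nat_lit 0) (p (nat_lit 0x8687058502) (nat_lit 0) (p (nat_lit 0x606850482)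 (nat_lit 0) (p (nat_lit 0x160014) (nat_lit 0) (p (nat_lit 0x68612) (nat_lit 0) (p (nat_lit 0x50592) (nat_lit 0) (p (nat_lit 0x40512) (nat_lit 0) (p (nat_lit 0x50312) (nat_lit 0) (p (nat_lit 0x38292) (nat_lit 0) (p (nat_lit 0x28212) (nat_lit 0) (p (nat_lit 0x38112) (nat_lit 0) (p (nat_lit 0x20092) (nat_lit 0) (p (nat_lit 0x10012) (nat_lit 0) pn))))))))))))))))))))))))))))))) :=
  Cl.node (nat_lit 0x10000c) (nat_lit 2) (by decide +kernel) (ClAll.succ (ClAll.succ ClAll.zero n116) s209)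

def n161 : Cl (O (nat_lit 3)) (R (nat_lit 143633))
    (p (nat_lit 0x10000c) (nat_lit 0) (p (nat_lit 0x200004) (nat_lit 0) (p (nat_lit 0x20000c) (nat_lit 0) (p (nat_lit 0x380c2) (nat_lit 1) (p (nat_lit 0x444aa) (nat_lit 7) (p (nat_lit 0x109) (nat_lit 1) (p (nat_lit 0x101) (nat_lit 0) (p (nat_lit 0x81) (nat_lit 1) (p (nat_lit 0xc1) (nat_lit 1) (p (nat_lit 0x119) (nat_lit 1) (p (nat_lit 0xd1) (nat_lit 0) (p (nat_lit 0x89) (nat_lit 0) (p (nat_lit 0x41) (nat_lit 0) (p (nat_lit 0x8a898a08881a) (nat_lit 0) (p (nat_lit 0xa090988079a) (nat_lit 0) (p (nat_lit 0x88088907871a) (nat_lit 0) (p (nat_lit 0x7880887069a) (nat_lit 0) (p (nat_lit 0x80000800088806860a) (nat_lit 0) (p (nat_lit 0x80000800068786058a) (nat_lit 0) (p (nat_lit 0x8687058502) (nat_lit 0) (p (nat_lit 0x606850482) (nat_lit 0) (p (nat_lit 0x160014) (nat_lit 0) (p (nat_lit 0x68612) (nat_lit 0) (p (nat_lit 0x50592) (nat_lit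 0) (p (nat_lit 0x40512) (nat_lit 0) (p (nat_lit 0x50312) (nat_lit 0) (p (nat_lit 0x38292) (nat_lit 0) (p (nat_lit 0x28212) (nat_lit 0) (p (nat_lit 0x38112) (nat_lit 0) (p (nat_lit 0x20092) (nat_lit 0) (p (nat_lit 0x10012) (nat_lit 0) pn))))))))))))))))))))))))))))))) :=
  Cl.node (nat_lit 0x100004) (nat_lit 2) (by decide +kernel) (ClAll.succ (ClAll.succ ClAll.zero n117) s218)

def n162 : Cl (O (nat_lit 3)) (R (nat_lit 143633))
    (p (nat_lit 0x10000c) (nat_lit 0) (p (nat_lit 0x20000c) (nat_lit 0) (p (nat_lit 0xb0014) (nat_lit 0) (p (nat_lit 0x380c2) (nat_lit 1) (p (nat_lit 0x444aa) (nat_lit 8) (p (nat_lit 0x109) (nat_lit 1) (p (nat_lit 0x101) (nat_lit 0) (p (nat_lit 0x81) (nat_lit 1) (p (nat_lit 0xc1) (nat_lit 1) (p (nat_lit 0x119) (nat_lit 1) (p (nat_lit 0xd1) (nat_lit 0) (p (nat_lit 0x89) (nat_lit 0) (p (nat_lit 0x41) (nat_lit 0) (p (nat_lit 0x8a898a08881a) (nat_lit 0)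 (p (nat_lit 0xa090988079a) (nat_lit 0) (p (nat_lit 0x88088907871a) (nat_lit 0) (p (nat_lit 0x7880887069a) (nat_lit 0) (p (nat_lit 0x80000800088806860a) (nat_lit 0) (p (nat_lit 0x80000800068786058a) (nat_lit 0) (p (nat_lit 0x8687058502) (nat_lit 0) (p (nat_lit 0x606850482) (nat_lit 0) (p (nat_lit 0x160014) (nat_lit 0) (p (nat_lit 0x68612) (nat_lit 0) (p (nat_lit 0x50592) (nat_lit 0) (p (nat_lit 0x40512) (nat_lit 0) (p (nat_lit 0x50312) (nat_lit 0) (p (nat_lit 0x38292) (nat_lit 0) (p (nat_lit 0x28212) (nat_lit 0) (p (nat_lit 0x38112) (nat_lit 0) (p (nat_lit 0x20092) (nat_lit 0) (p (nat_lit 0x10012) (nat_lit 0) pn))))))))))))))))))))))))))))))) :=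
  Cl.node (nat_lit 0x119) (nat_lit 2) (by decide +kernel) (ClAll.succ (ClAll.succ ClAll.zero s223) s224)

def n163 : Cl (O (nat_lit 3)) (R (nat_lit 143633))
    (p (nat_lit 0x10000c) (nat_lit 0) (p (nat_lit 0x380c2) (nat_lit 0) (p (nat_lit 0x3cc2a) (nat_lit 0) (p (nat_lit 0x41) (nat_lit 0) (p (nat_lit 0x20000c) (nat_lit 0) (p (nat_lit 0x200004) (nat_lit 0) (p (nat_lit 0xc1) (nat_lit 1) (p (nat_lit 0x109) (nat_lit 1) (p (nat_lit 0x101) (nat_lit 0) (p (nat_lit 0x111) (nat_lit 0) (p (nat_lit 0xd1) (nat_lit 1) (p (nat_lit 0x89) (nat_lit 0) (p (nat_lit 0x41) (nat_lit 0) (p (nat_lit 0x8a898a08881a) (nat_lit 0) (p (nat_lit 0xa090988079a) (nat_lit 0) (p (nat_lit 0x88088907871a) (nat_lit 0) (p (nat_lit 0x7880887069a) (nat_lit 0) (p (nat_lit 0x80000800088806860a) (nat_lit 0) (p (nat_lit 0x80000800068786058a) (nat_lit 0) (p (nat_lit 0x8687058502) (nat_lit 0) (p (nat_lit 0x606850482)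 (nat_lit 0) (p (nat_lit 0x160014) (nat_lit 0) (p (nat_lit 0x68612) (nat_lit 0) (p (nat_lit 0x50592) (nat_lit 0) (p (nat_lit 0x40512) (nat_lit 0) (p (nat_lit 0x50312) (nat_lit 0) (p (nat_lit 0x38292) (nat_lit 0) (p (nat_lit 0x28212) (nat_lit 0) (p (nat_lit 0x38112) (nat_lit 0) (p (nat_lit 0x20092) (nat_lit 0) (p (nat_lit 0x10012) (nat_lit 0) pn))))))))))))))))))))))))))))))) :=
  Cl.node (nat_lit 0x8000c) (nat_lit 2) (by decide +kernel) (ClAll.succ (ClAll.succ ClAll.zero n118) s247)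

def n164 : Cl (O (nat_lit 3)) (R (nat_lit 143633))
    (p (nat_lit 0x100004) (nat_lit 0) (p (nat_lit 0x380c2) (nat_lit 0) (p (nat_lit 0x3cc2a) (nat_lit 0) (p (nat_lit 0x109) (nat_lit 1) (p (nat_lit 0x20000c) (nat_lit 0) (p (nat_lit 0x200004) (nat_lit 0) (p (nat_lit 0x119) (nat_lit 0) (p (nat_lit 0x81) (nat_lit 0) (p (nat_lit 0x101) (nat_lit 1) (p (nat_lit 0x111) (nat_lit 0) (p (nat_lit 0xd1) (nat_lit 1) (p (nat_lit 0x89) (nat_lit 0) (p (nat_lit 0x41) (nat_lit 0) (p (nat_lit 0x8a898a08881a) (nat_lit 0) (p (nat_lit 0xa090988079a) (nat_lit 0) (p (nat_lit 0x88088907871a) (nat_lit 0) (p (nat_lit 0x7880887069a) (nat_lit 0) (p (nat_lit 0x80000800088806860a) (nat_lit 0) (p (nat_lit 0x80000800068786058a) (nat_lit 0) (p (nat_lit 0x8687058502) (nat_lit 0) (p (nat_lit 0x606850482) (nat_lit 0) (p (nat_lit 0x160014) (nat_lit 0) (p (nat_lit 0x68612) (nat_lit 0) (p (nat_lit 0x50592) (nat_lit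 0) (p (nat_lit 0x40512) (nat_lit 0) (p (nat_lit 0x50312) (nat_lit 0) (p (nat_lit 0x38292) (nat_lit 0) (p (nat_lit 0x28212) (nat_lit 0) (p (nat_lit 0x38112) (nat_lit 0) (p (nat_lit 0x20092) (nat_lit 0) (p (nat_lit 0x10012) (nat_lit 0) pn))))))))))))))))))))))))))))))) :=
  Cl.node (nat_lit 0x10000c) (nat_lit 2) (by decide +kernel) (ClAll.succ (ClAll.succ ClAll.zero n119) s267)

def n165 : Cl (O (nat_lit 3)) (R (nat_lit 143633))
    (p (nat_lit 0x200004) (nat_lit 0) (p (nat_lit 0x20000c) (nat_lit 0) (p (nat_lit 0xb0014) (nat_lit 0) (p (nat_lit 0x380c2) (nat_lit 0) (p (nat_lit 0x444aa) (nat_lit 7) (p (nat_lit 0xd1) (nat_lit 1) (p (nat_lit 0x111) (nat_lit 1) (p (nat_lit 0x109) (nat_lit 0) (p (nat_lit 0x101) (nat_lit 0) (p (nat_lit 0x119) (nat_lit 0) (p (nat_lit 0xc9) (nat_lit 0) (p (nat_lit 0x89) (nat_lit 1) (p (nat_lit 0x41) (nat_lit 0) (p (nat_lit 0x8a898a08881a) (nat_lit 0)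 (p (nat_lit 0xa090988079a) (nat_lit 0) (p (nat_lit 0x88088907871a) (nat_lit 0) (p (nat_lit 0x7880887069a) (nat_lit 0) (p (nat_lit 0x80000800088806860a) (nat_lit 0) (p (nat_lit 0x80000800068786058a) (nat_lit 0) (p (nat_lit 0x8687058502) (nat_lit 0) (p (nat_lit 0x606850482) (nat_lit 0) (p (nat_lit 0x160014) (nat_lit 0) (p (nat_lit 0x68612) (nat_lit 0) (p (nat_lit 0x50592) (nat_lit 0) (p (nat_lit 0x40512) (nat_lit 0) (p (nat_lit 0x50312) (nat_lit 0) (p (nat_lit 0x38292) (nat_lit 0) (p (nat_lit 0x28212) (nat_lit 0) (p (nat_lit 0x38112) (nat_lit 0) (p (nat_lit 0x20092) (nat_lit 0) (p (nat_lit 0x10012) (nat_lit 0) pn))))))))))))))))))))))))))))))) :=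
  Cl.node (nat_lit 0x10000c) (nat_lit 2) (by decide +kernel) (ClAll.succ (ClAll.succ ClAll.zero n120) n121)

def n166 : Cl (O (nat_lit 3)) (R (nat_lit 143633))
    (p (nat_lit 0x1fc00c) (nat_lit 0) (p (nat_lit 0x1fc004) (nat_lit 0) (p (nat_lit 0xb0014) (nat_lit 1) (p (nat_lit 0x380c2) (nat_lit 0) (p (nat_lit 0x444aa) (nat_lit 7) (p (nat_lit 0xd1) (nat_lit 1) (p (nat_lit 0x111) (nat_lit 1) (p (nat_lit 0x109) (nat_lit 0) (p (nat_lit 0x101) (nat_lit 0) (p (nat_lit 0x119) (nat_lit 0) (p (nat_lit 0xc9) (nat_lit 0) (p (nat_lit 0x89) (nat_lit 1) (p (nat_lit 0x41) (nat_lit 0) (p (nat_lit 0x8a898a08881a) (nat_lit 0) (p (nat_lit 0xa090988079a) (nat_lit 0) (p (nat_lit 0x88088907871a) (nat_lit 0) (p (nat_lit 0x7880887069a) (nat_lit 0) (p (nat_lit 0x80000800088806860a) (nat_lit 0) (p (nat_lit 0x80000800068786058a) (nat_lit 0) (p (nat_lit 0x8687058502) (nat_lit 0) (p (nat_lit 0x606850482)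 (nat_lit 0) (p (nat_lit 0x160014) (nat_lit 0) (p (nat_lit 0x68612) (nat_lit 0) (p (nat_lit 0x50592) (nat_lit 0) (p (nat_lit 0x40512) (nat_lit 0) (p (nat_lit 0x50312) (nat_lit 0) (p (nat_lit 0x38292) (nat_lit 0) (p (nat_lit 0x28212) (nat_lit 0) (p (nat_lit 0x38112) (nat_lit 0) (p (nat_lit 0x20092) (nat_lit 0) (p (nat_lit 0x10012) (nat_lit 0) pn))))))))))))))))))))))))))))))) :=
  Cl.node (nat_lit 0x10000c) (nat_lit 2) (by decide +kernel) (ClAll.succ (ClAll.succ ClAll.zero s343) n122)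

def n167 : Cl (O (nat_lit 3)) (R (nat_lit 143633))
    (p (nat_lit 0x100004) (nat_lit 0) (p (nat_lit 0x200004) (nat_lit 0) (p (nat_lit 0x20000c) (nat_lit 0) (p (nat_lit 0x380c2) (nat_lit 1) (p (nat_lit 0x444aa) (nat_lit 7) (p (nat_lit 0xd1) (nat_lit 1) (p (nat_lit 0x111) (nat_lit 1) (p (nat_lit 0x109) (nat_lit 0) (p (nat_lit 0x101) (nat_lit 0) (p (nat_lit 0x119) (nat_lit 0) (p (nat_lit 0xc9) (nat_lit 0) (p (nat_lit 0x89) (nat_lit 1) (p (nat_lit 0x41) (nat_lit 0) (p (nat_lit 0x8a898a08881a) (nat_lit 0) (p (nat_lit 0xa090988079a) (nat_lit 0) (p (nat_lit 0x88088907871a) (nat_lit 0) (p (nat_lit 0x7880887069a) (nat_lit 0) (p (nat_lit 0x80000800088806860a) (nat_lit 0) (p (nat_lit 0x80000800068786058a) (nat_lit 0) (p (nat_lit 0x8687058502) (nat_lit 0) (p (nat_lit 0x606850482) (nat_lit 0) (p (nat_lit 0x160014) (nat_lit 0) (p (nat_lit 0x68612) (nat_lit 0) (p (nat_lit 0x50592) (nat_lit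 0) (p (nat_lit 0x40512) (nat_lit 0) (p (nat_lit 0x50312) (nat_lit 0) (p (nat_lit 0x38292) (nat_lit 0) (p (nat_lit 0x28212) (nat_lit 0) (p (nat_lit 0x38112) (nat_lit 0) (p (nat_lit 0x20092) (nat_lit 0) (p (nat_lit 0x10012) (nat_lit 0) pn))))))))))))))))))))))))))))))) :=
  Cl.node (nat_lit 0x10000c) (nat_lit 2) (by decide +kernel) (ClAll.succ (ClAll.succ ClAll.zero n123) n124)

def n168 : Cl (O (nat_lit 3)) (R (nat_lit 143633))
    (p (nat_lit 0x10000c) (nat_lit 0) (p (nat_lit 0x200004) (nat_lit 0) (p (nat_lit 0x20000c) (nat_lit 0) (p (nat_lit 0xb0014) (nat_lit 0) (p (nat_lit 0x380c2) (nat_lit 0) (p (nat_lit 0x444aa) (nat_lit 7) (p (nat_lit 0xd1) (nat_lit 1) (p (nat_lit 0x109) (nat_lit 1) (p (nat_lit 0x101) (nat_lit 0) (p (nat_lit 0x119) (nat_lit 0) (p (nat_lit 0xc9) (nat_lit 0) (p (nat_lit 0x89) (nat_lit 1) (p (nat_lit 0x41) (nat_lit 0) (p (nat_lit 0x8a898a08881a) (nat_lit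 0) (p (nat_lit 0xa090988079a) (nat_lit 0) (p (nat_lit 0x88088907871a) (nat_lit 0) (p (nat_lit 0x7880887069a) (nat_lit 0) (p (nat_lit 0x80000800088806860a) (nat_lit 0) (p (nat_lit 0x80000800068786058a) (nat_lit 0) (p (nat_lit 0x8687058502) (nat_lit 0) (p (nat_lit 0x606850482) (nat_lit 0) (p (nat_lit 0x160014) (nat_lit 0) (p (nat_lit 0x68612) (nat_lit 0) (p (nat_lit 0x50592) (nat_lit 0) (p (nat_lit 0x40512) (nat_lit 0) (p (nat_lit 0x50312) (nat_lit 0) (p (nat_lit 0x38292) (nat_lit 0) (p (nat_lit 0x28212) (nat_lit 0) (p (nat_lit 0x38112) (nat_lit 0) (p (nat_lit 0x20092) (nat_lit 0) (p (nat_lit 0x10012) (nat_lit 0) pn))))))))))))))))))))))))))))))) :=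
  Cl.node (nat_lit 0xc1) (nat_lit 2) (by decide +kernel) (ClAll.succ (ClAll.succ ClAll.zero n125) s412)

def n169 : Cl (O (nat_lit 3)) (R (nat_lit 143633))
    (p (nat_lit 0x10000c) (nat_lit 1) (p (nat_lit 0x200004) (nat_lit 0) (p (nat_lit 0x20000c) (nat_lit 0) (p (nat_lit 0xb0014) (nat_lit 0) (p (nat_lit 0x380c2) (nat_lit 0) (p (nat_lit 0x444aa) (nat_lit 7) (p (nat_lit 0xd1) (nat_lit 1) (p (nat_lit 0x109) (nat_lit 1) (p (nat_lit 0x101) (nat_lit 0) (p (nat_lit 0x119) (nat_lit 0) (p (nat_lit 0xc9) (nat_lit 0) (p (nat_lit 0x89) (nat_lit 1) (p (nat_lit 0x41) (nat_lit 0) (p (nat_lit 0x8a898a08881a) (nat_lit 0) (p (nat_lit 0xa090988079a) (nat_lit 0) (p (nat_lit 0x88088907871a) (nat_lit 0) (p (nat_lit 0x7880887069a) (nat_lit 0) (p (nat_lit 0x80000800088806860a) (nat_lit 0) (p (nat_lit 0x80000800068786058a) (nat_lit 0) (p (nat_lit 0x8687058502) (nat_lit 0) (p (nat_lit 0x606850482)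 (nat_lit 0) (p (nat_lit 0x160014) (nat_lit 0) (p (nat_lit 0x68612) (nat_lit 0) (p (nat_lit 0x50592) (nat_lit 0) (p (nat_lit 0x40512) (nat_lit 0) (p (nat_lit 0x50312) (nat_lit 0) (p (nat_lit 0x38292) (nat_lit 0) (p (nat_lit 0x28212) (nat_lit 0) (p (nat_lit 0x38112) (nat_lit 0) (p (nat_lit 0x20092) (nat_lit 0) (p (nat_lit 0x10012) (nat_lit 0) pn))))))))))))))))))))))))))))))) :=
  Cl.node (nat_lit 0x58014) (nat_lit 2) (by decide +kernel) (ClAll.succ (ClAll.succ ClAll.zero s413) s414)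

def n170 : Cl (O (nat_lit 3)) (R (nat_lit 143633))
    (p (nat_lit 0x10000c) (nat_lit 0) (p (nat_lit 0x1fc00c) (nat_lit 0) (p (nat_lit 0x1fc004) (nat_lit 0) (p (nat_lit 0xb0014) (nat_lit 1) (p (nat_lit 0x380c2) (nat_lit 0) (p (nat_lit 0x444aa) (nat_lit 7) (p (nat_lit 0xd1) (nat_lit 1) (p (nat_lit 0x109) (nat_lit 1) (p (nat_lit 0x101) (nat_lit 0) (p (nat_lit 0x119) (nat_lit 0) (p (nat_lit 0xc9) (nat_lit 0) (p (nat_lit 0x89) (nat_lit 1) (p (nat_lit 0x41) (nat_lit 0) (p (nat_lit 0x8a898a08881a) (nat_lit 0) (p (nat_lit 0xa090988079a) (nat_lit 0) (p (nat_lit 0x88088907871a) (nat_lit 0) (p (nat_lit 0x7880887069a) (nat_lit 0) (p (nat_lit 0x80000800088806860a) (nat_lit 0) (p (nat_lit 0x80000800068786058a) (nat_lit 0) (p (nat_lit 0x8687058502) (nat_lit 0) (p (nat_lit 0x606850482) (nat_lit 0) (p (nat_lit 0x160014) (nat_lit 0) (p (nat_lit 0x68612) (nat_lit 0) (p (nat_lit 0x50592) (nat_lit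 0) (p (nat_lit 0x40512) (nat_lit 0) (p (nat_lit 0x50312) (nat_lit 0) (p (nat_lit 0x38292) (nat_lit 0) (p (nat_lit 0x28212) (nat_lit 0) (p (nat_lit 0x38112) (nat_lit 0) (p (nat_lit 0x20092) (nat_lit 0) (p (nat_lit 0x10012) (nat_lit 0) pn))))))))))))))))))))))))))))))) :=
  Cl.node (nat_lit 0x100004) (nat_lit 2) (by decide +kernel) (ClAll.succ (ClAll.succ ClAll.zero n126) s419)

def n171 : Cl (O (nat_lit 3)) (R (nat_lit 143633))
    (p (nat_lit 0x100004) (nat_lit 0) (p (nat_lit 0x10000c) (nat_lit 0) (p (nat_lit 0x200004) (nat_lit 0) (p (nat_lit 0x20000c) (nat_lit 0) (p (nat_lit 0x380c2) (nat_lit 1) (p (nat_lit 0x444aa) (nat_lit 7) (p (nat_lit 0xd1) (nat_lit 1) (p (nat_lit 0x109) (nat_lit 1) (p (nat_lit 0x101) (nat_lit 0) (p (nat_lit 0x119) (nat_lit 0) (p (nat_lit 0xc9) (nat_lit 0) (p (nat_lit 0x89) (nat_lit 1) (p (nat_lit 0x41) (nat_lit 0) (p (nat_lit 0x8a898a08881a) (nat_lit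 0) (p (nat_lit 0xa090988079a) (nat_lit 0) (p (nat_lit 0x88088907871a) (nat_lit 0) (p (nat_lit 0x7880887069a) (nat_lit 0) (p (nat_lit 0x80000800088806860a) (nat_lit 0) (p (nat_lit 0x80000800068786058a) (nat_lit 0) (p (nat_lit 0x8687058502) (nat_lit 0) (p (nat_lit 0x606850482) (nat_lit 0) (p (nat_lit 0x160014) (nat_lit 0) (p (nat_lit 0x68612) (nat_lit 0) (p (nat_lit 0x50592) (nat_lit 0) (p (nat_lit 0x40512) (nat_lit 0) (p (nat_lit 0x50312) (nat_lit 0) (p (nat_lit 0x38292) (nat_lit 0) (p (nat_lit 0x28212) (nat_lit 0) (p (nat_lit 0x38112) (nat_lit 0) (p (nat_lit 0x20092) (nat_lit 0) (p (nat_lit 0x10012) (nat_lit 0) pn))))))))))))))))))))))))))))))) :=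
  Cl.node (nat_lit 0xc1) (nat_lit 2) (by decide +kernel) (ClAll.succ (ClAll.succ ClAll.zero n127) s436)

def n172 : Cl (O (nat_lit 3)) (R (nat_lit 143633))
    (p (nat_lit 0x100004) (nat_lit 0) (p (nat_lit 0x10000c) (nat_lit 0) (p (nat_lit 0x200004) (nat_lit 0) (p (nat_lit 0x20000c) (nat_lit 0) (p (nat_lit 0x380c2) (nat_lit 1) (p (nat_lit 0x444aa) (nat_lit 7) (p (nat_lit 0xd1) (nat_lit 1) (p (nat_lit 0xc1) (nat_lit 0) (p (nat_lit 0x101) (nat_lit 1) (p (nat_lit 0x119) (nat_lit 0) (p (nat_lit 0xc9) (nat_lit 0) (p (nat_lit 0x89) (nat_lit 1) (p (nat_lit 0x41) (nat_lit 0) (p (nat_lit 0x8a898a08881a) (nat_lit 0) (p (nat_lit 0xa090988079a) (nat_lit 0) (p (nat_lit 0x88088907871a) (nat_lit 0) (p (nat_lit 0x7880887069a) (nat_lit 0) (p (nat_lit 0x80000800088806860a) (nat_lit 0) (p (nat_lit 0x80000800068786058a) (nat_lit 0) (p (nat_lit 0x8687058502) (nat_lit 0) (p (nat_lit 0x606850482)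 (nat_lit 0) (p (nat_lit 0x160014) (nat_lit 0) (p (nat_lit 0x68612) (nat_lit 0) (p (nat_lit 0x50592) (nat_lit 0) (p (nat_lit 0x40512) (nat_lit 0) (p (nat_lit 0x50312) (nat_lit 0) (p (nat_lit 0x38292) (nat_lit 0) (p (nat_lit 0x28212) (nat_lit 0) (p (nat_lit 0x38112) (nat_lit 0) (p (nat_lit 0x20092) (nat_lit 0) (p (nat_lit 0x10012) (nat_lit 0) pn))))))))))))))))))))))))))))))) :=
  Cl.node (nat_lit 0xc9) (nat_lit 2) (by decide +kernel) (ClAll.succ (ClAll.succ ClAll.zero n128) s475)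

def n173 : Cl (O (nat_lit 3)) (R (nat_lit 143633))
    (p (nat_lit 0x200004) (nat_lit 0) (p (nat_lit 0x10000c) (nat_lit 0) (p (nat_lit 0x20000c) (nat_lit 0) (p (nat_lit 0xb0014) (nat_lit 0) (p (nat_lit 0x380c2) (nat_lit 0) (p (nat_lit 0x444aa) (nat_lit 7) (p (nat_lit 0x111) (nat_lit 1) (p (nat_lit 0xd1) (nat_lit 1) (p (nat_lit 0xc1) (nat_lit 0) (p (nat_lit 0x119) (nat_lit 1) (p (nat_lit 0xc9) (nat_lit 0) (p (nat_lit 0x89) (nat_lit 1) (p (nat_lit 0x41) (nat_lit 0) (p (nat_lit 0x8a898a08881a) (nat_lit 0) (p (nat_lit 0xa090988079a) (nat_lit 0) (p (nat_lit 0x88088907871a) (nat_lit 0) (p (nat_lit 0x7880887069a) (nat_lit 0) (p (nat_lit 0x80000800088806860a) (nat_lit 0) (p (nat_lit 0x80000800068786058a) (nat_lit 0) (p (nat_lit 0x8687058502) (nat_lit 0) (p (nat_lit 0x606850482) (nat_lit 0) (p (nat_lit 0x160014) (nat_lit 0) (p (nat_lit 0x68612) (nat_lit 0) (p (nat_lit 0x50592) (nat_lit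 0) (p (nat_lit 0x40512) (nat_lit 0) (p (nat_lit 0x50312) (nat_lit 0) (p (nat_lit 0x38292) (nat_lit 0) (p (nat_lit 0x28212) (nat_lit 0) (p (nat_lit 0x38112) (nat_lit 0) (p (nat_lit 0x20092) (nat_lit 0) (p (nat_lit 0x10012) (nat_lit 0) pn))))))))))))))))))))))))))))))) :=
  Cl.node (nat_lit 0x100004) (nat_lit 2) (by decide +kernel) (ClAll.succ (ClAll.succ ClAll.zero n129) s496)

def n174 : Cl (O (nat_lit 3)) (R (nat_lit 143633))
    (p (nat_lit 0x10000c) (nat_lit 0) (p (nat_lit 0x1fc00c) (nat_lit 0) (p (nat_lit 0x1fc004) (nat_lit 0) (p (nat_lit 0xb0014) (nat_lit 1) (p (nat_lit 0x380c2) (nat_lit 0) (p (nat_lit 0x444aa) (nat_lit 7) (p (nat_lit 0x111) (nat_lit 1) (p (nat_lit 0xd1) (nat_lit 1) (p (nat_lit 0xc1) (nat_lit 0) (p (nat_lit 0x119) (nat_lit 1) (p (nat_lit 0xc9) (nat_lit 0) (p (nat_lit 0x89) (nat_lit 1) (p (nat_lit 0x41) (nat_lit 0) (p (nat_lit 0x8a898a08881a) (nat_lit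 0) (p (nat_lit 0xa090988079a) (nat_lit 0) (p (nat_lit 0x88088907871a) (nat_lit 0) (p (nat_lit 0x7880887069a) (nat_lit 0) (p (nat_lit 0x80000800088806860a) (nat_lit 0) (p (nat_lit 0x80000800068786058a) (nat_lit 0) (p (nat_lit 0x8687058502) (nat_lit 0) (p (nat_lit 0x606850482) (nat_lit 0) (p (nat_lit 0x160014) (nat_lit 0) (p (nat_lit 0x68612) (nat_lit 0) (p (nat_lit 0x50592) (nat_lit 0) (p (nat_lit 0x40512) (nat_lit 0) (p (nat_lit 0x50312) (nat_lit 0) (p (nat_lit 0x38292) (nat_lit 0) (p (nat_lit 0x28212) (nat_lit 0) (p (nat_lit 0x38112) (nat_lit 0) (p (nat_lit 0x20092) (nat_lit 0) (p (nat_lit 0x10012) (nat_lit 0) pn))))))))))))))))))))))))))))))) :=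
  Cl.node (nat_lit 0x100004) (nat_lit 2) (by decide +kernel) (ClAll.succ (ClAll.succ ClAll.zero n130) s503)

def n175 : Cl (O (nat_lit 3)) (R (nat_lit 143633))
    (p (nat_lit 0x100004) (nat_lit 0) (p (nat_lit 0x10000c) (nat_lit 0) (p (nat_lit 0x200004) (nat_lit 0) (p (nat_lit 0x20000c) (nat_lit 0) (p (nat_lit 0x380c2) (nat_lit 1) (p (nat_lit 0x444aa) (nat_lit 7) (p (nat_lit 0x111) (nat_lit 1) (p (nat_lit 0xd1) (nat_lit 1) (p (nat_lit 0xc1) (nat_lit 0) (p (nat_lit 0x119) (nat_lit 1) (p (nat_lit 0xc9) (nat_lit 0) (p (nat_lit 0x89) (nat_lit 1) (p (nat_lit 0x41) (nat_lit 0) (p (nat_lit 0x8a898a08881a) (nat_lit 0) (p (nat_lit 0xa090988079a) (nat_lit 0) (p (nat_lit 0x88088907871a) (nat_lit 0) (p (nat_lit 0x7880887069a) (nat_lit 0) (p (nat_lit 0x80000800088806860a) (nat_lit 0) (p (nat_lit 0x80000800068786058a) (nat_lit 0) (p (nat_lit 0x8687058502) (nat_lit 0) (p (nat_lit 0x606850482)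 (nat_lit 0) (p (nat_lit 0x160014) (nat_lit 0) (p (nat_lit 0x68612) (nat_lit 0) (p (nat_lit 0x50592) (nat_lit 0) (p (nat_lit 0x40512) (nat_lit 0) (p (nat_lit 0x50312) (nat_lit 0) (p (nat_lit 0x38292) (nat_lit 0) (p (nat_lit 0x28212) (nat_lit 0) (p (nat_lit 0x38112) (nat_lit 0) (p (nat_lit 0x20092) (nat_lit 0) (p (nat_lit 0x10012) (nat_lit 0) pn))))))))))))))))))))))))))))))) :=
  Cl.node (nat_lit 0x109) (nat_lit 2) (by decide +kernel) (ClAll.succ (ClAll.succ ClAll.zero n131) s509)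

def n176 : Cl (O (nat_lit 3)) (R (nat_lit 143633))
    (p (nat_lit 0x100004) (nat_lit 0) (p (nat_lit 0x10000c) (nat_lit 0) (p (nat_lit 0x200004) (nat_lit 0) (p (nat_lit 0x20000c) (nat_lit 0) (p (nat_lit 0x380c2) (nat_lit 1) (p (nat_lit 0x444aa) (nat_lit 7) (p (nat_lit 0x111) (nat_lit 1) (p (nat_lit 0x101) (nat_lit 0) (p (nat_lit 0xc1) (nat_lit 1) (p (nat_lit 0x119) (nat_lit 1) (p (nat_lit 0xc9) (nat_lit 0) (p (nat_lit 0x89) (nat_lit 1) (p (nat_lit 0x41) (nat_lit 0) (p (nat_lit 0x8a898a08881a) (nat_lit 0) (p (nat_lit 0xa090988079a) (nat_lit 0) (p (nat_lit 0x88088907871a) (nat_lit 0) (p (nat_lit 0x7880887069a) (nat_lit 0) (p (nat_lit 0x80000800088806860a) (nat_lit 0) (p (nat_lit 0x80000800068786058a) (nat_lit 0) (p (nat_lit 0x8687058502) (nat_lit 0) (p (nat_lit 0x606850482) (nat_lit 0) (p (nat_lit 0x160014) (nat_lit 0) (p (nat_lit 0x68612) (nat_lit 0) (p (nat_lit 0x50592)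 (nat_lit 0) (p (nat_lit 0x40512) (nat_lit 0) (p (nat_lit 0x50312) (nat_lit 0) (p (nat_lit 0x38292) (nat_lit 0) (p (nat_lit 0x28212) (nat_lit 0) (p (nat_lit 0x38112) (nat_lit 0) (p (nat_lit 0x20092) (nat_lit 0) (p (nat_lit 0x10012) (nat_lit 0) pn))))))))))))))))))))))))))))))) :=
  Cl.node (nat_lit 0x109) (nat_lit 2) (by decide +kernel) (ClAll.succ (ClAll.succ ClAll.zero n132) s556)

def n177 : Cl (O (nat_lit 3)) (R (nat_lit 143633))
    (p (nat_lit 0x1fc00c) (nat_lit 0) (p (nat_lit 0x1fc004) (nat_lit 0) (p (nat_lit 0xb0014) (nat_lit 1) (p (nat_lit 0x380c2) (nat_lit 1) (p (nat_lit 0x3c4aa) (nat_lit 7) (p (nat_lit 0x109) (nat_lit 1) (p (nat_lit 0x89) (nat_lit 1) (p (nat_lit 0xc9) (nat_lit 1) (p (nat_lit 0xc1) (nat_lit 0) (p (nat_lit 0x119) (nat_lit 1) (p (nat_lit 0xd1) (nat_lit 0) (p (nat_lit 0x81) (nat_lit 0) (p (nat_lit 0x41) (nat_lit 1) (p (nat_lit 0x8a898a08881a) (nat_lit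 0) (p (nat_lit 0xa090988079a) (nat_lit 0) (p (nat_lit 0x88088907871a) (nat_lit 0) (p (nat_lit 0x7880887069a) (nat_lit 0) (p (nat_lit 0x80000800088806860a) (nat_lit 0) (p (nat_lit 0x80000800068786058a) (nat_lit 0) (p (nat_lit 0x8687058502) (nat_lit 0) (p (nat_lit 0x606850482) (nat_lit 0) (p (nat_lit 0x160014) (nat_lit 0) (p (nat_lit 0x68612) (nat_lit 0) (p (nat_lit 0x50592) (nat_lit 0) (p (nat_lit 0x40512) (nat_lit 0) (p (nat_lit 0x50312) (nat_lit 0) (p (nat_lit 0x38292) (nat_lit 0) (p (nat_lit 0x28212) (nat_lit 0) (p (nat_lit 0x38112) (nat_lit 0) (p (nat_lit 0x20092) (nat_lit 0) (p (nat_lit 0x10012) (nat_lit 0) pn))))))))))))))))))))))))))))))) :=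
  Cl.node (nat_lit 0x100004) (nat_lit 2) (by decide +kernel) (ClAll.succ (ClAll.succ ClAll.zero n133) s741)

def n178 : Cl (O (nat_lit 3)) (R (nat_lit 143633))
    (p (nat_lit 0x1fc00c) (nat_lit 0) (p (nat_lit 0xb0014) (nat_lit 1) (p (nat_lit 0x200004) (nat_lit 0) (p (nat_lit 0x380c2) (nat_lit 1) (p (nat_lit 0x3c4aa) (nat_lit 10) (p (nat_lit 0x109) (nat_lit 1) (p (nat_lit 0x89) (nat_lit 1) (p (nat_lit 0xc9) (nat_lit 1) (p (nat_lit 0xc1) (nat_lit 0) (p (nat_lit 0x119) (nat_lit 1) (p (nat_lit 0xd1) (nat_lit 0) (p (nat_lit 0x81) (nat_lit 0) (p (nat_lit 0x41) (nat_lit 1) (p (nat_lit 0x8a898a08881a) (nat_lit 0) (p (nat_lit 0xa090988079a) (nat_lit 0) (p (nat_lit 0x88088907871a) (nat_lit 0) (p (nat_lit 0x7880887069a) (nat_lit 0) (p (nat_lit 0x80000800088806860a) (nat_lit 0) (p (nat_lit 0x80000800068786058a) (nat_lit 0) (p (nat_lit 0x8687058502) (nat_lit 0) (p (nat_lit 0x606850482)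 (nat_lit 0) (p (nat_lit 0x160014) (nat_lit 0) (p (nat_lit 0x68612) (nat_lit 0) (p (nat_lit 0x50592) (nat_lit 0) (p (nat_lit 0x40512) (nat_lit 0) (p (nat_lit 0x50312) (nat_lit 0) (p (nat_lit 0x38292) (nat_lit 0) (p (nat_lit 0x28212) (nat_lit 0) (p (nat_lit 0x38112) (nat_lit 0) (p (nat_lit 0x20092) (nat_lit 0) (p (nat_lit 0x10012) (nat_lit 0) pn))))))))))))))))))))))))))))))) :=
  Cl.node (nat_lit 0x100004) (nat_lit 2) (by decide +kernel) (ClAll.succ (ClAll.succ ClAll.zero n134) s753)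

def n179 : Cl (O (nat_lit 3)) (R (nat_lit 143633))
    (p (nat_lit 0x10000c) (nat_lit 0) (p (nat_lit 0x200004) (nat_lit 0) (p (nat_lit 0x20000c) (nat_lit 0) (p (nat_lit 0x380c2) (nat_lit 0) (p (nat_lit 0x3c4aa) (nat_lit 7) (p (nat_lit 0x109) (nat_lit 1) (p (nat_lit 0x89) (nat_lit 1) (p (nat_lit 0x101) (nat_lit 0) (p (nat_lit 0xc1) (nat_lit 1) (p (nat_lit 0x119) (nat_lit 1) (p (nat_lit 0xd1) (nat_lit 0) (p (nat_lit 0x81) (nat_lit 0) (p (nat_lit 0x41) (nat_lit 1) (p (nat_lit 0x8a898a08881a) (nat_lit 0) (p (nat_lit 0xa090988079a) (nat_lit 0) (p (nat_lit 0x88088907871a) (nat_lit 0) (p (nat_lit 0x7880887069a) (nat_lit 0) (p (nat_lit 0x80000800088806860a) (nat_lit 0) (p (nat_lit 0x80000800068786058a) (nat_lit 0) (p (nat_lit 0x8687058502) (nat_lit 0) (p (nat_lit 0x606850482) (nat_lit 0) (p (nat_lit 0x160014) (nat_lit 0) (p (nat_lit 0x68612) (nat_lit 0) (p (nat_lit 0x50592) (nat_lit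 0) (p (nat_lit 0x40512) (nat_lit 0) (p (nat_lit 0x50312) (nat_lit 0) (p (nat_lit 0x38292) (nat_lit 0) (p (nat_lit 0x28212) (nat_lit 0) (p (nat_lit 0x38112) (nat_lit 0) (p (nat_lit 0x20092) (nat_lit 0) (p (nat_lit 0x10012) (nat_lit 0) pn))))))))))))))))))))))))))))))) :=
  Cl.node (nat_lit 0x8000c) (nat_lit 2) (by decide +kernel) (ClAll.succ (ClAll.succ ClAll.zero n135) n136)

def n180 : Cl (O (nat_lit 3)) (R (nat_lit 143633))
    (p (nat_lit 0x10000c) (nat_lit 0) (p (nat_lit 0x20000c) (nat_lit 0) (p (nat_lit 0x200004) (nat_lit 0) (p (nat_lit 0x380c2) (nat_lit 1) (p (nat_lit 0x3c4aa) (nat_lit 7) (p (nat_lit 0x109) (nat_lit 1) (p (nat_lit 0x89) (nat_lit 1) (p (nat_lit 0x101) (nat_lit 0) (p (nat_lit 0xc1) (nat_lit 1) (p (nat_lit 0x119) (nat_lit 1) (p (nat_lit 0xd1) (nat_lit 0) (p (nat_lit 0x81) (nat_lit 0) (p (nat_lit 0x41) (nat_lit 1) (p (nat_lit 0x8a898a08881a) (nat_lit 0)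 (p (nat_lit 0xa090988079a) (nat_lit 0) (p (nat_lit 0x88088907871a) (nat_lit 0) (p (nat_lit 0x7880887069a) (nat_lit 0) (p (nat_lit 0x80000800088806860a) (nat_lit 0) (p (nat_lit 0x80000800068786058a) (nat_lit 0) (p (nat_lit 0x8687058502) (nat_lit 0) (p (nat_lit 0x606850482) (nat_lit 0) (p (nat_lit 0x160014) (nat_lit 0) (p (nat_lit 0x68612) (nat_lit 0) (p (nat_lit 0x50592) (nat_lit 0) (p (nat_lit 0x40512) (nat_lit 0) (p (nat_lit 0x50312) (nat_lit 0) (p (nat_lit 0x38292) (nat_lit 0) (p (nat_lit 0x28212) (nat_lit 0) (p (nat_lit 0x38112) (nat_lit 0) (p (nat_lit 0x20092) (nat_lit 0) (p (nat_lit 0x10012) (nat_lit 0) pn))))))))))))))))))))))))))))))) :=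
  Cl.node (nat_lit 0x8000c) (nat_lit 2) (by decide +kernel) (ClAll.succ (ClAll.succ ClAll.zero n137) n138)

def n181 : Cl (O (nat_lit 3)) (R (nat_lit 143633))
    (p (nat_lit 0x100004) (nat_lit 0) (p (nat_lit 0x200004) (nat_lit 0) (p (nat_lit 0xb0014) (nat_lit 0) (p (nat_lit 0x380c2) (nat_lit 0) (p (nat_lit 0x3c4aa) (nat_lit 10) (p (nat_lit 0x109) (nat_lit 1) (p (nat_lit 0x89) (nat_lit 1) (p (nat_lit 0x101) (nat_lit 0) (p (nat_lit 0xc1) (nat_lit 1) (p (nat_lit 0x119) (nat_lit 1) (p (nat_lit 0xd1) (nat_lit 0) (p (nat_lit 0x81) (nat_lit 0) (p (nat_lit 0x41) (nat_lit 1) (p (nat_lit 0x8a898a08881a) (nat_lit 0) (p (nat_lit 0xa090988079a) (nat_lit 0) (p (nat_lit 0x88088907871a) (nat_lit 0) (p (nat_lit 0x7880887069a) (nat_lit 0) (p (nat_lit 0x80000800088806860a) (nat_lit 0) (p (nat_lit 0x80000800068786058a) (nat_lit 0) (p (nat_lit 0x8687058502) (nat_lit 0) (p (nat_lit 0x606850482)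 (nat_lit 0) (p (nat_lit 0x160014) (nat_lit 0) (p (nat_lit 0x68612) (nat_lit 0) (p (nat_lit 0x50592) (nat_lit 0) (p (nat_lit 0x40512) (nat_lit 0) (p (nat_lit 0x50312) (nat_lit 0) (p (nat_lit 0x38292) (nat_lit 0) (p (nat_lit 0x28212) (nat_lit 0) (p (nat_lit 0x38112) (nat_lit 0) (p (nat_lit 0x20092) (nat_lit 0) (p (nat_lit 0x10012) (nat_lit 0) pn))))))))))))))))))))))))))))))) :=
  Cl.node (nat_lit 0x119) (nat_lit 2) (by decide +kernel) (ClAll.succ (ClAll.succ ClAll.zero s814) n139)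

def n182 : Cl (O (nat_lit 3)) (R (nat_lit 143633))
    (p (nat_lit 0x100004) (nat_lit 0) (p (nat_lit 0x200004) (nat_lit 0) (p (nat_lit 0xb0014) (nat_lit 0) (p (nat_lit 0x380c2) (nat_lit 1) (p (nat_lit 0x3c4aa) (nat_lit 10) (p (nat_lit 0x109) (nat_lit 1) (p (nat_lit 0x89) (nat_lit 1) (p (nat_lit 0x101) (nat_lit 0) (p (nat_lit 0xc1) (nat_lit 1) (p (nat_lit 0x119) (nat_lit 1) (p (nat_lit 0xd1) (nat_lit 0) (p (nat_lit 0x81) (nat_lit 0) (p (nat_lit 0x41) (nat_lit 1) (p (nat_lit 0x8a898a08881a) (nat_lit 0) (p (nat_lit 0xa090988079a) (nat_lit 0) (p (nat_lit 0x88088907871a) (nat_lit 0) (p (nat_lit 0x7880887069a) (nat_lit 0) (p (nat_lit 0x80000800088806860a) (nat_lit 0) (p (nat_lit 0x80000800068786058a) (nat_lit 0) (p (nat_lit 0x8687058502) (nat_lit 0) (p (nat_lit 0x606850482) (nat_lit 0) (p (nat_lit 0x160014) (nat_lit 0) (p (nat_lit 0x68612) (nat_lit 0) (p (nat_lit 0x50592) (nat_lit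 0) (p (nat_lit 0x40512) (nat_lit 0) (p (nat_lit 0x50312) (nat_lit 0) (p (nat_lit 0x38292) (nat_lit 0) (p (nat_lit 0x28212) (nat_lit 0) (p (nat_lit 0x38112) (nat_lit 0) (p (nat_lit 0x20092) (nat_lit 0) (p (nat_lit 0x10012) (nat_lit 0) pn))))))))))))))))))))))))))))))) :=
  Cl.node (nat_lit 0x119) (nat_lit 2) (by decide +kernel) (ClAll.succ (ClAll.succ ClAll.zero s830) s831)

def n183 : Cl (O (nat_lit 3)) (R (nat_lit 143633))
    (p (nat_lit 0x10000c) (nat_lit 0) (p (nat_lit 0x100004) (nat_lit 0) (p (nat_lit 0x20000c) (nat_lit 0) (p (nat_lit 0x200004) (nat_lit 0) (p (nat_lit 0x380c2) (nat_lit 0) (p (nat_lit 0x3c4aa) (nat_lit 7) (p (nat_lit 0x89) (nat_lit 1) (p (nat_lit 0x101) (nat_lit 1) (p (nat_lit 0xc1) (nat_lit 1) (p (nat_lit 0x119) (nat_lit 1) (p (nat_lit 0xd1) (nat_lit 0) (p (nat_lit 0x81) (nat_lit 0) (p (nat_lit 0x41) (nat_lit 1) (p (nat_lit 0x8a898a08881a) (nat_lit 0)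 (p (nat_lit 0xa090988079a) (nat_lit 0) (p (nat_lit 0x88088907871a) (nat_lit 0) (p (nat_lit 0x7880887069a) (nat_lit 0) (p (nat_lit 0x80000800088806860a) (nat_lit 0) (p (nat_lit 0x80000800068786058a) (nat_lit 0) (p (nat_lit 0x8687058502) (nat_lit 0) (p (nat_lit 0x606850482) (nat_lit 0) (p (nat_lit 0x160014) (nat_lit 0) (p (nat_lit 0x68612) (nat_lit 0) (p (nat_lit 0x50592) (nat_lit 0) (p (nat_lit 0x40512) (nat_lit 0) (p (nat_lit 0x50312) (nat_lit 0) (p (nat_lit 0x38292) (nat_lit 0) (p (nat_lit 0x28212) (nat_lit 0) (p (nat_lit 0x38112) (nat_lit 0) (p (nat_lit 0x20092) (nat_lit 0) (p (nat_lit 0x10012) (nat_lit 0) pn))))))))))))))))))))))))))))))) :=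
  Cl.node (nat_lit 0x101) (nat_lit 2) (by decide +kernel) (ClAll.succ (ClAll.succ ClAll.zero s844) s845)

def n184 : Cl (O (nat_lit 3)) (R (nat_lit 143633))
    (p (nat_lit 0x10000c) (nat_lit 0) (p (nat_lit 0x100004) (nat_lit 0) (p (nat_lit 0x20000c) (nat_lit 0) (p (nat_lit 0x200004) (nat_lit 0) (p (nat_lit 0x380c2) (nat_lit 1) (p (nat_lit 0x3c4aa) (nat_lit 7) (p (nat_lit 0x89) (nat_lit 1) (p (nat_lit 0x101) (nat_lit 1) (p (nat_lit 0xc1) (nat_lit 1) (p (nat_lit 0x119) (nat_lit 1) (p (nat_lit 0xd1) (nat_lit 0) (p (nat_lit 0x81) (nat_lit 0) (p (nat_lit 0x41) (nat_lit 1) (p (nat_lit 0x8a898a08881a) (nat_lit 0) (p (nat_lit 0xa090988079a) (nat_lit 0) (p (nat_lit 0x88088907871a) (nat_lit 0) (p (nat_lit 0x7880887069a) (nat_lit 0) (p (nat_lit 0x80000800088806860a) (nat_lit 0) (p (nat_lit 0x80000800068786058a) (nat_lit 0) (p (nat_lit 0x8687058502) (nat_lit 0) (p (nat_lit 0x606850482)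 (nat_lit 0) (p (nat_lit 0x160014) (nat_lit 0) (p (nat_lit 0x68612) (nat_lit 0) (p (nat_lit 0x50592) (nat_lit 0) (p (nat_lit 0x40512) (nat_lit 0) (p (nat_lit 0x50312) (nat_lit 0) (p (nat_lit 0x38292) (nat_lit 0) (p (nat_lit 0x28212) (nat_lit 0) (p (nat_lit 0x38112) (nat_lit 0) (p (nat_lit 0x20092) (nat_lit 0) (p (nat_lit 0x10012) (nat_lit 0) pn))))))))))))))))))))))))))))))) :=
  Cl.node (nat_lit 0x41) (nat_lit 2) (by decide +kernel) (ClAll.succ (ClAll.succ ClAll.zero s850) s851)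

def n185 : Cl (O (nat_lit 3)) (R (nat_lit 143633))
    (p (nat_lit 0x101) (nat_lit 0) (p (nat_lit 0x100004) (nat_lit 0) (p (nat_lit 0xb0014) (nat_lit 0) (p (nat_lit 0x200004) (nat_lit 0) (p (nat_lit 0x380c2) (nat_lit 1) (p (nat_lit 0x3c4aa) (nat_lit 10) (p (nat_lit 0x89) (nat_lit 1) (p (nat_lit 0x101) (nat_lit 1) (p (nat_lit 0xc1) (nat_lit 1) (p (nat_lit 0x119) (nat_lit 1) (p (nat_lit 0xd1) (nat_lit 0) (p (nat_lit 0x81) (nat_lit 0) (p (nat_lit 0x41) (nat_lit 1) (p (nat_lit 0x8a898a08881a) (nat_lit 0) (p (nat_lit 0xa090988079a) (nat_lit 0) (p (nat_lit 0x88088907871a) (nat_lit 0) (p (nat_lit 0x7880887069a) (nat_lit 0) (p (nat_lit 0x80000800088806860a) (nat_lit 0) (p (nat_lit 0x80000800068786058a) (nat_lit 0) (p (nat_lit 0x8687058502) (nat_lit 0) (p (nat_lit 0x606850482) (nat_lit 0) (p (nat_lit 0x160014) (nat_lit 0) (p (nat_lit 0x68612) (nat_lit 0) (p (nat_lit 0x50592) (nat_lit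 0) (p (nat_lit 0x40512) (nat_lit 0) (p (nat_lit 0x50312) (nat_lit 0) (p (nat_lit 0x38292) (nat_lit 0) (p (nat_lit 0x28212) (nat_lit 0) (p (nat_lit 0x38112) (nat_lit 0) (p (nat_lit 0x20092) (nat_lit 0) (p (nat_lit 0x10012) (nat_lit 0) pn))))))))))))))))))))))))))))))) :=
  Cl.node (nat_lit 0xc1) (nat_lit 2) (by decide +kernel) (ClAll.succ (ClAll.succ ClAll.zero s859) s860)

def n186 : Cl (O (nat_lit 3)) (R (nat_lit 143633))
    (p (nat_lit 0x10000c) (nat_lit 0) (p (nat_lit 0x20000c) (nat_lit 0) (p (nat_lit 0x200004) (nat_lit 0) (p (nat_lit 0x380c2) (nat_lit 0) (p (nat_lit 0x3c4aa) (nat_lit 7) (p (nat_lit 0xd1) (nat_lit 1) (p (nat_lit 0x111) (nat_lit 1) (p (nat_lit 0x109) (nat_lit 0) (p (nat_lit 0x101) (nat_lit 0) (p (nat_lit 0x119) (nat_lit 0) (p (nat_lit 0xc1) (nat_lit 0) (p (nat_lit 0x81) (nat_lit 1) (p (nat_lit 0x41) (nat_lit 1) (p (nat_lit 0x8a898a08881a) (nat_lit 0) (p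 (nat_lit 0xa090988079a) (nat_lit 0) (p (nat_lit 0x88088907871a) (nat_lit 0) (p (nat_lit 0x7880887069a) (nat_lit 0) (p (nat_lit 0x80000800088806860a) (nat_lit 0) (p (nat_lit 0x80000800068786058a) (nat_lit 0) (p (nat_lit 0x8687058502) (nat_lit 0) (p (nat_lit 0x606850482) (nat_lit 0) (p (nat_lit 0x160014) (nat_lit 0) (p (nat_lit 0x68612) (nat_lit 0) (p (nat_lit 0x50592) (nat_lit 0) (p (nat_lit 0x40512) (nat_lit 0) (p (nat_lit 0x50312) (nat_lit 0) (p (nat_lit 0x38292) (nat_lit 0) (p (nat_lit 0x28212) (nat_lit 0) (p (nat_lit 0x38112) (nat_lit 0) (p (nat_lit 0x20092) (nat_lit 0) (p (nat_lit 0x10012) (nat_lit 0) pn))))))))))))))))))))))))))))))) :=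
  Cl.node (nat_lit 0x100004) (nat_lit 2) (by decide +kernel) (ClAll.succ (ClAll.succ ClAll.zero n140) s947)

def n187 : Cl (O (nat_lit 3)) (R (nat_lit 143633))
    (p (nat_lit 0x10000c) (nat_lit 1) (p (nat_lit 0x20000c) (nat_lit 0) (p (nat_lit 0x200004) (nat_lit 0) (p (nat_lit 0x380c2) (nat_lit 0) (p (nat_lit 0x3c4aa) (nat_lit 7) (p (nat_lit 0xd1) (nat_lit 1) (p (nat_lit 0x111) (nat_lit 1) (p (nat_lit 0x109) (nat_lit 0) (p (nat_lit 0x101) (nat_lit 0) (p (nat_lit 0x119) (nat_lit 0) (p (nat_lit 0xc1) (nat_lit 0) (p (nat_lit 0x81) (nat_lit 1) (p (nat_lit 0x41) (nat_lit 1) (p (nat_lit 0x8a898a08881a) (nat_lit 0) (p (nat_lit 0xa090988079a) (nat_lit 0) (p (nat_lit 0x88088907871a) (nat_lit 0) (p (nat_lit 0x7880887069a) (nat_lit 0) (p (nat_lit 0x80000800088806860a) (nat_lit 0) (p (nat_lit 0x80000800068786058a) (nat_lit 0) (p (nat_lit 0x8687058502) (nat_lit 0) (p (nat_lit 0x606850482)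 (nat_lit 0) (p (nat_lit 0x160014) (nat_lit 0) (p (nat_lit 0x68612) (nat_lit 0) (p (nat_lit 0x50592) (nat_lit 0) (p (nat_lit 0x40512) (nat_lit 0) (p (nat_lit 0x50312) (nat_lit 0) (p (nat_lit 0x38292) (nat_lit 0) (p (nat_lit 0x28212) (nat_lit 0) (p (nat_lit 0x38112) (nat_lit 0) (p (nat_lit 0x20092) (nat_lit 0) (p (nat_lit 0x10012) (nat_lit 0) pn))))))))))))))))))))))))))))))) :=
  Cl.node (nat_lit 0x108014) (nat_lit 2) (by decide +kernel) (ClAll.succ (ClAll.succ ClAll.zero n141) s950)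

def n188 : Cl (O (nat_lit 3)) (R (nat_lit 143633))
    (p (nat_lit 0x10000c) (nat_lit 0) (p (nat_lit 0x20000c) (nat_lit 0) (p (nat_lit 0x200004) (nat_lit 0) (p (nat_lit 0x380c2) (nat_lit 1) (p (nat_lit 0x3c4aa) (nat_lit 7) (p (nat_lit 0xd1) (nat_lit 1) (p (nat_lit 0x111) (nat_lit 1) (p (nat_lit 0x109) (nat_lit 0) (p (nat_lit 0x101) (nat_lit 0) (p (nat_lit 0x119) (nat_lit 0) (p (nat_lit 0xc1) (nat_lit 0) (p (nat_lit 0x81) (nat_lit 1) (p (nat_lit 0x41) (nat_lit 1) (p (nat_lit 0x8a898a08881a) (nat_lit 0) (p (nat_lit 0xa090988079a) (nat_lit 0) (p (nat_lit 0x88088907871a) (nat_lit 0) (p (nat_lit 0x7880887069a) (nat_lit 0) (p (nat_lit 0x80000800088806860a) (nat_lit 0) (p (nat_lit 0x80000800068786058a) (nat_lit 0) (p (nat_lit 0x8687058502) (nat_lit 0) (p (nat_lit 0x606850482) (nat_lit 0) (p (nat_lit 0x160014) (nat_lit 0) (p (nat_lit 0x68612) (nat_lit 0) (p (nat_lit 0x50592) (nat_lit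 0) (p (nat_lit 0x40512) (nat_lit 0) (p (nat_lit 0x50312) (nat_lit 0) (p (nat_lit 0x38292) (nat_lit 0) (p (nat_lit 0x28212) (nat_lit 0) (p (nat_lit 0x38112) (nat_lit 0) (p (nat_lit 0x20092) (nat_lit 0) (p (nat_lit 0x10012) (nat_lit 0) pn))))))))))))))))))))))))))))))) :=
  Cl.node (nat_lit 0xc9) (nat_lit 2) (by decide +kernel) (ClAll.succ (ClAll.succ ClAll.zero n142) n143)

def n189 : Cl (O (nat_lit 3)) (R (nat_lit 143633))
    (p (nat_lit 0x10000c) (nat_lit 1) (p (nat_lit 0x20000c) (nat_lit 0) (p (nat_lit 0x200004) (nat_lit 0) (p (nat_lit 0x380c2) (nat_lit 1) (p (nat_lit 0x3c4aa) (nat_lit 7) (p (nat_lit 0xd1) (nat_lit 1) (p (nat_lit 0x111) (nat_lit 1) (p (nat_lit 0x109) (nat_lit 0) (p (nat_lit 0x101) (nat_lit 0) (p (nat_lit 0x119) (nat_lit 0) (p (nat_lit 0xc1) (nat_lit 0) (p (nat_lit 0x81) (nat_lit 1) (p (nat_lit 0x41) (nat_lit 1) (p (nat_lit 0x8a898a08881a) (nat_lit 0) (p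 (nat_lit 0xa090988079a) (nat_lit 0) (p (nat_lit 0x88088907871a) (nat_lit 0) (p (nat_lit 0x7880887069a) (nat_lit 0) (p (nat_lit 0x80000800088806860a) (nat_lit 0) (p (nat_lit 0x80000800068786058a) (nat_lit 0) (p (nat_lit 0x8687058502) (nat_lit 0) (p (nat_lit 0x606850482) (nat_lit 0) (p (nat_lit 0x160014) (nat_lit 0) (p (nat_lit 0x68612) (nat_lit 0) (p (nat_lit 0x50592) (nat_lit 0) (p (nat_lit 0x40512) (nat_lit 0) (p (nat_lit 0x50312) (nat_lit 0) (p (nat_lit 0x38292) (nat_lit 0) (p (nat_lit 0x28212) (nat_lit 0) (p (nat_lit 0x38112) (nat_lit 0) (p (nat_lit 0x20092) (nat_lit 0) (p (nat_lit 0x10012) (nat_lit 0) pn))))))))))))))))))))))))))))))) :=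
  Cl.node (nat_lit 0x108014) (nat_lit 2) (by decide +kernel) (ClAll.succ (ClAll.succ ClAll.zero n144) s977)

def n190 : Cl (O (nat_lit 3)) (R (nat_lit 143633))
    (p (nat_lit 0x10000c) (nat_lit 0) (p (nat_lit 0x20000c) (nat_lit 0) (p (nat_lit 0x200004) (nat_lit 0) (p (nat_lit 0x380c2) (nat_lit 1) (p (nat_lit 0x3c4aa) (nat_lit 7) (p (nat_lit 0xd1) (nat_lit 1) (p (nat_lit 0xc9) (nat_lit 0) (p (nat_lit 0x109) (nat_lit 1) (p (nat_lit 0x101) (nat_lit 0) (p (nat_lit 0x119) (nat_lit 0) (p (nat_lit 0xc1) (nat_lit 0) (p (nat_lit 0x81) (nat_lit 1) (p (nat_lit 0x41) (nat_lit 1) (p (nat_lit 0x8a898a08881a) (nat_lit 0) (p (nat_lit 0xa090988079a) (nat_lit 0) (p (nat_lit 0x88088907871a) (nat_lit 0) (p (nat_lit 0x7880887069a) (nat_lit 0) (p (nat_lit 0x80000800088806860a) (nat_lit 0) (p (nat_lit 0x80000800068786058a) (nat_lit 0) (p (nat_lit 0x8687058502) (nat_lit 0) (p (nat_lit 0x606850482)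 (nat_lit 0) (p (nat_lit 0x160014) (nat_lit 0) (p (nat_lit 0x68612) (nat_lit 0) (p (nat_lit 0x50592) (nat_lit 0) (p (nat_lit 0x40512) (nat_lit 0) (p (nat_lit 0x50312) (nat_lit 0) (p (nat_lit 0x38292) (nat_lit 0) (p (nat_lit 0x28212) (nat_lit 0) (p (nat_lit 0x38112) (nat_lit 0) (p (nat_lit 0x20092) (nat_lit 0) (p (nat_lit 0x10012) (nat_lit 0) pn))))))))))))))))))))))))))))))) :=
  Cl.node (nat_lit 0x119) (nat_lit 2) (by decide +kernel) (ClAll.succ (ClAll.succ ClAll.zero s996) n145)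

def n191 : Cl (O (nat_lit 3)) (R (nat_lit 143633))
    (p (nat_lit 0x100004) (nat_lit 0) (p (nat_lit 0x10000c) (nat_lit 0) (p (nat_lit 0x200004) (nat_lit 0) (p (nat_lit 0x20000c) (nat_lit 0) (p (nat_lit 0x380c2) (nat_lit 0) (p (nat_lit 0x3c4aa) (nat_lit 7) (p (nat_lit 0xd1) (nat_lit 1) (p (nat_lit 0xc9) (nat_lit 0) (p (nat_lit 0x101) (nat_lit 1) (p (nat_lit 0x119) (nat_lit 0) (p (nat_lit 0xc1) (nat_lit 0) (p (nat_lit 0x81) (nat_lit 1) (p (nat_lit 0x41) (nat_lit 1) (p (nat_lit 0x8a898a08881a) (nat_lit 0) (p (nat_lit 0xa090988079a) (nat_lit 0) (p (nat_lit 0x88088907871a) (nat_lit 0) (p (nat_lit 0x7880887069a) (nat_lit 0) (p (nat_lit 0x80000800088806860a) (nat_lit 0) (p (nat_lit 0x80000800068786058a) (nat_lit 0) (p (nat_lit 0x8687058502) (nat_lit 0) (p (nat_lit 0x606850482) (nat_lit 0) (p (nat_lit 0x160014) (nat_lit 0) (p (nat_lit 0x68612) (nat_lit 0) (p (nat_lit 0x50592) (nat_lit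 0) (p (nat_lit 0x40512) (nat_lit 0) (p (nat_lit 0x50312) (nat_lit 0) (p (nat_lit 0x38292) (nat_lit 0) (p (nat_lit 0x28212) (nat_lit 0) (p (nat_lit 0x38112) (nat_lit 0) (p (nat_lit 0x20092) (nat_lit 0) (p (nat_lit 0x10012) (nat_lit 0) pn))))))))))))))))))))))))))))))) :=
  Cl.node (nat_lit 0xc1) (nat_lit 2) (by decide +kernel) (ClAll.succ (ClAll.succ ClAll.zero n146) s1041)

def n192 : Cl (O (nat_lit 3)) (R (nat_lit 143633))
    (p (nat_lit 0x100004) (nat_lit 0) (p (nat_lit 0x10000c) (nat_lit 0) (p (nat_lit 0x20000c) (nat_lit 0) (p (nat_lit 0x200004) (nat_lit 0) (p (nat_lit 0x380c2) (nat_lit 1) (p (nat_lit 0x3c4aa) (nat_lit 7) (p (nat_lit 0xd1) (nat_lit 1) (p (nat_lit 0xc9) (nat_lit 0) (p (nat_lit 0x101) (nat_lit 1) (p (nat_lit 0x119) (nat_lit 0) (p (nat_lit 0xc1) (nat_lit 0) (p (nat_lit 0x81) (nat_lit 1) (p (nat_lit 0x41) (nat_lit 1) (p (nat_lit 0x8a898a08881a) (nat_lit 0)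 (p (nat_lit 0xa090988079a) (nat_lit 0) (p (nat_lit 0x88088907871a) (nat_lit 0) (p (nat_lit 0x7880887069a) (nat_lit 0) (p (nat_lit 0x80000800088806860a) (nat_lit 0) (p (nat_lit 0x80000800068786058a) (nat_lit 0) (p (nat_lit 0x8687058502) (nat_lit 0) (p (nat_lit 0x606850482) (nat_lit 0) (p (nat_lit 0x160014) (nat_lit 0) (p (nat_lit 0x68612) (nat_lit 0) (p (nat_lit 0x50592) (nat_lit 0) (p (nat_lit 0x40512) (nat_lit 0) (p (nat_lit 0x50312) (nat_lit 0) (p (nat_lit 0x38292) (nat_lit 0) (p (nat_lit 0x28212) (nat_lit 0) (p (nat_lit 0x38112) (nat_lit 0) (p (nat_lit 0x20092) (nat_lit 0) (p (nat_lit 0x10012) (nat_lit 0) pn))))))))))))))))))))))))))))))) :=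
  Cl.node (nat_lit 0xc1) (nat_lit 2) (by decide +kernel) (ClAll.succ (ClAll.succ ClAll.zero n147) s1058)

def n193 : Cl (O (nat_lit 3)) (R (nat_lit 143633))
    (p (nat_lit 0x10000c) (nat_lit 0) (p (nat_lit 0x100004) (nat_lit 0) (p (nat_lit 0x20000c) (nat_lit 0) (p (nat_lit 0x200004) (nat_lit 0) (p (nat_lit 0x380c2) (nat_lit 0) (p (nat_lit 0x3c4aa) (nat_lit 7) (p (nat_lit 0x111) (nat_lit 1) (p (nat_lit 0xd1) (nat_lit 1) (p (nat_lit 0xc9) (nat_lit 0) (p (nat_lit 0x119) (nat_lit 1) (p (nat_lit 0xc1) (nat_lit 0) (p (nat_lit 0x81) (nat_lit 1) (p (nat_lit 0x41) (nat_lit 1) (p (nat_lit 0x8a898a08881a) (nat_lit 0) (p (nat_lit 0xa090988079a) (nat_lit 0) (p (nat_lit 0x88088907871a) (nat_lit 0) (p (nat_lit 0x7880887069a) (nat_lit 0) (p (nat_lit 0x80000800088806860a) (nat_lit 0) (p (nat_lit 0x80000800068786058a) (nat_lit 0) (p (nat_lit 0x8687058502) (nat_lit 0) (p (nat_lit 0x606850482)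 (nat_lit 0) (p (nat_lit 0x160014) (nat_lit 0) (p (nat_lit 0x68612) (nat_lit 0) (p (nat_lit 0x50592) (nat_lit 0) (p (nat_lit 0x40512) (nat_lit 0) (p (nat_lit 0x50312) (nat_lit 0) (p (nat_lit 0x38292) (nat_lit 0) (p (nat_lit 0x28212) (nat_lit 0) (p (nat_lit 0x38112) (nat_lit 0) (p (nat_lit 0x20092) (nat_lit 0) (p (nat_lit 0x10012) (nat_lit 0) pn))))))))))))))))))))))))))))))) :=
  Cl.node (nat_lit 0x109) (nat_lit 2) (by decide +kernel) (ClAll.succ (ClAll.succ ClAll.zero s1077) s1078)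

def n194 : Cl (O (nat_lit 3)) (R (nat_lit 143633))
    (p (nat_lit 0x101) (nat_lit 0) (p (nat_lit 0x100004) (nat_lit 0) (p (nat_lit 0x200004) (nat_lit 0) (p (nat_lit 0xb0014) (nat_lit 0) (p (nat_lit 0x380c2) (nat_lit 1) (p (nat_lit 0x3c4aa) (nat_lit 7) (p (nat_lit 0x111) (nat_lit 1) (p (nat_lit 0xd1) (nat_lit 1) (p (nat_lit 0xc9) (nat_lit 0) (p (nat_lit 0x119) (nat_lit 1) (p (nat_lit 0xc1) (nat_lit 0) (p (nat_lit 0x81) (nat_lit 1) (p (nat_lit 0x41) (nat_lit 1) (p (nat_lit 0x8a898a08881a) (nat_lit 0) (p (nat_lit 0xa090988079a) (nat_lit 0) (p (nat_lit 0x88088907871a) (nat_lit 0) (p (nat_lit 0x7880887069a) (nat_lit 0) (p (nat_lit 0x80000800088806860a) (nat_lit 0) (p (nat_lit 0x80000800068786058a) (nat_lit 0) (p (nat_lit 0x8687058502) (nat_lit 0) (p (nat_lit 0x606850482) (nat_lit 0) (p (nat_lit 0x160014) (nat_lit 0) (p (nat_lit 0x68612) (nat_lit 0) (p (nat_lit 0x50592) (nat_lit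 0) (p (nat_lit 0x40512) (nat_lit 0) (p (nat_lit 0x50312) (nat_lit 0) (p (nat_lit 0x38292) (nat_lit 0) (p (nat_lit 0x28212) (nat_lit 0) (p (nat_lit 0x38112) (nat_lit 0) (p (nat_lit 0x20092) (nat_lit 0) (p (nat_lit 0x10012) (nat_lit 0) pn))))))))))))))))))))))))))))))) :=
  Cl.node (nat_lit 0x20000c) (nat_lit 2) (by decide +kernel) (ClAll.succ (ClAll.succ ClAll.zero n148) s1085)

def n195 : Cl (O (nat_lit 3)) (R (nat_lit 143633))
    (p (nat_lit 0x100004) (nat_lit 0) (p (nat_lit 0x1fc00c) (nat_lit 0) (p (nat_lit 0x1fc004) (nat_lit 0) (p (nat_lit 0xb0014) (nat_lit 1) (p (nat_lit 0x380c2) (nat_lit 1) (p (nat_lit 0x3c4aa) (nat_lit 7) (p (nat_lit 0x111) (nat_lit 1) (p (nat_lit 0xd1) (nat_lit 1) (p (nat_lit 0xc9) (nat_lit 0) (p (nat_lit 0x119) (nat_lit 1) (p (nat_lit 0xc1) (nat_lit 0) (p (nat_lit 0x81) (nat_lit 1) (p (nat_lit 0x41) (nat_lit 1) (p (nat_lit 0x8a898a08881a) (nat_lit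 0) (p (nat_lit 0xa090988079a) (nat_lit 0) (p (nat_lit 0x88088907871a) (nat_lit 0) (p (nat_lit 0x7880887069a) (nat_lit 0) (p (nat_lit 0x80000800088806860a) (nat_lit 0) (p (nat_lit 0x80000800068786058a) (nat_lit 0) (p (nat_lit 0x8687058502) (nat_lit 0) (p (nat_lit 0x606850482) (nat_lit 0) (p (nat_lit 0x160014) (nat_lit 0) (p (nat_lit 0x68612) (nat_lit 0) (p (nat_lit 0x50592) (nat_lit 0) (p (nat_lit 0x40512) (nat_lit 0) (p (nat_lit 0x50312) (nat_lit 0) (p (nat_lit 0x38292) (nat_lit 0) (p (nat_lit 0x28212) (nat_lit 0) (p (nat_lit 0x38112) (nat_lit 0) (p (nat_lit 0x20092) (nat_lit 0) (p (nat_lit 0x10012) (nat_lit 0) pn))))))))))))))))))))))))))))))) :=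
  Cl.node (nat_lit 0x10000c) (nat_lit 2) (by decide +kernel) (ClAll.succ (ClAll.succ ClAll.zero n149) s1091)

def n196 : Cl (O (nat_lit 3)) (R (nat_lit 143633))
    (p (nat_lit 0x10000c) (nat_lit 0) (p (nat_lit 0x100004) (nat_lit 0) (p (nat_lit 0x200004) (nat_lit 0) (p (nat_lit 0x20000c) (nat_lit 0) (p (nat_lit 0x380c2) (nat_lit 0) (p (nat_lit 0x3c4aa) (nat_lit 7) (p (nat_lit 0x111) (nat_lit 1) (p (nat_lit 0x109) (nat_lit 0) (p (nat_lit 0xc9) (nat_lit 1) (p (nat_lit 0x119) (nat_lit 1) (p (nat_lit 0xc1) (nat_lit 0) (p (nat_lit 0x81) (nat_lit 1) (p (nat_lit 0x41) (nat_lit 1) (p (nat_lit 0x8a898a08881a) (nat_lit 0) (p (nat_lit 0xa090988079a) (nat_lit 0) (p (nat_lit 0x88088907871a) (nat_lit 0) (p (nat_lit 0x7880887069a) (nat_lit 0) (p (nat_lit 0x80000800088806860a) (nat_lit 0) (p (nat_lit 0x80000800068786058a) (nat_lit 0) (p (nat_lit 0x8687058502) (nat_lit 0) (p (nat_lit 0x606850482)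 (nat_lit 0) (p (nat_lit 0x160014) (nat_lit 0) (p (nat_lit 0x68612) (nat_lit 0) (p (nat_lit 0x50592) (nat_lit 0) (p (nat_lit 0x40512) (nat_lit 0) (p (nat_lit 0x50312) (nat_lit 0) (p (nat_lit 0x38292) (nat_lit 0) (p (nat_lit 0x28212) (nat_lit 0) (p (nat_lit 0x38112) (nat_lit 0) (p (nat_lit 0x20092) (nat_lit 0) (p (nat_lit 0x10012) (nat_lit 0) pn))))))))))))))))))))))))))))))) :=
  Cl.node (nat_lit 0x101) (nat_lit 2) (by decide +kernel) (ClAll.succ (ClAll.succ ClAll.zero n150) s1120)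

def n197 : Cl (O (nat_lit 3)) (R (nat_lit 143633))
    (p (nat_lit 0x101) (nat_lit 0) (p (nat_lit 0x100004) (nat_lit 0) (p (nat_lit 0x200004) (nat_lit 0) (p (nat_lit 0xb0014) (nat_lit 0) (p (nat_lit 0x380c2) (nat_lit 1) (p (nat_lit 0x3c4aa) (nat_lit 7) (p (nat_lit 0x111) (nat_lit 1) (p (nat_lit 0x109) (nat_lit 0) (p (nat_lit 0xc9) (nat_lit 1) (p (nat_lit 0x119) (nat_lit 1) (p (nat_lit 0xc1) (nat_lit 0) (p (nat_lit 0x81) (nat_lit 1) (p (nat_lit 0x41) (nat_lit 1) (p (nat_lit 0x8a898a08881a) (nat_lit 0) (p (nat_lit 0xa090988079a) (nat_lit 0) (p (nat_lit 0x88088907871a) (nat_lit 0) (p (nat_lit 0x7880887069a) (nat_lit 0) (p (nat_lit 0x80000800088806860a) (nat_lit 0) (p (nat_lit 0x80000800068786058a) (nat_lit 0) (p (nat_lit 0x8687058502) (nat_lit 0) (p (nat_lit 0x606850482) (nat_lit 0) (p (nat_lit 0x160014) (nat_lit 0) (p (nat_lit 0x68612) (nat_lit 0) (p (nat_lit 0x50592) (nat_lit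 0) (p (nat_lit 0x40512) (nat_lit 0) (p (nat_lit 0x50312) (nat_lit 0) (p (nat_lit 0x38292) (nat_lit 0) (p (nat_lit 0x28212) (nat_lit 0) (p (nat_lit 0x38112) (nat_lit 0) (p (nat_lit 0x20092) (nat_lit 0) (p (nat_lit 0x10012) (nat_lit 0) pn))))))))))))))))))))))))))))))) :=
  Cl.node (nat_lit 0x20000c) (nat_lit 2) (by decide +kernel) (ClAll.succ (ClAll.succ ClAll.zero s1125) s1126)

def n198 : Cl (O (nat_lit 3)) (R (nat_lit 143633))
    (p (nat_lit 0x100004) (nat_lit 0) (p (nat_lit 0x1fc00c) (nat_lit 0) (p (nat_lit 0x1fc004) (nat_lit 0) (p (nat_lit 0xb0014) (nat_lit 1) (p (nat_lit 0x380c2) (nat_lit 1) (p (nat_lit 0x3c4aa) (nat_lit 7) (p (nat_lit 0x111) (nat_lit 1) (p (nat_lit 0x109) (nat_lit 0) (p (nat_lit 0xc9) (nat_lit 1) (p (nat_lit 0x119) (nat_lit 1) (p (nat_lit 0xc1) (nat_lit 0) (p (nat_lit 0x81) (nat_lit 1) (p (nat_lit 0x41) (nat_lit 1) (p (nat_lit 0x8a898a08881a) (nat_lit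 0) (p (nat_lit 0xa090988079a) (nat_lit 0) (p (nat_lit 0x88088907871a) (nat_lit 0) (p (nat_lit 0x7880887069a) (nat_lit 0) (p (nat_lit 0x80000800088806860a) (nat_lit 0) (p (nat_lit 0x80000800068786058a) (nat_lit 0) (p (nat_lit 0x8687058502) (nat_lit 0) (p (nat_lit 0x606850482) (nat_lit 0) (p (nat_lit 0x160014) (nat_lit 0) (p (nat_lit 0x68612) (nat_lit 0) (p (nat_lit 0x50592) (nat_lit 0) (p (nat_lit 0x40512) (nat_lit 0) (p (nat_lit 0x50312) (nat_lit 0) (p (nat_lit 0x38292) (nat_lit 0) (p (nat_lit 0x28212) (nat_lit 0) (p (nat_lit 0x38112) (nat_lit 0) (p (nat_lit 0x20092) (nat_lit 0) (p (nat_lit 0x10012) (nat_lit 0) pn))))))))))))))))))))))))))))))) :=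
  Cl.node (nat_lit 0x10000c) (nat_lit 2) (by decide +kernel) (ClAll.succ (ClAll.succ ClAll.zero n151) s1133)

def n199 : Cl (O (nat_lit 3)) (R (nat_lit 143633))
    (p (nat_lit 0x20000c) (nat_lit 0) (p (nat_lit 0xb0014) (nat_lit 0) (p (nat_lit 0x380c2) (nat_lit 0) (p (nat_lit 0x444aa) (nat_lit 7) (p (nat_lit 0x81) (nat_lit 1) (p (nat_lit 0xc9) (nat_lit 1) (p (nat_lit 0x109) (nat_lit 1) (p (nat_lit 0x101) (nat_lit 0) (p (nat_lit 0x119) (nat_lit 0) (p (nat_lit 0xd1) (nat_lit 0) (p (nat_lit 0x89) (nat_lit 0) (p (nat_lit 0x41) (nat_lit 0) (p (nat_lit 0x8a898a08881a) (nat_lit 0) (p (nat_lit 0xa090988079a) (nat_lit 0) (p (nat_lit 0x88088907871a) (nat_lit 0) (p (nat_lit 0x7880887069a) (nat_lit 0) (p (nat_lit 0x80000800088806860a) (nat_lit 0) (p (nat_lit 0x80000800068786058a) (nat_lit 0) (p (nat_lit 0x8687058502) (nat_lit 0) (p (nat_lit 0x606850482) (nat_lit 0) (p (nat_lit 0x160014)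 (nat_lit 0) (p (nat_lit 0x68612) (nat_lit 0) (p (nat_lit 0x50592) (nat_lit 0) (p (nat_lit 0x40512) (nat_lit 0) (p (nat_lit 0x50312) (nat_lit 0) (p (nat_lit 0x38292) (nat_lit 0) (p (nat_lit 0x28212) (nat_lit 0) (p (nat_lit 0x38112) (nat_lit 0) (p (nat_lit 0x20092) (nat_lit 0) (p (nat_lit 0x10012) (nat_lit 0) pn)))))))))))))))))))))))))))))) :=
  Cl.node (nat_lit 0x10000c) (nat_lit 2) (by decide +kernel) (ClAll.succ (ClAll.succ ClAll.zero n152) s13)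

def n200 : Cl (O (nat_lit 3)) (R (nat_lit 143633))
    (p (nat_lit 0x1fc004) (nat_lit 0) (p (nat_lit 0xb0014) (nat_lit 1) (p (nat_lit 0x380c2) (nat_lit 0) (p (nat_lit 0x444aa) (nat_lit 7) (p (nat_lit 0x81) (nat_lit 1) (p (nat_lit 0xc9) (nat_lit 1) (p (nat_lit 0x109) (nat_lit 1) (p (nat_lit 0x101) (nat_lit 0) (p (nat_lit 0x119) (nat_lit 0) (p (nat_lit 0xd1) (nat_lit 0) (p (nat_lit 0x89) (nat_lit 0) (p (nat_lit 0x41) (nat_lit 0) (p (nat_lit 0x8a898a08881a) (nat_lit 0) (p (nat_lit 0xa090988079a) (nat_lit 0) (p (nat_lit 0x88088907871a) (nat_lit 0) (p (nat_lit 0x7880887069a) (nat_lit 0) (p (nat_lit 0x80000800088806860a) (nat_lit 0) (p (nat_lit 0x80000800068786058a) (nat_lit 0) (p (nat_lit 0x8687058502) (nat_lit 0) (p (nat_lit 0x606850482) (nat_lit 0) (p (nat_lit 0x160014) (nat_lit 0) (p (nat_lit 0x68612) (nat_lit 0) (p (nat_lit 0x50592) (nat_lit 0) (p (nat_lit 0x40512) (nat_lit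 0) (p (nat_lit 0x50312) (nat_lit 0) (p (nat_lit 0x38292) (nat_lit 0) (p (nat_lit 0x28212) (nat_lit 0) (p (nat_lit 0x38112) (nat_lit 0) (p (nat_lit 0x20092) (nat_lit 0) (p (nat_lit 0x10012) (nat_lit 0) pn)))))))))))))))))))))))))))))) :=
  Cl.node (nat_lit 0x1fc00c) (nat_lit 2) (by decide +kernel) (ClAll.succ (ClAll.succ ClAll.zero n153) s19)

def n201 : Cl (O (nat_lit 3)) (R (nat_lit 143633))
    (p (nat_lit 0x200004) (nat_lit 0) (p (nat_lit 0x20000c) (nat_lit 0) (p (nat_lit 0x380c2) (nat_lit 1) (p (nat_lit 0x444aa) (nat_lit 7) (p (nat_lit 0x81) (nat_lit 1) (p (nat_lit 0xc9) (nat_lit 1) (p (nat_lit 0x109) (nat_lit 1) (p (nat_lit 0x101) (nat_lit 0) (p (nat_lit 0x119) (nat_lit 0) (p (nat_lit 0xd1) (nat_lit 0) (p (nat_lit 0x89) (nat_lit 0) (p (nat_lit 0x41) (nat_lit 0) (p (nat_lit 0x8a898a08881a) (nat_lit 0) (p (nat_lit 0xa090988079a) (nat_lit 0) (p (nat_lit 0x88088907871a)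 (nat_lit 0) (p (nat_lit 0x7880887069a) (nat_lit 0) (p (nat_lit 0x80000800088806860a) (nat_lit 0) (p (nat_lit 0x80000800068786058a) (nat_lit 0) (p (nat_lit 0x8687058502) (nat_lit 0) (p (nat_lit 0x606850482) (nat_lit 0) (p (nat_lit 0x160014) (nat_lit 0) (p (nat_lit 0x68612) (nat_lit 0) (p (nat_lit 0x50592) (nat_lit 0) (p (nat_lit 0x40512) (nat_lit 0) (p (nat_lit 0x50312) (nat_lit 0) (p (nat_lit 0x38292) (nat_lit 0) (p (nat_lit 0x28212) (nat_lit 0) (p (nat_lit 0x38112) (nat_lit 0) (p (nat_lit 0x20092) (nat_lit 0) (p (nat_lit 0x10012) (nat_lit 0) pn)))))))))))))))))))))))))))))) :=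
  Cl.node (nat_lit 0x10000c) (nat_lit 2) (by decide +kernel) (ClAll.succ (ClAll.succ ClAll.zero n154) s26)

def n202 : Cl (O (nat_lit 3)) (R (nat_lit 143633))
    (p (nat_lit 0x20000c) (nat_lit 0) (p (nat_lit 0xb0014) (nat_lit 0) (p (nat_lit 0x380c2) (nat_lit 0) (p (nat_lit 0x444aa) (nat_lit 7) (p (nat_lit 0x111) (nat_lit 0) (p (nat_lit 0xc9) (nat_lit 1) (p (nat_lit 0x81) (nat_lit 0) (p (nat_lit 0x101) (nat_lit 1) (p (nat_lit 0x119) (nat_lit 0) (p (nat_lit 0xd1) (nat_lit 0) (p (nat_lit 0x89) (nat_lit 0) (p (nat_lit 0x41) (nat_lit 0) (p (nat_lit 0x8a898a08881a) (nat_lit 0) (p (nat_lit 0xa090988079a) (nat_lit 0) (p (nat_lit 0x88088907871a) (nat_lit 0) (p (nat_lit 0x7880887069a) (nat_lit 0) (p (nat_lit 0x80000800088806860a) (nat_lit 0) (p (nat_lit 0x80000800068786058a) (nat_lit 0) (p (nat_lit 0x8687058502) (nat_lit 0) (p (nat_lit 0x606850482) (nat_lit 0) (p (nat_lit 0x160014)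 (nat_lit 0) (p (nat_lit 0x68612) (nat_lit 0) (p (nat_lit 0x50592) (nat_lit 0) (p (nat_lit 0x40512) (nat_lit 0) (p (nat_lit 0x50312) (nat_lit 0) (p (nat_lit 0x38292) (nat_lit 0) (p (nat_lit 0x28212) (nat_lit 0) (p (nat_lit 0x38112) (nat_lit 0) (p (nat_lit 0x20092) (nat_lit 0) (p (nat_lit 0x10012) (nat_lit 0) pn)))))))))))))))))))))))))))))) :=
  Cl.node (nat_lit 0x200004) (nat_lit 2) (by decide +kernel) (ClAll.succ (ClAll.succ ClAll.zero n155) s56)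

def n203 : Cl (O (nat_lit 3)) (R (nat_lit 143633))
    (p (nat_lit 0x1fc004) (nat_lit 0) (p (nat_lit 0xb0014) (nat_lit 1) (p (nat_lit 0x380c2) (nat_lit 0) (p (nat_lit 0x444aa) (nat_lit 7) (p (nat_lit 0x111) (nat_lit 0) (p (nat_lit 0xc9) (nat_lit 1) (p (nat_lit 0x81) (nat_lit 0) (p (nat_lit 0x101) (nat_lit 1) (p (nat_lit 0x119) (nat_lit 0) (p (nat_lit 0xd1) (nat_lit 0) (p (nat_lit 0x89) (nat_lit 0) (p (nat_lit 0x41) (nat_lit 0) (p (nat_lit 0x8a898a08881a) (nat_lit 0) (p (nat_lit 0xa090988079a) (nat_lit 0) (p (nat_lit 0x88088907871a) (nat_lit 0) (p (nat_lit 0x7880887069a) (nat_lit 0) (p (nat_lit 0x80000800088806860a) (nat_lit 0) (p (nat_lit 0x80000800068786058a) (nat_lit 0) (p (nat_lit 0x8687058502) (nat_lit 0) (p (nat_lit 0x606850482) (nat_lit 0) (p (nat_lit 0x160014) (nat_lit 0) (p (nat_lit 0x68612) (nat_lit 0) (p (nat_lit 0x50592) (nat_lit 0) (p (nat_lit 0x40512) (nat_lit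 0) (p (nat_lit 0x50312) (nat_lit 0) (p (nat_lit 0x38292) (nat_lit 0) (p (nat_lit 0x28212) (nat_lit 0) (p (nat_lit 0x38112) (nat_lit 0) (p (nat_lit 0x20092) (nat_lit 0) (p (nat_lit 0x10012) (nat_lit 0) pn)))))))))))))))))))))))))))))) :=
  Cl.node (nat_lit 0x1fc00c) (nat_lit 2) (by decide +kernel) (ClAll.succ (ClAll.succ ClAll.zero n156) s60)

def n204 : Cl (O (nat_lit 3)) (R (nat_lit 143633))
    (p (nat_lit 0x200004) (nat_lit 0) (p (nat_lit 0x20000c) (nat_lit 0) (p (nat_lit 0x380c2) (nat_lit 1) (p (nat_lit 0x444aa) (nat_lit 7) (p (nat_lit 0x111) (nat_lit 0) (p (nat_lit 0xc9) (nat_lit 1) (p (nat_lit 0x81) (nat_lit 0) (p (nat_lit 0x101) (nat_lit 1) (p (nat_lit 0x119) (nat_lit 0) (p (nat_lit 0xd1) (nat_lit 0) (p (nat_lit 0x89) (nat_lit 0) (p (nat_lit 0x41) (nat_lit 0) (p (nat_lit 0x8a898a08881a) (nat_lit 0) (p (nat_lit 0xa090988079a) (nat_lit 0) (p (nat_lit 0x88088907871a)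 (nat_lit 0) (p (nat_lit 0x7880887069a) (nat_lit 0) (p (nat_lit 0x80000800088806860a) (nat_lit 0) (p (nat_lit 0x80000800068786058a) (nat_lit 0) (p (nat_lit 0x8687058502) (nat_lit 0) (p (nat_lit 0x606850482) (nat_lit 0) (p (nat_lit 0x160014) (nat_lit 0) (p (nat_lit 0x68612) (nat_lit 0) (p (nat_lit 0x50592) (nat_lit 0) (p (nat_lit 0x40512) (nat_lit 0) (p (nat_lit 0x50312) (nat_lit 0) (p (nat_lit 0x38292) (nat_lit 0) (p (nat_lit 0x28212) (nat_lit 0) (p (nat_lit 0x38112) (nat_lit 0) (p (nat_lit 0x20092) (nat_lit 0) (p (nat_lit 0x10012) (nat_lit 0) pn)))))))))))))))))))))))))))))) :=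
  Cl.node (nat_lit 0x10000c) (nat_lit 2) (by decide +kernel) (ClAll.succ (ClAll.succ ClAll.zero n157) s66)

def n205 : Cl (O (nat_lit 3)) (R (nat_lit 143633))
    (p (nat_lit 0x200004) (nat_lit 0) (p (nat_lit 0x20000c) (nat_lit 0) (p (nat_lit 0x380c2) (nat_lit 1) (p (nat_lit 0x444aa) (nat_lit 7) (p (nat_lit 0xc9) (nat_lit 1) (p (nat_lit 0xc1) (nat_lit 0) (p (nat_lit 0x81) (nat_lit 1) (p (nat_lit 0x101) (nat_lit 1) (p (nat_lit 0x119) (nat_lit 0) (p (nat_lit 0xd1) (nat_lit 0) (p (nat_lit 0x89) (nat_lit 0) (p (nat_lit 0x41) (nat_lit 0) (p (nat_lit 0x8a898a08881a) (nat_lit 0) (p (nat_lit 0xa090988079a) (nat_lit 0) (p (nat_lit 0x88088907871a) (nat_lit 0) (p (nat_lit 0x7880887069a) (nat_lit 0) (p (nat_lit 0x80000800088806860a) (nat_lit 0) (p (nat_lit 0x80000800068786058a) (nat_lit 0) (p (nat_lit 0x8687058502) (nat_lit 0) (p (nat_lit 0x606850482) (nat_lit 0) (p (nat_lit 0x160014)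 (nat_lit 0) (p (nat_lit 0x68612) (nat_lit 0) (p (nat_lit 0x50592) (nat_lit 0) (p (nat_lit 0x40512) (nat_lit 0) (p (nat_lit 0x50312) (nat_lit 0) (p (nat_lit 0x38292) (nat_lit 0) (p (nat_lit 0x28212) (nat_lit 0) (p (nat_lit 0x38112) (nat_lit 0) (p (nat_lit 0x20092) (nat_lit 0) (p (nat_lit 0x10012) (nat_lit 0) pn)))))))))))))))))))))))))))))) :=
  Cl.node (nat_lit 0x10000c) (nat_lit 2) (by decide +kernel) (ClAll.succ (ClAll.succ ClAll.zero n158) s97)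

def n206 : Cl (O (nat_lit 3)) (R (nat_lit 143633))
    (p (nat_lit 0x200004) (nat_lit 0) (p (nat_lit 0x81) (nat_lit 0) (p (nat_lit 0x101) (nat_lit 1) (p (nat_lit 0x380c2) (nat_lit 0) (p (nat_lit 0x3cc2a) (nat_lit 10) (p (nat_lit 0x109) (nat_lit 1) (p (nat_lit 0xc9) (nat_lit 1) (p (nat_lit 0xc1) (nat_lit 0) (p (nat_lit 0x119) (nat_lit 1) (p (nat_lit 0xd1) (nat_lit 0) (p (nat_lit 0x89) (nat_lit 0) (p (nat_lit 0x41) (nat_lit 0) (p (nat_lit 0x8a898a08881a) (nat_lit 0) (p (nat_lit 0xa090988079a) (nat_lit 0) (p (nat_lit 0x88088907871a) (nat_lit 0) (p (nat_lit 0x7880887069a) (nat_lit 0) (p (nat_lit 0x80000800088806860a) (nat_lit 0) (p (nat_lit 0x80000800068786058a) (nat_lit 0) (p (nat_lit 0x8687058502) (nat_lit 0) (p (nat_lit 0x606850482) (nat_lit 0) (p (nat_lit 0x160014) (nat_lit 0) (p (nat_lit 0x68612) (nat_lit 0) (p (nat_lit 0x50592) (nat_lit 0) (p (nat_lit 0x40512) (nat_lit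 0) (p (nat_lit 0x50312) (nat_lit 0) (p (nat_lit 0x38292) (nat_lit 0) (p (nat_lit 0x28212) (nat_lit 0) (p (nat_lit 0x38112) (nat_lit 0) (p (nat_lit 0x20092) (nat_lit 0) (p (nat_lit 0x10012) (nat_lit 0) pn)))))))))))))))))))))))))))))) :=
  Cl.node (nat_lit 0xb0014) (nat_lit 2) (by decide +kernel) (ClAll.succ (ClAll.succ ClAll.zero s118) s119)

def n207 : Cl (O (nat_lit 3)) (R (nat_lit 143633))
    (p (nat_lit 0x444aa) (nat_lit 7) (p (nat_lit 0x81) (nat_lit 1) (p (nat_lit 0x101) (nat_lit 1) (p (nat_lit 0x380c2) (nat_lit 0) (p (nat_lit 0x3cc2a) (nat_lit 10) (p (nat_lit 0x109) (nat_lit 1) (p (nat_lit 0xc9) (nat_lit 1) (p (nat_lit 0xc1) (nat_lit 0) (p (nat_lit 0x119) (nat_lit 1) (p (nat_lit 0xd1) (nat_lit 0) (p (nat_lit 0x89) (nat_lit 0) (p (nat_lit 0x41) (nat_lit 0) (p (nat_lit 0x8a898a08881a) (nat_lit 0) (p (nat_lit 0xa090988079a) (nat_lit 0) (p (nat_lit 0x88088907871a) (nat_lit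 0) (p (nat_lit 0x7880887069a) (nat_lit 0) (p (nat_lit 0x80000800088806860a) (nat_lit 0) (p (nat_lit 0x80000800068786058a) (nat_lit 0) (p (nat_lit 0x8687058502) (nat_lit 0) (p (nat_lit 0x606850482) (nat_lit 0) (p (nat_lit 0x160014) (nat_lit 0) (p (nat_lit 0x68612) (nat_lit 0) (p (nat_lit 0x50592) (nat_lit 0) (p (nat_lit 0x40512) (nat_lit 0) (p (nat_lit 0x50312) (nat_lit 0) (p (nat_lit 0x38292) (nat_lit 0) (p (nat_lit 0x28212) (nat_lit 0) (p (nat_lit 0x38112) (nat_lit 0) (p (nat_lit 0x20092) (nat_lit 0) (p (nat_lit 0x10012) (nat_lit 0) pn)))))))))))))))))))))))))))))) :=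
  Cl.node (nat_lit 0x380c2) (nat_lit 2) (by decide +kernel) (ClAll.succ (ClAll.succ ClAll.zero s128) s129)

def n208 : Cl (O (nat_lit 3)) (R (nat_lit 143633))
    (p (nat_lit 0x444aa) (nat_lit 7) (p (nat_lit 0x101) (nat_lit 1) (p (nat_lit 0x81) (nat_lit 1) (p (nat_lit 0x380c2) (nat_lit 1) (p (nat_lit 0x3cc2a) (nat_lit 11) (p (nat_lit 0x109) (nat_lit 1) (p (nat_lit 0xc9) (nat_lit 1) (p (nat_lit 0xc1) (nat_lit 0) (p (nat_lit 0x119) (nat_lit 1) (p (nat_lit 0xd1) (nat_lit 0) (p (nat_lit 0x89) (nat_lit 0) (p (nat_lit 0x41) (nat_lit 0) (p (nat_lit 0x8a898a08881a) (nat_lit 0) (p (nat_lit 0xa090988079a) (nat_lit 0) (p (nat_lit 0x88088907871a) (nat_lit 0) (p (nat_lit 0x7880887069a) (nat_lit 0) (p (nat_lit 0x80000800088806860a) (nat_lit 0) (p (nat_lit 0x80000800068786058a) (nat_lit 0) (p (nat_lit 0x8687058502) (nat_lit 0) (p (nat_lit 0x606850482) (nat_lit 0) (p (nat_lit 0x160014) (nat_lit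 0) (p (nat_lit 0x68612) (nat_lit 0) (p (nat_lit 0x50592) (nat_lit 0) (p (nat_lit 0x40512) (nat_lit 0) (p (nat_lit 0x50312) (nat_lit 0) (p (nat_lit 0x38292) (nat_lit 0) (p (nat_lit 0x28212) (nat_lit 0) (p (nat_lit 0x38112) (nat_lit 0) (p (nat_lit 0x20092) (nat_lit 0) (p (nat_lit 0x10012) (nat_lit 0) pn)))))))))))))))))))))))))))))) :=
  Cl.node (nat_lit 0x380c2) (nat_lit 2) (by decide +kernel) (ClAll.succ (ClAll.succ ClAll.zero n159) s158)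

def n209 : Cl (O (nat_lit 3)) (R (nat_lit 143633))
    (p (nat_lit 0x20000c) (nat_lit 0) (p (nat_lit 0xb0014) (nat_lit 0) (p (nat_lit 0x380c2) (nat_lit 0) (p (nat_lit 0x444aa) (nat_lit 7) (p (nat_lit 0x109) (nat_lit 1) (p (nat_lit 0x101) (nat_lit 0) (p (nat_lit 0x81) (nat_lit 1) (p (nat_lit 0xc1) (nat_lit 1) (p (nat_lit 0x119) (nat_lit 1) (p (nat_lit 0xd1) (nat_lit 0) (p (nat_lit 0x89) (nat_lit 0) (p (nat_lit 0x41) (nat_lit 0) (p (nat_lit 0x8a898a08881a) (nat_lit 0) (p (nat_lit 0xa090988079a) (nat_lit 0) (p (nat_lit 0x88088907871a) (nat_lit 0) (p (nat_lit 0x7880887069a) (nat_lit 0) (p (nat_lit 0x80000800088806860a) (nat_lit 0) (p (nat_lit 0x80000800068786058a) (nat_lit 0) (p (nat_lit 0x8687058502) (nat_lit 0) (p (nat_lit 0x606850482) (nat_lit 0) (p (nat_lit 0x160014) (nat_lit 0) (p (nat_lit 0x68612) (nat_lit 0) (p (nat_lit 0x50592) (nat_lit 0) (p (nat_lit 0x40512) (nat_lit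 0) (p (nat_lit 0x50312) (nat_lit 0) (p (nat_lit 0x38292) (nat_lit 0) (p (nat_lit 0x28212) (nat_lit 0) (p (nat_lit 0x38112) (nat_lit 0) (p (nat_lit 0x20092) (nat_lit 0) (p (nat_lit 0x10012) (nat_lit 0) pn)))))))))))))))))))))))))))))) :=
  Cl.node (nat_lit 0x200004) (nat_lit 2) (by decide +kernel) (ClAll.succ (ClAll.succ ClAll.zero n160) s210)

def n210 : Cl (O (nat_lit 3)) (R (nat_lit 143633))
    (p (nat_lit 0x200004) (nat_lit 0) (p (nat_lit 0x20000c) (nat_lit 0) (p (nat_lit 0x380c2) (nat_lit 1) (p (nat_lit 0x444aa) (nat_lit 7) (p (nat_lit 0x109) (nat_lit 1) (p (nat_lit 0x101) (nat_lit 0) (p (nat_lit 0x81) (nat_lit 1) (p (nat_lit 0xc1) (nat_lit 1) (p (nat_lit 0x119) (nat_lit 1) (p (nat_lit 0xd1) (nat_lit 0) (p (nat_lit 0x89) (nat_lit 0) (p (nat_lit 0x41) (nat_lit 0) (p (nat_lit 0x8a898a08881a) (nat_lit 0) (p (nat_lit 0xa090988079a) (nat_lit 0) (p (nat_lit 0x88088907871a)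 (nat_lit 0) (p (nat_lit 0x7880887069a) (nat_lit 0) (p (nat_lit 0x80000800088806860a) (nat_lit 0) (p (nat_lit 0x80000800068786058a) (nat_lit 0) (p (nat_lit 0x8687058502) (nat_lit 0) (p (nat_lit 0x606850482) (nat_lit 0) (p (nat_lit 0x160014) (nat_lit 0) (p (nat_lit 0x68612) (nat_lit 0) (p (nat_lit 0x50592) (nat_lit 0) (p (nat_lit 0x40512) (nat_lit 0) (p (nat_lit 0x50312) (nat_lit 0) (p (nat_lit 0x38292) (nat_lit 0) (p (nat_lit 0x28212) (nat_lit 0) (p (nat_lit 0x38112) (nat_lit 0) (p (nat_lit 0x20092) (nat_lit 0) (p (nat_lit 0x10012) (nat_lit 0) pn)))))))))))))))))))))))))))))) :=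
  Cl.node (nat_lit 0x10000c) (nat_lit 2) (by decide +kernel) (ClAll.succ (ClAll.succ ClAll.zero n161) s219)

def n211 : Cl (O (nat_lit 3)) (R (nat_lit 143633))
    (p (nat_lit 0x20000c) (nat_lit 0) (p (nat_lit 0xb0014) (nat_lit 0) (p (nat_lit 0x380c2) (nat_lit 1) (p (nat_lit 0x444aa) (nat_lit 8) (p (nat_lit 0x109) (nat_lit 1) (p (nat_lit 0x101) (nat_lit 0) (p (nat_lit 0x81) (nat_lit 1) (p (nat_lit 0xc1) (nat_lit 1) (p (nat_lit 0x119) (nat_lit 1) (p (nat_lit 0xd1) (nat_lit 0) (p (nat_lit 0x89) (nat_lit 0) (p (nat_lit 0x41) (nat_lit 0) (p (nat_lit 0x8a898a08881a) (nat_lit 0) (p (nat_lit 0xa090988079a) (nat_lit 0) (p (nat_lit 0x88088907871a) (nat_lit 0) (p (nat_lit 0x7880887069a) (nat_lit 0) (p (nat_lit 0x80000800088806860a) (nat_lit 0) (p (nat_lit 0x80000800068786058a) (nat_lit 0) (p (nat_lit 0x8687058502) (nat_lit 0) (p (nat_lit 0x606850482) (nat_lit 0) (p (nat_lit 0x160014)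 (nat_lit 0) (p (nat_lit 0x68612) (nat_lit 0) (p (nat_lit 0x50592) (nat_lit 0) (p (nat_lit 0x40512) (nat_lit 0) (p (nat_lit 0x50312) (nat_lit 0) (p (nat_lit 0x38292) (nat_lit 0) (p (nat_lit 0x28212) (nat_lit 0) (p (nat_lit 0x38112) (nat_lit 0) (p (nat_lit 0x20092) (nat_lit 0) (p (nat_lit 0x10012) (nat_lit 0) pn)))))))))))))))))))))))))))))) :=
  Cl.node (nat_lit 0x10000c) (nat_lit 2) (by decide +kernel) (ClAll.succ (ClAll.succ ClAll.zero n162) s225)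

def n212 : Cl (O (nat_lit 3)) (R (nat_lit 143633))
    (p (nat_lit 0x380c2) (nat_lit 0) (p (nat_lit 0x3cc2a) (nat_lit 0) (p (nat_lit 0x41) (nat_lit 0) (p (nat_lit 0x20000c) (nat_lit 0) (p (nat_lit 0x200004) (nat_lit 0) (p (nat_lit 0xc1) (nat_lit 1) (p (nat_lit 0x109) (nat_lit 1) (p (nat_lit 0x101) (nat_lit 0) (p (nat_lit 0x111) (nat_lit 0) (p (nat_lit 0xd1) (nat_lit 1) (p (nat_lit 0x89) (nat_lit 0) (p (nat_lit 0x41) (nat_lit 0) (p (nat_lit 0x8a898a08881a) (nat_lit 0) (p (nat_lit 0xa090988079a) (nat_lit 0) (p (nat_lit 0x88088907871a) (nat_lit 0) (p (nat_lit 0x7880887069a) (nat_lit 0) (p (nat_lit 0x80000800088806860a) (nat_lit 0) (p (nat_lit 0x80000800068786058a) (nat_lit 0) (p (nat_lit 0x8687058502) (nat_lit 0) (p (nat_lit 0x606850482) (nat_lit 0) (p (nat_lit 0x160014) (nat_lit 0) (p (nat_lit 0x68612) (nat_lit 0) (p (nat_lit 0x50592) (nat_lit 0) (p (nat_lit 0x40512) (nat_lit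 0) (p (nat_lit 0x50312) (nat_lit 0) (p (nat_lit 0x38292) (nat_lit 0) (p (nat_lit 0x28212) (nat_lit 0) (p (nat_lit 0x38112) (nat_lit 0) (p (nat_lit 0x20092) (nat_lit 0) (p (nat_lit 0x10012) (nat_lit 0) pn)))))))))))))))))))))))))))))) :=
  Cl.node (nat_lit 0x10000c) (nat_lit 2) (by decide +kernel) (ClAll.succ (ClAll.succ ClAll.zero n163) s248)

def n213 : Cl (O (nat_lit 3)) (R (nat_lit 143633))
    (p (nat_lit 0x380c2) (nat_lit 0) (p (nat_lit 0x3cc2a) (nat_lit 0) (p (nat_lit 0x109) (nat_lit 1) (p (nat_lit 0x20000c) (nat_lit 0) (p (nat_lit 0x200004) (nat_lit 0) (p (nat_lit 0x119) (nat_lit 0) (p (nat_lit 0x81) (nat_lit 0) (p (nat_lit 0x101) (nat_lit 1) (p (nat_lit 0x111) (nat_lit 0) (p (nat_lit 0xd1) (nat_lit 1) (p (nat_lit 0x89) (nat_lit 0) (p (nat_lit 0x41) (nat_lit 0) (p (nat_lit 0x8a898a08881a) (nat_lit 0) (p (nat_lit 0xa090988079a) (nat_lit 0) (p (nat_lit 0x88088907871a)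 (nat_lit 0) (p (nat_lit 0x7880887069a) (nat_lit 0) (p (nat_lit 0x80000800088806860a) (nat_lit 0) (p (nat_lit 0x80000800068786058a) (nat_lit 0) (p (nat_lit 0x8687058502) (nat_lit 0) (p (nat_lit 0x606850482) (nat_lit 0) (p (nat_lit 0x160014) (nat_lit 0) (p (nat_lit 0x68612) (nat_lit 0) (p (nat_lit 0x50592) (nat_lit 0) (p (nat_lit 0x40512) (nat_lit 0) (p (nat_lit 0x50312) (nat_lit 0) (p (nat_lit 0x38292) (nat_lit 0) (p (nat_lit 0x28212) (nat_lit 0) (p (nat_lit 0x38112) (nat_lit 0) (p (nat_lit 0x20092) (nat_lit 0) (p (nat_lit 0x10012) (nat_lit 0) pn)))))))))))))))))))))))))))))) :=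
  Cl.node (nat_lit 0x100004) (nat_lit 2) (by decide +kernel) (ClAll.succ (ClAll.succ ClAll.zero n164) s268)

def n214 : Cl (O (nat_lit 3)) (R (nat_lit 143633))
    (p (nat_lit 0x20000c) (nat_lit 0) (p (nat_lit 0xb0014) (nat_lit 0) (p (nat_lit 0x380c2) (nat_lit 0) (p (nat_lit 0x444aa) (nat_lit 7) (p (nat_lit 0xd1) (nat_lit 1) (p (nat_lit 0x111) (nat_lit 1) (p (nat_lit 0x109) (nat_lit 0) (p (nat_lit 0x101) (nat_lit 0) (p (nat_lit 0x119) (nat_lit 0) (p (nat_lit 0xc9) (nat_lit 0) (p (nat_lit 0x89) (nat_lit 1) (p (nat_lit 0x41) (nat_lit 0) (p (nat_lit 0x8a898a08881a) (nat_lit 0) (p (nat_lit 0xa090988079a) (nat_lit 0) (p (nat_lit 0x88088907871a) (nat_lit 0) (p (nat_lit 0x7880887069a) (nat_lit 0) (p (nat_lit 0x80000800088806860a) (nat_lit 0) (p (nat_lit 0x80000800068786058a) (nat_lit 0) (p (nat_lit 0x8687058502) (nat_lit 0) (p (nat_lit 0x606850482) (nat_lit 0) (p (nat_lit 0x160014)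 (nat_lit 0) (p (nat_lit 0x68612) (nat_lit 0) (p (nat_lit 0x50592) (nat_lit 0) (p (nat_lit 0x40512) (nat_lit 0) (p (nat_lit 0x50312) (nat_lit 0) (p (nat_lit 0x38292) (nat_lit 0) (p (nat_lit 0x28212) (nat_lit 0) (p (nat_lit 0x38112) (nat_lit 0) (p (nat_lit 0x20092) (nat_lit 0) (p (nat_lit 0x10012) (nat_lit 0) pn)))))))))))))))))))))))))))))) :=
  Cl.node (nat_lit 0x200004) (nat_lit 2) (by decide +kernel) (ClAll.succ (ClAll.succ ClAll.zero n165) s341)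

def n215 : Cl (O (nat_lit 3)) (R (nat_lit 143633))
    (p (nat_lit 0x1fc004) (nat_lit 0) (p (nat_lit 0xb0014) (nat_lit 1) (p (nat_lit 0x380c2) (nat_lit 0) (p (nat_lit 0x444aa) (nat_lit 7) (p (nat_lit 0xd1) (nat_lit 1) (p (nat_lit 0x111) (nat_lit 1) (p (nat_lit 0x109) (nat_lit 0) (p (nat_lit 0x101) (nat_lit 0) (p (nat_lit 0x119) (nat_lit 0) (p (nat_lit 0xc9) (nat_lit 0) (p (nat_lit 0x89) (nat_lit 1) (p (nat_lit 0x41) (nat_lit 0) (p (nat_lit 0x8a898a08881a) (nat_lit 0) (p (nat_lit 0xa090988079a) (nat_lit 0) (p (nat_lit 0x88088907871a) (nat_lit 0) (p (nat_lit 0x7880887069a) (nat_lit 0) (p (nat_lit 0x80000800088806860a) (nat_lit 0) (p (nat_lit 0x80000800068786058a) (nat_lit 0) (p (nat_lit 0x8687058502) (nat_lit 0) (p (nat_lit 0x606850482) (nat_lit 0) (p (nat_lit 0x160014) (nat_lit 0) (p (nat_lit 0x68612) (nat_lit 0) (p (nat_lit 0x50592) (nat_lit 0) (p (nat_lit 0x40512) (nat_lit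 0) (p (nat_lit 0x50312) (nat_lit 0) (p (nat_lit 0x38292) (nat_lit 0) (p (nat_lit 0x28212) (nat_lit 0) (p (nat_lit 0x38112) (nat_lit 0) (p (nat_lit 0x20092) (nat_lit 0) (p (nat_lit 0x10012) (nat_lit 0) pn)))))))))))))))))))))))))))))) :=
  Cl.node (nat_lit 0x1fc00c) (nat_lit 2) (by decide +kernel) (ClAll.succ (ClAll.succ ClAll.zero n166) s353)

def n216 : Cl (O (nat_lit 3)) (R (nat_lit 143633))
    (p (nat_lit 0x200004) (nat_lit 0) (p (nat_lit 0x20000c) (nat_lit 0) (p (nat_lit 0x380c2) (nat_lit 1) (p (nat_lit 0x444aa) (nat_lit 7) (p (nat_lit 0xd1) (nat_lit 1) (p (nat_lit 0x111) (nat_lit 1) (p (nat_lit 0x109) (nat_lit 0) (p (nat_lit 0x101) (nat_lit 0) (p (nat_lit 0x119) (nat_lit 0) (p (nat_lit 0xc9) (nat_lit 0) (p (nat_lit 0x89) (nat_lit 1) (p (nat_lit 0x41) (nat_lit 0) (p (nat_lit 0x8a898a08881a) (nat_lit 0) (p (nat_lit 0xa090988079a) (nat_lit 0) (p (nat_lit 0x88088907871a)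 (nat_lit 0) (p (nat_lit 0x7880887069a) (nat_lit 0) (p (nat_lit 0x80000800088806860a) (nat_lit 0) (p (nat_lit 0x80000800068786058a) (nat_lit 0) (p (nat_lit 0x8687058502) (nat_lit 0) (p (nat_lit 0x606850482) (nat_lit 0) (p (nat_lit 0x160014) (nat_lit 0) (p (nat_lit 0x68612) (nat_lit 0) (p (nat_lit 0x50592) (nat_lit 0) (p (nat_lit 0x40512) (nat_lit 0) (p (nat_lit 0x50312) (nat_lit 0) (p (nat_lit 0x38292) (nat_lit 0) (p (nat_lit 0x28212) (nat_lit 0) (p (nat_lit 0x38112) (nat_lit 0) (p (nat_lit 0x20092) (nat_lit 0) (p (nat_lit 0x10012) (nat_lit 0) pn)))))))))))))))))))))))))))))) :=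
  Cl.node (nat_lit 0x100004) (nat_lit 2) (by decide +kernel) (ClAll.succ (ClAll.succ ClAll.zero n167) s374)

def n217 : Cl (O (nat_lit 3)) (R (nat_lit 143633))
    (p (nat_lit 0x380c2) (nat_lit 0) (p (nat_lit 0x44c2a) (nat_lit 0) (p (nat_lit 0x41) (nat_lit 0) (p (nat_lit 0x20000c) (nat_lit 0) (p (nat_lit 0x200004) (nat_lit 0) (p (nat_lit 0xd1) (nat_lit 0) (p (nat_lit 0x109) (nat_lit 1) (p (nat_lit 0x101) (nat_lit 0) (p (nat_lit 0x119) (nat_lit 0) (p (nat_lit 0xc9) (nat_lit 0) (p (nat_lit 0x89) (nat_lit 1) (p (nat_lit 0x41) (nat_lit 0) (p (nat_lit 0x8a898a08881a) (nat_lit 0) (p (nat_lit 0xa090988079a) (nat_lit 0) (p (nat_lit 0x88088907871a) (nat_lit 0) (p (nat_lit 0x7880887069a) (nat_lit 0) (p (nat_lit 0x80000800088806860a) (nat_lit 0) (p (nat_lit 0x80000800068786058a) (nat_lit 0) (p (nat_lit 0x8687058502) (nat_lit 0) (p (nat_lit 0x606850482) (nat_lit 0) (p (nat_lit 0x160014)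 (nat_lit 0) (p (nat_lit 0x68612) (nat_lit 0) (p (nat_lit 0x50592) (nat_lit 0) (p (nat_lit 0x40512) (nat_lit 0) (p (nat_lit 0x50312) (nat_lit 0) (p (nat_lit 0x38292) (nat_lit 0) (p (nat_lit 0x28212) (nat_lit 0) (p (nat_lit 0x38112) (nat_lit 0) (p (nat_lit 0x20092) (nat_lit 0) (p (nat_lit 0x10012) (nat_lit 0) pn)))))))))))))))))))))))))))))) :=
  Cl.node (nat_lit 0x10000c) (nat_lit 2) (by decide +kernel) (ClAll.succ (ClAll.succ ClAll.zero s381) s382)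

def n218 : Cl (O (nat_lit 3)) (R (nat_lit 143633))
    (p (nat_lit 0x380c2) (nat_lit 0) (p (nat_lit 0x44c2a) (nat_lit 1) (p (nat_lit 0x41) (nat_lit 0) (p (nat_lit 0x20000c) (nat_lit 0) (p (nat_lit 0x200004) (nat_lit 0) (p (nat_lit 0xd1) (nat_lit 0) (p (nat_lit 0x109) (nat_lit 1) (p (nat_lit 0x101) (nat_lit 0) (p (nat_lit 0x119) (nat_lit 0) (p (nat_lit 0xc9) (nat_lit 0) (p (nat_lit 0x89) (nat_lit 1) (p (nat_lit 0x41) (nat_lit 0) (p (nat_lit 0x8a898a08881a) (nat_lit 0) (p (nat_lit 0xa090988079a) (nat_lit 0) (p (nat_lit 0x88088907871a) (nat_lit 0) (p (nat_lit 0x7880887069a) (nat_lit 0) (p (nat_lit 0x80000800088806860a) (nat_lit 0) (p (nat_lit 0x80000800068786058a) (nat_lit 0) (p (nat_lit 0x8687058502) (nat_lit 0) (p (nat_lit 0x606850482) (nat_lit 0) (p (nat_lit 0x160014) (nat_lit 0) (p (nat_lit 0x68612) (nat_lit 0) (p (nat_lit 0x50592) (nat_lit 0) (p (nat_lit 0x40512) (nat_lit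 0) (p (nat_lit 0x50312) (nat_lit 0) (p (nat_lit 0x38292) (nat_lit 0) (p (nat_lit 0x28212) (nat_lit 0) (p (nat_lit 0x38112) (nat_lit 0) (p (nat_lit 0x20092) (nat_lit 0) (p (nat_lit 0x10012) (nat_lit 0) pn)))))))))))))))))))))))))))))) :=
  Cl.node (nat_lit 0x10000c) (nat_lit 2) (by decide +kernel) (ClAll.succ (ClAll.succ ClAll.zero s383) s384)

def n219 : Cl (O (nat_lit 3)) (R (nat_lit 143633))
    (p (nat_lit 0x200004) (nat_lit 0) (p (nat_lit 0x20000c) (nat_lit 0) (p (nat_lit 0xb0014) (nat_lit 0) (p (nat_lit 0x380c2) (nat_lit 0) (p (nat_lit 0x444aa) (nat_lit 7) (p (nat_lit 0xd1) (nat_lit 1) (p (nat_lit 0x109) (nat_lit 1) (p (nat_lit 0x101) (nat_lit 0) (p (nat_lit 0x119) (nat_lit 0) (p (nat_lit 0xc9) (nat_lit 0) (p (nat_lit 0x89) (nat_lit 1) (p (nat_lit 0x41) (nat_lit 0) (p (nat_lit 0x8a898a08881a) (nat_lit 0) (p (nat_lit 0xa090988079a) (nat_lit 0) (p (nat_lit 0x88088907871a)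 (nat_lit 0) (p (nat_lit 0x7880887069a) (nat_lit 0) (p (nat_lit 0x80000800088806860a) (nat_lit 0) (p (nat_lit 0x80000800068786058a) (nat_lit 0) (p (nat_lit 0x8687058502) (nat_lit 0) (p (nat_lit 0x606850482) (nat_lit 0) (p (nat_lit 0x160014) (nat_lit 0) (p (nat_lit 0x68612) (nat_lit 0) (p (nat_lit 0x50592) (nat_lit 0) (p (nat_lit 0x40512) (nat_lit 0) (p (nat_lit 0x50312) (nat_lit 0) (p (nat_lit 0x38292) (nat_lit 0) (p (nat_lit 0x28212) (nat_lit 0) (p (nat_lit 0x38112) (nat_lit 0) (p (nat_lit 0x20092) (nat_lit 0) (p (nat_lit 0x10012) (nat_lit 0) pn)))))))))))))))))))))))))))))) :=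
  Cl.node (nat_lit 0x10000c) (nat_lit 2) (by decide +kernel) (ClAll.succ (ClAll.succ ClAll.zero n168) n169)

def n220 : Cl (O (nat_lit 3)) (R (nat_lit 143633))
    (p (nat_lit 0x1fc00c) (nat_lit 0) (p (nat_lit 0x1fc004) (nat_lit 0) (p (nat_lit 0xb0014) (nat_lit 1) (p (nat_lit 0x380c2) (nat_lit 0) (p (nat_lit 0x444aa) (nat_lit 7) (p (nat_lit 0xd1) (nat_lit 1) (p (nat_lit 0x109) (nat_lit 1) (p (nat_lit 0x101) (nat_lit 0) (p (nat_lit 0x119) (nat_lit 0) (p (nat_lit 0xc9) (nat_lit 0) (p (nat_lit 0x89) (nat_lit 1) (p (nat_lit 0x41) (nat_lit 0) (p (nat_lit 0x8a898a08881a) (nat_lit 0) (p (nat_lit 0xa090988079a) (nat_lit 0) (p (nat_lit 0x88088907871a) (nat_lit 0) (p (nat_lit 0x7880887069a) (nat_lit 0) (p (nat_lit 0x80000800088806860a) (nat_lit 0) (p (nat_lit 0x80000800068786058a) (nat_lit 0) (p (nat_lit 0x8687058502) (nat_lit 0) (p (nat_lit 0x606850482) (nat_lit 0) (p (nat_lit 0x160014)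 (nat_lit 0) (p (nat_lit 0x68612) (nat_lit 0) (p (nat_lit 0x50592) (nat_lit 0) (p (nat_lit 0x40512) (nat_lit 0) (p (nat_lit 0x50312) (nat_lit 0) (p (nat_lit 0x38292) (nat_lit 0) (p (nat_lit 0x28212) (nat_lit 0) (p (nat_lit 0x38112) (nat_lit 0) (p (nat_lit 0x20092) (nat_lit 0) (p (nat_lit 0x10012) (nat_lit 0) pn)))))))))))))))))))))))))))))) :=
  Cl.node (nat_lit 0x10000c) (nat_lit 2) (by decide +kernel) (ClAll.succ (ClAll.succ ClAll.zero n170) s420)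

def n221 : Cl (O (nat_lit 3)) (R (nat_lit 143633))
    (p (nat_lit 0x10000c) (nat_lit 0) (p (nat_lit 0x200004) (nat_lit 0) (p (nat_lit 0x20000c) (nat_lit 0) (p (nat_lit 0x380c2) (nat_lit 1) (p (nat_lit 0x444aa) (nat_lit 7) (p (nat_lit 0xd1) (nat_lit 1) (p (nat_lit 0x109) (nat_lit 1) (p (nat_lit 0x101) (nat_lit 0) (p (nat_lit 0x119) (nat_lit 0) (p (nat_lit 0xc9) (nat_lit 0) (p (nat_lit 0x89) (nat_lit 1) (p (nat_lit 0x41) (nat_lit 0) (p (nat_lit 0x8a898a08881a) (nat_lit 0) (p (nat_lit 0xa090988079a) (nat_lit 0) (p (nat_lit 0x88088907871a) (nat_lit 0) (p (nat_lit 0x7880887069a) (nat_lit 0) (p (nat_lit 0x80000800088806860a) (nat_lit 0) (p (nat_lit 0x80000800068786058a) (nat_lit 0) (p (nat_lit 0x8687058502) (nat_lit 0) (p (nat_lit 0x606850482) (nat_lit 0) (p (nat_lit 0x160014) (nat_lit 0) (p (nat_lit 0x68612) (nat_lit 0) (p (nat_lit 0x50592) (nat_lit 0) (p (nat_lit 0x40512) (nat_lit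 0) (p (nat_lit 0x50312) (nat_lit 0) (p (nat_lit 0x38292) (nat_lit 0) (p (nat_lit 0x28212) (nat_lit 0) (p (nat_lit 0x38112) (nat_lit 0) (p (nat_lit 0x20092) (nat_lit 0) (p (nat_lit 0x10012) (nat_lit 0) pn)))))))))))))))))))))))))))))) :=
  Cl.node (nat_lit 0x100004) (nat_lit 2) (by decide +kernel) (ClAll.succ (ClAll.succ ClAll.zero n171) s437)

def n222 : Cl (O (nat_lit 3)) (R (nat_lit 143633))
    (p (nat_lit 0x10000c) (nat_lit 0) (p (nat_lit 0x200004) (nat_lit 0) (p (nat_lit 0x20000c) (nat_lit 0) (p (nat_lit 0x380c2) (nat_lit 1) (p (nat_lit 0x444aa) (nat_lit 7) (p (nat_lit 0xd1) (nat_lit 1) (p (nat_lit 0xc1) (nat_lit 0) (p (nat_lit 0x101) (nat_lit 1) (p (nat_lit 0x119) (nat_lit 0) (p (nat_lit 0xc9) (nat_lit 0) (p (nat_lit 0x89) (nat_lit 1) (p (nat_lit 0x41) (nat_lit 0) (p (nat_lit 0x8a898a08881a) (nat_lit 0) (p (nat_lit 0xa090988079a) (nat_lit 0) (p (nat_lit 0x88088907871a)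 (nat_lit 0) (p (nat_lit 0x7880887069a) (nat_lit 0) (p (nat_lit 0x80000800088806860a) (nat_lit 0) (p (nat_lit 0x80000800068786058a) (nat_lit 0) (p (nat_lit 0x8687058502) (nat_lit 0) (p (nat_lit 0x606850482) (nat_lit 0) (p (nat_lit 0x160014) (nat_lit 0) (p (nat_lit 0x68612) (nat_lit 0) (p (nat_lit 0x50592) (nat_lit 0) (p (nat_lit 0x40512) (nat_lit 0) (p (nat_lit 0x50312) (nat_lit 0) (p (nat_lit 0x38292) (nat_lit 0) (p (nat_lit 0x28212) (nat_lit 0) (p (nat_lit 0x38112) (nat_lit 0) (p (nat_lit 0x20092) (nat_lit 0) (p (nat_lit 0x10012) (nat_lit 0) pn)))))))))))))))))))))))))))))) :=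
  Cl.node (nat_lit 0x100004) (nat_lit 2) (by decide +kernel) (ClAll.succ (ClAll.succ ClAll.zero n172) s476)

def n223 : Cl (O (nat_lit 3)) (R (nat_lit 143633))
    (p (nat_lit 0x10000c) (nat_lit 0) (p (nat_lit 0x20000c) (nat_lit 0) (p (nat_lit 0xb0014) (nat_lit 0) (p (nat_lit 0x380c2) (nat_lit 0) (p (nat_lit 0x444aa) (nat_lit 7) (p (nat_lit 0x111) (nat_lit 1) (p (nat_lit 0xd1) (nat_lit 1) (p (nat_lit 0xc1) (nat_lit 0) (p (nat_lit 0x119) (nat_lit 1) (p (nat_lit 0xc9) (nat_lit 0) (p (nat_lit 0x89) (nat_lit 1) (p (nat_lit 0x41) (nat_lit 0) (p (nat_lit 0x8a898a08881a) (nat_lit 0) (p (nat_lit 0xa090988079a) (nat_lit 0) (p (nat_lit 0x88088907871a) (nat_lit 0) (p (nat_lit 0x7880887069a) (nat_lit 0) (p (nat_lit 0x80000800088806860a) (nat_lit 0) (p (nat_lit 0x80000800068786058a) (nat_lit 0) (p (nat_lit 0x8687058502) (nat_lit 0) (p (nat_lit 0x606850482) (nat_lit 0) (p (nat_lit 0x160014)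 (nat_lit 0) (p (nat_lit 0x68612) (nat_lit 0) (p (nat_lit 0x50592) (nat_lit 0) (p (nat_lit 0x40512) (nat_lit 0) (p (nat_lit 0x50312) (nat_lit 0) (p (nat_lit 0x38292) (nat_lit 0) (p (nat_lit 0x28212) (nat_lit 0) (p (nat_lit 0x38112) (nat_lit 0) (p (nat_lit 0x20092) (nat_lit 0) (p (nat_lit 0x10012) (nat_lit 0) pn)))))))))))))))))))))))))))))) :=
  Cl.node (nat_lit 0x200004) (nat_lit 2) (by decide +kernel) (ClAll.succ (ClAll.succ ClAll.zero n173) s497)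

def n224 : Cl (O (nat_lit 3)) (R (nat_lit 143633))
    (p (nat_lit 0x1fc00c) (nat_lit 0) (p (nat_lit 0x1fc004) (nat_lit 0) (p (nat_lit 0xb0014) (nat_lit 1) (p (nat_lit 0x380c2) (nat_lit 0) (p (nat_lit 0x444aa) (nat_lit 7) (p (nat_lit 0x111) (nat_lit 1) (p (nat_lit 0xd1) (nat_lit 1) (p (nat_lit 0xc1) (nat_lit 0) (p (nat_lit 0x119) (nat_lit 1) (p (nat_lit 0xc9) (nat_lit 0) (p (nat_lit 0x89) (nat_lit 1) (p (nat_lit 0x41) (nat_lit 0) (p (nat_lit 0x8a898a08881a) (nat_lit 0) (p (nat_lit 0xa090988079a) (nat_lit 0) (p (nat_lit 0x88088907871a) (nat_lit 0) (p (nat_lit 0x7880887069a) (nat_lit 0) (p (nat_lit 0x80000800088806860a) (nat_lit 0) (p (nat_lit 0x80000800068786058a) (nat_lit 0) (p (nat_lit 0x8687058502) (nat_lit 0) (p (nat_lit 0x606850482) (nat_lit 0) (p (nat_lit 0x160014) (nat_lit 0) (p (nat_lit 0x68612) (nat_lit 0) (p (nat_lit 0x50592) (nat_lit 0) (p (nat_lit 0x40512) (nat_lit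 0) (p (nat_lit 0x50312) (nat_lit 0) (p (nat_lit 0x38292) (nat_lit 0) (p (nat_lit 0x28212) (nat_lit 0) (p (nat_lit 0x38112) (nat_lit 0) (p (nat_lit 0x20092) (nat_lit 0) (p (nat_lit 0x10012) (nat_lit 0) pn)))))))))))))))))))))))))))))) :=
  Cl.node (nat_lit 0x10000c) (nat_lit 2) (by decide +kernel) (ClAll.succ (ClAll.succ ClAll.zero n174) s504)

def n225 : Cl (O (nat_lit 3)) (R (nat_lit 143633))
    (p (nat_lit 0x10000c) (nat_lit 0) (p (nat_lit 0x200004) (nat_lit 0) (p (nat_lit 0x20000c) (nat_lit 0) (p (nat_lit 0x380c2) (nat_lit 1) (p (nat_lit 0x444aa) (nat_lit 7) (p (nat_lit 0x111) (nat_lit 1) (p (nat_lit 0xd1) (nat_lit 1) (p (nat_lit 0xc1) (nat_lit 0) (p (nat_lit 0x119) (nat_lit 1) (p (nat_lit 0xc9) (nat_lit 0) (p (nat_lit 0x89) (nat_lit 1) (p (nat_lit 0x41) (nat_lit 0) (p (nat_lit 0x8a898a08881a) (nat_lit 0) (p (nat_lit 0xa090988079a) (nat_lit 0) (p (nat_lit 0x88088907871a)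 (nat_lit 0) (p (nat_lit 0x7880887069a) (nat_lit 0) (p (nat_lit 0x80000800088806860a) (nat_lit 0) (p (nat_lit 0x80000800068786058a) (nat_lit 0) (p (nat_lit 0x8687058502) (nat_lit 0) (p (nat_lit 0x606850482) (nat_lit 0) (p (nat_lit 0x160014) (nat_lit 0) (p (nat_lit 0x68612) (nat_lit 0) (p (nat_lit 0x50592) (nat_lit 0) (p (nat_lit 0x40512) (nat_lit 0) (p (nat_lit 0x50312) (nat_lit 0) (p (nat_lit 0x38292) (nat_lit 0) (p (nat_lit 0x28212) (nat_lit 0) (p (nat_lit 0x38112) (nat_lit 0) (p (nat_lit 0x20092) (nat_lit 0) (p (nat_lit 0x10012) (nat_lit 0) pn)))))))))))))))))))))))))))))) :=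
  Cl.node (nat_lit 0x100004) (nat_lit 2) (by decide +kernel) (ClAll.succ (ClAll.succ ClAll.zero n175) s510)

def n226 : Cl (O (nat_lit 3)) (R (nat_lit 143633))
    (p (nat_lit 0x10000c) (nat_lit 0) (p (nat_lit 0x200004) (nat_lit 0) (p (nat_lit 0x20000c) (nat_lit 0) (p (nat_lit 0x380c2) (nat_lit 1) (p (nat_lit 0x444aa) (nat_lit 7) (p (nat_lit 0x111) (nat_lit 1) (p (nat_lit 0x101) (nat_lit 0) (p (nat_lit 0xc1) (nat_lit 1) (p (nat_lit 0x119) (nat_lit 1) (p (nat_lit 0xc9) (nat_lit 0) (p (nat_lit 0x89) (nat_lit 1) (p (nat_lit 0x41) (nat_lit 0) (p (nat_lit 0x8a898a08881a) (nat_lit 0) (p (nat_lit 0xa090988079a) (nat_lit 0) (p (nat_lit 0x88088907871a) (nat_lit 0) (p (nat_lit 0x7880887069a) (nat_lit 0) (p (nat_lit 0x80000800088806860a) (nat_lit 0) (p (nat_lit 0x80000800068786058a) (nat_lit 0) (p (nat_lit 0x8687058502) (nat_lit 0) (p (nat_lit 0x606850482) (nat_lit 0) (p (nat_lit 0x160014)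 (nat_lit 0) (p (nat_lit 0x68612) (nat_lit 0) (p (nat_lit 0x50592) (nat_lit 0) (p (nat_lit 0x40512) (nat_lit 0) (p (nat_lit 0x50312) (nat_lit 0) (p (nat_lit 0x38292) (nat_lit 0) (p (nat_lit 0x28212) (nat_lit 0) (p (nat_lit 0x38112) (nat_lit 0) (p (nat_lit 0x20092) (nat_lit 0) (p (nat_lit 0x10012) (nat_lit 0) pn)))))))))))))))))))))))))))))) :=
  Cl.node (nat_lit 0x100004) (nat_lit 2) (by decide +kernel) (ClAll.succ (ClAll.succ ClAll.zero n176) s557)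

def n227 : Cl (O (nat_lit 3)) (R (nat_lit 143633))
    (p (nat_lit 0x100004) (nat_lit 0) (p (nat_lit 0x20000c) (nat_lit 0) (p (nat_lit 0x200004) (nat_lit 0) (p (nat_lit 0x380c2) (nat_lit 1) (p (nat_lit 0x3c4aa) (nat_lit 7) (p (nat_lit 0x89) (nat_lit 1) (p (nat_lit 0xc1) (nat_lit 1) (p (nat_lit 0x101) (nat_lit 1) (p (nat_lit 0x119) (nat_lit 0) (p (nat_lit 0xd1) (nat_lit 0) (p (nat_lit 0x81) (nat_lit 0) (p (nat_lit 0x41) (nat_lit 1) (p (nat_lit 0x8a898a08881a) (nat_lit 0) (p (nat_lit 0xa090988079a) (nat_lit 0) (p (nat_lit 0x88088907871a) (nat_lit 0) (p (nat_lit 0x7880887069a) (nat_lit 0) (p (nat_lit 0x80000800088806860a) (nat_lit 0) (p (nat_lit 0x80000800068786058a) (nat_lit 0) (p (nat_lit 0x8687058502) (nat_lit 0) (p (nat_lit 0x606850482) (nat_lit 0) (p (nat_lit 0x160014) (nat_lit 0) (p (nat_lit 0x68612) (nat_lit 0) (p (nat_lit 0x50592) (nat_lit 0) (p (nat_lit 0x40512) (nat_lit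 0) (p (nat_lit 0x50312) (nat_lit 0) (p (nat_lit 0x38292) (nat_lit 0) (p (nat_lit 0x28212) (nat_lit 0) (p (nat_lit 0x38112) (nat_lit 0) (p (nat_lit 0x20092) (nat_lit 0) (p (nat_lit 0x10012) (nat_lit 0) pn)))))))))))))))))))))))))))))) :=
  Cl.node (nat_lit 0x10000c) (nat_lit 2) (by decide +kernel) (ClAll.succ (ClAll.succ ClAll.zero s691) s692)

def n228 : Cl (O (nat_lit 3)) (R (nat_lit 143633))
    (p (nat_lit 0x109) (nat_lit 1) (p (nat_lit 0xb0014) (nat_lit 0) (p (nat_lit 0x380c2) (nat_lit 0) (p (nat_lit 0x44c2a) (nat_lit 1) (p (nat_lit 0x109) (nat_lit 0) (p (nat_lit 0x89) (nat_lit 1) (p (nat_lit 0xc9) (nat_lit 1) (p (nat_lit 0xc1) (nat_lit 0) (p (nat_lit 0x119) (nat_lit 1) (p (nat_lit 0xd1) (nat_lit 0) (p (nat_lit 0x81) (nat_lit 0) (p (nat_lit 0x41) (nat_lit 1) (p (nat_lit 0x8a898a08881a) (nat_lit 0) (p (nat_lit 0xa090988079a) (nat_lit 0) (p (nat_lit 0x88088907871a) (nat_lit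 0) (p (nat_lit 0x7880887069a) (nat_lit 0) (p (nat_lit 0x80000800088806860a) (nat_lit 0) (p (nat_lit 0x80000800068786058a) (nat_lit 0) (p (nat_lit 0x8687058502) (nat_lit 0) (p (nat_lit 0x606850482) (nat_lit 0) (p (nat_lit 0x160014) (nat_lit 0) (p (nat_lit 0x68612) (nat_lit 0) (p (nat_lit 0x50592) (nat_lit 0) (p (nat_lit 0x40512) (nat_lit 0) (p (nat_lit 0x50312) (nat_lit 0) (p (nat_lit 0x38292) (nat_lit 0) (p (nat_lit 0x28212) (nat_lit 0) (p (nat_lit 0x38112) (nat_lit 0) (p (nat_lit 0x20092) (nat_lit 0) (p (nat_lit 0x10012) (nat_lit 0) pn)))))))))))))))))))))))))))))) :=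
  Cl.node (nat_lit 0x3c4aa) (nat_lit 12) (by decide +kernel) (ClAll.succ (ClAll.succ (ClAll.succ (ClAll.succ (ClAll.succ (ClAll.succ (ClAll.succ (ClAll.succ (ClAll.succ (ClAll.succ (ClAll.succ (ClAll.succ ClAll.zero s704) s705) s706) s707) s708) s709) s710) s711) s712) s713) s714) s715)

def n229 : Cl (O (nat_lit 3)) (R (nat_lit 143633))
    (p (nat_lit 0x1fc004) (nat_lit 0) (p (nat_lit 0xb0014) (nat_lit 1) (p (nat_lit 0x380c2) (nat_lit 1) (p (nat_lit 0x3c4aa) (nat_lit 7) (p (nat_lit 0x109) (nat_lit 1) (p (nat_lit 0x89) (nat_lit 1) (p (nat_lit 0xc9) (nat_lit 1) (p (nat_lit 0xc1) (nat_lit 0) (p (nat_lit 0x119) (nat_lit 1) (p (nat_lit 0xd1) (nat_lit 0) (p (nat_lit 0x81) (nat_lit 0) (p (nat_lit 0x41) (nat_lit 1) (p (nat_lit 0x8a898a08881a) (nat_lit 0) (p (nat_lit 0xa090988079a) (nat_lit 0) (p (nat_lit 0x88088907871a) (nat_lit 0) (p (nat_lit 0x7880887069a) (nat_lit 0) (p (nat_lit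 0x80000800088806860a) (nat_lit 0) (p (nat_lit 0x80000800068786058a) (nat_lit 0) (p (nat_lit 0x8687058502) (nat_lit 0) (p (nat_lit 0x606850482) (nat_lit 0) (p (nat_lit 0x160014) (nat_lit 0) (p (nat_lit 0x68612) (nat_lit 0) (p (nat_lit 0x50592) (nat_lit 0) (p (nat_lit 0x40512) (nat_lit 0) (p (nat_lit 0x50312) (nat_lit 0) (p (nat_lit 0x38292) (nat_lit 0) (p (nat_lit 0x28212) (nat_lit 0) (p (nat_lit 0x38112) (nat_lit 0) (p (nat_lit 0x20092) (nat_lit 0) (p (nat_lit 0x10012) (nat_lit 0) pn)))))))))))))))))))))))))))))) :=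
  Cl.node (nat_lit 0x1fc00c) (nat_lit 2) (by decide +kernel) (ClAll.succ (ClAll.succ ClAll.zero n177) s742)

def n230 : Cl (O (nat_lit 3)) (R (nat_lit 143633))
    (p (nat_lit 0xb0014) (nat_lit 1) (p (nat_lit 0x200004) (nat_lit 0) (p (nat_lit 0x380c2) (nat_lit 1) (p (nat_lit 0x3c4aa) (nat_lit 10) (p (nat_lit 0x109) (nat_lit 1) (p (nat_lit 0x89) (nat_lit 1) (p (nat_lit 0xc9) (nat_lit 1) (p (nat_lit 0xc1) (nat_lit 0) (p (nat_lit 0x119) (nat_lit 1) (p (nat_lit 0xd1) (nat_lit 0) (p (nat_lit 0x81) (nat_lit 0) (p (nat_lit 0x41) (nat_lit 1) (p (nat_lit 0x8a898a08881a) (nat_lit 0) (p (nat_lit 0xa090988079a) (nat_lit 0) (p (nat_lit 0x88088907871a) (nat_lit 0) (p (nat_lit 0x7880887069a) (nat_lit 0) (p (nat_lit 0x80000800088806860a) (nat_lit 0) (p (nat_lit 0x80000800068786058a) (nat_lit 0) (p (nat_lit 0x8687058502) (nat_lit 0) (p (nat_lit 0x606850482) (nat_lit 0) (p (nat_lit 0x160014)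 (nat_lit 0) (p (nat_lit 0x68612) (nat_lit 0) (p (nat_lit 0x50592) (nat_lit 0) (p (nat_lit 0x40512) (nat_lit 0) (p (nat_lit 0x50312) (nat_lit 0) (p (nat_lit 0x38292) (nat_lit 0) (p (nat_lit 0x28212) (nat_lit 0) (p (nat_lit 0x38112) (nat_lit 0) (p (nat_lit 0x20092) (nat_lit 0) (p (nat_lit 0x10012) (nat_lit 0) pn)))))))))))))))))))))))))))))) :=
  Cl.node (nat_lit 0x1fc00c) (nat_lit 2) (by decide +kernel) (ClAll.succ (ClAll.succ ClAll.zero n178) s754)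

def n231 : Cl (O (nat_lit 3)) (R (nat_lit 143633))
    (p (nat_lit 0x200004) (nat_lit 0) (p (nat_lit 0x20000c) (nat_lit 0) (p (nat_lit 0x380c2) (nat_lit 0) (p (nat_lit 0x3c4aa) (nat_lit 7) (p (nat_lit 0x109) (nat_lit 1) (p (nat_lit 0x89) (nat_lit 1) (p (nat_lit 0x101) (nat_lit 0) (p (nat_lit 0xc1) (nat_lit 1) (p (nat_lit 0x119) (nat_lit 1) (p (nat_lit 0xd1) (nat_lit 0) (p (nat_lit 0x81) (nat_lit 0) (p (nat_lit 0x41) (nat_lit 1) (p (nat_lit 0x8a898a08881a) (nat_lit 0) (p (nat_lit 0xa090988079a) (nat_lit 0) (p (nat_lit 0x88088907871a) (nat_lit 0) (p (nat_lit 0x7880887069a) (nat_lit 0) (p (nat_lit 0x80000800088806860a) (nat_lit 0) (p (nat_lit 0x80000800068786058a) (nat_lit 0) (p (nat_lit 0x8687058502) (nat_lit 0) (p (nat_lit 0x606850482) (nat_lit 0) (p (nat_lit 0x160014) (nat_lit 0) (p (nat_lit 0x68612) (nat_lit 0) (p (nat_lit 0x50592) (nat_lit 0) (p (nat_lit 0x40512) (nat_lit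 0) (p (nat_lit 0x50312) (nat_lit 0) (p (nat_lit 0x38292) (nat_lit 0) (p (nat_lit 0x28212) (nat_lit 0) (p (nat_lit 0x38112) (nat_lit 0) (p (nat_lit 0x20092) (nat_lit 0) (p (nat_lit 0x10012) (nat_lit 0) pn)))))))))))))))))))))))))))))) :=
  Cl.node (nat_lit 0x10000c) (nat_lit 2) (by decide +kernel) (ClAll.succ (ClAll.succ ClAll.zero n179) s784)

def n232 : Cl (O (nat_lit 3)) (R (nat_lit 143633))
    (p (nat_lit 0x20000c) (nat_lit 0) (p (nat_lit 0x200004) (nat_lit 0) (p (nat_lit 0x380c2) (nat_lit 1) (p (nat_lit 0x3c4aa) (nat_lit 7) (p (nat_lit 0x109) (nat_lit 1) (p (nat_lit 0x89) (nat_lit 1) (p (nat_lit 0x101) (nat_lit 0) (p (nat_lit 0xc1) (nat_lit 1) (p (nat_lit 0x119) (nat_lit 1) (p (nat_lit 0xd1) (nat_lit 0) (p (nat_lit 0x81) (nat_lit 0) (p (nat_lit 0x41) (nat_lit 1) (p (nat_lit 0x8a898a08881a) (nat_lit 0) (p (nat_lit 0xa090988079a) (nat_lit 0) (p (nat_lit 0x88088907871a)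 (nat_lit 0) (p (nat_lit 0x7880887069a) (nat_lit 0) (p (nat_lit 0x80000800088806860a) (nat_lit 0) (p (nat_lit 0x80000800068786058a) (nat_lit 0) (p (nat_lit 0x8687058502) (nat_lit 0) (p (nat_lit 0x606850482) (nat_lit 0) (p (nat_lit 0x160014) (nat_lit 0) (p (nat_lit 0x68612) (nat_lit 0) (p (nat_lit 0x50592) (nat_lit 0) (p (nat_lit 0x40512) (nat_lit 0) (p (nat_lit 0x50312) (nat_lit 0) (p (nat_lit 0x38292) (nat_lit 0) (p (nat_lit 0x28212) (nat_lit 0) (p (nat_lit 0x38112) (nat_lit 0) (p (nat_lit 0x20092) (nat_lit 0) (p (nat_lit 0x10012) (nat_lit 0) pn)))))))))))))))))))))))))))))) :=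
  Cl.node (nat_lit 0x10000c) (nat_lit 2) (by decide +kernel) (ClAll.succ (ClAll.succ ClAll.zero n180) s809)

def n233 : Cl (O (nat_lit 3)) (R (nat_lit 143633))
    (p (nat_lit 0x200004) (nat_lit 0) (p (nat_lit 0xb0014) (nat_lit 0) (p (nat_lit 0x380c2) (nat_lit 0) (p (nat_lit 0x3c4aa) (nat_lit 10) (p (nat_lit 0x109) (nat_lit 1) (p (nat_lit 0x89) (nat_lit 1) (p (nat_lit 0x101) (nat_lit 0) (p (nat_lit 0xc1) (nat_lit 1) (p (nat_lit 0x119) (nat_lit 1) (p (nat_lit 0xd1) (nat_lit 0) (p (nat_lit 0x81) (nat_lit 0) (p (nat_lit 0x41) (nat_lit 1) (p (nat_lit 0x8a898a08881a) (nat_lit 0) (p (nat_lit 0xa090988079a) (nat_lit 0) (p (nat_lit 0x88088907871a) (nat_lit 0) (p (nat_lit 0x7880887069a) (nat_lit 0) (p (nat_lit 0x80000800088806860a) (nat_lit 0) (p (nat_lit 0x80000800068786058a) (nat_lit 0) (p (nat_lit 0x8687058502) (nat_lit 0) (p (nat_lit 0x606850482) (nat_lit 0) (p (nat_lit 0x160014)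 (nat_lit 0) (p (nat_lit 0x68612) (nat_lit 0) (p (nat_lit 0x50592) (nat_lit 0) (p (nat_lit 0x40512) (nat_lit 0) (p (nat_lit 0x50312) (nat_lit 0) (p (nat_lit 0x38292) (nat_lit 0) (p (nat_lit 0x28212) (nat_lit 0) (p (nat_lit 0x38112) (nat_lit 0) (p (nat_lit 0x20092) (nat_lit 0) (p (nat_lit 0x10012) (nat_lit 0) pn)))))))))))))))))))))))))))))) :=
  Cl.node (nat_lit 0x100004) (nat_lit 2) (by decide +kernel) (ClAll.succ (ClAll.succ ClAll.zero n181) s827)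

def n234 : Cl (O (nat_lit 3)) (R (nat_lit 143633))
    (p (nat_lit 0x200004) (nat_lit 0) (p (nat_lit 0xb0014) (nat_lit 0) (p (nat_lit 0x380c2) (nat_lit 1) (p (nat_lit 0x3c4aa) (nat_lit 10) (p (nat_lit 0x109) (nat_lit 1) (p (nat_lit 0x89) (nat_lit 1) (p (nat_lit 0x101) (nat_lit 0) (p (nat_lit 0xc1) (nat_lit 1) (p (nat_lit 0x119) (nat_lit 1) (p (nat_lit 0xd1) (nat_lit 0) (p (nat_lit 0x81) (nat_lit 0) (p (nat_lit 0x41) (nat_lit 1) (p (nat_lit 0x8a898a08881a) (nat_lit 0) (p (nat_lit 0xa090988079a) (nat_lit 0) (p (nat_lit 0x88088907871a) (nat_lit 0) (p (nat_lit 0x7880887069a) (nat_lit 0) (p (nat_lit 0x80000800088806860a) (nat_lit 0) (p (nat_lit 0x80000800068786058a) (nat_lit 0) (p (nat_lit 0x8687058502) (nat_lit 0) (p (nat_lit 0x606850482) (nat_lit 0) (p (nat_lit 0x160014) (nat_lit 0) (p (nat_lit 0x68612) (nat_lit 0) (p (nat_lit 0x50592) (nat_lit 0) (p (nat_lit 0x40512) (nat_lit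 0) (p (nat_lit 0x50312) (nat_lit 0) (p (nat_lit 0x38292) (nat_lit 0) (p (nat_lit 0x28212) (nat_lit 0) (p (nat_lit 0x38112) (nat_lit 0) (p (nat_lit 0x20092) (nat_lit 0) (p (nat_lit 0x10012) (nat_lit 0) pn)))))))))))))))))))))))))))))) :=
  Cl.node (nat_lit 0x100004) (nat_lit 2) (by decide +kernel) (ClAll.succ (ClAll.succ ClAll.zero n182) s832)

def n235 : Cl (O (nat_lit 3)) (R (nat_lit 143633))
    (p (nat_lit 0x100004) (nat_lit 0) (p (nat_lit 0x20000c) (nat_lit 0) (p (nat_lit 0x200004) (nat_lit 0) (p (nat_lit 0x380c2) (nat_lit 0) (p (nat_lit 0x3c4aa) (nat_lit 7) (p (nat_lit 0x89) (nat_lit 1) (p (nat_lit 0x101) (nat_lit 1) (p (nat_lit 0xc1) (nat_lit 1) (p (nat_lit 0x119) (nat_lit 1) (p (nat_lit 0xd1) (nat_lit 0) (p (nat_lit 0x81) (nat_lit 0) (p (nat_lit 0x41) (nat_lit 1) (p (nat_lit 0x8a898a08881a) (nat_lit 0) (p (nat_lit 0xa090988079a) (nat_lit 0) (p (nat_lit 0x88088907871a)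 (nat_lit 0) (p (nat_lit 0x7880887069a) (nat_lit 0) (p (nat_lit 0x80000800088806860a) (nat_lit 0) (p (nat_lit 0x80000800068786058a) (nat_lit 0) (p (nat_lit 0x8687058502) (nat_lit 0) (p (nat_lit 0x606850482) (nat_lit 0) (p (nat_lit 0x160014) (nat_lit 0) (p (nat_lit 0x68612) (nat_lit 0) (p (nat_lit 0x50592) (nat_lit 0) (p (nat_lit 0x40512) (nat_lit 0) (p (nat_lit 0x50312) (nat_lit 0) (p (nat_lit 0x38292) (nat_lit 0) (p (nat_lit 0x28212) (nat_lit 0) (p (nat_lit 0x38112) (nat_lit 0) (p (nat_lit 0x20092) (nat_lit 0) (p (nat_lit 0x10012) (nat_lit 0) pn)))))))))))))))))))))))))))))) :=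
  Cl.node (nat_lit 0x10000c) (nat_lit 2) (by decide +kernel) (ClAll.succ (ClAll.succ ClAll.zero n183) s846)

def n236 : Cl (O (nat_lit 3)) (R (nat_lit 143633))
    (p (nat_lit 0x100004) (nat_lit 0) (p (nat_lit 0x20000c) (nat_lit 0) (p (nat_lit 0x200004) (nat_lit 0) (p (nat_lit 0x380c2) (nat_lit 1) (p (nat_lit 0x3c4aa) (nat_lit 7) (p (nat_lit 0x89) (nat_lit 1) (p (nat_lit 0x101) (nat_lit 1) (p (nat_lit 0xc1) (nat_lit 1) (p (nat_lit 0x119) (nat_lit 1) (p (nat_lit 0xd1) (nat_lit 0) (p (nat_lit 0x81) (nat_lit 0) (p (nat_lit 0x41) (nat_lit 1) (p (nat_lit 0x8a898a08881a) (nat_lit 0) (p (nat_lit 0xa090988079a) (nat_lit 0) (p (nat_lit 0x88088907871a) (nat_lit 0) (p (nat_lit 0x7880887069a) (nat_lit 0) (p (nat_lit 0x80000800088806860a) (nat_lit 0) (p (nat_lit 0x80000800068786058a) (nat_lit 0) (p (nat_lit 0x8687058502) (nat_lit 0) (p (nat_lit 0x606850482) (nat_lit 0) (p (nat_lit 0x160014)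 (nat_lit 0) (p (nat_lit 0x68612) (nat_lit 0) (p (nat_lit 0x50592) (nat_lit 0) (p (nat_lit 0x40512) (nat_lit 0) (p (nat_lit 0x50312) (nat_lit 0) (p (nat_lit 0x38292) (nat_lit 0) (p (nat_lit 0x28212) (nat_lit 0) (p (nat_lit 0x38112) (nat_lit 0) (p (nat_lit 0x20092) (nat_lit 0) (p (nat_lit 0x10012) (nat_lit 0) pn)))))))))))))))))))))))))))))) :=
  Cl.node (nat_lit 0x10000c) (nat_lit 2) (by decide +kernel) (ClAll.succ (ClAll.succ ClAll.zero n184) s852)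

def n237 : Cl (O (nat_lit 3)) (R (nat_lit 143633))
    (p (nat_lit 0x100004) (nat_lit 0) (p (nat_lit 0xb0014) (nat_lit 0) (p (nat_lit 0x200004) (nat_lit 0) (p (nat_lit 0x380c2) (nat_lit 1) (p (nat_lit 0x3c4aa) (nat_lit 10) (p (nat_lit 0x89) (nat_lit 1) (p (nat_lit 0x101) (nat_lit 1) (p (nat_lit 0xc1) (nat_lit 1) (p (nat_lit 0x119) (nat_lit 1) (p (nat_lit 0xd1) (nat_lit 0) (p (nat_lit 0x81) (nat_lit 0) (p (nat_lit 0x41) (nat_lit 1) (p (nat_lit 0x8a898a08881a) (nat_lit 0) (p (nat_lit 0xa090988079a) (nat_lit 0) (p (nat_lit 0x88088907871a) (nat_lit 0) (p (nat_lit 0x7880887069a) (nat_lit 0) (p (nat_lit 0x80000800088806860a) (nat_lit 0) (p (nat_lit 0x80000800068786058a) (nat_lit 0) (p (nat_lit 0x8687058502) (nat_lit 0) (p (nat_lit 0x606850482) (nat_lit 0) (p (nat_lit 0x160014) (nat_lit 0) (p (nat_lit 0x68612) (nat_lit 0) (p (nat_lit 0x50592) (nat_lit 0) (p (nat_lit 0x40512) (nat_lit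 0) (p (nat_lit 0x50312) (nat_lit 0) (p (nat_lit 0x38292) (nat_lit 0) (p (nat_lit 0x28212) (nat_lit 0) (p (nat_lit 0x38112) (nat_lit 0) (p (nat_lit 0x20092) (nat_lit 0) (p (nat_lit 0x10012) (nat_lit 0) pn)))))))))))))))))))))))))))))) :=
  Cl.node (nat_lit 0x101) (nat_lit 2) (by decide +kernel) (ClAll.succ (ClAll.succ ClAll.zero n185) s861)

def n238 : Cl (O (nat_lit 3)) (R (nat_lit 143633))
    (p (nat_lit 0x20000c) (nat_lit 0) (p (nat_lit 0x200004) (nat_lit 0) (p (nat_lit 0x380c2) (nat_lit 0) (p (nat_lit 0x3c4aa) (nat_lit 7) (p (nat_lit 0xd1) (nat_lit 1) (p (nat_lit 0x111) (nat_lit 1) (p (nat_lit 0x109) (nat_lit 0) (p (nat_lit 0x101) (nat_lit 0) (p (nat_lit 0x119) (nat_lit 0) (p (nat_lit 0xc1) (nat_lit 0) (p (nat_lit 0x81) (nat_lit 1) (p (nat_lit 0x41) (nat_lit 1) (p (nat_lit 0x8a898a08881a) (nat_lit 0) (p (nat_lit 0xa090988079a) (nat_lit 0) (p (nat_lit 0x88088907871a) (nat_lit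 0) (p (nat_lit 0x7880887069a) (nat_lit 0) (p (nat_lit 0x80000800088806860a) (nat_lit 0) (p (nat_lit 0x80000800068786058a) (nat_lit 0) (p (nat_lit 0x8687058502) (nat_lit 0) (p (nat_lit 0x606850482) (nat_lit 0) (p (nat_lit 0x160014) (nat_lit 0) (p (nat_lit 0x68612) (nat_lit 0) (p (nat_lit 0x50592) (nat_lit 0) (p (nat_lit 0x40512) (nat_lit 0) (p (nat_lit 0x50312) (nat_lit 0) (p (nat_lit 0x38292) (nat_lit 0) (p (nat_lit 0x28212) (nat_lit 0) (p (nat_lit 0x38112) (nat_lit 0) (p (nat_lit 0x20092) (nat_lit 0) (p (nat_lit 0x10012) (nat_lit 0) pn)))))))))))))))))))))))))))))) :=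
  Cl.node (nat_lit 0x10000c) (nat_lit 2) (by decide +kernel) (ClAll.succ (ClAll.succ ClAll.zero n186) n187)

def n239 : Cl (O (nat_lit 3)) (R (nat_lit 143633))
    (p (nat_lit 0x20000c) (nat_lit 0) (p (nat_lit 0x200004) (nat_lit 0) (p (nat_lit 0x380c2) (nat_lit 1) (p (nat_lit 0x3c4aa) (nat_lit 7) (p (nat_lit 0xd1) (nat_lit 1) (p (nat_lit 0x111) (nat_lit 1) (p (nat_lit 0x109) (nat_lit 0) (p (nat_lit 0x101) (nat_lit 0) (p (nat_lit 0x119) (nat_lit 0) (p (nat_lit 0xc1) (nat_lit 0) (p (nat_lit 0x81) (nat_lit 1) (p (nat_lit 0x41) (nat_lit 1) (p (nat_lit 0x8a898a08881a) (nat_lit 0) (p (nat_lit 0xa090988079a) (nat_lit 0) (p (nat_lit 0x88088907871a) (nat_lit 0) (p (nat_lit 0x7880887069a) (nat_lit 0) (p (nat_lit 0x80000800088806860a) (nat_lit 0) (p (nat_lit 0x80000800068786058a) (nat_lit 0) (p (nat_lit 0x8687058502) (nat_lit 0) (p (nat_lit 0x606850482) (nat_lit 0) (p (nat_lit 0x160014)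 (nat_lit 0) (p (nat_lit 0x68612) (nat_lit 0) (p (nat_lit 0x50592) (nat_lit 0) (p (nat_lit 0x40512) (nat_lit 0) (p (nat_lit 0x50312) (nat_lit 0) (p (nat_lit 0x38292) (nat_lit 0) (p (nat_lit 0x28212) (nat_lit 0) (p (nat_lit 0x38112) (nat_lit 0) (p (nat_lit 0x20092) (nat_lit 0) (p (nat_lit 0x10012) (nat_lit 0) pn)))))))))))))))))))))))))))))) :=
  Cl.node (nat_lit 0x10000c) (nat_lit 2) (by decide +kernel) (ClAll.succ (ClAll.succ ClAll.zero n188) n189)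

def n240 : Cl (O (nat_lit 3)) (R (nat_lit 143633))
    (p (nat_lit 0x20000c) (nat_lit 0) (p (nat_lit 0x200004) (nat_lit 0) (p (nat_lit 0x380c2) (nat_lit 0) (p (nat_lit 0x3c4aa) (nat_lit 7) (p (nat_lit 0xd1) (nat_lit 1) (p (nat_lit 0xc9) (nat_lit 0) (p (nat_lit 0x109) (nat_lit 1) (p (nat_lit 0x101) (nat_lit 0) (p (nat_lit 0x119) (nat_lit 0) (p (nat_lit 0xc1) (nat_lit 0) (p (nat_lit 0x81) (nat_lit 1) (p (nat_lit 0x41) (nat_lit 1) (p (nat_lit 0x8a898a08881a) (nat_lit 0) (p (nat_lit 0xa090988079a) (nat_lit 0) (p (nat_lit 0x88088907871a) (nat_lit 0) (p (nat_lit 0x7880887069a) (nat_lit 0) (p (nat_lit 0x80000800088806860a) (nat_lit 0) (p (nat_lit 0x80000800068786058a) (nat_lit 0) (p (nat_lit 0x8687058502) (nat_lit 0) (p (nat_lit 0x606850482) (nat_lit 0) (p (nat_lit 0x160014) (nat_lit 0) (p (nat_lit 0x68612) (nat_lit 0) (p (nat_lit 0x50592) (nat_lit 0) (p (nat_lit 0x40512) (nat_lit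 0) (p (nat_lit 0x50312) (nat_lit 0) (p (nat_lit 0x38292) (nat_lit 0) (p (nat_lit 0x28212) (nat_lit 0) (p (nat_lit 0x38112) (nat_lit 0) (p (nat_lit 0x20092) (nat_lit 0) (p (nat_lit 0x10012) (nat_lit 0) pn)))))))))))))))))))))))))))))) :=
  Cl.node (nat_lit 0x10000c) (nat_lit 2) (by decide +kernel) (ClAll.succ (ClAll.succ ClAll.zero s992) s993)

def n241 : Cl (O (nat_lit 3)) (R (nat_lit 143633))
    (p (nat_lit 0x20000c) (nat_lit 0) (p (nat_lit 0x200004) (nat_lit 0) (p (nat_lit 0x380c2) (nat_lit 1) (p (nat_lit 0x3c4aa) (nat_lit 7) (p (nat_lit 0xd1) (nat_lit 1) (p (nat_lit 0xc9) (nat_lit 0) (p (nat_lit 0x109) (nat_lit 1) (p (nat_lit 0x101) (nat_lit 0) (p (nat_lit 0x119) (nat_lit 0) (p (nat_lit 0xc1) (nat_lit 0) (p (nat_lit 0x81) (nat_lit 1) (p (nat_lit 0x41) (nat_lit 1) (p (nat_lit 0x8a898a08881a) (nat_lit 0) (p (nat_lit 0xa090988079a) (nat_lit 0) (p (nat_lit 0x88088907871a)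 (nat_lit 0) (p (nat_lit 0x7880887069a) (nat_lit 0) (p (nat_lit 0x80000800088806860a) (nat_lit 0) (p (nat_lit 0x80000800068786058a) (nat_lit 0) (p (nat_lit 0x8687058502) (nat_lit 0) (p (nat_lit 0x606850482) (nat_lit 0) (p (nat_lit 0x160014) (nat_lit 0) (p (nat_lit 0x68612) (nat_lit 0) (p (nat_lit 0x50592) (nat_lit 0) (p (nat_lit 0x40512) (nat_lit 0) (p (nat_lit 0x50312) (nat_lit 0) (p (nat_lit 0x38292) (nat_lit 0) (p (nat_lit 0x28212) (nat_lit 0) (p (nat_lit 0x38112) (nat_lit 0) (p (nat_lit 0x20092) (nat_lit 0) (p (nat_lit 0x10012) (nat_lit 0) pn)))))))))))))))))))))))))))))) :=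
  Cl.node (nat_lit 0x10000c) (nat_lit 2) (by decide +kernel) (ClAll.succ (ClAll.succ ClAll.zero n190) s1001)

def n242 : Cl (O (nat_lit 3)) (R (nat_lit 143633))
    (p (nat_lit 0x10000c) (nat_lit 0) (p (nat_lit 0x200004) (nat_lit 0) (p (nat_lit 0x20000c) (nat_lit 0) (p (nat_lit 0x380c2) (nat_lit 0) (p (nat_lit 0x3c4aa) (nat_lit 7) (p (nat_lit 0xd1) (nat_lit 1) (p (nat_lit 0xc9) (nat_lit 0) (p (nat_lit 0x101) (nat_lit 1) (p (nat_lit 0x119) (nat_lit 0) (p (nat_lit 0xc1) (nat_lit 0) (p (nat_lit 0x81) (nat_lit 1) (p (nat_lit 0x41) (nat_lit 1) (p (nat_lit 0x8a898a08881a) (nat_lit 0) (p (nat_lit 0xa090988079a) (nat_lit 0) (p (nat_lit 0x88088907871a) (nat_lit 0) (p (nat_lit 0x7880887069a) (nat_lit 0) (p (nat_lit 0x80000800088806860a) (nat_lit 0) (p (nat_lit 0x80000800068786058a) (nat_lit 0) (p (nat_lit 0x8687058502) (nat_lit 0) (p (nat_lit 0x606850482) (nat_lit 0) (p (nat_lit 0x160014)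 (nat_lit 0) (p (nat_lit 0x68612) (nat_lit 0) (p (nat_lit 0x50592) (nat_lit 0) (p (nat_lit 0x40512) (nat_lit 0) (p (nat_lit 0x50312) (nat_lit 0) (p (nat_lit 0x38292) (nat_lit 0) (p (nat_lit 0x28212) (nat_lit 0) (p (nat_lit 0x38112) (nat_lit 0) (p (nat_lit 0x20092) (nat_lit 0) (p (nat_lit 0x10012) (nat_lit 0) pn)))))))))))))))))))))))))))))) :=
  Cl.node (nat_lit 0x100004) (nat_lit 2) (by decide +kernel) (ClAll.succ (ClAll.succ ClAll.zero n191) s1042)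

def n243 : Cl (O (nat_lit 3)) (R (nat_lit 143633))
    (p (nat_lit 0x10000c) (nat_lit 0) (p (nat_lit 0x20000c) (nat_lit 0) (p (nat_lit 0x200004) (nat_lit 0) (p (nat_lit 0x380c2) (nat_lit 1) (p (nat_lit 0x3c4aa) (nat_lit 7) (p (nat_lit 0xd1) (nat_lit 1) (p (nat_lit 0xc9) (nat_lit 0) (p (nat_lit 0x101) (nat_lit 1) (p (nat_lit 0x119) (nat_lit 0) (p (nat_lit 0xc1) (nat_lit 0) (p (nat_lit 0x81) (nat_lit 1) (p (nat_lit 0x41) (nat_lit 1) (p (nat_lit 0x8a898a08881a) (nat_lit 0) (p (nat_lit 0xa090988079a) (nat_lit 0) (p (nat_lit 0x88088907871a) (nat_lit 0) (p (nat_lit 0x7880887069a) (nat_lit 0) (p (nat_lit 0x80000800088806860a) (nat_lit 0) (p (nat_lit 0x80000800068786058a) (nat_lit 0) (p (nat_lit 0x8687058502) (nat_lit 0) (p (nat_lit 0x606850482) (nat_lit 0) (p (nat_lit 0x160014) (nat_lit 0) (p (nat_lit 0x68612) (nat_lit 0) (p (nat_lit 0x50592) (nat_lit 0) (p (nat_lit 0x40512) (nat_lit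 0) (p (nat_lit 0x50312) (nat_lit 0) (p (nat_lit 0x38292) (nat_lit 0) (p (nat_lit 0x28212) (nat_lit 0) (p (nat_lit 0x38112) (nat_lit 0) (p (nat_lit 0x20092) (nat_lit 0) (p (nat_lit 0x10012) (nat_lit 0) pn)))))))))))))))))))))))))))))) :=
  Cl.node (nat_lit 0x100004) (nat_lit 2) (by decide +kernel) (ClAll.succ (ClAll.succ ClAll.zero n192) s1059)

def n244 : Cl (O (nat_lit 3)) (R (nat_lit 143633))
    (p (nat_lit 0x100004) (nat_lit 0) (p (nat_lit 0x20000c) (nat_lit 0) (p (nat_lit 0x200004) (nat_lit 0) (p (nat_lit 0x380c2) (nat_lit 0) (p (nat_lit 0x3c4aa) (nat_lit 7) (p (nat_lit 0x111) (nat_lit 1) (p (nat_lit 0xd1) (nat_lit 1) (p (nat_lit 0xc9) (nat_lit 0) (p (nat_lit 0x119) (nat_lit 1) (p (nat_lit 0xc1) (nat_lit 0) (p (nat_lit 0x81) (nat_lit 1) (p (nat_lit 0x41) (nat_lit 1) (p (nat_lit 0x8a898a08881a) (nat_lit 0) (p (nat_lit 0xa090988079a) (nat_lit 0) (p (nat_lit 0x88088907871a)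 (nat_lit 0) (p (nat_lit 0x7880887069a) (nat_lit 0) (p (nat_lit 0x80000800088806860a) (nat_lit 0) (p (nat_lit 0x80000800068786058a) (nat_lit 0) (p (nat_lit 0x8687058502) (nat_lit 0) (p (nat_lit 0x606850482) (nat_lit 0) (p (nat_lit 0x160014) (nat_lit 0) (p (nat_lit 0x68612) (nat_lit 0) (p (nat_lit 0x50592) (nat_lit 0) (p (nat_lit 0x40512) (nat_lit 0) (p (nat_lit 0x50312) (nat_lit 0) (p (nat_lit 0x38292) (nat_lit 0) (p (nat_lit 0x28212) (nat_lit 0) (p (nat_lit 0x38112) (nat_lit 0) (p (nat_lit 0x20092) (nat_lit 0) (p (nat_lit 0x10012) (nat_lit 0) pn)))))))))))))))))))))))))))))) :=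
  Cl.node (nat_lit 0x10000c) (nat_lit 2) (by decide +kernel) (ClAll.succ (ClAll.succ ClAll.zero n193) s1079)

def n245 : Cl (O (nat_lit 3)) (R (nat_lit 143633))
    (p (nat_lit 0x100004) (nat_lit 0) (p (nat_lit 0x200004) (nat_lit 0) (p (nat_lit 0xb0014) (nat_lit 0) (p (nat_lit 0x380c2) (nat_lit 1) (p (nat_lit 0x3c4aa) (nat_lit 7) (p (nat_lit 0x111) (nat_lit 1) (p (nat_lit 0xd1) (nat_lit 1) (p (nat_lit 0xc9) (nat_lit 0) (p (nat_lit 0x119) (nat_lit 1) (p (nat_lit 0xc1) (nat_lit 0) (p (nat_lit 0x81) (nat_lit 1) (p (nat_lit 0x41) (nat_lit 1) (p (nat_lit 0x8a898a08881a) (nat_lit 0) (p (nat_lit 0xa090988079a) (nat_lit 0) (p (nat_lit 0x88088907871a) (nat_lit 0) (p (nat_lit 0x7880887069a) (nat_lit 0) (p (nat_lit 0x80000800088806860a) (nat_lit 0) (p (nat_lit 0x80000800068786058a) (nat_lit 0) (p (nat_lit 0x8687058502) (nat_lit 0) (p (nat_lit 0x606850482) (nat_lit 0) (p (nat_lit 0x160014)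 (nat_lit 0) (p (nat_lit 0x68612) (nat_lit 0) (p (nat_lit 0x50592) (nat_lit 0) (p (nat_lit 0x40512) (nat_lit 0) (p (nat_lit 0x50312) (nat_lit 0) (p (nat_lit 0x38292) (nat_lit 0) (p (nat_lit 0x28212) (nat_lit 0) (p (nat_lit 0x38112) (nat_lit 0) (p (nat_lit 0x20092) (nat_lit 0) (p (nat_lit 0x10012) (nat_lit 0) pn)))))))))))))))))))))))))))))) :=
  Cl.node (nat_lit 0x101) (nat_lit 2) (by decide +kernel) (ClAll.succ (ClAll.succ ClAll.zero n194) s1086)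

def n246 : Cl (O (nat_lit 3)) (R (nat_lit 143633))
    (p (nat_lit 0x1fc00c) (nat_lit 0) (p (nat_lit 0x1fc004) (nat_lit 0) (p (nat_lit 0xb0014) (nat_lit 1) (p (nat_lit 0x380c2) (nat_lit 1) (p (nat_lit 0x3c4aa) (nat_lit 7) (p (nat_lit 0x111) (nat_lit 1) (p (nat_lit 0xd1) (nat_lit 1) (p (nat_lit 0xc9) (nat_lit 0) (p (nat_lit 0x119) (nat_lit 1) (p (nat_lit 0xc1) (nat_lit 0) (p (nat_lit 0x81) (nat_lit 1) (p (nat_lit 0x41) (nat_lit 1) (p (nat_lit 0x8a898a08881a) (nat_lit 0) (p (nat_lit 0xa090988079a) (nat_lit 0) (p (nat_lit 0x88088907871a) (nat_lit 0) (p (nat_lit 0x7880887069a) (nat_lit 0) (p (nat_lit 0x80000800088806860a) (nat_lit 0) (p (nat_lit 0x80000800068786058a) (nat_lit 0) (p (nat_lit 0x8687058502) (nat_lit 0) (p (nat_lit 0x606850482) (nat_lit 0) (p (nat_lit 0x160014) (nat_lit 0) (p (nat_lit 0x68612) (nat_lit 0) (p (nat_lit 0x50592) (nat_lit 0) (p (nat_lit 0x40512) (nat_lit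 0) (p (nat_lit 0x50312) (nat_lit 0) (p (nat_lit 0x38292) (nat_lit 0) (p (nat_lit 0x28212) (nat_lit 0) (p (nat_lit 0x38112) (nat_lit 0) (p (nat_lit 0x20092) (nat_lit 0) (p (nat_lit 0x10012) (nat_lit 0) pn)))))))))))))))))))))))))))))) :=
  Cl.node (nat_lit 0x100004) (nat_lit 2) (by decide +kernel) (ClAll.succ (ClAll.succ ClAll.zero n195) s1092)

def n247 : Cl (O (nat_lit 3)) (R (nat_lit 143633))
    (p (nat_lit 0x100004) (nat_lit 0) (p (nat_lit 0x200004) (nat_lit 0) (p (nat_lit 0x20000c) (nat_lit 0) (p (nat_lit 0x380c2) (nat_lit 0) (p (nat_lit 0x3c4aa) (nat_lit 7) (p (nat_lit 0x111) (nat_lit 1) (p (nat_lit 0x109) (nat_lit 0) (p (nat_lit 0xc9) (nat_lit 1) (p (nat_lit 0x119) (nat_lit 1) (p (nat_lit 0xc1) (nat_lit 0) (p (nat_lit 0x81) (nat_lit 1) (p (nat_lit 0x41) (nat_lit 1) (p (nat_lit 0x8a898a08881a) (nat_lit 0) (p (nat_lit 0xa090988079a) (nat_lit 0) (p (nat_lit 0x88088907871a)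 (nat_lit 0) (p (nat_lit 0x7880887069a) (nat_lit 0) (p (nat_lit 0x80000800088806860a) (nat_lit 0) (p (nat_lit 0x80000800068786058a) (nat_lit 0) (p (nat_lit 0x8687058502) (nat_lit 0) (p (nat_lit 0x606850482) (nat_lit 0) (p (nat_lit 0x160014) (nat_lit 0) (p (nat_lit 0x68612) (nat_lit 0) (p (nat_lit 0x50592) (nat_lit 0) (p (nat_lit 0x40512) (nat_lit 0) (p (nat_lit 0x50312) (nat_lit 0) (p (nat_lit 0x38292) (nat_lit 0) (p (nat_lit 0x28212) (nat_lit 0) (p (nat_lit 0x38112) (nat_lit 0) (p (nat_lit 0x20092) (nat_lit 0) (p (nat_lit 0x10012) (nat_lit 0) pn)))))))))))))))))))))))))))))) :=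
  Cl.node (nat_lit 0x10000c) (nat_lit 2) (by decide +kernel) (ClAll.succ (ClAll.succ ClAll.zero n196) s1121)

def n248 : Cl (O (nat_lit 3)) (R (nat_lit 143633))
    (p (nat_lit 0x100004) (nat_lit 0) (p (nat_lit 0x200004) (nat_lit 0) (p (nat_lit 0xb0014) (nat_lit 0) (p (nat_lit 0x380c2) (nat_lit 1) (p (nat_lit 0x3c4aa) (nat_lit 7) (p (nat_lit 0x111) (nat_lit 1) (p (nat_lit 0x109) (nat_lit 0) (p (nat_lit 0xc9) (nat_lit 1) (p (nat_lit 0x119) (nat_lit 1) (p (nat_lit 0xc1) (nat_lit 0) (p (nat_lit 0x81) (nat_lit 1) (p (nat_lit 0x41) (nat_lit 1) (p (nat_lit 0x8a898a08881a) (nat_lit 0) (p (nat_lit 0xa090988079a) (nat_lit 0) (p (nat_lit 0x88088907871a) (nat_lit 0) (p (nat_lit 0x7880887069a) (nat_lit 0) (p (nat_lit 0x80000800088806860a) (nat_lit 0) (p (nat_lit 0x80000800068786058a) (nat_lit 0) (p (nat_lit 0x8687058502) (nat_lit 0) (p (nat_lit 0x606850482) (nat_lit 0) (p (nat_lit 0x160014)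 (nat_lit 0) (p (nat_lit 0x68612) (nat_lit 0) (p (nat_lit 0x50592) (nat_lit 0) (p (nat_lit 0x40512) (nat_lit 0) (p (nat_lit 0x50312) (nat_lit 0) (p (nat_lit 0x38292) (nat_lit 0) (p (nat_lit 0x28212) (nat_lit 0) (p (nat_lit 0x38112) (nat_lit 0) (p (nat_lit 0x20092) (nat_lit 0) (p (nat_lit 0x10012) (nat_lit 0) pn)))))))))))))))))))))))))))))) :=
  Cl.node (nat_lit 0x101) (nat_lit 2) (by decide +kernel) (ClAll.succ (ClAll.succ ClAll.zero n197) s1127)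

def n249 : Cl (O (nat_lit 3)) (R (nat_lit 143633))
    (p (nat_lit 0x1fc00c) (nat_lit 0) (p (nat_lit 0x1fc004) (nat_lit 0) (p (nat_lit 0xb0014) (nat_lit 1) (p (nat_lit 0x380c2) (nat_lit 1) (p (nat_lit 0x3c4aa) (nat_lit 7) (p (nat_lit 0x111) (nat_lit 1) (p (nat_lit 0x109) (nat_lit 0) (p (nat_lit 0xc9) (nat_lit 1) (p (nat_lit 0x119) (nat_lit 1) (p (nat_lit 0xc1) (nat_lit 0) (p (nat_lit 0x81) (nat_lit 1) (p (nat_lit 0x41) (nat_lit 1) (p (nat_lit 0x8a898a08881a) (nat_lit 0) (p (nat_lit 0xa090988079a) (nat_lit 0) (p (nat_lit 0x88088907871a) (nat_lit 0) (p (nat_lit 0x7880887069a) (nat_lit 0) (p (nat_lit 0x80000800088806860a) (nat_lit 0) (p (nat_lit 0x80000800068786058a) (nat_lit 0) (p (nat_lit 0x8687058502) (nat_lit 0) (p (nat_lit 0x606850482) (nat_lit 0) (p (nat_lit 0x160014) (nat_lit 0) (p (nat_lit 0x68612) (nat_lit 0) (p (nat_lit 0x50592) (nat_lit 0) (p (nat_lit 0x40512) (nat_lit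 0) (p (nat_lit 0x50312) (nat_lit 0) (p (nat_lit 0x38292) (nat_lit 0) (p (nat_lit 0x28212) (nat_lit 0) (p (nat_lit 0x38112) (nat_lit 0) (p (nat_lit 0x20092) (nat_lit 0) (p (nat_lit 0x10012) (nat_lit 0) pn)))))))))))))))))))))))))))))) :=
  Cl.node (nat_lit 0x100004) (nat_lit 2) (by decide +kernel) (ClAll.succ (ClAll.succ ClAll.zero n198) s1134)

def n250 : Cl (O (nat_lit 3)) (R (nat_lit 143633))
    (p (nat_lit 0xb0014) (nat_lit 0) (p (nat_lit 0x380c2) (nat_lit 0) (p (nat_lit 0x444aa) (nat_lit 7) (p (nat_lit 0x81) (nat_lit 1) (p (nat_lit 0xc9) (nat_lit 1) (p (nat_lit 0x109) (nat_lit 1) (p (nat_lit 0x101) (nat_lit 0) (p (nat_lit 0x119) (nat_lit 0) (p (nat_lit 0xd1) (nat_lit 0) (p (nat_lit 0x89) (nat_lit 0) (p (nat_lit 0x41) (nat_lit 0) (p (nat_lit 0x8a898a08881a) (nat_lit 0) (p (nat_lit 0xa090988079a) (nat_lit 0) (p (nat_lit 0x88088907871a) (nat_lit 0) (p (nat_lit 0x7880887069a)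 (nat_lit 0) (p (nat_lit 0x80000800088806860a) (nat_lit 0) (p (nat_lit 0x80000800068786058a) (nat_lit 0) (p (nat_lit 0x8687058502) (nat_lit 0) (p (nat_lit 0x606850482) (nat_lit 0) (p (nat_lit 0x160014) (nat_lit 0) (p (nat_lit 0x68612) (nat_lit 0) (p (nat_lit 0x50592) (nat_lit 0) (p (nat_lit 0x40512) (nat_lit 0) (p (nat_lit 0x50312) (nat_lit 0) (p (nat_lit 0x38292) (nat_lit 0) (p (nat_lit 0x28212) (nat_lit 0) (p (nat_lit 0x38112) (nat_lit 0) (p (nat_lit 0x20092) (nat_lit 0) (p (nat_lit 0x10012) (nat_lit 0) pn))))))))))))))))))))))))))))) :=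
  Cl.node (nat_lit 0x20000c) (nat_lit 2) (by decide +kernel) (ClAll.succ (ClAll.succ ClAll.zero n199) s14)

def n251 : Cl (O (nat_lit 3)) (R (nat_lit 143633))
    (p (nat_lit 0xb0014) (nat_lit 1) (p (nat_lit 0x380c2) (nat_lit 0) (p (nat_lit 0x444aa) (nat_lit 7) (p (nat_lit 0x81) (nat_lit 1) (p (nat_lit 0xc9) (nat_lit 1) (p (nat_lit 0x109) (nat_lit 1) (p (nat_lit 0x101) (nat_lit 0) (p (nat_lit 0x119) (nat_lit 0) (p (nat_lit 0xd1) (nat_lit 0) (p (nat_lit 0x89) (nat_lit 0) (p (nat_lit 0x41) (nat_lit 0) (p (nat_lit 0x8a898a08881a) (nat_lit 0) (p (nat_lit 0xa090988079a) (nat_lit 0) (p (nat_lit 0x88088907871a) (nat_lit 0) (p (nat_lit 0x7880887069a) (nat_lit 0) (p (nat_lit 0x80000800088806860a) (nat_lit 0) (p (nat_lit 0x80000800068786058a) (nat_lit 0) (p (nat_lit 0x8687058502) (nat_lit 0) (p (nat_lit 0x606850482) (nat_lit 0) (p (nat_lit 0x160014) (nat_lit 0) (p (nat_lit 0x68612)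 (nat_lit 0) (p (nat_lit 0x50592) (nat_lit 0) (p (nat_lit 0x40512) (nat_lit 0) (p (nat_lit 0x50312) (nat_lit 0) (p (nat_lit 0x38292) (nat_lit 0) (p (nat_lit 0x28212) (nat_lit 0) (p (nat_lit 0x38112) (nat_lit 0) (p (nat_lit 0x20092) (nat_lit 0) (p (nat_lit 0x10012) (nat_lit 0) pn))))))))))))))))))))))))))))) :=
  Cl.node (nat_lit 0x1fc004) (nat_lit 2) (by decide +kernel) (ClAll.succ (ClAll.succ ClAll.zero n200) s20)

def n252 : Cl (O (nat_lit 3)) (R (nat_lit 143633))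
    (p (nat_lit 0x20000c) (nat_lit 0) (p (nat_lit 0x380c2) (nat_lit 1) (p (nat_lit 0x444aa) (nat_lit 7) (p (nat_lit 0x81) (nat_lit 1) (p (nat_lit 0xc9) (nat_lit 1) (p (nat_lit 0x109) (nat_lit 1) (p (nat_lit 0x101) (nat_lit 0) (p (nat_lit 0x119) (nat_lit 0) (p (nat_lit 0xd1) (nat_lit 0) (p (nat_lit 0x89) (nat_lit 0) (p (nat_lit 0x41) (nat_lit 0) (p (nat_lit 0x8a898a08881a) (nat_lit 0) (p (nat_lit 0xa090988079a) (nat_lit 0) (p (nat_lit 0x88088907871a) (nat_lit 0) (p (nat_lit 0x7880887069a) (nat_lit 0) (p (nat_lit 0x80000800088806860a) (nat_lit 0) (p (nat_lit 0x80000800068786058a) (nat_lit 0) (p (nat_lit 0x8687058502) (nat_lit 0) (p (nat_lit 0x606850482) (nat_lit 0) (p (nat_lit 0x160014) (nat_lit 0) (p (nat_lit 0x68612) (nat_lit 0) (p (nat_lit 0x50592) (nat_lit 0) (p (nat_lit 0x40512) (nat_lit 0) (p (nat_lit 0x50312) (nat_lit 0) (p (nat_lit 0x38292) (nat_lit 0) (p (nat_lit 0x28212)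 (nat_lit 0) (p (nat_lit 0x38112) (nat_lit 0) (p (nat_lit 0x20092) (nat_lit 0) (p (nat_lit 0x10012) (nat_lit 0) pn))))))))))))))))))))))))))))) :=
  Cl.node (nat_lit 0x200004) (nat_lit 2) (by decide +kernel) (ClAll.succ (ClAll.succ ClAll.zero n201) s27)

def n253 : Cl (O (nat_lit 3)) (R (nat_lit 143633))
    (p (nat_lit 0xb0014) (nat_lit 0) (p (nat_lit 0x380c2) (nat_lit 0) (p (nat_lit 0x444aa) (nat_lit 7) (p (nat_lit 0x111) (nat_lit 0) (p (nat_lit 0xc9) (nat_lit 1) (p (nat_lit 0x81) (nat_lit 0) (p (nat_lit 0x101) (nat_lit 1) (p (nat_lit 0x119) (nat_lit 0) (p (nat_lit 0xd1) (nat_lit 0) (p (nat_lit 0x89) (nat_lit 0) (p (nat_lit 0x41) (nat_lit 0) (p (nat_lit 0x8a898a08881a) (nat_lit 0) (p (nat_lit 0xa090988079a) (nat_lit 0) (p (nat_lit 0x88088907871a) (nat_lit 0) (p (nat_lit 0x7880887069a) (nat_lit 0) (p (nat_lit 0x80000800088806860a) (nat_lit 0) (p (nat_lit 0x80000800068786058a)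 (nat_lit 0) (p (nat_lit 0x8687058502) (nat_lit 0) (p (nat_lit 0x606850482) (nat_lit 0) (p (nat_lit 0x160014) (nat_lit 0) (p (nat_lit 0x68612) (nat_lit 0) (p (nat_lit 0x50592) (nat_lit 0) (p (nat_lit 0x40512) (nat_lit 0) (p (nat_lit 0x50312) (nat_lit 0) (p (nat_lit 0x38292) (nat_lit 0) (p (nat_lit 0x28212) (nat_lit 0) (p (nat_lit 0x38112) (nat_lit 0) (p (nat_lit 0x20092) (nat_lit 0) (p (nat_lit 0x10012) (nat_lit 0) pn))))))))))))))))))))))))))))) :=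
  Cl.node (nat_lit 0x20000c) (nat_lit 2) (by decide +kernel) (ClAll.succ (ClAll.succ ClAll.zero n202) s57)

def n254 : Cl (O (nat_lit 3)) (R (nat_lit 143633))
    (p (nat_lit 0xb0014) (nat_lit 1) (p (nat_lit 0x380c2) (nat_lit 0) (p (nat_lit 0x444aa) (nat_lit 7) (p (nat_lit 0x111) (nat_lit 0) (p (nat_lit 0xc9) (nat_lit 1) (p (nat_lit 0x81) (nat_lit 0) (p (nat_lit 0x101) (nat_lit 1) (p (nat_lit 0x119) (nat_lit 0) (p (nat_lit 0xd1) (nat_lit 0) (p (nat_lit 0x89) (nat_lit 0) (p (nat_lit 0x41) (nat_lit 0) (p (nat_lit 0x8a898a08881a) (nat_lit 0) (p (nat_lit 0xa090988079a) (nat_lit 0) (p (nat_lit 0x88088907871a) (nat_lit 0) (p (nat_lit 0x7880887069a) (nat_lit 0) (p (nat_lit 0x80000800088806860a) (nat_lit 0) (p (nat_lit 0x80000800068786058a) (nat_lit 0) (p (nat_lit 0x8687058502) (nat_lit 0) (p (nat_lit 0x606850482) (nat_lit 0) (p (nat_lit 0x160014) (nat_lit 0) (p (nat_lit 0x68612)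 (nat_lit 0) (p (nat_lit 0x50592) (nat_lit 0) (p (nat_lit 0x40512) (nat_lit 0) (p (nat_lit 0x50312) (nat_lit 0) (p (nat_lit 0x38292) (nat_lit 0) (p (nat_lit 0x28212) (nat_lit 0) (p (nat_lit 0x38112) (nat_lit 0) (p (nat_lit 0x20092) (nat_lit 0) (p (nat_lit 0x10012) (nat_lit 0) pn))))))))))))))))))))))))))))) :=
  Cl.node (nat_lit 0x1fc004) (nat_lit 2) (by decide +kernel) (ClAll.succ (ClAll.succ ClAll.zero n203) s61)

def n255 : Cl (O (nat_lit 3)) (R (nat_lit 143633))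
    (p (nat_lit 0x20000c) (nat_lit 0) (p (nat_lit 0x380c2) (nat_lit 1) (p (nat_lit 0x444aa) (nat_lit 7) (p (nat_lit 0x111) (nat_lit 0) (p (nat_lit 0xc9) (nat_lit 1) (p (nat_lit 0x81) (nat_lit 0) (p (nat_lit 0x101) (nat_lit 1) (p (nat_lit 0x119) (nat_lit 0) (p (nat_lit 0xd1) (nat_lit 0) (p (nat_lit 0x89) (nat_lit 0) (p (nat_lit 0x41) (nat_lit 0) (p (nat_lit 0x8a898a08881a) (nat_lit 0) (p (nat_lit 0xa090988079a) (nat_lit 0) (p (nat_lit 0x88088907871a) (nat_lit 0) (p (nat_lit 0x7880887069a) (nat_lit 0) (p (nat_lit 0x80000800088806860a) (nat_lit 0) (p (nat_lit 0x80000800068786058a) (nat_lit 0) (p (nat_lit 0x8687058502) (nat_lit 0) (p (nat_lit 0x606850482) (nat_lit 0) (p (nat_lit 0x160014) (nat_lit 0) (p (nat_lit 0x68612) (nat_lit 0) (p (nat_lit 0x50592) (nat_lit 0) (p (nat_lit 0x40512) (nat_lit 0) (p (nat_lit 0x50312) (nat_lit 0) (p (nat_lit 0x38292) (nat_lit 0) (p (nat_lit 0x28212)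 (nat_lit 0) (p (nat_lit 0x38112) (nat_lit 0) (p (nat_lit 0x20092) (nat_lit 0) (p (nat_lit 0x10012) (nat_lit 0) pn))))))))))))))))))))))))))))) :=
  Cl.node (nat_lit 0x200004) (nat_lit 2) (by decide +kernel) (ClAll.succ (ClAll.succ ClAll.zero n204) s67)

def n256 : Cl (O (nat_lit 3)) (R (nat_lit 143633))
    (p (nat_lit 0x20000c) (nat_lit 0) (p (nat_lit 0x380c2) (nat_lit 1) (p (nat_lit 0x444aa) (nat_lit 7) (p (nat_lit 0xc9) (nat_lit 1) (p (nat_lit 0xc1) (nat_lit 0) (p (nat_lit 0x81) (nat_lit 1) (p (nat_lit 0x101) (nat_lit 1) (p (nat_lit 0x119) (nat_lit 0) (p (nat_lit 0xd1) (nat_lit 0) (p (nat_lit 0x89) (nat_lit 0) (p (nat_lit 0x41) (nat_lit 0) (p (nat_lit 0x8a898a08881a) (nat_lit 0) (p (nat_lit 0xa090988079a) (nat_lit 0) (p (nat_lit 0x88088907871a) (nat_lit 0) (p (nat_lit 0x7880887069a) (nat_lit 0) (p (nat_lit 0x80000800088806860a) (nat_lit 0) (p (nat_lit 0x80000800068786058a)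 (nat_lit 0) (p (nat_lit 0x8687058502) (nat_lit 0) (p (nat_lit 0x606850482) (nat_lit 0) (p (nat_lit 0x160014) (nat_lit 0) (p (nat_lit 0x68612) (nat_lit 0) (p (nat_lit 0x50592) (nat_lit 0) (p (nat_lit 0x40512) (nat_lit 0) (p (nat_lit 0x50312) (nat_lit 0) (p (nat_lit 0x38292) (nat_lit 0) (p (nat_lit 0x28212) (nat_lit 0) (p (nat_lit 0x38112) (nat_lit 0) (p (nat_lit 0x20092) (nat_lit 0) (p (nat_lit 0x10012) (nat_lit 0) pn))))))))))))))))))))))))))))) :=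
  Cl.node (nat_lit 0x200004) (nat_lit 2) (by decide +kernel) (ClAll.succ (ClAll.succ ClAll.zero n205) s98)

def n257 : Cl (O (nat_lit 3)) (R (nat_lit 143633))
    (p (nat_lit 0x81) (nat_lit 0) (p (nat_lit 0x101) (nat_lit 1) (p (nat_lit 0x380c2) (nat_lit 0) (p (nat_lit 0x3cc2a) (nat_lit 10) (p (nat_lit 0x109) (nat_lit 1) (p (nat_lit 0xc9) (nat_lit 1) (p (nat_lit 0xc1) (nat_lit 0) (p (nat_lit 0x119) (nat_lit 1) (p (nat_lit 0xd1) (nat_lit 0) (p (nat_lit 0x89) (nat_lit 0) (p (nat_lit 0x41) (nat_lit 0) (p (nat_lit 0x8a898a08881a) (nat_lit 0) (p (nat_lit 0xa090988079a) (nat_lit 0) (p (nat_lit 0x88088907871a) (nat_lit 0) (p (nat_lit 0x7880887069a) (nat_lit 0) (p (nat_lit 0x80000800088806860a) (nat_lit 0) (p (nat_lit 0x80000800068786058a) (nat_lit 0) (p (nat_lit 0x8687058502) (nat_lit 0) (p (nat_lit 0x606850482) (nat_lit 0) (p (nat_lit 0x160014) (nat_lit 0) (p (nat_lit 0x68612) (nat_lit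 0) (p (nat_lit 0x50592) (nat_lit 0) (p (nat_lit 0x40512) (nat_lit 0) (p (nat_lit 0x50312) (nat_lit 0) (p (nat_lit 0x38292) (nat_lit 0) (p (nat_lit 0x28212) (nat_lit 0) (p (nat_lit 0x38112) (nat_lit 0) (p (nat_lit 0x20092) (nat_lit 0) (p (nat_lit 0x10012) (nat_lit 0) pn))))))))))))))))))))))))))))) :=
  Cl.node (nat_lit 0x200004) (nat_lit 2) (by decide +kernel) (ClAll.succ (ClAll.succ ClAll.zero n206) s120)

def n258 : Cl (O (nat_lit 3)) (R (nat_lit 143633))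
    (p (nat_lit 0x81) (nat_lit 1) (p (nat_lit 0x101) (nat_lit 1) (p (nat_lit 0x380c2) (nat_lit 0) (p (nat_lit 0x3cc2a) (nat_lit 10) (p (nat_lit 0x109) (nat_lit 1) (p (nat_lit 0xc9) (nat_lit 1) (p (nat_lit 0xc1) (nat_lit 0) (p (nat_lit 0x119) (nat_lit 1) (p (nat_lit 0xd1) (nat_lit 0) (p (nat_lit 0x89) (nat_lit 0) (p (nat_lit 0x41) (nat_lit 0) (p (nat_lit 0x8a898a08881a) (nat_lit 0) (p (nat_lit 0xa090988079a) (nat_lit 0) (p (nat_lit 0x88088907871a) (nat_lit 0) (p (nat_lit 0x7880887069a) (nat_lit 0) (p (nat_lit 0x80000800088806860a) (nat_lit 0) (p (nat_lit 0x80000800068786058a) (nat_lit 0) (p (nat_lit 0x8687058502) (nat_lit 0) (p (nat_lit 0x606850482) (nat_lit 0) (p (nat_lit 0x160014) (nat_lit 0) (p (nat_lit 0x68612) (nat_lit 0) (p (nat_lit 0x50592) (nat_lit 0) (p (nat_lit 0x40512) (nat_lit 0) (p (nat_lit 0x50312) (nat_lit 0) (p (nat_lit 0x38292) (nat_lit 0) (p (nat_lit 0x28212)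 (nat_lit 0) (p (nat_lit 0x38112) (nat_lit 0) (p (nat_lit 0x20092) (nat_lit 0) (p (nat_lit 0x10012) (nat_lit 0) pn))))))))))))))))))))))))))))) :=
  Cl.node (nat_lit 0x444aa) (nat_lit 12) (by decide +kernel) (ClAll.succ (ClAll.succ (ClAll.succ (ClAll.succ (ClAll.succ (ClAll.succ (ClAll.succ (ClAll.succ (ClAll.succ (ClAll.succ (ClAll.succ (ClAll.succ ClAll.zero s121) s122) s123) s124) s125) s126) s127) n207) s130) s131) s132) s133)

def n259 : Cl (O (nat_lit 3)) (R (nat_lit 143633))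
    (p (nat_lit 0x101) (nat_lit 1) (p (nat_lit 0x81) (nat_lit 1) (p (nat_lit 0x380c2) (nat_lit 1) (p (nat_lit 0x3cc2a) (nat_lit 11) (p (nat_lit 0x109) (nat_lit 1) (p (nat_lit 0xc9) (nat_lit 1) (p (nat_lit 0xc1) (nat_lit 0) (p (nat_lit 0x119) (nat_lit 1) (p (nat_lit 0xd1) (nat_lit 0) (p (nat_lit 0x89) (nat_lit 0) (p (nat_lit 0x41) (nat_lit 0) (p (nat_lit 0x8a898a08881a) (nat_lit 0) (p (nat_lit 0xa090988079a) (nat_lit 0) (p (nat_lit 0x88088907871a) (nat_lit 0) (p (nat_lit 0x7880887069a) (nat_lit 0) (p (nat_lit 0x80000800088806860a) (nat_lit 0) (p (nat_lit 0x80000800068786058a) (nat_lit 0) (p (nat_lit 0x8687058502) (nat_lit 0) (p (nat_lit 0x606850482) (nat_lit 0) (p (nat_lit 0x160014) (nat_lit 0) (p (nat_lit 0x68612) (nat_lit 0) (p (nat_lit 0x50592) (nat_lit 0) (p (nat_lit 0x40512) (nat_lit 0) (p (nat_lit 0x50312) (nat_lit 0) (p (nat_lit 0x38292) (nat_lit 0) (p (nat_lit 0x28212)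 (nat_lit 0) (p (nat_lit 0x38112) (nat_lit 0) (p (nat_lit 0x20092) (nat_lit 0) (p (nat_lit 0x10012) (nat_lit 0) pn))))))))))))))))))))))))))))) :=
  Cl.node (nat_lit 0x444aa) (nat_lit 12) (by decide +kernel) (ClAll.succ (ClAll.succ (ClAll.succ (ClAll.succ (ClAll.succ (ClAll.succ (ClAll.succ (ClAll.succ (ClAll.succ (ClAll.succ (ClAll.succ (ClAll.succ ClAll.zero s138) s139) s140) s141) s142) s143) s144) n208) s159) s160) s161) s162)

def n260 : Cl (O (nat_lit 3)) (R (nat_lit 143633))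
    (p (nat_lit 0xb0014) (nat_lit 0) (p (nat_lit 0x380c2) (nat_lit 0) (p (nat_lit 0x44c2a) (nat_lit 1) (p (nat_lit 0x109) (nat_lit 0) (p (nat_lit 0x101) (nat_lit 0) (p (nat_lit 0x81) (nat_lit 1) (p (nat_lit 0xc1) (nat_lit 1) (p (nat_lit 0x119) (nat_lit 1) (p (nat_lit 0xd1) (nat_lit 0) (p (nat_lit 0x89) (nat_lit 0) (p (nat_lit 0x41) (nat_lit 0) (p (nat_lit 0x8a898a08881a) (nat_lit 0) (p (nat_lit 0xa090988079a) (nat_lit 0) (p (nat_lit 0x88088907871a) (nat_lit 0) (p (nat_lit 0x7880887069a) (nat_lit 0) (p (nat_lit 0x80000800088806860a) (nat_lit 0) (p (nat_lit 0x80000800068786058a) (nat_lit 0) (p (nat_lit 0x8687058502) (nat_lit 0) (p (nat_lit 0x606850482) (nat_lit 0) (p (nat_lit 0x160014) (nat_lit 0) (p (nat_lit 0x68612) (nat_lit 0) (p (nat_lit 0x50592) (nat_lit 0) (p (nat_lit 0x40512) (nat_lit 0) (p (nat_lit 0x50312) (nat_lit 0) (p (nat_lit 0x38292) (nat_lit 0) (p (nat_lit 0x28212)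 (nat_lit 0) (p (nat_lit 0x38112) (nat_lit 0) (p (nat_lit 0x20092) (nat_lit 0) (p (nat_lit 0x10012) (nat_lit 0) pn))))))))))))))))))))))))))))) :=
  Cl.node (nat_lit 0x4c42a) (nat_lit 12) (by decide +kernel) (ClAll.succ (ClAll.succ (ClAll.succ (ClAll.succ (ClAll.succ (ClAll.succ (ClAll.succ (ClAll.succ (ClAll.succ (ClAll.succ (ClAll.succ (ClAll.succ ClAll.zero s177) s178) s179) s180) s181) s182) s183) s184) s185) s186) s187) s188)

def n261 : Cl (O (nat_lit 3)) (R (nat_lit 143633))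
    (p (nat_lit 0xb0014) (nat_lit 0) (p (nat_lit 0x380c2) (nat_lit 0) (p (nat_lit 0x444aa) (nat_lit 7) (p (nat_lit 0x109) (nat_lit 1) (p (nat_lit 0x101) (nat_lit 0) (p (nat_lit 0x81) (nat_lit 1) (p (nat_lit 0xc1) (nat_lit 1) (p (nat_lit 0x119) (nat_lit 1) (p (nat_lit 0xd1) (nat_lit 0) (p (nat_lit 0x89) (nat_lit 0) (p (nat_lit 0x41) (nat_lit 0) (p (nat_lit 0x8a898a08881a) (nat_lit 0) (p (nat_lit 0xa090988079a) (nat_lit 0) (p (nat_lit 0x88088907871a) (nat_lit 0) (p (nat_lit 0x7880887069a) (nat_lit 0) (p (nat_lit 0x80000800088806860a) (nat_lit 0) (p (nat_lit 0x80000800068786058a) (nat_lit 0) (p (nat_lit 0x8687058502) (nat_lit 0) (p (nat_lit 0x606850482) (nat_lit 0) (p (nat_lit 0x160014) (nat_lit 0) (p (nat_lit 0x68612) (nat_lit 0) (p (nat_lit 0x50592) (nat_lit 0) (p (nat_lit 0x40512) (nat_lit 0) (p (nat_lit 0x50312) (nat_lit 0) (p (nat_lit 0x38292) (nat_lit 0) (p (nat_lit 0x28212)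 (nat_lit 0) (p (nat_lit 0x38112) (nat_lit 0) (p (nat_lit 0x20092) (nat_lit 0) (p (nat_lit 0x10012) (nat_lit 0) pn))))))))))))))))))))))))))))) :=
  Cl.node (nat_lit 0x20000c) (nat_lit 2) (by decide +kernel) (ClAll.succ (ClAll.succ ClAll.zero n209) s211)

def n262 : Cl (O (nat_lit 3)) (R (nat_lit 143633))
    (p (nat_lit 0x20000c) (nat_lit 0) (p (nat_lit 0x380c2) (nat_lit 1) (p (nat_lit 0x444aa) (nat_lit 7) (p (nat_lit 0x109) (nat_lit 1) (p (nat_lit 0x101) (nat_lit 0) (p (nat_lit 0x81) (nat_lit 1) (p (nat_lit 0xc1) (nat_lit 1) (p (nat_lit 0x119) (nat_lit 1) (p (nat_lit 0xd1) (nat_lit 0) (p (nat_lit 0x89) (nat_lit 0) (p (nat_lit 0x41) (nat_lit 0) (p (nat_lit 0x8a898a08881a) (nat_lit 0) (p (nat_lit 0xa090988079a) (nat_lit 0) (p (nat_lit 0x88088907871a) (nat_lit 0) (p (nat_lit 0x7880887069a) (nat_lit 0) (p (nat_lit 0x80000800088806860a) (nat_lit 0) (p (nat_lit 0x80000800068786058a)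 (nat_lit 0) (p (nat_lit 0x8687058502) (nat_lit 0) (p (nat_lit 0x606850482) (nat_lit 0) (p (nat_lit 0x160014) (nat_lit 0) (p (nat_lit 0x68612) (nat_lit 0) (p (nat_lit 0x50592) (nat_lit 0) (p (nat_lit 0x40512) (nat_lit 0) (p (nat_lit 0x50312) (nat_lit 0) (p (nat_lit 0x38292) (nat_lit 0) (p (nat_lit 0x28212) (nat_lit 0) (p (nat_lit 0x38112) (nat_lit 0) (p (nat_lit 0x20092) (nat_lit 0) (p (nat_lit 0x10012) (nat_lit 0) pn))))))))))))))))))))))))))))) :=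
  Cl.node (nat_lit 0x200004) (nat_lit 2) (by decide +kernel) (ClAll.succ (ClAll.succ ClAll.zero n210) s220)

def n263 : Cl (O (nat_lit 3)) (R (nat_lit 143633))
    (p (nat_lit 0xb0014) (nat_lit 0) (p (nat_lit 0x380c2) (nat_lit 1) (p (nat_lit 0x444aa) (nat_lit 8) (p (nat_lit 0x109) (nat_lit 1) (p (nat_lit 0x101) (nat_lit 0) (p (nat_lit 0x81) (nat_lit 1) (p (nat_lit 0xc1) (nat_lit 1) (p (nat_lit 0x119) (nat_lit 1) (p (nat_lit 0xd1) (nat_lit 0) (p (nat_lit 0x89) (nat_lit 0) (p (nat_lit 0x41) (nat_lit 0) (p (nat_lit 0x8a898a08881a) (nat_lit 0) (p (nat_lit 0xa090988079a) (nat_lit 0) (p (nat_lit 0x88088907871a) (nat_lit 0) (p (nat_lit 0x7880887069a) (nat_lit 0) (p (nat_lit 0x80000800088806860a) (nat_lit 0) (p (nat_lit 0x80000800068786058a) (nat_lit 0) (p (nat_lit 0x8687058502) (nat_lit 0) (p (nat_lit 0x606850482) (nat_lit 0) (p (nat_lit 0x160014) (nat_lit 0) (p (nat_lit 0x68612)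 (nat_lit 0) (p (nat_lit 0x50592) (nat_lit 0) (p (nat_lit 0x40512) (nat_lit 0) (p (nat_lit 0x50312) (nat_lit 0) (p (nat_lit 0x38292) (nat_lit 0) (p (nat_lit 0x28212) (nat_lit 0) (p (nat_lit 0x38112) (nat_lit 0) (p (nat_lit 0x20092) (nat_lit 0) (p (nat_lit 0x10012) (nat_lit 0) pn))))))))))))))))))))))))))))) :=
  Cl.node (nat_lit 0x20000c) (nat_lit 2) (by decide +kernel) (ClAll.succ (ClAll.succ ClAll.zero n211) s226)

def n264 : Cl (O (nat_lit 3)) (R (nat_lit 143633))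
    (p (nat_lit 0x3cc2a) (nat_lit 0) (p (nat_lit 0x41) (nat_lit 0) (p (nat_lit 0x20000c) (nat_lit 0) (p (nat_lit 0x200004) (nat_lit 0) (p (nat_lit 0xc1) (nat_lit 1) (p (nat_lit 0x109) (nat_lit 1) (p (nat_lit 0x101) (nat_lit 0) (p (nat_lit 0x111) (nat_lit 0) (p (nat_lit 0xd1) (nat_lit 1) (p (nat_lit 0x89) (nat_lit 0) (p (nat_lit 0x41) (nat_lit 0) (p (nat_lit 0x8a898a08881a) (nat_lit 0) (p (nat_lit 0xa090988079a) (nat_lit 0) (p (nat_lit 0x88088907871a) (nat_lit 0) (p (nat_lit 0x7880887069a) (nat_lit 0) (p (nat_lit 0x80000800088806860a) (nat_lit 0) (p (nat_lit 0x80000800068786058a) (nat_lit 0) (p (nat_lit 0x8687058502) (nat_lit 0) (p (nat_lit 0x606850482) (nat_lit 0) (p (nat_lit 0x160014) (nat_lit 0) (p (nat_lit 0x68612) (nat_lit 0) (p (nat_lit 0x50592) (nat_lit 0) (p (nat_lit 0x40512) (nat_lit 0) (p (nat_lit 0x50312) (nat_lit 0) (p (nat_lit 0x38292) (nat_lit 0) (p (nat_lit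 0x28212) (nat_lit 0) (p (nat_lit 0x38112) (nat_lit 0) (p (nat_lit 0x20092) (nat_lit 0) (p (nat_lit 0x10012) (nat_lit 0) pn))))))))))))))))))))))))))))) :=
  Cl.node (nat_lit 0x380c2) (nat_lit 1) (by decide +kernel) (ClAll.succ ClAll.zero n212)

def n265 : Cl (O (nat_lit 3)) (R (nat_lit 143633))
    (p (nat_lit 0x3cc2a) (nat_lit 0) (p (nat_lit 0x109) (nat_lit 1) (p (nat_lit 0x20000c) (nat_lit 0) (p (nat_lit 0x200004) (nat_lit 0) (p (nat_lit 0x119) (nat_lit 0) (p (nat_lit 0x81) (nat_lit 0) (p (nat_lit 0x101) (nat_lit 1) (p (nat_lit 0x111) (nat_lit 0) (p (nat_lit 0xd1) (nat_lit 1) (p (nat_lit 0x89) (nat_lit 0) (p (nat_lit 0x41) (nat_lit 0) (p (nat_lit 0x8a898a08881a) (nat_lit 0) (p (nat_lit 0xa090988079a) (nat_lit 0) (p (nat_lit 0x88088907871a) (nat_lit 0) (p (nat_lit 0x7880887069a) (nat_lit 0) (p (nat_lit 0x80000800088806860a) (nat_lit 0) (p (nat_lit 0x80000800068786058a) (nat_lit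 0) (p (nat_lit 0x8687058502) (nat_lit 0) (p (nat_lit 0x606850482) (nat_lit 0) (p (nat_lit 0x160014) (nat_lit 0) (p (nat_lit 0x68612) (nat_lit 0) (p (nat_lit 0x50592) (nat_lit 0) (p (nat_lit 0x40512) (nat_lit 0) (p (nat_lit 0x50312) (nat_lit 0) (p (nat_lit 0x38292) (nat_lit 0) (p (nat_lit 0x28212) (nat_lit 0) (p (nat_lit 0x38112) (nat_lit 0) (p (nat_lit 0x20092) (nat_lit 0) (p (nat_lit 0x10012) (nat_lit 0) pn))))))))))))))))))))))))))))) :=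
  Cl.node (nat_lit 0x380c2) (nat_lit 1) (by decide +kernel) (ClAll.succ ClAll.zero n213)

def n266 : Cl (O (nat_lit 3)) (R (nat_lit 143633))
    (p (nat_lit 0xb0014) (nat_lit 0) (p (nat_lit 0x380c2) (nat_lit 0) (p (nat_lit 0x444aa) (nat_lit 7) (p (nat_lit 0xd1) (nat_lit 1) (p (nat_lit 0x111) (nat_lit 1) (p (nat_lit 0x109) (nat_lit 0) (p (nat_lit 0x101) (nat_lit 0) (p (nat_lit 0x119) (nat_lit 0) (p (nat_lit 0xc9) (nat_lit 0) (p (nat_lit 0x89) (nat_lit 1) (p (nat_lit 0x41) (nat_lit 0) (p (nat_lit 0x8a898a08881a) (nat_lit 0) (p (nat_lit 0xa090988079a) (nat_lit 0) (p (nat_lit 0x88088907871a) (nat_lit 0) (p (nat_lit 0x7880887069a) (nat_lit 0) (p (nat_lit 0x80000800088806860a) (nat_lit 0) (p (nat_lit 0x80000800068786058a) (nat_lit 0) (p (nat_lit 0x8687058502) (nat_lit 0) (p (nat_lit 0x606850482) (nat_lit 0) (p (nat_lit 0x160014) (nat_lit 0) (p (nat_lit 0x68612) (nat_lit 0) (p (nat_lit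 0x50592) (nat_lit 0) (p (nat_lit 0x40512) (nat_lit 0) (p (nat_lit 0x50312) (nat_lit 0) (p (nat_lit 0x38292) (nat_lit 0) (p (nat_lit 0x28212) (nat_lit 0) (p (nat_lit 0x38112) (nat_lit 0) (p (nat_lit 0x20092) (nat_lit 0) (p (nat_lit 0x10012) (nat_lit 0) pn))))))))))))))))))))))))))))) :=
  Cl.node (nat_lit 0x20000c) (nat_lit 2) (by decide +kernel) (ClAll.succ (ClAll.succ ClAll.zero n214) s342)

def n267 : Cl (O (nat_lit 3)) (R (nat_lit 143633))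
    (p (nat_lit 0xb0014) (nat_lit 1) (p (nat_lit 0x380c2) (nat_lit 0) (p (nat_lit 0x444aa) (nat_lit 7) (p (nat_lit 0xd1) (nat_lit 1) (p (nat_lit 0x111) (nat_lit 1) (p (nat_lit 0x109) (nat_lit 0) (p (nat_lit 0x101) (nat_lit 0) (p (nat_lit 0x119) (nat_lit 0) (p (nat_lit 0xc9) (nat_lit 0) (p (nat_lit 0x89) (nat_lit 1) (p (nat_lit 0x41) (nat_lit 0) (p (nat_lit 0x8a898a08881a) (nat_lit 0) (p (nat_lit 0xa090988079a) (nat_lit 0) (p (nat_lit 0x88088907871a) (nat_lit 0) (p (nat_lit 0x7880887069a) (nat_lit 0) (p (nat_lit 0x80000800088806860a) (nat_lit 0) (p (nat_lit 0x80000800068786058a) (nat_lit 0) (p (nat_lit 0x8687058502) (nat_lit 0) (p (nat_lit 0x606850482) (nat_lit 0) (p (nat_lit 0x160014) (nat_lit 0) (p (nat_lit 0x68612) (nat_lit 0) (p (nat_lit 0x50592) (nat_lit 0) (p (nat_lit 0x40512) (nat_lit 0) (p (nat_lit 0x50312) (nat_lit 0) (p (nat_lit 0x38292) (nat_lit 0) (p (nat_lit 0x28212)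 (nat_lit 0) (p (nat_lit 0x38112) (nat_lit 0) (p (nat_lit 0x20092) (nat_lit 0) (p (nat_lit 0x10012) (nat_lit 0) pn))))))))))))))))))))))))))))) :=
  Cl.node (nat_lit 0x1fc004) (nat_lit 2) (by decide +kernel) (ClAll.succ (ClAll.succ ClAll.zero n215) s354)

def n268 : Cl (O (nat_lit 3)) (R (nat_lit 143633))
    (p (nat_lit 0x20000c) (nat_lit 0) (p (nat_lit 0x380c2) (nat_lit 1) (p (nat_lit 0x444aa) (nat_lit 7) (p (nat_lit 0xd1) (nat_lit 1) (p (nat_lit 0x111) (nat_lit 1) (p (nat_lit 0x109) (nat_lit 0) (p (nat_lit 0x101) (nat_lit 0) (p (nat_lit 0x119) (nat_lit 0) (p (nat_lit 0xc9) (nat_lit 0) (p (nat_lit 0x89) (nat_lit 1) (p (nat_lit 0x41) (nat_lit 0) (p (nat_lit 0x8a898a08881a) (nat_lit 0) (p (nat_lit 0xa090988079a) (nat_lit 0) (p (nat_lit 0x88088907871a) (nat_lit 0) (p (nat_lit 0x7880887069a) (nat_lit 0) (p (nat_lit 0x80000800088806860a) (nat_lit 0) (p (nat_lit 0x80000800068786058a)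 (nat_lit 0) (p (nat_lit 0x8687058502) (nat_lit 0) (p (nat_lit 0x606850482) (nat_lit 0) (p (nat_lit 0x160014) (nat_lit 0) (p (nat_lit 0x68612) (nat_lit 0) (p (nat_lit 0x50592) (nat_lit 0) (p (nat_lit 0x40512) (nat_lit 0) (p (nat_lit 0x50312) (nat_lit 0) (p (nat_lit 0x38292) (nat_lit 0) (p (nat_lit 0x28212) (nat_lit 0) (p (nat_lit 0x38112) (nat_lit 0) (p (nat_lit 0x20092) (nat_lit 0) (p (nat_lit 0x10012) (nat_lit 0) pn))))))))))))))))))))))))))))) :=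
  Cl.node (nat_lit 0x200004) (nat_lit 2) (by decide +kernel) (ClAll.succ (ClAll.succ ClAll.zero n216) s375)

def n269 : Cl (O (nat_lit 3)) (R (nat_lit 143633))
    (p (nat_lit 0x44c2a) (nat_lit 0) (p (nat_lit 0x41) (nat_lit 0) (p (nat_lit 0x20000c) (nat_lit 0) (p (nat_lit 0x200004) (nat_lit 0) (p (nat_lit 0xd1) (nat_lit 0) (p (nat_lit 0x109) (nat_lit 1) (p (nat_lit 0x101) (nat_lit 0) (p (nat_lit 0x119) (nat_lit 0) (p (nat_lit 0xc9) (nat_lit 0) (p (nat_lit 0x89) (nat_lit 1) (p (nat_lit 0x41) (nat_lit 0) (p (nat_lit 0x8a898a08881a) (nat_lit 0) (p (nat_lit 0xa090988079a) (nat_lit 0) (p (nat_lit 0x88088907871a) (nat_lit 0) (p (nat_lit 0x7880887069a) (nat_lit 0) (p (nat_lit 0x80000800088806860a) (nat_lit 0) (p (nat_lit 0x80000800068786058a) (nat_lit 0) (p (nat_lit 0x8687058502) (nat_lit 0) (p (nat_lit 0x606850482) (nat_lit 0) (p (nat_lit 0x160014) (nat_lit 0) (p (nat_lit 0x68612)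 (nat_lit 0) (p (nat_lit 0x50592) (nat_lit 0) (p (nat_lit 0x40512) (nat_lit 0) (p (nat_lit 0x50312) (nat_lit 0) (p (nat_lit 0x38292) (nat_lit 0) (p (nat_lit 0x28212) (nat_lit 0) (p (nat_lit 0x38112) (nat_lit 0) (p (nat_lit 0x20092) (nat_lit 0) (p (nat_lit 0x10012) (nat_lit 0) pn))))))))))))))))))))))))))))) :=
  Cl.node (nat_lit 0x380c2) (nat_lit 1) (by decide +kernel) (ClAll.succ ClAll.zero n217)

def n270 : Cl (O (nat_lit 3)) (R (nat_lit 143633))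
    (p (nat_lit 0x44c2a) (nat_lit 1) (p (nat_lit 0x41) (nat_lit 0) (p (nat_lit 0x20000c) (nat_lit 0) (p (nat_lit 0x200004) (nat_lit 0) (p (nat_lit 0xd1) (nat_lit 0) (p (nat_lit 0x109) (nat_lit 1) (p (nat_lit 0x101) (nat_lit 0) (p (nat_lit 0x119) (nat_lit 0) (p (nat_lit 0xc9) (nat_lit 0) (p (nat_lit 0x89) (nat_lit 1) (p (nat_lit 0x41) (nat_lit 0) (p (nat_lit 0x8a898a08881a) (nat_lit 0) (p (nat_lit 0xa090988079a) (nat_lit 0) (p (nat_lit 0x88088907871a) (nat_lit 0) (p (nat_lit 0x7880887069a) (nat_lit 0) (p (nat_lit 0x80000800088806860a) (nat_lit 0) (p (nat_lit 0x80000800068786058a) (nat_lit 0) (p (nat_lit 0x8687058502) (nat_lit 0) (p (nat_lit 0x606850482) (nat_lit 0) (p (nat_lit 0x160014) (nat_lit 0) (p (nat_lit 0x68612) (nat_lit 0) (p (nat_lit 0x50592) (nat_lit 0) (p (nat_lit 0x40512) (nat_lit 0) (p (nat_lit 0x50312) (nat_lit 0) (p (nat_lit 0x38292) (nat_lit 0) (p (nat_lit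 0x28212) (nat_lit 0) (p (nat_lit 0x38112) (nat_lit 0) (p (nat_lit 0x20092) (nat_lit 0) (p (nat_lit 0x10012) (nat_lit 0) pn))))))))))))))))))))))))))))) :=
  Cl.node (nat_lit 0x380c2) (nat_lit 1) (by decide +kernel) (ClAll.succ ClAll.zero n218)

def n271 : Cl (O (nat_lit 3)) (R (nat_lit 143633))
    (p (nat_lit 0x20000c) (nat_lit 0) (p (nat_lit 0xb0014) (nat_lit 0) (p (nat_lit 0x380c2) (nat_lit 0) (p (nat_lit 0x444aa) (nat_lit 7) (p (nat_lit 0xd1) (nat_lit 1) (p (nat_lit 0x109) (nat_lit 1) (p (nat_lit 0x101) (nat_lit 0) (p (nat_lit 0x119) (nat_lit 0) (p (nat_lit 0xc9) (nat_lit 0) (p (nat_lit 0x89) (nat_lit 1) (p (nat_lit 0x41) (nat_lit 0) (p (nat_lit 0x8a898a08881a) (nat_lit 0) (p (nat_lit 0xa090988079a) (nat_lit 0) (p (nat_lit 0x88088907871a) (nat_lit 0) (p (nat_lit 0x7880887069a) (nat_lit 0) (p (nat_lit 0x80000800088806860a) (nat_lit 0) (p (nat_lit 0x80000800068786058a)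 (nat_lit 0) (p (nat_lit 0x8687058502) (nat_lit 0) (p (nat_lit 0x606850482) (nat_lit 0) (p (nat_lit 0x160014) (nat_lit 0) (p (nat_lit 0x68612) (nat_lit 0) (p (nat_lit 0x50592) (nat_lit 0) (p (nat_lit 0x40512) (nat_lit 0) (p (nat_lit 0x50312) (nat_lit 0) (p (nat_lit 0x38292) (nat_lit 0) (p (nat_lit 0x28212) (nat_lit 0) (p (nat_lit 0x38112) (nat_lit 0) (p (nat_lit 0x20092) (nat_lit 0) (p (nat_lit 0x10012) (nat_lit 0) pn))))))))))))))))))))))))))))) :=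
  Cl.node (nat_lit 0x200004) (nat_lit 2) (by decide +kernel) (ClAll.succ (ClAll.succ ClAll.zero n219) s415)

def n272 : Cl (O (nat_lit 3)) (R (nat_lit 143633))
    (p (nat_lit 0x1fc004) (nat_lit 0) (p (nat_lit 0xb0014) (nat_lit 1) (p (nat_lit 0x380c2) (nat_lit 0) (p (nat_lit 0x444aa) (nat_lit 7) (p (nat_lit 0xd1) (nat_lit 1) (p (nat_lit 0x109) (nat_lit 1) (p (nat_lit 0x101) (nat_lit 0) (p (nat_lit 0x119) (nat_lit 0) (p (nat_lit 0xc9) (nat_lit 0) (p (nat_lit 0x89) (nat_lit 1) (p (nat_lit 0x41) (nat_lit 0) (p (nat_lit 0x8a898a08881a) (nat_lit 0) (p (nat_lit 0xa090988079a) (nat_lit 0) (p (nat_lit 0x88088907871a) (nat_lit 0) (p (nat_lit 0x7880887069a) (nat_lit 0) (p (nat_lit 0x80000800088806860a) (nat_lit 0) (p (nat_lit 0x80000800068786058a) (nat_lit 0) (p (nat_lit 0x8687058502) (nat_lit 0) (p (nat_lit 0x606850482) (nat_lit 0) (p (nat_lit 0x160014) (nat_lit 0) (p (nat_lit 0x68612)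 (nat_lit 0) (p (nat_lit 0x50592) (nat_lit 0) (p (nat_lit 0x40512) (nat_lit 0) (p (nat_lit 0x50312) (nat_lit 0) (p (nat_lit 0x38292) (nat_lit 0) (p (nat_lit 0x28212) (nat_lit 0) (p (nat_lit 0x38112) (nat_lit 0) (p (nat_lit 0x20092) (nat_lit 0) (p (nat_lit 0x10012) (nat_lit 0) pn))))))))))))))))))))))))))))) :=
  Cl.node (nat_lit 0x1fc00c) (nat_lit 2) (by decide +kernel) (ClAll.succ (ClAll.succ ClAll.zero n220) s421)

def n273 : Cl (O (nat_lit 3)) (R (nat_lit 143633))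
    (p (nat_lit 0x200004) (nat_lit 0) (p (nat_lit 0x20000c) (nat_lit 0) (p (nat_lit 0x380c2) (nat_lit 1) (p (nat_lit 0x444aa) (nat_lit 7) (p (nat_lit 0xd1) (nat_lit 1) (p (nat_lit 0x109) (nat_lit 1) (p (nat_lit 0x101) (nat_lit 0) (p (nat_lit 0x119) (nat_lit 0) (p (nat_lit 0xc9) (nat_lit 0) (p (nat_lit 0x89) (nat_lit 1) (p (nat_lit 0x41) (nat_lit 0) (p (nat_lit 0x8a898a08881a) (nat_lit 0) (p (nat_lit 0xa090988079a) (nat_lit 0) (p (nat_lit 0x88088907871a) (nat_lit 0) (p (nat_lit 0x7880887069a) (nat_lit 0) (p (nat_lit 0x80000800088806860a) (nat_lit 0) (p (nat_lit 0x80000800068786058a) (nat_lit 0) (p (nat_lit 0x8687058502) (nat_lit 0) (p (nat_lit 0x606850482) (nat_lit 0) (p (nat_lit 0x160014) (nat_lit 0) (p (nat_lit 0x68612) (nat_lit 0) (p (nat_lit 0x50592) (nat_lit 0) (p (nat_lit 0x40512) (nat_lit 0) (p (nat_lit 0x50312) (nat_lit 0) (p (nat_lit 0x38292) (nat_lit 0) (p (nat_lit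 0x28212) (nat_lit 0) (p (nat_lit 0x38112) (nat_lit 0) (p (nat_lit 0x20092) (nat_lit 0) (p (nat_lit 0x10012) (nat_lit 0) pn))))))))))))))))))))))))))))) :=
  Cl.node (nat_lit 0x10000c) (nat_lit 2) (by decide +kernel) (ClAll.succ (ClAll.succ ClAll.zero n221) s438)

def n274 : Cl (O (nat_lit 3)) (R (nat_lit 143633))
    (p (nat_lit 0x200004) (nat_lit 0) (p (nat_lit 0x20000c) (nat_lit 0) (p (nat_lit 0x380c2) (nat_lit 1) (p (nat_lit 0x444aa) (nat_lit 7) (p (nat_lit 0xd1) (nat_lit 1) (p (nat_lit 0xc1) (nat_lit 0) (p (nat_lit 0x101) (nat_lit 1) (p (nat_lit 0x119) (nat_lit 0) (p (nat_lit 0xc9) (nat_lit 0) (p (nat_lit 0x89) (nat_lit 1) (p (nat_lit 0x41) (nat_lit 0) (p (nat_lit 0x8a898a08881a) (nat_lit 0) (p (nat_lit 0xa090988079a) (nat_lit 0) (p (nat_lit 0x88088907871a) (nat_lit 0) (p (nat_lit 0x7880887069a) (nat_lit 0) (p (nat_lit 0x80000800088806860a) (nat_lit 0) (p (nat_lit 0x80000800068786058a)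 (nat_lit 0) (p (nat_lit 0x8687058502) (nat_lit 0) (p (nat_lit 0x606850482) (nat_lit 0) (p (nat_lit 0x160014) (nat_lit 0) (p (nat_lit 0x68612) (nat_lit 0) (p (nat_lit 0x50592) (nat_lit 0) (p (nat_lit 0x40512) (nat_lit 0) (p (nat_lit 0x50312) (nat_lit 0) (p (nat_lit 0x38292) (nat_lit 0) (p (nat_lit 0x28212) (nat_lit 0) (p (nat_lit 0x38112) (nat_lit 0) (p (nat_lit 0x20092) (nat_lit 0) (p (nat_lit 0x10012) (nat_lit 0) pn))))))))))))))))))))))))))))) :=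
  Cl.node (nat_lit 0x10000c) (nat_lit 2) (by decide +kernel) (ClAll.succ (ClAll.succ ClAll.zero n222) s477)

def n275 : Cl (O (nat_lit 3)) (R (nat_lit 143633))
    (p (nat_lit 0x20000c) (nat_lit 0) (p (nat_lit 0xb0014) (nat_lit 0) (p (nat_lit 0x380c2) (nat_lit 0) (p (nat_lit 0x444aa) (nat_lit 7) (p (nat_lit 0x111) (nat_lit 1) (p (nat_lit 0xd1) (nat_lit 1) (p (nat_lit 0xc1) (nat_lit 0) (p (nat_lit 0x119) (nat_lit 1) (p (nat_lit 0xc9) (nat_lit 0) (p (nat_lit 0x89) (nat_lit 1) (p (nat_lit 0x41) (nat_lit 0) (p (nat_lit 0x8a898a08881a) (nat_lit 0) (p (nat_lit 0xa090988079a) (nat_lit 0) (p (nat_lit 0x88088907871a) (nat_lit 0) (p (nat_lit 0x7880887069a) (nat_lit 0) (p (nat_lit 0x80000800088806860a) (nat_lit 0) (p (nat_lit 0x80000800068786058a) (nat_lit 0) (p (nat_lit 0x8687058502) (nat_lit 0) (p (nat_lit 0x606850482) (nat_lit 0) (p (nat_lit 0x160014) (nat_lit 0) (p (nat_lit 0x68612)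 (nat_lit 0) (p (nat_lit 0x50592) (nat_lit 0) (p (nat_lit 0x40512) (nat_lit 0) (p (nat_lit 0x50312) (nat_lit 0) (p (nat_lit 0x38292) (nat_lit 0) (p (nat_lit 0x28212) (nat_lit 0) (p (nat_lit 0x38112) (nat_lit 0) (p (nat_lit 0x20092) (nat_lit 0) (p (nat_lit 0x10012) (nat_lit 0) pn))))))))))))))))))))))))))))) :=
  Cl.node (nat_lit 0x10000c) (nat_lit 2) (by decide +kernel) (ClAll.succ (ClAll.succ ClAll.zero n223) s498)

def n276 : Cl (O (nat_lit 3)) (R (nat_lit 143633))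
    (p (nat_lit 0x1fc004) (nat_lit 0) (p (nat_lit 0xb0014) (nat_lit 1) (p (nat_lit 0x380c2) (nat_lit 0) (p (nat_lit 0x444aa) (nat_lit 7) (p (nat_lit 0x111) (nat_lit 1) (p (nat_lit 0xd1) (nat_lit 1) (p (nat_lit 0xc1) (nat_lit 0) (p (nat_lit 0x119) (nat_lit 1) (p (nat_lit 0xc9) (nat_lit 0) (p (nat_lit 0x89) (nat_lit 1) (p (nat_lit 0x41) (nat_lit 0) (p (nat_lit 0x8a898a08881a) (nat_lit 0) (p (nat_lit 0xa090988079a) (nat_lit 0) (p (nat_lit 0x88088907871a) (nat_lit 0) (p (nat_lit 0x7880887069a) (nat_lit 0) (p (nat_lit 0x80000800088806860a) (nat_lit 0) (p (nat_lit 0x80000800068786058a) (nat_lit 0) (p (nat_lit 0x8687058502) (nat_lit 0) (p (nat_lit 0x606850482) (nat_lit 0) (p (nat_lit 0x160014) (nat_lit 0) (p (nat_lit 0x68612) (nat_lit 0) (p (nat_lit 0x50592) (nat_lit 0) (p (nat_lit 0x40512) (nat_lit 0) (p (nat_lit 0x50312) (nat_lit 0) (p (nat_lit 0x38292) (nat_lit 0) (p (nat_lit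 0x28212) (nat_lit 0) (p (nat_lit 0x38112) (nat_lit 0) (p (nat_lit 0x20092) (nat_lit 0) (p (nat_lit 0x10012) (nat_lit 0) pn))))))))))))))))))))))))))))) :=
  Cl.node (nat_lit 0x1fc00c) (nat_lit 2) (by decide +kernel) (ClAll.succ (ClAll.succ ClAll.zero n224) s505)

def n277 : Cl (O (nat_lit 3)) (R (nat_lit 143633))
    (p (nat_lit 0x200004) (nat_lit 0) (p (nat_lit 0x20000c) (nat_lit 0) (p (nat_lit 0x380c2) (nat_lit 1) (p (nat_lit 0x444aa) (nat_lit 7) (p (nat_lit 0x111) (nat_lit 1) (p (nat_lit 0xd1) (nat_lit 1) (p (nat_lit 0xc1) (nat_lit 0) (p (nat_lit 0x119) (nat_lit 1) (p (nat_lit 0xc9) (nat_lit 0) (p (nat_lit 0x89) (nat_lit 1) (p (nat_lit 0x41) (nat_lit 0) (p (nat_lit 0x8a898a08881a) (nat_lit 0) (p (nat_lit 0xa090988079a) (nat_lit 0) (p (nat_lit 0x88088907871a) (nat_lit 0) (p (nat_lit 0x7880887069a) (nat_lit 0) (p (nat_lit 0x80000800088806860a) (nat_lit 0) (p (nat_lit 0x80000800068786058a)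 (nat_lit 0) (p (nat_lit 0x8687058502) (nat_lit 0) (p (nat_lit 0x606850482) (nat_lit 0) (p (nat_lit 0x160014) (nat_lit 0) (p (nat_lit 0x68612) (nat_lit 0) (p (nat_lit 0x50592) (nat_lit 0) (p (nat_lit 0x40512) (nat_lit 0) (p (nat_lit 0x50312) (nat_lit 0) (p (nat_lit 0x38292) (nat_lit 0) (p (nat_lit 0x28212) (nat_lit 0) (p (nat_lit 0x38112) (nat_lit 0) (p (nat_lit 0x20092) (nat_lit 0) (p (nat_lit 0x10012) (nat_lit 0) pn))))))))))))))))))))))))))))) :=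
  Cl.node (nat_lit 0x10000c) (nat_lit 2) (by decide +kernel) (ClAll.succ (ClAll.succ ClAll.zero n225) s511)

def n278 : Cl (O (nat_lit 3)) (R (nat_lit 143633))
    (p (nat_lit 0x200004) (nat_lit 0) (p (nat_lit 0x20000c) (nat_lit 0) (p (nat_lit 0x380c2) (nat_lit 1) (p (nat_lit 0x444aa) (nat_lit 7) (p (nat_lit 0x111) (nat_lit 1) (p (nat_lit 0x101) (nat_lit 0) (p (nat_lit 0xc1) (nat_lit 1) (p (nat_lit 0x119) (nat_lit 1) (p (nat_lit 0xc9) (nat_lit 0) (p (nat_lit 0x89) (nat_lit 1) (p (nat_lit 0x41) (nat_lit 0) (p (nat_lit 0x8a898a08881a) (nat_lit 0) (p (nat_lit 0xa090988079a) (nat_lit 0) (p (nat_lit 0x88088907871a) (nat_lit 0) (p (nat_lit 0x7880887069a) (nat_lit 0) (p (nat_lit 0x80000800088806860a) (nat_lit 0) (p (nat_lit 0x80000800068786058a) (nat_lit 0) (p (nat_lit 0x8687058502) (nat_lit 0) (p (nat_lit 0x606850482) (nat_lit 0) (p (nat_lit 0x160014) (nat_lit 0) (p (nat_lit 0x68612)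 (nat_lit 0) (p (nat_lit 0x50592) (nat_lit 0) (p (nat_lit 0x40512) (nat_lit 0) (p (nat_lit 0x50312) (nat_lit 0) (p (nat_lit 0x38292) (nat_lit 0) (p (nat_lit 0x28212) (nat_lit 0) (p (nat_lit 0x38112) (nat_lit 0) (p (nat_lit 0x20092) (nat_lit 0) (p (nat_lit 0x10012) (nat_lit 0) pn))))))))))))))))))))))))))))) :=
  Cl.node (nat_lit 0x10000c) (nat_lit 2) (by decide +kernel) (ClAll.succ (ClAll.succ ClAll.zero n226) s558)

def n279 : Cl (O (nat_lit 3)) (R (nat_lit 143633))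
    (p (nat_lit 0xd1) (nat_lit 1) (p (nat_lit 0x380c2) (nat_lit 1) (p (nat_lit 0x4c42a) (nat_lit 2) (p (nat_lit 0xc9) (nat_lit 0) (p (nat_lit 0x89) (nat_lit 1) (p (nat_lit 0xc1) (nat_lit 0) (p (nat_lit 0x101) (nat_lit 1) (p (nat_lit 0x119) (nat_lit 0) (p (nat_lit 0xd1) (nat_lit 0) (p (nat_lit 0x81) (nat_lit 0) (p (nat_lit 0x41) (nat_lit 1) (p (nat_lit 0x8a898a08881a) (nat_lit 0) (p (nat_lit 0xa090988079a) (nat_lit 0) (p (nat_lit 0x88088907871a) (nat_lit 0) (p (nat_lit 0x7880887069a) (nat_lit 0) (p (nat_lit 0x80000800088806860a) (nat_lit 0) (p (nat_lit 0x80000800068786058a) (nat_lit 0) (p (nat_lit 0x8687058502) (nat_lit 0) (p (nat_lit 0x606850482) (nat_lit 0) (p (nat_lit 0x160014) (nat_lit 0) (p (nat_lit 0x68612) (nat_lit 0) (p (nat_lit 0x50592) (nat_lit 0) (p (nat_lit 0x40512) (nat_lit 0) (p (nat_lit 0x50312) (nat_lit 0) (p (nat_lit 0x38292) (nat_lit 0) (p (nat_lit 0x28212)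 (nat_lit 0) (p (nat_lit 0x38112) (nat_lit 0) (p (nat_lit 0x20092) (nat_lit 0) (p (nat_lit 0x10012) (nat_lit 0) pn))))))))))))))))))))))))))))) :=
  Cl.node (nat_lit 0x111) (nat_lit 2) (by decide +kernel) (ClAll.succ (ClAll.succ ClAll.zero s658) s659)

def n280 : Cl (O (nat_lit 3)) (R (nat_lit 143633))
    (p (nat_lit 0x20000c) (nat_lit 0) (p (nat_lit 0x200004) (nat_lit 0) (p (nat_lit 0x380c2) (nat_lit 1) (p (nat_lit 0x3c4aa) (nat_lit 7) (p (nat_lit 0x89) (nat_lit 1) (p (nat_lit 0xc1) (nat_lit 1) (p (nat_lit 0x101) (nat_lit 1) (p (nat_lit 0x119) (nat_lit 0) (p (nat_lit 0xd1) (nat_lit 0) (p (nat_lit 0x81) (nat_lit 0) (p (nat_lit 0x41) (nat_lit 1) (p (nat_lit 0x8a898a08881a) (nat_lit 0) (p (nat_lit 0xa090988079a) (nat_lit 0) (p (nat_lit 0x88088907871a) (nat_lit 0) (p (nat_lit 0x7880887069a) (nat_lit 0) (p (nat_lit 0x80000800088806860a) (nat_lit 0) (p (nat_lit 0x80000800068786058a)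 (nat_lit 0) (p (nat_lit 0x8687058502) (nat_lit 0) (p (nat_lit 0x606850482) (nat_lit 0) (p (nat_lit 0x160014) (nat_lit 0) (p (nat_lit 0x68612) (nat_lit 0) (p (nat_lit 0x50592) (nat_lit 0) (p (nat_lit 0x40512) (nat_lit 0) (p (nat_lit 0x50312) (nat_lit 0) (p (nat_lit 0x38292) (nat_lit 0) (p (nat_lit 0x28212) (nat_lit 0) (p (nat_lit 0x38112) (nat_lit 0) (p (nat_lit 0x20092) (nat_lit 0) (p (nat_lit 0x10012) (nat_lit 0) pn))))))))))))))))))))))))))))) :=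
  Cl.node (nat_lit 0x100004) (nat_lit 2) (by decide +kernel) (ClAll.succ (ClAll.succ ClAll.zero n227) s693)

def n281 : Cl (O (nat_lit 3)) (R (nat_lit 143633))
    (p (nat_lit 0xb0014) (nat_lit 0) (p (nat_lit 0x380c2) (nat_lit 0) (p (nat_lit 0x44c2a) (nat_lit 1) (p (nat_lit 0x109) (nat_lit 0) (p (nat_lit 0x89) (nat_lit 1) (p (nat_lit 0xc9) (nat_lit 1) (p (nat_lit 0xc1) (nat_lit 0) (p (nat_lit 0x119) (nat_lit 1) (p (nat_lit 0xd1) (nat_lit 0) (p (nat_lit 0x81) (nat_lit 0) (p (nat_lit 0x41) (nat_lit 1) (p (nat_lit 0x8a898a08881a) (nat_lit 0) (p (nat_lit 0xa090988079a) (nat_lit 0) (p (nat_lit 0x88088907871a) (nat_lit 0) (p (nat_lit 0x7880887069a) (nat_lit 0) (p (nat_lit 0x80000800088806860a) (nat_lit 0) (p (nat_lit 0x80000800068786058a) (nat_lit 0) (p (nat_lit 0x8687058502) (nat_lit 0) (p (nat_lit 0x606850482) (nat_lit 0) (p (nat_lit 0x160014) (nat_lit 0) (p (nat_lit 0x68612)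 (nat_lit 0) (p (nat_lit 0x50592) (nat_lit 0) (p (nat_lit 0x40512) (nat_lit 0) (p (nat_lit 0x50312) (nat_lit 0) (p (nat_lit 0x38292) (nat_lit 0) (p (nat_lit 0x28212) (nat_lit 0) (p (nat_lit 0x38112) (nat_lit 0) (p (nat_lit 0x20092) (nat_lit 0) (p (nat_lit 0x10012) (nat_lit 0) pn))))))))))))))))))))))))))))) :=
  Cl.node (nat_lit 0x109) (nat_lit 2) (by decide +kernel) (ClAll.succ (ClAll.succ ClAll.zero s703) n228)

def n282 : Cl (O (nat_lit 3)) (R (nat_lit 143633))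
    (p (nat_lit 0xb0014) (nat_lit 1) (p (nat_lit 0x380c2) (nat_lit 1) (p (nat_lit 0x3c4aa) (nat_lit 7) (p (nat_lit 0x109) (nat_lit 1) (p (nat_lit 0x89) (nat_lit 1) (p (nat_lit 0xc9) (nat_lit 1) (p (nat_lit 0xc1) (nat_lit 0) (p (nat_lit 0x119) (nat_lit 1) (p (nat_lit 0xd1) (nat_lit 0) (p (nat_lit 0x81) (nat_lit 0) (p (nat_lit 0x41) (nat_lit 1) (p (nat_lit 0x8a898a08881a) (nat_lit 0) (p (nat_lit 0xa090988079a) (nat_lit 0) (p (nat_lit 0x88088907871a) (nat_lit 0) (p (nat_lit 0x7880887069a) (nat_lit 0) (p (nat_lit 0x80000800088806860a) (nat_lit 0) (p (nat_lit 0x80000800068786058a) (nat_lit 0) (p (nat_lit 0x8687058502) (nat_lit 0) (p (nat_lit 0x606850482) (nat_lit 0) (p (nat_lit 0x160014) (nat_lit 0) (p (nat_lit 0x68612) (nat_lit 0) (p (nat_lit 0x50592) (nat_lit 0) (p (nat_lit 0x40512) (nat_lit 0) (p (nat_lit 0x50312) (nat_lit 0) (p (nat_lit 0x38292) (nat_lit 0) (p (nat_lit 0x28212)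 (nat_lit 0) (p (nat_lit 0x38112) (nat_lit 0) (p (nat_lit 0x20092) (nat_lit 0) (p (nat_lit 0x10012) (nat_lit 0) pn))))))))))))))))))))))))))))) :=
  Cl.node (nat_lit 0x1fc004) (nat_lit 2) (by decide +kernel) (ClAll.succ (ClAll.succ ClAll.zero n229) s743)

def n283 : Cl (O (nat_lit 3)) (R (nat_lit 143633))
    (p (nat_lit 0x200004) (nat_lit 0) (p (nat_lit 0x380c2) (nat_lit 1) (p (nat_lit 0x3c4aa) (nat_lit 10) (p (nat_lit 0x109) (nat_lit 1) (p (nat_lit 0x89) (nat_lit 1) (p (nat_lit 0xc9) (nat_lit 1) (p (nat_lit 0xc1) (nat_lit 0) (p (nat_lit 0x119) (nat_lit 1) (p (nat_lit 0xd1) (nat_lit 0) (p (nat_lit 0x81) (nat_lit 0) (p (nat_lit 0x41) (nat_lit 1) (p (nat_lit 0x8a898a08881a) (nat_lit 0) (p (nat_lit 0xa090988079a) (nat_lit 0) (p (nat_lit 0x88088907871a) (nat_lit 0) (p (nat_lit 0x7880887069a) (nat_lit 0) (p (nat_lit 0x80000800088806860a) (nat_lit 0) (p (nat_lit 0x80000800068786058a)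 (nat_lit 0) (p (nat_lit 0x8687058502) (nat_lit 0) (p (nat_lit 0x606850482) (nat_lit 0) (p (nat_lit 0x160014) (nat_lit 0) (p (nat_lit 0x68612) (nat_lit 0) (p (nat_lit 0x50592) (nat_lit 0) (p (nat_lit 0x40512) (nat_lit 0) (p (nat_lit 0x50312) (nat_lit 0) (p (nat_lit 0x38292) (nat_lit 0) (p (nat_lit 0x28212) (nat_lit 0) (p (nat_lit 0x38112) (nat_lit 0) (p (nat_lit 0x20092) (nat_lit 0) (p (nat_lit 0x10012) (nat_lit 0) pn))))))))))))))))))))))))))))) :=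
  Cl.node (nat_lit 0xb0014) (nat_lit 2) (by decide +kernel) (ClAll.succ (ClAll.succ ClAll.zero s747) n230)

def n284 : Cl (O (nat_lit 3)) (R (nat_lit 143633))
    (p (nat_lit 0x20000c) (nat_lit 0) (p (nat_lit 0x380c2) (nat_lit 0) (p (nat_lit 0x3c4aa) (nat_lit 7) (p (nat_lit 0x109) (nat_lit 1) (p (nat_lit 0x89) (nat_lit 1) (p (nat_lit 0x101) (nat_lit 0) (p (nat_lit 0xc1) (nat_lit 1) (p (nat_lit 0x119) (nat_lit 1) (p (nat_lit 0xd1) (nat_lit 0) (p (nat_lit 0x81) (nat_lit 0) (p (nat_lit 0x41) (nat_lit 1) (p (nat_lit 0x8a898a08881a) (nat_lit 0) (p (nat_lit 0xa090988079a) (nat_lit 0) (p (nat_lit 0x88088907871a) (nat_lit 0) (p (nat_lit 0x7880887069a) (nat_lit 0) (p (nat_lit 0x80000800088806860a) (nat_lit 0) (p (nat_lit 0x80000800068786058a) (nat_lit 0) (p (nat_lit 0x8687058502) (nat_lit 0) (p (nat_lit 0x606850482) (nat_lit 0) (p (nat_lit 0x160014) (nat_lit 0) (p (nat_lit 0x68612)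 (nat_lit 0) (p (nat_lit 0x50592) (nat_lit 0) (p (nat_lit 0x40512) (nat_lit 0) (p (nat_lit 0x50312) (nat_lit 0) (p (nat_lit 0x38292) (nat_lit 0) (p (nat_lit 0x28212) (nat_lit 0) (p (nat_lit 0x38112) (nat_lit 0) (p (nat_lit 0x20092) (nat_lit 0) (p (nat_lit 0x10012) (nat_lit 0) pn))))))))))))))))))))))))))))) :=
  Cl.node (nat_lit 0x200004) (nat_lit 2) (by decide +kernel) (ClAll.succ (ClAll.succ ClAll.zero n231) s785)

def n285 : Cl (O (nat_lit 3)) (R (nat_lit 143633))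
    (p (nat_lit 0x200004) (nat_lit 0) (p (nat_lit 0x380c2) (nat_lit 1) (p (nat_lit 0x3c4aa) (nat_lit 7) (p (nat_lit 0x109) (nat_lit 1) (p (nat_lit 0x89) (nat_lit 1) (p (nat_lit 0x101) (nat_lit 0) (p (nat_lit 0xc1) (nat_lit 1) (p (nat_lit 0x119) (nat_lit 1) (p (nat_lit 0xd1) (nat_lit 0) (p (nat_lit 0x81) (nat_lit 0) (p (nat_lit 0x41) (nat_lit 1) (p (nat_lit 0x8a898a08881a) (nat_lit 0) (p (nat_lit 0xa090988079a) (nat_lit 0) (p (nat_lit 0x88088907871a) (nat_lit 0) (p (nat_lit 0x7880887069a) (nat_lit 0) (p (nat_lit 0x80000800088806860a) (nat_lit 0) (p (nat_lit 0x80000800068786058a) (nat_lit 0) (p (nat_lit 0x8687058502) (nat_lit 0) (p (nat_lit 0x606850482) (nat_lit 0) (p (nat_lit 0x160014) (nat_lit 0) (p (nat_lit 0x68612) (nat_lit 0) (p (nat_lit 0x50592) (nat_lit 0) (p (nat_lit 0x40512) (nat_lit 0) (p (nat_lit 0x50312) (nat_lit 0) (p (nat_lit 0x38292) (nat_lit 0) (p (nat_lit 0x28212)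 (nat_lit 0) (p (nat_lit 0x38112) (nat_lit 0) (p (nat_lit 0x20092) (nat_lit 0) (p (nat_lit 0x10012) (nat_lit 0) pn))))))))))))))))))))))))))))) :=
  Cl.node (nat_lit 0x20000c) (nat_lit 2) (by decide +kernel) (ClAll.succ (ClAll.succ ClAll.zero n232) s810)

def n286 : Cl (O (nat_lit 3)) (R (nat_lit 143633))
    (p (nat_lit 0xb0014) (nat_lit 0) (p (nat_lit 0x380c2) (nat_lit 0) (p (nat_lit 0x3c4aa) (nat_lit 10) (p (nat_lit 0x109) (nat_lit 1) (p (nat_lit 0x89) (nat_lit 1) (p (nat_lit 0x101) (nat_lit 0) (p (nat_lit 0xc1) (nat_lit 1) (p (nat_lit 0x119) (nat_lit 1) (p (nat_lit 0xd1) (nat_lit 0) (p (nat_lit 0x81) (nat_lit 0) (p (nat_lit 0x41) (nat_lit 1) (p (nat_lit 0x8a898a08881a) (nat_lit 0) (p (nat_lit 0xa090988079a) (nat_lit 0) (p (nat_lit 0x88088907871a) (nat_lit 0) (p (nat_lit 0x7880887069a) (nat_lit 0) (p (nat_lit 0x80000800088806860a) (nat_lit 0) (p (nat_lit 0x80000800068786058a)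 (nat_lit 0) (p (nat_lit 0x8687058502) (nat_lit 0) (p (nat_lit 0x606850482) (nat_lit 0) (p (nat_lit 0x160014) (nat_lit 0) (p (nat_lit 0x68612) (nat_lit 0) (p (nat_lit 0x50592) (nat_lit 0) (p (nat_lit 0x40512) (nat_lit 0) (p (nat_lit 0x50312) (nat_lit 0) (p (nat_lit 0x38292) (nat_lit 0) (p (nat_lit 0x28212) (nat_lit 0) (p (nat_lit 0x38112) (nat_lit 0) (p (nat_lit 0x20092) (nat_lit 0) (p (nat_lit 0x10012) (nat_lit 0) pn))))))))))))))))))))))))))))) :=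
  Cl.node (nat_lit 0x200004) (nat_lit 2) (by decide +kernel) (ClAll.succ (ClAll.succ ClAll.zero n233) s828)

def n287 : Cl (O (nat_lit 3)) (R (nat_lit 143633))
    (p (nat_lit 0xb0014) (nat_lit 0) (p (nat_lit 0x380c2) (nat_lit 1) (p (nat_lit 0x3c4aa) (nat_lit 10) (p (nat_lit 0x109) (nat_lit 1) (p (nat_lit 0x89) (nat_lit 1) (p (nat_lit 0x101) (nat_lit 0) (p (nat_lit 0xc1) (nat_lit 1) (p (nat_lit 0x119) (nat_lit 1) (p (nat_lit 0xd1) (nat_lit 0) (p (nat_lit 0x81) (nat_lit 0) (p (nat_lit 0x41) (nat_lit 1) (p (nat_lit 0x8a898a08881a) (nat_lit 0) (p (nat_lit 0xa090988079a) (nat_lit 0) (p (nat_lit 0x88088907871a) (nat_lit 0) (p (nat_lit 0x7880887069a) (nat_lit 0) (p (nat_lit 0x80000800088806860a) (nat_lit 0) (p (nat_lit 0x80000800068786058a) (nat_lit 0) (p (nat_lit 0x8687058502) (nat_lit 0) (p (nat_lit 0x606850482) (nat_lit 0) (p (nat_lit 0x160014) (nat_lit 0) (p (nat_lit 0x68612)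 (nat_lit 0) (p (nat_lit 0x50592) (nat_lit 0) (p (nat_lit 0x40512) (nat_lit 0) (p (nat_lit 0x50312) (nat_lit 0) (p (nat_lit 0x38292) (nat_lit 0) (p (nat_lit 0x28212) (nat_lit 0) (p (nat_lit 0x38112) (nat_lit 0) (p (nat_lit 0x20092) (nat_lit 0) (p (nat_lit 0x10012) (nat_lit 0) pn))))))))))))))))))))))))))))) :=
  Cl.node (nat_lit 0x200004) (nat_lit 2) (by decide +kernel) (ClAll.succ (ClAll.succ ClAll.zero n234) s833)

def n288 : Cl (O (nat_lit 3)) (R (nat_lit 143633))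
    (p (nat_lit 0x20000c) (nat_lit 0) (p (nat_lit 0x200004) (nat_lit 0) (p (nat_lit 0x380c2) (nat_lit 0) (p (nat_lit 0x3c4aa) (nat_lit 7) (p (nat_lit 0x89) (nat_lit 1) (p (nat_lit 0x101) (nat_lit 1) (p (nat_lit 0xc1) (nat_lit 1) (p (nat_lit 0x119) (nat_lit 1) (p (nat_lit 0xd1) (nat_lit 0) (p (nat_lit 0x81) (nat_lit 0) (p (nat_lit 0x41) (nat_lit 1) (p (nat_lit 0x8a898a08881a) (nat_lit 0) (p (nat_lit 0xa090988079a) (nat_lit 0) (p (nat_lit 0x88088907871a) (nat_lit 0) (p (nat_lit 0x7880887069a) (nat_lit 0) (p (nat_lit 0x80000800088806860a) (nat_lit 0) (p (nat_lit 0x80000800068786058a) (nat_lit 0) (p (nat_lit 0x8687058502) (nat_lit 0) (p (nat_lit 0x606850482) (nat_lit 0) (p (nat_lit 0x160014) (nat_lit 0) (p (nat_lit 0x68612) (nat_lit 0) (p (nat_lit 0x50592) (nat_lit 0) (p (nat_lit 0x40512) (nat_lit 0) (p (nat_lit 0x50312) (nat_lit 0) (p (nat_lit 0x38292) (nat_lit 0) (p (nat_lit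 0x28212) (nat_lit 0) (p (nat_lit 0x38112) (nat_lit 0) (p (nat_lit 0x20092) (nat_lit 0) (p (nat_lit 0x10012) (nat_lit 0) pn))))))))))))))))))))))))))))) :=
  Cl.node (nat_lit 0x100004) (nat_lit 2) (by decide +kernel) (ClAll.succ (ClAll.succ ClAll.zero n235) s847)

def n289 : Cl (O (nat_lit 3)) (R (nat_lit 143633))
    (p (nat_lit 0x20000c) (nat_lit 0) (p (nat_lit 0x200004) (nat_lit 0) (p (nat_lit 0x380c2) (nat_lit 1) (p (nat_lit 0x3c4aa) (nat_lit 7) (p (nat_lit 0x89) (nat_lit 1) (p (nat_lit 0x101) (nat_lit 1) (p (nat_lit 0xc1) (nat_lit 1) (p (nat_lit 0x119) (nat_lit 1) (p (nat_lit 0xd1) (nat_lit 0) (p (nat_lit 0x81) (nat_lit 0) (p (nat_lit 0x41) (nat_lit 1) (p (nat_lit 0x8a898a08881a) (nat_lit 0) (p (nat_lit 0xa090988079a) (nat_lit 0) (p (nat_lit 0x88088907871a) (nat_lit 0) (p (nat_lit 0x7880887069a) (nat_lit 0) (p (nat_lit 0x80000800088806860a) (nat_lit 0) (p (nat_lit 0x80000800068786058a)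 (nat_lit 0) (p (nat_lit 0x8687058502) (nat_lit 0) (p (nat_lit 0x606850482) (nat_lit 0) (p (nat_lit 0x160014) (nat_lit 0) (p (nat_lit 0x68612) (nat_lit 0) (p (nat_lit 0x50592) (nat_lit 0) (p (nat_lit 0x40512) (nat_lit 0) (p (nat_lit 0x50312) (nat_lit 0) (p (nat_lit 0x38292) (nat_lit 0) (p (nat_lit 0x28212) (nat_lit 0) (p (nat_lit 0x38112) (nat_lit 0) (p (nat_lit 0x20092) (nat_lit 0) (p (nat_lit 0x10012) (nat_lit 0) pn))))))))))))))))))))))))))))) :=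
  Cl.node (nat_lit 0x100004) (nat_lit 2) (by decide +kernel) (ClAll.succ (ClAll.succ ClAll.zero n236) s853)

def n290 : Cl (O (nat_lit 3)) (R (nat_lit 143633))
    (p (nat_lit 0xb0014) (nat_lit 0) (p (nat_lit 0x200004) (nat_lit 0) (p (nat_lit 0x380c2) (nat_lit 1) (p (nat_lit 0x3c4aa) (nat_lit 10) (p (nat_lit 0x89) (nat_lit 1) (p (nat_lit 0x101) (nat_lit 1) (p (nat_lit 0xc1) (nat_lit 1) (p (nat_lit 0x119) (nat_lit 1) (p (nat_lit 0xd1) (nat_lit 0) (p (nat_lit 0x81) (nat_lit 0) (p (nat_lit 0x41) (nat_lit 1) (p (nat_lit 0x8a898a08881a) (nat_lit 0) (p (nat_lit 0xa090988079a) (nat_lit 0) (p (nat_lit 0x88088907871a) (nat_lit 0) (p (nat_lit 0x7880887069a) (nat_lit 0) (p (nat_lit 0x80000800088806860a) (nat_lit 0) (p (nat_lit 0x80000800068786058a) (nat_lit 0) (p (nat_lit 0x8687058502) (nat_lit 0) (p (nat_lit 0x606850482) (nat_lit 0) (p (nat_lit 0x160014) (nat_lit 0) (p (nat_lit 0x68612)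 (nat_lit 0) (p (nat_lit 0x50592) (nat_lit 0) (p (nat_lit 0x40512) (nat_lit 0) (p (nat_lit 0x50312) (nat_lit 0) (p (nat_lit 0x38292) (nat_lit 0) (p (nat_lit 0x28212) (nat_lit 0) (p (nat_lit 0x38112) (nat_lit 0) (p (nat_lit 0x20092) (nat_lit 0) (p (nat_lit 0x10012) (nat_lit 0) pn))))))))))))))))))))))))))))) :=
  Cl.node (nat_lit 0x100004) (nat_lit 2) (by decide +kernel) (ClAll.succ (ClAll.succ ClAll.zero n237) s862)

def n291 : Cl (O (nat_lit 3)) (R (nat_lit 143633))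
    (p (nat_lit 0x200004) (nat_lit 0) (p (nat_lit 0x380c2) (nat_lit 0) (p (nat_lit 0x3c4aa) (nat_lit 7) (p (nat_lit 0xd1) (nat_lit 1) (p (nat_lit 0x111) (nat_lit 1) (p (nat_lit 0x109) (nat_lit 0) (p (nat_lit 0x101) (nat_lit 0) (p (nat_lit 0x119) (nat_lit 0) (p (nat_lit 0xc1) (nat_lit 0) (p (nat_lit 0x81) (nat_lit 1) (p (nat_lit 0x41) (nat_lit 1) (p (nat_lit 0x8a898a08881a) (nat_lit 0) (p (nat_lit 0xa090988079a) (nat_lit 0) (p (nat_lit 0x88088907871a) (nat_lit 0) (p (nat_lit 0x7880887069a) (nat_lit 0) (p (nat_lit 0x80000800088806860a) (nat_lit 0) (p (nat_lit 0x80000800068786058a) (nat_lit 0) (p (nat_lit 0x8687058502) (nat_lit 0) (p (nat_lit 0x606850482) (nat_lit 0) (p (nat_lit 0x160014) (nat_lit 0) (p (nat_lit 0x68612) (nat_lit 0) (p (nat_lit 0x50592) (nat_lit 0) (p (nat_lit 0x40512) (nat_lit 0) (p (nat_lit 0x50312) (nat_lit 0) (p (nat_lit 0x38292) (nat_lit 0) (p (nat_lit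 0x28212) (nat_lit 0) (p (nat_lit 0x38112) (nat_lit 0) (p (nat_lit 0x20092) (nat_lit 0) (p (nat_lit 0x10012) (nat_lit 0) pn))))))))))))))))))))))))))))) :=
  Cl.node (nat_lit 0x20000c) (nat_lit 2) (by decide +kernel) (ClAll.succ (ClAll.succ ClAll.zero n238) s951)

def n292 : Cl (O (nat_lit 3)) (R (nat_lit 143633))
    (p (nat_lit 0x200004) (nat_lit 0) (p (nat_lit 0x380c2) (nat_lit 1) (p (nat_lit 0x3c4aa) (nat_lit 7) (p (nat_lit 0xd1) (nat_lit 1) (p (nat_lit 0x111) (nat_lit 1) (p (nat_lit 0x109) (nat_lit 0) (p (nat_lit 0x101) (nat_lit 0) (p (nat_lit 0x119) (nat_lit 0) (p (nat_lit 0xc1) (nat_lit 0) (p (nat_lit 0x81) (nat_lit 1) (p (nat_lit 0x41) (nat_lit 1) (p (nat_lit 0x8a898a08881a) (nat_lit 0) (p (nat_lit 0xa090988079a) (nat_lit 0) (p (nat_lit 0x88088907871a) (nat_lit 0) (p (nat_lit 0x7880887069a) (nat_lit 0) (p (nat_lit 0x80000800088806860a) (nat_lit 0) (p (nat_lit 0x80000800068786058a)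 (nat_lit 0) (p (nat_lit 0x8687058502) (nat_lit 0) (p (nat_lit 0x606850482) (nat_lit 0) (p (nat_lit 0x160014) (nat_lit 0) (p (nat_lit 0x68612) (nat_lit 0) (p (nat_lit 0x50592) (nat_lit 0) (p (nat_lit 0x40512) (nat_lit 0) (p (nat_lit 0x50312) (nat_lit 0) (p (nat_lit 0x38292) (nat_lit 0) (p (nat_lit 0x28212) (nat_lit 0) (p (nat_lit 0x38112) (nat_lit 0) (p (nat_lit 0x20092) (nat_lit 0) (p (nat_lit 0x10012) (nat_lit 0) pn))))))))))))))))))))))))))))) :=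
  Cl.node (nat_lit 0x20000c) (nat_lit 2) (by decide +kernel) (ClAll.succ (ClAll.succ ClAll.zero n239) s978)

def n293 : Cl (O (nat_lit 3)) (R (nat_lit 143633))
    (p (nat_lit 0x200004) (nat_lit 0) (p (nat_lit 0x380c2) (nat_lit 0) (p (nat_lit 0x3c4aa) (nat_lit 7) (p (nat_lit 0xd1) (nat_lit 1) (p (nat_lit 0xc9) (nat_lit 0) (p (nat_lit 0x109) (nat_lit 1) (p (nat_lit 0x101) (nat_lit 0) (p (nat_lit 0x119) (nat_lit 0) (p (nat_lit 0xc1) (nat_lit 0) (p (nat_lit 0x81) (nat_lit 1) (p (nat_lit 0x41) (nat_lit 1) (p (nat_lit 0x8a898a08881a) (nat_lit 0) (p (nat_lit 0xa090988079a) (nat_lit 0) (p (nat_lit 0x88088907871a) (nat_lit 0) (p (nat_lit 0x7880887069a) (nat_lit 0) (p (nat_lit 0x80000800088806860a) (nat_lit 0) (p (nat_lit 0x80000800068786058a) (nat_lit 0) (p (nat_lit 0x8687058502) (nat_lit 0) (p (nat_lit 0x606850482) (nat_lit 0) (p (nat_lit 0x160014) (nat_lit 0) (p (nat_lit 0x68612)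 (nat_lit 0) (p (nat_lit 0x50592) (nat_lit 0) (p (nat_lit 0x40512) (nat_lit 0) (p (nat_lit 0x50312) (nat_lit 0) (p (nat_lit 0x38292) (nat_lit 0) (p (nat_lit 0x28212) (nat_lit 0) (p (nat_lit 0x38112) (nat_lit 0) (p (nat_lit 0x20092) (nat_lit 0) (p (nat_lit 0x10012) (nat_lit 0) pn))))))))))))))))))))))))))))) :=
  Cl.node (nat_lit 0x20000c) (nat_lit 2) (by decide +kernel) (ClAll.succ (ClAll.succ ClAll.zero n240) s994)

def n294 : Cl (O (nat_lit 3)) (R (nat_lit 143633))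
    (p (nat_lit 0x200004) (nat_lit 0) (p (nat_lit 0x380c2) (nat_lit 1) (p (nat_lit 0x3c4aa) (nat_lit 7) (p (nat_lit 0xd1) (nat_lit 1) (p (nat_lit 0xc9) (nat_lit 0) (p (nat_lit 0x109) (nat_lit 1) (p (nat_lit 0x101) (nat_lit 0) (p (nat_lit 0x119) (nat_lit 0) (p (nat_lit 0xc1) (nat_lit 0) (p (nat_lit 0x81) (nat_lit 1) (p (nat_lit 0x41) (nat_lit 1) (p (nat_lit 0x8a898a08881a) (nat_lit 0) (p (nat_lit 0xa090988079a) (nat_lit 0) (p (nat_lit 0x88088907871a) (nat_lit 0) (p (nat_lit 0x7880887069a) (nat_lit 0) (p (nat_lit 0x80000800088806860a) (nat_lit 0) (p (nat_lit 0x80000800068786058a) (nat_lit 0) (p (nat_lit 0x8687058502) (nat_lit 0) (p (nat_lit 0x606850482) (nat_lit 0) (p (nat_lit 0x160014) (nat_lit 0) (p (nat_lit 0x68612) (nat_lit 0) (p (nat_lit 0x50592) (nat_lit 0) (p (nat_lit 0x40512) (nat_lit 0) (p (nat_lit 0x50312) (nat_lit 0) (p (nat_lit 0x38292) (nat_lit 0) (p (nat_lit 0x28212)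 (nat_lit 0) (p (nat_lit 0x38112) (nat_lit 0) (p (nat_lit 0x20092) (nat_lit 0) (p (nat_lit 0x10012) (nat_lit 0) pn))))))))))))))))))))))))))))) :=
  Cl.node (nat_lit 0x20000c) (nat_lit 2) (by decide +kernel) (ClAll.succ (ClAll.succ ClAll.zero n241) s1002)

def n295 : Cl (O (nat_lit 3)) (R (nat_lit 143633))
    (p (nat_lit 0x200004) (nat_lit 0) (p (nat_lit 0x20000c) (nat_lit 0) (p (nat_lit 0x380c2) (nat_lit 0) (p (nat_lit 0x3c4aa) (nat_lit 7) (p (nat_lit 0xd1) (nat_lit 1) (p (nat_lit 0xc9) (nat_lit 0) (p (nat_lit 0x101) (nat_lit 1) (p (nat_lit 0x119) (nat_lit 0) (p (nat_lit 0xc1) (nat_lit 0) (p (nat_lit 0x81) (nat_lit 1) (p (nat_lit 0x41) (nat_lit 1) (p (nat_lit 0x8a898a08881a) (nat_lit 0) (p (nat_lit 0xa090988079a) (nat_lit 0) (p (nat_lit 0x88088907871a) (nat_lit 0) (p (nat_lit 0x7880887069a) (nat_lit 0) (p (nat_lit 0x80000800088806860a) (nat_lit 0) (p (nat_lit 0x80000800068786058a)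 (nat_lit 0) (p (nat_lit 0x8687058502) (nat_lit 0) (p (nat_lit 0x606850482) (nat_lit 0) (p (nat_lit 0x160014) (nat_lit 0) (p (nat_lit 0x68612) (nat_lit 0) (p (nat_lit 0x50592) (nat_lit 0) (p (nat_lit 0x40512) (nat_lit 0) (p (nat_lit 0x50312) (nat_lit 0) (p (nat_lit 0x38292) (nat_lit 0) (p (nat_lit 0x28212) (nat_lit 0) (p (nat_lit 0x38112) (nat_lit 0) (p (nat_lit 0x20092) (nat_lit 0) (p (nat_lit 0x10012) (nat_lit 0) pn))))))))))))))))))))))))))))) :=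
  Cl.node (nat_lit 0x10000c) (nat_lit 2) (by decide +kernel) (ClAll.succ (ClAll.succ ClAll.zero n242) s1043)

def n296 : Cl (O (nat_lit 3)) (R (nat_lit 143633))
    (p (nat_lit 0x20000c) (nat_lit 0) (p (nat_lit 0x200004) (nat_lit 0) (p (nat_lit 0x380c2) (nat_lit 1) (p (nat_lit 0x3c4aa) (nat_lit 7) (p (nat_lit 0xd1) (nat_lit 1) (p (nat_lit 0xc9) (nat_lit 0) (p (nat_lit 0x101) (nat_lit 1) (p (nat_lit 0x119) (nat_lit 0) (p (nat_lit 0xc1) (nat_lit 0) (p (nat_lit 0x81) (nat_lit 1) (p (nat_lit 0x41) (nat_lit 1) (p (nat_lit 0x8a898a08881a) (nat_lit 0) (p (nat_lit 0xa090988079a) (nat_lit 0) (p (nat_lit 0x88088907871a) (nat_lit 0) (p (nat_lit 0x7880887069a) (nat_lit 0) (p (nat_lit 0x80000800088806860a) (nat_lit 0) (p (nat_lit 0x80000800068786058a) (nat_lit 0) (p (nat_lit 0x8687058502) (nat_lit 0) (p (nat_lit 0x606850482) (nat_lit 0) (p (nat_lit 0x160014) (nat_lit 0) (p (nat_lit 0x68612)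 (nat_lit 0) (p (nat_lit 0x50592) (nat_lit 0) (p (nat_lit 0x40512) (nat_lit 0) (p (nat_lit 0x50312) (nat_lit 0) (p (nat_lit 0x38292) (nat_lit 0) (p (nat_lit 0x28212) (nat_lit 0) (p (nat_lit 0x38112) (nat_lit 0) (p (nat_lit 0x20092) (nat_lit 0) (p (nat_lit 0x10012) (nat_lit 0) pn))))))))))))))))))))))))))))) :=
  Cl.node (nat_lit 0x10000c) (nat_lit 2) (by decide +kernel) (ClAll.succ (ClAll.succ ClAll.zero n243) s1060)

def n297 : Cl (O (nat_lit 3)) (R (nat_lit 143633))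
    (p (nat_lit 0x20000c) (nat_lit 0) (p (nat_lit 0x200004) (nat_lit 0) (p (nat_lit 0x380c2) (nat_lit 0) (p (nat_lit 0x3c4aa) (nat_lit 7) (p (nat_lit 0x111) (nat_lit 1) (p (nat_lit 0xd1) (nat_lit 1) (p (nat_lit 0xc9) (nat_lit 0) (p (nat_lit 0x119) (nat_lit 1) (p (nat_lit 0xc1) (nat_lit 0) (p (nat_lit 0x81) (nat_lit 1) (p (nat_lit 0x41) (nat_lit 1) (p (nat_lit 0x8a898a08881a) (nat_lit 0) (p (nat_lit 0xa090988079a) (nat_lit 0) (p (nat_lit 0x88088907871a) (nat_lit 0) (p (nat_lit 0x7880887069a) (nat_lit 0) (p (nat_lit 0x80000800088806860a) (nat_lit 0) (p (nat_lit 0x80000800068786058a) (nat_lit 0) (p (nat_lit 0x8687058502) (nat_lit 0) (p (nat_lit 0x606850482) (nat_lit 0) (p (nat_lit 0x160014) (nat_lit 0) (p (nat_lit 0x68612) (nat_lit 0) (p (nat_lit 0x50592) (nat_lit 0) (p (nat_lit 0x40512) (nat_lit 0) (p (nat_lit 0x50312) (nat_lit 0) (p (nat_lit 0x38292) (nat_lit 0) (p (nat_lit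 0x28212) (nat_lit 0) (p (nat_lit 0x38112) (nat_lit 0) (p (nat_lit 0x20092) (nat_lit 0) (p (nat_lit 0x10012) (nat_lit 0) pn))))))))))))))))))))))))))))) :=
  Cl.node (nat_lit 0x100004) (nat_lit 2) (by decide +kernel) (ClAll.succ (ClAll.succ ClAll.zero n244) s1080)

def n298 : Cl (O (nat_lit 3)) (R (nat_lit 143633))
    (p (nat_lit 0x200004) (nat_lit 0) (p (nat_lit 0xb0014) (nat_lit 0) (p (nat_lit 0x380c2) (nat_lit 1) (p (nat_lit 0x3c4aa) (nat_lit 7) (p (nat_lit 0x111) (nat_lit 1) (p (nat_lit 0xd1) (nat_lit 1) (p (nat_lit 0xc9) (nat_lit 0) (p (nat_lit 0x119) (nat_lit 1) (p (nat_lit 0xc1) (nat_lit 0) (p (nat_lit 0x81) (nat_lit 1) (p (nat_lit 0x41) (nat_lit 1) (p (nat_lit 0x8a898a08881a) (nat_lit 0) (p (nat_lit 0xa090988079a) (nat_lit 0) (p (nat_lit 0x88088907871a) (nat_lit 0) (p (nat_lit 0x7880887069a) (nat_lit 0) (p (nat_lit 0x80000800088806860a) (nat_lit 0) (p (nat_lit 0x80000800068786058a)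 (nat_lit 0) (p (nat_lit 0x8687058502) (nat_lit 0) (p (nat_lit 0x606850482) (nat_lit 0) (p (nat_lit 0x160014) (nat_lit 0) (p (nat_lit 0x68612) (nat_lit 0) (p (nat_lit 0x50592) (nat_lit 0) (p (nat_lit 0x40512) (nat_lit 0) (p (nat_lit 0x50312) (nat_lit 0) (p (nat_lit 0x38292) (nat_lit 0) (p (nat_lit 0x28212) (nat_lit 0) (p (nat_lit 0x38112) (nat_lit 0) (p (nat_lit 0x20092) (nat_lit 0) (p (nat_lit 0x10012) (nat_lit 0) pn))))))))))))))))))))))))))))) :=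
  Cl.node (nat_lit 0x100004) (nat_lit 2) (by decide +kernel) (ClAll.succ (ClAll.succ ClAll.zero n245) s1087)

def n299 : Cl (O (nat_lit 3)) (R (nat_lit 143633))
    (p (nat_lit 0x1fc004) (nat_lit 0) (p (nat_lit 0xb0014) (nat_lit 1) (p (nat_lit 0x380c2) (nat_lit 1) (p (nat_lit 0x3c4aa) (nat_lit 7) (p (nat_lit 0x111) (nat_lit 1) (p (nat_lit 0xd1) (nat_lit 1) (p (nat_lit 0xc9) (nat_lit 0) (p (nat_lit 0x119) (nat_lit 1) (p (nat_lit 0xc1) (nat_lit 0) (p (nat_lit 0x81) (nat_lit 1) (p (nat_lit 0x41) (nat_lit 1) (p (nat_lit 0x8a898a08881a) (nat_lit 0) (p (nat_lit 0xa090988079a) (nat_lit 0) (p (nat_lit 0x88088907871a) (nat_lit 0) (p (nat_lit 0x7880887069a) (nat_lit 0) (p (nat_lit 0x80000800088806860a) (nat_lit 0) (p (nat_lit 0x80000800068786058a) (nat_lit 0) (p (nat_lit 0x8687058502) (nat_lit 0) (p (nat_lit 0x606850482) (nat_lit 0) (p (nat_lit 0x160014) (nat_lit 0) (p (nat_lit 0x68612)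 (nat_lit 0) (p (nat_lit 0x50592) (nat_lit 0) (p (nat_lit 0x40512) (nat_lit 0) (p (nat_lit 0x50312) (nat_lit 0) (p (nat_lit 0x38292) (nat_lit 0) (p (nat_lit 0x28212) (nat_lit 0) (p (nat_lit 0x38112) (nat_lit 0) (p (nat_lit 0x20092) (nat_lit 0) (p (nat_lit 0x10012) (nat_lit 0) pn))))))))))))))))))))))))))))) :=
  Cl.node (nat_lit 0x1fc00c) (nat_lit 2) (by decide +kernel) (ClAll.succ (ClAll.succ ClAll.zero n246) s1093)

def n300 : Cl (O (nat_lit 3)) (R (nat_lit 143633))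
    (p (nat_lit 0x200004) (nat_lit 0) (p (nat_lit 0x20000c) (nat_lit 0) (p (nat_lit 0x380c2) (nat_lit 0) (p (nat_lit 0x3c4aa) (nat_lit 7) (p (nat_lit 0x111) (nat_lit 1) (p (nat_lit 0x109) (nat_lit 0) (p (nat_lit 0xc9) (nat_lit 1) (p (nat_lit 0x119) (nat_lit 1) (p (nat_lit 0xc1) (nat_lit 0) (p (nat_lit 0x81) (nat_lit 1) (p (nat_lit 0x41) (nat_lit 1) (p (nat_lit 0x8a898a08881a) (nat_lit 0) (p (nat_lit 0xa090988079a) (nat_lit 0) (p (nat_lit 0x88088907871a) (nat_lit 0) (p (nat_lit 0x7880887069a) (nat_lit 0) (p (nat_lit 0x80000800088806860a) (nat_lit 0) (p (nat_lit 0x80000800068786058a) (nat_lit 0) (p (nat_lit 0x8687058502) (nat_lit 0) (p (nat_lit 0x606850482) (nat_lit 0) (p (nat_lit 0x160014) (nat_lit 0) (p (nat_lit 0x68612) (nat_lit 0) (p (nat_lit 0x50592) (nat_lit 0) (p (nat_lit 0x40512) (nat_lit 0) (p (nat_lit 0x50312) (nat_lit 0) (p (nat_lit 0x38292) (nat_lit 0) (p (nat_lit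 0x28212) (nat_lit 0) (p (nat_lit 0x38112) (nat_lit 0) (p (nat_lit 0x20092) (nat_lit 0) (p (nat_lit 0x10012) (nat_lit 0) pn))))))))))))))))))))))))))))) :=
  Cl.node (nat_lit 0x100004) (nat_lit 2) (by decide +kernel) (ClAll.succ (ClAll.succ ClAll.zero n247) s1122)

def n301 : Cl (O (nat_lit 3)) (R (nat_lit 143633))
    (p (nat_lit 0x200004) (nat_lit 0) (p (nat_lit 0xb0014) (nat_lit 0) (p (nat_lit 0x380c2) (nat_lit 1) (p (nat_lit 0x3c4aa) (nat_lit 7) (p (nat_lit 0x111) (nat_lit 1) (p (nat_lit 0x109) (nat_lit 0) (p (nat_lit 0xc9) (nat_lit 1) (p (nat_lit 0x119) (nat_lit 1) (p (nat_lit 0xc1) (nat_lit 0) (p (nat_lit 0x81) (nat_lit 1) (p (nat_lit 0x41) (nat_lit 1) (p (nat_lit 0x8a898a08881a) (nat_lit 0) (p (nat_lit 0xa090988079a) (nat_lit 0) (p (nat_lit 0x88088907871a) (nat_lit 0) (p (nat_lit 0x7880887069a) (nat_lit 0) (p (nat_lit 0x80000800088806860a) (nat_lit 0) (p (nat_lit 0x80000800068786058a)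 (nat_lit 0) (p (nat_lit 0x8687058502) (nat_lit 0) (p (nat_lit 0x606850482) (nat_lit 0) (p (nat_lit 0x160014) (nat_lit 0) (p (nat_lit 0x68612) (nat_lit 0) (p (nat_lit 0x50592) (nat_lit 0) (p (nat_lit 0x40512) (nat_lit 0) (p (nat_lit 0x50312) (nat_lit 0) (p (nat_lit 0x38292) (nat_lit 0) (p (nat_lit 0x28212) (nat_lit 0) (p (nat_lit 0x38112) (nat_lit 0) (p (nat_lit 0x20092) (nat_lit 0) (p (nat_lit 0x10012) (nat_lit 0) pn))))))))))))))))))))))))))))) :=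
  Cl.node (nat_lit 0x100004) (nat_lit 2) (by decide +kernel) (ClAll.succ (ClAll.succ ClAll.zero n248) s1128)

def n302 : Cl (O (nat_lit 3)) (R (nat_lit 143633))
    (p (nat_lit 0x1fc004) (nat_lit 0) (p (nat_lit 0xb0014) (nat_lit 1) (p (nat_lit 0x380c2) (nat_lit 1) (p (nat_lit 0x3c4aa) (nat_lit 7) (p (nat_lit 0x111) (nat_lit 1) (p (nat_lit 0x109) (nat_lit 0) (p (nat_lit 0xc9) (nat_lit 1) (p (nat_lit 0x119) (nat_lit 1) (p (nat_lit 0xc1) (nat_lit 0) (p (nat_lit 0x81) (nat_lit 1) (p (nat_lit 0x41) (nat_lit 1) (p (nat_lit 0x8a898a08881a) (nat_lit 0) (p (nat_lit 0xa090988079a) (nat_lit 0) (p (nat_lit 0x88088907871a) (nat_lit 0) (p (nat_lit 0x7880887069a) (nat_lit 0) (p (nat_lit 0x80000800088806860a) (nat_lit 0) (p (nat_lit 0x80000800068786058a) (nat_lit 0) (p (nat_lit 0x8687058502) (nat_lit 0) (p (nat_lit 0x606850482) (nat_lit 0) (p (nat_lit 0x160014) (nat_lit 0) (p (nat_lit 0x68612)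 (nat_lit 0) (p (nat_lit 0x50592) (nat_lit 0) (p (nat_lit 0x40512) (nat_lit 0) (p (nat_lit 0x50312) (nat_lit 0) (p (nat_lit 0x38292) (nat_lit 0) (p (nat_lit 0x28212) (nat_lit 0) (p (nat_lit 0x38112) (nat_lit 0) (p (nat_lit 0x20092) (nat_lit 0) (p (nat_lit 0x10012) (nat_lit 0) pn))))))))))))))))))))))))))))) :=
  Cl.node (nat_lit 0x1fc00c) (nat_lit 2) (by decide +kernel) (ClAll.succ (ClAll.succ ClAll.zero n249) s1135)

def n303 : Cl (O (nat_lit 3)) (R (nat_lit 143633))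
    (p (nat_lit 0x20000c) (nat_lit 0) (p (nat_lit 0x200004) (nat_lit 0) (p (nat_lit 0x380c2) (nat_lit 1) (p (nat_lit 0x3c4aa) (nat_lit 7) (p (nat_lit 0x119) (nat_lit 1) (p (nat_lit 0x111) (nat_lit 0) (p (nat_lit 0x109) (nat_lit 0) (p (nat_lit 0x101) (nat_lit 0) (p (nat_lit 0xc1) (nat_lit 1) (p (nat_lit 0x81) (nat_lit 1) (p (nat_lit 0x41) (nat_lit 1) (p (nat_lit 0x8a898a08881a) (nat_lit 0) (p (nat_lit 0xa090988079a) (nat_lit 0) (p (nat_lit 0x88088907871a) (nat_lit 0) (p (nat_lit 0x7880887069a) (nat_lit 0) (p (nat_lit 0x80000800088806860a) (nat_lit 0) (p (nat_lit 0x80000800068786058a) (nat_lit 0) (p (nat_lit 0x8687058502) (nat_lit 0) (p (nat_lit 0x606850482) (nat_lit 0) (p (nat_lit 0x160014) (nat_lit 0) (p (nat_lit 0x68612) (nat_lit 0) (p (nat_lit 0x50592) (nat_lit 0) (p (nat_lit 0x40512) (nat_lit 0) (p (nat_lit 0x50312) (nat_lit 0) (p (nat_lit 0x38292) (nat_lit 0) (p (nat_lit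 0x28212) (nat_lit 0) (p (nat_lit 0x38112) (nat_lit 0) (p (nat_lit 0x20092) (nat_lit 0) (p (nat_lit 0x10012) (nat_lit 0) pn))))))))))))))))))))))))))))) :=
  Cl.node (nat_lit 0x10000c) (nat_lit 2) (by decide +kernel) (ClAll.succ (ClAll.succ ClAll.zero s1165) s1166)

def n304 : Cl (O (nat_lit 3)) (R (nat_lit 143633))
    (p (nat_lit 0x380c2) (nat_lit 0) (p (nat_lit 0x444aa) (nat_lit 7) (p (nat_lit 0x81) (nat_lit 1) (p (nat_lit 0xc9) (nat_lit 1) (p (nat_lit 0x109) (nat_lit 1) (p (nat_lit 0x101) (nat_lit 0) (p (nat_lit 0x119) (nat_lit 0) (p (nat_lit 0xd1) (nat_lit 0) (p (nat_lit 0x89) (nat_lit 0) (p (nat_lit 0x41) (nat_lit 0) (p (nat_lit 0x8a898a08881a) (nat_lit 0) (p (nat_lit 0xa090988079a) (nat_lit 0) (p (nat_lit 0x88088907871a) (nat_lit 0) (p (nat_lit 0x7880887069a) (nat_lit 0) (p (nat_lit 0x80000800088806860a) (nat_lit 0) (p (nat_lit 0x80000800068786058a) (nat_lit 0) (p (nat_lit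 0x8687058502) (nat_lit 0) (p (nat_lit 0x606850482) (nat_lit 0) (p (nat_lit 0x160014) (nat_lit 0) (p (nat_lit 0x68612) (nat_lit 0) (p (nat_lit 0x50592) (nat_lit 0) (p (nat_lit 0x40512) (nat_lit 0) (p (nat_lit 0x50312) (nat_lit 0) (p (nat_lit 0x38292) (nat_lit 0) (p (nat_lit 0x28212) (nat_lit 0) (p (nat_lit 0x38112) (nat_lit 0) (p (nat_lit 0x20092) (nat_lit 0) (p (nat_lit 0x10012) (nat_lit 0) pn)))))))))))))))))))))))))))) :=
  Cl.node (nat_lit 0xb0014) (nat_lit 2) (by decide +kernel) (ClAll.succ (ClAll.succ ClAll.zero n250) n251)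

def n305 : Cl (O (nat_lit 3)) (R (nat_lit 143633))
    (p (nat_lit 0x380c2) (nat_lit 1) (p (nat_lit 0x444aa) (nat_lit 7) (p (nat_lit 0x81) (nat_lit 1) (p (nat_lit 0xc9) (nat_lit 1) (p (nat_lit 0x109) (nat_lit 1) (p (nat_lit 0x101) (nat_lit 0) (p (nat_lit 0x119) (nat_lit 0) (p (nat_lit 0xd1) (nat_lit 0) (p (nat_lit 0x89) (nat_lit 0) (p (nat_lit 0x41) (nat_lit 0) (p (nat_lit 0x8a898a08881a) (nat_lit 0) (p (nat_lit 0xa090988079a) (nat_lit 0) (p (nat_lit 0x88088907871a) (nat_lit 0) (p (nat_lit 0x7880887069a) (nat_lit 0) (p (nat_lit 0x80000800088806860a) (nat_lit 0) (p (nat_lit 0x80000800068786058a) (nat_lit 0) (p (nat_lit 0x8687058502) (nat_lit 0) (p (nat_lit 0x606850482) (nat_lit 0) (p (nat_lit 0x160014) (nat_lit 0) (p (nat_lit 0x68612) (nat_lit 0) (p (nat_lit 0x50592) (nat_lit 0) (p (nat_lit 0x40512) (nat_lit 0) (p (nat_lit 0x50312) (nat_lit 0) (p (nat_lit 0x38292) (nat_lit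 0) (p (nat_lit 0x28212) (nat_lit 0) (p (nat_lit 0x38112) (nat_lit 0) (p (nat_lit 0x20092) (nat_lit 0) (p (nat_lit 0x10012) (nat_lit 0) pn)))))))))))))))))))))))))))) :=
  Cl.node (nat_lit 0x20000c) (nat_lit 2) (by decide +kernel) (ClAll.succ (ClAll.succ ClAll.zero n252) s28)

def n306 : Cl (O (nat_lit 3)) (R (nat_lit 143633))
    (p (nat_lit 0x380c2) (nat_lit 0) (p (nat_lit 0x444aa) (nat_lit 7) (p (nat_lit 0x111) (nat_lit 0) (p (nat_lit 0xc9) (nat_lit 1) (p (nat_lit 0x81) (nat_lit 0) (p (nat_lit 0x101) (nat_lit 1) (p (nat_lit 0x119) (nat_lit 0) (p (nat_lit 0xd1) (nat_lit 0) (p (nat_lit 0x89) (nat_lit 0) (p (nat_lit 0x41) (nat_lit 0) (p (nat_lit 0x8a898a08881a) (nat_lit 0) (p (nat_lit 0xa090988079a) (nat_lit 0) (p (nat_lit 0x88088907871a) (nat_lit 0) (p (nat_lit 0x7880887069a) (nat_lit 0) (p (nat_lit 0x80000800088806860a) (nat_lit 0) (p (nat_lit 0x80000800068786058a) (nat_lit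 0) (p (nat_lit 0x8687058502) (nat_lit 0) (p (nat_lit 0x606850482) (nat_lit 0) (p (nat_lit 0x160014) (nat_lit 0) (p (nat_lit 0x68612) (nat_lit 0) (p (nat_lit 0x50592) (nat_lit 0) (p (nat_lit 0x40512) (nat_lit 0) (p (nat_lit 0x50312) (nat_lit 0) (p (nat_lit 0x38292) (nat_lit 0) (p (nat_lit 0x28212) (nat_lit 0) (p (nat_lit 0x38112) (nat_lit 0) (p (nat_lit 0x20092) (nat_lit 0) (p (nat_lit 0x10012) (nat_lit 0) pn)))))))))))))))))))))))))))) :=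
  Cl.node (nat_lit 0xb0014) (nat_lit 2) (by decide +kernel) (ClAll.succ (ClAll.succ ClAll.zero n253) n254)

def n307 : Cl (O (nat_lit 3)) (R (nat_lit 143633))
    (p (nat_lit 0x380c2) (nat_lit 1) (p (nat_lit 0x444aa) (nat_lit 7) (p (nat_lit 0x111) (nat_lit 0) (p (nat_lit 0xc9) (nat_lit 1) (p (nat_lit 0x81) (nat_lit 0) (p (nat_lit 0x101) (nat_lit 1) (p (nat_lit 0x119) (nat_lit 0) (p (nat_lit 0xd1) (nat_lit 0) (p (nat_lit 0x89) (nat_lit 0) (p (nat_lit 0x41) (nat_lit 0) (p (nat_lit 0x8a898a08881a) (nat_lit 0) (p (nat_lit 0xa090988079a) (nat_lit 0) (p (nat_lit 0x88088907871a) (nat_lit 0) (p (nat_lit 0x7880887069a) (nat_lit 0) (p (nat_lit 0x80000800088806860a) (nat_lit 0) (p (nat_lit 0x80000800068786058a) (nat_lit 0) (p (nat_lit 0x8687058502) (nat_lit 0) (p (nat_lit 0x606850482) (nat_lit 0) (p (nat_lit 0x160014) (nat_lit 0) (p (nat_lit 0x68612) (nat_lit 0) (p (nat_lit 0x50592)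 (nat_lit 0) (p (nat_lit 0x40512) (nat_lit 0) (p (nat_lit 0x50312) (nat_lit 0) (p (nat_lit 0x38292) (nat_lit 0) (p (nat_lit 0x28212) (nat_lit 0) (p (nat_lit 0x38112) (nat_lit 0) (p (nat_lit 0x20092) (nat_lit 0) (p (nat_lit 0x10012) (nat_lit 0) pn)))))))))))))))))))))))))))) :=
  Cl.node (nat_lit 0x20000c) (nat_lit 2) (by decide +kernel) (ClAll.succ (ClAll.succ ClAll.zero n255) s68)

def n308 : Cl (O (nat_lit 3)) (R (nat_lit 143633))
    (p (nat_lit 0x380c2) (nat_lit 0) (p (nat_lit 0x444aa) (nat_lit 7) (p (nat_lit 0xc9) (nat_lit 1) (p (nat_lit 0xc1) (nat_lit 0) (p (nat_lit 0x81) (nat_lit 1) (p (nat_lit 0x101) (nat_lit 1) (p (nat_lit 0x119) (nat_lit 0) (p (nat_lit 0xd1) (nat_lit 0) (p (nat_lit 0x89) (nat_lit 0) (p (nat_lit 0x41) (nat_lit 0) (p (nat_lit 0x8a898a08881a) (nat_lit 0) (p (nat_lit 0xa090988079a) (nat_lit 0) (p (nat_lit 0x88088907871a) (nat_lit 0) (p (nat_lit 0x7880887069a)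 (nat_lit 0) (p (nat_lit 0x80000800088806860a) (nat_lit 0) (p (nat_lit 0x80000800068786058a) (nat_lit 0) (p (nat_lit 0x8687058502) (nat_lit 0) (p (nat_lit 0x606850482) (nat_lit 0) (p (nat_lit 0x160014) (nat_lit 0) (p (nat_lit 0x68612) (nat_lit 0) (p (nat_lit 0x50592) (nat_lit 0) (p (nat_lit 0x40512) (nat_lit 0) (p (nat_lit 0x50312) (nat_lit 0) (p (nat_lit 0x38292) (nat_lit 0) (p (nat_lit 0x28212) (nat_lit 0) (p (nat_lit 0x38112) (nat_lit 0) (p (nat_lit 0x20092) (nat_lit 0) (p (nat_lit 0x10012) (nat_lit 0) pn)))))))))))))))))))))))))))) :=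
  Cl.node (nat_lit 0xb0014) (nat_lit 2) (by decide +kernel) (ClAll.succ (ClAll.succ ClAll.zero s93) s94)

def n309 : Cl (O (nat_lit 3)) (R (nat_lit 143633))
    (p (nat_lit 0x380c2) (nat_lit 1) (p (nat_lit 0x444aa) (nat_lit 7) (p (nat_lit 0xc9) (nat_lit 1) (p (nat_lit 0xc1) (nat_lit 0) (p (nat_lit 0x81) (nat_lit 1) (p (nat_lit 0x101) (nat_lit 1) (p (nat_lit 0x119) (nat_lit 0) (p (nat_lit 0xd1) (nat_lit 0) (p (nat_lit 0x89) (nat_lit 0) (p (nat_lit 0x41) (nat_lit 0) (p (nat_lit 0x8a898a08881a) (nat_lit 0) (p (nat_lit 0xa090988079a) (nat_lit 0) (p (nat_lit 0x88088907871a) (nat_lit 0) (p (nat_lit 0x7880887069a) (nat_lit 0) (p (nat_lit 0x80000800088806860a) (nat_lit 0) (p (nat_lit 0x80000800068786058a) (nat_lit 0) (p (nat_lit 0x8687058502) (nat_lit 0) (p (nat_lit 0x606850482) (nat_lit 0) (p (nat_lit 0x160014) (nat_lit 0) (p (nat_lit 0x68612) (nat_lit 0) (p (nat_lit 0x50592) (nat_lit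 0) (p (nat_lit 0x40512) (nat_lit 0) (p (nat_lit 0x50312) (nat_lit 0) (p (nat_lit 0x38292) (nat_lit 0) (p (nat_lit 0x28212) (nat_lit 0) (p (nat_lit 0x38112) (nat_lit 0) (p (nat_lit 0x20092) (nat_lit 0) (p (nat_lit 0x10012) (nat_lit 0) pn)))))))))))))))))))))))))))) :=
  Cl.node (nat_lit 0x20000c) (nat_lit 2) (by decide +kernel) (ClAll.succ (ClAll.succ ClAll.zero n256) s99)

def n310 : Cl (O (nat_lit 3)) (R (nat_lit 143633))
    (p (nat_lit 0x101) (nat_lit 1) (p (nat_lit 0x380c2) (nat_lit 0) (p (nat_lit 0x3cc2a) (nat_lit 10) (p (nat_lit 0x109) (nat_lit 1) (p (nat_lit 0xc9) (nat_lit 1) (p (nat_lit 0xc1) (nat_lit 0) (p (nat_lit 0x119) (nat_lit 1) (p (nat_lit 0xd1) (nat_lit 0) (p (nat_lit 0x89) (nat_lit 0) (p (nat_lit 0x41) (nat_lit 0) (p (nat_lit 0x8a898a08881a) (nat_lit 0) (p (nat_lit 0xa090988079a) (nat_lit 0) (p (nat_lit 0x88088907871a) (nat_lit 0) (p (nat_lit 0x7880887069a)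 (nat_lit 0) (p (nat_lit 0x80000800088806860a) (nat_lit 0) (p (nat_lit 0x80000800068786058a) (nat_lit 0) (p (nat_lit 0x8687058502) (nat_lit 0) (p (nat_lit 0x606850482) (nat_lit 0) (p (nat_lit 0x160014) (nat_lit 0) (p (nat_lit 0x68612) (nat_lit 0) (p (nat_lit 0x50592) (nat_lit 0) (p (nat_lit 0x40512) (nat_lit 0) (p (nat_lit 0x50312) (nat_lit 0) (p (nat_lit 0x38292) (nat_lit 0) (p (nat_lit 0x28212) (nat_lit 0) (p (nat_lit 0x38112) (nat_lit 0) (p (nat_lit 0x20092) (nat_lit 0) (p (nat_lit 0x10012) (nat_lit 0) pn)))))))))))))))))))))))))))) :=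
  Cl.node (nat_lit 0x81) (nat_lit 2) (by decide +kernel) (ClAll.succ (ClAll.succ ClAll.zero n257) n258)

def n311 : Cl (O (nat_lit 3)) (R (nat_lit 143633))
    (p (nat_lit 0x81) (nat_lit 1) (p (nat_lit 0x380c2) (nat_lit 1) (p (nat_lit 0x3cc2a) (nat_lit 11) (p (nat_lit 0x109) (nat_lit 1) (p (nat_lit 0xc9) (nat_lit 1) (p (nat_lit 0xc1) (nat_lit 0) (p (nat_lit 0x119) (nat_lit 1) (p (nat_lit 0xd1) (nat_lit 0) (p (nat_lit 0x89) (nat_lit 0) (p (nat_lit 0x41) (nat_lit 0) (p (nat_lit 0x8a898a08881a) (nat_lit 0) (p (nat_lit 0xa090988079a) (nat_lit 0) (p (nat_lit 0x88088907871a) (nat_lit 0) (p (nat_lit 0x7880887069a) (nat_lit 0) (p (nat_lit 0x80000800088806860a) (nat_lit 0) (p (nat_lit 0x80000800068786058a) (nat_lit 0) (p (nat_lit 0x8687058502) (nat_lit 0) (p (nat_lit 0x606850482) (nat_lit 0) (p (nat_lit 0x160014) (nat_lit 0) (p (nat_lit 0x68612) (nat_lit 0) (p (nat_lit 0x50592) (nat_lit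 0) (p (nat_lit 0x40512) (nat_lit 0) (p (nat_lit 0x50312) (nat_lit 0) (p (nat_lit 0x38292) (nat_lit 0) (p (nat_lit 0x28212) (nat_lit 0) (p (nat_lit 0x38112) (nat_lit 0) (p (nat_lit 0x20092) (nat_lit 0) (p (nat_lit 0x10012) (nat_lit 0) pn)))))))))))))))))))))))))))) :=
  Cl.node (nat_lit 0x101) (nat_lit 2) (by decide +kernel) (ClAll.succ (ClAll.succ ClAll.zero s137) n259)

def n312 : Cl (O (nat_lit 3)) (R (nat_lit 143633))
    (p (nat_lit 0x380c2) (nat_lit 0) (p (nat_lit 0x44c2a) (nat_lit 1) (p (nat_lit 0x109) (nat_lit 0) (p (nat_lit 0x101) (nat_lit 0) (p (nat_lit 0x81) (nat_lit 1) (p (nat_lit 0xc1) (nat_lit 1) (p (nat_lit 0x119) (nat_lit 1) (p (nat_lit 0xd1) (nat_lit 0) (p (nat_lit 0x89) (nat_lit 0) (p (nat_lit 0x41) (nat_lit 0) (p (nat_lit 0x8a898a08881a) (nat_lit 0) (p (nat_lit 0xa090988079a) (nat_lit 0) (p (nat_lit 0x88088907871a) (nat_lit 0) (p (nat_lit 0x7880887069a)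 (nat_lit 0) (p (nat_lit 0x80000800088806860a) (nat_lit 0) (p (nat_lit 0x80000800068786058a) (nat_lit 0) (p (nat_lit 0x8687058502) (nat_lit 0) (p (nat_lit 0x606850482) (nat_lit 0) (p (nat_lit 0x160014) (nat_lit 0) (p (nat_lit 0x68612) (nat_lit 0) (p (nat_lit 0x50592) (nat_lit 0) (p (nat_lit 0x40512) (nat_lit 0) (p (nat_lit 0x50312) (nat_lit 0) (p (nat_lit 0x38292) (nat_lit 0) (p (nat_lit 0x28212) (nat_lit 0) (p (nat_lit 0x38112) (nat_lit 0) (p (nat_lit 0x20092) (nat_lit 0) (p (nat_lit 0x10012) (nat_lit 0) pn)))))))))))))))))))))))))))) :=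
  Cl.node (nat_lit 0xb0014) (nat_lit 2) (by decide +kernel) (ClAll.succ (ClAll.succ ClAll.zero n260) s189)

def n313 : Cl (O (nat_lit 3)) (R (nat_lit 143633))
    (p (nat_lit 0x380c2) (nat_lit 0) (p (nat_lit 0x444aa) (nat_lit 7) (p (nat_lit 0x109) (nat_lit 1) (p (nat_lit 0x101) (nat_lit 0) (p (nat_lit 0x81) (nat_lit 1) (p (nat_lit 0xc1) (nat_lit 1) (p (nat_lit 0x119) (nat_lit 1) (p (nat_lit 0xd1) (nat_lit 0) (p (nat_lit 0x89) (nat_lit 0) (p (nat_lit 0x41) (nat_lit 0) (p (nat_lit 0x8a898a08881a) (nat_lit 0) (p (nat_lit 0xa090988079a) (nat_lit 0) (p (nat_lit 0x88088907871a) (nat_lit 0) (p (nat_lit 0x7880887069a) (nat_lit 0) (p (nat_lit 0x80000800088806860a) (nat_lit 0) (p (nat_lit 0x80000800068786058a) (nat_lit 0) (p (nat_lit 0x8687058502) (nat_lit 0) (p (nat_lit 0x606850482) (nat_lit 0) (p (nat_lit 0x160014) (nat_lit 0) (p (nat_lit 0x68612) (nat_lit 0) (p (nat_lit 0x50592)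 (nat_lit 0) (p (nat_lit 0x40512) (nat_lit 0) (p (nat_lit 0x50312) (nat_lit 0) (p (nat_lit 0x38292) (nat_lit 0) (p (nat_lit 0x28212) (nat_lit 0) (p (nat_lit 0x38112) (nat_lit 0) (p (nat_lit 0x20092) (nat_lit 0) (p (nat_lit 0x10012) (nat_lit 0) pn)))))))))))))))))))))))))))) :=
  Cl.node (nat_lit 0xb0014) (nat_lit 2) (by decide +kernel) (ClAll.succ (ClAll.succ ClAll.zero n261) s212)

def n314 : Cl (O (nat_lit 3)) (R (nat_lit 143633))
    (p (nat_lit 0x380c2) (nat_lit 1) (p (nat_lit 0x444aa) (nat_lit 7) (p (nat_lit 0x109) (nat_lit 1) (p (nat_lit 0x101) (nat_lit 0) (p (nat_lit 0x81) (nat_lit 1) (p (nat_lit 0xc1) (nat_lit 1) (p (nat_lit 0x119) (nat_lit 1) (p (nat_lit 0xd1) (nat_lit 0) (p (nat_lit 0x89) (nat_lit 0) (p (nat_lit 0x41) (nat_lit 0) (p (nat_lit 0x8a898a08881a) (nat_lit 0) (p (nat_lit 0xa090988079a) (nat_lit 0) (p (nat_lit 0x88088907871a) (nat_lit 0) (p (nat_lit 0x7880887069a)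 (nat_lit 0) (p (nat_lit 0x80000800088806860a) (nat_lit 0) (p (nat_lit 0x80000800068786058a) (nat_lit 0) (p (nat_lit 0x8687058502) (nat_lit 0) (p (nat_lit 0x606850482) (nat_lit 0) (p (nat_lit 0x160014) (nat_lit 0) (p (nat_lit 0x68612) (nat_lit 0) (p (nat_lit 0x50592) (nat_lit 0) (p (nat_lit 0x40512) (nat_lit 0) (p (nat_lit 0x50312) (nat_lit 0) (p (nat_lit 0x38292) (nat_lit 0) (p (nat_lit 0x28212) (nat_lit 0) (p (nat_lit 0x38112) (nat_lit 0) (p (nat_lit 0x20092) (nat_lit 0) (p (nat_lit 0x10012) (nat_lit 0) pn)))))))))))))))))))))))))))) :=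
  Cl.node (nat_lit 0x20000c) (nat_lit 2) (by decide +kernel) (ClAll.succ (ClAll.succ ClAll.zero n262) s221)

def n315 : Cl (O (nat_lit 3)) (R (nat_lit 143633))
    (p (nat_lit 0x380c2) (nat_lit 1) (p (nat_lit 0x444aa) (nat_lit 8) (p (nat_lit 0x109) (nat_lit 1) (p (nat_lit 0x101) (nat_lit 0) (p (nat_lit 0x81) (nat_lit 1) (p (nat_lit 0xc1) (nat_lit 1) (p (nat_lit 0x119) (nat_lit 1) (p (nat_lit 0xd1) (nat_lit 0) (p (nat_lit 0x89) (nat_lit 0) (p (nat_lit 0x41) (nat_lit 0) (p (nat_lit 0x8a898a08881a) (nat_lit 0) (p (nat_lit 0xa090988079a) (nat_lit 0) (p (nat_lit 0x88088907871a) (nat_lit 0) (p (nat_lit 0x7880887069a) (nat_lit 0) (p (nat_lit 0x80000800088806860a) (nat_lit 0) (p (nat_lit 0x80000800068786058a) (nat_lit 0) (p (nat_lit 0x8687058502) (nat_lit 0) (p (nat_lit 0x606850482) (nat_lit 0) (p (nat_lit 0x160014) (nat_lit 0) (p (nat_lit 0x68612) (nat_lit 0) (p (nat_lit 0x50592)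 (nat_lit 0) (p (nat_lit 0x40512) (nat_lit 0) (p (nat_lit 0x50312) (nat_lit 0) (p (nat_lit 0x38292) (nat_lit 0) (p (nat_lit 0x28212) (nat_lit 0) (p (nat_lit 0x38112) (nat_lit 0) (p (nat_lit 0x20092) (nat_lit 0) (p (nat_lit 0x10012) (nat_lit 0) pn)))))))))))))))))))))))))))) :=
  Cl.node (nat_lit 0xb0014) (nat_lit 2) (by decide +kernel) (ClAll.succ (ClAll.succ ClAll.zero n263) s227)

def n316 : Cl (O (nat_lit 3)) (R (nat_lit 143633))
    (p (nat_lit 0x41) (nat_lit 0) (p (nat_lit 0x20000c) (nat_lit 0) (p (nat_lit 0x200004) (nat_lit 0) (p (nat_lit 0xc1) (nat_lit 1) (p (nat_lit 0x109) (nat_lit 1) (p (nat_lit 0x101) (nat_lit 0) (p (nat_lit 0x111) (nat_lit 0) (p (nat_lit 0xd1) (nat_lit 1) (p (nat_lit 0x89) (nat_lit 0) (p (nat_lit 0x41) (nat_lit 0) (p (nat_lit 0x8a898a08881a) (nat_lit 0) (p (nat_lit 0xa090988079a) (nat_lit 0) (p (nat_lit 0x88088907871a) (nat_lit 0) (p (nat_lit 0x7880887069a)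 (nat_lit 0) (p (nat_lit 0x80000800088806860a) (nat_lit 0) (p (nat_lit 0x80000800068786058a) (nat_lit 0) (p (nat_lit 0x8687058502) (nat_lit 0) (p (nat_lit 0x606850482) (nat_lit 0) (p (nat_lit 0x160014) (nat_lit 0) (p (nat_lit 0x68612) (nat_lit 0) (p (nat_lit 0x50592) (nat_lit 0) (p (nat_lit 0x40512) (nat_lit 0) (p (nat_lit 0x50312) (nat_lit 0) (p (nat_lit 0x38292) (nat_lit 0) (p (nat_lit 0x28212) (nat_lit 0) (p (nat_lit 0x38112) (nat_lit 0) (p (nat_lit 0x20092) (nat_lit 0) (p (nat_lit 0x10012) (nat_lit 0) pn)))))))))))))))))))))))))))) :=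
  Cl.node (nat_lit 0x3cc2a) (nat_lit 12) (by decide +kernel) (ClAll.succ (ClAll.succ (ClAll.succ (ClAll.succ (ClAll.succ (ClAll.succ (ClAll.succ (ClAll.succ (ClAll.succ (ClAll.succ (ClAll.succ (ClAll.succ ClAll.zero n264) s249) s250) s251) s252) s253) s254) s255) s256) s257) s258) s259)

def n317 : Cl (O (nat_lit 3)) (R (nat_lit 143633))
    (p (nat_lit 0x109) (nat_lit 1) (p (nat_lit 0x20000c) (nat_lit 0) (p (nat_lit 0x200004) (nat_lit 0) (p (nat_lit 0x119) (nat_lit 0) (p (nat_lit 0x81) (nat_lit 0) (p (nat_lit 0x101) (nat_lit 1) (p (nat_lit 0x111) (nat_lit 0) (p (nat_lit 0xd1) (nat_lit 1) (p (nat_lit 0x89) (nat_lit 0) (p (nat_lit 0x41) (nat_lit 0) (p (nat_lit 0x8a898a08881a) (nat_lit 0) (p (nat_lit 0xa090988079a) (nat_lit 0) (p (nat_lit 0x88088907871a) (nat_lit 0) (p (nat_lit 0x7880887069a) (nat_lit 0) (p (nat_lit 0x80000800088806860a) (nat_lit 0) (p (nat_lit 0x80000800068786058a)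 (nat_lit 0) (p (nat_lit 0x8687058502) (nat_lit 0) (p (nat_lit 0x606850482) (nat_lit 0) (p (nat_lit 0x160014) (nat_lit 0) (p (nat_lit 0x68612) (nat_lit 0) (p (nat_lit 0x50592) (nat_lit 0) (p (nat_lit 0x40512) (nat_lit 0) (p (nat_lit 0x50312) (nat_lit 0) (p (nat_lit 0x38292) (nat_lit 0) (p (nat_lit 0x28212) (nat_lit 0) (p (nat_lit 0x38112) (nat_lit 0) (p (nat_lit 0x20092) (nat_lit 0) (p (nat_lit 0x10012) (nat_lit 0) pn)))))))))))))))))))))))))))) :=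
  Cl.node (nat_lit 0x3cc2a) (nat_lit 12) (by decide +kernel) (ClAll.succ (ClAll.succ (ClAll.succ (ClAll.succ (ClAll.succ (ClAll.succ (ClAll.succ (ClAll.succ (ClAll.succ (ClAll.succ (ClAll.succ (ClAll.succ ClAll.zero n265) s269) s270) s271) s272) s273) s274) s275) s276) s277) s278) s279)

def n318 : Cl (O (nat_lit 3)) (R (nat_lit 143633))
    (p (nat_lit 0x380c2) (nat_lit 0) (p (nat_lit 0x444aa) (nat_lit 7) (p (nat_lit 0x119) (nat_lit 0) (p (nat_lit 0xc1) (nat_lit 0) (p (nat_lit 0x81) (nat_lit 1) (p (nat_lit 0x101) (nat_lit 1) (p (nat_lit 0x111) (nat_lit 0) (p (nat_lit 0xd1) (nat_lit 1) (p (nat_lit 0x89) (nat_lit 0) (p (nat_lit 0x41) (nat_lit 0) (p (nat_lit 0x8a898a08881a) (nat_lit 0) (p (nat_lit 0xa090988079a) (nat_lit 0) (p (nat_lit 0x88088907871a) (nat_lit 0) (p (nat_lit 0x7880887069a) (nat_lit 0) (p (nat_lit 0x80000800088806860a) (nat_lit 0) (p (nat_lit 0x80000800068786058a)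 (nat_lit 0) (p (nat_lit 0x8687058502) (nat_lit 0) (p (nat_lit 0x606850482) (nat_lit 0) (p (nat_lit 0x160014) (nat_lit 0) (p (nat_lit 0x68612) (nat_lit 0) (p (nat_lit 0x50592) (nat_lit 0) (p (nat_lit 0x40512) (nat_lit 0) (p (nat_lit 0x50312) (nat_lit 0) (p (nat_lit 0x38292) (nat_lit 0) (p (nat_lit 0x28212) (nat_lit 0) (p (nat_lit 0x38112) (nat_lit 0) (p (nat_lit 0x20092) (nat_lit 0) (p (nat_lit 0x10012) (nat_lit 0) pn)))))))))))))))))))))))))))) :=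
  Cl.node (nat_lit 0xb0014) (nat_lit 2) (by decide +kernel) (ClAll.succ (ClAll.succ ClAll.zero s301) s302)

def n319 : Cl (O (nat_lit 3)) (R (nat_lit 143633))
    (p (nat_lit 0x380c2) (nat_lit 0) (p (nat_lit 0x444aa) (nat_lit 7) (p (nat_lit 0xd1) (nat_lit 1) (p (nat_lit 0x111) (nat_lit 1) (p (nat_lit 0x109) (nat_lit 0) (p (nat_lit 0x101) (nat_lit 0) (p (nat_lit 0x119) (nat_lit 0) (p (nat_lit 0xc9) (nat_lit 0) (p (nat_lit 0x89) (nat_lit 1) (p (nat_lit 0x41) (nat_lit 0) (p (nat_lit 0x8a898a08881a) (nat_lit 0) (p (nat_lit 0xa090988079a) (nat_lit 0) (p (nat_lit 0x88088907871a) (nat_lit 0) (p (nat_lit 0x7880887069a) (nat_lit 0) (p (nat_lit 0x80000800088806860a) (nat_lit 0) (p (nat_lit 0x80000800068786058a) (nat_lit 0) (p (nat_lit 0x8687058502) (nat_lit 0) (p (nat_lit 0x606850482) (nat_lit 0) (p (nat_lit 0x160014) (nat_lit 0) (p (nat_lit 0x68612) (nat_lit 0) (p (nat_lit 0x50592)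 (nat_lit 0) (p (nat_lit 0x40512) (nat_lit 0) (p (nat_lit 0x50312) (nat_lit 0) (p (nat_lit 0x38292) (nat_lit 0) (p (nat_lit 0x28212) (nat_lit 0) (p (nat_lit 0x38112) (nat_lit 0) (p (nat_lit 0x20092) (nat_lit 0) (p (nat_lit 0x10012) (nat_lit 0) pn)))))))))))))))))))))))))))) :=
  Cl.node (nat_lit 0xb0014) (nat_lit 2) (by decide +kernel) (ClAll.succ (ClAll.succ ClAll.zero n266) n267)

def n320 : Cl (O (nat_lit 3)) (R (nat_lit 143633))
    (p (nat_lit 0x380c2) (nat_lit 1) (p (nat_lit 0x444aa) (nat_lit 7) (p (nat_lit 0xd1) (nat_lit 1) (p (nat_lit 0x111) (nat_lit 1) (p (nat_lit 0x109) (nat_lit 0) (p (nat_lit 0x101) (nat_lit 0) (p (nat_lit 0x119) (nat_lit 0) (p (nat_lit 0xc9) (nat_lit 0) (p (nat_lit 0x89) (nat_lit 1) (p (nat_lit 0x41) (nat_lit 0) (p (nat_lit 0x8a898a08881a) (nat_lit 0) (p (nat_lit 0xa090988079a) (nat_lit 0) (p (nat_lit 0x88088907871a) (nat_lit 0) (p (nat_lit 0x7880887069a)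 (nat_lit 0) (p (nat_lit 0x80000800088806860a) (nat_lit 0) (p (nat_lit 0x80000800068786058a) (nat_lit 0) (p (nat_lit 0x8687058502) (nat_lit 0) (p (nat_lit 0x606850482) (nat_lit 0) (p (nat_lit 0x160014) (nat_lit 0) (p (nat_lit 0x68612) (nat_lit 0) (p (nat_lit 0x50592) (nat_lit 0) (p (nat_lit 0x40512) (nat_lit 0) (p (nat_lit 0x50312) (nat_lit 0) (p (nat_lit 0x38292) (nat_lit 0) (p (nat_lit 0x28212) (nat_lit 0) (p (nat_lit 0x38112) (nat_lit 0) (p (nat_lit 0x20092) (nat_lit 0) (p (nat_lit 0x10012) (nat_lit 0) pn)))))))))))))))))))))))))))) :=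
  Cl.node (nat_lit 0x20000c) (nat_lit 2) (by decide +kernel) (ClAll.succ (ClAll.succ ClAll.zero n268) s376)

def n321 : Cl (O (nat_lit 3)) (R (nat_lit 143633))
    (p (nat_lit 0x41) (nat_lit 0) (p (nat_lit 0x20000c) (nat_lit 0) (p (nat_lit 0x200004) (nat_lit 0) (p (nat_lit 0xd1) (nat_lit 0) (p (nat_lit 0x109) (nat_lit 1) (p (nat_lit 0x101) (nat_lit 0) (p (nat_lit 0x119) (nat_lit 0) (p (nat_lit 0xc9) (nat_lit 0) (p (nat_lit 0x89) (nat_lit 1) (p (nat_lit 0x41) (nat_lit 0) (p (nat_lit 0x8a898a08881a) (nat_lit 0) (p (nat_lit 0xa090988079a) (nat_lit 0) (p (nat_lit 0x88088907871a) (nat_lit 0) (p (nat_lit 0x7880887069a) (nat_lit 0) (p (nat_lit 0x80000800088806860a) (nat_lit 0) (p (nat_lit 0x80000800068786058a) (nat_lit 0) (p (nat_lit 0x8687058502) (nat_lit 0) (p (nat_lit 0x606850482) (nat_lit 0) (p (nat_lit 0x160014) (nat_lit 0) (p (nat_lit 0x68612) (nat_lit 0) (p (nat_lit 0x50592)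 (nat_lit 0) (p (nat_lit 0x40512) (nat_lit 0) (p (nat_lit 0x50312) (nat_lit 0) (p (nat_lit 0x38292) (nat_lit 0) (p (nat_lit 0x28212) (nat_lit 0) (p (nat_lit 0x38112) (nat_lit 0) (p (nat_lit 0x20092) (nat_lit 0) (p (nat_lit 0x10012) (nat_lit 0) pn)))))))))))))))))))))))))))) :=
  Cl.node (nat_lit 0x44c2a) (nat_lit 12) (by decide +kernel) (ClAll.succ (ClAll.succ (ClAll.succ (ClAll.succ (ClAll.succ (ClAll.succ (ClAll.succ (ClAll.succ (ClAll.succ (ClAll.succ (ClAll.succ (ClAll.succ ClAll.zero n269) n270) s385) s386) s387) s388) s389) s390) s391) s392) s393) s394)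

def n322 : Cl (O (nat_lit 3)) (R (nat_lit 143633))
    (p (nat_lit 0xb0014) (nat_lit 0) (p (nat_lit 0x380c2) (nat_lit 0) (p (nat_lit 0x444aa) (nat_lit 7) (p (nat_lit 0xd1) (nat_lit 1) (p (nat_lit 0x109) (nat_lit 1) (p (nat_lit 0x101) (nat_lit 0) (p (nat_lit 0x119) (nat_lit 0) (p (nat_lit 0xc9) (nat_lit 0) (p (nat_lit 0x89) (nat_lit 1) (p (nat_lit 0x41) (nat_lit 0) (p (nat_lit 0x8a898a08881a) (nat_lit 0) (p (nat_lit 0xa090988079a) (nat_lit 0) (p (nat_lit 0x88088907871a) (nat_lit 0) (p (nat_lit 0x7880887069a) (nat_lit 0) (p (nat_lit 0x80000800088806860a) (nat_lit 0) (p (nat_lit 0x80000800068786058a) (nat_lit 0) (p (nat_lit 0x8687058502) (nat_lit 0) (p (nat_lit 0x606850482) (nat_lit 0) (p (nat_lit 0x160014) (nat_lit 0) (p (nat_lit 0x68612) (nat_lit 0) (p (nat_lit 0x50592) (nat_lit 0) (p (nat_lit 0x40512) (nat_lit 0) (p (nat_lit 0x50312) (nat_lit 0) (p (nat_lit 0x38292) (nat_lit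 0) (p (nat_lit 0x28212) (nat_lit 0) (p (nat_lit 0x38112) (nat_lit 0) (p (nat_lit 0x20092) (nat_lit 0) (p (nat_lit 0x10012) (nat_lit 0) pn)))))))))))))))))))))))))))) :=
  Cl.node (nat_lit 0x20000c) (nat_lit 2) (by decide +kernel) (ClAll.succ (ClAll.succ ClAll.zero n271) s416)

def n323 : Cl (O (nat_lit 3)) (R (nat_lit 143633))
    (p (nat_lit 0xb0014) (nat_lit 1) (p (nat_lit 0x380c2) (nat_lit 0) (p (nat_lit 0x444aa) (nat_lit 7) (p (nat_lit 0xd1) (nat_lit 1) (p (nat_lit 0x109) (nat_lit 1) (p (nat_lit 0x101) (nat_lit 0) (p (nat_lit 0x119) (nat_lit 0) (p (nat_lit 0xc9) (nat_lit 0) (p (nat_lit 0x89) (nat_lit 1) (p (nat_lit 0x41) (nat_lit 0) (p (nat_lit 0x8a898a08881a) (nat_lit 0) (p (nat_lit 0xa090988079a) (nat_lit 0) (p (nat_lit 0x88088907871a) (nat_lit 0) (p (nat_lit 0x7880887069a) (nat_lit 0) (p (nat_lit 0x80000800088806860a) (nat_lit 0) (p (nat_lit 0x80000800068786058a) (nat_lit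 0) (p (nat_lit 0x8687058502) (nat_lit 0) (p (nat_lit 0x606850482) (nat_lit 0) (p (nat_lit 0x160014) (nat_lit 0) (p (nat_lit 0x68612) (nat_lit 0) (p (nat_lit 0x50592) (nat_lit 0) (p (nat_lit 0x40512) (nat_lit 0) (p (nat_lit 0x50312) (nat_lit 0) (p (nat_lit 0x38292) (nat_lit 0) (p (nat_lit 0x28212) (nat_lit 0) (p (nat_lit 0x38112) (nat_lit 0) (p (nat_lit 0x20092) (nat_lit 0) (p (nat_lit 0x10012) (nat_lit 0) pn)))))))))))))))))))))))))))) :=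
  Cl.node (nat_lit 0x1fc004) (nat_lit 2) (by decide +kernel) (ClAll.succ (ClAll.succ ClAll.zero n272) s422)

def n324 : Cl (O (nat_lit 3)) (R (nat_lit 143633))
    (p (nat_lit 0x20000c) (nat_lit 0) (p (nat_lit 0x380c2) (nat_lit 1) (p (nat_lit 0x444aa) (nat_lit 7) (p (nat_lit 0xd1) (nat_lit 1) (p (nat_lit 0x109) (nat_lit 1) (p (nat_lit 0x101) (nat_lit 0) (p (nat_lit 0x119) (nat_lit 0) (p (nat_lit 0xc9) (nat_lit 0) (p (nat_lit 0x89) (nat_lit 1) (p (nat_lit 0x41) (nat_lit 0) (p (nat_lit 0x8a898a08881a) (nat_lit 0) (p (nat_lit 0xa090988079a) (nat_lit 0) (p (nat_lit 0x88088907871a) (nat_lit 0) (p (nat_lit 0x7880887069a) (nat_lit 0) (p (nat_lit 0x80000800088806860a) (nat_lit 0) (p (nat_lit 0x80000800068786058a) (nat_lit 0) (p (nat_lit 0x8687058502) (nat_lit 0) (p (nat_lit 0x606850482) (nat_lit 0) (p (nat_lit 0x160014) (nat_lit 0) (p (nat_lit 0x68612) (nat_lit 0) (p (nat_lit 0x50592)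 (nat_lit 0) (p (nat_lit 0x40512) (nat_lit 0) (p (nat_lit 0x50312) (nat_lit 0) (p (nat_lit 0x38292) (nat_lit 0) (p (nat_lit 0x28212) (nat_lit 0) (p (nat_lit 0x38112) (nat_lit 0) (p (nat_lit 0x20092) (nat_lit 0) (p (nat_lit 0x10012) (nat_lit 0) pn)))))))))))))))))))))))))))) :=
  Cl.node (nat_lit 0x200004) (nat_lit 2) (by decide +kernel) (ClAll.succ (ClAll.succ ClAll.zero n273) s439)

def n325 : Cl (O (nat_lit 3)) (R (nat_lit 143633))
    (p (nat_lit 0x109) (nat_lit 1) (p (nat_lit 0x20000c) (nat_lit 0) (p (nat_lit 0x200004) (nat_lit 0) (p (nat_lit 0xd1) (nat_lit 0) (p (nat_lit 0xc1) (nat_lit 0) (p (nat_lit 0x101) (nat_lit 1) (p (nat_lit 0x119) (nat_lit 0) (p (nat_lit 0xc9) (nat_lit 0) (p (nat_lit 0x89) (nat_lit 1) (p (nat_lit 0x41) (nat_lit 0) (p (nat_lit 0x8a898a08881a) (nat_lit 0) (p (nat_lit 0xa090988079a) (nat_lit 0) (p (nat_lit 0x88088907871a) (nat_lit 0) (p (nat_lit 0x7880887069a)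 (nat_lit 0) (p (nat_lit 0x80000800088806860a) (nat_lit 0) (p (nat_lit 0x80000800068786058a) (nat_lit 0) (p (nat_lit 0x8687058502) (nat_lit 0) (p (nat_lit 0x606850482) (nat_lit 0) (p (nat_lit 0x160014) (nat_lit 0) (p (nat_lit 0x68612) (nat_lit 0) (p (nat_lit 0x50592) (nat_lit 0) (p (nat_lit 0x40512) (nat_lit 0) (p (nat_lit 0x50312) (nat_lit 0) (p (nat_lit 0x38292) (nat_lit 0) (p (nat_lit 0x28212) (nat_lit 0) (p (nat_lit 0x38112) (nat_lit 0) (p (nat_lit 0x20092) (nat_lit 0) (p (nat_lit 0x10012) (nat_lit 0) pn)))))))))))))))))))))))))))) :=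
  Cl.node (nat_lit 0x44c2a) (nat_lit 12) (by decide +kernel) (ClAll.succ (ClAll.succ (ClAll.succ (ClAll.succ (ClAll.succ (ClAll.succ (ClAll.succ (ClAll.succ (ClAll.succ (ClAll.succ (ClAll.succ (ClAll.succ ClAll.zero s446) s447) s448) s449) s450) s451) s452) s453) s454) s455) s456) s457)

def n326 : Cl (O (nat_lit 3)) (R (nat_lit 143633))
    (p (nat_lit 0xb0014) (nat_lit 0) (p (nat_lit 0x380c2) (nat_lit 0) (p (nat_lit 0x444aa) (nat_lit 7) (p (nat_lit 0xd1) (nat_lit 1) (p (nat_lit 0xc1) (nat_lit 0) (p (nat_lit 0x101) (nat_lit 1) (p (nat_lit 0x119) (nat_lit 0) (p (nat_lit 0xc9) (nat_lit 0) (p (nat_lit 0x89) (nat_lit 1) (p (nat_lit 0x41) (nat_lit 0) (p (nat_lit 0x8a898a08881a) (nat_lit 0) (p (nat_lit 0xa090988079a) (nat_lit 0) (p (nat_lit 0x88088907871a) (nat_lit 0) (p (nat_lit 0x7880887069a) (nat_lit 0) (p (nat_lit 0x80000800088806860a) (nat_lit 0) (p (nat_lit 0x80000800068786058a)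 (nat_lit 0) (p (nat_lit 0x8687058502) (nat_lit 0) (p (nat_lit 0x606850482) (nat_lit 0) (p (nat_lit 0x160014) (nat_lit 0) (p (nat_lit 0x68612) (nat_lit 0) (p (nat_lit 0x50592) (nat_lit 0) (p (nat_lit 0x40512) (nat_lit 0) (p (nat_lit 0x50312) (nat_lit 0) (p (nat_lit 0x38292) (nat_lit 0) (p (nat_lit 0x28212) (nat_lit 0) (p (nat_lit 0x38112) (nat_lit 0) (p (nat_lit 0x20092) (nat_lit 0) (p (nat_lit 0x10012) (nat_lit 0) pn)))))))))))))))))))))))))))) :=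
  Cl.node (nat_lit 0x20000c) (nat_lit 2) (by decide +kernel) (ClAll.succ (ClAll.succ ClAll.zero s467) s468)

def n327 : Cl (O (nat_lit 3)) (R (nat_lit 143633))
    (p (nat_lit 0x20000c) (nat_lit 0) (p (nat_lit 0x380c2) (nat_lit 1) (p (nat_lit 0x444aa) (nat_lit 7) (p (nat_lit 0xd1) (nat_lit 1) (p (nat_lit 0xc1) (nat_lit 0) (p (nat_lit 0x101) (nat_lit 1) (p (nat_lit 0x119) (nat_lit 0) (p (nat_lit 0xc9) (nat_lit 0) (p (nat_lit 0x89) (nat_lit 1) (p (nat_lit 0x41) (nat_lit 0) (p (nat_lit 0x8a898a08881a) (nat_lit 0) (p (nat_lit 0xa090988079a) (nat_lit 0) (p (nat_lit 0x88088907871a) (nat_lit 0) (p (nat_lit 0x7880887069a) (nat_lit 0) (p (nat_lit 0x80000800088806860a) (nat_lit 0) (p (nat_lit 0x80000800068786058a) (nat_lit 0) (p (nat_lit 0x8687058502) (nat_lit 0) (p (nat_lit 0x606850482) (nat_lit 0) (p (nat_lit 0x160014) (nat_lit 0) (p (nat_lit 0x68612) (nat_lit 0) (p (nat_lit 0x50592)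 (nat_lit 0) (p (nat_lit 0x40512) (nat_lit 0) (p (nat_lit 0x50312) (nat_lit 0) (p (nat_lit 0x38292) (nat_lit 0) (p (nat_lit 0x28212) (nat_lit 0) (p (nat_lit 0x38112) (nat_lit 0) (p (nat_lit 0x20092) (nat_lit 0) (p (nat_lit 0x10012) (nat_lit 0) pn)))))))))))))))))))))))))))) :=
  Cl.node (nat_lit 0x200004) (nat_lit 2) (by decide +kernel) (ClAll.succ (ClAll.succ ClAll.zero n274) s478)

def n328 : Cl (O (nat_lit 3)) (R (nat_lit 143633))
    (p (nat_lit 0xb0014) (nat_lit 0) (p (nat_lit 0x380c2) (nat_lit 0) (p (nat_lit 0x444aa) (nat_lit 7) (p (nat_lit 0x111) (nat_lit 1) (p (nat_lit 0xd1) (nat_lit 1) (p (nat_lit 0xc1) (nat_lit 0) (p (nat_lit 0x119) (nat_lit 1) (p (nat_lit 0xc9) (nat_lit 0) (p (nat_lit 0x89) (nat_lit 1) (p (nat_lit 0x41) (nat_lit 0) (p (nat_lit 0x8a898a08881a) (nat_lit 0) (p (nat_lit 0xa090988079a) (nat_lit 0) (p (nat_lit 0x88088907871a) (nat_lit 0) (p (nat_lit 0x7880887069a)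 (nat_lit 0) (p (nat_lit 0x80000800088806860a) (nat_lit 0) (p (nat_lit 0x80000800068786058a) (nat_lit 0) (p (nat_lit 0x8687058502) (nat_lit 0) (p (nat_lit 0x606850482) (nat_lit 0) (p (nat_lit 0x160014) (nat_lit 0) (p (nat_lit 0x68612) (nat_lit 0) (p (nat_lit 0x50592) (nat_lit 0) (p (nat_lit 0x40512) (nat_lit 0) (p (nat_lit 0x50312) (nat_lit 0) (p (nat_lit 0x38292) (nat_lit 0) (p (nat_lit 0x28212) (nat_lit 0) (p (nat_lit 0x38112) (nat_lit 0) (p (nat_lit 0x20092) (nat_lit 0) (p (nat_lit 0x10012) (nat_lit 0) pn)))))))))))))))))))))))))))) :=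
  Cl.node (nat_lit 0x20000c) (nat_lit 2) (by decide +kernel) (ClAll.succ (ClAll.succ ClAll.zero n275) s499)

def n329 : Cl (O (nat_lit 3)) (R (nat_lit 143633))
    (p (nat_lit 0xb0014) (nat_lit 1) (p (nat_lit 0x380c2) (nat_lit 0) (p (nat_lit 0x444aa) (nat_lit 7) (p (nat_lit 0x111) (nat_lit 1) (p (nat_lit 0xd1) (nat_lit 1) (p (nat_lit 0xc1) (nat_lit 0) (p (nat_lit 0x119) (nat_lit 1) (p (nat_lit 0xc9) (nat_lit 0) (p (nat_lit 0x89) (nat_lit 1) (p (nat_lit 0x41) (nat_lit 0) (p (nat_lit 0x8a898a08881a) (nat_lit 0) (p (nat_lit 0xa090988079a) (nat_lit 0) (p (nat_lit 0x88088907871a) (nat_lit 0) (p (nat_lit 0x7880887069a) (nat_lit 0) (p (nat_lit 0x80000800088806860a) (nat_lit 0) (p (nat_lit 0x80000800068786058a) (nat_lit 0) (p (nat_lit 0x8687058502) (nat_lit 0) (p (nat_lit 0x606850482) (nat_lit 0) (p (nat_lit 0x160014) (nat_lit 0) (p (nat_lit 0x68612) (nat_lit 0) (p (nat_lit 0x50592)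 (nat_lit 0) (p (nat_lit 0x40512) (nat_lit 0) (p (nat_lit 0x50312) (nat_lit 0) (p (nat_lit 0x38292) (nat_lit 0) (p (nat_lit 0x28212) (nat_lit 0) (p (nat_lit 0x38112) (nat_lit 0) (p (nat_lit 0x20092) (nat_lit 0) (p (nat_lit 0x10012) (nat_lit 0) pn)))))))))))))))))))))))))))) :=
  Cl.node (nat_lit 0x1fc004) (nat_lit 2) (by decide +kernel) (ClAll.succ (ClAll.succ ClAll.zero n276) s506)

def n330 : Cl (O (nat_lit 3)) (R (nat_lit 143633))
    (p (nat_lit 0x20000c) (nat_lit 0) (p (nat_lit 0x380c2) (nat_lit 1) (p (nat_lit 0x444aa) (nat_lit 7) (p (nat_lit 0x111) (nat_lit 1) (p (nat_lit 0xd1) (nat_lit 1) (p (nat_lit 0xc1) (nat_lit 0) (p (nat_lit 0x119) (nat_lit 1) (p (nat_lit 0xc9) (nat_lit 0) (p (nat_lit 0x89) (nat_lit 1) (p (nat_lit 0x41) (nat_lit 0) (p (nat_lit 0x8a898a08881a) (nat_lit 0) (p (nat_lit 0xa090988079a) (nat_lit 0) (p (nat_lit 0x88088907871a) (nat_lit 0) (p (nat_lit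 0x7880887069a) (nat_lit 0) (p (nat_lit 0x80000800088806860a) (nat_lit 0) (p (nat_lit 0x80000800068786058a) (nat_lit 0) (p (nat_lit 0x8687058502) (nat_lit 0) (p (nat_lit 0x606850482) (nat_lit 0) (p (nat_lit 0x160014) (nat_lit 0) (p (nat_lit 0x68612) (nat_lit 0) (p (nat_lit 0x50592) (nat_lit 0) (p (nat_lit 0x40512) (nat_lit 0) (p (nat_lit 0x50312) (nat_lit 0) (p (nat_lit 0x38292) (nat_lit 0) (p (nat_lit 0x28212) (nat_lit 0) (p (nat_lit 0x38112) (nat_lit 0) (p (nat_lit 0x20092) (nat_lit 0) (p (nat_lit 0x10012) (nat_lit 0) pn)))))))))))))))))))))))))))) :=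
  Cl.node (nat_lit 0x200004) (nat_lit 2) (by decide +kernel) (ClAll.succ (ClAll.succ ClAll.zero n277) s512)

def n331 : Cl (O (nat_lit 3)) (R (nat_lit 143633))
    (p (nat_lit 0xb0014) (nat_lit 0) (p (nat_lit 0x380c2) (nat_lit 1) (p (nat_lit 0x444aa) (nat_lit 8) (p (nat_lit 0x111) (nat_lit 1) (p (nat_lit 0xd1) (nat_lit 1) (p (nat_lit 0xc1) (nat_lit 0) (p (nat_lit 0x119) (nat_lit 1) (p (nat_lit 0xc9) (nat_lit 0) (p (nat_lit 0x89) (nat_lit 1) (p (nat_lit 0x41) (nat_lit 0) (p (nat_lit 0x8a898a08881a) (nat_lit 0) (p (nat_lit 0xa090988079a) (nat_lit 0) (p (nat_lit 0x88088907871a) (nat_lit 0) (p (nat_lit 0x7880887069a) (nat_lit 0) (p (nat_lit 0x80000800088806860a) (nat_lit 0) (p (nat_lit 0x80000800068786058a) (nat_lit 0) (p (nat_lit 0x8687058502) (nat_lit 0) (p (nat_lit 0x606850482) (nat_lit 0) (p (nat_lit 0x160014) (nat_lit 0) (p (nat_lit 0x68612) (nat_lit 0) (p (nat_lit 0x50592)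 (nat_lit 0) (p (nat_lit 0x40512) (nat_lit 0) (p (nat_lit 0x50312) (nat_lit 0) (p (nat_lit 0x38292) (nat_lit 0) (p (nat_lit 0x28212) (nat_lit 0) (p (nat_lit 0x38112) (nat_lit 0) (p (nat_lit 0x20092) (nat_lit 0) (p (nat_lit 0x10012) (nat_lit 0) pn)))))))))))))))))))))))))))) :=
  Cl.node (nat_lit 0x20000c) (nat_lit 2) (by decide +kernel) (ClAll.succ (ClAll.succ ClAll.zero s515) s516)

def n332 : Cl (O (nat_lit 3)) (R (nat_lit 143633))
    (p (nat_lit 0x20000c) (nat_lit 0) (p (nat_lit 0x380c2) (nat_lit 1) (p (nat_lit 0x444aa) (nat_lit 7) (p (nat_lit 0x111) (nat_lit 1) (p (nat_lit 0x101) (nat_lit 0) (p (nat_lit 0xc1) (nat_lit 1) (p (nat_lit 0x119) (nat_lit 1) (p (nat_lit 0xc9) (nat_lit 0) (p (nat_lit 0x89) (nat_lit 1) (p (nat_lit 0x41) (nat_lit 0) (p (nat_lit 0x8a898a08881a) (nat_lit 0) (p (nat_lit 0xa090988079a) (nat_lit 0) (p (nat_lit 0x88088907871a) (nat_lit 0) (p (nat_lit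 0x7880887069a) (nat_lit 0) (p (nat_lit 0x80000800088806860a) (nat_lit 0) (p (nat_lit 0x80000800068786058a) (nat_lit 0) (p (nat_lit 0x8687058502) (nat_lit 0) (p (nat_lit 0x606850482) (nat_lit 0) (p (nat_lit 0x160014) (nat_lit 0) (p (nat_lit 0x68612) (nat_lit 0) (p (nat_lit 0x50592) (nat_lit 0) (p (nat_lit 0x40512) (nat_lit 0) (p (nat_lit 0x50312) (nat_lit 0) (p (nat_lit 0x38292) (nat_lit 0) (p (nat_lit 0x28212) (nat_lit 0) (p (nat_lit 0x38112) (nat_lit 0) (p (nat_lit 0x20092) (nat_lit 0) (p (nat_lit 0x10012) (nat_lit 0) pn)))))))))))))))))))))))))))) :=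
  Cl.node (nat_lit 0x200004) (nat_lit 2) (by decide +kernel) (ClAll.succ (ClAll.succ ClAll.zero n278) s559)

def n333 : Cl (O (nat_lit 3)) (R (nat_lit 143633))
    (p (nat_lit 0x380c2) (nat_lit 1) (p (nat_lit 0x4c42a) (nat_lit 2) (p (nat_lit 0xc9) (nat_lit 0) (p (nat_lit 0x89) (nat_lit 1) (p (nat_lit 0xc1) (nat_lit 0) (p (nat_lit 0x101) (nat_lit 1) (p (nat_lit 0x119) (nat_lit 0) (p (nat_lit 0xd1) (nat_lit 0) (p (nat_lit 0x81) (nat_lit 0) (p (nat_lit 0x41) (nat_lit 1) (p (nat_lit 0x8a898a08881a) (nat_lit 0) (p (nat_lit 0xa090988079a) (nat_lit 0) (p (nat_lit 0x88088907871a) (nat_lit 0) (p (nat_lit 0x7880887069a) (nat_lit 0) (p (nat_lit 0x80000800088806860a) (nat_lit 0) (p (nat_lit 0x80000800068786058a) (nat_lit 0) (p (nat_lit 0x8687058502) (nat_lit 0) (p (nat_lit 0x606850482) (nat_lit 0) (p (nat_lit 0x160014) (nat_lit 0) (p (nat_lit 0x68612) (nat_lit 0) (p (nat_lit 0x50592)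 (nat_lit 0) (p (nat_lit 0x40512) (nat_lit 0) (p (nat_lit 0x50312) (nat_lit 0) (p (nat_lit 0x38292) (nat_lit 0) (p (nat_lit 0x28212) (nat_lit 0) (p (nat_lit 0x38112) (nat_lit 0) (p (nat_lit 0x20092) (nat_lit 0) (p (nat_lit 0x10012) (nat_lit 0) pn)))))))))))))))))))))))))))) :=
  Cl.node (nat_lit 0xd1) (nat_lit 2) (by decide +kernel) (ClAll.succ (ClAll.succ ClAll.zero s657) n279)

def n334 : Cl (O (nat_lit 3)) (R (nat_lit 143633))
    (p (nat_lit 0x200004) (nat_lit 0) (p (nat_lit 0x380c2) (nat_lit 1) (p (nat_lit 0x3c4aa) (nat_lit 7) (p (nat_lit 0x89) (nat_lit 1) (p (nat_lit 0xc1) (nat_lit 1) (p (nat_lit 0x101) (nat_lit 1) (p (nat_lit 0x119) (nat_lit 0) (p (nat_lit 0xd1) (nat_lit 0) (p (nat_lit 0x81) (nat_lit 0) (p (nat_lit 0x41) (nat_lit 1) (p (nat_lit 0x8a898a08881a) (nat_lit 0) (p (nat_lit 0xa090988079a) (nat_lit 0) (p (nat_lit 0x88088907871a) (nat_lit 0) (p (nat_lit 0x7880887069a)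 (nat_lit 0) (p (nat_lit 0x80000800088806860a) (nat_lit 0) (p (nat_lit 0x80000800068786058a) (nat_lit 0) (p (nat_lit 0x8687058502) (nat_lit 0) (p (nat_lit 0x606850482) (nat_lit 0) (p (nat_lit 0x160014) (nat_lit 0) (p (nat_lit 0x68612) (nat_lit 0) (p (nat_lit 0x50592) (nat_lit 0) (p (nat_lit 0x40512) (nat_lit 0) (p (nat_lit 0x50312) (nat_lit 0) (p (nat_lit 0x38292) (nat_lit 0) (p (nat_lit 0x28212) (nat_lit 0) (p (nat_lit 0x38112) (nat_lit 0) (p (nat_lit 0x20092) (nat_lit 0) (p (nat_lit 0x10012) (nat_lit 0) pn)))))))))))))))))))))))))))) :=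
  Cl.node (nat_lit 0x20000c) (nat_lit 2) (by decide +kernel) (ClAll.succ (ClAll.succ ClAll.zero n280) s694)

def n335 : Cl (O (nat_lit 3)) (R (nat_lit 143633))
    (p (nat_lit 0x380c2) (nat_lit 0) (p (nat_lit 0x44c2a) (nat_lit 1) (p (nat_lit 0x109) (nat_lit 0) (p (nat_lit 0x89) (nat_lit 1) (p (nat_lit 0xc9) (nat_lit 1) (p (nat_lit 0xc1) (nat_lit 0) (p (nat_lit 0x119) (nat_lit 1) (p (nat_lit 0xd1) (nat_lit 0) (p (nat_lit 0x81) (nat_lit 0) (p (nat_lit 0x41) (nat_lit 1) (p (nat_lit 0x8a898a08881a) (nat_lit 0) (p (nat_lit 0xa090988079a) (nat_lit 0) (p (nat_lit 0x88088907871a) (nat_lit 0) (p (nat_lit 0x7880887069a) (nat_lit 0) (p (nat_lit 0x80000800088806860a) (nat_lit 0) (p (nat_lit 0x80000800068786058a) (nat_lit 0) (p (nat_lit 0x8687058502) (nat_lit 0) (p (nat_lit 0x606850482) (nat_lit 0) (p (nat_lit 0x160014) (nat_lit 0) (p (nat_lit 0x68612) (nat_lit 0) (p (nat_lit 0x50592)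 (nat_lit 0) (p (nat_lit 0x40512) (nat_lit 0) (p (nat_lit 0x50312) (nat_lit 0) (p (nat_lit 0x38292) (nat_lit 0) (p (nat_lit 0x28212) (nat_lit 0) (p (nat_lit 0x38112) (nat_lit 0) (p (nat_lit 0x20092) (nat_lit 0) (p (nat_lit 0x10012) (nat_lit 0) pn)))))))))))))))))))))))))))) :=
  Cl.node (nat_lit 0xb0014) (nat_lit 2) (by decide +kernel) (ClAll.succ (ClAll.succ ClAll.zero n281) s716)

def n336 : Cl (O (nat_lit 3)) (R (nat_lit 143633))
    (p (nat_lit 0x380c2) (nat_lit 1) (p (nat_lit 0x3c4aa) (nat_lit 7) (p (nat_lit 0x109) (nat_lit 1) (p (nat_lit 0x89) (nat_lit 1) (p (nat_lit 0xc9) (nat_lit 1) (p (nat_lit 0xc1) (nat_lit 0) (p (nat_lit 0x119) (nat_lit 1) (p (nat_lit 0xd1) (nat_lit 0) (p (nat_lit 0x81) (nat_lit 0) (p (nat_lit 0x41) (nat_lit 1) (p (nat_lit 0x8a898a08881a) (nat_lit 0) (p (nat_lit 0xa090988079a) (nat_lit 0) (p (nat_lit 0x88088907871a) (nat_lit 0) (p (nat_lit 0x7880887069a)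 (nat_lit 0) (p (nat_lit 0x80000800088806860a) (nat_lit 0) (p (nat_lit 0x80000800068786058a) (nat_lit 0) (p (nat_lit 0x8687058502) (nat_lit 0) (p (nat_lit 0x606850482) (nat_lit 0) (p (nat_lit 0x160014) (nat_lit 0) (p (nat_lit 0x68612) (nat_lit 0) (p (nat_lit 0x50592) (nat_lit 0) (p (nat_lit 0x40512) (nat_lit 0) (p (nat_lit 0x50312) (nat_lit 0) (p (nat_lit 0x38292) (nat_lit 0) (p (nat_lit 0x28212) (nat_lit 0) (p (nat_lit 0x38112) (nat_lit 0) (p (nat_lit 0x20092) (nat_lit 0) (p (nat_lit 0x10012) (nat_lit 0) pn)))))))))))))))))))))))))))) :=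
  Cl.node (nat_lit 0xb0014) (nat_lit 2) (by decide +kernel) (ClAll.succ (ClAll.succ ClAll.zero s735) n282)

def n337 : Cl (O (nat_lit 3)) (R (nat_lit 143633))
    (p (nat_lit 0x380c2) (nat_lit 1) (p (nat_lit 0x3c4aa) (nat_lit 10) (p (nat_lit 0x109) (nat_lit 1) (p (nat_lit 0x89) (nat_lit 1) (p (nat_lit 0xc9) (nat_lit 1) (p (nat_lit 0xc1) (nat_lit 0) (p (nat_lit 0x119) (nat_lit 1) (p (nat_lit 0xd1) (nat_lit 0) (p (nat_lit 0x81) (nat_lit 0) (p (nat_lit 0x41) (nat_lit 1) (p (nat_lit 0x8a898a08881a) (nat_lit 0) (p (nat_lit 0xa090988079a) (nat_lit 0) (p (nat_lit 0x88088907871a) (nat_lit 0) (p (nat_lit 0x7880887069a) (nat_lit 0) (p (nat_lit 0x80000800088806860a) (nat_lit 0) (p (nat_lit 0x80000800068786058a) (nat_lit 0) (p (nat_lit 0x8687058502) (nat_lit 0) (p (nat_lit 0x606850482) (nat_lit 0) (p (nat_lit 0x160014) (nat_lit 0) (p (nat_lit 0x68612) (nat_lit 0) (p (nat_lit 0x50592)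 (nat_lit 0) (p (nat_lit 0x40512) (nat_lit 0) (p (nat_lit 0x50312) (nat_lit 0) (p (nat_lit 0x38292) (nat_lit 0) (p (nat_lit 0x28212) (nat_lit 0) (p (nat_lit 0x38112) (nat_lit 0) (p (nat_lit 0x20092) (nat_lit 0) (p (nat_lit 0x10012) (nat_lit 0) pn)))))))))))))))))))))))))))) :=
  Cl.node (nat_lit 0x200004) (nat_lit 2) (by decide +kernel) (ClAll.succ (ClAll.succ ClAll.zero n283) s755)

def n338 : Cl (O (nat_lit 3)) (R (nat_lit 143633))
    (p (nat_lit 0x380c2) (nat_lit 0) (p (nat_lit 0x44c2a) (nat_lit 1) (p (nat_lit 0x109) (nat_lit 0) (p (nat_lit 0x89) (nat_lit 1) (p (nat_lit 0x101) (nat_lit 0) (p (nat_lit 0xc1) (nat_lit 1) (p (nat_lit 0x119) (nat_lit 1) (p (nat_lit 0xd1) (nat_lit 0) (p (nat_lit 0x81) (nat_lit 0) (p (nat_lit 0x41) (nat_lit 1) (p (nat_lit 0x8a898a08881a) (nat_lit 0) (p (nat_lit 0xa090988079a) (nat_lit 0) (p (nat_lit 0x88088907871a) (nat_lit 0) (p (nat_lit 0x7880887069a)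 (nat_lit 0) (p (nat_lit 0x80000800088806860a) (nat_lit 0) (p (nat_lit 0x80000800068786058a) (nat_lit 0) (p (nat_lit 0x8687058502) (nat_lit 0) (p (nat_lit 0x606850482) (nat_lit 0) (p (nat_lit 0x160014) (nat_lit 0) (p (nat_lit 0x68612) (nat_lit 0) (p (nat_lit 0x50592) (nat_lit 0) (p (nat_lit 0x40512) (nat_lit 0) (p (nat_lit 0x50312) (nat_lit 0) (p (nat_lit 0x38292) (nat_lit 0) (p (nat_lit 0x28212) (nat_lit 0) (p (nat_lit 0x38112) (nat_lit 0) (p (nat_lit 0x20092) (nat_lit 0) (p (nat_lit 0x10012) (nat_lit 0) pn)))))))))))))))))))))))))))) :=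
  Cl.node (nat_lit 0xb0014) (nat_lit 2) (by decide +kernel) (ClAll.succ (ClAll.succ ClAll.zero s759) s760)

def n339 : Cl (O (nat_lit 3)) (R (nat_lit 143633))
    (p (nat_lit 0x380c2) (nat_lit 0) (p (nat_lit 0x3c4aa) (nat_lit 7) (p (nat_lit 0x109) (nat_lit 1) (p (nat_lit 0x89) (nat_lit 1) (p (nat_lit 0x101) (nat_lit 0) (p (nat_lit 0xc1) (nat_lit 1) (p (nat_lit 0x119) (nat_lit 1) (p (nat_lit 0xd1) (nat_lit 0) (p (nat_lit 0x81) (nat_lit 0) (p (nat_lit 0x41) (nat_lit 1) (p (nat_lit 0x8a898a08881a) (nat_lit 0) (p (nat_lit 0xa090988079a) (nat_lit 0) (p (nat_lit 0x88088907871a) (nat_lit 0) (p (nat_lit 0x7880887069a) (nat_lit 0) (p (nat_lit 0x80000800088806860a) (nat_lit 0) (p (nat_lit 0x80000800068786058a) (nat_lit 0) (p (nat_lit 0x8687058502) (nat_lit 0) (p (nat_lit 0x606850482) (nat_lit 0) (p (nat_lit 0x160014) (nat_lit 0) (p (nat_lit 0x68612) (nat_lit 0) (p (nat_lit 0x50592)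 (nat_lit 0) (p (nat_lit 0x40512) (nat_lit 0) (p (nat_lit 0x50312) (nat_lit 0) (p (nat_lit 0x38292) (nat_lit 0) (p (nat_lit 0x28212) (nat_lit 0) (p (nat_lit 0x38112) (nat_lit 0) (p (nat_lit 0x20092) (nat_lit 0) (p (nat_lit 0x10012) (nat_lit 0) pn)))))))))))))))))))))))))))) :=
  Cl.node (nat_lit 0x20000c) (nat_lit 2) (by decide +kernel) (ClAll.succ (ClAll.succ ClAll.zero n284) s786)

def n340 : Cl (O (nat_lit 3)) (R (nat_lit 143633))
    (p (nat_lit 0x380c2) (nat_lit 1) (p (nat_lit 0x3c4aa) (nat_lit 7) (p (nat_lit 0x109) (nat_lit 1) (p (nat_lit 0x89) (nat_lit 1) (p (nat_lit 0x101) (nat_lit 0) (p (nat_lit 0xc1) (nat_lit 1) (p (nat_lit 0x119) (nat_lit 1) (p (nat_lit 0xd1) (nat_lit 0) (p (nat_lit 0x81) (nat_lit 0) (p (nat_lit 0x41) (nat_lit 1) (p (nat_lit 0x8a898a08881a) (nat_lit 0) (p (nat_lit 0xa090988079a) (nat_lit 0) (p (nat_lit 0x88088907871a) (nat_lit 0) (p (nat_lit 0x7880887069a)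 (nat_lit 0) (p (nat_lit 0x80000800088806860a) (nat_lit 0) (p (nat_lit 0x80000800068786058a) (nat_lit 0) (p (nat_lit 0x8687058502) (nat_lit 0) (p (nat_lit 0x606850482) (nat_lit 0) (p (nat_lit 0x160014) (nat_lit 0) (p (nat_lit 0x68612) (nat_lit 0) (p (nat_lit 0x50592) (nat_lit 0) (p (nat_lit 0x40512) (nat_lit 0) (p (nat_lit 0x50312) (nat_lit 0) (p (nat_lit 0x38292) (nat_lit 0) (p (nat_lit 0x28212) (nat_lit 0) (p (nat_lit 0x38112) (nat_lit 0) (p (nat_lit 0x20092) (nat_lit 0) (p (nat_lit 0x10012) (nat_lit 0) pn)))))))))))))))))))))))))))) :=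
  Cl.node (nat_lit 0x200004) (nat_lit 2) (by decide +kernel) (ClAll.succ (ClAll.succ ClAll.zero n285) s811)

def n341 : Cl (O (nat_lit 3)) (R (nat_lit 143633))
    (p (nat_lit 0x380c2) (nat_lit 0) (p (nat_lit 0x3c4aa) (nat_lit 10) (p (nat_lit 0x109) (nat_lit 1) (p (nat_lit 0x89) (nat_lit 1) (p (nat_lit 0x101) (nat_lit 0) (p (nat_lit 0xc1) (nat_lit 1) (p (nat_lit 0x119) (nat_lit 1) (p (nat_lit 0xd1) (nat_lit 0) (p (nat_lit 0x81) (nat_lit 0) (p (nat_lit 0x41) (nat_lit 1) (p (nat_lit 0x8a898a08881a) (nat_lit 0) (p (nat_lit 0xa090988079a) (nat_lit 0) (p (nat_lit 0x88088907871a) (nat_lit 0) (p (nat_lit 0x7880887069a) (nat_lit 0) (p (nat_lit 0x80000800088806860a) (nat_lit 0) (p (nat_lit 0x80000800068786058a) (nat_lit 0) (p (nat_lit 0x8687058502) (nat_lit 0) (p (nat_lit 0x606850482) (nat_lit 0) (p (nat_lit 0x160014) (nat_lit 0) (p (nat_lit 0x68612) (nat_lit 0) (p (nat_lit 0x50592)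 (nat_lit 0) (p (nat_lit 0x40512) (nat_lit 0) (p (nat_lit 0x50312) (nat_lit 0) (p (nat_lit 0x38292) (nat_lit 0) (p (nat_lit 0x28212) (nat_lit 0) (p (nat_lit 0x38112) (nat_lit 0) (p (nat_lit 0x20092) (nat_lit 0) (p (nat_lit 0x10012) (nat_lit 0) pn)))))))))))))))))))))))))))) :=
  Cl.node (nat_lit 0xb0014) (nat_lit 2) (by decide +kernel) (ClAll.succ (ClAll.succ ClAll.zero n286) s829)

def n342 : Cl (O (nat_lit 3)) (R (nat_lit 143633))
    (p (nat_lit 0x380c2) (nat_lit 1) (p (nat_lit 0x3c4aa) (nat_lit 10) (p (nat_lit 0x109) (nat_lit 1) (p (nat_lit 0x89) (nat_lit 1) (p (nat_lit 0x101) (nat_lit 0) (p (nat_lit 0xc1) (nat_lit 1) (p (nat_lit 0x119) (nat_lit 1) (p (nat_lit 0xd1) (nat_lit 0) (p (nat_lit 0x81) (nat_lit 0) (p (nat_lit 0x41) (nat_lit 1) (p (nat_lit 0x8a898a08881a) (nat_lit 0) (p (nat_lit 0xa090988079a) (nat_lit 0) (p (nat_lit 0x88088907871a) (nat_lit 0) (p (nat_lit 0x7880887069a)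 (nat_lit 0) (p (nat_lit 0x80000800088806860a) (nat_lit 0) (p (nat_lit 0x80000800068786058a) (nat_lit 0) (p (nat_lit 0x8687058502) (nat_lit 0) (p (nat_lit 0x606850482) (nat_lit 0) (p (nat_lit 0x160014) (nat_lit 0) (p (nat_lit 0x68612) (nat_lit 0) (p (nat_lit 0x50592) (nat_lit 0) (p (nat_lit 0x40512) (nat_lit 0) (p (nat_lit 0x50312) (nat_lit 0) (p (nat_lit 0x38292) (nat_lit 0) (p (nat_lit 0x28212) (nat_lit 0) (p (nat_lit 0x38112) (nat_lit 0) (p (nat_lit 0x20092) (nat_lit 0) (p (nat_lit 0x10012) (nat_lit 0) pn)))))))))))))))))))))))))))) :=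
  Cl.node (nat_lit 0xb0014) (nat_lit 2) (by decide +kernel) (ClAll.succ (ClAll.succ ClAll.zero n287) s834)

def n343 : Cl (O (nat_lit 3)) (R (nat_lit 143633))
    (p (nat_lit 0x200004) (nat_lit 0) (p (nat_lit 0x380c2) (nat_lit 0) (p (nat_lit 0x3c4aa) (nat_lit 7) (p (nat_lit 0x89) (nat_lit 1) (p (nat_lit 0x101) (nat_lit 1) (p (nat_lit 0xc1) (nat_lit 1) (p (nat_lit 0x119) (nat_lit 1) (p (nat_lit 0xd1) (nat_lit 0) (p (nat_lit 0x81) (nat_lit 0) (p (nat_lit 0x41) (nat_lit 1) (p (nat_lit 0x8a898a08881a) (nat_lit 0) (p (nat_lit 0xa090988079a) (nat_lit 0) (p (nat_lit 0x88088907871a) (nat_lit 0) (p (nat_lit 0x7880887069a) (nat_lit 0) (p (nat_lit 0x80000800088806860a) (nat_lit 0) (p (nat_lit 0x80000800068786058a) (nat_lit 0) (p (nat_lit 0x8687058502) (nat_lit 0) (p (nat_lit 0x606850482) (nat_lit 0) (p (nat_lit 0x160014) (nat_lit 0) (p (nat_lit 0x68612) (nat_lit 0) (p (nat_lit 0x50592)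 (nat_lit 0) (p (nat_lit 0x40512) (nat_lit 0) (p (nat_lit 0x50312) (nat_lit 0) (p (nat_lit 0x38292) (nat_lit 0) (p (nat_lit 0x28212) (nat_lit 0) (p (nat_lit 0x38112) (nat_lit 0) (p (nat_lit 0x20092) (nat_lit 0) (p (nat_lit 0x10012) (nat_lit 0) pn)))))))))))))))))))))))))))) :=
  Cl.node (nat_lit 0x20000c) (nat_lit 2) (by decide +kernel) (ClAll.succ (ClAll.succ ClAll.zero n288) s848)

def n344 : Cl (O (nat_lit 3)) (R (nat_lit 143633))
    (p (nat_lit 0x200004) (nat_lit 0) (p (nat_lit 0x380c2) (nat_lit 1) (p (nat_lit 0x3c4aa) (nat_lit 7) (p (nat_lit 0x89) (nat_lit 1) (p (nat_lit 0x101) (nat_lit 1) (p (nat_lit 0xc1) (nat_lit 1) (p (nat_lit 0x119) (nat_lit 1) (p (nat_lit 0xd1) (nat_lit 0) (p (nat_lit 0x81) (nat_lit 0) (p (nat_lit 0x41) (nat_lit 1) (p (nat_lit 0x8a898a08881a) (nat_lit 0) (p (nat_lit 0xa090988079a) (nat_lit 0) (p (nat_lit 0x88088907871a) (nat_lit 0) (p (nat_lit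 0x7880887069a) (nat_lit 0) (p (nat_lit 0x80000800088806860a) (nat_lit 0) (p (nat_lit 0x80000800068786058a) (nat_lit 0) (p (nat_lit 0x8687058502) (nat_lit 0) (p (nat_lit 0x606850482) (nat_lit 0) (p (nat_lit 0x160014) (nat_lit 0) (p (nat_lit 0x68612) (nat_lit 0) (p (nat_lit 0x50592) (nat_lit 0) (p (nat_lit 0x40512) (nat_lit 0) (p (nat_lit 0x50312) (nat_lit 0) (p (nat_lit 0x38292) (nat_lit 0) (p (nat_lit 0x28212) (nat_lit 0) (p (nat_lit 0x38112) (nat_lit 0) (p (nat_lit 0x20092) (nat_lit 0) (p (nat_lit 0x10012) (nat_lit 0) pn)))))))))))))))))))))))))))) :=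
  Cl.node (nat_lit 0x20000c) (nat_lit 2) (by decide +kernel) (ClAll.succ (ClAll.succ ClAll.zero n289) s854)

def n345 : Cl (O (nat_lit 3)) (R (nat_lit 143633))
    (p (nat_lit 0x200004) (nat_lit 0) (p (nat_lit 0x380c2) (nat_lit 1) (p (nat_lit 0x3c4aa) (nat_lit 10) (p (nat_lit 0x89) (nat_lit 1) (p (nat_lit 0x101) (nat_lit 1) (p (nat_lit 0xc1) (nat_lit 1) (p (nat_lit 0x119) (nat_lit 1) (p (nat_lit 0xd1) (nat_lit 0) (p (nat_lit 0x81) (nat_lit 0) (p (nat_lit 0x41) (nat_lit 1) (p (nat_lit 0x8a898a08881a) (nat_lit 0) (p (nat_lit 0xa090988079a) (nat_lit 0) (p (nat_lit 0x88088907871a) (nat_lit 0) (p (nat_lit 0x7880887069a) (nat_lit 0) (p (nat_lit 0x80000800088806860a) (nat_lit 0) (p (nat_lit 0x80000800068786058a) (nat_lit 0) (p (nat_lit 0x8687058502) (nat_lit 0) (p (nat_lit 0x606850482) (nat_lit 0) (p (nat_lit 0x160014) (nat_lit 0) (p (nat_lit 0x68612) (nat_lit 0) (p (nat_lit 0x50592)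 (nat_lit 0) (p (nat_lit 0x40512) (nat_lit 0) (p (nat_lit 0x50312) (nat_lit 0) (p (nat_lit 0x38292) (nat_lit 0) (p (nat_lit 0x28212) (nat_lit 0) (p (nat_lit 0x38112) (nat_lit 0) (p (nat_lit 0x20092) (nat_lit 0) (p (nat_lit 0x10012) (nat_lit 0) pn)))))))))))))))))))))))))))) :=
  Cl.node (nat_lit 0xb0014) (nat_lit 2) (by decide +kernel) (ClAll.succ (ClAll.succ ClAll.zero n290) s863)

def n346 : Cl (O (nat_lit 3)) (R (nat_lit 143633))
    (p (nat_lit 0x380c2) (nat_lit 0) (p (nat_lit 0x3c4aa) (nat_lit 7) (p (nat_lit 0xd1) (nat_lit 1) (p (nat_lit 0x111) (nat_lit 1) (p (nat_lit 0x109) (nat_lit 0) (p (nat_lit 0x101) (nat_lit 0) (p (nat_lit 0x119) (nat_lit 0) (p (nat_lit 0xc1) (nat_lit 0) (p (nat_lit 0x81) (nat_lit 1) (p (nat_lit 0x41) (nat_lit 1) (p (nat_lit 0x8a898a08881a) (nat_lit 0) (p (nat_lit 0xa090988079a) (nat_lit 0) (p (nat_lit 0x88088907871a) (nat_lit 0) (p (nat_lit 0x7880887069a)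 (nat_lit 0) (p (nat_lit 0x80000800088806860a) (nat_lit 0) (p (nat_lit 0x80000800068786058a) (nat_lit 0) (p (nat_lit 0x8687058502) (nat_lit 0) (p (nat_lit 0x606850482) (nat_lit 0) (p (nat_lit 0x160014) (nat_lit 0) (p (nat_lit 0x68612) (nat_lit 0) (p (nat_lit 0x50592) (nat_lit 0) (p (nat_lit 0x40512) (nat_lit 0) (p (nat_lit 0x50312) (nat_lit 0) (p (nat_lit 0x38292) (nat_lit 0) (p (nat_lit 0x28212) (nat_lit 0) (p (nat_lit 0x38112) (nat_lit 0) (p (nat_lit 0x20092) (nat_lit 0) (p (nat_lit 0x10012) (nat_lit 0) pn)))))))))))))))))))))))))))) :=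
  Cl.node (nat_lit 0x200004) (nat_lit 2) (by decide +kernel) (ClAll.succ (ClAll.succ ClAll.zero n291) s952)

def n347 : Cl (O (nat_lit 3)) (R (nat_lit 143633))
    (p (nat_lit 0x380c2) (nat_lit 1) (p (nat_lit 0x3c4aa) (nat_lit 7) (p (nat_lit 0xd1) (nat_lit 1) (p (nat_lit 0x111) (nat_lit 1) (p (nat_lit 0x109) (nat_lit 0) (p (nat_lit 0x101) (nat_lit 0) (p (nat_lit 0x119) (nat_lit 0) (p (nat_lit 0xc1) (nat_lit 0) (p (nat_lit 0x81) (nat_lit 1) (p (nat_lit 0x41) (nat_lit 1) (p (nat_lit 0x8a898a08881a) (nat_lit 0) (p (nat_lit 0xa090988079a) (nat_lit 0) (p (nat_lit 0x88088907871a) (nat_lit 0) (p (nat_lit 0x7880887069a) (nat_lit 0) (p (nat_lit 0x80000800088806860a) (nat_lit 0) (p (nat_lit 0x80000800068786058a) (nat_lit 0) (p (nat_lit 0x8687058502) (nat_lit 0) (p (nat_lit 0x606850482) (nat_lit 0) (p (nat_lit 0x160014) (nat_lit 0) (p (nat_lit 0x68612) (nat_lit 0) (p (nat_lit 0x50592)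 (nat_lit 0) (p (nat_lit 0x40512) (nat_lit 0) (p (nat_lit 0x50312) (nat_lit 0) (p (nat_lit 0x38292) (nat_lit 0) (p (nat_lit 0x28212) (nat_lit 0) (p (nat_lit 0x38112) (nat_lit 0) (p (nat_lit 0x20092) (nat_lit 0) (p (nat_lit 0x10012) (nat_lit 0) pn)))))))))))))))))))))))))))) :=
  Cl.node (nat_lit 0x200004) (nat_lit 2) (by decide +kernel) (ClAll.succ (ClAll.succ ClAll.zero n292) s979)

def n348 : Cl (O (nat_lit 3)) (R (nat_lit 143633))
    (p (nat_lit 0x380c2) (nat_lit 0) (p (nat_lit 0x3c4aa) (nat_lit 7) (p (nat_lit 0xd1) (nat_lit 1) (p (nat_lit 0xc9) (nat_lit 0) (p (nat_lit 0x109) (nat_lit 1) (p (nat_lit 0x101) (nat_lit 0) (p (nat_lit 0x119) (nat_lit 0) (p (nat_lit 0xc1) (nat_lit 0) (p (nat_lit 0x81) (nat_lit 1) (p (nat_lit 0x41) (nat_lit 1) (p (nat_lit 0x8a898a08881a) (nat_lit 0) (p (nat_lit 0xa090988079a) (nat_lit 0) (p (nat_lit 0x88088907871a) (nat_lit 0) (p (nat_lit 0x7880887069a)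 (nat_lit 0) (p (nat_lit 0x80000800088806860a) (nat_lit 0) (p (nat_lit 0x80000800068786058a) (nat_lit 0) (p (nat_lit 0x8687058502) (nat_lit 0) (p (nat_lit 0x606850482) (nat_lit 0) (p (nat_lit 0x160014) (nat_lit 0) (p (nat_lit 0x68612) (nat_lit 0) (p (nat_lit 0x50592) (nat_lit 0) (p (nat_lit 0x40512) (nat_lit 0) (p (nat_lit 0x50312) (nat_lit 0) (p (nat_lit 0x38292) (nat_lit 0) (p (nat_lit 0x28212) (nat_lit 0) (p (nat_lit 0x38112) (nat_lit 0) (p (nat_lit 0x20092) (nat_lit 0) (p (nat_lit 0x10012) (nat_lit 0) pn)))))))))))))))))))))))))))) :=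
  Cl.node (nat_lit 0x200004) (nat_lit 2) (by decide +kernel) (ClAll.succ (ClAll.succ ClAll.zero n293) s995)

def n349 : Cl (O (nat_lit 3)) (R (nat_lit 143633))
    (p (nat_lit 0x380c2) (nat_lit 1) (p (nat_lit 0x3c4aa) (nat_lit 7) (p (nat_lit 0xd1) (nat_lit 1) (p (nat_lit 0xc9) (nat_lit 0) (p (nat_lit 0x109) (nat_lit 1) (p (nat_lit 0x101) (nat_lit 0) (p (nat_lit 0x119) (nat_lit 0) (p (nat_lit 0xc1) (nat_lit 0) (p (nat_lit 0x81) (nat_lit 1) (p (nat_lit 0x41) (nat_lit 1) (p (nat_lit 0x8a898a08881a) (nat_lit 0) (p (nat_lit 0xa090988079a) (nat_lit 0) (p (nat_lit 0x88088907871a) (nat_lit 0) (p (nat_lit 0x7880887069a) (nat_lit 0) (p (nat_lit 0x80000800088806860a) (nat_lit 0) (p (nat_lit 0x80000800068786058a) (nat_lit 0) (p (nat_lit 0x8687058502) (nat_lit 0) (p (nat_lit 0x606850482) (nat_lit 0) (p (nat_lit 0x160014) (nat_lit 0) (p (nat_lit 0x68612) (nat_lit 0) (p (nat_lit 0x50592)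 (nat_lit 0) (p (nat_lit 0x40512) (nat_lit 0) (p (nat_lit 0x50312) (nat_lit 0) (p (nat_lit 0x38292) (nat_lit 0) (p (nat_lit 0x28212) (nat_lit 0) (p (nat_lit 0x38112) (nat_lit 0) (p (nat_lit 0x20092) (nat_lit 0) (p (nat_lit 0x10012) (nat_lit 0) pn)))))))))))))))))))))))))))) :=
  Cl.node (nat_lit 0x200004) (nat_lit 2) (by decide +kernel) (ClAll.succ (ClAll.succ ClAll.zero n294) s1003)

def n350 : Cl (O (nat_lit 3)) (R (nat_lit 143633))
    (p (nat_lit 0x20000c) (nat_lit 0) (p (nat_lit 0x380c2) (nat_lit 0) (p (nat_lit 0x3c4aa) (nat_lit 7) (p (nat_lit 0xd1) (nat_lit 1) (p (nat_lit 0xc9) (nat_lit 0) (p (nat_lit 0x101) (nat_lit 1) (p (nat_lit 0x119) (nat_lit 0) (p (nat_lit 0xc1) (nat_lit 0) (p (nat_lit 0x81) (nat_lit 1) (p (nat_lit 0x41) (nat_lit 1) (p (nat_lit 0x8a898a08881a) (nat_lit 0) (p (nat_lit 0xa090988079a) (nat_lit 0) (p (nat_lit 0x88088907871a) (nat_lit 0) (p (nat_lit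 0x7880887069a) (nat_lit 0) (p (nat_lit 0x80000800088806860a) (nat_lit 0) (p (nat_lit 0x80000800068786058a) (nat_lit 0) (p (nat_lit 0x8687058502) (nat_lit 0) (p (nat_lit 0x606850482) (nat_lit 0) (p (nat_lit 0x160014) (nat_lit 0) (p (nat_lit 0x68612) (nat_lit 0) (p (nat_lit 0x50592) (nat_lit 0) (p (nat_lit 0x40512) (nat_lit 0) (p (nat_lit 0x50312) (nat_lit 0) (p (nat_lit 0x38292) (nat_lit 0) (p (nat_lit 0x28212) (nat_lit 0) (p (nat_lit 0x38112) (nat_lit 0) (p (nat_lit 0x20092) (nat_lit 0) (p (nat_lit 0x10012) (nat_lit 0) pn)))))))))))))))))))))))))))) :=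
  Cl.node (nat_lit 0x200004) (nat_lit 2) (by decide +kernel) (ClAll.succ (ClAll.succ ClAll.zero n295) s1044)

def n351 : Cl (O (nat_lit 3)) (R (nat_lit 143633))
    (p (nat_lit 0x200004) (nat_lit 0) (p (nat_lit 0x380c2) (nat_lit 1) (p (nat_lit 0x3c4aa) (nat_lit 7) (p (nat_lit 0xd1) (nat_lit 1) (p (nat_lit 0xc9) (nat_lit 0) (p (nat_lit 0x101) (nat_lit 1) (p (nat_lit 0x119) (nat_lit 0) (p (nat_lit 0xc1) (nat_lit 0) (p (nat_lit 0x81) (nat_lit 1) (p (nat_lit 0x41) (nat_lit 1) (p (nat_lit 0x8a898a08881a) (nat_lit 0) (p (nat_lit 0xa090988079a) (nat_lit 0) (p (nat_lit 0x88088907871a) (nat_lit 0) (p (nat_lit 0x7880887069a) (nat_lit 0) (p (nat_lit 0x80000800088806860a) (nat_lit 0) (p (nat_lit 0x80000800068786058a) (nat_lit 0) (p (nat_lit 0x8687058502) (nat_lit 0) (p (nat_lit 0x606850482) (nat_lit 0) (p (nat_lit 0x160014) (nat_lit 0) (p (nat_lit 0x68612) (nat_lit 0) (p (nat_lit 0x50592)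 (nat_lit 0) (p (nat_lit 0x40512) (nat_lit 0) (p (nat_lit 0x50312) (nat_lit 0) (p (nat_lit 0x38292) (nat_lit 0) (p (nat_lit 0x28212) (nat_lit 0) (p (nat_lit 0x38112) (nat_lit 0) (p (nat_lit 0x20092) (nat_lit 0) (p (nat_lit 0x10012) (nat_lit 0) pn)))))))))))))))))))))))))))) :=
  Cl.node (nat_lit 0x20000c) (nat_lit 2) (by decide +kernel) (ClAll.succ (ClAll.succ ClAll.zero n296) s1061)

def n352 : Cl (O (nat_lit 3)) (R (nat_lit 143633))
    (p (nat_lit 0x200004) (nat_lit 0) (p (nat_lit 0x380c2) (nat_lit 0) (p (nat_lit 0x3c4aa) (nat_lit 7) (p (nat_lit 0x111) (nat_lit 1) (p (nat_lit 0xd1) (nat_lit 1) (p (nat_lit 0xc9) (nat_lit 0) (p (nat_lit 0x119) (nat_lit 1) (p (nat_lit 0xc1) (nat_lit 0) (p (nat_lit 0x81) (nat_lit 1) (p (nat_lit 0x41) (nat_lit 1) (p (nat_lit 0x8a898a08881a) (nat_lit 0) (p (nat_lit 0xa090988079a) (nat_lit 0) (p (nat_lit 0x88088907871a) (nat_lit 0) (p (nat_lit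 0x7880887069a) (nat_lit 0) (p (nat_lit 0x80000800088806860a) (nat_lit 0) (p (nat_lit 0x80000800068786058a) (nat_lit 0) (p (nat_lit 0x8687058502) (nat_lit 0) (p (nat_lit 0x606850482) (nat_lit 0) (p (nat_lit 0x160014) (nat_lit 0) (p (nat_lit 0x68612) (nat_lit 0) (p (nat_lit 0x50592) (nat_lit 0) (p (nat_lit 0x40512) (nat_lit 0) (p (nat_lit 0x50312) (nat_lit 0) (p (nat_lit 0x38292) (nat_lit 0) (p (nat_lit 0x28212) (nat_lit 0) (p (nat_lit 0x38112) (nat_lit 0) (p (nat_lit 0x20092) (nat_lit 0) (p (nat_lit 0x10012) (nat_lit 0) pn)))))))))))))))))))))))))))) :=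
  Cl.node (nat_lit 0x20000c) (nat_lit 2) (by decide +kernel) (ClAll.succ (ClAll.succ ClAll.zero n297) s1081)

def n353 : Cl (O (nat_lit 3)) (R (nat_lit 143633))
    (p (nat_lit 0xb0014) (nat_lit 0) (p (nat_lit 0x380c2) (nat_lit 1) (p (nat_lit 0x3c4aa) (nat_lit 7) (p (nat_lit 0x111) (nat_lit 1) (p (nat_lit 0xd1) (nat_lit 1) (p (nat_lit 0xc9) (nat_lit 0) (p (nat_lit 0x119) (nat_lit 1) (p (nat_lit 0xc1) (nat_lit 0) (p (nat_lit 0x81) (nat_lit 1) (p (nat_lit 0x41) (nat_lit 1) (p (nat_lit 0x8a898a08881a) (nat_lit 0) (p (nat_lit 0xa090988079a) (nat_lit 0) (p (nat_lit 0x88088907871a) (nat_lit 0) (p (nat_lit 0x7880887069a) (nat_lit 0) (p (nat_lit 0x80000800088806860a) (nat_lit 0) (p (nat_lit 0x80000800068786058a) (nat_lit 0) (p (nat_lit 0x8687058502) (nat_lit 0) (p (nat_lit 0x606850482) (nat_lit 0) (p (nat_lit 0x160014) (nat_lit 0) (p (nat_lit 0x68612) (nat_lit 0) (p (nat_lit 0x50592)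 (nat_lit 0) (p (nat_lit 0x40512) (nat_lit 0) (p (nat_lit 0x50312) (nat_lit 0) (p (nat_lit 0x38292) (nat_lit 0) (p (nat_lit 0x28212) (nat_lit 0) (p (nat_lit 0x38112) (nat_lit 0) (p (nat_lit 0x20092) (nat_lit 0) (p (nat_lit 0x10012) (nat_lit 0) pn)))))))))))))))))))))))))))) :=
  Cl.node (nat_lit 0x200004) (nat_lit 2) (by decide +kernel) (ClAll.succ (ClAll.succ ClAll.zero n298) s1088)

def n354 : Cl (O (nat_lit 3)) (R (nat_lit 143633))
    (p (nat_lit 0xb0014) (nat_lit 1) (p (nat_lit 0x380c2) (nat_lit 1) (p (nat_lit 0x3c4aa) (nat_lit 7) (p (nat_lit 0x111) (nat_lit 1) (p (nat_lit 0xd1) (nat_lit 1) (p (nat_lit 0xc9) (nat_lit 0) (p (nat_lit 0x119) (nat_lit 1) (p (nat_lit 0xc1) (nat_lit 0) (p (nat_lit 0x81) (nat_lit 1) (p (nat_lit 0x41) (nat_lit 1) (p (nat_lit 0x8a898a08881a) (nat_lit 0) (p (nat_lit 0xa090988079a) (nat_lit 0) (p (nat_lit 0x88088907871a) (nat_lit 0) (p (nat_lit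 0x7880887069a) (nat_lit 0) (p (nat_lit 0x80000800088806860a) (nat_lit 0) (p (nat_lit 0x80000800068786058a) (nat_lit 0) (p (nat_lit 0x8687058502) (nat_lit 0) (p (nat_lit 0x606850482) (nat_lit 0) (p (nat_lit 0x160014) (nat_lit 0) (p (nat_lit 0x68612) (nat_lit 0) (p (nat_lit 0x50592) (nat_lit 0) (p (nat_lit 0x40512) (nat_lit 0) (p (nat_lit 0x50312) (nat_lit 0) (p (nat_lit 0x38292) (nat_lit 0) (p (nat_lit 0x28212) (nat_lit 0) (p (nat_lit 0x38112) (nat_lit 0) (p (nat_lit 0x20092) (nat_lit 0) (p (nat_lit 0x10012) (nat_lit 0) pn)))))))))))))))))))))))))))) :=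
  Cl.node (nat_lit 0x1fc004) (nat_lit 2) (by decide +kernel) (ClAll.succ (ClAll.succ ClAll.zero n299) s1094)

def n355 : Cl (O (nat_lit 3)) (R (nat_lit 143633))
    (p (nat_lit 0x20000c) (nat_lit 0) (p (nat_lit 0x380c2) (nat_lit 0) (p (nat_lit 0x3c4aa) (nat_lit 7) (p (nat_lit 0x111) (nat_lit 1) (p (nat_lit 0x109) (nat_lit 0) (p (nat_lit 0xc9) (nat_lit 1) (p (nat_lit 0x119) (nat_lit 1) (p (nat_lit 0xc1) (nat_lit 0) (p (nat_lit 0x81) (nat_lit 1) (p (nat_lit 0x41) (nat_lit 1) (p (nat_lit 0x8a898a08881a) (nat_lit 0) (p (nat_lit 0xa090988079a) (nat_lit 0) (p (nat_lit 0x88088907871a) (nat_lit 0) (p (nat_lit 0x7880887069a) (nat_lit 0) (p (nat_lit 0x80000800088806860a) (nat_lit 0) (p (nat_lit 0x80000800068786058a) (nat_lit 0) (p (nat_lit 0x8687058502) (nat_lit 0) (p (nat_lit 0x606850482) (nat_lit 0) (p (nat_lit 0x160014) (nat_lit 0) (p (nat_lit 0x68612) (nat_lit 0) (p (nat_lit 0x50592)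 (nat_lit 0) (p (nat_lit 0x40512) (nat_lit 0) (p (nat_lit 0x50312) (nat_lit 0) (p (nat_lit 0x38292) (nat_lit 0) (p (nat_lit 0x28212) (nat_lit 0) (p (nat_lit 0x38112) (nat_lit 0) (p (nat_lit 0x20092) (nat_lit 0) (p (nat_lit 0x10012) (nat_lit 0) pn)))))))))))))))))))))))))))) :=
  Cl.node (nat_lit 0x200004) (nat_lit 2) (by decide +kernel) (ClAll.succ (ClAll.succ ClAll.zero n300) s1123)

def n356 : Cl (O (nat_lit 3)) (R (nat_lit 143633))
    (p (nat_lit 0xb0014) (nat_lit 0) (p (nat_lit 0x380c2) (nat_lit 1) (p (nat_lit 0x3c4aa) (nat_lit 7) (p (nat_lit 0x111) (nat_lit 1) (p (nat_lit 0x109) (nat_lit 0) (p (nat_lit 0xc9) (nat_lit 1) (p (nat_lit 0x119) (nat_lit 1) (p (nat_lit 0xc1) (nat_lit 0) (p (nat_lit 0x81) (nat_lit 1) (p (nat_lit 0x41) (nat_lit 1) (p (nat_lit 0x8a898a08881a) (nat_lit 0) (p (nat_lit 0xa090988079a) (nat_lit 0) (p (nat_lit 0x88088907871a) (nat_lit 0) (p (nat_lit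 0x7880887069a) (nat_lit 0) (p (nat_lit 0x80000800088806860a) (nat_lit 0) (p (nat_lit 0x80000800068786058a) (nat_lit 0) (p (nat_lit 0x8687058502) (nat_lit 0) (p (nat_lit 0x606850482) (nat_lit 0) (p (nat_lit 0x160014) (nat_lit 0) (p (nat_lit 0x68612) (nat_lit 0) (p (nat_lit 0x50592) (nat_lit 0) (p (nat_lit 0x40512) (nat_lit 0) (p (nat_lit 0x50312) (nat_lit 0) (p (nat_lit 0x38292) (nat_lit 0) (p (nat_lit 0x28212) (nat_lit 0) (p (nat_lit 0x38112) (nat_lit 0) (p (nat_lit 0x20092) (nat_lit 0) (p (nat_lit 0x10012) (nat_lit 0) pn)))))))))))))))))))))))))))) :=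
  Cl.node (nat_lit 0x200004) (nat_lit 2) (by decide +kernel) (ClAll.succ (ClAll.succ ClAll.zero n301) s1129)

def n357 : Cl (O (nat_lit 3)) (R (nat_lit 143633))
    (p (nat_lit 0xb0014) (nat_lit 1) (p (nat_lit 0x380c2) (nat_lit 1) (p (nat_lit 0x3c4aa) (nat_lit 7) (p (nat_lit 0x111) (nat_lit 1) (p (nat_lit 0x109) (nat_lit 0) (p (nat_lit 0xc9) (nat_lit 1) (p (nat_lit 0x119) (nat_lit 1) (p (nat_lit 0xc1) (nat_lit 0) (p (nat_lit 0x81) (nat_lit 1) (p (nat_lit 0x41) (nat_lit 1) (p (nat_lit 0x8a898a08881a) (nat_lit 0) (p (nat_lit 0xa090988079a) (nat_lit 0) (p (nat_lit 0x88088907871a) (nat_lit 0) (p (nat_lit 0x7880887069a) (nat_lit 0) (p (nat_lit 0x80000800088806860a) (nat_lit 0) (p (nat_lit 0x80000800068786058a) (nat_lit 0) (p (nat_lit 0x8687058502) (nat_lit 0) (p (nat_lit 0x606850482) (nat_lit 0) (p (nat_lit 0x160014) (nat_lit 0) (p (nat_lit 0x68612) (nat_lit 0) (p (nat_lit 0x50592)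 (nat_lit 0) (p (nat_lit 0x40512) (nat_lit 0) (p (nat_lit 0x50312) (nat_lit 0) (p (nat_lit 0x38292) (nat_lit 0) (p (nat_lit 0x28212) (nat_lit 0) (p (nat_lit 0x38112) (nat_lit 0) (p (nat_lit 0x20092) (nat_lit 0) (p (nat_lit 0x10012) (nat_lit 0) pn)))))))))))))))))))))))))))) :=
  Cl.node (nat_lit 0x1fc004) (nat_lit 2) (by decide +kernel) (ClAll.succ (ClAll.succ ClAll.zero n302) s1136)

def n358 : Cl (O (nat_lit 3)) (R (nat_lit 143633))
    (p (nat_lit 0x200004) (nat_lit 0) (p (nat_lit 0x380c2) (nat_lit 0) (p (nat_lit 0x3c4aa) (nat_lit 10) (p (nat_lit 0x111) (nat_lit 1) (p (nat_lit 0x109) (nat_lit 0) (p (nat_lit 0xc9) (nat_lit 1) (p (nat_lit 0x119) (nat_lit 1) (p (nat_lit 0xc1) (nat_lit 0) (p (nat_lit 0x81) (nat_lit 1) (p (nat_lit 0x41) (nat_lit 1) (p (nat_lit 0x8a898a08881a) (nat_lit 0) (p (nat_lit 0xa090988079a) (nat_lit 0) (p (nat_lit 0x88088907871a) (nat_lit 0) (p (nat_lit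 0x7880887069a) (nat_lit 0) (p (nat_lit 0x80000800088806860a) (nat_lit 0) (p (nat_lit 0x80000800068786058a) (nat_lit 0) (p (nat_lit 0x8687058502) (nat_lit 0) (p (nat_lit 0x606850482) (nat_lit 0) (p (nat_lit 0x160014) (nat_lit 0) (p (nat_lit 0x68612) (nat_lit 0) (p (nat_lit 0x50592) (nat_lit 0) (p (nat_lit 0x40512) (nat_lit 0) (p (nat_lit 0x50312) (nat_lit 0) (p (nat_lit 0x38292) (nat_lit 0) (p (nat_lit 0x28212) (nat_lit 0) (p (nat_lit 0x38112) (nat_lit 0) (p (nat_lit 0x20092) (nat_lit 0) (p (nat_lit 0x10012) (nat_lit 0) pn)))))))))))))))))))))))))))) :=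
  Cl.node (nat_lit 0x100004) (nat_lit 2) (by decide +kernel) (ClAll.succ (ClAll.succ ClAll.zero s1139) s1140)

def n359 : Cl (O (nat_lit 3)) (R (nat_lit 143633))
    (p (nat_lit 0x200004) (nat_lit 0) (p (nat_lit 0x380c2) (nat_lit 1) (p (nat_lit 0x3c4aa) (nat_lit 7) (p (nat_lit 0x119) (nat_lit 1) (p (nat_lit 0x111) (nat_lit 0) (p (nat_lit 0x109) (nat_lit 0) (p (nat_lit 0x101) (nat_lit 0) (p (nat_lit 0xc1) (nat_lit 1) (p (nat_lit 0x81) (nat_lit 1) (p (nat_lit 0x41) (nat_lit 1) (p (nat_lit 0x8a898a08881a) (nat_lit 0) (p (nat_lit 0xa090988079a) (nat_lit 0) (p (nat_lit 0x88088907871a) (nat_lit 0) (p (nat_lit 0x7880887069a) (nat_lit 0) (p (nat_lit 0x80000800088806860a) (nat_lit 0) (p (nat_lit 0x80000800068786058a) (nat_lit 0) (p (nat_lit 0x8687058502) (nat_lit 0) (p (nat_lit 0x606850482) (nat_lit 0) (p (nat_lit 0x160014) (nat_lit 0) (p (nat_lit 0x68612) (nat_lit 0) (p (nat_lit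 0x50592) (nat_lit 0) (p (nat_lit 0x40512) (nat_lit 0) (p (nat_lit 0x50312) (nat_lit 0) (p (nat_lit 0x38292) (nat_lit 0) (p (nat_lit 0x28212) (nat_lit 0) (p (nat_lit 0x38112) (nat_lit 0) (p (nat_lit 0x20092) (nat_lit 0) (p (nat_lit 0x10012) (nat_lit 0) pn)))))))))))))))))))))))))))) :=
  Cl.node (nat_lit 0x20000c) (nat_lit 2) (by decide +kernel) (ClAll.succ (ClAll.succ ClAll.zero n303) s1167)

def n360 : Cl (O (nat_lit 3)) (R (nat_lit 143633))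
    (p (nat_lit 0x444aa) (nat_lit 7) (p (nat_lit 0x81) (nat_lit 1) (p (nat_lit 0xc9) (nat_lit 1) (p (nat_lit 0x109) (nat_lit 1) (p (nat_lit 0x101) (nat_lit 0) (p (nat_lit 0x119) (nat_lit 0) (p (nat_lit 0xd1) (nat_lit 0) (p (nat_lit 0x89) (nat_lit 0) (p (nat_lit 0x41) (nat_lit 0) (p (nat_lit 0x8a898a08881a) (nat_lit 0) (p (nat_lit 0xa090988079a) (nat_lit 0) (p (nat_lit 0x88088907871a) (nat_lit 0) (p (nat_lit 0x7880887069a) (nat_lit 0) (p (nat_lit 0x80000800088806860a) (nat_lit 0) (p (nat_lit 0x80000800068786058a) (nat_lit 0) (p (nat_lit 0x8687058502) (nat_lit 0) (p (nat_lit 0x606850482) (nat_lit 0) (p (nat_lit 0x160014) (nat_lit 0) (p (nat_lit 0x68612) (nat_lit 0) (p (nat_lit 0x50592) (nat_lit 0) (p (nat_lit 0x40512) (nat_lit 0) (p (nat_lit 0x50312) (nat_lit 0) (p (nat_lit 0x38292) (nat_lit 0) (p (nat_lit 0x28212) (nat_lit 0) (p (nat_lit 0x38112) (nat_lit 0) (p (nat_lit 0x20092)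 (nat_lit 0) (p (nat_lit 0x10012) (nat_lit 0) pn))))))))))))))))))))))))))) :=
  Cl.node (nat_lit 0x380c2) (nat_lit 2) (by decide +kernel) (ClAll.succ (ClAll.succ ClAll.zero n304) n305)

def n361 : Cl (O (nat_lit 3)) (R (nat_lit 143633))
    (p (nat_lit 0x444aa) (nat_lit 7) (p (nat_lit 0x111) (nat_lit 0) (p (nat_lit 0xc9) (nat_lit 1) (p (nat_lit 0x81) (nat_lit 0) (p (nat_lit 0x101) (nat_lit 1) (p (nat_lit 0x119) (nat_lit 0) (p (nat_lit 0xd1) (nat_lit 0) (p (nat_lit 0x89) (nat_lit 0) (p (nat_lit 0x41) (nat_lit 0) (p (nat_lit 0x8a898a08881a) (nat_lit 0) (p (nat_lit 0xa090988079a) (nat_lit 0) (p (nat_lit 0x88088907871a) (nat_lit 0) (p (nat_lit 0x7880887069a) (nat_lit 0) (p (nat_lit 0x80000800088806860a) (nat_lit 0) (p (nat_lit 0x80000800068786058a) (nat_lit 0) (p (nat_lit 0x8687058502) (nat_lit 0) (p (nat_lit 0x606850482) (nat_lit 0) (p (nat_lit 0x160014) (nat_lit 0) (p (nat_lit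 0x68612) (nat_lit 0) (p (nat_lit 0x50592) (nat_lit 0) (p (nat_lit 0x40512) (nat_lit 0) (p (nat_lit 0x50312) (nat_lit 0) (p (nat_lit 0x38292) (nat_lit 0) (p (nat_lit 0x28212) (nat_lit 0) (p (nat_lit 0x38112) (nat_lit 0) (p (nat_lit 0x20092) (nat_lit 0) (p (nat_lit 0x10012) (nat_lit 0) pn))))))))))))))))))))))))))) :=
  Cl.node (nat_lit 0x380c2) (nat_lit 2) (by decide +kernel) (ClAll.succ (ClAll.succ ClAll.zero n306) n307)

def n362 : Cl (O (nat_lit 3)) (R (nat_lit 143633))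
    (p (nat_lit 0x444aa) (nat_lit 7) (p (nat_lit 0xc9) (nat_lit 1) (p (nat_lit 0xc1) (nat_lit 0) (p (nat_lit 0x81) (nat_lit 1) (p (nat_lit 0x101) (nat_lit 1) (p (nat_lit 0x119) (nat_lit 0) (p (nat_lit 0xd1) (nat_lit 0) (p (nat_lit 0x89) (nat_lit 0) (p (nat_lit 0x41) (nat_lit 0) (p (nat_lit 0x8a898a08881a) (nat_lit 0) (p (nat_lit 0xa090988079a) (nat_lit 0) (p (nat_lit 0x88088907871a) (nat_lit 0) (p (nat_lit 0x7880887069a) (nat_lit 0) (p (nat_lit 0x80000800088806860a) (nat_lit 0) (p (nat_lit 0x80000800068786058a) (nat_lit 0) (p (nat_lit 0x8687058502) (nat_lit 0) (p (nat_lit 0x606850482) (nat_lit 0) (p (nat_lit 0x160014) (nat_lit 0) (p (nat_lit 0x68612) (nat_lit 0) (p (nat_lit 0x50592) (nat_lit 0) (p (nat_lit 0x40512) (nat_lit 0) (p (nat_lit 0x50312) (nat_lit 0) (p (nat_lit 0x38292) (nat_lit 0) (p (nat_lit 0x28212) (nat_lit 0) (p (nat_lit 0x38112) (nat_lit 0) (p (nat_lit 0x20092)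 (nat_lit 0) (p (nat_lit 0x10012) (nat_lit 0) pn))))))))))))))))))))))))))) :=
  Cl.node (nat_lit 0x380c2) (nat_lit 2) (by decide +kernel) (ClAll.succ (ClAll.succ ClAll.zero n308) n309)

def n363 : Cl (O (nat_lit 3)) (R (nat_lit 143633))
    (p (nat_lit 0x380c2) (nat_lit 0) (p (nat_lit 0x3cc2a) (nat_lit 10) (p (nat_lit 0x109) (nat_lit 1) (p (nat_lit 0xc9) (nat_lit 1) (p (nat_lit 0xc1) (nat_lit 0) (p (nat_lit 0x119) (nat_lit 1) (p (nat_lit 0xd1) (nat_lit 0) (p (nat_lit 0x89) (nat_lit 0) (p (nat_lit 0x41) (nat_lit 0) (p (nat_lit 0x8a898a08881a) (nat_lit 0) (p (nat_lit 0xa090988079a) (nat_lit 0) (p (nat_lit 0x88088907871a) (nat_lit 0) (p (nat_lit 0x7880887069a) (nat_lit 0) (p (nat_lit 0x80000800088806860a) (nat_lit 0) (p (nat_lit 0x80000800068786058a) (nat_lit 0) (p (nat_lit 0x8687058502) (nat_lit 0) (p (nat_lit 0x606850482) (nat_lit 0) (p (nat_lit 0x160014) (nat_lit 0) (p (nat_lit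 0x68612) (nat_lit 0) (p (nat_lit 0x50592) (nat_lit 0) (p (nat_lit 0x40512) (nat_lit 0) (p (nat_lit 0x50312) (nat_lit 0) (p (nat_lit 0x38292) (nat_lit 0) (p (nat_lit 0x28212) (nat_lit 0) (p (nat_lit 0x38112) (nat_lit 0) (p (nat_lit 0x20092) (nat_lit 0) (p (nat_lit 0x10012) (nat_lit 0) pn))))))))))))))))))))))))))) :=
  Cl.node (nat_lit 0x101) (nat_lit 2) (by decide +kernel) (ClAll.succ (ClAll.succ ClAll.zero s117) n310)

def n364 : Cl (O (nat_lit 3)) (R (nat_lit 143633))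
    (p (nat_lit 0x380c2) (nat_lit 1) (p (nat_lit 0x3cc2a) (nat_lit 11) (p (nat_lit 0x109) (nat_lit 1) (p (nat_lit 0xc9) (nat_lit 1) (p (nat_lit 0xc1) (nat_lit 0) (p (nat_lit 0x119) (nat_lit 1) (p (nat_lit 0xd1) (nat_lit 0) (p (nat_lit 0x89) (nat_lit 0) (p (nat_lit 0x41) (nat_lit 0) (p (nat_lit 0x8a898a08881a) (nat_lit 0) (p (nat_lit 0xa090988079a) (nat_lit 0) (p (nat_lit 0x88088907871a) (nat_lit 0) (p (nat_lit 0x7880887069a) (nat_lit 0) (p (nat_lit 0x80000800088806860a) (nat_lit 0) (p (nat_lit 0x80000800068786058a) (nat_lit 0) (p (nat_lit 0x8687058502) (nat_lit 0) (p (nat_lit 0x606850482) (nat_lit 0) (p (nat_lit 0x160014) (nat_lit 0) (p (nat_lit 0x68612) (nat_lit 0) (p (nat_lit 0x50592) (nat_lit 0) (p (nat_lit 0x40512) (nat_lit 0) (p (nat_lit 0x50312) (nat_lit 0) (p (nat_lit 0x38292) (nat_lit 0) (p (nat_lit 0x28212) (nat_lit 0) (p (nat_lit 0x38112) (nat_lit 0) (p (nat_lit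 0x20092) (nat_lit 0) (p (nat_lit 0x10012) (nat_lit 0) pn))))))))))))))))))))))))))) :=
  Cl.node (nat_lit 0x81) (nat_lit 2) (by decide +kernel) (ClAll.succ (ClAll.succ ClAll.zero s136) n311)

def n365 : Cl (O (nat_lit 3)) (R (nat_lit 143633))
    (p (nat_lit 0x44c2a) (nat_lit 1) (p (nat_lit 0x109) (nat_lit 0) (p (nat_lit 0x101) (nat_lit 0) (p (nat_lit 0x81) (nat_lit 1) (p (nat_lit 0xc1) (nat_lit 1) (p (nat_lit 0x119) (nat_lit 1) (p (nat_lit 0xd1) (nat_lit 0) (p (nat_lit 0x89) (nat_lit 0) (p (nat_lit 0x41) (nat_lit 0) (p (nat_lit 0x8a898a08881a) (nat_lit 0) (p (nat_lit 0xa090988079a) (nat_lit 0) (p (nat_lit 0x88088907871a) (nat_lit 0) (p (nat_lit 0x7880887069a) (nat_lit 0) (p (nat_lit 0x80000800088806860a) (nat_lit 0) (p (nat_lit 0x80000800068786058a) (nat_lit 0) (p (nat_lit 0x8687058502) (nat_lit 0) (p (nat_lit 0x606850482) (nat_lit 0) (p (nat_lit 0x160014) (nat_lit 0) (p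 (nat_lit 0x68612) (nat_lit 0) (p (nat_lit 0x50592) (nat_lit 0) (p (nat_lit 0x40512) (nat_lit 0) (p (nat_lit 0x50312) (nat_lit 0) (p (nat_lit 0x38292) (nat_lit 0) (p (nat_lit 0x28212) (nat_lit 0) (p (nat_lit 0x38112) (nat_lit 0) (p (nat_lit 0x20092) (nat_lit 0) (p (nat_lit 0x10012) (nat_lit 0) pn))))))))))))))))))))))))))) :=
  Cl.node (nat_lit 0x380c2) (nat_lit 1) (by decide +kernel) (ClAll.succ ClAll.zero n312)

def n366 : Cl (O (nat_lit 3)) (R (nat_lit 143633))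
    (p (nat_lit 0x444aa) (nat_lit 7) (p (nat_lit 0x109) (nat_lit 1) (p (nat_lit 0x101) (nat_lit 0) (p (nat_lit 0x81) (nat_lit 1) (p (nat_lit 0xc1) (nat_lit 1) (p (nat_lit 0x119) (nat_lit 1) (p (nat_lit 0xd1) (nat_lit 0) (p (nat_lit 0x89) (nat_lit 0) (p (nat_lit 0x41) (nat_lit 0) (p (nat_lit 0x8a898a08881a) (nat_lit 0) (p (nat_lit 0xa090988079a) (nat_lit 0) (p (nat_lit 0x88088907871a) (nat_lit 0) (p (nat_lit 0x7880887069a) (nat_lit 0) (p (nat_lit 0x80000800088806860a) (nat_lit 0) (p (nat_lit 0x80000800068786058a) (nat_lit 0) (p (nat_lit 0x8687058502) (nat_lit 0) (p (nat_lit 0x606850482) (nat_lit 0) (p (nat_lit 0x160014) (nat_lit 0) (p (nat_lit 0x68612) (nat_lit 0) (p (nat_lit 0x50592) (nat_lit 0) (p (nat_lit 0x40512) (nat_lit 0) (p (nat_lit 0x50312) (nat_lit 0) (p (nat_lit 0x38292) (nat_lit 0) (p (nat_lit 0x28212) (nat_lit 0) (p (nat_lit 0x38112) (nat_lit 0) (p (nat_lit 0x20092)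 (nat_lit 0) (p (nat_lit 0x10012) (nat_lit 0) pn))))))))))))))))))))))))))) :=
  Cl.node (nat_lit 0x380c2) (nat_lit 2) (by decide +kernel) (ClAll.succ (ClAll.succ ClAll.zero n313) n314)

def n367 : Cl (O (nat_lit 3)) (R (nat_lit 143633))
    (p (nat_lit 0x444aa) (nat_lit 8) (p (nat_lit 0x109) (nat_lit 1) (p (nat_lit 0x101) (nat_lit 0) (p (nat_lit 0x81) (nat_lit 1) (p (nat_lit 0xc1) (nat_lit 1) (p (nat_lit 0x119) (nat_lit 1) (p (nat_lit 0xd1) (nat_lit 0) (p (nat_lit 0x89) (nat_lit 0) (p (nat_lit 0x41) (nat_lit 0) (p (nat_lit 0x8a898a08881a) (nat_lit 0) (p (nat_lit 0xa090988079a) (nat_lit 0) (p (nat_lit 0x88088907871a) (nat_lit 0) (p (nat_lit 0x7880887069a) (nat_lit 0) (p (nat_lit 0x80000800088806860a) (nat_lit 0) (p (nat_lit 0x80000800068786058a) (nat_lit 0) (p (nat_lit 0x8687058502) (nat_lit 0) (p (nat_lit 0x606850482) (nat_lit 0) (p (nat_lit 0x160014) (nat_lit 0) (p (nat_lit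 0x68612) (nat_lit 0) (p (nat_lit 0x50592) (nat_lit 0) (p (nat_lit 0x40512) (nat_lit 0) (p (nat_lit 0x50312) (nat_lit 0) (p (nat_lit 0x38292) (nat_lit 0) (p (nat_lit 0x28212) (nat_lit 0) (p (nat_lit 0x38112) (nat_lit 0) (p (nat_lit 0x20092) (nat_lit 0) (p (nat_lit 0x10012) (nat_lit 0) pn))))))))))))))))))))))))))) :=
  Cl.node (nat_lit 0x380c2) (nat_lit 2) (by decide +kernel) (ClAll.succ (ClAll.succ ClAll.zero s222) n315)

def n368 : Cl (O (nat_lit 3)) (R (nat_lit 143633))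
    (p (nat_lit 0x20000c) (nat_lit 0) (p (nat_lit 0x200004) (nat_lit 0) (p (nat_lit 0xc1) (nat_lit 1) (p (nat_lit 0x109) (nat_lit 1) (p (nat_lit 0x101) (nat_lit 0) (p (nat_lit 0x111) (nat_lit 0) (p (nat_lit 0xd1) (nat_lit 1) (p (nat_lit 0x89) (nat_lit 0) (p (nat_lit 0x41) (nat_lit 0) (p (nat_lit 0x8a898a08881a) (nat_lit 0) (p (nat_lit 0xa090988079a) (nat_lit 0) (p (nat_lit 0x88088907871a) (nat_lit 0) (p (nat_lit 0x7880887069a) (nat_lit 0) (p (nat_lit 0x80000800088806860a) (nat_lit 0) (p (nat_lit 0x80000800068786058a) (nat_lit 0) (p (nat_lit 0x8687058502) (nat_lit 0) (p (nat_lit 0x606850482) (nat_lit 0) (p (nat_lit 0x160014) (nat_lit 0) (p (nat_lit 0x68612) (nat_lit 0) (p (nat_lit 0x50592) (nat_lit 0) (p (nat_lit 0x40512) (nat_lit 0) (p (nat_lit 0x50312) (nat_lit 0) (p (nat_lit 0x38292) (nat_lit 0) (p (nat_lit 0x28212) (nat_lit 0) (p (nat_lit 0x38112) (nat_lit 0) (p (nat_lit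 0x20092) (nat_lit 0) (p (nat_lit 0x10012) (nat_lit 0) pn))))))))))))))))))))))))))) :=
  Cl.node (nat_lit 0x41) (nat_lit 2) (by decide +kernel) (ClAll.succ (ClAll.succ ClAll.zero n316) s260)

def n369 : Cl (O (nat_lit 3)) (R (nat_lit 143633))
    (p (nat_lit 0x20000c) (nat_lit 0) (p (nat_lit 0x200004) (nat_lit 0) (p (nat_lit 0x119) (nat_lit 0) (p (nat_lit 0x81) (nat_lit 0) (p (nat_lit 0x101) (nat_lit 1) (p (nat_lit 0x111) (nat_lit 0) (p (nat_lit 0xd1) (nat_lit 1) (p (nat_lit 0x89) (nat_lit 0) (p (nat_lit 0x41) (nat_lit 0) (p (nat_lit 0x8a898a08881a) (nat_lit 0) (p (nat_lit 0xa090988079a) (nat_lit 0) (p (nat_lit 0x88088907871a) (nat_lit 0) (p (nat_lit 0x7880887069a) (nat_lit 0) (p (nat_lit 0x80000800088806860a) (nat_lit 0) (p (nat_lit 0x80000800068786058a) (nat_lit 0) (p (nat_lit 0x8687058502) (nat_lit 0) (p (nat_lit 0x606850482) (nat_lit 0) (p (nat_lit 0x160014) (nat_lit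 0) (p (nat_lit 0x68612) (nat_lit 0) (p (nat_lit 0x50592) (nat_lit 0) (p (nat_lit 0x40512) (nat_lit 0) (p (nat_lit 0x50312) (nat_lit 0) (p (nat_lit 0x38292) (nat_lit 0) (p (nat_lit 0x28212) (nat_lit 0) (p (nat_lit 0x38112) (nat_lit 0) (p (nat_lit 0x20092) (nat_lit 0) (p (nat_lit 0x10012) (nat_lit 0) pn))))))))))))))))))))))))))) :=
  Cl.node (nat_lit 0x109) (nat_lit 2) (by decide +kernel) (ClAll.succ (ClAll.succ ClAll.zero s263) n317)

def n370 : Cl (O (nat_lit 3)) (R (nat_lit 143633))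
    (p (nat_lit 0x444aa) (nat_lit 7) (p (nat_lit 0x119) (nat_lit 0) (p (nat_lit 0xc1) (nat_lit 0) (p (nat_lit 0x81) (nat_lit 1) (p (nat_lit 0x101) (nat_lit 1) (p (nat_lit 0x111) (nat_lit 0) (p (nat_lit 0xd1) (nat_lit 1) (p (nat_lit 0x89) (nat_lit 0) (p (nat_lit 0x41) (nat_lit 0) (p (nat_lit 0x8a898a08881a) (nat_lit 0) (p (nat_lit 0xa090988079a) (nat_lit 0) (p (nat_lit 0x88088907871a) (nat_lit 0) (p (nat_lit 0x7880887069a) (nat_lit 0) (p (nat_lit 0x80000800088806860a) (nat_lit 0) (p (nat_lit 0x80000800068786058a) (nat_lit 0) (p (nat_lit 0x8687058502) (nat_lit 0) (p (nat_lit 0x606850482) (nat_lit 0) (p (nat_lit 0x160014) (nat_lit 0) (p (nat_lit 0x68612) (nat_lit 0) (p (nat_lit 0x50592) (nat_lit 0) (p (nat_lit 0x40512) (nat_lit 0) (p (nat_lit 0x50312) (nat_lit 0) (p (nat_lit 0x38292) (nat_lit 0) (p (nat_lit 0x28212) (nat_lit 0) (p (nat_lit 0x38112) (nat_lit 0) (p (nat_lit 0x20092)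 (nat_lit 0) (p (nat_lit 0x10012) (nat_lit 0) pn))))))))))))))))))))))))))) :=
  Cl.node (nat_lit 0x380c2) (nat_lit 2) (by decide +kernel) (ClAll.succ (ClAll.succ ClAll.zero n318) s303)

def n371 : Cl (O (nat_lit 3)) (R (nat_lit 143633))
    (p (nat_lit 0x444aa) (nat_lit 7) (p (nat_lit 0xd1) (nat_lit 1) (p (nat_lit 0x111) (nat_lit 1) (p (nat_lit 0x109) (nat_lit 0) (p (nat_lit 0x101) (nat_lit 0) (p (nat_lit 0x119) (nat_lit 0) (p (nat_lit 0xc9) (nat_lit 0) (p (nat_lit 0x89) (nat_lit 1) (p (nat_lit 0x41) (nat_lit 0) (p (nat_lit 0x8a898a08881a) (nat_lit 0) (p (nat_lit 0xa090988079a) (nat_lit 0) (p (nat_lit 0x88088907871a) (nat_lit 0) (p (nat_lit 0x7880887069a) (nat_lit 0) (p (nat_lit 0x80000800088806860a) (nat_lit 0) (p (nat_lit 0x80000800068786058a) (nat_lit 0) (p (nat_lit 0x8687058502) (nat_lit 0) (p (nat_lit 0x606850482) (nat_lit 0) (p (nat_lit 0x160014) (nat_lit 0) (p (nat_lit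 0x68612) (nat_lit 0) (p (nat_lit 0x50592) (nat_lit 0) (p (nat_lit 0x40512) (nat_lit 0) (p (nat_lit 0x50312) (nat_lit 0) (p (nat_lit 0x38292) (nat_lit 0) (p (nat_lit 0x28212) (nat_lit 0) (p (nat_lit 0x38112) (nat_lit 0) (p (nat_lit 0x20092) (nat_lit 0) (p (nat_lit 0x10012) (nat_lit 0) pn))))))))))))))))))))))))))) :=
  Cl.node (nat_lit 0x380c2) (nat_lit 2) (by decide +kernel) (ClAll.succ (ClAll.succ ClAll.zero n319) n320)

def n372 : Cl (O (nat_lit 3)) (R (nat_lit 143633))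
    (p (nat_lit 0x20000c) (nat_lit 0) (p (nat_lit 0x200004) (nat_lit 0) (p (nat_lit 0xd1) (nat_lit 0) (p (nat_lit 0x109) (nat_lit 1) (p (nat_lit 0x101) (nat_lit 0) (p (nat_lit 0x119) (nat_lit 0) (p (nat_lit 0xc9) (nat_lit 0) (p (nat_lit 0x89) (nat_lit 1) (p (nat_lit 0x41) (nat_lit 0) (p (nat_lit 0x8a898a08881a) (nat_lit 0) (p (nat_lit 0xa090988079a) (nat_lit 0) (p (nat_lit 0x88088907871a) (nat_lit 0) (p (nat_lit 0x7880887069a) (nat_lit 0) (p (nat_lit 0x80000800088806860a) (nat_lit 0) (p (nat_lit 0x80000800068786058a) (nat_lit 0) (p (nat_lit 0x8687058502) (nat_lit 0) (p (nat_lit 0x606850482) (nat_lit 0) (p (nat_lit 0x160014) (nat_lit 0) (p (nat_lit 0x68612) (nat_lit 0) (p (nat_lit 0x50592) (nat_lit 0) (p (nat_lit 0x40512) (nat_lit 0) (p (nat_lit 0x50312) (nat_lit 0) (p (nat_lit 0x38292) (nat_lit 0) (p (nat_lit 0x28212) (nat_lit 0) (p (nat_lit 0x38112) (nat_lit 0) (p (nat_lit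 0x20092) (nat_lit 0) (p (nat_lit 0x10012) (nat_lit 0) pn))))))))))))))))))))))))))) :=
  Cl.node (nat_lit 0x41) (nat_lit 2) (by decide +kernel) (ClAll.succ (ClAll.succ ClAll.zero n321) s395)

def n373 : Cl (O (nat_lit 3)) (R (nat_lit 143633))
    (p (nat_lit 0x380c2) (nat_lit 0) (p (nat_lit 0x444aa) (nat_lit 7) (p (nat_lit 0xd1) (nat_lit 1) (p (nat_lit 0x109) (nat_lit 1) (p (nat_lit 0x101) (nat_lit 0) (p (nat_lit 0x119) (nat_lit 0) (p (nat_lit 0xc9) (nat_lit 0) (p (nat_lit 0x89) (nat_lit 1) (p (nat_lit 0x41) (nat_lit 0) (p (nat_lit 0x8a898a08881a) (nat_lit 0) (p (nat_lit 0xa090988079a) (nat_lit 0) (p (nat_lit 0x88088907871a) (nat_lit 0) (p (nat_lit 0x7880887069a) (nat_lit 0) (p (nat_lit 0x80000800088806860a) (nat_lit 0) (p (nat_lit 0x80000800068786058a) (nat_lit 0) (p (nat_lit 0x8687058502) (nat_lit 0) (p (nat_lit 0x606850482) (nat_lit 0) (p (nat_lit 0x160014) (nat_lit 0)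 (p (nat_lit 0x68612) (nat_lit 0) (p (nat_lit 0x50592) (nat_lit 0) (p (nat_lit 0x40512) (nat_lit 0) (p (nat_lit 0x50312) (nat_lit 0) (p (nat_lit 0x38292) (nat_lit 0) (p (nat_lit 0x28212) (nat_lit 0) (p (nat_lit 0x38112) (nat_lit 0) (p (nat_lit 0x20092) (nat_lit 0) (p (nat_lit 0x10012) (nat_lit 0) pn))))))))))))))))))))))))))) :=
  Cl.node (nat_lit 0xb0014) (nat_lit 2) (by decide +kernel) (ClAll.succ (ClAll.succ ClAll.zero n322) n323)

def n374 : Cl (O (nat_lit 3)) (R (nat_lit 143633))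
    (p (nat_lit 0x380c2) (nat_lit 1) (p (nat_lit 0x444aa) (nat_lit 7) (p (nat_lit 0xd1) (nat_lit 1) (p (nat_lit 0x109) (nat_lit 1) (p (nat_lit 0x101) (nat_lit 0) (p (nat_lit 0x119) (nat_lit 0) (p (nat_lit 0xc9) (nat_lit 0) (p (nat_lit 0x89) (nat_lit 1) (p (nat_lit 0x41) (nat_lit 0) (p (nat_lit 0x8a898a08881a) (nat_lit 0) (p (nat_lit 0xa090988079a) (nat_lit 0) (p (nat_lit 0x88088907871a) (nat_lit 0) (p (nat_lit 0x7880887069a) (nat_lit 0) (p (nat_lit 0x80000800088806860a) (nat_lit 0) (p (nat_lit 0x80000800068786058a) (nat_lit 0) (p (nat_lit 0x8687058502) (nat_lit 0) (p (nat_lit 0x606850482) (nat_lit 0) (p (nat_lit 0x160014) (nat_lit 0) (p (nat_lit 0x68612) (nat_lit 0) (p (nat_lit 0x50592) (nat_lit 0) (p (nat_lit 0x40512) (nat_lit 0) (p (nat_lit 0x50312) (nat_lit 0) (p (nat_lit 0x38292) (nat_lit 0) (p (nat_lit 0x28212) (nat_lit 0) (p (nat_lit 0x38112) (nat_lit 0) (p (nat_lit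 0x20092) (nat_lit 0) (p (nat_lit 0x10012) (nat_lit 0) pn))))))))))))))))))))))))))) :=
  Cl.node (nat_lit 0x20000c) (nat_lit 2) (by decide +kernel) (ClAll.succ (ClAll.succ ClAll.zero n324) s440)

def n375 : Cl (O (nat_lit 3)) (R (nat_lit 143633))
    (p (nat_lit 0x20000c) (nat_lit 0) (p (nat_lit 0x200004) (nat_lit 0) (p (nat_lit 0xd1) (nat_lit 0) (p (nat_lit 0xc1) (nat_lit 0) (p (nat_lit 0x101) (nat_lit 1) (p (nat_lit 0x119) (nat_lit 0) (p (nat_lit 0xc9) (nat_lit 0) (p (nat_lit 0x89) (nat_lit 1) (p (nat_lit 0x41) (nat_lit 0) (p (nat_lit 0x8a898a08881a) (nat_lit 0) (p (nat_lit 0xa090988079a) (nat_lit 0) (p (nat_lit 0x88088907871a) (nat_lit 0) (p (nat_lit 0x7880887069a) (nat_lit 0) (p (nat_lit 0x80000800088806860a) (nat_lit 0) (p (nat_lit 0x80000800068786058a) (nat_lit 0) (p (nat_lit 0x8687058502) (nat_lit 0) (p (nat_lit 0x606850482) (nat_lit 0) (p (nat_lit 0x160014) (nat_lit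 0) (p (nat_lit 0x68612) (nat_lit 0) (p (nat_lit 0x50592) (nat_lit 0) (p (nat_lit 0x40512) (nat_lit 0) (p (nat_lit 0x50312) (nat_lit 0) (p (nat_lit 0x38292) (nat_lit 0) (p (nat_lit 0x28212) (nat_lit 0) (p (nat_lit 0x38112) (nat_lit 0) (p (nat_lit 0x20092) (nat_lit 0) (p (nat_lit 0x10012) (nat_lit 0) pn))))))))))))))))))))))))))) :=
  Cl.node (nat_lit 0x109) (nat_lit 2) (by decide +kernel) (ClAll.succ (ClAll.succ ClAll.zero s445) n325)

def n376 : Cl (O (nat_lit 3)) (R (nat_lit 143633))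
    (p (nat_lit 0x380c2) (nat_lit 0) (p (nat_lit 0x444aa) (nat_lit 7) (p (nat_lit 0xd1) (nat_lit 1) (p (nat_lit 0xc1) (nat_lit 0) (p (nat_lit 0x101) (nat_lit 1) (p (nat_lit 0x119) (nat_lit 0) (p (nat_lit 0xc9) (nat_lit 0) (p (nat_lit 0x89) (nat_lit 1) (p (nat_lit 0x41) (nat_lit 0) (p (nat_lit 0x8a898a08881a) (nat_lit 0) (p (nat_lit 0xa090988079a) (nat_lit 0) (p (nat_lit 0x88088907871a) (nat_lit 0) (p (nat_lit 0x7880887069a) (nat_lit 0) (p (nat_lit 0x80000800088806860a) (nat_lit 0) (p (nat_lit 0x80000800068786058a) (nat_lit 0) (p (nat_lit 0x8687058502) (nat_lit 0) (p (nat_lit 0x606850482) (nat_lit 0) (p (nat_lit 0x160014) (nat_lit 0) (p (nat_lit 0x68612) (nat_lit 0) (p (nat_lit 0x50592) (nat_lit 0) (p (nat_lit 0x40512) (nat_lit 0) (p (nat_lit 0x50312) (nat_lit 0) (p (nat_lit 0x38292) (nat_lit 0) (p (nat_lit 0x28212) (nat_lit 0) (p (nat_lit 0x38112) (nat_lit 0) (p (nat_lit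 0x20092) (nat_lit 0) (p (nat_lit 0x10012) (nat_lit 0) pn))))))))))))))))))))))))))) :=
  Cl.node (nat_lit 0xb0014) (nat_lit 2) (by decide +kernel) (ClAll.succ (ClAll.succ ClAll.zero n326) s469)

def n377 : Cl (O (nat_lit 3)) (R (nat_lit 143633))
    (p (nat_lit 0x380c2) (nat_lit 1) (p (nat_lit 0x444aa) (nat_lit 7) (p (nat_lit 0xd1) (nat_lit 1) (p (nat_lit 0xc1) (nat_lit 0) (p (nat_lit 0x101) (nat_lit 1) (p (nat_lit 0x119) (nat_lit 0) (p (nat_lit 0xc9) (nat_lit 0) (p (nat_lit 0x89) (nat_lit 1) (p (nat_lit 0x41) (nat_lit 0) (p (nat_lit 0x8a898a08881a) (nat_lit 0) (p (nat_lit 0xa090988079a) (nat_lit 0) (p (nat_lit 0x88088907871a) (nat_lit 0) (p (nat_lit 0x7880887069a) (nat_lit 0) (p (nat_lit 0x80000800088806860a) (nat_lit 0) (p (nat_lit 0x80000800068786058a) (nat_lit 0) (p (nat_lit 0x8687058502) (nat_lit 0) (p (nat_lit 0x606850482) (nat_lit 0) (p (nat_lit 0x160014) (nat_lit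 0) (p (nat_lit 0x68612) (nat_lit 0) (p (nat_lit 0x50592) (nat_lit 0) (p (nat_lit 0x40512) (nat_lit 0) (p (nat_lit 0x50312) (nat_lit 0) (p (nat_lit 0x38292) (nat_lit 0) (p (nat_lit 0x28212) (nat_lit 0) (p (nat_lit 0x38112) (nat_lit 0) (p (nat_lit 0x20092) (nat_lit 0) (p (nat_lit 0x10012) (nat_lit 0) pn))))))))))))))))))))))))))) :=
  Cl.node (nat_lit 0x20000c) (nat_lit 2) (by decide +kernel) (ClAll.succ (ClAll.succ ClAll.zero n327) s479)

def n378 : Cl (O (nat_lit 3)) (R (nat_lit 143633))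
    (p (nat_lit 0x380c2) (nat_lit 0) (p (nat_lit 0x444aa) (nat_lit 7) (p (nat_lit 0x111) (nat_lit 1) (p (nat_lit 0xd1) (nat_lit 1) (p (nat_lit 0xc1) (nat_lit 0) (p (nat_lit 0x119) (nat_lit 1) (p (nat_lit 0xc9) (nat_lit 0) (p (nat_lit 0x89) (nat_lit 1) (p (nat_lit 0x41) (nat_lit 0) (p (nat_lit 0x8a898a08881a) (nat_lit 0) (p (nat_lit 0xa090988079a) (nat_lit 0) (p (nat_lit 0x88088907871a) (nat_lit 0) (p (nat_lit 0x7880887069a) (nat_lit 0) (p (nat_lit 0x80000800088806860a) (nat_lit 0) (p (nat_lit 0x80000800068786058a) (nat_lit 0) (p (nat_lit 0x8687058502) (nat_lit 0) (p (nat_lit 0x606850482) (nat_lit 0) (p (nat_lit 0x160014) (nat_lit 0) (p (nat_lit 0x68612) (nat_lit 0) (p (nat_lit 0x50592) (nat_lit 0) (p (nat_lit 0x40512) (nat_lit 0) (p (nat_lit 0x50312) (nat_lit 0) (p (nat_lit 0x38292) (nat_lit 0) (p (nat_lit 0x28212) (nat_lit 0) (p (nat_lit 0x38112) (nat_lit 0) (p (nat_lit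 0x20092) (nat_lit 0) (p (nat_lit 0x10012) (nat_lit 0) pn))))))))))))))))))))))))))) :=
  Cl.node (nat_lit 0xb0014) (nat_lit 2) (by decide +kernel) (ClAll.succ (ClAll.succ ClAll.zero n328) n329)

def n379 : Cl (O (nat_lit 3)) (R (nat_lit 143633))
    (p (nat_lit 0x380c2) (nat_lit 1) (p (nat_lit 0x444aa) (nat_lit 7) (p (nat_lit 0x111) (nat_lit 1) (p (nat_lit 0xd1) (nat_lit 1) (p (nat_lit 0xc1) (nat_lit 0) (p (nat_lit 0x119) (nat_lit 1) (p (nat_lit 0xc9) (nat_lit 0) (p (nat_lit 0x89) (nat_lit 1) (p (nat_lit 0x41) (nat_lit 0) (p (nat_lit 0x8a898a08881a) (nat_lit 0) (p (nat_lit 0xa090988079a) (nat_lit 0) (p (nat_lit 0x88088907871a) (nat_lit 0) (p (nat_lit 0x7880887069a) (nat_lit 0) (p (nat_lit 0x80000800088806860a) (nat_lit 0) (p (nat_lit 0x80000800068786058a) (nat_lit 0) (p (nat_lit 0x8687058502) (nat_lit 0) (p (nat_lit 0x606850482) (nat_lit 0) (p (nat_lit 0x160014) (nat_lit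 0) (p (nat_lit 0x68612) (nat_lit 0) (p (nat_lit 0x50592) (nat_lit 0) (p (nat_lit 0x40512) (nat_lit 0) (p (nat_lit 0x50312) (nat_lit 0) (p (nat_lit 0x38292) (nat_lit 0) (p (nat_lit 0x28212) (nat_lit 0) (p (nat_lit 0x38112) (nat_lit 0) (p (nat_lit 0x20092) (nat_lit 0) (p (nat_lit 0x10012) (nat_lit 0) pn))))))))))))))))))))))))))) :=
  Cl.node (nat_lit 0x20000c) (nat_lit 2) (by decide +kernel) (ClAll.succ (ClAll.succ ClAll.zero n330) s513)

def n380 : Cl (O (nat_lit 3)) (R (nat_lit 143633))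
    (p (nat_lit 0x380c2) (nat_lit 1) (p (nat_lit 0x444aa) (nat_lit 8) (p (nat_lit 0x111) (nat_lit 1) (p (nat_lit 0xd1) (nat_lit 1) (p (nat_lit 0xc1) (nat_lit 0) (p (nat_lit 0x119) (nat_lit 1) (p (nat_lit 0xc9) (nat_lit 0) (p (nat_lit 0x89) (nat_lit 1) (p (nat_lit 0x41) (nat_lit 0) (p (nat_lit 0x8a898a08881a) (nat_lit 0) (p (nat_lit 0xa090988079a) (nat_lit 0) (p (nat_lit 0x88088907871a) (nat_lit 0) (p (nat_lit 0x7880887069a) (nat_lit 0) (p (nat_lit 0x80000800088806860a) (nat_lit 0) (p (nat_lit 0x80000800068786058a) (nat_lit 0) (p (nat_lit 0x8687058502) (nat_lit 0) (p (nat_lit 0x606850482) (nat_lit 0) (p (nat_lit 0x160014) (nat_lit 0) (p (nat_lit 0x68612) (nat_lit 0) (p (nat_lit 0x50592) (nat_lit 0) (p (nat_lit 0x40512) (nat_lit 0) (p (nat_lit 0x50312) (nat_lit 0) (p (nat_lit 0x38292) (nat_lit 0) (p (nat_lit 0x28212) (nat_lit 0) (p (nat_lit 0x38112) (nat_lit 0) (p (nat_lit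 0x20092) (nat_lit 0) (p (nat_lit 0x10012) (nat_lit 0) pn))))))))))))))))))))))))))) :=
  Cl.node (nat_lit 0xb0014) (nat_lit 2) (by decide +kernel) (ClAll.succ (ClAll.succ ClAll.zero n331) s517)

def n381 : Cl (O (nat_lit 3)) (R (nat_lit 143633))
    (p (nat_lit 0x380c2) (nat_lit 0) (p (nat_lit 0x444aa) (nat_lit 7) (p (nat_lit 0x111) (nat_lit 1) (p (nat_lit 0x101) (nat_lit 0) (p (nat_lit 0xc1) (nat_lit 1) (p (nat_lit 0x119) (nat_lit 1) (p (nat_lit 0xc9) (nat_lit 0) (p (nat_lit 0x89) (nat_lit 1) (p (nat_lit 0x41) (nat_lit 0) (p (nat_lit 0x8a898a08881a) (nat_lit 0) (p (nat_lit 0xa090988079a) (nat_lit 0) (p (nat_lit 0x88088907871a) (nat_lit 0) (p (nat_lit 0x7880887069a) (nat_lit 0) (p (nat_lit 0x80000800088806860a) (nat_lit 0) (p (nat_lit 0x80000800068786058a) (nat_lit 0) (p (nat_lit 0x8687058502) (nat_lit 0) (p (nat_lit 0x606850482) (nat_lit 0) (p (nat_lit 0x160014) (nat_lit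 0) (p (nat_lit 0x68612) (nat_lit 0) (p (nat_lit 0x50592) (nat_lit 0) (p (nat_lit 0x40512) (nat_lit 0) (p (nat_lit 0x50312) (nat_lit 0) (p (nat_lit 0x38292) (nat_lit 0) (p (nat_lit 0x28212) (nat_lit 0) (p (nat_lit 0x38112) (nat_lit 0) (p (nat_lit 0x20092) (nat_lit 0) (p (nat_lit 0x10012) (nat_lit 0) pn))))))))))))))))))))))))))) :=
  Cl.node (nat_lit 0xb0014) (nat_lit 2) (by decide +kernel) (ClAll.succ (ClAll.succ ClAll.zero s540) s541)

def n382 : Cl (O (nat_lit 3)) (R (nat_lit 143633))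
    (p (nat_lit 0x380c2) (nat_lit 1) (p (nat_lit 0x444aa) (nat_lit 7) (p (nat_lit 0x111) (nat_lit 1) (p (nat_lit 0x101) (nat_lit 0) (p (nat_lit 0xc1) (nat_lit 1) (p (nat_lit 0x119) (nat_lit 1) (p (nat_lit 0xc9) (nat_lit 0) (p (nat_lit 0x89) (nat_lit 1) (p (nat_lit 0x41) (nat_lit 0) (p (nat_lit 0x8a898a08881a) (nat_lit 0) (p (nat_lit 0xa090988079a) (nat_lit 0) (p (nat_lit 0x88088907871a) (nat_lit 0) (p (nat_lit 0x7880887069a) (nat_lit 0) (p (nat_lit 0x80000800088806860a) (nat_lit 0) (p (nat_lit 0x80000800068786058a) (nat_lit 0) (p (nat_lit 0x8687058502) (nat_lit 0) (p (nat_lit 0x606850482) (nat_lit 0) (p (nat_lit 0x160014) (nat_lit 0) (p (nat_lit 0x68612) (nat_lit 0) (p (nat_lit 0x50592) (nat_lit 0) (p (nat_lit 0x40512) (nat_lit 0) (p (nat_lit 0x50312) (nat_lit 0) (p (nat_lit 0x38292) (nat_lit 0) (p (nat_lit 0x28212) (nat_lit 0) (p (nat_lit 0x38112) (nat_lit 0) (p (nat_lit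 0x20092) (nat_lit 0) (p (nat_lit 0x10012) (nat_lit 0) pn))))))))))))))))))))))))))) :=
  Cl.node (nat_lit 0x20000c) (nat_lit 2) (by decide +kernel) (ClAll.succ (ClAll.succ ClAll.zero n332) s560)

def n383 : Cl (O (nat_lit 3)) (R (nat_lit 143633))
    (p (nat_lit 0x4c42a) (nat_lit 2) (p (nat_lit 0xc9) (nat_lit 0) (p (nat_lit 0x89) (nat_lit 1) (p (nat_lit 0xc1) (nat_lit 0) (p (nat_lit 0x101) (nat_lit 1) (p (nat_lit 0x119) (nat_lit 0) (p (nat_lit 0xd1) (nat_lit 0) (p (nat_lit 0x81) (nat_lit 0) (p (nat_lit 0x41) (nat_lit 1) (p (nat_lit 0x8a898a08881a) (nat_lit 0) (p (nat_lit 0xa090988079a) (nat_lit 0) (p (nat_lit 0x88088907871a) (nat_lit 0) (p (nat_lit 0x7880887069a) (nat_lit 0) (p (nat_lit 0x80000800088806860a) (nat_lit 0) (p (nat_lit 0x80000800068786058a) (nat_lit 0) (p (nat_lit 0x8687058502) (nat_lit 0) (p (nat_lit 0x606850482) (nat_lit 0) (p (nat_lit 0x160014) (nat_lit 0)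 (p (nat_lit 0x68612) (nat_lit 0) (p (nat_lit 0x50592) (nat_lit 0) (p (nat_lit 0x40512) (nat_lit 0) (p (nat_lit 0x50312) (nat_lit 0) (p (nat_lit 0x38292) (nat_lit 0) (p (nat_lit 0x28212) (nat_lit 0) (p (nat_lit 0x38112) (nat_lit 0) (p (nat_lit 0x20092) (nat_lit 0) (p (nat_lit 0x10012) (nat_lit 0) pn))))))))))))))))))))))))))) :=
  Cl.node (nat_lit 0x380c2) (nat_lit 2) (by decide +kernel) (ClAll.succ (ClAll.succ ClAll.zero s656) n333)

def n384 : Cl (O (nat_lit 3)) (R (nat_lit 143633))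
    (p (nat_lit 0x4c42a) (nat_lit 2) (p (nat_lit 0xc9) (nat_lit 1) (p (nat_lit 0x89) (nat_lit 1) (p (nat_lit 0xc1) (nat_lit 0) (p (nat_lit 0x101) (nat_lit 1) (p (nat_lit 0x119) (nat_lit 0) (p (nat_lit 0xd1) (nat_lit 0) (p (nat_lit 0x81) (nat_lit 0) (p (nat_lit 0x41) (nat_lit 1) (p (nat_lit 0x8a898a08881a) (nat_lit 0) (p (nat_lit 0xa090988079a) (nat_lit 0) (p (nat_lit 0x88088907871a) (nat_lit 0) (p (nat_lit 0x7880887069a) (nat_lit 0) (p (nat_lit 0x80000800088806860a) (nat_lit 0) (p (nat_lit 0x80000800068786058a) (nat_lit 0) (p (nat_lit 0x8687058502) (nat_lit 0) (p (nat_lit 0x606850482) (nat_lit 0) (p (nat_lit 0x160014) (nat_lit 0) (p (nat_lit 0x68612) (nat_lit 0) (p (nat_lit 0x50592) (nat_lit 0) (p (nat_lit 0x40512) (nat_lit 0) (p (nat_lit 0x50312) (nat_lit 0) (p (nat_lit 0x38292) (nat_lit 0) (p (nat_lit 0x28212) (nat_lit 0) (p (nat_lit 0x38112) (nat_lit 0) (p (nat_lit 0x20092)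 (nat_lit 0) (p (nat_lit 0x10012) (nat_lit 0) pn))))))))))))))))))))))))))) :=
  Cl.node (nat_lit 0x380c2) (nat_lit 2) (by decide +kernel) (ClAll.succ (ClAll.succ ClAll.zero s671) s672)

def n385 : Cl (O (nat_lit 3)) (R (nat_lit 143633))
    (p (nat_lit 0x380c2) (nat_lit 1) (p (nat_lit 0x3c4aa) (nat_lit 7) (p (nat_lit 0x89) (nat_lit 1) (p (nat_lit 0xc1) (nat_lit 1) (p (nat_lit 0x101) (nat_lit 1) (p (nat_lit 0x119) (nat_lit 0) (p (nat_lit 0xd1) (nat_lit 0) (p (nat_lit 0x81) (nat_lit 0) (p (nat_lit 0x41) (nat_lit 1) (p (nat_lit 0x8a898a08881a) (nat_lit 0) (p (nat_lit 0xa090988079a) (nat_lit 0) (p (nat_lit 0x88088907871a) (nat_lit 0) (p (nat_lit 0x7880887069a) (nat_lit 0) (p (nat_lit 0x80000800088806860a) (nat_lit 0) (p (nat_lit 0x80000800068786058a) (nat_lit 0) (p (nat_lit 0x8687058502) (nat_lit 0) (p (nat_lit 0x606850482) (nat_lit 0) (p (nat_lit 0x160014) (nat_lit 0) (p (nat_lit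 0x68612) (nat_lit 0) (p (nat_lit 0x50592) (nat_lit 0) (p (nat_lit 0x40512) (nat_lit 0) (p (nat_lit 0x50312) (nat_lit 0) (p (nat_lit 0x38292) (nat_lit 0) (p (nat_lit 0x28212) (nat_lit 0) (p (nat_lit 0x38112) (nat_lit 0) (p (nat_lit 0x20092) (nat_lit 0) (p (nat_lit 0x10012) (nat_lit 0) pn))))))))))))))))))))))))))) :=
  Cl.node (nat_lit 0x200004) (nat_lit 2) (by decide +kernel) (ClAll.succ (ClAll.succ ClAll.zero n334) s695)

def n386 : Cl (O (nat_lit 3)) (R (nat_lit 143633))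
    (p (nat_lit 0x44c2a) (nat_lit 1) (p (nat_lit 0x109) (nat_lit 0) (p (nat_lit 0x89) (nat_lit 1) (p (nat_lit 0xc9) (nat_lit 1) (p (nat_lit 0xc1) (nat_lit 0) (p (nat_lit 0x119) (nat_lit 1) (p (nat_lit 0xd1) (nat_lit 0) (p (nat_lit 0x81) (nat_lit 0) (p (nat_lit 0x41) (nat_lit 1) (p (nat_lit 0x8a898a08881a) (nat_lit 0) (p (nat_lit 0xa090988079a) (nat_lit 0) (p (nat_lit 0x88088907871a) (nat_lit 0) (p (nat_lit 0x7880887069a) (nat_lit 0) (p (nat_lit 0x80000800088806860a) (nat_lit 0) (p (nat_lit 0x80000800068786058a) (nat_lit 0) (p (nat_lit 0x8687058502) (nat_lit 0) (p (nat_lit 0x606850482) (nat_lit 0) (p (nat_lit 0x160014) (nat_lit 0) (p (nat_lit 0x68612) (nat_lit 0) (p (nat_lit 0x50592) (nat_lit 0) (p (nat_lit 0x40512) (nat_lit 0) (p (nat_lit 0x50312) (nat_lit 0) (p (nat_lit 0x38292) (nat_lit 0) (p (nat_lit 0x28212) (nat_lit 0) (p (nat_lit 0x38112) (nat_lit 0) (p (nat_lit 0x20092)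 (nat_lit 0) (p (nat_lit 0x10012) (nat_lit 0) pn))))))))))))))))))))))))))) :=
  Cl.node (nat_lit 0x380c2) (nat_lit 1) (by decide +kernel) (ClAll.succ ClAll.zero n335)

def n387 : Cl (O (nat_lit 3)) (R (nat_lit 143633))
    (p (nat_lit 0x3c4aa) (nat_lit 7) (p (nat_lit 0x109) (nat_lit 1) (p (nat_lit 0x89) (nat_lit 1) (p (nat_lit 0xc9) (nat_lit 1) (p (nat_lit 0xc1) (nat_lit 0) (p (nat_lit 0x119) (nat_lit 1) (p (nat_lit 0xd1) (nat_lit 0) (p (nat_lit 0x81) (nat_lit 0) (p (nat_lit 0x41) (nat_lit 1) (p (nat_lit 0x8a898a08881a) (nat_lit 0) (p (nat_lit 0xa090988079a) (nat_lit 0) (p (nat_lit 0x88088907871a) (nat_lit 0) (p (nat_lit 0x7880887069a) (nat_lit 0) (p (nat_lit 0x80000800088806860a) (nat_lit 0) (p (nat_lit 0x80000800068786058a) (nat_lit 0) (p (nat_lit 0x8687058502) (nat_lit 0) (p (nat_lit 0x606850482) (nat_lit 0) (p (nat_lit 0x160014) (nat_lit 0) (p (nat_lit 0x68612) (nat_lit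 0) (p (nat_lit 0x50592) (nat_lit 0) (p (nat_lit 0x40512) (nat_lit 0) (p (nat_lit 0x50312) (nat_lit 0) (p (nat_lit 0x38292) (nat_lit 0) (p (nat_lit 0x28212) (nat_lit 0) (p (nat_lit 0x38112) (nat_lit 0) (p (nat_lit 0x20092) (nat_lit 0) (p (nat_lit 0x10012) (nat_lit 0) pn))))))))))))))))))))))))))) :=
  Cl.node (nat_lit 0x380c2) (nat_lit 2) (by decide +kernel) (ClAll.succ (ClAll.succ ClAll.zero s734) n336)

def n388 : Cl (O (nat_lit 3)) (R (nat_lit 143633))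
    (p (nat_lit 0x3c4aa) (nat_lit 10) (p (nat_lit 0x109) (nat_lit 1) (p (nat_lit 0x89) (nat_lit 1) (p (nat_lit 0xc9) (nat_lit 1) (p (nat_lit 0xc1) (nat_lit 0) (p (nat_lit 0x119) (nat_lit 1) (p (nat_lit 0xd1) (nat_lit 0) (p (nat_lit 0x81) (nat_lit 0) (p (nat_lit 0x41) (nat_lit 1) (p (nat_lit 0x8a898a08881a) (nat_lit 0) (p (nat_lit 0xa090988079a) (nat_lit 0) (p (nat_lit 0x88088907871a) (nat_lit 0) (p (nat_lit 0x7880887069a) (nat_lit 0) (p (nat_lit 0x80000800088806860a) (nat_lit 0) (p (nat_lit 0x80000800068786058a) (nat_lit 0) (p (nat_lit 0x8687058502) (nat_lit 0) (p (nat_lit 0x606850482) (nat_lit 0) (p (nat_lit 0x160014) (nat_lit 0) (p (nat_lit 0x68612) (nat_lit 0) (p (nat_lit 0x50592) (nat_lit 0) (p (nat_lit 0x40512) (nat_lit 0) (p (nat_lit 0x50312) (nat_lit 0) (p (nat_lit 0x38292) (nat_lit 0) (p (nat_lit 0x28212) (nat_lit 0) (p (nat_lit 0x38112) (nat_lit 0) (p (nat_lit 0x20092)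 (nat_lit 0) (p (nat_lit 0x10012) (nat_lit 0) pn))))))))))))))))))))))))))) :=
  Cl.node (nat_lit 0x380c2) (nat_lit 2) (by decide +kernel) (ClAll.succ (ClAll.succ ClAll.zero s746) n337)

def n389 : Cl (O (nat_lit 3)) (R (nat_lit 143633))
    (p (nat_lit 0x44c2a) (nat_lit 1) (p (nat_lit 0x109) (nat_lit 0) (p (nat_lit 0x89) (nat_lit 1) (p (nat_lit 0x101) (nat_lit 0) (p (nat_lit 0xc1) (nat_lit 1) (p (nat_lit 0x119) (nat_lit 1) (p (nat_lit 0xd1) (nat_lit 0) (p (nat_lit 0x81) (nat_lit 0) (p (nat_lit 0x41) (nat_lit 1) (p (nat_lit 0x8a898a08881a) (nat_lit 0) (p (nat_lit 0xa090988079a) (nat_lit 0) (p (nat_lit 0x88088907871a) (nat_lit 0) (p (nat_lit 0x7880887069a) (nat_lit 0) (p (nat_lit 0x80000800088806860a) (nat_lit 0) (p (nat_lit 0x80000800068786058a) (nat_lit 0) (p (nat_lit 0x8687058502) (nat_lit 0) (p (nat_lit 0x606850482) (nat_lit 0) (p (nat_lit 0x160014) (nat_lit 0) (p (nat_lit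 0x68612) (nat_lit 0) (p (nat_lit 0x50592) (nat_lit 0) (p (nat_lit 0x40512) (nat_lit 0) (p (nat_lit 0x50312) (nat_lit 0) (p (nat_lit 0x38292) (nat_lit 0) (p (nat_lit 0x28212) (nat_lit 0) (p (nat_lit 0x38112) (nat_lit 0) (p (nat_lit 0x20092) (nat_lit 0) (p (nat_lit 0x10012) (nat_lit 0) pn))))))))))))))))))))))))))) :=
  Cl.node (nat_lit 0x380c2) (nat_lit 1) (by decide +kernel) (ClAll.succ ClAll.zero n338)

def n390 : Cl (O (nat_lit 3)) (R (nat_lit 143633))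
    (p (nat_lit 0x3c4aa) (nat_lit 7) (p (nat_lit 0x109) (nat_lit 1) (p (nat_lit 0x89) (nat_lit 1) (p (nat_lit 0x101) (nat_lit 0) (p (nat_lit 0xc1) (nat_lit 1) (p (nat_lit 0x119) (nat_lit 1) (p (nat_lit 0xd1) (nat_lit 0) (p (nat_lit 0x81) (nat_lit 0) (p (nat_lit 0x41) (nat_lit 1) (p (nat_lit 0x8a898a08881a) (nat_lit 0) (p (nat_lit 0xa090988079a) (nat_lit 0) (p (nat_lit 0x88088907871a) (nat_lit 0) (p (nat_lit 0x7880887069a) (nat_lit 0) (p (nat_lit 0x80000800088806860a) (nat_lit 0) (p (nat_lit 0x80000800068786058a) (nat_lit 0) (p (nat_lit 0x8687058502) (nat_lit 0) (p (nat_lit 0x606850482) (nat_lit 0) (p (nat_lit 0x160014) (nat_lit 0) (p (nat_lit 0x68612) (nat_lit 0) (p (nat_lit 0x50592) (nat_lit 0) (p (nat_lit 0x40512) (nat_lit 0) (p (nat_lit 0x50312) (nat_lit 0) (p (nat_lit 0x38292) (nat_lit 0) (p (nat_lit 0x28212) (nat_lit 0) (p (nat_lit 0x38112) (nat_lit 0) (p (nat_lit 0x20092)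 (nat_lit 0) (p (nat_lit 0x10012) (nat_lit 0) pn))))))))))))))))))))))))))) :=
  Cl.node (nat_lit 0x380c2) (nat_lit 2) (by decide +kernel) (ClAll.succ (ClAll.succ ClAll.zero n339) n340)

def n391 : Cl (O (nat_lit 3)) (R (nat_lit 143633))
    (p (nat_lit 0x3c4aa) (nat_lit 10) (p (nat_lit 0x109) (nat_lit 1) (p (nat_lit 0x89) (nat_lit 1) (p (nat_lit 0x101) (nat_lit 0) (p (nat_lit 0xc1) (nat_lit 1) (p (nat_lit 0x119) (nat_lit 1) (p (nat_lit 0xd1) (nat_lit 0) (p (nat_lit 0x81) (nat_lit 0) (p (nat_lit 0x41) (nat_lit 1) (p (nat_lit 0x8a898a08881a) (nat_lit 0) (p (nat_lit 0xa090988079a) (nat_lit 0) (p (nat_lit 0x88088907871a) (nat_lit 0) (p (nat_lit 0x7880887069a) (nat_lit 0) (p (nat_lit 0x80000800088806860a) (nat_lit 0) (p (nat_lit 0x80000800068786058a) (nat_lit 0) (p (nat_lit 0x8687058502) (nat_lit 0) (p (nat_lit 0x606850482) (nat_lit 0) (p (nat_lit 0x160014) (nat_lit 0) (p (nat_lit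 0x68612) (nat_lit 0) (p (nat_lit 0x50592) (nat_lit 0) (p (nat_lit 0x40512) (nat_lit 0) (p (nat_lit 0x50312) (nat_lit 0) (p (nat_lit 0x38292) (nat_lit 0) (p (nat_lit 0x28212) (nat_lit 0) (p (nat_lit 0x38112) (nat_lit 0) (p (nat_lit 0x20092) (nat_lit 0) (p (nat_lit 0x10012) (nat_lit 0) pn))))))))))))))))))))))))))) :=
  Cl.node (nat_lit 0x380c2) (nat_lit 2) (by decide +kernel) (ClAll.succ (ClAll.succ ClAll.zero n341) n342)

def n392 : Cl (O (nat_lit 3)) (R (nat_lit 143633))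
    (p (nat_lit 0x380c2) (nat_lit 0) (p (nat_lit 0x3c4aa) (nat_lit 7) (p (nat_lit 0x89) (nat_lit 1) (p (nat_lit 0x101) (nat_lit 1) (p (nat_lit 0xc1) (nat_lit 1) (p (nat_lit 0x119) (nat_lit 1) (p (nat_lit 0xd1) (nat_lit 0) (p (nat_lit 0x81) (nat_lit 0) (p (nat_lit 0x41) (nat_lit 1) (p (nat_lit 0x8a898a08881a) (nat_lit 0) (p (nat_lit 0xa090988079a) (nat_lit 0) (p (nat_lit 0x88088907871a) (nat_lit 0) (p (nat_lit 0x7880887069a) (nat_lit 0) (p (nat_lit 0x80000800088806860a) (nat_lit 0) (p (nat_lit 0x80000800068786058a) (nat_lit 0) (p (nat_lit 0x8687058502) (nat_lit 0) (p (nat_lit 0x606850482) (nat_lit 0) (p (nat_lit 0x160014) (nat_lit 0) (p (nat_lit 0x68612) (nat_lit 0) (p (nat_lit 0x50592) (nat_lit 0) (p (nat_lit 0x40512) (nat_lit 0) (p (nat_lit 0x50312) (nat_lit 0) (p (nat_lit 0x38292) (nat_lit 0) (p (nat_lit 0x28212) (nat_lit 0) (p (nat_lit 0x38112) (nat_lit 0) (p (nat_lit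 0x20092) (nat_lit 0) (p (nat_lit 0x10012) (nat_lit 0) pn))))))))))))))))))))))))))) :=
  Cl.node (nat_lit 0x200004) (nat_lit 2) (by decide +kernel) (ClAll.succ (ClAll.succ ClAll.zero n343) s849)

def n393 : Cl (O (nat_lit 3)) (R (nat_lit 143633))
    (p (nat_lit 0x380c2) (nat_lit 1) (p (nat_lit 0x3c4aa) (nat_lit 7) (p (nat_lit 0x89) (nat_lit 1) (p (nat_lit 0x101) (nat_lit 1) (p (nat_lit 0xc1) (nat_lit 1) (p (nat_lit 0x119) (nat_lit 1) (p (nat_lit 0xd1) (nat_lit 0) (p (nat_lit 0x81) (nat_lit 0) (p (nat_lit 0x41) (nat_lit 1) (p (nat_lit 0x8a898a08881a) (nat_lit 0) (p (nat_lit 0xa090988079a) (nat_lit 0) (p (nat_lit 0x88088907871a) (nat_lit 0) (p (nat_lit 0x7880887069a) (nat_lit 0) (p (nat_lit 0x80000800088806860a) (nat_lit 0) (p (nat_lit 0x80000800068786058a) (nat_lit 0) (p (nat_lit 0x8687058502) (nat_lit 0) (p (nat_lit 0x606850482) (nat_lit 0) (p (nat_lit 0x160014) (nat_lit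 0) (p (nat_lit 0x68612) (nat_lit 0) (p (nat_lit 0x50592) (nat_lit 0) (p (nat_lit 0x40512) (nat_lit 0) (p (nat_lit 0x50312) (nat_lit 0) (p (nat_lit 0x38292) (nat_lit 0) (p (nat_lit 0x28212) (nat_lit 0) (p (nat_lit 0x38112) (nat_lit 0) (p (nat_lit 0x20092) (nat_lit 0) (p (nat_lit 0x10012) (nat_lit 0) pn))))))))))))))))))))))))))) :=
  Cl.node (nat_lit 0x200004) (nat_lit 2) (by decide +kernel) (ClAll.succ (ClAll.succ ClAll.zero n344) s855)

def n394 : Cl (O (nat_lit 3)) (R (nat_lit 143633))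
    (p (nat_lit 0x380c2) (nat_lit 1) (p (nat_lit 0x3c4aa) (nat_lit 10) (p (nat_lit 0x89) (nat_lit 1) (p (nat_lit 0x101) (nat_lit 1) (p (nat_lit 0xc1) (nat_lit 1) (p (nat_lit 0x119) (nat_lit 1) (p (nat_lit 0xd1) (nat_lit 0) (p (nat_lit 0x81) (nat_lit 0) (p (nat_lit 0x41) (nat_lit 1) (p (nat_lit 0x8a898a08881a) (nat_lit 0) (p (nat_lit 0xa090988079a) (nat_lit 0) (p (nat_lit 0x88088907871a) (nat_lit 0) (p (nat_lit 0x7880887069a) (nat_lit 0) (p (nat_lit 0x80000800088806860a) (nat_lit 0) (p (nat_lit 0x80000800068786058a) (nat_lit 0) (p (nat_lit 0x8687058502) (nat_lit 0) (p (nat_lit 0x606850482) (nat_lit 0) (p (nat_lit 0x160014) (nat_lit 0) (p (nat_lit 0x68612) (nat_lit 0) (p (nat_lit 0x50592) (nat_lit 0) (p (nat_lit 0x40512) (nat_lit 0) (p (nat_lit 0x50312) (nat_lit 0) (p (nat_lit 0x38292) (nat_lit 0) (p (nat_lit 0x28212) (nat_lit 0) (p (nat_lit 0x38112) (nat_lit 0) (p (nat_lit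 0x20092) (nat_lit 0) (p (nat_lit 0x10012) (nat_lit 0) pn))))))))))))))))))))))))))) :=
  Cl.node (nat_lit 0x200004) (nat_lit 2) (by decide +kernel) (ClAll.succ (ClAll.succ ClAll.zero n345) s864)

def n395 : Cl (O (nat_lit 3)) (R (nat_lit 143633))
    (p (nat_lit 0x119) (nat_lit 0) (p (nat_lit 0xc9) (nat_lit 0) (p (nat_lit 0x89) (nat_lit 1) (p (nat_lit 0x109) (nat_lit 1) (p (nat_lit 0x101) (nat_lit 0) (p (nat_lit 0x111) (nat_lit 0) (p (nat_lit 0xd1) (nat_lit 1) (p (nat_lit 0x81) (nat_lit 0) (p (nat_lit 0x41) (nat_lit 1) (p (nat_lit 0x8a898a08881a) (nat_lit 0) (p (nat_lit 0xa090988079a) (nat_lit 0) (p (nat_lit 0x88088907871a) (nat_lit 0) (p (nat_lit 0x7880887069a) (nat_lit 0) (p (nat_lit 0x80000800088806860a) (nat_lit 0) (p (nat_lit 0x80000800068786058a) (nat_lit 0) (p (nat_lit 0x8687058502) (nat_lit 0) (p (nat_lit 0x606850482) (nat_lit 0) (p (nat_lit 0x160014) (nat_lit 0)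 (p (nat_lit 0x68612) (nat_lit 0) (p (nat_lit 0x50592) (nat_lit 0) (p (nat_lit 0x40512) (nat_lit 0) (p (nat_lit 0x50312) (nat_lit 0) (p (nat_lit 0x38292) (nat_lit 0) (p (nat_lit 0x28212) (nat_lit 0) (p (nat_lit 0x38112) (nat_lit 0) (p (nat_lit 0x20092) (nat_lit 0) (p (nat_lit 0x10012) (nat_lit 0) pn))))))))))))))))))))))))))) :=
  Cl.node (nat_lit 0x4c42a) (nat_lit 12) (by decide +kernel) (ClAll.succ (ClAll.succ (ClAll.succ (ClAll.succ (ClAll.succ (ClAll.succ (ClAll.succ (ClAll.succ (ClAll.succ (ClAll.succ (ClAll.succ (ClAll.succ ClAll.zero s868) s869) s870) s871) s872) s873) s874) s875) s876) s877) s878) s879)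

def n396 : Cl (O (nat_lit 3)) (R (nat_lit 143633))
    (p (nat_lit 0x3c4aa) (nat_lit 7) (p (nat_lit 0xd1) (nat_lit 1) (p (nat_lit 0x111) (nat_lit 1) (p (nat_lit 0x109) (nat_lit 0) (p (nat_lit 0x101) (nat_lit 0) (p (nat_lit 0x119) (nat_lit 0) (p (nat_lit 0xc1) (nat_lit 0) (p (nat_lit 0x81) (nat_lit 1) (p (nat_lit 0x41) (nat_lit 1) (p (nat_lit 0x8a898a08881a) (nat_lit 0) (p (nat_lit 0xa090988079a) (nat_lit 0) (p (nat_lit 0x88088907871a) (nat_lit 0) (p (nat_lit 0x7880887069a) (nat_lit 0) (p (nat_lit 0x80000800088806860a) (nat_lit 0) (p (nat_lit 0x80000800068786058a) (nat_lit 0) (p (nat_lit 0x8687058502) (nat_lit 0) (p (nat_lit 0x606850482) (nat_lit 0) (p (nat_lit 0x160014) (nat_lit 0) (p (nat_lit 0x68612) (nat_lit 0) (p (nat_lit 0x50592) (nat_lit 0) (p (nat_lit 0x40512) (nat_lit 0) (p (nat_lit 0x50312) (nat_lit 0) (p (nat_lit 0x38292) (nat_lit 0) (p (nat_lit 0x28212) (nat_lit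 0) (p (nat_lit 0x38112) (nat_lit 0) (p (nat_lit 0x20092) (nat_lit 0) (p (nat_lit 0x10012) (nat_lit 0) pn))))))))))))))))))))))))))) :=
  Cl.node (nat_lit 0x380c2) (nat_lit 2) (by decide +kernel) (ClAll.succ (ClAll.succ ClAll.zero n346) n347)

def n397 : Cl (O (nat_lit 3)) (R (nat_lit 143633))
    (p (nat_lit 0x3c4aa) (nat_lit 7) (p (nat_lit 0xd1) (nat_lit 1) (p (nat_lit 0xc9) (nat_lit 0) (p (nat_lit 0x109) (nat_lit 1) (p (nat_lit 0x101) (nat_lit 0) (p (nat_lit 0x119) (nat_lit 0) (p (nat_lit 0xc1) (nat_lit 0) (p (nat_lit 0x81) (nat_lit 1) (p (nat_lit 0x41) (nat_lit 1) (p (nat_lit 0x8a898a08881a) (nat_lit 0) (p (nat_lit 0xa090988079a) (nat_lit 0) (p (nat_lit 0x88088907871a) (nat_lit 0) (p (nat_lit 0x7880887069a) (nat_lit 0) (p (nat_lit 0x80000800088806860a) (nat_lit 0) (p (nat_lit 0x80000800068786058a) (nat_lit 0) (p (nat_lit 0x8687058502) (nat_lit 0) (p (nat_lit 0x606850482)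 (nat_lit 0) (p (nat_lit 0x160014) (nat_lit 0) (p (nat_lit 0x68612) (nat_lit 0) (p (nat_lit 0x50592) (nat_lit 0) (p (nat_lit 0x40512) (nat_lit 0) (p (nat_lit 0x50312) (nat_lit 0) (p (nat_lit 0x38292) (nat_lit 0) (p (nat_lit 0x28212) (nat_lit 0) (p (nat_lit 0x38112) (nat_lit 0) (p (nat_lit 0x20092) (nat_lit 0) (p (nat_lit 0x10012) (nat_lit 0) pn))))))))))))))))))))))))))) :=
  Cl.node (nat_lit 0x380c2) (nat_lit 2) (by decide +kernel) (ClAll.succ (ClAll.succ ClAll.zero n348) n349)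

def n398 : Cl (O (nat_lit 3)) (R (nat_lit 143633))
    (p (nat_lit 0x380c2) (nat_lit 0) (p (nat_lit 0x44c2a) (nat_lit 0) (p (nat_lit 0xd1) (nat_lit 0) (p (nat_lit 0xc9) (nat_lit 0) (p (nat_lit 0x101) (nat_lit 1) (p (nat_lit 0x119) (nat_lit 0) (p (nat_lit 0xc1) (nat_lit 0) (p (nat_lit 0x81) (nat_lit 1) (p (nat_lit 0x41) (nat_lit 1) (p (nat_lit 0x8a898a08881a) (nat_lit 0) (p (nat_lit 0xa090988079a) (nat_lit 0) (p (nat_lit 0x88088907871a) (nat_lit 0) (p (nat_lit 0x7880887069a) (nat_lit 0) (p (nat_lit 0x80000800088806860a) (nat_lit 0) (p (nat_lit 0x80000800068786058a) (nat_lit 0) (p (nat_lit 0x8687058502) (nat_lit 0) (p (nat_lit 0x606850482) (nat_lit 0) (p (nat_lit 0x160014) (nat_lit 0) (p (nat_lit 0x68612) (nat_lit 0) (p (nat_lit 0x50592) (nat_lit 0) (p (nat_lit 0x40512) (nat_lit 0) (p (nat_lit 0x50312) (nat_lit 0) (p (nat_lit 0x38292) (nat_lit 0) (p (nat_lit 0x28212) (nat_lit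 0) (p (nat_lit 0x38112) (nat_lit 0) (p (nat_lit 0x20092) (nat_lit 0) (p (nat_lit 0x10012) (nat_lit 0) pn))))))))))))))))))))))))))) :=
  Cl.node (nat_lit 0xb0014) (nat_lit 2) (by decide +kernel) (ClAll.succ (ClAll.succ ClAll.zero s1009) s1010)

def n399 : Cl (O (nat_lit 3)) (R (nat_lit 143633))
    (p (nat_lit 0x380c2) (nat_lit 0) (p (nat_lit 0x3c4aa) (nat_lit 7) (p (nat_lit 0xd1) (nat_lit 1) (p (nat_lit 0xc9) (nat_lit 0) (p (nat_lit 0x101) (nat_lit 1) (p (nat_lit 0x119) (nat_lit 0) (p (nat_lit 0xc1) (nat_lit 0) (p (nat_lit 0x81) (nat_lit 1) (p (nat_lit 0x41) (nat_lit 1) (p (nat_lit 0x8a898a08881a) (nat_lit 0) (p (nat_lit 0xa090988079a) (nat_lit 0) (p (nat_lit 0x88088907871a) (nat_lit 0) (p (nat_lit 0x7880887069a) (nat_lit 0) (p (nat_lit 0x80000800088806860a) (nat_lit 0) (p (nat_lit 0x80000800068786058a) (nat_lit 0) (p (nat_lit 0x8687058502) (nat_lit 0) (p (nat_lit 0x606850482)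 (nat_lit 0) (p (nat_lit 0x160014) (nat_lit 0) (p (nat_lit 0x68612) (nat_lit 0) (p (nat_lit 0x50592) (nat_lit 0) (p (nat_lit 0x40512) (nat_lit 0) (p (nat_lit 0x50312) (nat_lit 0) (p (nat_lit 0x38292) (nat_lit 0) (p (nat_lit 0x28212) (nat_lit 0) (p (nat_lit 0x38112) (nat_lit 0) (p (nat_lit 0x20092) (nat_lit 0) (p (nat_lit 0x10012) (nat_lit 0) pn))))))))))))))))))))))))))) :=
  Cl.node (nat_lit 0x20000c) (nat_lit 2) (by decide +kernel) (ClAll.succ (ClAll.succ ClAll.zero n350) s1045)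

def n400 : Cl (O (nat_lit 3)) (R (nat_lit 143633))
    (p (nat_lit 0x380c2) (nat_lit 1) (p (nat_lit 0x3c4aa) (nat_lit 7) (p (nat_lit 0xd1) (nat_lit 1) (p (nat_lit 0xc9) (nat_lit 0) (p (nat_lit 0x101) (nat_lit 1) (p (nat_lit 0x119) (nat_lit 0) (p (nat_lit 0xc1) (nat_lit 0) (p (nat_lit 0x81) (nat_lit 1) (p (nat_lit 0x41) (nat_lit 1) (p (nat_lit 0x8a898a08881a) (nat_lit 0) (p (nat_lit 0xa090988079a) (nat_lit 0) (p (nat_lit 0x88088907871a) (nat_lit 0) (p (nat_lit 0x7880887069a) (nat_lit 0) (p (nat_lit 0x80000800088806860a) (nat_lit 0) (p (nat_lit 0x80000800068786058a) (nat_lit 0) (p (nat_lit 0x8687058502) (nat_lit 0) (p (nat_lit 0x606850482) (nat_lit 0) (p (nat_lit 0x160014) (nat_lit 0) (p (nat_lit 0x68612) (nat_lit 0) (p (nat_lit 0x50592) (nat_lit 0) (p (nat_lit 0x40512) (nat_lit 0) (p (nat_lit 0x50312) (nat_lit 0) (p (nat_lit 0x38292) (nat_lit 0) (p (nat_lit 0x28212) (nat_lit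 0) (p (nat_lit 0x38112) (nat_lit 0) (p (nat_lit 0x20092) (nat_lit 0) (p (nat_lit 0x10012) (nat_lit 0) pn))))))))))))))))))))))))))) :=
  Cl.node (nat_lit 0x200004) (nat_lit 2) (by decide +kernel) (ClAll.succ (ClAll.succ ClAll.zero n351) s1062)

def n401 : Cl (O (nat_lit 3)) (R (nat_lit 143633))
    (p (nat_lit 0x380c2) (nat_lit 0) (p (nat_lit 0x3c4aa) (nat_lit 7) (p (nat_lit 0x111) (nat_lit 1) (p (nat_lit 0xd1) (nat_lit 1) (p (nat_lit 0xc9) (nat_lit 0) (p (nat_lit 0x119) (nat_lit 1) (p (nat_lit 0xc1) (nat_lit 0) (p (nat_lit 0x81) (nat_lit 1) (p (nat_lit 0x41) (nat_lit 1) (p (nat_lit 0x8a898a08881a) (nat_lit 0) (p (nat_lit 0xa090988079a) (nat_lit 0) (p (nat_lit 0x88088907871a) (nat_lit 0) (p (nat_lit 0x7880887069a) (nat_lit 0) (p (nat_lit 0x80000800088806860a) (nat_lit 0) (p (nat_lit 0x80000800068786058a) (nat_lit 0) (p (nat_lit 0x8687058502) (nat_lit 0) (p (nat_lit 0x606850482)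 (nat_lit 0) (p (nat_lit 0x160014) (nat_lit 0) (p (nat_lit 0x68612) (nat_lit 0) (p (nat_lit 0x50592) (nat_lit 0) (p (nat_lit 0x40512) (nat_lit 0) (p (nat_lit 0x50312) (nat_lit 0) (p (nat_lit 0x38292) (nat_lit 0) (p (nat_lit 0x28212) (nat_lit 0) (p (nat_lit 0x38112) (nat_lit 0) (p (nat_lit 0x20092) (nat_lit 0) (p (nat_lit 0x10012) (nat_lit 0) pn))))))))))))))))))))))))))) :=
  Cl.node (nat_lit 0x200004) (nat_lit 2) (by decide +kernel) (ClAll.succ (ClAll.succ ClAll.zero n352) s1082)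

def n402 : Cl (O (nat_lit 3)) (R (nat_lit 143633))
    (p (nat_lit 0x380c2) (nat_lit 1) (p (nat_lit 0x3c4aa) (nat_lit 7) (p (nat_lit 0x111) (nat_lit 1) (p (nat_lit 0xd1) (nat_lit 1) (p (nat_lit 0xc9) (nat_lit 0) (p (nat_lit 0x119) (nat_lit 1) (p (nat_lit 0xc1) (nat_lit 0) (p (nat_lit 0x81) (nat_lit 1) (p (nat_lit 0x41) (nat_lit 1) (p (nat_lit 0x8a898a08881a) (nat_lit 0) (p (nat_lit 0xa090988079a) (nat_lit 0) (p (nat_lit 0x88088907871a) (nat_lit 0) (p (nat_lit 0x7880887069a) (nat_lit 0) (p (nat_lit 0x80000800088806860a) (nat_lit 0) (p (nat_lit 0x80000800068786058a) (nat_lit 0) (p (nat_lit 0x8687058502) (nat_lit 0) (p (nat_lit 0x606850482) (nat_lit 0) (p (nat_lit 0x160014) (nat_lit 0) (p (nat_lit 0x68612) (nat_lit 0) (p (nat_lit 0x50592) (nat_lit 0) (p (nat_lit 0x40512) (nat_lit 0) (p (nat_lit 0x50312) (nat_lit 0) (p (nat_lit 0x38292) (nat_lit 0) (p (nat_lit 0x28212) (nat_lit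 0) (p (nat_lit 0x38112) (nat_lit 0) (p (nat_lit 0x20092) (nat_lit 0) (p (nat_lit 0x10012) (nat_lit 0) pn))))))))))))))))))))))))))) :=
  Cl.node (nat_lit 0xb0014) (nat_lit 2) (by decide +kernel) (ClAll.succ (ClAll.succ ClAll.zero n353) n354)

def n403 : Cl (O (nat_lit 3)) (R (nat_lit 143633))
    (p (nat_lit 0x380c2) (nat_lit 0) (p (nat_lit 0x3c4aa) (nat_lit 7) (p (nat_lit 0x111) (nat_lit 1) (p (nat_lit 0x109) (nat_lit 0) (p (nat_lit 0xc9) (nat_lit 1) (p (nat_lit 0x119) (nat_lit 1) (p (nat_lit 0xc1) (nat_lit 0) (p (nat_lit 0x81) (nat_lit 1) (p (nat_lit 0x41) (nat_lit 1) (p (nat_lit 0x8a898a08881a) (nat_lit 0) (p (nat_lit 0xa090988079a) (nat_lit 0) (p (nat_lit 0x88088907871a) (nat_lit 0) (p (nat_lit 0x7880887069a) (nat_lit 0) (p (nat_lit 0x80000800088806860a) (nat_lit 0) (p (nat_lit 0x80000800068786058a) (nat_lit 0) (p (nat_lit 0x8687058502) (nat_lit 0) (p (nat_lit 0x606850482)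 (nat_lit 0) (p (nat_lit 0x160014) (nat_lit 0) (p (nat_lit 0x68612) (nat_lit 0) (p (nat_lit 0x50592) (nat_lit 0) (p (nat_lit 0x40512) (nat_lit 0) (p (nat_lit 0x50312) (nat_lit 0) (p (nat_lit 0x38292) (nat_lit 0) (p (nat_lit 0x28212) (nat_lit 0) (p (nat_lit 0x38112) (nat_lit 0) (p (nat_lit 0x20092) (nat_lit 0) (p (nat_lit 0x10012) (nat_lit 0) pn))))))))))))))))))))))))))) :=
  Cl.node (nat_lit 0x20000c) (nat_lit 2) (by decide +kernel) (ClAll.succ (ClAll.succ ClAll.zero n355) s1124)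

def n404 : Cl (O (nat_lit 3)) (R (nat_lit 143633))
    (p (nat_lit 0x380c2) (nat_lit 1) (p (nat_lit 0x3c4aa) (nat_lit 7) (p (nat_lit 0x111) (nat_lit 1) (p (nat_lit 0x109) (nat_lit 0) (p (nat_lit 0xc9) (nat_lit 1) (p (nat_lit 0x119) (nat_lit 1) (p (nat_lit 0xc1) (nat_lit 0) (p (nat_lit 0x81) (nat_lit 1) (p (nat_lit 0x41) (nat_lit 1) (p (nat_lit 0x8a898a08881a) (nat_lit 0) (p (nat_lit 0xa090988079a) (nat_lit 0) (p (nat_lit 0x88088907871a) (nat_lit 0) (p (nat_lit 0x7880887069a) (nat_lit 0) (p (nat_lit 0x80000800088806860a) (nat_lit 0) (p (nat_lit 0x80000800068786058a) (nat_lit 0) (p (nat_lit 0x8687058502) (nat_lit 0) (p (nat_lit 0x606850482) (nat_lit 0) (p (nat_lit 0x160014) (nat_lit 0) (p (nat_lit 0x68612) (nat_lit 0) (p (nat_lit 0x50592) (nat_lit 0) (p (nat_lit 0x40512) (nat_lit 0) (p (nat_lit 0x50312) (nat_lit 0) (p (nat_lit 0x38292) (nat_lit 0) (p (nat_lit 0x28212) (nat_lit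 0) (p (nat_lit 0x38112) (nat_lit 0) (p (nat_lit 0x20092) (nat_lit 0) (p (nat_lit 0x10012) (nat_lit 0) pn))))))))))))))))))))))))))) :=
  Cl.node (nat_lit 0xb0014) (nat_lit 2) (by decide +kernel) (ClAll.succ (ClAll.succ ClAll.zero n356) n357)

def n405 : Cl (O (nat_lit 3)) (R (nat_lit 143633))
    (p (nat_lit 0x380c2) (nat_lit 0) (p (nat_lit 0x3c4aa) (nat_lit 10) (p (nat_lit 0x111) (nat_lit 1) (p (nat_lit 0x109) (nat_lit 0) (p (nat_lit 0xc9) (nat_lit 1) (p (nat_lit 0x119) (nat_lit 1) (p (nat_lit 0xc1) (nat_lit 0) (p (nat_lit 0x81) (nat_lit 1) (p (nat_lit 0x41) (nat_lit 1) (p (nat_lit 0x8a898a08881a) (nat_lit 0) (p (nat_lit 0xa090988079a) (nat_lit 0) (p (nat_lit 0x88088907871a) (nat_lit 0) (p (nat_lit 0x7880887069a) (nat_lit 0) (p (nat_lit 0x80000800088806860a) (nat_lit 0) (p (nat_lit 0x80000800068786058a) (nat_lit 0) (p (nat_lit 0x8687058502) (nat_lit 0) (p (nat_lit 0x606850482)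 (nat_lit 0) (p (nat_lit 0x160014) (nat_lit 0) (p (nat_lit 0x68612) (nat_lit 0) (p (nat_lit 0x50592) (nat_lit 0) (p (nat_lit 0x40512) (nat_lit 0) (p (nat_lit 0x50312) (nat_lit 0) (p (nat_lit 0x38292) (nat_lit 0) (p (nat_lit 0x28212) (nat_lit 0) (p (nat_lit 0x38112) (nat_lit 0) (p (nat_lit 0x20092) (nat_lit 0) (p (nat_lit 0x10012) (nat_lit 0) pn))))))))))))))))))))))))))) :=
  Cl.node (nat_lit 0x200004) (nat_lit 2) (by decide +kernel) (ClAll.succ (ClAll.succ ClAll.zero n358) s1141)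

def n406 : Cl (O (nat_lit 3)) (R (nat_lit 143633))
    (p (nat_lit 0x380c2) (nat_lit 1) (p (nat_lit 0x3c4aa) (nat_lit 7) (p (nat_lit 0x119) (nat_lit 1) (p (nat_lit 0x111) (nat_lit 0) (p (nat_lit 0x109) (nat_lit 0) (p (nat_lit 0x101) (nat_lit 0) (p (nat_lit 0xc1) (nat_lit 1) (p (nat_lit 0x81) (nat_lit 1) (p (nat_lit 0x41) (nat_lit 1) (p (nat_lit 0x8a898a08881a) (nat_lit 0) (p (nat_lit 0xa090988079a) (nat_lit 0) (p (nat_lit 0x88088907871a) (nat_lit 0) (p (nat_lit 0x7880887069a) (nat_lit 0) (p (nat_lit 0x80000800088806860a) (nat_lit 0) (p (nat_lit 0x80000800068786058a) (nat_lit 0) (p (nat_lit 0x8687058502) (nat_lit 0) (p (nat_lit 0x606850482) (nat_lit 0) (p (nat_lit 0x160014) (nat_lit 0) (p (nat_lit 0x68612) (nat_lit 0) (p (nat_lit 0x50592) (nat_lit 0) (p (nat_lit 0x40512) (nat_lit 0) (p (nat_lit 0x50312) (nat_lit 0) (p (nat_lit 0x38292) (nat_lit 0) (p (nat_lit 0x28212) (nat_lit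 0) (p (nat_lit 0x38112) (nat_lit 0) (p (nat_lit 0x20092) (nat_lit 0) (p (nat_lit 0x10012) (nat_lit 0) pn))))))))))))))))))))))))))) :=
  Cl.node (nat_lit 0x200004) (nat_lit 2) (by decide +kernel) (ClAll.succ (ClAll.succ ClAll.zero n359) s1168)

def n407 : Cl (O (nat_lit 3)) (R (nat_lit 143633))
    (p (nat_lit 0x81) (nat_lit 1) (p (nat_lit 0xc9) (nat_lit 1) (p (nat_lit 0x109) (nat_lit 1) (p (nat_lit 0x101) (nat_lit 0) (p (nat_lit 0x119) (nat_lit 0) (p (nat_lit 0xd1) (nat_lit 0) (p (nat_lit 0x89) (nat_lit 0) (p (nat_lit 0x41) (nat_lit 0) (p (nat_lit 0x8a898a08881a) (nat_lit 0) (p (nat_lit 0xa090988079a) (nat_lit 0) (p (nat_lit 0x88088907871a) (nat_lit 0) (p (nat_lit 0x7880887069a) (nat_lit 0) (p (nat_lit 0x80000800088806860a) (nat_lit 0) (p (nat_lit 0x80000800068786058a) (nat_lit 0) (p (nat_lit 0x8687058502) (nat_lit 0) (p (nat_lit 0x606850482) (nat_lit 0) (p (nat_lit 0x160014)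 (nat_lit 0) (p (nat_lit 0x68612) (nat_lit 0) (p (nat_lit 0x50592) (nat_lit 0) (p (nat_lit 0x40512) (nat_lit 0) (p (nat_lit 0x50312) (nat_lit 0) (p (nat_lit 0x38292) (nat_lit 0) (p (nat_lit 0x28212) (nat_lit 0) (p (nat_lit 0x38112) (nat_lit 0) (p (nat_lit 0x20092) (nat_lit 0) (p (nat_lit 0x10012) (nat_lit 0) pn)))))))))))))))))))))))))) :=
  Cl.node (nat_lit 0x444aa) (nat_lit 12) (by decide +kernel) (ClAll.succ (ClAll.succ (ClAll.succ (ClAll.succ (ClAll.succ (ClAll.succ (ClAll.succ (ClAll.succ (ClAll.succ (ClAll.succ (ClAll.succ (ClAll.succ ClAll.zero s3) s4) s5) s6) s7) s8) s9) n360) s29) s30) s31) s32)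

def n408 : Cl (O (nat_lit 3)) (R (nat_lit 143633))
    (p (nat_lit 0x111) (nat_lit 0) (p (nat_lit 0xc9) (nat_lit 0) (p (nat_lit 0x81) (nat_lit 0) (p (nat_lit 0x101) (nat_lit 1) (p (nat_lit 0x119) (nat_lit 0) (p (nat_lit 0xd1) (nat_lit 0) (p (nat_lit 0x89) (nat_lit 0) (p (nat_lit 0x41) (nat_lit 0) (p (nat_lit 0x8a898a08881a) (nat_lit 0) (p (nat_lit 0xa090988079a) (nat_lit 0) (p (nat_lit 0x88088907871a) (nat_lit 0) (p (nat_lit 0x7880887069a) (nat_lit 0) (p (nat_lit 0x80000800088806860a) (nat_lit 0) (p (nat_lit 0x80000800068786058a) (nat_lit 0) (p (nat_lit 0x8687058502) (nat_lit 0) (p (nat_lit 0x606850482) (nat_lit 0) (p (nat_lit 0x160014) (nat_lit 0) (p (nat_lit 0x68612) (nat_lit 0) (p (nat_lit 0x50592) (nat_lit 0) (p (nat_lit 0x40512) (nat_lit 0) (p (nat_lit 0x50312) (nat_lit 0) (p (nat_lit 0x38292) (nat_lit 0) (p (nat_lit 0x28212) (nat_lit 0) (p (nat_lit 0x38112) (nat_lit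 0) (p (nat_lit 0x20092) (nat_lit 0) (p (nat_lit 0x10012) (nat_lit 0) pn)))))))))))))))))))))))))) :=
  Cl.node (nat_lit 0x4c42a) (nat_lit 12) (by decide +kernel) (ClAll.succ (ClAll.succ (ClAll.succ (ClAll.succ (ClAll.succ (ClAll.succ (ClAll.succ (ClAll.succ (ClAll.succ (ClAll.succ (ClAll.succ (ClAll.succ ClAll.zero s33) s34) s35) s36) s37) s38) s39) s40) s41) s42) s43) s44)

def n409 : Cl (O (nat_lit 3)) (R (nat_lit 143633))
    (p (nat_lit 0x111) (nat_lit 0) (p (nat_lit 0xc9) (nat_lit 1) (p (nat_lit 0x81) (nat_lit 0) (p (nat_lit 0x101) (nat_lit 1) (p (nat_lit 0x119) (nat_lit 0) (p (nat_lit 0xd1) (nat_lit 0) (p (nat_lit 0x89) (nat_lit 0) (p (nat_lit 0x41) (nat_lit 0) (p (nat_lit 0x8a898a08881a) (nat_lit 0) (p (nat_lit 0xa090988079a) (nat_lit 0) (p (nat_lit 0x88088907871a) (nat_lit 0) (p (nat_lit 0x7880887069a) (nat_lit 0) (p (nat_lit 0x80000800088806860a) (nat_lit 0) (p (nat_lit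 0x80000800068786058a) (nat_lit 0) (p (nat_lit 0x8687058502) (nat_lit 0) (p (nat_lit 0x606850482) (nat_lit 0) (p (nat_lit 0x160014) (nat_lit 0) (p (nat_lit 0x68612) (nat_lit 0) (p (nat_lit 0x50592) (nat_lit 0) (p (nat_lit 0x40512) (nat_lit 0) (p (nat_lit 0x50312) (nat_lit 0) (p (nat_lit 0x38292) (nat_lit 0) (p (nat_lit 0x28212) (nat_lit 0) (p (nat_lit 0x38112) (nat_lit 0) (p (nat_lit 0x20092) (nat_lit 0) (p (nat_lit 0x10012) (nat_lit 0) pn)))))))))))))))))))))))))) :=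
  Cl.node (nat_lit 0x444aa) (nat_lit 12) (by decide +kernel) (ClAll.succ (ClAll.succ (ClAll.succ (ClAll.succ (ClAll.succ (ClAll.succ (ClAll.succ (ClAll.succ (ClAll.succ (ClAll.succ (ClAll.succ (ClAll.succ ClAll.zero s46) s47) s48) s49) s50) s51) s52) n361) s69) s70) s71) s72)

def n410 : Cl (O (nat_lit 3)) (R (nat_lit 143633))
    (p (nat_lit 0xc9) (nat_lit 0) (p (nat_lit 0xc1) (nat_lit 0) (p (nat_lit 0x81) (nat_lit 1) (p (nat_lit 0x101) (nat_lit 1) (p (nat_lit 0x119) (nat_lit 0) (p (nat_lit 0xd1) (nat_lit 0) (p (nat_lit 0x89) (nat_lit 0) (p (nat_lit 0x41) (nat_lit 0) (p (nat_lit 0x8a898a08881a) (nat_lit 0) (p (nat_lit 0xa090988079a) (nat_lit 0) (p (nat_lit 0x88088907871a) (nat_lit 0) (p (nat_lit 0x7880887069a) (nat_lit 0) (p (nat_lit 0x80000800088806860a) (nat_lit 0) (p (nat_lit 0x80000800068786058a) (nat_lit 0) (p (nat_lit 0x8687058502) (nat_lit 0) (p (nat_lit 0x606850482)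 (nat_lit 0) (p (nat_lit 0x160014) (nat_lit 0) (p (nat_lit 0x68612) (nat_lit 0) (p (nat_lit 0x50592) (nat_lit 0) (p (nat_lit 0x40512) (nat_lit 0) (p (nat_lit 0x50312) (nat_lit 0) (p (nat_lit 0x38292) (nat_lit 0) (p (nat_lit 0x28212) (nat_lit 0) (p (nat_lit 0x38112) (nat_lit 0) (p (nat_lit 0x20092) (nat_lit 0) (p (nat_lit 0x10012) (nat_lit 0) pn)))))))))))))))))))))))))) :=
  Cl.node (nat_lit 0x4c42a) (nat_lit 12) (by decide +kernel) (ClAll.succ (ClAll.succ (ClAll.succ (ClAll.succ (ClAll.succ (ClAll.succ (ClAll.succ (ClAll.succ (ClAll.succ (ClAll.succ (ClAll.succ (ClAll.succ ClAll.zero s74) s75) s76) s77) s78) s79) s80) s81) s82) s83) s84) s85)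

def n411 : Cl (O (nat_lit 3)) (R (nat_lit 143633))
    (p (nat_lit 0xc9) (nat_lit 1) (p (nat_lit 0xc1) (nat_lit 0) (p (nat_lit 0x81) (nat_lit 1) (p (nat_lit 0x101) (nat_lit 1) (p (nat_lit 0x119) (nat_lit 0) (p (nat_lit 0xd1) (nat_lit 0) (p (nat_lit 0x89) (nat_lit 0) (p (nat_lit 0x41) (nat_lit 0) (p (nat_lit 0x8a898a08881a) (nat_lit 0) (p (nat_lit 0xa090988079a) (nat_lit 0) (p (nat_lit 0x88088907871a) (nat_lit 0) (p (nat_lit 0x7880887069a) (nat_lit 0) (p (nat_lit 0x80000800088806860a) (nat_lit 0) (p (nat_lit 0x80000800068786058a) (nat_lit 0) (p (nat_lit 0x8687058502) (nat_lit 0) (p (nat_lit 0x606850482) (nat_lit 0) (p (nat_lit 0x160014) (nat_lit 0) (p (nat_lit 0x68612) (nat_lit 0) (p (nat_lit 0x50592) (nat_lit 0) (p (nat_lit 0x40512) (nat_lit 0) (p (nat_lit 0x50312) (nat_lit 0) (p (nat_lit 0x38292) (nat_lit 0) (p (nat_lit 0x28212) (nat_lit 0) (p (nat_lit 0x38112) (nat_lit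 0) (p (nat_lit 0x20092) (nat_lit 0) (p (nat_lit 0x10012) (nat_lit 0) pn)))))))))))))))))))))))))) :=
  Cl.node (nat_lit 0x444aa) (nat_lit 12) (by decide +kernel) (ClAll.succ (ClAll.succ (ClAll.succ (ClAll.succ (ClAll.succ (ClAll.succ (ClAll.succ (ClAll.succ (ClAll.succ (ClAll.succ (ClAll.succ (ClAll.succ ClAll.zero s86) s87) s88) s89) s90) s91) s92) n362) s100) s101) s102) s103)

def n412 : Cl (O (nat_lit 3)) (R (nat_lit 143633))
    (p (nat_lit 0x3cc2a) (nat_lit 10) (p (nat_lit 0x109) (nat_lit 1) (p (nat_lit 0xc9) (nat_lit 1) (p (nat_lit 0xc1) (nat_lit 0) (p (nat_lit 0x119) (nat_lit 1) (p (nat_lit 0xd1) (nat_lit 0) (p (nat_lit 0x89) (nat_lit 0) (p (nat_lit 0x41) (nat_lit 0) (p (nat_lit 0x8a898a08881a) (nat_lit 0) (p (nat_lit 0xa090988079a) (nat_lit 0) (p (nat_lit 0x88088907871a) (nat_lit 0) (p (nat_lit 0x7880887069a) (nat_lit 0) (p (nat_lit 0x80000800088806860a) (nat_lit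 0) (p (nat_lit 0x80000800068786058a) (nat_lit 0) (p (nat_lit 0x8687058502) (nat_lit 0) (p (nat_lit 0x606850482) (nat_lit 0) (p (nat_lit 0x160014) (nat_lit 0) (p (nat_lit 0x68612) (nat_lit 0) (p (nat_lit 0x50592) (nat_lit 0) (p (nat_lit 0x40512) (nat_lit 0) (p (nat_lit 0x50312) (nat_lit 0) (p (nat_lit 0x38292) (nat_lit 0) (p (nat_lit 0x28212) (nat_lit 0) (p (nat_lit 0x38112) (nat_lit 0) (p (nat_lit 0x20092) (nat_lit 0) (p (nat_lit 0x10012) (nat_lit 0) pn)))))))))))))))))))))))))) :=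
  Cl.node (nat_lit 0x380c2) (nat_lit 2) (by decide +kernel) (ClAll.succ (ClAll.succ ClAll.zero n363) s134)

def n413 : Cl (O (nat_lit 3)) (R (nat_lit 143633))
    (p (nat_lit 0x3cc2a) (nat_lit 11) (p (nat_lit 0x109) (nat_lit 1) (p (nat_lit 0xc9) (nat_lit 1) (p (nat_lit 0xc1) (nat_lit 0) (p (nat_lit 0x119) (nat_lit 1) (p (nat_lit 0xd1) (nat_lit 0) (p (nat_lit 0x89) (nat_lit 0) (p (nat_lit 0x41) (nat_lit 0) (p (nat_lit 0x8a898a08881a) (nat_lit 0) (p (nat_lit 0xa090988079a) (nat_lit 0) (p (nat_lit 0x88088907871a) (nat_lit 0) (p (nat_lit 0x7880887069a) (nat_lit 0) (p (nat_lit 0x80000800088806860a) (nat_lit 0) (p (nat_lit 0x80000800068786058a) (nat_lit 0) (p (nat_lit 0x8687058502) (nat_lit 0) (p (nat_lit 0x606850482) (nat_lit 0) (p (nat_lit 0x160014) (nat_lit 0) (p (nat_lit 0x68612) (nat_lit 0) (p (nat_lit 0x50592) (nat_lit 0) (p (nat_lit 0x40512) (nat_lit 0) (p (nat_lit 0x50312)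 (nat_lit 0) (p (nat_lit 0x38292) (nat_lit 0) (p (nat_lit 0x28212) (nat_lit 0) (p (nat_lit 0x38112) (nat_lit 0) (p (nat_lit 0x20092) (nat_lit 0) (p (nat_lit 0x10012) (nat_lit 0) pn)))))))))))))))))))))))))) :=
  Cl.node (nat_lit 0x380c2) (nat_lit 2) (by decide +kernel) (ClAll.succ (ClAll.succ ClAll.zero s135) n364)

def n414 : Cl (O (nat_lit 3)) (R (nat_lit 143633))
    (p (nat_lit 0x109) (nat_lit 0) (p (nat_lit 0x101) (nat_lit 0) (p (nat_lit 0x81) (nat_lit 1) (p (nat_lit 0xc1) (nat_lit 1) (p (nat_lit 0x119) (nat_lit 1) (p (nat_lit 0xd1) (nat_lit 0) (p (nat_lit 0x89) (nat_lit 0) (p (nat_lit 0x41) (nat_lit 0) (p (nat_lit 0x8a898a08881a) (nat_lit 0) (p (nat_lit 0xa090988079a) (nat_lit 0) (p (nat_lit 0x88088907871a) (nat_lit 0) (p (nat_lit 0x7880887069a) (nat_lit 0) (p (nat_lit 0x80000800088806860a) (nat_lit 0) (p (nat_lit 0x80000800068786058a) (nat_lit 0) (p (nat_lit 0x8687058502)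 (nat_lit 0) (p (nat_lit 0x606850482) (nat_lit 0) (p (nat_lit 0x160014) (nat_lit 0) (p (nat_lit 0x68612) (nat_lit 0) (p (nat_lit 0x50592) (nat_lit 0) (p (nat_lit 0x40512) (nat_lit 0) (p (nat_lit 0x50312) (nat_lit 0) (p (nat_lit 0x38292) (nat_lit 0) (p (nat_lit 0x28212) (nat_lit 0) (p (nat_lit 0x38112) (nat_lit 0) (p (nat_lit 0x20092) (nat_lit 0) (p (nat_lit 0x10012) (nat_lit 0) pn)))))))))))))))))))))))))) :=
  Cl.node (nat_lit 0x44c2a) (nat_lit 12) (by decide +kernel) (ClAll.succ (ClAll.succ (ClAll.succ (ClAll.succ (ClAll.succ (ClAll.succ (ClAll.succ (ClAll.succ (ClAll.succ (ClAll.succ (ClAll.succ (ClAll.succ ClAll.zero s176) n365) s190) s191) s192) s193) s194) s195) s196) s197) s198) s199)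

def n415 : Cl (O (nat_lit 3)) (R (nat_lit 143633))
    (p (nat_lit 0x109) (nat_lit 1) (p (nat_lit 0x101) (nat_lit 0) (p (nat_lit 0x81) (nat_lit 1) (p (nat_lit 0xc1) (nat_lit 1) (p (nat_lit 0x119) (nat_lit 1) (p (nat_lit 0xd1) (nat_lit 0) (p (nat_lit 0x89) (nat_lit 0) (p (nat_lit 0x41) (nat_lit 0) (p (nat_lit 0x8a898a08881a) (nat_lit 0) (p (nat_lit 0xa090988079a) (nat_lit 0) (p (nat_lit 0x88088907871a) (nat_lit 0) (p (nat_lit 0x7880887069a) (nat_lit 0) (p (nat_lit 0x80000800088806860a) (nat_lit 0) (p (nat_lit 0x80000800068786058a) (nat_lit 0) (p (nat_lit 0x8687058502) (nat_lit 0) (p (nat_lit 0x606850482) (nat_lit 0) (p (nat_lit 0x160014) (nat_lit 0) (p (nat_lit 0x68612) (nat_lit 0) (p (nat_lit 0x50592) (nat_lit 0) (p (nat_lit 0x40512) (nat_lit 0) (p (nat_lit 0x50312) (nat_lit 0) (p (nat_lit 0x38292) (nat_lit 0) (p (nat_lit 0x28212) (nat_lit 0) (p (nat_lit 0x38112) (nat_lit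 0) (p (nat_lit 0x20092) (nat_lit 0) (p (nat_lit 0x10012) (nat_lit 0) pn)))))))))))))))))))))))))) :=
  Cl.node (nat_lit 0x444aa) (nat_lit 12) (by decide +kernel) (ClAll.succ (ClAll.succ (ClAll.succ (ClAll.succ (ClAll.succ (ClAll.succ (ClAll.succ (ClAll.succ (ClAll.succ (ClAll.succ (ClAll.succ (ClAll.succ ClAll.zero s200) s201) s202) s203) s204) s205) s206) n366) n367) s228) s229) s230)

def n416 : Cl (O (nat_lit 3)) (R (nat_lit 143633))
    (p (nat_lit 0x200004) (nat_lit 0) (p (nat_lit 0xc1) (nat_lit 1) (p (nat_lit 0x109) (nat_lit 1) (p (nat_lit 0x101) (nat_lit 0) (p (nat_lit 0x111) (nat_lit 0) (p (nat_lit 0xd1) (nat_lit 1) (p (nat_lit 0x89) (nat_lit 0) (p (nat_lit 0x41) (nat_lit 0) (p (nat_lit 0x8a898a08881a) (nat_lit 0) (p (nat_lit 0xa090988079a) (nat_lit 0) (p (nat_lit 0x88088907871a) (nat_lit 0) (p (nat_lit 0x7880887069a) (nat_lit 0) (p (nat_lit 0x80000800088806860a)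 (nat_lit 0) (p (nat_lit 0x80000800068786058a) (nat_lit 0) (p (nat_lit 0x8687058502) (nat_lit 0) (p (nat_lit 0x606850482) (nat_lit 0) (p (nat_lit 0x160014) (nat_lit 0) (p (nat_lit 0x68612) (nat_lit 0) (p (nat_lit 0x50592) (nat_lit 0) (p (nat_lit 0x40512) (nat_lit 0) (p (nat_lit 0x50312) (nat_lit 0) (p (nat_lit 0x38292) (nat_lit 0) (p (nat_lit 0x28212) (nat_lit 0) (p (nat_lit 0x38112) (nat_lit 0) (p (nat_lit 0x20092) (nat_lit 0) (p (nat_lit 0x10012) (nat_lit 0) pn)))))))))))))))))))))))))) :=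
  Cl.node (nat_lit 0x20000c) (nat_lit 2) (by decide +kernel) (ClAll.succ (ClAll.succ ClAll.zero n368) s261)

def n417 : Cl (O (nat_lit 3)) (R (nat_lit 143633))
    (p (nat_lit 0x200004) (nat_lit 0) (p (nat_lit 0x119) (nat_lit 0) (p (nat_lit 0x81) (nat_lit 0) (p (nat_lit 0x101) (nat_lit 1) (p (nat_lit 0x111) (nat_lit 0) (p (nat_lit 0xd1) (nat_lit 1) (p (nat_lit 0x89) (nat_lit 0) (p (nat_lit 0x41) (nat_lit 0) (p (nat_lit 0x8a898a08881a) (nat_lit 0) (p (nat_lit 0xa090988079a) (nat_lit 0) (p (nat_lit 0x88088907871a) (nat_lit 0) (p (nat_lit 0x7880887069a) (nat_lit 0) (p (nat_lit 0x80000800088806860a) (nat_lit 0) (p (nat_lit 0x80000800068786058a) (nat_lit 0) (p (nat_lit 0x8687058502) (nat_lit 0) (p (nat_lit 0x606850482) (nat_lit 0) (p (nat_lit 0x160014) (nat_lit 0) (p (nat_lit 0x68612) (nat_lit 0) (p (nat_lit 0x50592) (nat_lit 0) (p (nat_lit 0x40512) (nat_lit 0) (p (nat_lit 0x50312)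 (nat_lit 0) (p (nat_lit 0x38292) (nat_lit 0) (p (nat_lit 0x28212) (nat_lit 0) (p (nat_lit 0x38112) (nat_lit 0) (p (nat_lit 0x20092) (nat_lit 0) (p (nat_lit 0x10012) (nat_lit 0) pn)))))))))))))))))))))))))) :=
  Cl.node (nat_lit 0x20000c) (nat_lit 2) (by decide +kernel) (ClAll.succ (ClAll.succ ClAll.zero n369) s280)

def n418 : Cl (O (nat_lit 3)) (R (nat_lit 143633))
    (p (nat_lit 0x119) (nat_lit 0) (p (nat_lit 0xc1) (nat_lit 0) (p (nat_lit 0x81) (nat_lit 1) (p (nat_lit 0x101) (nat_lit 1) (p (nat_lit 0x111) (nat_lit 0) (p (nat_lit 0xd1) (nat_lit 1) (p (nat_lit 0x89) (nat_lit 0) (p (nat_lit 0x41) (nat_lit 0) (p (nat_lit 0x8a898a08881a) (nat_lit 0) (p (nat_lit 0xa090988079a) (nat_lit 0) (p (nat_lit 0x88088907871a) (nat_lit 0) (p (nat_lit 0x7880887069a) (nat_lit 0) (p (nat_lit 0x80000800088806860a) (nat_lit 0) (p (nat_lit 0x80000800068786058a) (nat_lit 0) (p (nat_lit 0x8687058502)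 (nat_lit 0) (p (nat_lit 0x606850482) (nat_lit 0) (p (nat_lit 0x160014) (nat_lit 0) (p (nat_lit 0x68612) (nat_lit 0) (p (nat_lit 0x50592) (nat_lit 0) (p (nat_lit 0x40512) (nat_lit 0) (p (nat_lit 0x50312) (nat_lit 0) (p (nat_lit 0x38292) (nat_lit 0) (p (nat_lit 0x28212) (nat_lit 0) (p (nat_lit 0x38112) (nat_lit 0) (p (nat_lit 0x20092) (nat_lit 0) (p (nat_lit 0x10012) (nat_lit 0) pn)))))))))))))))))))))))))) :=
  Cl.node (nat_lit 0x444aa) (nat_lit 12) (by decide +kernel) (ClAll.succ (ClAll.succ (ClAll.succ (ClAll.succ (ClAll.succ (ClAll.succ (ClAll.succ (ClAll.succ (ClAll.succ (ClAll.succ (ClAll.succ (ClAll.succ ClAll.zero s294) s295) s296) s297) s298) s299) s300) n370) s304) s305) s306) s307)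

def n419 : Cl (O (nat_lit 3)) (R (nat_lit 143633))
    (p (nat_lit 0xd1) (nat_lit 1) (p (nat_lit 0x111) (nat_lit 1) (p (nat_lit 0x109) (nat_lit 0) (p (nat_lit 0x101) (nat_lit 0) (p (nat_lit 0x119) (nat_lit 0) (p (nat_lit 0xc9) (nat_lit 0) (p (nat_lit 0x89) (nat_lit 1) (p (nat_lit 0x41) (nat_lit 0) (p (nat_lit 0x8a898a08881a) (nat_lit 0) (p (nat_lit 0xa090988079a) (nat_lit 0) (p (nat_lit 0x88088907871a) (nat_lit 0) (p (nat_lit 0x7880887069a) (nat_lit 0) (p (nat_lit 0x80000800088806860a) (nat_lit 0) (p (nat_lit 0x80000800068786058a) (nat_lit 0) (p (nat_lit 0x8687058502) (nat_lit 0) (p (nat_lit 0x606850482) (nat_lit 0) (p (nat_lit 0x160014) (nat_lit 0) (p (nat_lit 0x68612) (nat_lit 0) (p (nat_lit 0x50592) (nat_lit 0) (p (nat_lit 0x40512) (nat_lit 0) (p (nat_lit 0x50312) (nat_lit 0) (p (nat_lit 0x38292) (nat_lit 0) (p (nat_lit 0x28212) (nat_lit 0) (p (nat_lit 0x38112) (nat_lit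 0) (p (nat_lit 0x20092) (nat_lit 0) (p (nat_lit 0x10012) (nat_lit 0) pn)))))))))))))))))))))))))) :=
  Cl.node (nat_lit 0x444aa) (nat_lit 12) (by decide +kernel) (ClAll.succ (ClAll.succ (ClAll.succ (ClAll.succ (ClAll.succ (ClAll.succ (ClAll.succ (ClAll.succ (ClAll.succ (ClAll.succ (ClAll.succ (ClAll.succ ClAll.zero s327) s328) s329) s330) s331) s332) s333) n371) s377) s378) s379) s380)

def n420 : Cl (O (nat_lit 3)) (R (nat_lit 143633))
    (p (nat_lit 0x200004) (nat_lit 0) (p (nat_lit 0xd1) (nat_lit 0) (p (nat_lit 0x109) (nat_lit 1) (p (nat_lit 0x101) (nat_lit 0) (p (nat_lit 0x119) (nat_lit 0) (p (nat_lit 0xc9) (nat_lit 0) (p (nat_lit 0x89) (nat_lit 1) (p (nat_lit 0x41) (nat_lit 0) (p (nat_lit 0x8a898a08881a) (nat_lit 0) (p (nat_lit 0xa090988079a) (nat_lit 0) (p (nat_lit 0x88088907871a) (nat_lit 0) (p (nat_lit 0x7880887069a) (nat_lit 0) (p (nat_lit 0x80000800088806860a)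 (nat_lit 0) (p (nat_lit 0x80000800068786058a) (nat_lit 0) (p (nat_lit 0x8687058502) (nat_lit 0) (p (nat_lit 0x606850482) (nat_lit 0) (p (nat_lit 0x160014) (nat_lit 0) (p (nat_lit 0x68612) (nat_lit 0) (p (nat_lit 0x50592) (nat_lit 0) (p (nat_lit 0x40512) (nat_lit 0) (p (nat_lit 0x50312) (nat_lit 0) (p (nat_lit 0x38292) (nat_lit 0) (p (nat_lit 0x28212) (nat_lit 0) (p (nat_lit 0x38112) (nat_lit 0) (p (nat_lit 0x20092) (nat_lit 0) (p (nat_lit 0x10012) (nat_lit 0) pn)))))))))))))))))))))))))) :=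
  Cl.node (nat_lit 0x20000c) (nat_lit 2) (by decide +kernel) (ClAll.succ (ClAll.succ ClAll.zero n372) s396)

def n421 : Cl (O (nat_lit 3)) (R (nat_lit 143633))
    (p (nat_lit 0x444aa) (nat_lit 7) (p (nat_lit 0xd1) (nat_lit 1) (p (nat_lit 0x109) (nat_lit 1) (p (nat_lit 0x101) (nat_lit 0) (p (nat_lit 0x119) (nat_lit 0) (p (nat_lit 0xc9) (nat_lit 0) (p (nat_lit 0x89) (nat_lit 1) (p (nat_lit 0x41) (nat_lit 0) (p (nat_lit 0x8a898a08881a) (nat_lit 0) (p (nat_lit 0xa090988079a) (nat_lit 0) (p (nat_lit 0x88088907871a) (nat_lit 0) (p (nat_lit 0x7880887069a) (nat_lit 0) (p (nat_lit 0x80000800088806860a) (nat_lit 0) (p (nat_lit 0x80000800068786058a) (nat_lit 0) (p (nat_lit 0x8687058502) (nat_lit 0) (p (nat_lit 0x606850482) (nat_lit 0) (p (nat_lit 0x160014) (nat_lit 0) (p (nat_lit 0x68612) (nat_lit 0) (p (nat_lit 0x50592) (nat_lit 0) (p (nat_lit 0x40512) (nat_lit 0) (p (nat_lit 0x50312)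 (nat_lit 0) (p (nat_lit 0x38292) (nat_lit 0) (p (nat_lit 0x28212) (nat_lit 0) (p (nat_lit 0x38112) (nat_lit 0) (p (nat_lit 0x20092) (nat_lit 0) (p (nat_lit 0x10012) (nat_lit 0) pn)))))))))))))))))))))))))) :=
  Cl.node (nat_lit 0x380c2) (nat_lit 2) (by decide +kernel) (ClAll.succ (ClAll.succ ClAll.zero n373) n374)

def n422 : Cl (O (nat_lit 3)) (R (nat_lit 143633))
    (p (nat_lit 0x200004) (nat_lit 0) (p (nat_lit 0xd1) (nat_lit 0) (p (nat_lit 0xc1) (nat_lit 0) (p (nat_lit 0x101) (nat_lit 1) (p (nat_lit 0x119) (nat_lit 0) (p (nat_lit 0xc9) (nat_lit 0) (p (nat_lit 0x89) (nat_lit 1) (p (nat_lit 0x41) (nat_lit 0) (p (nat_lit 0x8a898a08881a) (nat_lit 0) (p (nat_lit 0xa090988079a) (nat_lit 0) (p (nat_lit 0x88088907871a) (nat_lit 0) (p (nat_lit 0x7880887069a) (nat_lit 0) (p (nat_lit 0x80000800088806860a) (nat_lit 0) (p (nat_lit 0x80000800068786058a) (nat_lit 0) (p (nat_lit 0x8687058502)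 (nat_lit 0) (p (nat_lit 0x606850482) (nat_lit 0) (p (nat_lit 0x160014) (nat_lit 0) (p (nat_lit 0x68612) (nat_lit 0) (p (nat_lit 0x50592) (nat_lit 0) (p (nat_lit 0x40512) (nat_lit 0) (p (nat_lit 0x50312) (nat_lit 0) (p (nat_lit 0x38292) (nat_lit 0) (p (nat_lit 0x28212) (nat_lit 0) (p (nat_lit 0x38112) (nat_lit 0) (p (nat_lit 0x20092) (nat_lit 0) (p (nat_lit 0x10012) (nat_lit 0) pn)))))))))))))))))))))))))) :=
  Cl.node (nat_lit 0x20000c) (nat_lit 2) (by decide +kernel) (ClAll.succ (ClAll.succ ClAll.zero n375) s458)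

def n423 : Cl (O (nat_lit 3)) (R (nat_lit 143633))
    (p (nat_lit 0x444aa) (nat_lit 7) (p (nat_lit 0xd1) (nat_lit 1) (p (nat_lit 0xc1) (nat_lit 0) (p (nat_lit 0x101) (nat_lit 1) (p (nat_lit 0x119) (nat_lit 0) (p (nat_lit 0xc9) (nat_lit 0) (p (nat_lit 0x89) (nat_lit 1) (p (nat_lit 0x41) (nat_lit 0) (p (nat_lit 0x8a898a08881a) (nat_lit 0) (p (nat_lit 0xa090988079a) (nat_lit 0) (p (nat_lit 0x88088907871a) (nat_lit 0) (p (nat_lit 0x7880887069a) (nat_lit 0) (p (nat_lit 0x80000800088806860a) (nat_lit 0) (p (nat_lit 0x80000800068786058a) (nat_lit 0) (p (nat_lit 0x8687058502) (nat_lit 0) (p (nat_lit 0x606850482) (nat_lit 0) (p (nat_lit 0x160014) (nat_lit 0) (p (nat_lit 0x68612) (nat_lit 0) (p (nat_lit 0x50592) (nat_lit 0) (p (nat_lit 0x40512) (nat_lit 0) (p (nat_lit 0x50312) (nat_lit 0) (p (nat_lit 0x38292) (nat_lit 0) (p (nat_lit 0x28212) (nat_lit 0) (p (nat_lit 0x38112) (nat_lit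 0) (p (nat_lit 0x20092) (nat_lit 0) (p (nat_lit 0x10012) (nat_lit 0) pn)))))))))))))))))))))))))) :=
  Cl.node (nat_lit 0x380c2) (nat_lit 2) (by decide +kernel) (ClAll.succ (ClAll.succ ClAll.zero n376) n377)

def n424 : Cl (O (nat_lit 3)) (R (nat_lit 143633))
    (p (nat_lit 0x444aa) (nat_lit 7) (p (nat_lit 0x111) (nat_lit 1) (p (nat_lit 0xd1) (nat_lit 1) (p (nat_lit 0xc1) (nat_lit 0) (p (nat_lit 0x119) (nat_lit 1) (p (nat_lit 0xc9) (nat_lit 0) (p (nat_lit 0x89) (nat_lit 1) (p (nat_lit 0x41) (nat_lit 0) (p (nat_lit 0x8a898a08881a) (nat_lit 0) (p (nat_lit 0xa090988079a) (nat_lit 0) (p (nat_lit 0x88088907871a) (nat_lit 0) (p (nat_lit 0x7880887069a) (nat_lit 0) (p (nat_lit 0x80000800088806860a) (nat_lit 0) (p (nat_lit 0x80000800068786058a) (nat_lit 0) (p (nat_lit 0x8687058502) (nat_lit 0) (p (nat_lit 0x606850482) (nat_lit 0) (p (nat_lit 0x160014) (nat_lit 0) (p (nat_lit 0x68612)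 (nat_lit 0) (p (nat_lit 0x50592) (nat_lit 0) (p (nat_lit 0x40512) (nat_lit 0) (p (nat_lit 0x50312) (nat_lit 0) (p (nat_lit 0x38292) (nat_lit 0) (p (nat_lit 0x28212) (nat_lit 0) (p (nat_lit 0x38112) (nat_lit 0) (p (nat_lit 0x20092) (nat_lit 0) (p (nat_lit 0x10012) (nat_lit 0) pn)))))))))))))))))))))))))) :=
  Cl.node (nat_lit 0x380c2) (nat_lit 2) (by decide +kernel) (ClAll.succ (ClAll.succ ClAll.zero n378) n379)

def n425 : Cl (O (nat_lit 3)) (R (nat_lit 143633))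
    (p (nat_lit 0x444aa) (nat_lit 8) (p (nat_lit 0x111) (nat_lit 1) (p (nat_lit 0xd1) (nat_lit 1) (p (nat_lit 0xc1) (nat_lit 0) (p (nat_lit 0x119) (nat_lit 1) (p (nat_lit 0xc9) (nat_lit 0) (p (nat_lit 0x89) (nat_lit 1) (p (nat_lit 0x41) (nat_lit 0) (p (nat_lit 0x8a898a08881a) (nat_lit 0) (p (nat_lit 0xa090988079a) (nat_lit 0) (p (nat_lit 0x88088907871a) (nat_lit 0) (p (nat_lit 0x7880887069a) (nat_lit 0) (p (nat_lit 0x80000800088806860a) (nat_lit 0) (p (nat_lit 0x80000800068786058a) (nat_lit 0) (p (nat_lit 0x8687058502) (nat_lit 0) (p (nat_lit 0x606850482) (nat_lit 0) (p (nat_lit 0x160014) (nat_lit 0) (p (nat_lit 0x68612) (nat_lit 0) (p (nat_lit 0x50592) (nat_lit 0) (p (nat_lit 0x40512) (nat_lit 0) (p (nat_lit 0x50312) (nat_lit 0) (p (nat_lit 0x38292) (nat_lit 0) (p (nat_lit 0x28212) (nat_lit 0) (p (nat_lit 0x38112) (nat_lit 0) (p (nat_lit 0x20092) (nat_lit 0) (p (nat_lit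 0x10012) (nat_lit 0) pn)))))))))))))))))))))))))) :=
  Cl.node (nat_lit 0x380c2) (nat_lit 2) (by decide +kernel) (ClAll.succ (ClAll.succ ClAll.zero s514) n380)

def n426 : Cl (O (nat_lit 3)) (R (nat_lit 143633))
    (p (nat_lit 0x444aa) (nat_lit 7) (p (nat_lit 0x111) (nat_lit 1) (p (nat_lit 0x101) (nat_lit 0) (p (nat_lit 0xc1) (nat_lit 1) (p (nat_lit 0x119) (nat_lit 1) (p (nat_lit 0xc9) (nat_lit 0) (p (nat_lit 0x89) (nat_lit 1) (p (nat_lit 0x41) (nat_lit 0) (p (nat_lit 0x8a898a08881a) (nat_lit 0) (p (nat_lit 0xa090988079a) (nat_lit 0) (p (nat_lit 0x88088907871a) (nat_lit 0) (p (nat_lit 0x7880887069a) (nat_lit 0) (p (nat_lit 0x80000800088806860a) (nat_lit 0) (p (nat_lit 0x80000800068786058a) (nat_lit 0) (p (nat_lit 0x8687058502) (nat_lit 0) (p (nat_lit 0x606850482) (nat_lit 0) (p (nat_lit 0x160014) (nat_lit 0) (p (nat_lit 0x68612) (nat_lit 0) (p (nat_lit 0x50592) (nat_lit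 0) (p (nat_lit 0x40512) (nat_lit 0) (p (nat_lit 0x50312) (nat_lit 0) (p (nat_lit 0x38292) (nat_lit 0) (p (nat_lit 0x28212) (nat_lit 0) (p (nat_lit 0x38112) (nat_lit 0) (p (nat_lit 0x20092) (nat_lit 0) (p (nat_lit 0x10012) (nat_lit 0) pn)))))))))))))))))))))))))) :=
  Cl.node (nat_lit 0x380c2) (nat_lit 2) (by decide +kernel) (ClAll.succ (ClAll.succ ClAll.zero n381) n382)

def n427 : Cl (O (nat_lit 3)) (R (nat_lit 143633))
    (p (nat_lit 0x111) (nat_lit 0) (p (nat_lit 0x89) (nat_lit 0) (p (nat_lit 0x109) (nat_lit 1) (p (nat_lit 0x101) (nat_lit 0) (p (nat_lit 0x119) (nat_lit 0) (p (nat_lit 0xd1) (nat_lit 0) (p (nat_lit 0x81) (nat_lit 0) (p (nat_lit 0x41) (nat_lit 1) (p (nat_lit 0x8a898a08881a) (nat_lit 0) (p (nat_lit 0xa090988079a) (nat_lit 0) (p (nat_lit 0x88088907871a) (nat_lit 0) (p (nat_lit 0x7880887069a) (nat_lit 0) (p (nat_lit 0x80000800088806860a) (nat_lit 0) (p (nat_lit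 0x80000800068786058a) (nat_lit 0) (p (nat_lit 0x8687058502) (nat_lit 0) (p (nat_lit 0x606850482) (nat_lit 0) (p (nat_lit 0x160014) (nat_lit 0) (p (nat_lit 0x68612) (nat_lit 0) (p (nat_lit 0x50592) (nat_lit 0) (p (nat_lit 0x40512) (nat_lit 0) (p (nat_lit 0x50312) (nat_lit 0) (p (nat_lit 0x38292) (nat_lit 0) (p (nat_lit 0x28212) (nat_lit 0) (p (nat_lit 0x38112) (nat_lit 0) (p (nat_lit 0x20092) (nat_lit 0) (p (nat_lit 0x10012) (nat_lit 0) pn)))))))))))))))))))))))))) :=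
  Cl.node (nat_lit 0x4c42a) (nat_lit 12) (by decide +kernel) (ClAll.succ (ClAll.succ (ClAll.succ (ClAll.succ (ClAll.succ (ClAll.succ (ClAll.succ (ClAll.succ (ClAll.succ (ClAll.succ (ClAll.succ (ClAll.succ ClAll.zero s594) s595) s596) s597) s598) s599) s600) s601) s602) s603) s604) s605)

def n428 : Cl (O (nat_lit 3)) (R (nat_lit 143633))
    (p (nat_lit 0x111) (nat_lit 1) (p (nat_lit 0x89) (nat_lit 0) (p (nat_lit 0x109) (nat_lit 1) (p (nat_lit 0x101) (nat_lit 0) (p (nat_lit 0x119) (nat_lit 0) (p (nat_lit 0xd1) (nat_lit 0) (p (nat_lit 0x81) (nat_lit 0) (p (nat_lit 0x41) (nat_lit 1) (p (nat_lit 0x8a898a08881a) (nat_lit 0) (p (nat_lit 0xa090988079a) (nat_lit 0) (p (nat_lit 0x88088907871a) (nat_lit 0) (p (nat_lit 0x7880887069a) (nat_lit 0) (p (nat_lit 0x80000800088806860a) (nat_lit 0) (p (nat_lit 0x80000800068786058a) (nat_lit 0) (p (nat_lit 0x8687058502) (nat_lit 0) (p (nat_lit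 0x606850482) (nat_lit 0) (p (nat_lit 0x160014) (nat_lit 0) (p (nat_lit 0x68612) (nat_lit 0) (p (nat_lit 0x50592) (nat_lit 0) (p (nat_lit 0x40512) (nat_lit 0) (p (nat_lit 0x50312) (nat_lit 0) (p (nat_lit 0x38292) (nat_lit 0) (p (nat_lit 0x28212) (nat_lit 0) (p (nat_lit 0x38112) (nat_lit 0) (p (nat_lit 0x20092) (nat_lit 0) (p (nat_lit 0x10012) (nat_lit 0) pn)))))))))))))))))))))))))) :=
  Cl.node (nat_lit 0x4c42a) (nat_lit 12) (by decide +kernel) (ClAll.succ (ClAll.succ (ClAll.succ (ClAll.succ (ClAll.succ (ClAll.succ (ClAll.succ (ClAll.succ (ClAll.succ (ClAll.succ (ClAll.succ (ClAll.succ ClAll.zero s606) s607) s608) s609) s610) s611) s612) s613) s614) s615) s616) s617)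

def n429 : Cl (O (nat_lit 3)) (R (nat_lit 143633))
    (p (nat_lit 0xc9) (nat_lit 0) (p (nat_lit 0x89) (nat_lit 1) (p (nat_lit 0x109) (nat_lit 1) (p (nat_lit 0x101) (nat_lit 0) (p (nat_lit 0x119) (nat_lit 0) (p (nat_lit 0xd1) (nat_lit 0) (p (nat_lit 0x81) (nat_lit 0) (p (nat_lit 0x41) (nat_lit 1) (p (nat_lit 0x8a898a08881a) (nat_lit 0) (p (nat_lit 0xa090988079a) (nat_lit 0) (p (nat_lit 0x88088907871a) (nat_lit 0) (p (nat_lit 0x7880887069a) (nat_lit 0) (p (nat_lit 0x80000800088806860a) (nat_lit 0) (p (nat_lit 0x80000800068786058a) (nat_lit 0) (p (nat_lit 0x8687058502) (nat_lit 0) (p (nat_lit 0x606850482) (nat_lit 0) (p (nat_lit 0x160014) (nat_lit 0) (p (nat_lit 0x68612) (nat_lit 0) (p (nat_lit 0x50592) (nat_lit 0) (p (nat_lit 0x40512) (nat_lit 0) (p (nat_lit 0x50312) (nat_lit 0) (p (nat_lit 0x38292) (nat_lit 0) (p (nat_lit 0x28212) (nat_lit 0) (p (nat_lit 0x38112) (nat_lit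 0) (p (nat_lit 0x20092) (nat_lit 0) (p (nat_lit 0x10012) (nat_lit 0) pn)))))))))))))))))))))))))) :=
  Cl.node (nat_lit 0x4c42a) (nat_lit 12) (by decide +kernel) (ClAll.succ (ClAll.succ (ClAll.succ (ClAll.succ (ClAll.succ (ClAll.succ (ClAll.succ (ClAll.succ (ClAll.succ (ClAll.succ (ClAll.succ (ClAll.succ ClAll.zero s618) s619) s620) s621) s622) s623) s624) s625) s626) s627) s628) s629)

def n430 : Cl (O (nat_lit 3)) (R (nat_lit 143633))
    (p (nat_lit 0xc9) (nat_lit 1) (p (nat_lit 0x89) (nat_lit 1) (p (nat_lit 0x109) (nat_lit 1) (p (nat_lit 0x101) (nat_lit 0) (p (nat_lit 0x119) (nat_lit 0) (p (nat_lit 0xd1) (nat_lit 0) (p (nat_lit 0x81) (nat_lit 0) (p (nat_lit 0x41) (nat_lit 1) (p (nat_lit 0x8a898a08881a) (nat_lit 0) (p (nat_lit 0xa090988079a) (nat_lit 0) (p (nat_lit 0x88088907871a) (nat_lit 0) (p (nat_lit 0x7880887069a) (nat_lit 0) (p (nat_lit 0x80000800088806860a) (nat_lit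 0) (p (nat_lit 0x80000800068786058a) (nat_lit 0) (p (nat_lit 0x8687058502) (nat_lit 0) (p (nat_lit 0x606850482) (nat_lit 0) (p (nat_lit 0x160014) (nat_lit 0) (p (nat_lit 0x68612) (nat_lit 0) (p (nat_lit 0x50592) (nat_lit 0) (p (nat_lit 0x40512) (nat_lit 0) (p (nat_lit 0x50312) (nat_lit 0) (p (nat_lit 0x38292) (nat_lit 0) (p (nat_lit 0x28212) (nat_lit 0) (p (nat_lit 0x38112) (nat_lit 0) (p (nat_lit 0x20092) (nat_lit 0) (p (nat_lit 0x10012) (nat_lit 0) pn)))))))))))))))))))))))))) :=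
  Cl.node (nat_lit 0x3c4aa) (nat_lit 12) (by decide +kernel) (ClAll.succ (ClAll.succ (ClAll.succ (ClAll.succ (ClAll.succ (ClAll.succ (ClAll.succ (ClAll.succ (ClAll.succ (ClAll.succ (ClAll.succ (ClAll.succ ClAll.zero s630) s631) s632) s633) s634) s635) s636) s637) s638) s639) s640) s641)

def n431 : Cl (O (nat_lit 3)) (R (nat_lit 143633))
    (p (nat_lit 0xc9) (nat_lit 0) (p (nat_lit 0x89) (nat_lit 1) (p (nat_lit 0xc1) (nat_lit 0) (p (nat_lit 0x101) (nat_lit 1) (p (nat_lit 0x119) (nat_lit 0) (p (nat_lit 0xd1) (nat_lit 0) (p (nat_lit 0x81) (nat_lit 0) (p (nat_lit 0x41) (nat_lit 1) (p (nat_lit 0x8a898a08881a) (nat_lit 0) (p (nat_lit 0xa090988079a) (nat_lit 0) (p (nat_lit 0x88088907871a) (nat_lit 0) (p (nat_lit 0x7880887069a) (nat_lit 0) (p (nat_lit 0x80000800088806860a) (nat_lit 0) (p (nat_lit 0x80000800068786058a) (nat_lit 0) (p (nat_lit 0x8687058502) (nat_lit 0) (p (nat_lit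 0x606850482) (nat_lit 0) (p (nat_lit 0x160014) (nat_lit 0) (p (nat_lit 0x68612) (nat_lit 0) (p (nat_lit 0x50592) (nat_lit 0) (p (nat_lit 0x40512) (nat_lit 0) (p (nat_lit 0x50312) (nat_lit 0) (p (nat_lit 0x38292) (nat_lit 0) (p (nat_lit 0x28212) (nat_lit 0) (p (nat_lit 0x38112) (nat_lit 0) (p (nat_lit 0x20092) (nat_lit 0) (p (nat_lit 0x10012) (nat_lit 0) pn)))))))))))))))))))))))))) :=
  Cl.node (nat_lit 0x4c42a) (nat_lit 12) (by decide +kernel) (ClAll.succ (ClAll.succ (ClAll.succ (ClAll.succ (ClAll.succ (ClAll.succ (ClAll.succ (ClAll.succ (ClAll.succ (ClAll.succ (ClAll.succ (ClAll.succ ClAll.zero s654) s655) n383) s660) s661) s662) s663) s664) s665) s666) s667) s668)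

def n432 : Cl (O (nat_lit 3)) (R (nat_lit 143633))
    (p (nat_lit 0xc9) (nat_lit 1) (p (nat_lit 0x89) (nat_lit 1) (p (nat_lit 0xc1) (nat_lit 0) (p (nat_lit 0x101) (nat_lit 1) (p (nat_lit 0x119) (nat_lit 0) (p (nat_lit 0xd1) (nat_lit 0) (p (nat_lit 0x81) (nat_lit 0) (p (nat_lit 0x41) (nat_lit 1) (p (nat_lit 0x8a898a08881a) (nat_lit 0) (p (nat_lit 0xa090988079a) (nat_lit 0) (p (nat_lit 0x88088907871a) (nat_lit 0) (p (nat_lit 0x7880887069a) (nat_lit 0) (p (nat_lit 0x80000800088806860a) (nat_lit 0) (p (nat_lit 0x80000800068786058a) (nat_lit 0) (p (nat_lit 0x8687058502) (nat_lit 0) (p (nat_lit 0x606850482) (nat_lit 0) (p (nat_lit 0x160014) (nat_lit 0) (p (nat_lit 0x68612) (nat_lit 0) (p (nat_lit 0x50592) (nat_lit 0) (p (nat_lit 0x40512) (nat_lit 0) (p (nat_lit 0x50312) (nat_lit 0) (p (nat_lit 0x38292) (nat_lit 0) (p (nat_lit 0x28212) (nat_lit 0) (p (nat_lit 0x38112) (nat_lit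 0) (p (nat_lit 0x20092) (nat_lit 0) (p (nat_lit 0x10012) (nat_lit 0) pn)))))))))))))))))))))))))) :=
  Cl.node (nat_lit 0x4c42a) (nat_lit 12) (by decide +kernel) (ClAll.succ (ClAll.succ (ClAll.succ (ClAll.succ (ClAll.succ (ClAll.succ (ClAll.succ (ClAll.succ (ClAll.succ (ClAll.succ (ClAll.succ (ClAll.succ ClAll.zero s669) s670) n384) s673) s674) s675) s676) s677) s678) s679) s680) s681)

def n433 : Cl (O (nat_lit 3)) (R (nat_lit 143633))
    (p (nat_lit 0x3c4aa) (nat_lit 7) (p (nat_lit 0x89) (nat_lit 1) (p (nat_lit 0xc1) (nat_lit 1) (p (nat_lit 0x101) (nat_lit 1) (p (nat_lit 0x119) (nat_lit 0) (p (nat_lit 0xd1) (nat_lit 0) (p (nat_lit 0x81) (nat_lit 0) (p (nat_lit 0x41) (nat_lit 1) (p (nat_lit 0x8a898a08881a) (nat_lit 0) (p (nat_lit 0xa090988079a) (nat_lit 0) (p (nat_lit 0x88088907871a) (nat_lit 0) (p (nat_lit 0x7880887069a) (nat_lit 0) (p (nat_lit 0x80000800088806860a) (nat_lit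 0) (p (nat_lit 0x80000800068786058a) (nat_lit 0) (p (nat_lit 0x8687058502) (nat_lit 0) (p (nat_lit 0x606850482) (nat_lit 0) (p (nat_lit 0x160014) (nat_lit 0) (p (nat_lit 0x68612) (nat_lit 0) (p (nat_lit 0x50592) (nat_lit 0) (p (nat_lit 0x40512) (nat_lit 0) (p (nat_lit 0x50312) (nat_lit 0) (p (nat_lit 0x38292) (nat_lit 0) (p (nat_lit 0x28212) (nat_lit 0) (p (nat_lit 0x38112) (nat_lit 0) (p (nat_lit 0x20092) (nat_lit 0) (p (nat_lit 0x10012) (nat_lit 0) pn)))))))))))))))))))))))))) :=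
  Cl.node (nat_lit 0x380c2) (nat_lit 2) (by decide +kernel) (ClAll.succ (ClAll.succ ClAll.zero s690) n385)

def n434 : Cl (O (nat_lit 3)) (R (nat_lit 143633))
    (p (nat_lit 0x109) (nat_lit 0) (p (nat_lit 0x89) (nat_lit 1) (p (nat_lit 0xc9) (nat_lit 1) (p (nat_lit 0xc1) (nat_lit 0) (p (nat_lit 0x119) (nat_lit 1) (p (nat_lit 0xd1) (nat_lit 0) (p (nat_lit 0x81) (nat_lit 0) (p (nat_lit 0x41) (nat_lit 1) (p (nat_lit 0x8a898a08881a) (nat_lit 0) (p (nat_lit 0xa090988079a) (nat_lit 0) (p (nat_lit 0x88088907871a) (nat_lit 0) (p (nat_lit 0x7880887069a) (nat_lit 0) (p (nat_lit 0x80000800088806860a) (nat_lit 0) (p (nat_lit 0x80000800068786058a) (nat_lit 0) (p (nat_lit 0x8687058502) (nat_lit 0) (p (nat_lit 0x606850482) (nat_lit 0) (p (nat_lit 0x160014) (nat_lit 0) (p (nat_lit 0x68612) (nat_lit 0) (p (nat_lit 0x50592) (nat_lit 0) (p (nat_lit 0x40512) (nat_lit 0) (p (nat_lit 0x50312)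 (nat_lit 0) (p (nat_lit 0x38292) (nat_lit 0) (p (nat_lit 0x28212) (nat_lit 0) (p (nat_lit 0x38112) (nat_lit 0) (p (nat_lit 0x20092) (nat_lit 0) (p (nat_lit 0x10012) (nat_lit 0) pn)))))))))))))))))))))))))) :=
  Cl.node (nat_lit 0x44c2a) (nat_lit 12) (by decide +kernel) (ClAll.succ (ClAll.succ (ClAll.succ (ClAll.succ (ClAll.succ (ClAll.succ (ClAll.succ (ClAll.succ (ClAll.succ (ClAll.succ (ClAll.succ (ClAll.succ ClAll.zero s702) n386) s717) s718) s719) s720) s721) s722) s723) s724) s725) s726)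

def n435 : Cl (O (nat_lit 3)) (R (nat_lit 143633))
    (p (nat_lit 0x109) (nat_lit 1) (p (nat_lit 0x89) (nat_lit 1) (p (nat_lit 0xc9) (nat_lit 1) (p (nat_lit 0xc1) (nat_lit 0) (p (nat_lit 0x119) (nat_lit 1) (p (nat_lit 0xd1) (nat_lit 0) (p (nat_lit 0x81) (nat_lit 0) (p (nat_lit 0x41) (nat_lit 1) (p (nat_lit 0x8a898a08881a) (nat_lit 0) (p (nat_lit 0xa090988079a) (nat_lit 0) (p (nat_lit 0x88088907871a) (nat_lit 0) (p (nat_lit 0x7880887069a) (nat_lit 0) (p (nat_lit 0x80000800088806860a) (nat_lit 0) (p (nat_lit 0x80000800068786058a) (nat_lit 0) (p (nat_lit 0x8687058502) (nat_lit 0) (p (nat_lit 0x606850482) (nat_lit 0) (p (nat_lit 0x160014) (nat_lit 0) (p (nat_lit 0x68612) (nat_lit 0) (p (nat_lit 0x50592) (nat_lit 0) (p (nat_lit 0x40512) (nat_lit 0) (p (nat_lit 0x50312) (nat_lit 0) (p (nat_lit 0x38292) (nat_lit 0) (p (nat_lit 0x28212) (nat_lit 0) (p (nat_lit 0x38112) (nat_lit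 0) (p (nat_lit 0x20092) (nat_lit 0) (p (nat_lit 0x10012) (nat_lit 0) pn)))))))))))))))))))))))))) :=
  Cl.node (nat_lit 0x3c4aa) (nat_lit 12) (by decide +kernel) (ClAll.succ (ClAll.succ (ClAll.succ (ClAll.succ (ClAll.succ (ClAll.succ (ClAll.succ (ClAll.succ (ClAll.succ (ClAll.succ (ClAll.succ (ClAll.succ ClAll.zero s727) s728) s729) s730) s731) s732) s733) n387) s744) s745) n388) s756)

def n436 : Cl (O (nat_lit 3)) (R (nat_lit 143633))
    (p (nat_lit 0x109) (nat_lit 0) (p (nat_lit 0x89) (nat_lit 1) (p (nat_lit 0x101) (nat_lit 0) (p (nat_lit 0xc1) (nat_lit 1) (p (nat_lit 0x119) (nat_lit 1) (p (nat_lit 0xd1) (nat_lit 0) (p (nat_lit 0x81) (nat_lit 0) (p (nat_lit 0x41) (nat_lit 1) (p (nat_lit 0x8a898a08881a) (nat_lit 0) (p (nat_lit 0xa090988079a) (nat_lit 0) (p (nat_lit 0x88088907871a) (nat_lit 0) (p (nat_lit 0x7880887069a) (nat_lit 0) (p (nat_lit 0x80000800088806860a) (nat_lit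 0) (p (nat_lit 0x80000800068786058a) (nat_lit 0) (p (nat_lit 0x8687058502) (nat_lit 0) (p (nat_lit 0x606850482) (nat_lit 0) (p (nat_lit 0x160014) (nat_lit 0) (p (nat_lit 0x68612) (nat_lit 0) (p (nat_lit 0x50592) (nat_lit 0) (p (nat_lit 0x40512) (nat_lit 0) (p (nat_lit 0x50312) (nat_lit 0) (p (nat_lit 0x38292) (nat_lit 0) (p (nat_lit 0x28212) (nat_lit 0) (p (nat_lit 0x38112) (nat_lit 0) (p (nat_lit 0x20092) (nat_lit 0) (p (nat_lit 0x10012) (nat_lit 0) pn)))))))))))))))))))))))))) :=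
  Cl.node (nat_lit 0x44c2a) (nat_lit 12) (by decide +kernel) (ClAll.succ (ClAll.succ (ClAll.succ (ClAll.succ (ClAll.succ (ClAll.succ (ClAll.succ (ClAll.succ (ClAll.succ (ClAll.succ (ClAll.succ (ClAll.succ ClAll.zero s758) n389) s761) s762) s763) s764) s765) s766) s767) s768) s769) s770)

def n437 : Cl (O (nat_lit 3)) (R (nat_lit 143633))
    (p (nat_lit 0x109) (nat_lit 1) (p (nat_lit 0x89) (nat_lit 1) (p (nat_lit 0x101) (nat_lit 0) (p (nat_lit 0xc1) (nat_lit 1) (p (nat_lit 0x119) (nat_lit 1) (p (nat_lit 0xd1) (nat_lit 0) (p (nat_lit 0x81) (nat_lit 0) (p (nat_lit 0x41) (nat_lit 1) (p (nat_lit 0x8a898a08881a) (nat_lit 0) (p (nat_lit 0xa090988079a) (nat_lit 0) (p (nat_lit 0x88088907871a) (nat_lit 0) (p (nat_lit 0x7880887069a) (nat_lit 0) (p (nat_lit 0x80000800088806860a) (nat_lit 0) (p (nat_lit 0x80000800068786058a) (nat_lit 0) (p (nat_lit 0x8687058502) (nat_lit 0) (p (nat_lit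 0x606850482) (nat_lit 0) (p (nat_lit 0x160014) (nat_lit 0) (p (nat_lit 0x68612) (nat_lit 0) (p (nat_lit 0x50592) (nat_lit 0) (p (nat_lit 0x40512) (nat_lit 0) (p (nat_lit 0x50312) (nat_lit 0) (p (nat_lit 0x38292) (nat_lit 0) (p (nat_lit 0x28212) (nat_lit 0) (p (nat_lit 0x38112) (nat_lit 0) (p (nat_lit 0x20092) (nat_lit 0) (p (nat_lit 0x10012) (nat_lit 0) pn)))))))))))))))))))))))))) :=
  Cl.node (nat_lit 0x3c4aa) (nat_lit 12) (by decide +kernel) (ClAll.succ (ClAll.succ (ClAll.succ (ClAll.succ (ClAll.succ (ClAll.succ (ClAll.succ (ClAll.succ (ClAll.succ (ClAll.succ (ClAll.succ (ClAll.succ ClAll.zero s771) s772) s773) s774) s775) s776) s777) n390) s812) s813) n391) s835)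

def n438 : Cl (O (nat_lit 3)) (R (nat_lit 143633))
    (p (nat_lit 0x3c4aa) (nat_lit 7) (p (nat_lit 0x89) (nat_lit 1) (p (nat_lit 0x101) (nat_lit 1) (p (nat_lit 0xc1) (nat_lit 1) (p (nat_lit 0x119) (nat_lit 1) (p (nat_lit 0xd1) (nat_lit 0) (p (nat_lit 0x81) (nat_lit 0) (p (nat_lit 0x41) (nat_lit 1) (p (nat_lit 0x8a898a08881a) (nat_lit 0) (p (nat_lit 0xa090988079a) (nat_lit 0) (p (nat_lit 0x88088907871a) (nat_lit 0) (p (nat_lit 0x7880887069a) (nat_lit 0) (p (nat_lit 0x80000800088806860a) (nat_lit 0) (p (nat_lit 0x80000800068786058a) (nat_lit 0) (p (nat_lit 0x8687058502) (nat_lit 0) (p (nat_lit 0x606850482) (nat_lit 0) (p (nat_lit 0x160014) (nat_lit 0) (p (nat_lit 0x68612) (nat_lit 0) (p (nat_lit 0x50592) (nat_lit 0) (p (nat_lit 0x40512) (nat_lit 0) (p (nat_lit 0x50312) (nat_lit 0) (p (nat_lit 0x38292) (nat_lit 0) (p (nat_lit 0x28212) (nat_lit 0) (p (nat_lit 0x38112) (nat_lit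 0) (p (nat_lit 0x20092) (nat_lit 0) (p (nat_lit 0x10012) (nat_lit 0) pn)))))))))))))))))))))))))) :=
  Cl.node (nat_lit 0x380c2) (nat_lit 2) (by decide +kernel) (ClAll.succ (ClAll.succ ClAll.zero n392) n393)

def n439 : Cl (O (nat_lit 3)) (R (nat_lit 143633))
    (p (nat_lit 0x3c4aa) (nat_lit 10) (p (nat_lit 0x89) (nat_lit 1) (p (nat_lit 0x101) (nat_lit 1) (p (nat_lit 0xc1) (nat_lit 1) (p (nat_lit 0x119) (nat_lit 1) (p (nat_lit 0xd1) (nat_lit 0) (p (nat_lit 0x81) (nat_lit 0) (p (nat_lit 0x41) (nat_lit 1) (p (nat_lit 0x8a898a08881a) (nat_lit 0) (p (nat_lit 0xa090988079a) (nat_lit 0) (p (nat_lit 0x88088907871a) (nat_lit 0) (p (nat_lit 0x7880887069a) (nat_lit 0) (p (nat_lit 0x80000800088806860a) (nat_lit 0) (p (nat_lit 0x80000800068786058a) (nat_lit 0) (p (nat_lit 0x8687058502) (nat_lit 0) (p (nat_lit 0x606850482) (nat_lit 0) (p (nat_lit 0x160014) (nat_lit 0) (p (nat_lit 0x68612)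 (nat_lit 0) (p (nat_lit 0x50592) (nat_lit 0) (p (nat_lit 0x40512) (nat_lit 0) (p (nat_lit 0x50312) (nat_lit 0) (p (nat_lit 0x38292) (nat_lit 0) (p (nat_lit 0x28212) (nat_lit 0) (p (nat_lit 0x38112) (nat_lit 0) (p (nat_lit 0x20092) (nat_lit 0) (p (nat_lit 0x10012) (nat_lit 0) pn)))))))))))))))))))))))))) :=
  Cl.node (nat_lit 0x380c2) (nat_lit 2) (by decide +kernel) (ClAll.succ (ClAll.succ ClAll.zero s858) n394)

def n440 : Cl (O (nat_lit 3)) (R (nat_lit 143633))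
    (p (nat_lit 0xc9) (nat_lit 0) (p (nat_lit 0x89) (nat_lit 1) (p (nat_lit 0x109) (nat_lit 1) (p (nat_lit 0x101) (nat_lit 0) (p (nat_lit 0x111) (nat_lit 0) (p (nat_lit 0xd1) (nat_lit 1) (p (nat_lit 0x81) (nat_lit 0) (p (nat_lit 0x41) (nat_lit 1) (p (nat_lit 0x8a898a08881a) (nat_lit 0) (p (nat_lit 0xa090988079a) (nat_lit 0) (p (nat_lit 0x88088907871a) (nat_lit 0) (p (nat_lit 0x7880887069a) (nat_lit 0) (p (nat_lit 0x80000800088806860a) (nat_lit 0) (p (nat_lit 0x80000800068786058a) (nat_lit 0) (p (nat_lit 0x8687058502) (nat_lit 0) (p (nat_lit 0x606850482) (nat_lit 0) (p (nat_lit 0x160014) (nat_lit 0) (p (nat_lit 0x68612) (nat_lit 0) (p (nat_lit 0x50592) (nat_lit 0) (p (nat_lit 0x40512) (nat_lit 0) (p (nat_lit 0x50312) (nat_lit 0) (p (nat_lit 0x38292) (nat_lit 0) (p (nat_lit 0x28212) (nat_lit 0) (p (nat_lit 0x38112) (nat_lit 0) (p (nat_lit 0x20092) (nat_lit 0) (p (nat_lit 0x10012)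 (nat_lit 0) pn)))))))))))))))))))))))))) :=
  Cl.node (nat_lit 0x119) (nat_lit 2) (by decide +kernel) (ClAll.succ (ClAll.succ ClAll.zero n395) s880)

def n441 : Cl (O (nat_lit 3)) (R (nat_lit 143633))
    (p (nat_lit 0xc9) (nat_lit 1) (p (nat_lit 0x89) (nat_lit 1) (p (nat_lit 0x109) (nat_lit 1) (p (nat_lit 0x101) (nat_lit 0) (p (nat_lit 0x111) (nat_lit 0) (p (nat_lit 0xd1) (nat_lit 1) (p (nat_lit 0x81) (nat_lit 0) (p (nat_lit 0x41) (nat_lit 1) (p (nat_lit 0x8a898a08881a) (nat_lit 0) (p (nat_lit 0xa090988079a) (nat_lit 0) (p (nat_lit 0x88088907871a) (nat_lit 0) (p (nat_lit 0x7880887069a) (nat_lit 0) (p (nat_lit 0x80000800088806860a) (nat_lit 0) (p (nat_lit 0x80000800068786058a) (nat_lit 0) (p (nat_lit 0x8687058502) (nat_lit 0) (p (nat_lit 0x606850482) (nat_lit 0) (p (nat_lit 0x160014) (nat_lit 0) (p (nat_lit 0x68612) (nat_lit 0) (p (nat_lit 0x50592) (nat_lit 0) (p (nat_lit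 0x40512) (nat_lit 0) (p (nat_lit 0x50312) (nat_lit 0) (p (nat_lit 0x38292) (nat_lit 0) (p (nat_lit 0x28212) (nat_lit 0) (p (nat_lit 0x38112) (nat_lit 0) (p (nat_lit 0x20092) (nat_lit 0) (p (nat_lit 0x10012) (nat_lit 0) pn)))))))))))))))))))))))))) :=
  Cl.node (nat_lit 0x4c42a) (nat_lit 12) (by decide +kernel) (ClAll.succ (ClAll.succ (ClAll.succ (ClAll.succ (ClAll.succ (ClAll.succ (ClAll.succ (ClAll.succ (ClAll.succ (ClAll.succ (ClAll.succ (ClAll.succ ClAll.zero s881) s882) s883) s884) s885) s886) s887) s888) s889) s890) s891) s892)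

def n442 : Cl (O (nat_lit 3)) (R (nat_lit 143633))
    (p (nat_lit 0x3c4aa) (nat_lit 7) (p (nat_lit 0xc9) (nat_lit 1) (p (nat_lit 0x89) (nat_lit 1) (p (nat_lit 0x101) (nat_lit 1) (p (nat_lit 0x111) (nat_lit 0) (p (nat_lit 0xd1) (nat_lit 1) (p (nat_lit 0x81) (nat_lit 0) (p (nat_lit 0x41) (nat_lit 1) (p (nat_lit 0x8a898a08881a) (nat_lit 0) (p (nat_lit 0xa090988079a) (nat_lit 0) (p (nat_lit 0x88088907871a) (nat_lit 0) (p (nat_lit 0x7880887069a) (nat_lit 0) (p (nat_lit 0x80000800088806860a) (nat_lit 0) (p (nat_lit 0x80000800068786058a) (nat_lit 0) (p (nat_lit 0x8687058502) (nat_lit 0) (p (nat_lit 0x606850482) (nat_lit 0) (p (nat_lit 0x160014) (nat_lit 0) (p (nat_lit 0x68612) (nat_lit 0) (p (nat_lit 0x50592) (nat_lit 0) (p (nat_lit 0x40512) (nat_lit 0) (p (nat_lit 0x50312) (nat_lit 0) (p (nat_lit 0x38292) (nat_lit 0) (p (nat_lit 0x28212) (nat_lit 0) (p (nat_lit 0x38112) (nat_lit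 0) (p (nat_lit 0x20092) (nat_lit 0) (p (nat_lit 0x10012) (nat_lit 0) pn)))))))))))))))))))))))))) :=
  Cl.node (nat_lit 0x380c2) (nat_lit 2) (by decide +kernel) (ClAll.succ (ClAll.succ ClAll.zero s924) s925)

def n443 : Cl (O (nat_lit 3)) (R (nat_lit 143633))
    (p (nat_lit 0xd1) (nat_lit 1) (p (nat_lit 0x111) (nat_lit 1) (p (nat_lit 0x109) (nat_lit 0) (p (nat_lit 0x101) (nat_lit 0) (p (nat_lit 0x119) (nat_lit 0) (p (nat_lit 0xc1) (nat_lit 0) (p (nat_lit 0x81) (nat_lit 1) (p (nat_lit 0x41) (nat_lit 1) (p (nat_lit 0x8a898a08881a) (nat_lit 0) (p (nat_lit 0xa090988079a) (nat_lit 0) (p (nat_lit 0x88088907871a) (nat_lit 0) (p (nat_lit 0x7880887069a) (nat_lit 0) (p (nat_lit 0x80000800088806860a) (nat_lit 0) (p (nat_lit 0x80000800068786058a) (nat_lit 0) (p (nat_lit 0x8687058502) (nat_lit 0) (p (nat_lit 0x606850482) (nat_lit 0) (p (nat_lit 0x160014) (nat_lit 0) (p (nat_lit 0x68612)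 (nat_lit 0) (p (nat_lit 0x50592) (nat_lit 0) (p (nat_lit 0x40512) (nat_lit 0) (p (nat_lit 0x50312) (nat_lit 0) (p (nat_lit 0x38292) (nat_lit 0) (p (nat_lit 0x28212) (nat_lit 0) (p (nat_lit 0x38112) (nat_lit 0) (p (nat_lit 0x20092) (nat_lit 0) (p (nat_lit 0x10012) (nat_lit 0) pn)))))))))))))))))))))))))) :=
  Cl.node (nat_lit 0x3c4aa) (nat_lit 12) (by decide +kernel) (ClAll.succ (ClAll.succ (ClAll.succ (ClAll.succ (ClAll.succ (ClAll.succ (ClAll.succ (ClAll.succ (ClAll.succ (ClAll.succ (ClAll.succ (ClAll.succ ClAll.zero s936) s937) s938) s939) s940) s941) s942) n396) s980) s981) s982) s983)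

def n444 : Cl (O (nat_lit 3)) (R (nat_lit 143633))
    (p (nat_lit 0xd1) (nat_lit 1) (p (nat_lit 0xc9) (nat_lit 0) (p (nat_lit 0x109) (nat_lit 1) (p (nat_lit 0x101) (nat_lit 0) (p (nat_lit 0x119) (nat_lit 0) (p (nat_lit 0xc1) (nat_lit 0) (p (nat_lit 0x81) (nat_lit 1) (p (nat_lit 0x41) (nat_lit 1) (p (nat_lit 0x8a898a08881a) (nat_lit 0) (p (nat_lit 0xa090988079a) (nat_lit 0) (p (nat_lit 0x88088907871a) (nat_lit 0) (p (nat_lit 0x7880887069a) (nat_lit 0) (p (nat_lit 0x80000800088806860a) (nat_lit 0) (p (nat_lit 0x80000800068786058a) (nat_lit 0) (p (nat_lit 0x8687058502) (nat_lit 0) (p (nat_lit 0x606850482) (nat_lit 0) (p (nat_lit 0x160014) (nat_lit 0) (p (nat_lit 0x68612) (nat_lit 0) (p (nat_lit 0x50592) (nat_lit 0) (p (nat_lit 0x40512) (nat_lit 0) (p (nat_lit 0x50312) (nat_lit 0) (p (nat_lit 0x38292) (nat_lit 0) (p (nat_lit 0x28212) (nat_lit 0) (p (nat_lit 0x38112) (nat_lit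 0) (p (nat_lit 0x20092) (nat_lit 0) (p (nat_lit 0x10012) (nat_lit 0) pn)))))))))))))))))))))))))) :=
  Cl.node (nat_lit 0x3c4aa) (nat_lit 12) (by decide +kernel) (ClAll.succ (ClAll.succ (ClAll.succ (ClAll.succ (ClAll.succ (ClAll.succ (ClAll.succ (ClAll.succ (ClAll.succ (ClAll.succ (ClAll.succ (ClAll.succ ClAll.zero s985) s986) s987) s988) s989) s990) s991) n397) s1004) s1005) s1006) s1007)

def n445 : Cl (O (nat_lit 3)) (R (nat_lit 143633))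
    (p (nat_lit 0x44c2a) (nat_lit 0) (p (nat_lit 0xd1) (nat_lit 0) (p (nat_lit 0xc9) (nat_lit 0) (p (nat_lit 0x101) (nat_lit 1) (p (nat_lit 0x119) (nat_lit 0) (p (nat_lit 0xc1) (nat_lit 0) (p (nat_lit 0x81) (nat_lit 1) (p (nat_lit 0x41) (nat_lit 1) (p (nat_lit 0x8a898a08881a) (nat_lit 0) (p (nat_lit 0xa090988079a) (nat_lit 0) (p (nat_lit 0x88088907871a) (nat_lit 0) (p (nat_lit 0x7880887069a) (nat_lit 0) (p (nat_lit 0x80000800088806860a) (nat_lit 0) (p (nat_lit 0x80000800068786058a) (nat_lit 0) (p (nat_lit 0x8687058502) (nat_lit 0) (p (nat_lit 0x606850482) (nat_lit 0) (p (nat_lit 0x160014) (nat_lit 0) (p (nat_lit 0x68612) (nat_lit 0) (p (nat_lit 0x50592) (nat_lit 0) (p (nat_lit 0x40512) (nat_lit 0) (p (nat_lit 0x50312) (nat_lit 0) (p (nat_lit 0x38292) (nat_lit 0) (p (nat_lit 0x28212) (nat_lit 0) (p (nat_lit 0x38112) (nat_lit 0) (p (nat_lit 0x20092) (nat_lit 0) (p (nat_lit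 0x10012) (nat_lit 0) pn)))))))))))))))))))))))))) :=
  Cl.node (nat_lit 0x380c2) (nat_lit 1) (by decide +kernel) (ClAll.succ ClAll.zero n398)

def n446 : Cl (O (nat_lit 3)) (R (nat_lit 143633))
    (p (nat_lit 0x3c4aa) (nat_lit 7) (p (nat_lit 0xd1) (nat_lit 1) (p (nat_lit 0xc9) (nat_lit 0) (p (nat_lit 0x101) (nat_lit 1) (p (nat_lit 0x119) (nat_lit 0) (p (nat_lit 0xc1) (nat_lit 0) (p (nat_lit 0x81) (nat_lit 1) (p (nat_lit 0x41) (nat_lit 1) (p (nat_lit 0x8a898a08881a) (nat_lit 0) (p (nat_lit 0xa090988079a) (nat_lit 0) (p (nat_lit 0x88088907871a) (nat_lit 0) (p (nat_lit 0x7880887069a) (nat_lit 0) (p (nat_lit 0x80000800088806860a) (nat_lit 0) (p (nat_lit 0x80000800068786058a) (nat_lit 0) (p (nat_lit 0x8687058502) (nat_lit 0) (p (nat_lit 0x606850482) (nat_lit 0) (p (nat_lit 0x160014) (nat_lit 0) (p (nat_lit 0x68612) (nat_lit 0) (p (nat_lit 0x50592) (nat_lit 0) (p (nat_lit 0x40512)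 (nat_lit 0) (p (nat_lit 0x50312) (nat_lit 0) (p (nat_lit 0x38292) (nat_lit 0) (p (nat_lit 0x28212) (nat_lit 0) (p (nat_lit 0x38112) (nat_lit 0) (p (nat_lit 0x20092) (nat_lit 0) (p (nat_lit 0x10012) (nat_lit 0) pn)))))))))))))))))))))))))) :=
  Cl.node (nat_lit 0x380c2) (nat_lit 2) (by decide +kernel) (ClAll.succ (ClAll.succ ClAll.zero n399) n400)

def n447 : Cl (O (nat_lit 3)) (R (nat_lit 143633))
    (p (nat_lit 0x3c4aa) (nat_lit 7) (p (nat_lit 0x111) (nat_lit 1) (p (nat_lit 0xd1) (nat_lit 1) (p (nat_lit 0xc9) (nat_lit 0) (p (nat_lit 0x119) (nat_lit 1) (p (nat_lit 0xc1) (nat_lit 0) (p (nat_lit 0x81) (nat_lit 1) (p (nat_lit 0x41) (nat_lit 1) (p (nat_lit 0x8a898a08881a) (nat_lit 0) (p (nat_lit 0xa090988079a) (nat_lit 0) (p (nat_lit 0x88088907871a) (nat_lit 0) (p (nat_lit 0x7880887069a) (nat_lit 0) (p (nat_lit 0x80000800088806860a) (nat_lit 0) (p (nat_lit 0x80000800068786058a)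 (nat_lit 0) (p (nat_lit 0x8687058502) (nat_lit 0) (p (nat_lit 0x606850482) (nat_lit 0) (p (nat_lit 0x160014) (nat_lit 0) (p (nat_lit 0x68612) (nat_lit 0) (p (nat_lit 0x50592) (nat_lit 0) (p (nat_lit 0x40512) (nat_lit 0) (p (nat_lit 0x50312) (nat_lit 0) (p (nat_lit 0x38292) (nat_lit 0) (p (nat_lit 0x28212) (nat_lit 0) (p (nat_lit 0x38112) (nat_lit 0) (p (nat_lit 0x20092) (nat_lit 0) (p (nat_lit 0x10012) (nat_lit 0) pn)))))))))))))))))))))))))) :=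
  Cl.node (nat_lit 0x380c2) (nat_lit 2) (by decide +kernel) (ClAll.succ (ClAll.succ ClAll.zero n401) n402)

def n448 : Cl (O (nat_lit 3)) (R (nat_lit 143633))
    (p (nat_lit 0x3c4aa) (nat_lit 7) (p (nat_lit 0x111) (nat_lit 1) (p (nat_lit 0x109) (nat_lit 0) (p (nat_lit 0xc9) (nat_lit 1) (p (nat_lit 0x119) (nat_lit 1) (p (nat_lit 0xc1) (nat_lit 0) (p (nat_lit 0x81) (nat_lit 1) (p (nat_lit 0x41) (nat_lit 1) (p (nat_lit 0x8a898a08881a) (nat_lit 0) (p (nat_lit 0xa090988079a) (nat_lit 0) (p (nat_lit 0x88088907871a) (nat_lit 0) (p (nat_lit 0x7880887069a) (nat_lit 0) (p (nat_lit 0x80000800088806860a) (nat_lit 0) (p (nat_lit 0x80000800068786058a) (nat_lit 0) (p (nat_lit 0x8687058502) (nat_lit 0) (p (nat_lit 0x606850482) (nat_lit 0) (p (nat_lit 0x160014) (nat_lit 0) (p (nat_lit 0x68612) (nat_lit 0) (p (nat_lit 0x50592) (nat_lit 0) (p (nat_lit 0x40512) (nat_lit 0) (p (nat_lit 0x50312)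 (nat_lit 0) (p (nat_lit 0x38292) (nat_lit 0) (p (nat_lit 0x28212) (nat_lit 0) (p (nat_lit 0x38112) (nat_lit 0) (p (nat_lit 0x20092) (nat_lit 0) (p (nat_lit 0x10012) (nat_lit 0) pn)))))))))))))))))))))))))) :=
  Cl.node (nat_lit 0x380c2) (nat_lit 2) (by decide +kernel) (ClAll.succ (ClAll.succ ClAll.zero n403) n404)

def n449 : Cl (O (nat_lit 3)) (R (nat_lit 143633))
    (p (nat_lit 0x3c4aa) (nat_lit 10) (p (nat_lit 0x111) (nat_lit 1) (p (nat_lit 0x109) (nat_lit 0) (p (nat_lit 0xc9) (nat_lit 1) (p (nat_lit 0x119) (nat_lit 1) (p (nat_lit 0xc1) (nat_lit 0) (p (nat_lit 0x81) (nat_lit 1) (p (nat_lit 0x41) (nat_lit 1) (p (nat_lit 0x8a898a08881a) (nat_lit 0) (p (nat_lit 0xa090988079a) (nat_lit 0) (p (nat_lit 0x88088907871a) (nat_lit 0) (p (nat_lit 0x7880887069a) (nat_lit 0) (p (nat_lit 0x80000800088806860a) (nat_lit 0) (p (nat_lit 0x80000800068786058a) (nat_lit 0) (p (nat_lit 0x8687058502)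 (nat_lit 0) (p (nat_lit 0x606850482) (nat_lit 0) (p (nat_lit 0x160014) (nat_lit 0) (p (nat_lit 0x68612) (nat_lit 0) (p (nat_lit 0x50592) (nat_lit 0) (p (nat_lit 0x40512) (nat_lit 0) (p (nat_lit 0x50312) (nat_lit 0) (p (nat_lit 0x38292) (nat_lit 0) (p (nat_lit 0x28212) (nat_lit 0) (p (nat_lit 0x38112) (nat_lit 0) (p (nat_lit 0x20092) (nat_lit 0) (p (nat_lit 0x10012) (nat_lit 0) pn)))))))))))))))))))))))))) :=
  Cl.node (nat_lit 0x380c2) (nat_lit 2) (by decide +kernel) (ClAll.succ (ClAll.succ ClAll.zero n405) s1142)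

def n450 : Cl (O (nat_lit 3)) (R (nat_lit 143633))
    (p (nat_lit 0x3c4aa) (nat_lit 7) (p (nat_lit 0x119) (nat_lit 1) (p (nat_lit 0x111) (nat_lit 0) (p (nat_lit 0x109) (nat_lit 0) (p (nat_lit 0x101) (nat_lit 0) (p (nat_lit 0xc1) (nat_lit 1) (p (nat_lit 0x81) (nat_lit 1) (p (nat_lit 0x41) (nat_lit 1) (p (nat_lit 0x8a898a08881a) (nat_lit 0) (p (nat_lit 0xa090988079a) (nat_lit 0) (p (nat_lit 0x88088907871a) (nat_lit 0) (p (nat_lit 0x7880887069a) (nat_lit 0) (p (nat_lit 0x80000800088806860a) (nat_lit 0) (p (nat_lit 0x80000800068786058a) (nat_lit 0) (p (nat_lit 0x8687058502) (nat_lit 0) (p (nat_lit 0x606850482) (nat_lit 0) (p (nat_lit 0x160014) (nat_lit 0) (p (nat_lit 0x68612) (nat_lit 0) (p (nat_lit 0x50592) (nat_lit 0) (p (nat_lit 0x40512) (nat_lit 0) (p (nat_lit 0x50312) (nat_lit 0) (p (nat_lit 0x38292) (nat_lit 0) (p (nat_lit 0x28212) (nat_lit 0) (p (nat_lit 0x38112) (nat_lit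 0) (p (nat_lit 0x20092) (nat_lit 0) (p (nat_lit 0x10012) (nat_lit 0) pn)))))))))))))))))))))))))) :=
  Cl.node (nat_lit 0x380c2) (nat_lit 2) (by decide +kernel) (ClAll.succ (ClAll.succ ClAll.zero s1164) n406)

def n451 : Cl (O (nat_lit 3)) (R (nat_lit 143633))
    (p (nat_lit 0xc9) (nat_lit 1) (p (nat_lit 0x109) (nat_lit 1) (p (nat_lit 0x101) (nat_lit 0) (p (nat_lit 0x119) (nat_lit 0) (p (nat_lit 0xd1) (nat_lit 0) (p (nat_lit 0x89) (nat_lit 0) (p (nat_lit 0x41) (nat_lit 0) (p (nat_lit 0x8a898a08881a) (nat_lit 0) (p (nat_lit 0xa090988079a) (nat_lit 0) (p (nat_lit 0x88088907871a) (nat_lit 0) (p (nat_lit 0x7880887069a) (nat_lit 0) (p (nat_lit 0x80000800088806860a) (nat_lit 0) (p (nat_lit 0x80000800068786058a) (nat_lit 0) (p (nat_lit 0x8687058502) (nat_lit 0) (p (nat_lit 0x606850482) (nat_lit 0) (p (nat_lit 0x160014) (nat_lit 0) (p (nat_lit 0x68612) (nat_lit 0) (p (nat_lit 0x50592)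 (nat_lit 0) (p (nat_lit 0x40512) (nat_lit 0) (p (nat_lit 0x50312) (nat_lit 0) (p (nat_lit 0x38292) (nat_lit 0) (p (nat_lit 0x28212) (nat_lit 0) (p (nat_lit 0x38112) (nat_lit 0) (p (nat_lit 0x20092) (nat_lit 0) (p (nat_lit 0x10012) (nat_lit 0) pn))))))))))))))))))))))))) :=
  Cl.node (nat_lit 0x81) (nat_lit 2) (by decide +kernel) (ClAll.succ (ClAll.succ ClAll.zero s2) n407)

def n452 : Cl (O (nat_lit 3)) (R (nat_lit 143633))
    (p (nat_lit 0xc9) (nat_lit 0) (p (nat_lit 0x81) (nat_lit 0) (p (nat_lit 0x101) (nat_lit 1) (p (nat_lit 0x119) (nat_lit 0) (p (nat_lit 0xd1) (nat_lit 0) (p (nat_lit 0x89) (nat_lit 0) (p (nat_lit 0x41) (nat_lit 0) (p (nat_lit 0x8a898a08881a) (nat_lit 0) (p (nat_lit 0xa090988079a) (nat_lit 0) (p (nat_lit 0x88088907871a) (nat_lit 0) (p (nat_lit 0x7880887069a) (nat_lit 0) (p (nat_lit 0x80000800088806860a) (nat_lit 0) (p (nat_lit 0x80000800068786058a) (nat_lit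 0) (p (nat_lit 0x8687058502) (nat_lit 0) (p (nat_lit 0x606850482) (nat_lit 0) (p (nat_lit 0x160014) (nat_lit 0) (p (nat_lit 0x68612) (nat_lit 0) (p (nat_lit 0x50592) (nat_lit 0) (p (nat_lit 0x40512) (nat_lit 0) (p (nat_lit 0x50312) (nat_lit 0) (p (nat_lit 0x38292) (nat_lit 0) (p (nat_lit 0x28212) (nat_lit 0) (p (nat_lit 0x38112) (nat_lit 0) (p (nat_lit 0x20092) (nat_lit 0) (p (nat_lit 0x10012) (nat_lit 0) pn))))))))))))))))))))))))) :=
  Cl.node (nat_lit 0x111) (nat_lit 2) (by decide +kernel) (ClAll.succ (ClAll.succ ClAll.zero n408) s45)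

def n453 : Cl (O (nat_lit 3)) (R (nat_lit 143633))
    (p (nat_lit 0xc9) (nat_lit 1) (p (nat_lit 0x81) (nat_lit 0) (p (nat_lit 0x101) (nat_lit 1) (p (nat_lit 0x119) (nat_lit 0) (p (nat_lit 0xd1) (nat_lit 0) (p (nat_lit 0x89) (nat_lit 0) (p (nat_lit 0x41) (nat_lit 0) (p (nat_lit 0x8a898a08881a) (nat_lit 0) (p (nat_lit 0xa090988079a) (nat_lit 0) (p (nat_lit 0x88088907871a) (nat_lit 0) (p (nat_lit 0x7880887069a) (nat_lit 0) (p (nat_lit 0x80000800088806860a) (nat_lit 0) (p (nat_lit 0x80000800068786058a) (nat_lit 0) (p (nat_lit 0x8687058502) (nat_lit 0) (p (nat_lit 0x606850482) (nat_lit 0) (p (nat_lit 0x160014) (nat_lit 0) (p (nat_lit 0x68612) (nat_lit 0) (p (nat_lit 0x50592) (nat_lit 0) (p (nat_lit 0x40512) (nat_lit 0) (p (nat_lit 0x50312) (nat_lit 0) (p (nat_lit 0x38292) (nat_lit 0) (p (nat_lit 0x28212) (nat_lit 0) (p (nat_lit 0x38112) (nat_lit 0) (p (nat_lit 0x20092) (nat_lit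 0) (p (nat_lit 0x10012) (nat_lit 0) pn))))))))))))))))))))))))) :=
  Cl.node (nat_lit 0x111) (nat_lit 2) (by decide +kernel) (ClAll.succ (ClAll.succ ClAll.zero n409) s73)

def n454 : Cl (O (nat_lit 3)) (R (nat_lit 143633))
    (p (nat_lit 0xc1) (nat_lit 0) (p (nat_lit 0x81) (nat_lit 1) (p (nat_lit 0x101) (nat_lit 1) (p (nat_lit 0x119) (nat_lit 0) (p (nat_lit 0xd1) (nat_lit 0) (p (nat_lit 0x89) (nat_lit 0) (p (nat_lit 0x41) (nat_lit 0) (p (nat_lit 0x8a898a08881a) (nat_lit 0) (p (nat_lit 0xa090988079a) (nat_lit 0) (p (nat_lit 0x88088907871a) (nat_lit 0) (p (nat_lit 0x7880887069a) (nat_lit 0) (p (nat_lit 0x80000800088806860a) (nat_lit 0) (p (nat_lit 0x80000800068786058a) (nat_lit 0) (p (nat_lit 0x8687058502) (nat_lit 0) (p (nat_lit 0x606850482) (nat_lit 0) (p (nat_lit 0x160014) (nat_lit 0) (p (nat_lit 0x68612) (nat_lit 0) (p (nat_lit 0x50592) (nat_lit 0) (p (nat_lit 0x40512)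 (nat_lit 0) (p (nat_lit 0x50312) (nat_lit 0) (p (nat_lit 0x38292) (nat_lit 0) (p (nat_lit 0x28212) (nat_lit 0) (p (nat_lit 0x38112) (nat_lit 0) (p (nat_lit 0x20092) (nat_lit 0) (p (nat_lit 0x10012) (nat_lit 0) pn))))))))))))))))))))))))) :=
  Cl.node (nat_lit 0xc9) (nat_lit 2) (by decide +kernel) (ClAll.succ (ClAll.succ ClAll.zero n410) n411)

def n455 : Cl (O (nat_lit 3)) (R (nat_lit 143633))
    (p (nat_lit 0x109) (nat_lit 1) (p (nat_lit 0xc9) (nat_lit 1) (p (nat_lit 0xc1) (nat_lit 0) (p (nat_lit 0x119) (nat_lit 1) (p (nat_lit 0xd1) (nat_lit 0) (p (nat_lit 0x89) (nat_lit 0) (p (nat_lit 0x41) (nat_lit 0) (p (nat_lit 0x8a898a08881a) (nat_lit 0) (p (nat_lit 0xa090988079a) (nat_lit 0) (p (nat_lit 0x88088907871a) (nat_lit 0) (p (nat_lit 0x7880887069a) (nat_lit 0) (p (nat_lit 0x80000800088806860a) (nat_lit 0) (p (nat_lit 0x80000800068786058a) (nat_lit 0) (p (nat_lit 0x8687058502)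 (nat_lit 0) (p (nat_lit 0x606850482) (nat_lit 0) (p (nat_lit 0x160014) (nat_lit 0) (p (nat_lit 0x68612) (nat_lit 0) (p (nat_lit 0x50592) (nat_lit 0) (p (nat_lit 0x40512) (nat_lit 0) (p (nat_lit 0x50312) (nat_lit 0) (p (nat_lit 0x38292) (nat_lit 0) (p (nat_lit 0x28212) (nat_lit 0) (p (nat_lit 0x38112) (nat_lit 0) (p (nat_lit 0x20092) (nat_lit 0) (p (nat_lit 0x10012) (nat_lit 0) pn))))))))))))))))))))))))) :=
  Cl.node (nat_lit 0x3cc2a) (nat_lit 12) (by decide +kernel) (ClAll.succ (ClAll.succ (ClAll.succ (ClAll.succ (ClAll.succ (ClAll.succ (ClAll.succ (ClAll.succ (ClAll.succ (ClAll.succ (ClAll.succ (ClAll.succ ClAll.zero s107) s108) s109) s110) s111) s112) s113) s114) s115) s116) n412) n413)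

def n456 : Cl (O (nat_lit 3)) (R (nat_lit 143633))
    (p (nat_lit 0x109) (nat_lit 1) (p (nat_lit 0x81) (nat_lit 0) (p (nat_lit 0xc1) (nat_lit 1) (p (nat_lit 0x119) (nat_lit 1) (p (nat_lit 0xd1) (nat_lit 0) (p (nat_lit 0x89) (nat_lit 0) (p (nat_lit 0x41) (nat_lit 0) (p (nat_lit 0x8a898a08881a) (nat_lit 0) (p (nat_lit 0xa090988079a) (nat_lit 0) (p (nat_lit 0x88088907871a) (nat_lit 0) (p (nat_lit 0x7880887069a) (nat_lit 0) (p (nat_lit 0x80000800088806860a) (nat_lit 0) (p (nat_lit 0x80000800068786058a) (nat_lit 0) (p (nat_lit 0x8687058502) (nat_lit 0) (p (nat_lit 0x606850482) (nat_lit 0) (p (nat_lit 0x160014) (nat_lit 0) (p (nat_lit 0x68612) (nat_lit 0) (p (nat_lit 0x50592) (nat_lit 0) (p (nat_lit 0x40512) (nat_lit 0) (p (nat_lit 0x50312) (nat_lit 0) (p (nat_lit 0x38292) (nat_lit 0) (p (nat_lit 0x28212) (nat_lit 0) (p (nat_lit 0x38112) (nat_lit 0) (p (nat_lit 0x20092) (nat_lit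 0) (p (nat_lit 0x10012) (nat_lit 0) pn))))))))))))))))))))))))) :=
  Cl.node (nat_lit 0x3cc2a) (nat_lit 12) (by decide +kernel) (ClAll.succ (ClAll.succ (ClAll.succ (ClAll.succ (ClAll.succ (ClAll.succ (ClAll.succ (ClAll.succ (ClAll.succ (ClAll.succ (ClAll.succ (ClAll.succ ClAll.zero s164) s165) s166) s167) s168) s169) s170) s171) s172) s173) s174) s175)

def n457 : Cl (O (nat_lit 3)) (R (nat_lit 143633))
    (p (nat_lit 0x101) (nat_lit 0) (p (nat_lit 0x81) (nat_lit 1) (p (nat_lit 0xc1) (nat_lit 1) (p (nat_lit 0x119) (nat_lit 1) (p (nat_lit 0xd1) (nat_lit 0) (p (nat_lit 0x89) (nat_lit 0) (p (nat_lit 0x41) (nat_lit 0) (p (nat_lit 0x8a898a08881a) (nat_lit 0) (p (nat_lit 0xa090988079a) (nat_lit 0) (p (nat_lit 0x88088907871a) (nat_lit 0) (p (nat_lit 0x7880887069a) (nat_lit 0) (p (nat_lit 0x80000800088806860a) (nat_lit 0) (p (nat_lit 0x80000800068786058a) (nat_lit 0) (p (nat_lit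 0x8687058502) (nat_lit 0) (p (nat_lit 0x606850482) (nat_lit 0) (p (nat_lit 0x160014) (nat_lit 0) (p (nat_lit 0x68612) (nat_lit 0) (p (nat_lit 0x50592) (nat_lit 0) (p (nat_lit 0x40512) (nat_lit 0) (p (nat_lit 0x50312) (nat_lit 0) (p (nat_lit 0x38292) (nat_lit 0) (p (nat_lit 0x28212) (nat_lit 0) (p (nat_lit 0x38112) (nat_lit 0) (p (nat_lit 0x20092) (nat_lit 0) (p (nat_lit 0x10012) (nat_lit 0) pn))))))))))))))))))))))))) :=
  Cl.node (nat_lit 0x109) (nat_lit 2) (by decide +kernel) (ClAll.succ (ClAll.succ ClAll.zero n414) n415)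

def n458 : Cl (O (nat_lit 3)) (R (nat_lit 143633))
    (p (nat_lit 0x101) (nat_lit 1) (p (nat_lit 0x81) (nat_lit 1) (p (nat_lit 0xc1) (nat_lit 1) (p (nat_lit 0x119) (nat_lit 1) (p (nat_lit 0xd1) (nat_lit 0) (p (nat_lit 0x89) (nat_lit 0) (p (nat_lit 0x41) (nat_lit 0) (p (nat_lit 0x8a898a08881a) (nat_lit 0) (p (nat_lit 0xa090988079a) (nat_lit 0) (p (nat_lit 0x88088907871a) (nat_lit 0) (p (nat_lit 0x7880887069a) (nat_lit 0) (p (nat_lit 0x80000800088806860a) (nat_lit 0) (p (nat_lit 0x80000800068786058a) (nat_lit 0) (p (nat_lit 0x8687058502) (nat_lit 0) (p (nat_lit 0x606850482) (nat_lit 0) (p (nat_lit 0x160014) (nat_lit 0) (p (nat_lit 0x68612) (nat_lit 0) (p (nat_lit 0x50592) (nat_lit 0) (p (nat_lit 0x40512) (nat_lit 0) (p (nat_lit 0x50312) (nat_lit 0) (p (nat_lit 0x38292) (nat_lit 0) (p (nat_lit 0x28212) (nat_lit 0) (p (nat_lit 0x38112) (nat_lit 0) (p (nat_lit 0x20092) (nat_lit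 0) (p (nat_lit 0x10012) (nat_lit 0) pn))))))))))))))))))))))))) :=
  Cl.node (nat_lit 0x444aa) (nat_lit 12) (by decide +kernel) (ClAll.succ (ClAll.succ (ClAll.succ (ClAll.succ (ClAll.succ (ClAll.succ (ClAll.succ (ClAll.succ (ClAll.succ (ClAll.succ (ClAll.succ (ClAll.succ ClAll.zero s231) s232) s233) s234) s235) s236) s237) s238) s239) s240) s241) s242)

def n459 : Cl (O (nat_lit 3)) (R (nat_lit 143633))
    (p (nat_lit 0xc1) (nat_lit 1) (p (nat_lit 0x109) (nat_lit 1) (p (nat_lit 0x101) (nat_lit 0) (p (nat_lit 0x111) (nat_lit 0) (p (nat_lit 0xd1) (nat_lit 1) (p (nat_lit 0x89) (nat_lit 0) (p (nat_lit 0x41) (nat_lit 0) (p (nat_lit 0x8a898a08881a) (nat_lit 0) (p (nat_lit 0xa090988079a) (nat_lit 0) (p (nat_lit 0x88088907871a) (nat_lit 0) (p (nat_lit 0x7880887069a) (nat_lit 0) (p (nat_lit 0x80000800088806860a) (nat_lit 0) (p (nat_lit 0x80000800068786058a) (nat_lit 0) (p (nat_lit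 0x8687058502) (nat_lit 0) (p (nat_lit 0x606850482) (nat_lit 0) (p (nat_lit 0x160014) (nat_lit 0) (p (nat_lit 0x68612) (nat_lit 0) (p (nat_lit 0x50592) (nat_lit 0) (p (nat_lit 0x40512) (nat_lit 0) (p (nat_lit 0x50312) (nat_lit 0) (p (nat_lit 0x38292) (nat_lit 0) (p (nat_lit 0x28212) (nat_lit 0) (p (nat_lit 0x38112) (nat_lit 0) (p (nat_lit 0x20092) (nat_lit 0) (p (nat_lit 0x10012) (nat_lit 0) pn))))))))))))))))))))))))) :=
  Cl.node (nat_lit 0x200004) (nat_lit 2) (by decide +kernel) (ClAll.succ (ClAll.succ ClAll.zero n416) s262)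

def n460 : Cl (O (nat_lit 3)) (R (nat_lit 143633))
    (p (nat_lit 0x119) (nat_lit 0) (p (nat_lit 0x81) (nat_lit 0) (p (nat_lit 0x101) (nat_lit 1) (p (nat_lit 0x111) (nat_lit 0) (p (nat_lit 0xd1) (nat_lit 1) (p (nat_lit 0x89) (nat_lit 0) (p (nat_lit 0x41) (nat_lit 0) (p (nat_lit 0x8a898a08881a) (nat_lit 0) (p (nat_lit 0xa090988079a) (nat_lit 0) (p (nat_lit 0x88088907871a) (nat_lit 0) (p (nat_lit 0x7880887069a) (nat_lit 0) (p (nat_lit 0x80000800088806860a) (nat_lit 0) (p (nat_lit 0x80000800068786058a) (nat_lit 0) (p (nat_lit 0x8687058502) (nat_lit 0) (p (nat_lit 0x606850482) (nat_lit 0) (p (nat_lit 0x160014) (nat_lit 0) (p (nat_lit 0x68612) (nat_lit 0) (p (nat_lit 0x50592) (nat_lit 0) (p (nat_lit 0x40512) (nat_lit 0) (p (nat_lit 0x50312) (nat_lit 0) (p (nat_lit 0x38292) (nat_lit 0) (p (nat_lit 0x28212) (nat_lit 0) (p (nat_lit 0x38112) (nat_lit 0) (p (nat_lit 0x20092) (nat_lit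 0) (p (nat_lit 0x10012) (nat_lit 0) pn))))))))))))))))))))))))) :=
  Cl.node (nat_lit 0x200004) (nat_lit 2) (by decide +kernel) (ClAll.succ (ClAll.succ ClAll.zero n417) s281)

def n461 : Cl (O (nat_lit 3)) (R (nat_lit 143633))
    (p (nat_lit 0x119) (nat_lit 1) (p (nat_lit 0x81) (nat_lit 0) (p (nat_lit 0x101) (nat_lit 1) (p (nat_lit 0x111) (nat_lit 0) (p (nat_lit 0xd1) (nat_lit 1) (p (nat_lit 0x89) (nat_lit 0) (p (nat_lit 0x41) (nat_lit 0) (p (nat_lit 0x8a898a08881a) (nat_lit 0) (p (nat_lit 0xa090988079a) (nat_lit 0) (p (nat_lit 0x88088907871a) (nat_lit 0) (p (nat_lit 0x7880887069a) (nat_lit 0) (p (nat_lit 0x80000800088806860a) (nat_lit 0) (p (nat_lit 0x80000800068786058a) (nat_lit 0) (p (nat_lit 0x8687058502) (nat_lit 0) (p (nat_lit 0x606850482) (nat_lit 0) (p (nat_lit 0x160014) (nat_lit 0) (p (nat_lit 0x68612) (nat_lit 0) (p (nat_lit 0x50592) (nat_lit 0) (p (nat_lit 0x40512)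 (nat_lit 0) (p (nat_lit 0x50312) (nat_lit 0) (p (nat_lit 0x38292) (nat_lit 0) (p (nat_lit 0x28212) (nat_lit 0) (p (nat_lit 0x38112) (nat_lit 0) (p (nat_lit 0x20092) (nat_lit 0) (p (nat_lit 0x10012) (nat_lit 0) pn))))))))))))))))))))))))) :=
  Cl.node (nat_lit 0x3cc2a) (nat_lit 12) (by decide +kernel) (ClAll.succ (ClAll.succ (ClAll.succ (ClAll.succ (ClAll.succ (ClAll.succ (ClAll.succ (ClAll.succ (ClAll.succ (ClAll.succ (ClAll.succ (ClAll.succ ClAll.zero s282) s283) s284) s285) s286) s287) s288) s289) s290) s291) s292) s293)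

def n462 : Cl (O (nat_lit 3)) (R (nat_lit 143633))
    (p (nat_lit 0xc1) (nat_lit 0) (p (nat_lit 0x81) (nat_lit 1) (p (nat_lit 0x101) (nat_lit 1) (p (nat_lit 0x111) (nat_lit 0) (p (nat_lit 0xd1) (nat_lit 1) (p (nat_lit 0x89) (nat_lit 0) (p (nat_lit 0x41) (nat_lit 0) (p (nat_lit 0x8a898a08881a) (nat_lit 0) (p (nat_lit 0xa090988079a) (nat_lit 0) (p (nat_lit 0x88088907871a) (nat_lit 0) (p (nat_lit 0x7880887069a) (nat_lit 0) (p (nat_lit 0x80000800088806860a) (nat_lit 0) (p (nat_lit 0x80000800068786058a) (nat_lit 0) (p (nat_lit 0x8687058502) (nat_lit 0) (p (nat_lit 0x606850482) (nat_lit 0) (p (nat_lit 0x160014) (nat_lit 0) (p (nat_lit 0x68612) (nat_lit 0) (p (nat_lit 0x50592) (nat_lit 0) (p (nat_lit 0x40512) (nat_lit 0) (p (nat_lit 0x50312) (nat_lit 0) (p (nat_lit 0x38292) (nat_lit 0) (p (nat_lit 0x28212) (nat_lit 0) (p (nat_lit 0x38112) (nat_lit 0) (p (nat_lit 0x20092) (nat_lit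 0) (p (nat_lit 0x10012) (nat_lit 0) pn))))))))))))))))))))))))) :=
  Cl.node (nat_lit 0x119) (nat_lit 2) (by decide +kernel) (ClAll.succ (ClAll.succ ClAll.zero n418) s308)

def n463 : Cl (O (nat_lit 3)) (R (nat_lit 143633))
    (p (nat_lit 0x101) (nat_lit 0) (p (nat_lit 0xc1) (nat_lit 1) (p (nat_lit 0x81) (nat_lit 1) (p (nat_lit 0x111) (nat_lit 1) (p (nat_lit 0xd1) (nat_lit 1) (p (nat_lit 0x89) (nat_lit 0) (p (nat_lit 0x41) (nat_lit 0) (p (nat_lit 0x8a898a08881a) (nat_lit 0) (p (nat_lit 0xa090988079a) (nat_lit 0) (p (nat_lit 0x88088907871a) (nat_lit 0) (p (nat_lit 0x7880887069a) (nat_lit 0) (p (nat_lit 0x80000800088806860a) (nat_lit 0) (p (nat_lit 0x80000800068786058a) (nat_lit 0) (p (nat_lit 0x8687058502) (nat_lit 0) (p (nat_lit 0x606850482) (nat_lit 0) (p (nat_lit 0x160014) (nat_lit 0) (p (nat_lit 0x68612) (nat_lit 0) (p (nat_lit 0x50592) (nat_lit 0) (p (nat_lit 0x40512)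 (nat_lit 0) (p (nat_lit 0x50312) (nat_lit 0) (p (nat_lit 0x38292) (nat_lit 0) (p (nat_lit 0x28212) (nat_lit 0) (p (nat_lit 0x38112) (nat_lit 0) (p (nat_lit 0x20092) (nat_lit 0) (p (nat_lit 0x10012) (nat_lit 0) pn))))))))))))))))))))))))) :=
  Cl.node (nat_lit 0x3cc2a) (nat_lit 12) (by decide +kernel) (ClAll.succ (ClAll.succ (ClAll.succ (ClAll.succ (ClAll.succ (ClAll.succ (ClAll.succ (ClAll.succ (ClAll.succ (ClAll.succ (ClAll.succ (ClAll.succ ClAll.zero s312) s313) s314) s315) s316) s317) s318) s319) s320) s321) s322) s323)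

def n464 : Cl (O (nat_lit 3)) (R (nat_lit 143633))
    (p (nat_lit 0x111) (nat_lit 1) (p (nat_lit 0x109) (nat_lit 0) (p (nat_lit 0x101) (nat_lit 0) (p (nat_lit 0x119) (nat_lit 0) (p (nat_lit 0xc9) (nat_lit 0) (p (nat_lit 0x89) (nat_lit 1) (p (nat_lit 0x41) (nat_lit 0) (p (nat_lit 0x8a898a08881a) (nat_lit 0) (p (nat_lit 0xa090988079a) (nat_lit 0) (p (nat_lit 0x88088907871a) (nat_lit 0) (p (nat_lit 0x7880887069a) (nat_lit 0) (p (nat_lit 0x80000800088806860a) (nat_lit 0) (p (nat_lit 0x80000800068786058a) (nat_lit 0) (p (nat_lit 0x8687058502) (nat_lit 0) (p (nat_lit 0x606850482) (nat_lit 0) (p (nat_lit 0x160014) (nat_lit 0) (p (nat_lit 0x68612) (nat_lit 0) (p (nat_lit 0x50592) (nat_lit 0) (p (nat_lit 0x40512) (nat_lit 0) (p (nat_lit 0x50312) (nat_lit 0) (p (nat_lit 0x38292) (nat_lit 0) (p (nat_lit 0x28212) (nat_lit 0) (p (nat_lit 0x38112) (nat_lit 0) (p (nat_lit 0x20092) (nat_lit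 0) (p (nat_lit 0x10012) (nat_lit 0) pn))))))))))))))))))))))))) :=
  Cl.node (nat_lit 0xd1) (nat_lit 2) (by decide +kernel) (ClAll.succ (ClAll.succ ClAll.zero s326) n419)

def n465 : Cl (O (nat_lit 3)) (R (nat_lit 143633))
    (p (nat_lit 0xd1) (nat_lit 0) (p (nat_lit 0x109) (nat_lit 1) (p (nat_lit 0x101) (nat_lit 0) (p (nat_lit 0x119) (nat_lit 0) (p (nat_lit 0xc9) (nat_lit 0) (p (nat_lit 0x89) (nat_lit 1) (p (nat_lit 0x41) (nat_lit 0) (p (nat_lit 0x8a898a08881a) (nat_lit 0) (p (nat_lit 0xa090988079a) (nat_lit 0) (p (nat_lit 0x88088907871a) (nat_lit 0) (p (nat_lit 0x7880887069a) (nat_lit 0) (p (nat_lit 0x80000800088806860a) (nat_lit 0) (p (nat_lit 0x80000800068786058a) (nat_lit 0) (p (nat_lit 0x8687058502) (nat_lit 0) (p (nat_lit 0x606850482) (nat_lit 0) (p (nat_lit 0x160014) (nat_lit 0) (p (nat_lit 0x68612) (nat_lit 0) (p (nat_lit 0x50592) (nat_lit 0) (p (nat_lit 0x40512)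 (nat_lit 0) (p (nat_lit 0x50312) (nat_lit 0) (p (nat_lit 0x38292) (nat_lit 0) (p (nat_lit 0x28212) (nat_lit 0) (p (nat_lit 0x38112) (nat_lit 0) (p (nat_lit 0x20092) (nat_lit 0) (p (nat_lit 0x10012) (nat_lit 0) pn))))))))))))))))))))))))) :=
  Cl.node (nat_lit 0x200004) (nat_lit 2) (by decide +kernel) (ClAll.succ (ClAll.succ ClAll.zero n420) s397)

def n466 : Cl (O (nat_lit 3)) (R (nat_lit 143633))
    (p (nat_lit 0xd1) (nat_lit 1) (p (nat_lit 0x109) (nat_lit 1) (p (nat_lit 0x101) (nat_lit 0) (p (nat_lit 0x119) (nat_lit 0) (p (nat_lit 0xc9) (nat_lit 0) (p (nat_lit 0x89) (nat_lit 1) (p (nat_lit 0x41) (nat_lit 0) (p (nat_lit 0x8a898a08881a) (nat_lit 0) (p (nat_lit 0xa090988079a) (nat_lit 0) (p (nat_lit 0x88088907871a) (nat_lit 0) (p (nat_lit 0x7880887069a) (nat_lit 0) (p (nat_lit 0x80000800088806860a) (nat_lit 0) (p (nat_lit 0x80000800068786058a) (nat_lit 0) (p (nat_lit 0x8687058502)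 (nat_lit 0) (p (nat_lit 0x606850482) (nat_lit 0) (p (nat_lit 0x160014) (nat_lit 0) (p (nat_lit 0x68612) (nat_lit 0) (p (nat_lit 0x50592) (nat_lit 0) (p (nat_lit 0x40512) (nat_lit 0) (p (nat_lit 0x50312) (nat_lit 0) (p (nat_lit 0x38292) (nat_lit 0) (p (nat_lit 0x28212) (nat_lit 0) (p (nat_lit 0x38112) (nat_lit 0) (p (nat_lit 0x20092) (nat_lit 0) (p (nat_lit 0x10012) (nat_lit 0) pn))))))))))))))))))))))))) :=
  Cl.node (nat_lit 0x444aa) (nat_lit 12) (by decide +kernel) (ClAll.succ (ClAll.succ (ClAll.succ (ClAll.succ (ClAll.succ (ClAll.succ (ClAll.succ (ClAll.succ (ClAll.succ (ClAll.succ (ClAll.succ (ClAll.succ ClAll.zero s398) s399) s400) s401) s402) s403) s404) n421) s441) s442) s443) s444)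

def n467 : Cl (O (nat_lit 3)) (R (nat_lit 143633))
    (p (nat_lit 0xd1) (nat_lit 0) (p (nat_lit 0xc1) (nat_lit 0) (p (nat_lit 0x101) (nat_lit 1) (p (nat_lit 0x119) (nat_lit 0) (p (nat_lit 0xc9) (nat_lit 0) (p (nat_lit 0x89) (nat_lit 1) (p (nat_lit 0x41) (nat_lit 0) (p (nat_lit 0x8a898a08881a) (nat_lit 0) (p (nat_lit 0xa090988079a) (nat_lit 0) (p (nat_lit 0x88088907871a) (nat_lit 0) (p (nat_lit 0x7880887069a) (nat_lit 0) (p (nat_lit 0x80000800088806860a) (nat_lit 0) (p (nat_lit 0x80000800068786058a) (nat_lit 0) (p (nat_lit 0x8687058502) (nat_lit 0) (p (nat_lit 0x606850482) (nat_lit 0) (p (nat_lit 0x160014) (nat_lit 0) (p (nat_lit 0x68612) (nat_lit 0) (p (nat_lit 0x50592) (nat_lit 0) (p (nat_lit 0x40512) (nat_lit 0) (p (nat_lit 0x50312) (nat_lit 0) (p (nat_lit 0x38292) (nat_lit 0) (p (nat_lit 0x28212) (nat_lit 0) (p (nat_lit 0x38112) (nat_lit 0) (p (nat_lit 0x20092) (nat_lit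 0) (p (nat_lit 0x10012) (nat_lit 0) pn))))))))))))))))))))))))) :=
  Cl.node (nat_lit 0x200004) (nat_lit 2) (by decide +kernel) (ClAll.succ (ClAll.succ ClAll.zero n422) s459)

def n468 : Cl (O (nat_lit 3)) (R (nat_lit 143633))
    (p (nat_lit 0xd1) (nat_lit 1) (p (nat_lit 0xc1) (nat_lit 0) (p (nat_lit 0x101) (nat_lit 1) (p (nat_lit 0x119) (nat_lit 0) (p (nat_lit 0xc9) (nat_lit 0) (p (nat_lit 0x89) (nat_lit 1) (p (nat_lit 0x41) (nat_lit 0) (p (nat_lit 0x8a898a08881a) (nat_lit 0) (p (nat_lit 0xa090988079a) (nat_lit 0) (p (nat_lit 0x88088907871a) (nat_lit 0) (p (nat_lit 0x7880887069a) (nat_lit 0) (p (nat_lit 0x80000800088806860a) (nat_lit 0) (p (nat_lit 0x80000800068786058a) (nat_lit 0) (p (nat_lit 0x8687058502) (nat_lit 0) (p (nat_lit 0x606850482) (nat_lit 0) (p (nat_lit 0x160014) (nat_lit 0) (p (nat_lit 0x68612) (nat_lit 0) (p (nat_lit 0x50592) (nat_lit 0) (p (nat_lit 0x40512)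 (nat_lit 0) (p (nat_lit 0x50312) (nat_lit 0) (p (nat_lit 0x38292) (nat_lit 0) (p (nat_lit 0x28212) (nat_lit 0) (p (nat_lit 0x38112) (nat_lit 0) (p (nat_lit 0x20092) (nat_lit 0) (p (nat_lit 0x10012) (nat_lit 0) pn))))))))))))))))))))))))) :=
  Cl.node (nat_lit 0x444aa) (nat_lit 12) (by decide +kernel) (ClAll.succ (ClAll.succ (ClAll.succ (ClAll.succ (ClAll.succ (ClAll.succ (ClAll.succ (ClAll.succ (ClAll.succ (ClAll.succ (ClAll.succ (ClAll.succ ClAll.zero s460) s461) s462) s463) s464) s465) s466) n423) s480) s481) s482) s483)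

def n469 : Cl (O (nat_lit 3)) (R (nat_lit 143633))
    (p (nat_lit 0x111) (nat_lit 1) (p (nat_lit 0xd1) (nat_lit 1) (p (nat_lit 0xc1) (nat_lit 0) (p (nat_lit 0x119) (nat_lit 1) (p (nat_lit 0xc9) (nat_lit 0) (p (nat_lit 0x89) (nat_lit 1) (p (nat_lit 0x41) (nat_lit 0) (p (nat_lit 0x8a898a08881a) (nat_lit 0) (p (nat_lit 0xa090988079a) (nat_lit 0) (p (nat_lit 0x88088907871a) (nat_lit 0) (p (nat_lit 0x7880887069a) (nat_lit 0) (p (nat_lit 0x80000800088806860a) (nat_lit 0) (p (nat_lit 0x80000800068786058a) (nat_lit 0) (p (nat_lit 0x8687058502) (nat_lit 0) (p (nat_lit 0x606850482) (nat_lit 0) (p (nat_lit 0x160014) (nat_lit 0) (p (nat_lit 0x68612) (nat_lit 0) (p (nat_lit 0x50592) (nat_lit 0) (p (nat_lit 0x40512) (nat_lit 0) (p (nat_lit 0x50312) (nat_lit 0) (p (nat_lit 0x38292) (nat_lit 0) (p (nat_lit 0x28212) (nat_lit 0) (p (nat_lit 0x38112) (nat_lit 0) (p (nat_lit 0x20092) (nat_lit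 0) (p (nat_lit 0x10012) (nat_lit 0) pn))))))))))))))))))))))))) :=
  Cl.node (nat_lit 0x444aa) (nat_lit 12) (by decide +kernel) (ClAll.succ (ClAll.succ (ClAll.succ (ClAll.succ (ClAll.succ (ClAll.succ (ClAll.succ (ClAll.succ (ClAll.succ (ClAll.succ (ClAll.succ (ClAll.succ ClAll.zero s487) s488) s489) s490) s491) s492) s493) n424) n425) s518) s519) s520)

def n470 : Cl (O (nat_lit 3)) (R (nat_lit 143633))
    (p (nat_lit 0x111) (nat_lit 0) (p (nat_lit 0x101) (nat_lit 0) (p (nat_lit 0xc1) (nat_lit 1) (p (nat_lit 0x119) (nat_lit 1) (p (nat_lit 0xc9) (nat_lit 0) (p (nat_lit 0x89) (nat_lit 1) (p (nat_lit 0x41) (nat_lit 0) (p (nat_lit 0x8a898a08881a) (nat_lit 0) (p (nat_lit 0xa090988079a) (nat_lit 0) (p (nat_lit 0x88088907871a) (nat_lit 0) (p (nat_lit 0x7880887069a) (nat_lit 0) (p (nat_lit 0x80000800088806860a) (nat_lit 0) (p (nat_lit 0x80000800068786058a) (nat_lit 0) (p (nat_lit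 0x8687058502) (nat_lit 0) (p (nat_lit 0x606850482) (nat_lit 0) (p (nat_lit 0x160014) (nat_lit 0) (p (nat_lit 0x68612) (nat_lit 0) (p (nat_lit 0x50592) (nat_lit 0) (p (nat_lit 0x40512) (nat_lit 0) (p (nat_lit 0x50312) (nat_lit 0) (p (nat_lit 0x38292) (nat_lit 0) (p (nat_lit 0x28212) (nat_lit 0) (p (nat_lit 0x38112) (nat_lit 0) (p (nat_lit 0x20092) (nat_lit 0) (p (nat_lit 0x10012) (nat_lit 0) pn))))))))))))))))))))))))) :=
  Cl.node (nat_lit 0x44c2a) (nat_lit 12) (by decide +kernel) (ClAll.succ (ClAll.succ (ClAll.succ (ClAll.succ (ClAll.succ (ClAll.succ (ClAll.succ (ClAll.succ (ClAll.succ (ClAll.succ (ClAll.succ (ClAll.succ ClAll.zero s521) s522) s523) s524) s525) s526) s527) s528) s529) s530) s531) s532)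

def n471 : Cl (O (nat_lit 3)) (R (nat_lit 143633))
    (p (nat_lit 0x111) (nat_lit 1) (p (nat_lit 0x101) (nat_lit 0) (p (nat_lit 0xc1) (nat_lit 1) (p (nat_lit 0x119) (nat_lit 1) (p (nat_lit 0xc9) (nat_lit 0) (p (nat_lit 0x89) (nat_lit 1) (p (nat_lit 0x41) (nat_lit 0) (p (nat_lit 0x8a898a08881a) (nat_lit 0) (p (nat_lit 0xa090988079a) (nat_lit 0) (p (nat_lit 0x88088907871a) (nat_lit 0) (p (nat_lit 0x7880887069a) (nat_lit 0) (p (nat_lit 0x80000800088806860a) (nat_lit 0) (p (nat_lit 0x80000800068786058a) (nat_lit 0) (p (nat_lit 0x8687058502) (nat_lit 0) (p (nat_lit 0x606850482) (nat_lit 0) (p (nat_lit 0x160014) (nat_lit 0) (p (nat_lit 0x68612) (nat_lit 0) (p (nat_lit 0x50592) (nat_lit 0) (p (nat_lit 0x40512) (nat_lit 0) (p (nat_lit 0x50312) (nat_lit 0) (p (nat_lit 0x38292) (nat_lit 0) (p (nat_lit 0x28212) (nat_lit 0) (p (nat_lit 0x38112) (nat_lit 0) (p (nat_lit 0x20092) (nat_lit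 0) (p (nat_lit 0x10012) (nat_lit 0) pn))))))))))))))))))))))))) :=
  Cl.node (nat_lit 0x444aa) (nat_lit 12) (by decide +kernel) (ClAll.succ (ClAll.succ (ClAll.succ (ClAll.succ (ClAll.succ (ClAll.succ (ClAll.succ (ClAll.succ (ClAll.succ (ClAll.succ (ClAll.succ (ClAll.succ ClAll.zero s533) s534) s535) s536) s537) s538) s539) n426) s561) s562) s563) s564)

def n472 : Cl (O (nat_lit 3)) (R (nat_lit 143633))
    (p (nat_lit 0x119) (nat_lit 1) (p (nat_lit 0x111) (nat_lit 0) (p (nat_lit 0x101) (nat_lit 0) (p (nat_lit 0x109) (nat_lit 0) (p (nat_lit 0xc9) (nat_lit 1) (p (nat_lit 0x89) (nat_lit 1) (p (nat_lit 0x41) (nat_lit 0) (p (nat_lit 0x8a898a08881a) (nat_lit 0) (p (nat_lit 0xa090988079a) (nat_lit 0) (p (nat_lit 0x88088907871a) (nat_lit 0) (p (nat_lit 0x7880887069a) (nat_lit 0) (p (nat_lit 0x80000800088806860a) (nat_lit 0) (p (nat_lit 0x80000800068786058a) (nat_lit 0) (p (nat_lit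 0x8687058502) (nat_lit 0) (p (nat_lit 0x606850482) (nat_lit 0) (p (nat_lit 0x160014) (nat_lit 0) (p (nat_lit 0x68612) (nat_lit 0) (p (nat_lit 0x50592) (nat_lit 0) (p (nat_lit 0x40512) (nat_lit 0) (p (nat_lit 0x50312) (nat_lit 0) (p (nat_lit 0x38292) (nat_lit 0) (p (nat_lit 0x28212) (nat_lit 0) (p (nat_lit 0x38112) (nat_lit 0) (p (nat_lit 0x20092) (nat_lit 0) (p (nat_lit 0x10012) (nat_lit 0) pn))))))))))))))))))))))))) :=
  Cl.node (nat_lit 0x444aa) (nat_lit 12) (by decide +kernel) (ClAll.succ (ClAll.succ (ClAll.succ (ClAll.succ (ClAll.succ (ClAll.succ (ClAll.succ (ClAll.succ (ClAll.succ (ClAll.succ (ClAll.succ (ClAll.succ ClAll.zero s567) s568) s569) s570) s571) s572) s573) s574) s575) s576) s577) s578)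

def n473 : Cl (O (nat_lit 3)) (R (nat_lit 143633))
    (p (nat_lit 0x89) (nat_lit 0) (p (nat_lit 0x109) (nat_lit 1) (p (nat_lit 0x101) (nat_lit 0) (p (nat_lit 0x119) (nat_lit 0) (p (nat_lit 0xd1) (nat_lit 0) (p (nat_lit 0x81) (nat_lit 0) (p (nat_lit 0x41) (nat_lit 1) (p (nat_lit 0x8a898a08881a) (nat_lit 0) (p (nat_lit 0xa090988079a) (nat_lit 0) (p (nat_lit 0x88088907871a) (nat_lit 0) (p (nat_lit 0x7880887069a) (nat_lit 0) (p (nat_lit 0x80000800088806860a) (nat_lit 0) (p (nat_lit 0x80000800068786058a) (nat_lit 0) (p (nat_lit 0x8687058502) (nat_lit 0) (p (nat_lit 0x606850482) (nat_lit 0) (p (nat_lit 0x160014) (nat_lit 0) (p (nat_lit 0x68612) (nat_lit 0) (p (nat_lit 0x50592) (nat_lit 0) (p (nat_lit 0x40512) (nat_lit 0) (p (nat_lit 0x50312) (nat_lit 0) (p (nat_lit 0x38292) (nat_lit 0) (p (nat_lit 0x28212) (nat_lit 0) (p (nat_lit 0x38112) (nat_lit 0) (p (nat_lit 0x20092) (nat_lit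 0) (p (nat_lit 0x10012) (nat_lit 0) pn))))))))))))))))))))))))) :=
  Cl.node (nat_lit 0x111) (nat_lit 2) (by decide +kernel) (ClAll.succ (ClAll.succ ClAll.zero n427) n428)

def n474 : Cl (O (nat_lit 3)) (R (nat_lit 143633))
    (p (nat_lit 0x89) (nat_lit 1) (p (nat_lit 0x109) (nat_lit 1) (p (nat_lit 0x101) (nat_lit 0) (p (nat_lit 0x119) (nat_lit 0) (p (nat_lit 0xd1) (nat_lit 0) (p (nat_lit 0x81) (nat_lit 0) (p (nat_lit 0x41) (nat_lit 1) (p (nat_lit 0x8a898a08881a) (nat_lit 0) (p (nat_lit 0xa090988079a) (nat_lit 0) (p (nat_lit 0x88088907871a) (nat_lit 0) (p (nat_lit 0x7880887069a) (nat_lit 0) (p (nat_lit 0x80000800088806860a) (nat_lit 0) (p (nat_lit 0x80000800068786058a) (nat_lit 0) (p (nat_lit 0x8687058502) (nat_lit 0) (p (nat_lit 0x606850482) (nat_lit 0) (p (nat_lit 0x160014) (nat_lit 0) (p (nat_lit 0x68612) (nat_lit 0) (p (nat_lit 0x50592) (nat_lit 0) (p (nat_lit 0x40512)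 (nat_lit 0) (p (nat_lit 0x50312) (nat_lit 0) (p (nat_lit 0x38292) (nat_lit 0) (p (nat_lit 0x28212) (nat_lit 0) (p (nat_lit 0x38112) (nat_lit 0) (p (nat_lit 0x20092) (nat_lit 0) (p (nat_lit 0x10012) (nat_lit 0) pn))))))))))))))))))))))))) :=
  Cl.node (nat_lit 0xc9) (nat_lit 2) (by decide +kernel) (ClAll.succ (ClAll.succ ClAll.zero n429) n430)

def n475 : Cl (O (nat_lit 3)) (R (nat_lit 143633))
    (p (nat_lit 0x89) (nat_lit 0) (p (nat_lit 0xc1) (nat_lit 0) (p (nat_lit 0x101) (nat_lit 1) (p (nat_lit 0x119) (nat_lit 0) (p (nat_lit 0xd1) (nat_lit 0) (p (nat_lit 0x81) (nat_lit 0) (p (nat_lit 0x41) (nat_lit 1) (p (nat_lit 0x8a898a08881a) (nat_lit 0) (p (nat_lit 0xa090988079a) (nat_lit 0) (p (nat_lit 0x88088907871a) (nat_lit 0) (p (nat_lit 0x7880887069a) (nat_lit 0) (p (nat_lit 0x80000800088806860a) (nat_lit 0) (p (nat_lit 0x80000800068786058a) (nat_lit 0) (p (nat_lit 0x8687058502)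 (nat_lit 0) (p (nat_lit 0x606850482) (nat_lit 0) (p (nat_lit 0x160014) (nat_lit 0) (p (nat_lit 0x68612) (nat_lit 0) (p (nat_lit 0x50592) (nat_lit 0) (p (nat_lit 0x40512) (nat_lit 0) (p (nat_lit 0x50312) (nat_lit 0) (p (nat_lit 0x38292) (nat_lit 0) (p (nat_lit 0x28212) (nat_lit 0) (p (nat_lit 0x38112) (nat_lit 0) (p (nat_lit 0x20092) (nat_lit 0) (p (nat_lit 0x10012) (nat_lit 0) pn))))))))))))))))))))))))) :=
  Cl.node (nat_lit 0x4c42a) (nat_lit 12) (by decide +kernel) (ClAll.succ (ClAll.succ (ClAll.succ (ClAll.succ (ClAll.succ (ClAll.succ (ClAll.succ (ClAll.succ (ClAll.succ (ClAll.succ (ClAll.succ (ClAll.succ ClAll.zero s642) s643) s644) s645) s646) s647) s648) s649) s650) s651) s652) s653)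

def n476 : Cl (O (nat_lit 3)) (R (nat_lit 143633))
    (p (nat_lit 0x89) (nat_lit 1) (p (nat_lit 0xc1) (nat_lit 0) (p (nat_lit 0x101) (nat_lit 1) (p (nat_lit 0x119) (nat_lit 0) (p (nat_lit 0xd1) (nat_lit 0) (p (nat_lit 0x81) (nat_lit 0) (p (nat_lit 0x41) (nat_lit 1) (p (nat_lit 0x8a898a08881a) (nat_lit 0) (p (nat_lit 0xa090988079a) (nat_lit 0) (p (nat_lit 0x88088907871a) (nat_lit 0) (p (nat_lit 0x7880887069a) (nat_lit 0) (p (nat_lit 0x80000800088806860a) (nat_lit 0) (p (nat_lit 0x80000800068786058a) (nat_lit 0) (p (nat_lit 0x8687058502) (nat_lit 0) (p (nat_lit 0x606850482) (nat_lit 0) (p (nat_lit 0x160014) (nat_lit 0) (p (nat_lit 0x68612) (nat_lit 0) (p (nat_lit 0x50592) (nat_lit 0) (p (nat_lit 0x40512) (nat_lit 0) (p (nat_lit 0x50312) (nat_lit 0) (p (nat_lit 0x38292) (nat_lit 0) (p (nat_lit 0x28212) (nat_lit 0) (p (nat_lit 0x38112) (nat_lit 0) (p (nat_lit 0x20092) (nat_lit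 0) (p (nat_lit 0x10012) (nat_lit 0) pn))))))))))))))))))))))))) :=
  Cl.node (nat_lit 0xc9) (nat_lit 2) (by decide +kernel) (ClAll.succ (ClAll.succ ClAll.zero n431) n432)

def n477 : Cl (O (nat_lit 3)) (R (nat_lit 143633))
    (p (nat_lit 0x89) (nat_lit 1) (p (nat_lit 0xc1) (nat_lit 1) (p (nat_lit 0x101) (nat_lit 1) (p (nat_lit 0x119) (nat_lit 0) (p (nat_lit 0xd1) (nat_lit 0) (p (nat_lit 0x81) (nat_lit 0) (p (nat_lit 0x41) (nat_lit 1) (p (nat_lit 0x8a898a08881a) (nat_lit 0) (p (nat_lit 0xa090988079a) (nat_lit 0) (p (nat_lit 0x88088907871a) (nat_lit 0) (p (nat_lit 0x7880887069a) (nat_lit 0) (p (nat_lit 0x80000800088806860a) (nat_lit 0) (p (nat_lit 0x80000800068786058a) (nat_lit 0) (p (nat_lit 0x8687058502) (nat_lit 0) (p (nat_lit 0x606850482) (nat_lit 0) (p (nat_lit 0x160014) (nat_lit 0) (p (nat_lit 0x68612) (nat_lit 0) (p (nat_lit 0x50592) (nat_lit 0) (p (nat_lit 0x40512)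 (nat_lit 0) (p (nat_lit 0x50312) (nat_lit 0) (p (nat_lit 0x38292) (nat_lit 0) (p (nat_lit 0x28212) (nat_lit 0) (p (nat_lit 0x38112) (nat_lit 0) (p (nat_lit 0x20092) (nat_lit 0) (p (nat_lit 0x10012) (nat_lit 0) pn))))))))))))))))))))))))) :=
  Cl.node (nat_lit 0x3c4aa) (nat_lit 12) (by decide +kernel) (ClAll.succ (ClAll.succ (ClAll.succ (ClAll.succ (ClAll.succ (ClAll.succ (ClAll.succ (ClAll.succ (ClAll.succ (ClAll.succ (ClAll.succ (ClAll.succ ClAll.zero s683) s684) s685) s686) s687) s688) s689) n433) s696) s697) s698) s699)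

def n478 : Cl (O (nat_lit 3)) (R (nat_lit 143633))
    (p (nat_lit 0x89) (nat_lit 1) (p (nat_lit 0xc9) (nat_lit 1) (p (nat_lit 0xc1) (nat_lit 0) (p (nat_lit 0x119) (nat_lit 1) (p (nat_lit 0xd1) (nat_lit 0) (p (nat_lit 0x81) (nat_lit 0) (p (nat_lit 0x41) (nat_lit 1) (p (nat_lit 0x8a898a08881a) (nat_lit 0) (p (nat_lit 0xa090988079a) (nat_lit 0) (p (nat_lit 0x88088907871a) (nat_lit 0) (p (nat_lit 0x7880887069a) (nat_lit 0) (p (nat_lit 0x80000800088806860a) (nat_lit 0) (p (nat_lit 0x80000800068786058a) (nat_lit 0) (p (nat_lit 0x8687058502) (nat_lit 0) (p (nat_lit 0x606850482) (nat_lit 0) (p (nat_lit 0x160014) (nat_lit 0) (p (nat_lit 0x68612) (nat_lit 0) (p (nat_lit 0x50592) (nat_lit 0) (p (nat_lit 0x40512) (nat_lit 0) (p (nat_lit 0x50312) (nat_lit 0) (p (nat_lit 0x38292) (nat_lit 0) (p (nat_lit 0x28212) (nat_lit 0) (p (nat_lit 0x38112) (nat_lit 0) (p (nat_lit 0x20092) (nat_lit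 0) (p (nat_lit 0x10012) (nat_lit 0) pn))))))))))))))))))))))))) :=
  Cl.node (nat_lit 0x109) (nat_lit 2) (by decide +kernel) (ClAll.succ (ClAll.succ ClAll.zero n434) n435)

def n479 : Cl (O (nat_lit 3)) (R (nat_lit 143633))
    (p (nat_lit 0x89) (nat_lit 1) (p (nat_lit 0x101) (nat_lit 0) (p (nat_lit 0xc1) (nat_lit 1) (p (nat_lit 0x119) (nat_lit 1) (p (nat_lit 0xd1) (nat_lit 0) (p (nat_lit 0x81) (nat_lit 0) (p (nat_lit 0x41) (nat_lit 1) (p (nat_lit 0x8a898a08881a) (nat_lit 0) (p (nat_lit 0xa090988079a) (nat_lit 0) (p (nat_lit 0x88088907871a) (nat_lit 0) (p (nat_lit 0x7880887069a) (nat_lit 0) (p (nat_lit 0x80000800088806860a) (nat_lit 0) (p (nat_lit 0x80000800068786058a) (nat_lit 0) (p (nat_lit 0x8687058502) (nat_lit 0) (p (nat_lit 0x606850482) (nat_lit 0) (p (nat_lit 0x160014) (nat_lit 0) (p (nat_lit 0x68612) (nat_lit 0) (p (nat_lit 0x50592) (nat_lit 0) (p (nat_lit 0x40512)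 (nat_lit 0) (p (nat_lit 0x50312) (nat_lit 0) (p (nat_lit 0x38292) (nat_lit 0) (p (nat_lit 0x28212) (nat_lit 0) (p (nat_lit 0x38112) (nat_lit 0) (p (nat_lit 0x20092) (nat_lit 0) (p (nat_lit 0x10012) (nat_lit 0) pn))))))))))))))))))))))))) :=
  Cl.node (nat_lit 0x109) (nat_lit 2) (by decide +kernel) (ClAll.succ (ClAll.succ ClAll.zero n436) n437)

def n480 : Cl (O (nat_lit 3)) (R (nat_lit 143633))
    (p (nat_lit 0x89) (nat_lit 1) (p (nat_lit 0x101) (nat_lit 1) (p (nat_lit 0xc1) (nat_lit 1) (p (nat_lit 0x119) (nat_lit 1) (p (nat_lit 0xd1) (nat_lit 0) (p (nat_lit 0x81) (nat_lit 0) (p (nat_lit 0x41) (nat_lit 1) (p (nat_lit 0x8a898a08881a) (nat_lit 0) (p (nat_lit 0xa090988079a) (nat_lit 0) (p (nat_lit 0x88088907871a) (nat_lit 0) (p (nat_lit 0x7880887069a) (nat_lit 0) (p (nat_lit 0x80000800088806860a) (nat_lit 0) (p (nat_lit 0x80000800068786058a) (nat_lit 0) (p (nat_lit 0x8687058502)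 (nat_lit 0) (p (nat_lit 0x606850482) (nat_lit 0) (p (nat_lit 0x160014) (nat_lit 0) (p (nat_lit 0x68612) (nat_lit 0) (p (nat_lit 0x50592) (nat_lit 0) (p (nat_lit 0x40512) (nat_lit 0) (p (nat_lit 0x50312) (nat_lit 0) (p (nat_lit 0x38292) (nat_lit 0) (p (nat_lit 0x28212) (nat_lit 0) (p (nat_lit 0x38112) (nat_lit 0) (p (nat_lit 0x20092) (nat_lit 0) (p (nat_lit 0x10012) (nat_lit 0) pn))))))))))))))))))))))))) :=
  Cl.node (nat_lit 0x3c4aa) (nat_lit 12) (by decide +kernel) (ClAll.succ (ClAll.succ (ClAll.succ (ClAll.succ (ClAll.succ (ClAll.succ (ClAll.succ (ClAll.succ (ClAll.succ (ClAll.succ (ClAll.succ (ClAll.succ ClAll.zero s837) s838) s839) s840) s841) s842) s843) n438) s856) s857) n439) s865)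

def n481 : Cl (O (nat_lit 3)) (R (nat_lit 143633))
    (p (nat_lit 0x89) (nat_lit 1) (p (nat_lit 0x109) (nat_lit 1) (p (nat_lit 0x101) (nat_lit 0) (p (nat_lit 0x111) (nat_lit 0) (p (nat_lit 0xd1) (nat_lit 1) (p (nat_lit 0x81) (nat_lit 0) (p (nat_lit 0x41) (nat_lit 1) (p (nat_lit 0x8a898a08881a) (nat_lit 0) (p (nat_lit 0xa090988079a) (nat_lit 0) (p (nat_lit 0x88088907871a) (nat_lit 0) (p (nat_lit 0x7880887069a) (nat_lit 0) (p (nat_lit 0x80000800088806860a) (nat_lit 0) (p (nat_lit 0x80000800068786058a) (nat_lit 0) (p (nat_lit 0x8687058502) (nat_lit 0) (p (nat_lit 0x606850482) (nat_lit 0) (p (nat_lit 0x160014) (nat_lit 0) (p (nat_lit 0x68612) (nat_lit 0) (p (nat_lit 0x50592) (nat_lit 0) (p (nat_lit 0x40512) (nat_lit 0) (p (nat_lit 0x50312) (nat_lit 0) (p (nat_lit 0x38292) (nat_lit 0) (p (nat_lit 0x28212) (nat_lit 0) (p (nat_lit 0x38112) (nat_lit 0) (p (nat_lit 0x20092) (nat_lit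 0) (p (nat_lit 0x10012) (nat_lit 0) pn))))))))))))))))))))))))) :=
  Cl.node (nat_lit 0xc9) (nat_lit 2) (by decide +kernel) (ClAll.succ (ClAll.succ ClAll.zero n440) n441)

def n482 : Cl (O (nat_lit 3)) (R (nat_lit 143633))
    (p (nat_lit 0xc9) (nat_lit 0) (p (nat_lit 0x89) (nat_lit 1) (p (nat_lit 0x101) (nat_lit 1) (p (nat_lit 0x111) (nat_lit 0) (p (nat_lit 0xd1) (nat_lit 1) (p (nat_lit 0x81) (nat_lit 0) (p (nat_lit 0x41) (nat_lit 1) (p (nat_lit 0x8a898a08881a) (nat_lit 0) (p (nat_lit 0xa090988079a) (nat_lit 0) (p (nat_lit 0x88088907871a) (nat_lit 0) (p (nat_lit 0x7880887069a) (nat_lit 0) (p (nat_lit 0x80000800088806860a) (nat_lit 0) (p (nat_lit 0x80000800068786058a) (nat_lit 0) (p (nat_lit 0x8687058502) (nat_lit 0) (p (nat_lit 0x606850482) (nat_lit 0) (p (nat_lit 0x160014) (nat_lit 0) (p (nat_lit 0x68612) (nat_lit 0) (p (nat_lit 0x50592) (nat_lit 0) (p (nat_lit 0x40512)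 (nat_lit 0) (p (nat_lit 0x50312) (nat_lit 0) (p (nat_lit 0x38292) (nat_lit 0) (p (nat_lit 0x28212) (nat_lit 0) (p (nat_lit 0x38112) (nat_lit 0) (p (nat_lit 0x20092) (nat_lit 0) (p (nat_lit 0x10012) (nat_lit 0) pn))))))))))))))))))))))))) :=
  Cl.node (nat_lit 0x3cc2a) (nat_lit 12) (by decide +kernel) (ClAll.succ (ClAll.succ (ClAll.succ (ClAll.succ (ClAll.succ (ClAll.succ (ClAll.succ (ClAll.succ (ClAll.succ (ClAll.succ (ClAll.succ (ClAll.succ ClAll.zero s905) s906) s907) s908) s909) s910) s911) s912) s913) s914) s915) s916)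

def n483 : Cl (O (nat_lit 3)) (R (nat_lit 143633))
    (p (nat_lit 0xc9) (nat_lit 1) (p (nat_lit 0x89) (nat_lit 1) (p (nat_lit 0x101) (nat_lit 1) (p (nat_lit 0x111) (nat_lit 0) (p (nat_lit 0xd1) (nat_lit 1) (p (nat_lit 0x81) (nat_lit 0) (p (nat_lit 0x41) (nat_lit 1) (p (nat_lit 0x8a898a08881a) (nat_lit 0) (p (nat_lit 0xa090988079a) (nat_lit 0) (p (nat_lit 0x88088907871a) (nat_lit 0) (p (nat_lit 0x7880887069a) (nat_lit 0) (p (nat_lit 0x80000800088806860a) (nat_lit 0) (p (nat_lit 0x80000800068786058a) (nat_lit 0) (p (nat_lit 0x8687058502) (nat_lit 0) (p (nat_lit 0x606850482) (nat_lit 0) (p (nat_lit 0x160014) (nat_lit 0) (p (nat_lit 0x68612) (nat_lit 0) (p (nat_lit 0x50592) (nat_lit 0) (p (nat_lit 0x40512) (nat_lit 0) (p (nat_lit 0x50312) (nat_lit 0) (p (nat_lit 0x38292) (nat_lit 0) (p (nat_lit 0x28212) (nat_lit 0) (p (nat_lit 0x38112) (nat_lit 0) (p (nat_lit 0x20092) (nat_lit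 0) (p (nat_lit 0x10012) (nat_lit 0) pn))))))))))))))))))))))))) :=
  Cl.node (nat_lit 0x3c4aa) (nat_lit 12) (by decide +kernel) (ClAll.succ (ClAll.succ (ClAll.succ (ClAll.succ (ClAll.succ (ClAll.succ (ClAll.succ (ClAll.succ (ClAll.succ (ClAll.succ (ClAll.succ (ClAll.succ ClAll.zero s917) s918) s919) s920) s921) s922) s923) n442) s926) s927) s928) s929)

def n484 : Cl (O (nat_lit 3)) (R (nat_lit 143633))
    (p (nat_lit 0x111) (nat_lit 1) (p (nat_lit 0x109) (nat_lit 0) (p (nat_lit 0x101) (nat_lit 0) (p (nat_lit 0x119) (nat_lit 0) (p (nat_lit 0xc1) (nat_lit 0) (p (nat_lit 0x81) (nat_lit 1) (p (nat_lit 0x41) (nat_lit 1) (p (nat_lit 0x8a898a08881a) (nat_lit 0) (p (nat_lit 0xa090988079a) (nat_lit 0) (p (nat_lit 0x88088907871a) (nat_lit 0) (p (nat_lit 0x7880887069a) (nat_lit 0) (p (nat_lit 0x80000800088806860a) (nat_lit 0) (p (nat_lit 0x80000800068786058a) (nat_lit 0) (p (nat_lit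 0x8687058502) (nat_lit 0) (p (nat_lit 0x606850482) (nat_lit 0) (p (nat_lit 0x160014) (nat_lit 0) (p (nat_lit 0x68612) (nat_lit 0) (p (nat_lit 0x50592) (nat_lit 0) (p (nat_lit 0x40512) (nat_lit 0) (p (nat_lit 0x50312) (nat_lit 0) (p (nat_lit 0x38292) (nat_lit 0) (p (nat_lit 0x28212) (nat_lit 0) (p (nat_lit 0x38112) (nat_lit 0) (p (nat_lit 0x20092) (nat_lit 0) (p (nat_lit 0x10012) (nat_lit 0) pn))))))))))))))))))))))))) :=
  Cl.node (nat_lit 0xd1) (nat_lit 2) (by decide +kernel) (ClAll.succ (ClAll.succ ClAll.zero s935) n443)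

def n485 : Cl (O (nat_lit 3)) (R (nat_lit 143633))
    (p (nat_lit 0xc9) (nat_lit 0) (p (nat_lit 0x109) (nat_lit 1) (p (nat_lit 0x101) (nat_lit 0) (p (nat_lit 0x119) (nat_lit 0) (p (nat_lit 0xc1) (nat_lit 0) (p (nat_lit 0x81) (nat_lit 1) (p (nat_lit 0x41) (nat_lit 1) (p (nat_lit 0x8a898a08881a) (nat_lit 0) (p (nat_lit 0xa090988079a) (nat_lit 0) (p (nat_lit 0x88088907871a) (nat_lit 0) (p (nat_lit 0x7880887069a) (nat_lit 0) (p (nat_lit 0x80000800088806860a) (nat_lit 0) (p (nat_lit 0x80000800068786058a) (nat_lit 0) (p (nat_lit 0x8687058502) (nat_lit 0) (p (nat_lit 0x606850482) (nat_lit 0) (p (nat_lit 0x160014) (nat_lit 0) (p (nat_lit 0x68612) (nat_lit 0) (p (nat_lit 0x50592) (nat_lit 0) (p (nat_lit 0x40512) (nat_lit 0) (p (nat_lit 0x50312) (nat_lit 0) (p (nat_lit 0x38292) (nat_lit 0) (p (nat_lit 0x28212) (nat_lit 0) (p (nat_lit 0x38112) (nat_lit 0) (p (nat_lit 0x20092) (nat_lit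 0) (p (nat_lit 0x10012) (nat_lit 0) pn))))))))))))))))))))))))) :=
  Cl.node (nat_lit 0xd1) (nat_lit 2) (by decide +kernel) (ClAll.succ (ClAll.succ ClAll.zero s984) n444)

def n486 : Cl (O (nat_lit 3)) (R (nat_lit 143633))
    (p (nat_lit 0xd1) (nat_lit 0) (p (nat_lit 0xc9) (nat_lit 0) (p (nat_lit 0x101) (nat_lit 1) (p (nat_lit 0x119) (nat_lit 0) (p (nat_lit 0xc1) (nat_lit 0) (p (nat_lit 0x81) (nat_lit 1) (p (nat_lit 0x41) (nat_lit 1) (p (nat_lit 0x8a898a08881a) (nat_lit 0) (p (nat_lit 0xa090988079a) (nat_lit 0) (p (nat_lit 0x88088907871a) (nat_lit 0) (p (nat_lit 0x7880887069a) (nat_lit 0) (p (nat_lit 0x80000800088806860a) (nat_lit 0) (p (nat_lit 0x80000800068786058a) (nat_lit 0) (p (nat_lit 0x8687058502) (nat_lit 0) (p (nat_lit 0x606850482) (nat_lit 0) (p (nat_lit 0x160014) (nat_lit 0) (p (nat_lit 0x68612) (nat_lit 0) (p (nat_lit 0x50592) (nat_lit 0) (p (nat_lit 0x40512)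 (nat_lit 0) (p (nat_lit 0x50312) (nat_lit 0) (p (nat_lit 0x38292) (nat_lit 0) (p (nat_lit 0x28212) (nat_lit 0) (p (nat_lit 0x38112) (nat_lit 0) (p (nat_lit 0x20092) (nat_lit 0) (p (nat_lit 0x10012) (nat_lit 0) pn))))))))))))))))))))))))) :=
  Cl.node (nat_lit 0x44c2a) (nat_lit 12) (by decide +kernel) (ClAll.succ (ClAll.succ (ClAll.succ (ClAll.succ (ClAll.succ (ClAll.succ (ClAll.succ (ClAll.succ (ClAll.succ (ClAll.succ (ClAll.succ (ClAll.succ ClAll.zero n445) s1011) s1012) s1013) s1014) s1015) s1016) s1017) s1018) s1019) s1020) s1021)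

def n487 : Cl (O (nat_lit 3)) (R (nat_lit 143633))
    (p (nat_lit 0xd1) (nat_lit 1) (p (nat_lit 0xc9) (nat_lit 0) (p (nat_lit 0x101) (nat_lit 1) (p (nat_lit 0x119) (nat_lit 0) (p (nat_lit 0xc1) (nat_lit 0) (p (nat_lit 0x81) (nat_lit 1) (p (nat_lit 0x41) (nat_lit 1) (p (nat_lit 0x8a898a08881a) (nat_lit 0) (p (nat_lit 0xa090988079a) (nat_lit 0) (p (nat_lit 0x88088907871a) (nat_lit 0) (p (nat_lit 0x7880887069a) (nat_lit 0) (p (nat_lit 0x80000800088806860a) (nat_lit 0) (p (nat_lit 0x80000800068786058a) (nat_lit 0) (p (nat_lit 0x8687058502) (nat_lit 0) (p (nat_lit 0x606850482) (nat_lit 0) (p (nat_lit 0x160014) (nat_lit 0) (p (nat_lit 0x68612) (nat_lit 0) (p (nat_lit 0x50592) (nat_lit 0) (p (nat_lit 0x40512) (nat_lit 0) (p (nat_lit 0x50312) (nat_lit 0) (p (nat_lit 0x38292) (nat_lit 0) (p (nat_lit 0x28212) (nat_lit 0) (p (nat_lit 0x38112) (nat_lit 0) (p (nat_lit 0x20092) (nat_lit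 0) (p (nat_lit 0x10012) (nat_lit 0) pn))))))))))))))))))))))))) :=
  Cl.node (nat_lit 0x3c4aa) (nat_lit 12) (by decide +kernel) (ClAll.succ (ClAll.succ (ClAll.succ (ClAll.succ (ClAll.succ (ClAll.succ (ClAll.succ (ClAll.succ (ClAll.succ (ClAll.succ (ClAll.succ (ClAll.succ ClAll.zero s1022) s1023) s1024) s1025) s1026) s1027) s1028) n446) s1063) s1064) s1065) s1066)

def n488 : Cl (O (nat_lit 3)) (R (nat_lit 143633))
    (p (nat_lit 0x111) (nat_lit 1) (p (nat_lit 0xd1) (nat_lit 1) (p (nat_lit 0xc9) (nat_lit 0) (p (nat_lit 0x119) (nat_lit 1) (p (nat_lit 0xc1) (nat_lit 0) (p (nat_lit 0x81) (nat_lit 1) (p (nat_lit 0x41) (nat_lit 1) (p (nat_lit 0x8a898a08881a) (nat_lit 0) (p (nat_lit 0xa090988079a) (nat_lit 0) (p (nat_lit 0x88088907871a) (nat_lit 0) (p (nat_lit 0x7880887069a) (nat_lit 0) (p (nat_lit 0x80000800088806860a) (nat_lit 0) (p (nat_lit 0x80000800068786058a) (nat_lit 0)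 (p (nat_lit 0x8687058502) (nat_lit 0) (p (nat_lit 0x606850482) (nat_lit 0) (p (nat_lit 0x160014) (nat_lit 0) (p (nat_lit 0x68612) (nat_lit 0) (p (nat_lit 0x50592) (nat_lit 0) (p (nat_lit 0x40512) (nat_lit 0) (p (nat_lit 0x50312) (nat_lit 0) (p (nat_lit 0x38292) (nat_lit 0) (p (nat_lit 0x28212) (nat_lit 0) (p (nat_lit 0x38112) (nat_lit 0) (p (nat_lit 0x20092) (nat_lit 0) (p (nat_lit 0x10012) (nat_lit 0) pn))))))))))))))))))))))))) :=
  Cl.node (nat_lit 0x3c4aa) (nat_lit 12) (by decide +kernel) (ClAll.succ (ClAll.succ (ClAll.succ (ClAll.succ (ClAll.succ (ClAll.succ (ClAll.succ (ClAll.succ (ClAll.succ (ClAll.succ (ClAll.succ (ClAll.succ ClAll.zero s1070) s1071) s1072) s1073) s1074) s1075) s1076) n447) s1095) s1096) s1097) s1098)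

def n489 : Cl (O (nat_lit 3)) (R (nat_lit 143633))
    (p (nat_lit 0x111) (nat_lit 0) (p (nat_lit 0x109) (nat_lit 0) (p (nat_lit 0xc9) (nat_lit 1) (p (nat_lit 0x119) (nat_lit 1) (p (nat_lit 0xc1) (nat_lit 0) (p (nat_lit 0x81) (nat_lit 1) (p (nat_lit 0x41) (nat_lit 1) (p (nat_lit 0x8a898a08881a) (nat_lit 0) (p (nat_lit 0xa090988079a) (nat_lit 0) (p (nat_lit 0x88088907871a) (nat_lit 0) (p (nat_lit 0x7880887069a) (nat_lit 0) (p (nat_lit 0x80000800088806860a) (nat_lit 0) (p (nat_lit 0x80000800068786058a) (nat_lit 0) (p (nat_lit 0x8687058502) (nat_lit 0) (p (nat_lit 0x606850482) (nat_lit 0) (p (nat_lit 0x160014) (nat_lit 0) (p (nat_lit 0x68612) (nat_lit 0) (p (nat_lit 0x50592) (nat_lit 0) (p (nat_lit 0x40512) (nat_lit 0) (p (nat_lit 0x50312) (nat_lit 0) (p (nat_lit 0x38292) (nat_lit 0) (p (nat_lit 0x28212) (nat_lit 0) (p (nat_lit 0x38112) (nat_lit 0) (p (nat_lit 0x20092) (nat_lit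 0) (p (nat_lit 0x10012) (nat_lit 0) pn))))))))))))))))))))))))) :=
  Cl.node (nat_lit 0x44c2a) (nat_lit 12) (by decide +kernel) (ClAll.succ (ClAll.succ (ClAll.succ (ClAll.succ (ClAll.succ (ClAll.succ (ClAll.succ (ClAll.succ (ClAll.succ (ClAll.succ (ClAll.succ (ClAll.succ ClAll.zero s1099) s1100) s1101) s1102) s1103) s1104) s1105) s1106) s1107) s1108) s1109) s1110)

def n490 : Cl (O (nat_lit 3)) (R (nat_lit 143633))
    (p (nat_lit 0x111) (nat_lit 1) (p (nat_lit 0x109) (nat_lit 0) (p (nat_lit 0xc9) (nat_lit 1) (p (nat_lit 0x119) (nat_lit 1) (p (nat_lit 0xc1) (nat_lit 0) (p (nat_lit 0x81) (nat_lit 1) (p (nat_lit 0x41) (nat_lit 1) (p (nat_lit 0x8a898a08881a) (nat_lit 0) (p (nat_lit 0xa090988079a) (nat_lit 0) (p (nat_lit 0x88088907871a) (nat_lit 0) (p (nat_lit 0x7880887069a) (nat_lit 0) (p (nat_lit 0x80000800088806860a) (nat_lit 0) (p (nat_lit 0x80000800068786058a) (nat_lit 0)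 (p (nat_lit 0x8687058502) (nat_lit 0) (p (nat_lit 0x606850482) (nat_lit 0) (p (nat_lit 0x160014) (nat_lit 0) (p (nat_lit 0x68612) (nat_lit 0) (p (nat_lit 0x50592) (nat_lit 0) (p (nat_lit 0x40512) (nat_lit 0) (p (nat_lit 0x50312) (nat_lit 0) (p (nat_lit 0x38292) (nat_lit 0) (p (nat_lit 0x28212) (nat_lit 0) (p (nat_lit 0x38112) (nat_lit 0) (p (nat_lit 0x20092) (nat_lit 0) (p (nat_lit 0x10012) (nat_lit 0) pn))))))))))))))))))))))))) :=
  Cl.node (nat_lit 0x3c4aa) (nat_lit 12) (by decide +kernel) (ClAll.succ (ClAll.succ (ClAll.succ (ClAll.succ (ClAll.succ (ClAll.succ (ClAll.succ (ClAll.succ (ClAll.succ (ClAll.succ (ClAll.succ (ClAll.succ ClAll.zero s1111) s1112) s1113) s1114) s1115) s1116) s1117) n448) s1137) s1138) n449) s1143)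

def n491 : Cl (O (nat_lit 3)) (R (nat_lit 143633))
    (p (nat_lit 0x119) (nat_lit 1) (p (nat_lit 0x111) (nat_lit 0) (p (nat_lit 0x109) (nat_lit 0) (p (nat_lit 0x101) (nat_lit 0) (p (nat_lit 0xc1) (nat_lit 1) (p (nat_lit 0x81) (nat_lit 1) (p (nat_lit 0x41) (nat_lit 1) (p (nat_lit 0x8a898a08881a) (nat_lit 0) (p (nat_lit 0xa090988079a) (nat_lit 0) (p (nat_lit 0x88088907871a) (nat_lit 0) (p (nat_lit 0x7880887069a) (nat_lit 0) (p (nat_lit 0x80000800088806860a) (nat_lit 0) (p (nat_lit 0x80000800068786058a) (nat_lit 0) (p (nat_lit 0x8687058502) (nat_lit 0) (p (nat_lit 0x606850482) (nat_lit 0) (p (nat_lit 0x160014) (nat_lit 0) (p (nat_lit 0x68612) (nat_lit 0) (p (nat_lit 0x50592) (nat_lit 0) (p (nat_lit 0x40512) (nat_lit 0) (p (nat_lit 0x50312) (nat_lit 0) (p (nat_lit 0x38292) (nat_lit 0) (p (nat_lit 0x28212) (nat_lit 0) (p (nat_lit 0x38112) (nat_lit 0) (p (nat_lit 0x20092) (nat_lit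 0) (p (nat_lit 0x10012) (nat_lit 0) pn))))))))))))))))))))))))) :=
  Cl.node (nat_lit 0x3c4aa) (nat_lit 12) (by decide +kernel) (ClAll.succ (ClAll.succ (ClAll.succ (ClAll.succ (ClAll.succ (ClAll.succ (ClAll.succ (ClAll.succ (ClAll.succ (ClAll.succ (ClAll.succ (ClAll.succ ClAll.zero s1157) s1158) s1159) s1160) s1161) s1162) s1163) n450) s1169) s1170) s1171) s1172)

def n492 : Cl (O (nat_lit 3)) (R (nat_lit 143633))
    (p (nat_lit 0x109) (nat_lit 1) (p (nat_lit 0x101) (nat_lit 0) (p (nat_lit 0x119) (nat_lit 0) (p (nat_lit 0xd1) (nat_lit 0) (p (nat_lit 0x89) (nat_lit 0) (p (nat_lit 0x41) (nat_lit 0) (p (nat_lit 0x8a898a08881a) (nat_lit 0) (p (nat_lit 0xa090988079a) (nat_lit 0) (p (nat_lit 0x88088907871a) (nat_lit 0) (p (nat_lit 0x7880887069a) (nat_lit 0) (p (nat_lit 0x80000800088806860a) (nat_lit 0) (p (nat_lit 0x80000800068786058a) (nat_lit 0) (p (nat_lit 0x8687058502) (nat_lit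 0) (p (nat_lit 0x606850482) (nat_lit 0) (p (nat_lit 0x160014) (nat_lit 0) (p (nat_lit 0x68612) (nat_lit 0) (p (nat_lit 0x50592) (nat_lit 0) (p (nat_lit 0x40512) (nat_lit 0) (p (nat_lit 0x50312) (nat_lit 0) (p (nat_lit 0x38292) (nat_lit 0) (p (nat_lit 0x28212) (nat_lit 0) (p (nat_lit 0x38112) (nat_lit 0) (p (nat_lit 0x20092) (nat_lit 0) (p (nat_lit 0x10012) (nat_lit 0) pn)))))))))))))))))))))))) :=
  Cl.node (nat_lit 0xc9) (nat_lit 2) (by decide +kernel) (ClAll.succ (ClAll.succ ClAll.zero s1) n451)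

def n493 : Cl (O (nat_lit 3)) (R (nat_lit 143633))
    (p (nat_lit 0x81) (nat_lit 0) (p (nat_lit 0x101) (nat_lit 1) (p (nat_lit 0x119) (nat_lit 0) (p (nat_lit 0xd1) (nat_lit 0) (p (nat_lit 0x89) (nat_lit 0) (p (nat_lit 0x41) (nat_lit 0) (p (nat_lit 0x8a898a08881a) (nat_lit 0) (p (nat_lit 0xa090988079a) (nat_lit 0) (p (nat_lit 0x88088907871a) (nat_lit 0) (p (nat_lit 0x7880887069a) (nat_lit 0) (p (nat_lit 0x80000800088806860a) (nat_lit 0) (p (nat_lit 0x80000800068786058a) (nat_lit 0) (p (nat_lit 0x8687058502) (nat_lit 0) (p (nat_lit 0x606850482) (nat_lit 0) (p (nat_lit 0x160014) (nat_lit 0) (p (nat_lit 0x68612) (nat_lit 0) (p (nat_lit 0x50592) (nat_lit 0) (p (nat_lit 0x40512) (nat_lit 0) (p (nat_lit 0x50312) (nat_lit 0) (p (nat_lit 0x38292) (nat_lit 0) (p (nat_lit 0x28212) (nat_lit 0) (p (nat_lit 0x38112) (nat_lit 0) (p (nat_lit 0x20092) (nat_lit 0) (p (nat_lit 0x10012) (nat_lit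 0) pn)))))))))))))))))))))))) :=
  Cl.node (nat_lit 0xc9) (nat_lit 2) (by decide +kernel) (ClAll.succ (ClAll.succ ClAll.zero n452) n453)

def n494 : Cl (O (nat_lit 3)) (R (nat_lit 143633))
    (p (nat_lit 0x81) (nat_lit 1) (p (nat_lit 0x101) (nat_lit 1) (p (nat_lit 0x119) (nat_lit 0) (p (nat_lit 0xd1) (nat_lit 0) (p (nat_lit 0x89) (nat_lit 0) (p (nat_lit 0x41) (nat_lit 0) (p (nat_lit 0x8a898a08881a) (nat_lit 0) (p (nat_lit 0xa090988079a) (nat_lit 0) (p (nat_lit 0x88088907871a) (nat_lit 0) (p (nat_lit 0x7880887069a) (nat_lit 0) (p (nat_lit 0x80000800088806860a) (nat_lit 0) (p (nat_lit 0x80000800068786058a) (nat_lit 0) (p (nat_lit 0x8687058502) (nat_lit 0) (p (nat_lit 0x606850482) (nat_lit 0) (p (nat_lit 0x160014) (nat_lit 0) (p (nat_lit 0x68612) (nat_lit 0) (p (nat_lit 0x50592) (nat_lit 0) (p (nat_lit 0x40512) (nat_lit 0) (p (nat_lit 0x50312) (nat_lit 0) (p (nat_lit 0x38292)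 (nat_lit 0) (p (nat_lit 0x28212) (nat_lit 0) (p (nat_lit 0x38112) (nat_lit 0) (p (nat_lit 0x20092) (nat_lit 0) (p (nat_lit 0x10012) (nat_lit 0) pn)))))))))))))))))))))))) :=
  Cl.node (nat_lit 0xc1) (nat_lit 2) (by decide +kernel) (ClAll.succ (ClAll.succ ClAll.zero n454) s104)

def n495 : Cl (O (nat_lit 3)) (R (nat_lit 143633))
    (p (nat_lit 0xc9) (nat_lit 1) (p (nat_lit 0xc1) (nat_lit 0) (p (nat_lit 0x119) (nat_lit 1) (p (nat_lit 0xd1) (nat_lit 0) (p (nat_lit 0x89) (nat_lit 0) (p (nat_lit 0x41) (nat_lit 0) (p (nat_lit 0x8a898a08881a) (nat_lit 0) (p (nat_lit 0xa090988079a) (nat_lit 0) (p (nat_lit 0x88088907871a) (nat_lit 0) (p (nat_lit 0x7880887069a) (nat_lit 0) (p (nat_lit 0x80000800088806860a) (nat_lit 0) (p (nat_lit 0x80000800068786058a) (nat_lit 0) (p (nat_lit 0x8687058502) (nat_lit 0) (p (nat_lit 0x606850482) (nat_lit 0) (p (nat_lit 0x160014) (nat_lit 0) (p (nat_lit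 0x68612) (nat_lit 0) (p (nat_lit 0x50592) (nat_lit 0) (p (nat_lit 0x40512) (nat_lit 0) (p (nat_lit 0x50312) (nat_lit 0) (p (nat_lit 0x38292) (nat_lit 0) (p (nat_lit 0x28212) (nat_lit 0) (p (nat_lit 0x38112) (nat_lit 0) (p (nat_lit 0x20092) (nat_lit 0) (p (nat_lit 0x10012) (nat_lit 0) pn)))))))))))))))))))))))) :=
  Cl.node (nat_lit 0x109) (nat_lit 2) (by decide +kernel) (ClAll.succ (ClAll.succ ClAll.zero s106) n455)

def n496 : Cl (O (nat_lit 3)) (R (nat_lit 143633))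
    (p (nat_lit 0x81) (nat_lit 0) (p (nat_lit 0xc1) (nat_lit 1) (p (nat_lit 0x119) (nat_lit 1) (p (nat_lit 0xd1) (nat_lit 0) (p (nat_lit 0x89) (nat_lit 0) (p (nat_lit 0x41) (nat_lit 0) (p (nat_lit 0x8a898a08881a) (nat_lit 0) (p (nat_lit 0xa090988079a) (nat_lit 0) (p (nat_lit 0x88088907871a) (nat_lit 0) (p (nat_lit 0x7880887069a) (nat_lit 0) (p (nat_lit 0x80000800088806860a) (nat_lit 0) (p (nat_lit 0x80000800068786058a) (nat_lit 0) (p (nat_lit 0x8687058502) (nat_lit 0) (p (nat_lit 0x606850482) (nat_lit 0) (p (nat_lit 0x160014) (nat_lit 0) (p (nat_lit 0x68612) (nat_lit 0) (p (nat_lit 0x50592) (nat_lit 0) (p (nat_lit 0x40512) (nat_lit 0) (p (nat_lit 0x50312) (nat_lit 0) (p (nat_lit 0x38292) (nat_lit 0) (p (nat_lit 0x28212) (nat_lit 0) (p (nat_lit 0x38112) (nat_lit 0) (p (nat_lit 0x20092) (nat_lit 0) (p (nat_lit 0x10012) (nat_lit 0) pn)))))))))))))))))))))))) :=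
  Cl.node (nat_lit 0x109) (nat_lit 2) (by decide +kernel) (ClAll.succ (ClAll.succ ClAll.zero s163) n456)

def n497 : Cl (O (nat_lit 3)) (R (nat_lit 143633))
    (p (nat_lit 0x81) (nat_lit 1) (p (nat_lit 0xc1) (nat_lit 1) (p (nat_lit 0x119) (nat_lit 1) (p (nat_lit 0xd1) (nat_lit 0) (p (nat_lit 0x89) (nat_lit 0) (p (nat_lit 0x41) (nat_lit 0) (p (nat_lit 0x8a898a08881a) (nat_lit 0) (p (nat_lit 0xa090988079a) (nat_lit 0) (p (nat_lit 0x88088907871a) (nat_lit 0) (p (nat_lit 0x7880887069a) (nat_lit 0) (p (nat_lit 0x80000800088806860a) (nat_lit 0) (p (nat_lit 0x80000800068786058a) (nat_lit 0) (p (nat_lit 0x8687058502) (nat_lit 0) (p (nat_lit 0x606850482) (nat_lit 0) (p (nat_lit 0x160014) (nat_lit 0) (p (nat_lit 0x68612) (nat_lit 0) (p (nat_lit 0x50592) (nat_lit 0) (p (nat_lit 0x40512) (nat_lit 0) (p (nat_lit 0x50312) (nat_lit 0) (p (nat_lit 0x38292) (nat_lit 0) (p (nat_lit 0x28212)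 (nat_lit 0) (p (nat_lit 0x38112) (nat_lit 0) (p (nat_lit 0x20092) (nat_lit 0) (p (nat_lit 0x10012) (nat_lit 0) pn)))))))))))))))))))))))) :=
  Cl.node (nat_lit 0x101) (nat_lit 2) (by decide +kernel) (ClAll.succ (ClAll.succ ClAll.zero n457) n458)

def n498 : Cl (O (nat_lit 3)) (R (nat_lit 143633))
    (p (nat_lit 0x109) (nat_lit 1) (p (nat_lit 0x101) (nat_lit 0) (p (nat_lit 0x111) (nat_lit 0) (p (nat_lit 0xd1) (nat_lit 1) (p (nat_lit 0x89) (nat_lit 0) (p (nat_lit 0x41) (nat_lit 0) (p (nat_lit 0x8a898a08881a) (nat_lit 0) (p (nat_lit 0xa090988079a) (nat_lit 0) (p (nat_lit 0x88088907871a) (nat_lit 0) (p (nat_lit 0x7880887069a) (nat_lit 0) (p (nat_lit 0x80000800088806860a) (nat_lit 0) (p (nat_lit 0x80000800068786058a) (nat_lit 0) (p (nat_lit 0x8687058502) (nat_lit 0) (p (nat_lit 0x606850482) (nat_lit 0) (p (nat_lit 0x160014) (nat_lit 0) (p (nat_lit 0x68612) (nat_lit 0) (p (nat_lit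 0x50592) (nat_lit 0) (p (nat_lit 0x40512) (nat_lit 0) (p (nat_lit 0x50312) (nat_lit 0) (p (nat_lit 0x38292) (nat_lit 0) (p (nat_lit 0x28212) (nat_lit 0) (p (nat_lit 0x38112) (nat_lit 0) (p (nat_lit 0x20092) (nat_lit 0) (p (nat_lit 0x10012) (nat_lit 0) pn)))))))))))))))))))))))) :=
  Cl.node (nat_lit 0xc1) (nat_lit 2) (by decide +kernel) (ClAll.succ (ClAll.succ ClAll.zero s244) n459)

def n499 : Cl (O (nat_lit 3)) (R (nat_lit 143633))
    (p (nat_lit 0x81) (nat_lit 0) (p (nat_lit 0x101) (nat_lit 1) (p (nat_lit 0x111) (nat_lit 0) (p (nat_lit 0xd1) (nat_lit 1) (p (nat_lit 0x89) (nat_lit 0) (p (nat_lit 0x41) (nat_lit 0) (p (nat_lit 0x8a898a08881a) (nat_lit 0) (p (nat_lit 0xa090988079a) (nat_lit 0) (p (nat_lit 0x88088907871a) (nat_lit 0) (p (nat_lit 0x7880887069a) (nat_lit 0) (p (nat_lit 0x80000800088806860a) (nat_lit 0) (p (nat_lit 0x80000800068786058a) (nat_lit 0) (p (nat_lit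 0x8687058502) (nat_lit 0) (p (nat_lit 0x606850482) (nat_lit 0) (p (nat_lit 0x160014) (nat_lit 0) (p (nat_lit 0x68612) (nat_lit 0) (p (nat_lit 0x50592) (nat_lit 0) (p (nat_lit 0x40512) (nat_lit 0) (p (nat_lit 0x50312) (nat_lit 0) (p (nat_lit 0x38292) (nat_lit 0) (p (nat_lit 0x28212) (nat_lit 0) (p (nat_lit 0x38112) (nat_lit 0) (p (nat_lit 0x20092) (nat_lit 0) (p (nat_lit 0x10012) (nat_lit 0) pn)))))))))))))))))))))))) :=
  Cl.node (nat_lit 0x119) (nat_lit 2) (by decide +kernel) (ClAll.succ (ClAll.succ ClAll.zero n460) n461)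

def n500 : Cl (O (nat_lit 3)) (R (nat_lit 143633))
    (p (nat_lit 0x81) (nat_lit 1) (p (nat_lit 0x101) (nat_lit 1) (p (nat_lit 0x111) (nat_lit 0) (p (nat_lit 0xd1) (nat_lit 1) (p (nat_lit 0x89) (nat_lit 0) (p (nat_lit 0x41) (nat_lit 0) (p (nat_lit 0x8a898a08881a) (nat_lit 0) (p (nat_lit 0xa090988079a) (nat_lit 0) (p (nat_lit 0x88088907871a) (nat_lit 0) (p (nat_lit 0x7880887069a) (nat_lit 0) (p (nat_lit 0x80000800088806860a) (nat_lit 0) (p (nat_lit 0x80000800068786058a) (nat_lit 0) (p (nat_lit 0x8687058502) (nat_lit 0) (p (nat_lit 0x606850482) (nat_lit 0) (p (nat_lit 0x160014) (nat_lit 0) (p (nat_lit 0x68612) (nat_lit 0) (p (nat_lit 0x50592) (nat_lit 0) (p (nat_lit 0x40512) (nat_lit 0) (p (nat_lit 0x50312) (nat_lit 0) (p (nat_lit 0x38292) (nat_lit 0) (p (nat_lit 0x28212) (nat_lit 0) (p (nat_lit 0x38112) (nat_lit 0) (p (nat_lit 0x20092) (nat_lit 0) (p (nat_lit 0x10012) (nat_lit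 0) pn)))))))))))))))))))))))) :=
  Cl.node (nat_lit 0xc1) (nat_lit 2) (by decide +kernel) (ClAll.succ (ClAll.succ ClAll.zero n462) s309)

def n501 : Cl (O (nat_lit 3)) (R (nat_lit 143633))
    (p (nat_lit 0xc1) (nat_lit 1) (p (nat_lit 0x81) (nat_lit 1) (p (nat_lit 0x111) (nat_lit 1) (p (nat_lit 0xd1) (nat_lit 1) (p (nat_lit 0x89) (nat_lit 0) (p (nat_lit 0x41) (nat_lit 0) (p (nat_lit 0x8a898a08881a) (nat_lit 0) (p (nat_lit 0xa090988079a) (nat_lit 0) (p (nat_lit 0x88088907871a) (nat_lit 0) (p (nat_lit 0x7880887069a) (nat_lit 0) (p (nat_lit 0x80000800088806860a) (nat_lit 0) (p (nat_lit 0x80000800068786058a) (nat_lit 0) (p (nat_lit 0x8687058502) (nat_lit 0) (p (nat_lit 0x606850482) (nat_lit 0) (p (nat_lit 0x160014) (nat_lit 0) (p (nat_lit 0x68612) (nat_lit 0) (p (nat_lit 0x50592) (nat_lit 0) (p (nat_lit 0x40512) (nat_lit 0) (p (nat_lit 0x50312) (nat_lit 0) (p (nat_lit 0x38292)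 (nat_lit 0) (p (nat_lit 0x28212) (nat_lit 0) (p (nat_lit 0x38112) (nat_lit 0) (p (nat_lit 0x20092) (nat_lit 0) (p (nat_lit 0x10012) (nat_lit 0) pn)))))))))))))))))))))))) :=
  Cl.node (nat_lit 0x101) (nat_lit 2) (by decide +kernel) (ClAll.succ (ClAll.succ ClAll.zero n463) s324)

def n502 : Cl (O (nat_lit 3)) (R (nat_lit 143633))
    (p (nat_lit 0x109) (nat_lit 0) (p (nat_lit 0x101) (nat_lit 0) (p (nat_lit 0x119) (nat_lit 0) (p (nat_lit 0xc9) (nat_lit 0) (p (nat_lit 0x89) (nat_lit 1) (p (nat_lit 0x41) (nat_lit 0) (p (nat_lit 0x8a898a08881a) (nat_lit 0) (p (nat_lit 0xa090988079a) (nat_lit 0) (p (nat_lit 0x88088907871a) (nat_lit 0) (p (nat_lit 0x7880887069a) (nat_lit 0) (p (nat_lit 0x80000800088806860a) (nat_lit 0) (p (nat_lit 0x80000800068786058a) (nat_lit 0) (p (nat_lit 0x8687058502) (nat_lit 0) (p (nat_lit 0x606850482) (nat_lit 0) (p (nat_lit 0x160014) (nat_lit 0) (p (nat_lit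 0x68612) (nat_lit 0) (p (nat_lit 0x50592) (nat_lit 0) (p (nat_lit 0x40512) (nat_lit 0) (p (nat_lit 0x50312) (nat_lit 0) (p (nat_lit 0x38292) (nat_lit 0) (p (nat_lit 0x28212) (nat_lit 0) (p (nat_lit 0x38112) (nat_lit 0) (p (nat_lit 0x20092) (nat_lit 0) (p (nat_lit 0x10012) (nat_lit 0) pn)))))))))))))))))))))))) :=
  Cl.node (nat_lit 0x111) (nat_lit 2) (by decide +kernel) (ClAll.succ (ClAll.succ ClAll.zero s325) n464)

def n503 : Cl (O (nat_lit 3)) (R (nat_lit 143633))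
    (p (nat_lit 0x109) (nat_lit 1) (p (nat_lit 0x101) (nat_lit 0) (p (nat_lit 0x119) (nat_lit 0) (p (nat_lit 0xc9) (nat_lit 0) (p (nat_lit 0x89) (nat_lit 1) (p (nat_lit 0x41) (nat_lit 0) (p (nat_lit 0x8a898a08881a) (nat_lit 0) (p (nat_lit 0xa090988079a) (nat_lit 0) (p (nat_lit 0x88088907871a) (nat_lit 0) (p (nat_lit 0x7880887069a) (nat_lit 0) (p (nat_lit 0x80000800088806860a) (nat_lit 0) (p (nat_lit 0x80000800068786058a) (nat_lit 0) (p (nat_lit 0x8687058502) (nat_lit 0) (p (nat_lit 0x606850482) (nat_lit 0) (p (nat_lit 0x160014) (nat_lit 0) (p (nat_lit 0x68612) (nat_lit 0) (p (nat_lit 0x50592) (nat_lit 0) (p (nat_lit 0x40512) (nat_lit 0) (p (nat_lit 0x50312) (nat_lit 0) (p (nat_lit 0x38292) (nat_lit 0) (p (nat_lit 0x28212) (nat_lit 0) (p (nat_lit 0x38112) (nat_lit 0) (p (nat_lit 0x20092) (nat_lit 0) (p (nat_lit 0x10012) (nat_lit 0) pn)))))))))))))))))))))))) :=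
  Cl.node (nat_lit 0xd1) (nat_lit 2) (by decide +kernel) (ClAll.succ (ClAll.succ ClAll.zero n465) n466)

def n504 : Cl (O (nat_lit 3)) (R (nat_lit 143633))
    (p (nat_lit 0xc1) (nat_lit 0) (p (nat_lit 0x101) (nat_lit 1) (p (nat_lit 0x119) (nat_lit 0) (p (nat_lit 0xc9) (nat_lit 0) (p (nat_lit 0x89) (nat_lit 1) (p (nat_lit 0x41) (nat_lit 0) (p (nat_lit 0x8a898a08881a) (nat_lit 0) (p (nat_lit 0xa090988079a) (nat_lit 0) (p (nat_lit 0x88088907871a) (nat_lit 0) (p (nat_lit 0x7880887069a) (nat_lit 0) (p (nat_lit 0x80000800088806860a) (nat_lit 0) (p (nat_lit 0x80000800068786058a) (nat_lit 0) (p (nat_lit 0x8687058502) (nat_lit 0) (p (nat_lit 0x606850482) (nat_lit 0) (p (nat_lit 0x160014) (nat_lit 0) (p (nat_lit 0x68612) (nat_lit 0) (p (nat_lit 0x50592) (nat_lit 0) (p (nat_lit 0x40512) (nat_lit 0) (p (nat_lit 0x50312) (nat_lit 0) (p (nat_lit 0x38292) (nat_lit 0) (p (nat_lit 0x28212)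 (nat_lit 0) (p (nat_lit 0x38112) (nat_lit 0) (p (nat_lit 0x20092) (nat_lit 0) (p (nat_lit 0x10012) (nat_lit 0) pn)))))))))))))))))))))))) :=
  Cl.node (nat_lit 0xd1) (nat_lit 2) (by decide +kernel) (ClAll.succ (ClAll.succ ClAll.zero n467) n468)

def n505 : Cl (O (nat_lit 3)) (R (nat_lit 143633))
    (p (nat_lit 0xd1) (nat_lit 1) (p (nat_lit 0xc1) (nat_lit 0) (p (nat_lit 0x119) (nat_lit 1) (p (nat_lit 0xc9) (nat_lit 0) (p (nat_lit 0x89) (nat_lit 1) (p (nat_lit 0x41) (nat_lit 0) (p (nat_lit 0x8a898a08881a) (nat_lit 0) (p (nat_lit 0xa090988079a) (nat_lit 0) (p (nat_lit 0x88088907871a) (nat_lit 0) (p (nat_lit 0x7880887069a) (nat_lit 0) (p (nat_lit 0x80000800088806860a) (nat_lit 0) (p (nat_lit 0x80000800068786058a) (nat_lit 0) (p (nat_lit 0x8687058502) (nat_lit 0) (p (nat_lit 0x606850482) (nat_lit 0) (p (nat_lit 0x160014) (nat_lit 0) (p (nat_lit 0x68612) (nat_lit 0) (p (nat_lit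 0x50592) (nat_lit 0) (p (nat_lit 0x40512) (nat_lit 0) (p (nat_lit 0x50312) (nat_lit 0) (p (nat_lit 0x38292) (nat_lit 0) (p (nat_lit 0x28212) (nat_lit 0) (p (nat_lit 0x38112) (nat_lit 0) (p (nat_lit 0x20092) (nat_lit 0) (p (nat_lit 0x10012) (nat_lit 0) pn)))))))))))))))))))))))) :=
  Cl.node (nat_lit 0x111) (nat_lit 2) (by decide +kernel) (ClAll.succ (ClAll.succ ClAll.zero s486) n469)

def n506 : Cl (O (nat_lit 3)) (R (nat_lit 143633))
    (p (nat_lit 0x101) (nat_lit 0) (p (nat_lit 0xc1) (nat_lit 1) (p (nat_lit 0x119) (nat_lit 1) (p (nat_lit 0xc9) (nat_lit 0) (p (nat_lit 0x89) (nat_lit 1) (p (nat_lit 0x41) (nat_lit 0) (p (nat_lit 0x8a898a08881a) (nat_lit 0) (p (nat_lit 0xa090988079a) (nat_lit 0) (p (nat_lit 0x88088907871a) (nat_lit 0) (p (nat_lit 0x7880887069a) (nat_lit 0) (p (nat_lit 0x80000800088806860a) (nat_lit 0) (p (nat_lit 0x80000800068786058a) (nat_lit 0) (p (nat_lit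 0x8687058502) (nat_lit 0) (p (nat_lit 0x606850482) (nat_lit 0) (p (nat_lit 0x160014) (nat_lit 0) (p (nat_lit 0x68612) (nat_lit 0) (p (nat_lit 0x50592) (nat_lit 0) (p (nat_lit 0x40512) (nat_lit 0) (p (nat_lit 0x50312) (nat_lit 0) (p (nat_lit 0x38292) (nat_lit 0) (p (nat_lit 0x28212) (nat_lit 0) (p (nat_lit 0x38112) (nat_lit 0) (p (nat_lit 0x20092) (nat_lit 0) (p (nat_lit 0x10012) (nat_lit 0) pn)))))))))))))))))))))))) :=
  Cl.node (nat_lit 0x111) (nat_lit 2) (by decide +kernel) (ClAll.succ (ClAll.succ ClAll.zero n470) n471)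

def n507 : Cl (O (nat_lit 3)) (R (nat_lit 143633))
    (p (nat_lit 0x111) (nat_lit 0) (p (nat_lit 0x101) (nat_lit 0) (p (nat_lit 0x109) (nat_lit 0) (p (nat_lit 0xc9) (nat_lit 1) (p (nat_lit 0x89) (nat_lit 1) (p (nat_lit 0x41) (nat_lit 0) (p (nat_lit 0x8a898a08881a) (nat_lit 0) (p (nat_lit 0xa090988079a) (nat_lit 0) (p (nat_lit 0x88088907871a) (nat_lit 0) (p (nat_lit 0x7880887069a) (nat_lit 0) (p (nat_lit 0x80000800088806860a) (nat_lit 0) (p (nat_lit 0x80000800068786058a) (nat_lit 0) (p (nat_lit 0x8687058502) (nat_lit 0) (p (nat_lit 0x606850482) (nat_lit 0) (p (nat_lit 0x160014) (nat_lit 0) (p (nat_lit 0x68612) (nat_lit 0) (p (nat_lit 0x50592) (nat_lit 0) (p (nat_lit 0x40512) (nat_lit 0) (p (nat_lit 0x50312) (nat_lit 0) (p (nat_lit 0x38292) (nat_lit 0) (p (nat_lit 0x28212) (nat_lit 0) (p (nat_lit 0x38112) (nat_lit 0) (p (nat_lit 0x20092) (nat_lit 0) (p (nat_lit 0x10012) (nat_lit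 0) pn)))))))))))))))))))))))) :=
  Cl.node (nat_lit 0x119) (nat_lit 2) (by decide +kernel) (ClAll.succ (ClAll.succ ClAll.zero s566) n472)

def n508 : Cl (O (nat_lit 3)) (R (nat_lit 143633))
    (p (nat_lit 0x111) (nat_lit 1) (p (nat_lit 0x101) (nat_lit 0) (p (nat_lit 0x109) (nat_lit 0) (p (nat_lit 0xc9) (nat_lit 1) (p (nat_lit 0x89) (nat_lit 1) (p (nat_lit 0x41) (nat_lit 0) (p (nat_lit 0x8a898a08881a) (nat_lit 0) (p (nat_lit 0xa090988079a) (nat_lit 0) (p (nat_lit 0x88088907871a) (nat_lit 0) (p (nat_lit 0x7880887069a) (nat_lit 0) (p (nat_lit 0x80000800088806860a) (nat_lit 0) (p (nat_lit 0x80000800068786058a) (nat_lit 0) (p (nat_lit 0x8687058502) (nat_lit 0) (p (nat_lit 0x606850482) (nat_lit 0) (p (nat_lit 0x160014) (nat_lit 0) (p (nat_lit 0x68612) (nat_lit 0) (p (nat_lit 0x50592) (nat_lit 0) (p (nat_lit 0x40512) (nat_lit 0) (p (nat_lit 0x50312) (nat_lit 0) (p (nat_lit 0x38292)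 (nat_lit 0) (p (nat_lit 0x28212) (nat_lit 0) (p (nat_lit 0x38112) (nat_lit 0) (p (nat_lit 0x20092) (nat_lit 0) (p (nat_lit 0x10012) (nat_lit 0) pn)))))))))))))))))))))))) :=
  Cl.node (nat_lit 0x444aa) (nat_lit 12) (by decide +kernel) (ClAll.succ (ClAll.succ (ClAll.succ (ClAll.succ (ClAll.succ (ClAll.succ (ClAll.succ (ClAll.succ (ClAll.succ (ClAll.succ (ClAll.succ (ClAll.succ ClAll.zero s579) s580) s581) s582) s583) s584) s585) s586) s587) s588) s589) s590)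

def n509 : Cl (O (nat_lit 3)) (R (nat_lit 143633))
    (p (nat_lit 0x109) (nat_lit 1) (p (nat_lit 0x101) (nat_lit 0) (p (nat_lit 0x119) (nat_lit 0) (p (nat_lit 0xd1) (nat_lit 0) (p (nat_lit 0x81) (nat_lit 0) (p (nat_lit 0x41) (nat_lit 1) (p (nat_lit 0x8a898a08881a) (nat_lit 0) (p (nat_lit 0xa090988079a) (nat_lit 0) (p (nat_lit 0x88088907871a) (nat_lit 0) (p (nat_lit 0x7880887069a) (nat_lit 0) (p (nat_lit 0x80000800088806860a) (nat_lit 0) (p (nat_lit 0x80000800068786058a) (nat_lit 0) (p (nat_lit 0x8687058502) (nat_lit 0) (p (nat_lit 0x606850482) (nat_lit 0) (p (nat_lit 0x160014) (nat_lit 0) (p (nat_lit 0x68612) (nat_lit 0) (p (nat_lit 0x50592) (nat_lit 0) (p (nat_lit 0x40512) (nat_lit 0) (p (nat_lit 0x50312) (nat_lit 0) (p (nat_lit 0x38292) (nat_lit 0) (p (nat_lit 0x28212) (nat_lit 0) (p (nat_lit 0x38112) (nat_lit 0) (p (nat_lit 0x20092) (nat_lit 0) (p (nat_lit 0x10012) (nat_lit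 0) pn)))))))))))))))))))))))) :=
  Cl.node (nat_lit 0x89) (nat_lit 2) (by decide +kernel) (ClAll.succ (ClAll.succ ClAll.zero n473) n474)

def n510 : Cl (O (nat_lit 3)) (R (nat_lit 143633))
    (p (nat_lit 0xc1) (nat_lit 0) (p (nat_lit 0x101) (nat_lit 1) (p (nat_lit 0x119) (nat_lit 0) (p (nat_lit 0xd1) (nat_lit 0) (p (nat_lit 0x81) (nat_lit 0) (p (nat_lit 0x41) (nat_lit 1) (p (nat_lit 0x8a898a08881a) (nat_lit 0) (p (nat_lit 0xa090988079a) (nat_lit 0) (p (nat_lit 0x88088907871a) (nat_lit 0) (p (nat_lit 0x7880887069a) (nat_lit 0) (p (nat_lit 0x80000800088806860a) (nat_lit 0) (p (nat_lit 0x80000800068786058a) (nat_lit 0) (p (nat_lit 0x8687058502) (nat_lit 0) (p (nat_lit 0x606850482) (nat_lit 0) (p (nat_lit 0x160014) (nat_lit 0) (p (nat_lit 0x68612) (nat_lit 0) (p (nat_lit 0x50592) (nat_lit 0) (p (nat_lit 0x40512) (nat_lit 0) (p (nat_lit 0x50312) (nat_lit 0) (p (nat_lit 0x38292)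 (nat_lit 0) (p (nat_lit 0x28212) (nat_lit 0) (p (nat_lit 0x38112) (nat_lit 0) (p (nat_lit 0x20092) (nat_lit 0) (p (nat_lit 0x10012) (nat_lit 0) pn)))))))))))))))))))))))) :=
  Cl.node (nat_lit 0x89) (nat_lit 2) (by decide +kernel) (ClAll.succ (ClAll.succ ClAll.zero n475) n476)

def n511 : Cl (O (nat_lit 3)) (R (nat_lit 143633))
    (p (nat_lit 0xc1) (nat_lit 1) (p (nat_lit 0x101) (nat_lit 1) (p (nat_lit 0x119) (nat_lit 0) (p (nat_lit 0xd1) (nat_lit 0) (p (nat_lit 0x81) (nat_lit 0) (p (nat_lit 0x41) (nat_lit 1) (p (nat_lit 0x8a898a08881a) (nat_lit 0) (p (nat_lit 0xa090988079a) (nat_lit 0) (p (nat_lit 0x88088907871a) (nat_lit 0) (p (nat_lit 0x7880887069a) (nat_lit 0) (p (nat_lit 0x80000800088806860a) (nat_lit 0) (p (nat_lit 0x80000800068786058a) (nat_lit 0) (p (nat_lit 0x8687058502) (nat_lit 0) (p (nat_lit 0x606850482) (nat_lit 0) (p (nat_lit 0x160014) (nat_lit 0) (p (nat_lit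 0x68612) (nat_lit 0) (p (nat_lit 0x50592) (nat_lit 0) (p (nat_lit 0x40512) (nat_lit 0) (p (nat_lit 0x50312) (nat_lit 0) (p (nat_lit 0x38292) (nat_lit 0) (p (nat_lit 0x28212) (nat_lit 0) (p (nat_lit 0x38112) (nat_lit 0) (p (nat_lit 0x20092) (nat_lit 0) (p (nat_lit 0x10012) (nat_lit 0) pn)))))))))))))))))))))))) :=
  Cl.node (nat_lit 0x89) (nat_lit 2) (by decide +kernel) (ClAll.succ (ClAll.succ ClAll.zero s682) n477)

def n512 : Cl (O (nat_lit 3)) (R (nat_lit 143633))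
    (p (nat_lit 0xc9) (nat_lit 1) (p (nat_lit 0xc1) (nat_lit 0) (p (nat_lit 0x119) (nat_lit 1) (p (nat_lit 0xd1) (nat_lit 0) (p (nat_lit 0x81) (nat_lit 0) (p (nat_lit 0x41) (nat_lit 1) (p (nat_lit 0x8a898a08881a) (nat_lit 0) (p (nat_lit 0xa090988079a) (nat_lit 0) (p (nat_lit 0x88088907871a) (nat_lit 0) (p (nat_lit 0x7880887069a) (nat_lit 0) (p (nat_lit 0x80000800088806860a) (nat_lit 0) (p (nat_lit 0x80000800068786058a) (nat_lit 0) (p (nat_lit 0x8687058502) (nat_lit 0) (p (nat_lit 0x606850482) (nat_lit 0) (p (nat_lit 0x160014) (nat_lit 0) (p (nat_lit 0x68612) (nat_lit 0) (p (nat_lit 0x50592) (nat_lit 0) (p (nat_lit 0x40512) (nat_lit 0) (p (nat_lit 0x50312) (nat_lit 0) (p (nat_lit 0x38292) (nat_lit 0) (p (nat_lit 0x28212) (nat_lit 0) (p (nat_lit 0x38112) (nat_lit 0) (p (nat_lit 0x20092) (nat_lit 0) (p (nat_lit 0x10012) (nat_lit 0) pn)))))))))))))))))))))))) :=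
  Cl.node (nat_lit 0x89) (nat_lit 2) (by decide +kernel) (ClAll.succ (ClAll.succ ClAll.zero s701) n478)

def n513 : Cl (O (nat_lit 3)) (R (nat_lit 143633))
    (p (nat_lit 0x101) (nat_lit 0) (p (nat_lit 0xc1) (nat_lit 1) (p (nat_lit 0x119) (nat_lit 1) (p (nat_lit 0xd1) (nat_lit 0) (p (nat_lit 0x81) (nat_lit 0) (p (nat_lit 0x41) (nat_lit 1) (p (nat_lit 0x8a898a08881a) (nat_lit 0) (p (nat_lit 0xa090988079a) (nat_lit 0) (p (nat_lit 0x88088907871a) (nat_lit 0) (p (nat_lit 0x7880887069a) (nat_lit 0) (p (nat_lit 0x80000800088806860a) (nat_lit 0) (p (nat_lit 0x80000800068786058a) (nat_lit 0) (p (nat_lit 0x8687058502) (nat_lit 0) (p (nat_lit 0x606850482) (nat_lit 0) (p (nat_lit 0x160014) (nat_lit 0) (p (nat_lit 0x68612) (nat_lit 0) (p (nat_lit 0x50592) (nat_lit 0) (p (nat_lit 0x40512) (nat_lit 0) (p (nat_lit 0x50312) (nat_lit 0) (p (nat_lit 0x38292) (nat_lit 0) (p (nat_lit 0x28212)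 (nat_lit 0) (p (nat_lit 0x38112) (nat_lit 0) (p (nat_lit 0x20092) (nat_lit 0) (p (nat_lit 0x10012) (nat_lit 0) pn)))))))))))))))))))))))) :=
  Cl.node (nat_lit 0x89) (nat_lit 2) (by decide +kernel) (ClAll.succ (ClAll.succ ClAll.zero s757) n479)

def n514 : Cl (O (nat_lit 3)) (R (nat_lit 143633))
    (p (nat_lit 0x101) (nat_lit 1) (p (nat_lit 0xc1) (nat_lit 1) (p (nat_lit 0x119) (nat_lit 1) (p (nat_lit 0xd1) (nat_lit 0) (p (nat_lit 0x81) (nat_lit 0) (p (nat_lit 0x41) (nat_lit 1) (p (nat_lit 0x8a898a08881a) (nat_lit 0) (p (nat_lit 0xa090988079a) (nat_lit 0) (p (nat_lit 0x88088907871a) (nat_lit 0) (p (nat_lit 0x7880887069a) (nat_lit 0) (p (nat_lit 0x80000800088806860a) (nat_lit 0) (p (nat_lit 0x80000800068786058a) (nat_lit 0) (p (nat_lit 0x8687058502) (nat_lit 0) (p (nat_lit 0x606850482) (nat_lit 0) (p (nat_lit 0x160014) (nat_lit 0) (p (nat_lit 0x68612) (nat_lit 0) (p (nat_lit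 0x50592) (nat_lit 0) (p (nat_lit 0x40512) (nat_lit 0) (p (nat_lit 0x50312) (nat_lit 0) (p (nat_lit 0x38292) (nat_lit 0) (p (nat_lit 0x28212) (nat_lit 0) (p (nat_lit 0x38112) (nat_lit 0) (p (nat_lit 0x20092) (nat_lit 0) (p (nat_lit 0x10012) (nat_lit 0) pn)))))))))))))))))))))))) :=
  Cl.node (nat_lit 0x89) (nat_lit 2) (by decide +kernel) (ClAll.succ (ClAll.succ ClAll.zero s836) n480)

def n515 : Cl (O (nat_lit 3)) (R (nat_lit 143633))
    (p (nat_lit 0x109) (nat_lit 1) (p (nat_lit 0x101) (nat_lit 0) (p (nat_lit 0x111) (nat_lit 0) (p (nat_lit 0xd1) (nat_lit 1) (p (nat_lit 0x81) (nat_lit 0) (p (nat_lit 0x41) (nat_lit 1) (p (nat_lit 0x8a898a08881a) (nat_lit 0) (p (nat_lit 0xa090988079a) (nat_lit 0) (p (nat_lit 0x88088907871a) (nat_lit 0) (p (nat_lit 0x7880887069a) (nat_lit 0) (p (nat_lit 0x80000800088806860a) (nat_lit 0) (p (nat_lit 0x80000800068786058a) (nat_lit 0) (p (nat_lit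 0x8687058502) (nat_lit 0) (p (nat_lit 0x606850482) (nat_lit 0) (p (nat_lit 0x160014) (nat_lit 0) (p (nat_lit 0x68612) (nat_lit 0) (p (nat_lit 0x50592) (nat_lit 0) (p (nat_lit 0x40512) (nat_lit 0) (p (nat_lit 0x50312) (nat_lit 0) (p (nat_lit 0x38292) (nat_lit 0) (p (nat_lit 0x28212) (nat_lit 0) (p (nat_lit 0x38112) (nat_lit 0) (p (nat_lit 0x20092) (nat_lit 0) (p (nat_lit 0x10012) (nat_lit 0) pn)))))))))))))))))))))))) :=
  Cl.node (nat_lit 0x89) (nat_lit 2) (by decide +kernel) (ClAll.succ (ClAll.succ ClAll.zero s867) n481)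

def n516 : Cl (O (nat_lit 3)) (R (nat_lit 143633))
    (p (nat_lit 0x89) (nat_lit 0) (p (nat_lit 0x101) (nat_lit 1) (p (nat_lit 0x111) (nat_lit 0) (p (nat_lit 0xd1) (nat_lit 1) (p (nat_lit 0x81) (nat_lit 0) (p (nat_lit 0x41) (nat_lit 1) (p (nat_lit 0x8a898a08881a) (nat_lit 0) (p (nat_lit 0xa090988079a) (nat_lit 0) (p (nat_lit 0x88088907871a) (nat_lit 0) (p (nat_lit 0x7880887069a) (nat_lit 0) (p (nat_lit 0x80000800088806860a) (nat_lit 0) (p (nat_lit 0x80000800068786058a) (nat_lit 0) (p (nat_lit 0x8687058502) (nat_lit 0) (p (nat_lit 0x606850482) (nat_lit 0) (p (nat_lit 0x160014) (nat_lit 0) (p (nat_lit 0x68612) (nat_lit 0) (p (nat_lit 0x50592) (nat_lit 0) (p (nat_lit 0x40512) (nat_lit 0) (p (nat_lit 0x50312) (nat_lit 0) (p (nat_lit 0x38292) (nat_lit 0) (p (nat_lit 0x28212) (nat_lit 0) (p (nat_lit 0x38112) (nat_lit 0) (p (nat_lit 0x20092) (nat_lit 0) (p (nat_lit 0x10012) (nat_lit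 0) pn)))))))))))))))))))))))) :=
  Cl.node (nat_lit 0x3cc2a) (nat_lit 12) (by decide +kernel) (ClAll.succ (ClAll.succ (ClAll.succ (ClAll.succ (ClAll.succ (ClAll.succ (ClAll.succ (ClAll.succ (ClAll.succ (ClAll.succ (ClAll.succ (ClAll.succ ClAll.zero s893) s894) s895) s896) s897) s898) s899) s900) s901) s902) s903) s904)

def n517 : Cl (O (nat_lit 3)) (R (nat_lit 143633))
    (p (nat_lit 0x89) (nat_lit 1) (p (nat_lit 0x101) (nat_lit 1) (p (nat_lit 0x111) (nat_lit 0) (p (nat_lit 0xd1) (nat_lit 1) (p (nat_lit 0x81) (nat_lit 0) (p (nat_lit 0x41) (nat_lit 1) (p (nat_lit 0x8a898a08881a) (nat_lit 0) (p (nat_lit 0xa090988079a) (nat_lit 0) (p (nat_lit 0x88088907871a) (nat_lit 0) (p (nat_lit 0x7880887069a) (nat_lit 0) (p (nat_lit 0x80000800088806860a) (nat_lit 0) (p (nat_lit 0x80000800068786058a) (nat_lit 0) (p (nat_lit 0x8687058502) (nat_lit 0) (p (nat_lit 0x606850482) (nat_lit 0)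 (p (nat_lit 0x160014) (nat_lit 0) (p (nat_lit 0x68612) (nat_lit 0) (p (nat_lit 0x50592) (nat_lit 0) (p (nat_lit 0x40512) (nat_lit 0) (p (nat_lit 0x50312) (nat_lit 0) (p (nat_lit 0x38292) (nat_lit 0) (p (nat_lit 0x28212) (nat_lit 0) (p (nat_lit 0x38112) (nat_lit 0) (p (nat_lit 0x20092) (nat_lit 0) (p (nat_lit 0x10012) (nat_lit 0) pn)))))))))))))))))))))))) :=
  Cl.node (nat_lit 0xc9) (nat_lit 2) (by decide +kernel) (ClAll.succ (ClAll.succ ClAll.zero n482) n483)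

def n518 : Cl (O (nat_lit 3)) (R (nat_lit 143633))
    (p (nat_lit 0xc9) (nat_lit 1) (p (nat_lit 0x89) (nat_lit 1) (p (nat_lit 0x111) (nat_lit 1) (p (nat_lit 0xd1) (nat_lit 1) (p (nat_lit 0x81) (nat_lit 0) (p (nat_lit 0x41) (nat_lit 1) (p (nat_lit 0x8a898a08881a) (nat_lit 0) (p (nat_lit 0xa090988079a) (nat_lit 0) (p (nat_lit 0x88088907871a) (nat_lit 0) (p (nat_lit 0x7880887069a) (nat_lit 0) (p (nat_lit 0x80000800088806860a) (nat_lit 0) (p (nat_lit 0x80000800068786058a) (nat_lit 0) (p (nat_lit 0x8687058502) (nat_lit 0) (p (nat_lit 0x606850482) (nat_lit 0) (p (nat_lit 0x160014) (nat_lit 0) (p (nat_lit 0x68612) (nat_lit 0) (p (nat_lit 0x50592) (nat_lit 0) (p (nat_lit 0x40512) (nat_lit 0) (p (nat_lit 0x50312) (nat_lit 0) (p (nat_lit 0x38292) (nat_lit 0) (p (nat_lit 0x28212) (nat_lit 0) (p (nat_lit 0x38112) (nat_lit 0) (p (nat_lit 0x20092) (nat_lit 0) (p (nat_lit 0x10012) (nat_lit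 0) pn)))))))))))))))))))))))) :=
  Cl.node (nat_lit 0x109) (nat_lit 2) (by decide +kernel) (ClAll.succ (ClAll.succ ClAll.zero s932) s933)

def n519 : Cl (O (nat_lit 3)) (R (nat_lit 143633))
    (p (nat_lit 0x109) (nat_lit 0) (p (nat_lit 0x101) (nat_lit 0) (p (nat_lit 0x119) (nat_lit 0) (p (nat_lit 0xc1) (nat_lit 0) (p (nat_lit 0x81) (nat_lit 1) (p (nat_lit 0x41) (nat_lit 1) (p (nat_lit 0x8a898a08881a) (nat_lit 0) (p (nat_lit 0xa090988079a) (nat_lit 0) (p (nat_lit 0x88088907871a) (nat_lit 0) (p (nat_lit 0x7880887069a) (nat_lit 0) (p (nat_lit 0x80000800088806860a) (nat_lit 0) (p (nat_lit 0x80000800068786058a) (nat_lit 0) (p (nat_lit 0x8687058502) (nat_lit 0) (p (nat_lit 0x606850482) (nat_lit 0) (p (nat_lit 0x160014) (nat_lit 0) (p (nat_lit 0x68612) (nat_lit 0) (p (nat_lit 0x50592) (nat_lit 0) (p (nat_lit 0x40512) (nat_lit 0) (p (nat_lit 0x50312) (nat_lit 0) (p (nat_lit 0x38292)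 (nat_lit 0) (p (nat_lit 0x28212) (nat_lit 0) (p (nat_lit 0x38112) (nat_lit 0) (p (nat_lit 0x20092) (nat_lit 0) (p (nat_lit 0x10012) (nat_lit 0) pn)))))))))))))))))))))))) :=
  Cl.node (nat_lit 0x111) (nat_lit 2) (by decide +kernel) (ClAll.succ (ClAll.succ ClAll.zero s934) n484)

def n520 : Cl (O (nat_lit 3)) (R (nat_lit 143633))
    (p (nat_lit 0x109) (nat_lit 1) (p (nat_lit 0x101) (nat_lit 0) (p (nat_lit 0x119) (nat_lit 0) (p (nat_lit 0xc1) (nat_lit 0) (p (nat_lit 0x81) (nat_lit 1) (p (nat_lit 0x41) (nat_lit 1) (p (nat_lit 0x8a898a08881a) (nat_lit 0) (p (nat_lit 0xa090988079a) (nat_lit 0) (p (nat_lit 0x88088907871a) (nat_lit 0) (p (nat_lit 0x7880887069a) (nat_lit 0) (p (nat_lit 0x80000800088806860a) (nat_lit 0) (p (nat_lit 0x80000800068786058a) (nat_lit 0) (p (nat_lit 0x8687058502) (nat_lit 0) (p (nat_lit 0x606850482) (nat_lit 0) (p (nat_lit 0x160014) (nat_lit 0) (p (nat_lit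 0x68612) (nat_lit 0) (p (nat_lit 0x50592) (nat_lit 0) (p (nat_lit 0x40512) (nat_lit 0) (p (nat_lit 0x50312) (nat_lit 0) (p (nat_lit 0x38292) (nat_lit 0) (p (nat_lit 0x28212) (nat_lit 0) (p (nat_lit 0x38112) (nat_lit 0) (p (nat_lit 0x20092) (nat_lit 0) (p (nat_lit 0x10012) (nat_lit 0) pn)))))))))))))))))))))))) :=
  Cl.node (nat_lit 0xc9) (nat_lit 2) (by decide +kernel) (ClAll.succ (ClAll.succ ClAll.zero n485) s1008)

def n521 : Cl (O (nat_lit 3)) (R (nat_lit 143633))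
    (p (nat_lit 0xc9) (nat_lit 0) (p (nat_lit 0x101) (nat_lit 1) (p (nat_lit 0x119) (nat_lit 0) (p (nat_lit 0xc1) (nat_lit 0) (p (nat_lit 0x81) (nat_lit 1) (p (nat_lit 0x41) (nat_lit 1) (p (nat_lit 0x8a898a08881a) (nat_lit 0) (p (nat_lit 0xa090988079a) (nat_lit 0) (p (nat_lit 0x88088907871a) (nat_lit 0) (p (nat_lit 0x7880887069a) (nat_lit 0) (p (nat_lit 0x80000800088806860a) (nat_lit 0) (p (nat_lit 0x80000800068786058a) (nat_lit 0) (p (nat_lit 0x8687058502) (nat_lit 0) (p (nat_lit 0x606850482) (nat_lit 0) (p (nat_lit 0x160014) (nat_lit 0) (p (nat_lit 0x68612) (nat_lit 0) (p (nat_lit 0x50592) (nat_lit 0) (p (nat_lit 0x40512) (nat_lit 0) (p (nat_lit 0x50312) (nat_lit 0) (p (nat_lit 0x38292) (nat_lit 0) (p (nat_lit 0x28212) (nat_lit 0) (p (nat_lit 0x38112) (nat_lit 0) (p (nat_lit 0x20092) (nat_lit 0) (p (nat_lit 0x10012) (nat_lit 0) pn)))))))))))))))))))))))) :=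
  Cl.node (nat_lit 0xd1) (nat_lit 2) (by decide +kernel) (ClAll.succ (ClAll.succ ClAll.zero n486) n487)

def n522 : Cl (O (nat_lit 3)) (R (nat_lit 143633))
    (p (nat_lit 0xd1) (nat_lit 1) (p (nat_lit 0xc9) (nat_lit 0) (p (nat_lit 0x119) (nat_lit 1) (p (nat_lit 0xc1) (nat_lit 0) (p (nat_lit 0x81) (nat_lit 1) (p (nat_lit 0x41) (nat_lit 1) (p (nat_lit 0x8a898a08881a) (nat_lit 0) (p (nat_lit 0xa090988079a) (nat_lit 0) (p (nat_lit 0x88088907871a) (nat_lit 0) (p (nat_lit 0x7880887069a) (nat_lit 0) (p (nat_lit 0x80000800088806860a) (nat_lit 0) (p (nat_lit 0x80000800068786058a) (nat_lit 0) (p (nat_lit 0x8687058502) (nat_lit 0) (p (nat_lit 0x606850482) (nat_lit 0) (p (nat_lit 0x160014) (nat_lit 0) (p (nat_lit 0x68612) (nat_lit 0) (p (nat_lit 0x50592) (nat_lit 0) (p (nat_lit 0x40512) (nat_lit 0) (p (nat_lit 0x50312) (nat_lit 0) (p (nat_lit 0x38292) (nat_lit 0) (p (nat_lit 0x28212)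 (nat_lit 0) (p (nat_lit 0x38112) (nat_lit 0) (p (nat_lit 0x20092) (nat_lit 0) (p (nat_lit 0x10012) (nat_lit 0) pn)))))))))))))))))))))))) :=
  Cl.node (nat_lit 0x111) (nat_lit 2) (by decide +kernel) (ClAll.succ (ClAll.succ ClAll.zero s1069) n488)

def n523 : Cl (O (nat_lit 3)) (R (nat_lit 143633))
    (p (nat_lit 0x109) (nat_lit 0) (p (nat_lit 0xc9) (nat_lit 1) (p (nat_lit 0x119) (nat_lit 1) (p (nat_lit 0xc1) (nat_lit 0) (p (nat_lit 0x81) (nat_lit 1) (p (nat_lit 0x41) (nat_lit 1) (p (nat_lit 0x8a898a08881a) (nat_lit 0) (p (nat_lit 0xa090988079a) (nat_lit 0) (p (nat_lit 0x88088907871a) (nat_lit 0) (p (nat_lit 0x7880887069a) (nat_lit 0) (p (nat_lit 0x80000800088806860a) (nat_lit 0) (p (nat_lit 0x80000800068786058a) (nat_lit 0) (p (nat_lit 0x8687058502) (nat_lit 0) (p (nat_lit 0x606850482) (nat_lit 0) (p (nat_lit 0x160014) (nat_lit 0) (p (nat_lit 0x68612) (nat_lit 0) (p (nat_lit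 0x50592) (nat_lit 0) (p (nat_lit 0x40512) (nat_lit 0) (p (nat_lit 0x50312) (nat_lit 0) (p (nat_lit 0x38292) (nat_lit 0) (p (nat_lit 0x28212) (nat_lit 0) (p (nat_lit 0x38112) (nat_lit 0) (p (nat_lit 0x20092) (nat_lit 0) (p (nat_lit 0x10012) (nat_lit 0) pn)))))))))))))))))))))))) :=
  Cl.node (nat_lit 0x111) (nat_lit 2) (by decide +kernel) (ClAll.succ (ClAll.succ ClAll.zero n489) n490)

def n524 : Cl (O (nat_lit 3)) (R (nat_lit 143633))
    (p (nat_lit 0x109) (nat_lit 1) (p (nat_lit 0xc9) (nat_lit 1) (p (nat_lit 0x119) (nat_lit 1) (p (nat_lit 0xc1) (nat_lit 0) (p (nat_lit 0x81) (nat_lit 1) (p (nat_lit 0x41) (nat_lit 1) (p (nat_lit 0x8a898a08881a) (nat_lit 0) (p (nat_lit 0xa090988079a) (nat_lit 0) (p (nat_lit 0x88088907871a) (nat_lit 0) (p (nat_lit 0x7880887069a) (nat_lit 0) (p (nat_lit 0x80000800088806860a) (nat_lit 0) (p (nat_lit 0x80000800068786058a) (nat_lit 0) (p (nat_lit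 0x8687058502) (nat_lit 0) (p (nat_lit 0x606850482) (nat_lit 0) (p (nat_lit 0x160014) (nat_lit 0) (p (nat_lit 0x68612) (nat_lit 0) (p (nat_lit 0x50592) (nat_lit 0) (p (nat_lit 0x40512) (nat_lit 0) (p (nat_lit 0x50312) (nat_lit 0) (p (nat_lit 0x38292) (nat_lit 0) (p (nat_lit 0x28212) (nat_lit 0) (p (nat_lit 0x38112) (nat_lit 0) (p (nat_lit 0x20092) (nat_lit 0) (p (nat_lit 0x10012) (nat_lit 0) pn)))))))))))))))))))))))) :=
  Cl.node (nat_lit 0x3c4aa) (nat_lit 12) (by decide +kernel) (ClAll.succ (ClAll.succ (ClAll.succ (ClAll.succ (ClAll.succ (ClAll.succ (ClAll.succ (ClAll.succ (ClAll.succ (ClAll.succ (ClAll.succ (ClAll.succ ClAll.zero s1144) s1145) s1146) s1147) s1148) s1149) s1150) s1151) s1152) s1153) s1154) s1155)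

def n525 : Cl (O (nat_lit 3)) (R (nat_lit 143633))
    (p (nat_lit 0x111) (nat_lit 0) (p (nat_lit 0x109) (nat_lit 0) (p (nat_lit 0x101) (nat_lit 0) (p (nat_lit 0xc1) (nat_lit 1) (p (nat_lit 0x81) (nat_lit 1) (p (nat_lit 0x41) (nat_lit 1) (p (nat_lit 0x8a898a08881a) (nat_lit 0) (p (nat_lit 0xa090988079a) (nat_lit 0) (p (nat_lit 0x88088907871a) (nat_lit 0) (p (nat_lit 0x7880887069a) (nat_lit 0) (p (nat_lit 0x80000800088806860a) (nat_lit 0) (p (nat_lit 0x80000800068786058a) (nat_lit 0) (p (nat_lit 0x8687058502) (nat_lit 0) (p (nat_lit 0x606850482) (nat_lit 0) (p (nat_lit 0x160014) (nat_lit 0) (p (nat_lit 0x68612) (nat_lit 0) (p (nat_lit 0x50592) (nat_lit 0) (p (nat_lit 0x40512) (nat_lit 0) (p (nat_lit 0x50312) (nat_lit 0) (p (nat_lit 0x38292) (nat_lit 0) (p (nat_lit 0x28212) (nat_lit 0) (p (nat_lit 0x38112) (nat_lit 0) (p (nat_lit 0x20092) (nat_lit 0) (p (nat_lit 0x10012) (nat_lit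 0) pn)))))))))))))))))))))))) :=
  Cl.node (nat_lit 0x119) (nat_lit 2) (by decide +kernel) (ClAll.succ (ClAll.succ ClAll.zero s1156) n491)

def n526 : Cl (O (nat_lit 3)) (R (nat_lit 143633))
    (p (nat_lit 0x111) (nat_lit 1) (p (nat_lit 0x109) (nat_lit 0) (p (nat_lit 0x101) (nat_lit 0) (p (nat_lit 0xc1) (nat_lit 1) (p (nat_lit 0x81) (nat_lit 1) (p (nat_lit 0x41) (nat_lit 1) (p (nat_lit 0x8a898a08881a) (nat_lit 0) (p (nat_lit 0xa090988079a) (nat_lit 0) (p (nat_lit 0x88088907871a) (nat_lit 0) (p (nat_lit 0x7880887069a) (nat_lit 0) (p (nat_lit 0x80000800088806860a) (nat_lit 0) (p (nat_lit 0x80000800068786058a) (nat_lit 0) (p (nat_lit 0x8687058502) (nat_lit 0) (p (nat_lit 0x606850482) (nat_lit 0) (p (nat_lit 0x160014) (nat_lit 0) (p (nat_lit 0x68612) (nat_lit 0) (p (nat_lit 0x50592) (nat_lit 0) (p (nat_lit 0x40512) (nat_lit 0) (p (nat_lit 0x50312) (nat_lit 0) (p (nat_lit 0x38292)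 (nat_lit 0) (p (nat_lit 0x28212) (nat_lit 0) (p (nat_lit 0x38112) (nat_lit 0) (p (nat_lit 0x20092) (nat_lit 0) (p (nat_lit 0x10012) (nat_lit 0) pn)))))))))))))))))))))))) :=
  Cl.node (nat_lit 0x3c4aa) (nat_lit 12) (by decide +kernel) (ClAll.succ (ClAll.succ (ClAll.succ (ClAll.succ (ClAll.succ (ClAll.succ (ClAll.succ (ClAll.succ (ClAll.succ (ClAll.succ (ClAll.succ (ClAll.succ ClAll.zero s1173) s1174) s1175) s1176) s1177) s1178) s1179) s1180) s1181) s1182) s1183) s1184)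

def n527 : Cl (O (nat_lit 3)) (R (nat_lit 143633))
    (p (nat_lit 0x101) (nat_lit 0) (p (nat_lit 0x119) (nat_lit 0) (p (nat_lit 0xd1) (nat_lit 0) (p (nat_lit 0x89) (nat_lit 0) (p (nat_lit 0x41) (nat_lit 0) (p (nat_lit 0x8a898a08881a) (nat_lit 0) (p (nat_lit 0xa090988079a) (nat_lit 0) (p (nat_lit 0x88088907871a) (nat_lit 0) (p (nat_lit 0x7880887069a) (nat_lit 0) (p (nat_lit 0x80000800088806860a) (nat_lit 0) (p (nat_lit 0x80000800068786058a) (nat_lit 0) (p (nat_lit 0x8687058502) (nat_lit 0) (p (nat_lit 0x606850482) (nat_lit 0) (p (nat_lit 0x160014) (nat_lit 0) (p (nat_lit 0x68612) (nat_lit 0) (p (nat_lit 0x50592) (nat_lit 0) (p (nat_lit 0x40512) (nat_lit 0) (p (nat_lit 0x50312) (nat_lit 0) (p (nat_lit 0x38292) (nat_lit 0) (p (nat_lit 0x28212) (nat_lit 0) (p (nat_lit 0x38112) (nat_lit 0) (p (nat_lit 0x20092) (nat_lit 0) (p (nat_lit 0x10012) (nat_lit 0) pn)))))))))))))))))))))))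 :=
  Cl.node (nat_lit 0x109) (nat_lit 2) (by decide +kernel) (ClAll.succ (ClAll.succ ClAll.zero s0) n492)

def n528 : Cl (O (nat_lit 3)) (R (nat_lit 143633))
    (p (nat_lit 0x101) (nat_lit 1) (p (nat_lit 0x119) (nat_lit 0) (p (nat_lit 0xd1) (nat_lit 0) (p (nat_lit 0x89) (nat_lit 0) (p (nat_lit 0x41) (nat_lit 0) (p (nat_lit 0x8a898a08881a) (nat_lit 0) (p (nat_lit 0xa090988079a) (nat_lit 0) (p (nat_lit 0x88088907871a) (nat_lit 0) (p (nat_lit 0x7880887069a) (nat_lit 0) (p (nat_lit 0x80000800088806860a) (nat_lit 0) (p (nat_lit 0x80000800068786058a) (nat_lit 0) (p (nat_lit 0x8687058502) (nat_lit 0) (p (nat_lit 0x606850482) (nat_lit 0) (p (nat_lit 0x160014) (nat_lit 0) (p (nat_lit 0x68612) (nat_lit 0) (p (nat_lit 0x50592) (nat_lit 0) (p (nat_lit 0x40512) (nat_lit 0) (p (nat_lit 0x50312) (nat_lit 0) (p (nat_lit 0x38292) (nat_lit 0) (p (nat_lit 0x28212) (nat_lit 0) (p (nat_lit 0x38112)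 (nat_lit 0) (p (nat_lit 0x20092) (nat_lit 0) (p (nat_lit 0x10012) (nat_lit 0) pn))))))))))))))))))))))) :=
  Cl.node (nat_lit 0x81) (nat_lit 2) (by decide +kernel) (ClAll.succ (ClAll.succ ClAll.zero n493) n494)

def n529 : Cl (O (nat_lit 3)) (R (nat_lit 143633))
    (p (nat_lit 0xc1) (nat_lit 0) (p (nat_lit 0x119) (nat_lit 1) (p (nat_lit 0xd1) (nat_lit 0) (p (nat_lit 0x89) (nat_lit 0) (p (nat_lit 0x41) (nat_lit 0) (p (nat_lit 0x8a898a08881a) (nat_lit 0) (p (nat_lit 0xa090988079a) (nat_lit 0) (p (nat_lit 0x88088907871a) (nat_lit 0) (p (nat_lit 0x7880887069a) (nat_lit 0) (p (nat_lit 0x80000800088806860a) (nat_lit 0) (p (nat_lit 0x80000800068786058a) (nat_lit 0) (p (nat_lit 0x8687058502) (nat_lit 0) (p (nat_lit 0x606850482) (nat_lit 0) (p (nat_lit 0x160014) (nat_lit 0) (p (nat_lit 0x68612) (nat_lit 0) (p (nat_lit 0x50592) (nat_lit 0) (p (nat_lit 0x40512) (nat_lit 0) (p (nat_lit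 0x50312) (nat_lit 0) (p (nat_lit 0x38292) (nat_lit 0) (p (nat_lit 0x28212) (nat_lit 0) (p (nat_lit 0x38112) (nat_lit 0) (p (nat_lit 0x20092) (nat_lit 0) (p (nat_lit 0x10012) (nat_lit 0) pn))))))))))))))))))))))) :=
  Cl.node (nat_lit 0xc9) (nat_lit 2) (by decide +kernel) (ClAll.succ (ClAll.succ ClAll.zero s105) n495)

def n530 : Cl (O (nat_lit 3)) (R (nat_lit 143633))
    (p (nat_lit 0xc1) (nat_lit 1) (p (nat_lit 0x119) (nat_lit 1) (p (nat_lit 0xd1) (nat_lit 0) (p (nat_lit 0x89) (nat_lit 0) (p (nat_lit 0x41) (nat_lit 0) (p (nat_lit 0x8a898a08881a) (nat_lit 0) (p (nat_lit 0xa090988079a) (nat_lit 0) (p (nat_lit 0x88088907871a) (nat_lit 0) (p (nat_lit 0x7880887069a) (nat_lit 0) (p (nat_lit 0x80000800088806860a) (nat_lit 0) (p (nat_lit 0x80000800068786058a) (nat_lit 0) (p (nat_lit 0x8687058502) (nat_lit 0) (p (nat_lit 0x606850482) (nat_lit 0) (p (nat_lit 0x160014) (nat_lit 0)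 (p (nat_lit 0x68612) (nat_lit 0) (p (nat_lit 0x50592) (nat_lit 0) (p (nat_lit 0x40512) (nat_lit 0) (p (nat_lit 0x50312) (nat_lit 0) (p (nat_lit 0x38292) (nat_lit 0) (p (nat_lit 0x28212) (nat_lit 0) (p (nat_lit 0x38112) (nat_lit 0) (p (nat_lit 0x20092) (nat_lit 0) (p (nat_lit 0x10012) (nat_lit 0) pn))))))))))))))))))))))) :=
  Cl.node (nat_lit 0x81) (nat_lit 2) (by decide +kernel) (ClAll.succ (ClAll.succ ClAll.zero n496) n497)

def n531 : Cl (O (nat_lit 3)) (R (nat_lit 143633))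
    (p (nat_lit 0x101) (nat_lit 0) (p (nat_lit 0x111) (nat_lit 0) (p (nat_lit 0xd1) (nat_lit 1) (p (nat_lit 0x89) (nat_lit 0) (p (nat_lit 0x41) (nat_lit 0) (p (nat_lit 0x8a898a08881a) (nat_lit 0) (p (nat_lit 0xa090988079a) (nat_lit 0) (p (nat_lit 0x88088907871a) (nat_lit 0) (p (nat_lit 0x7880887069a) (nat_lit 0) (p (nat_lit 0x80000800088806860a) (nat_lit 0) (p (nat_lit 0x80000800068786058a) (nat_lit 0) (p (nat_lit 0x8687058502) (nat_lit 0) (p (nat_lit 0x606850482) (nat_lit 0) (p (nat_lit 0x160014) (nat_lit 0) (p (nat_lit 0x68612) (nat_lit 0) (p (nat_lit 0x50592) (nat_lit 0) (p (nat_lit 0x40512) (nat_lit 0) (p (nat_lit 0x50312) (nat_lit 0) (p (nat_lit 0x38292) (nat_lit 0) (p (nat_lit 0x28212) (nat_lit 0) (p (nat_lit 0x38112) (nat_lit 0) (p (nat_lit 0x20092) (nat_lit 0) (p (nat_lit 0x10012) (nat_lit 0) pn))))))))))))))))))))))) :=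
  Cl.node (nat_lit 0x109) (nat_lit 2) (by decide +kernel) (ClAll.succ (ClAll.succ ClAll.zero s243) n498)

def n532 : Cl (O (nat_lit 3)) (R (nat_lit 143633))
    (p (nat_lit 0x101) (nat_lit 1) (p (nat_lit 0x111) (nat_lit 0) (p (nat_lit 0xd1) (nat_lit 1) (p (nat_lit 0x89) (nat_lit 0) (p (nat_lit 0x41) (nat_lit 0) (p (nat_lit 0x8a898a08881a) (nat_lit 0) (p (nat_lit 0xa090988079a) (nat_lit 0) (p (nat_lit 0x88088907871a) (nat_lit 0) (p (nat_lit 0x7880887069a) (nat_lit 0) (p (nat_lit 0x80000800088806860a) (nat_lit 0) (p (nat_lit 0x80000800068786058a) (nat_lit 0) (p (nat_lit 0x8687058502) (nat_lit 0) (p (nat_lit 0x606850482) (nat_lit 0) (p (nat_lit 0x160014) (nat_lit 0) (p (nat_lit 0x68612) (nat_lit 0) (p (nat_lit 0x50592) (nat_lit 0) (p (nat_lit 0x40512) (nat_lit 0) (p (nat_lit 0x50312) (nat_lit 0) (p (nat_lit 0x38292) (nat_lit 0) (p (nat_lit 0x28212) (nat_lit 0) (p (nat_lit 0x38112)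 (nat_lit 0) (p (nat_lit 0x20092) (nat_lit 0) (p (nat_lit 0x10012) (nat_lit 0) pn))))))))))))))))))))))) :=
  Cl.node (nat_lit 0x81) (nat_lit 2) (by decide +kernel) (ClAll.succ (ClAll.succ ClAll.zero n499) n500)

def n533 : Cl (O (nat_lit 3)) (R (nat_lit 143633))
    (p (nat_lit 0x81) (nat_lit 1) (p (nat_lit 0x111) (nat_lit 1) (p (nat_lit 0xd1) (nat_lit 1) (p (nat_lit 0x89) (nat_lit 0) (p (nat_lit 0x41) (nat_lit 0) (p (nat_lit 0x8a898a08881a) (nat_lit 0) (p (nat_lit 0xa090988079a) (nat_lit 0) (p (nat_lit 0x88088907871a) (nat_lit 0) (p (nat_lit 0x7880887069a) (nat_lit 0) (p (nat_lit 0x80000800088806860a) (nat_lit 0) (p (nat_lit 0x80000800068786058a) (nat_lit 0) (p (nat_lit 0x8687058502) (nat_lit 0) (p (nat_lit 0x606850482) (nat_lit 0) (p (nat_lit 0x160014) (nat_lit 0) (p (nat_lit 0x68612) (nat_lit 0) (p (nat_lit 0x50592) (nat_lit 0) (p (nat_lit 0x40512) (nat_lit 0) (p (nat_lit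 0x50312) (nat_lit 0) (p (nat_lit 0x38292) (nat_lit 0) (p (nat_lit 0x28212) (nat_lit 0) (p (nat_lit 0x38112) (nat_lit 0) (p (nat_lit 0x20092) (nat_lit 0) (p (nat_lit 0x10012) (nat_lit 0) pn))))))))))))))))))))))) :=
  Cl.node (nat_lit 0xc1) (nat_lit 2) (by decide +kernel) (ClAll.succ (ClAll.succ ClAll.zero s311) n501)

def n534 : Cl (O (nat_lit 3)) (R (nat_lit 143633))
    (p (nat_lit 0x101) (nat_lit 0) (p (nat_lit 0x119) (nat_lit 0) (p (nat_lit 0xc9) (nat_lit 0) (p (nat_lit 0x89) (nat_lit 1) (p (nat_lit 0x41) (nat_lit 0) (p (nat_lit 0x8a898a08881a) (nat_lit 0) (p (nat_lit 0xa090988079a) (nat_lit 0) (p (nat_lit 0x88088907871a) (nat_lit 0) (p (nat_lit 0x7880887069a) (nat_lit 0) (p (nat_lit 0x80000800088806860a) (nat_lit 0) (p (nat_lit 0x80000800068786058a) (nat_lit 0) (p (nat_lit 0x8687058502) (nat_lit 0) (p (nat_lit 0x606850482) (nat_lit 0) (p (nat_lit 0x160014) (nat_lit 0)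 (p (nat_lit 0x68612) (nat_lit 0) (p (nat_lit 0x50592) (nat_lit 0) (p (nat_lit 0x40512) (nat_lit 0) (p (nat_lit 0x50312) (nat_lit 0) (p (nat_lit 0x38292) (nat_lit 0) (p (nat_lit 0x28212) (nat_lit 0) (p (nat_lit 0x38112) (nat_lit 0) (p (nat_lit 0x20092) (nat_lit 0) (p (nat_lit 0x10012) (nat_lit 0) pn))))))))))))))))))))))) :=
  Cl.node (nat_lit 0x109) (nat_lit 2) (by decide +kernel) (ClAll.succ (ClAll.succ ClAll.zero n502) n503)

def n535 : Cl (O (nat_lit 3)) (R (nat_lit 143633))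
    (p (nat_lit 0x101) (nat_lit 1) (p (nat_lit 0x119) (nat_lit 0) (p (nat_lit 0xc9) (nat_lit 0) (p (nat_lit 0x89) (nat_lit 1) (p (nat_lit 0x41) (nat_lit 0) (p (nat_lit 0x8a898a08881a) (nat_lit 0) (p (nat_lit 0xa090988079a) (nat_lit 0) (p (nat_lit 0x88088907871a) (nat_lit 0) (p (nat_lit 0x7880887069a) (nat_lit 0) (p (nat_lit 0x80000800088806860a) (nat_lit 0) (p (nat_lit 0x80000800068786058a) (nat_lit 0) (p (nat_lit 0x8687058502) (nat_lit 0) (p (nat_lit 0x606850482) (nat_lit 0) (p (nat_lit 0x160014) (nat_lit 0) (p (nat_lit 0x68612) (nat_lit 0) (p (nat_lit 0x50592) (nat_lit 0) (p (nat_lit 0x40512) (nat_lit 0) (p (nat_lit 0x50312) (nat_lit 0) (p (nat_lit 0x38292) (nat_lit 0) (p (nat_lit 0x28212) (nat_lit 0) (p (nat_lit 0x38112) (nat_lit 0) (p (nat_lit 0x20092) (nat_lit 0) (p (nat_lit 0x10012) (nat_lit 0) pn))))))))))))))))))))))) :=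
  Cl.node (nat_lit 0xc1) (nat_lit 2) (by decide +kernel) (ClAll.succ (ClAll.succ ClAll.zero n504) s484)

def n536 : Cl (O (nat_lit 3)) (R (nat_lit 143633))
    (p (nat_lit 0xc1) (nat_lit 0) (p (nat_lit 0x119) (nat_lit 1) (p (nat_lit 0xc9) (nat_lit 0) (p (nat_lit 0x89) (nat_lit 1) (p (nat_lit 0x41) (nat_lit 0) (p (nat_lit 0x8a898a08881a) (nat_lit 0) (p (nat_lit 0xa090988079a) (nat_lit 0) (p (nat_lit 0x88088907871a) (nat_lit 0) (p (nat_lit 0x7880887069a) (nat_lit 0) (p (nat_lit 0x80000800088806860a) (nat_lit 0) (p (nat_lit 0x80000800068786058a) (nat_lit 0) (p (nat_lit 0x8687058502) (nat_lit 0) (p (nat_lit 0x606850482) (nat_lit 0) (p (nat_lit 0x160014) (nat_lit 0) (p (nat_lit 0x68612) (nat_lit 0) (p (nat_lit 0x50592) (nat_lit 0) (p (nat_lit 0x40512) (nat_lit 0) (p (nat_lit 0x50312) (nat_lit 0) (p (nat_lit 0x38292) (nat_lit 0) (p (nat_lit 0x28212) (nat_lit 0) (p (nat_lit 0x38112)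 (nat_lit 0) (p (nat_lit 0x20092) (nat_lit 0) (p (nat_lit 0x10012) (nat_lit 0) pn))))))))))))))))))))))) :=
  Cl.node (nat_lit 0xd1) (nat_lit 2) (by decide +kernel) (ClAll.succ (ClAll.succ ClAll.zero s485) n505)

def n537 : Cl (O (nat_lit 3)) (R (nat_lit 143633))
    (p (nat_lit 0xc1) (nat_lit 1) (p (nat_lit 0x119) (nat_lit 1) (p (nat_lit 0xc9) (nat_lit 0) (p (nat_lit 0x89) (nat_lit 1) (p (nat_lit 0x41) (nat_lit 0) (p (nat_lit 0x8a898a08881a) (nat_lit 0) (p (nat_lit 0xa090988079a) (nat_lit 0) (p (nat_lit 0x88088907871a) (nat_lit 0) (p (nat_lit 0x7880887069a) (nat_lit 0) (p (nat_lit 0x80000800088806860a) (nat_lit 0) (p (nat_lit 0x80000800068786058a) (nat_lit 0) (p (nat_lit 0x8687058502) (nat_lit 0) (p (nat_lit 0x606850482) (nat_lit 0) (p (nat_lit 0x160014) (nat_lit 0) (p (nat_lit 0x68612) (nat_lit 0) (p (nat_lit 0x50592) (nat_lit 0) (p (nat_lit 0x40512) (nat_lit 0) (p (nat_lit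 0x50312) (nat_lit 0) (p (nat_lit 0x38292) (nat_lit 0) (p (nat_lit 0x28212) (nat_lit 0) (p (nat_lit 0x38112) (nat_lit 0) (p (nat_lit 0x20092) (nat_lit 0) (p (nat_lit 0x10012) (nat_lit 0) pn))))))))))))))))))))))) :=
  Cl.node (nat_lit 0x101) (nat_lit 2) (by decide +kernel) (ClAll.succ (ClAll.succ ClAll.zero n506) s565)

def n538 : Cl (O (nat_lit 3)) (R (nat_lit 143633))
    (p (nat_lit 0x101) (nat_lit 0) (p (nat_lit 0x109) (nat_lit 0) (p (nat_lit 0xc9) (nat_lit 1) (p (nat_lit 0x89) (nat_lit 1) (p (nat_lit 0x41) (nat_lit 0) (p (nat_lit 0x8a898a08881a) (nat_lit 0) (p (nat_lit 0xa090988079a) (nat_lit 0) (p (nat_lit 0x88088907871a) (nat_lit 0) (p (nat_lit 0x7880887069a) (nat_lit 0) (p (nat_lit 0x80000800088806860a) (nat_lit 0) (p (nat_lit 0x80000800068786058a) (nat_lit 0) (p (nat_lit 0x8687058502) (nat_lit 0) (p (nat_lit 0x606850482) (nat_lit 0) (p (nat_lit 0x160014) (nat_lit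 0) (p (nat_lit 0x68612) (nat_lit 0) (p (nat_lit 0x50592) (nat_lit 0) (p (nat_lit 0x40512) (nat_lit 0) (p (nat_lit 0x50312) (nat_lit 0) (p (nat_lit 0x38292) (nat_lit 0) (p (nat_lit 0x28212) (nat_lit 0) (p (nat_lit 0x38112) (nat_lit 0) (p (nat_lit 0x20092) (nat_lit 0) (p (nat_lit 0x10012) (nat_lit 0) pn))))))))))))))))))))))) :=
  Cl.node (nat_lit 0x111) (nat_lit 2) (by decide +kernel) (ClAll.succ (ClAll.succ ClAll.zero n507) n508)

def n539 : Cl (O (nat_lit 3)) (R (nat_lit 143633))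
    (p (nat_lit 0x101) (nat_lit 0) (p (nat_lit 0x119) (nat_lit 0) (p (nat_lit 0xd1) (nat_lit 0) (p (nat_lit 0x81) (nat_lit 0) (p (nat_lit 0x41) (nat_lit 1) (p (nat_lit 0x8a898a08881a) (nat_lit 0) (p (nat_lit 0xa090988079a) (nat_lit 0) (p (nat_lit 0x88088907871a) (nat_lit 0) (p (nat_lit 0x7880887069a) (nat_lit 0) (p (nat_lit 0x80000800088806860a) (nat_lit 0) (p (nat_lit 0x80000800068786058a) (nat_lit 0) (p (nat_lit 0x8687058502) (nat_lit 0) (p (nat_lit 0x606850482) (nat_lit 0) (p (nat_lit 0x160014) (nat_lit 0) (p (nat_lit 0x68612) (nat_lit 0) (p (nat_lit 0x50592) (nat_lit 0) (p (nat_lit 0x40512) (nat_lit 0) (p (nat_lit 0x50312) (nat_lit 0) (p (nat_lit 0x38292) (nat_lit 0) (p (nat_lit 0x28212) (nat_lit 0) (p (nat_lit 0x38112) (nat_lit 0) (p (nat_lit 0x20092) (nat_lit 0) (p (nat_lit 0x10012) (nat_lit 0) pn))))))))))))))))))))))) :=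
  Cl.node (nat_lit 0x109) (nat_lit 2) (by decide +kernel) (ClAll.succ (ClAll.succ ClAll.zero s593) n509)

def n540 : Cl (O (nat_lit 3)) (R (nat_lit 143633))
    (p (nat_lit 0x101) (nat_lit 1) (p (nat_lit 0x119) (nat_lit 0) (p (nat_lit 0xd1) (nat_lit 0) (p (nat_lit 0x81) (nat_lit 0) (p (nat_lit 0x41) (nat_lit 1) (p (nat_lit 0x8a898a08881a) (nat_lit 0) (p (nat_lit 0xa090988079a) (nat_lit 0) (p (nat_lit 0x88088907871a) (nat_lit 0) (p (nat_lit 0x7880887069a) (nat_lit 0) (p (nat_lit 0x80000800088806860a) (nat_lit 0) (p (nat_lit 0x80000800068786058a) (nat_lit 0) (p (nat_lit 0x8687058502) (nat_lit 0) (p (nat_lit 0x606850482) (nat_lit 0) (p (nat_lit 0x160014) (nat_lit 0) (p (nat_lit 0x68612) (nat_lit 0) (p (nat_lit 0x50592) (nat_lit 0) (p (nat_lit 0x40512) (nat_lit 0) (p (nat_lit 0x50312) (nat_lit 0) (p (nat_lit 0x38292) (nat_lit 0) (p (nat_lit 0x28212) (nat_lit 0) (p (nat_lit 0x38112)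 (nat_lit 0) (p (nat_lit 0x20092) (nat_lit 0) (p (nat_lit 0x10012) (nat_lit 0) pn))))))))))))))))))))))) :=
  Cl.node (nat_lit 0xc1) (nat_lit 2) (by decide +kernel) (ClAll.succ (ClAll.succ ClAll.zero n510) n511)

def n541 : Cl (O (nat_lit 3)) (R (nat_lit 143633))
    (p (nat_lit 0xc1) (nat_lit 0) (p (nat_lit 0x119) (nat_lit 1) (p (nat_lit 0xd1) (nat_lit 0) (p (nat_lit 0x81) (nat_lit 0) (p (nat_lit 0x41) (nat_lit 1) (p (nat_lit 0x8a898a08881a) (nat_lit 0) (p (nat_lit 0xa090988079a) (nat_lit 0) (p (nat_lit 0x88088907871a) (nat_lit 0) (p (nat_lit 0x7880887069a) (nat_lit 0) (p (nat_lit 0x80000800088806860a) (nat_lit 0) (p (nat_lit 0x80000800068786058a) (nat_lit 0) (p (nat_lit 0x8687058502) (nat_lit 0) (p (nat_lit 0x606850482) (nat_lit 0) (p (nat_lit 0x160014) (nat_lit 0) (p (nat_lit 0x68612) (nat_lit 0) (p (nat_lit 0x50592) (nat_lit 0) (p (nat_lit 0x40512) (nat_lit 0) (p (nat_lit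 0x50312) (nat_lit 0) (p (nat_lit 0x38292) (nat_lit 0) (p (nat_lit 0x28212) (nat_lit 0) (p (nat_lit 0x38112) (nat_lit 0) (p (nat_lit 0x20092) (nat_lit 0) (p (nat_lit 0x10012) (nat_lit 0) pn))))))))))))))))))))))) :=
  Cl.node (nat_lit 0xc9) (nat_lit 2) (by decide +kernel) (ClAll.succ (ClAll.succ ClAll.zero s700) n512)

def n542 : Cl (O (nat_lit 3)) (R (nat_lit 143633))
    (p (nat_lit 0xc1) (nat_lit 1) (p (nat_lit 0x119) (nat_lit 1) (p (nat_lit 0xd1) (nat_lit 0) (p (nat_lit 0x81) (nat_lit 0) (p (nat_lit 0x41) (nat_lit 1) (p (nat_lit 0x8a898a08881a) (nat_lit 0) (p (nat_lit 0xa090988079a) (nat_lit 0) (p (nat_lit 0x88088907871a) (nat_lit 0) (p (nat_lit 0x7880887069a) (nat_lit 0) (p (nat_lit 0x80000800088806860a) (nat_lit 0) (p (nat_lit 0x80000800068786058a) (nat_lit 0) (p (nat_lit 0x8687058502) (nat_lit 0) (p (nat_lit 0x606850482) (nat_lit 0) (p (nat_lit 0x160014) (nat_lit 0)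 (p (nat_lit 0x68612) (nat_lit 0) (p (nat_lit 0x50592) (nat_lit 0) (p (nat_lit 0x40512) (nat_lit 0) (p (nat_lit 0x50312) (nat_lit 0) (p (nat_lit 0x38292) (nat_lit 0) (p (nat_lit 0x28212) (nat_lit 0) (p (nat_lit 0x38112) (nat_lit 0) (p (nat_lit 0x20092) (nat_lit 0) (p (nat_lit 0x10012) (nat_lit 0) pn))))))))))))))))))))))) :=
  Cl.node (nat_lit 0x101) (nat_lit 2) (by decide +kernel) (ClAll.succ (ClAll.succ ClAll.zero n513) n514)

def n543 : Cl (O (nat_lit 3)) (R (nat_lit 143633))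
    (p (nat_lit 0x101) (nat_lit 0) (p (nat_lit 0x111) (nat_lit 0) (p (nat_lit 0xd1) (nat_lit 1) (p (nat_lit 0x81) (nat_lit 0) (p (nat_lit 0x41) (nat_lit 1) (p (nat_lit 0x8a898a08881a) (nat_lit 0) (p (nat_lit 0xa090988079a) (nat_lit 0) (p (nat_lit 0x88088907871a) (nat_lit 0) (p (nat_lit 0x7880887069a) (nat_lit 0) (p (nat_lit 0x80000800088806860a) (nat_lit 0) (p (nat_lit 0x80000800068786058a) (nat_lit 0) (p (nat_lit 0x8687058502) (nat_lit 0) (p (nat_lit 0x606850482) (nat_lit 0) (p (nat_lit 0x160014) (nat_lit 0) (p (nat_lit 0x68612) (nat_lit 0) (p (nat_lit 0x50592) (nat_lit 0) (p (nat_lit 0x40512) (nat_lit 0) (p (nat_lit 0x50312) (nat_lit 0) (p (nat_lit 0x38292) (nat_lit 0) (p (nat_lit 0x28212) (nat_lit 0) (p (nat_lit 0x38112) (nat_lit 0) (p (nat_lit 0x20092) (nat_lit 0) (p (nat_lit 0x10012) (nat_lit 0) pn))))))))))))))))))))))) :=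
  Cl.node (nat_lit 0x109) (nat_lit 2) (by decide +kernel) (ClAll.succ (ClAll.succ ClAll.zero s866) n515)

def n544 : Cl (O (nat_lit 3)) (R (nat_lit 143633))
    (p (nat_lit 0x101) (nat_lit 1) (p (nat_lit 0x111) (nat_lit 0) (p (nat_lit 0xd1) (nat_lit 1) (p (nat_lit 0x81) (nat_lit 0) (p (nat_lit 0x41) (nat_lit 1) (p (nat_lit 0x8a898a08881a) (nat_lit 0) (p (nat_lit 0xa090988079a) (nat_lit 0) (p (nat_lit 0x88088907871a) (nat_lit 0) (p (nat_lit 0x7880887069a) (nat_lit 0) (p (nat_lit 0x80000800088806860a) (nat_lit 0) (p (nat_lit 0x80000800068786058a) (nat_lit 0) (p (nat_lit 0x8687058502) (nat_lit 0) (p (nat_lit 0x606850482) (nat_lit 0) (p (nat_lit 0x160014) (nat_lit 0) (p (nat_lit 0x68612) (nat_lit 0) (p (nat_lit 0x50592) (nat_lit 0) (p (nat_lit 0x40512) (nat_lit 0) (p (nat_lit 0x50312) (nat_lit 0) (p (nat_lit 0x38292) (nat_lit 0) (p (nat_lit 0x28212) (nat_lit 0) (p (nat_lit 0x38112)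 (nat_lit 0) (p (nat_lit 0x20092) (nat_lit 0) (p (nat_lit 0x10012) (nat_lit 0) pn))))))))))))))))))))))) :=
  Cl.node (nat_lit 0x89) (nat_lit 2) (by decide +kernel) (ClAll.succ (ClAll.succ ClAll.zero n516) n517)

def n545 : Cl (O (nat_lit 3)) (R (nat_lit 143633))
    (p (nat_lit 0x89) (nat_lit 1) (p (nat_lit 0x111) (nat_lit 1) (p (nat_lit 0xd1) (nat_lit 1) (p (nat_lit 0x81) (nat_lit 0) (p (nat_lit 0x41) (nat_lit 1) (p (nat_lit 0x8a898a08881a) (nat_lit 0) (p (nat_lit 0xa090988079a) (nat_lit 0) (p (nat_lit 0x88088907871a) (nat_lit 0) (p (nat_lit 0x7880887069a) (nat_lit 0) (p (nat_lit 0x80000800088806860a) (nat_lit 0) (p (nat_lit 0x80000800068786058a) (nat_lit 0) (p (nat_lit 0x8687058502) (nat_lit 0) (p (nat_lit 0x606850482) (nat_lit 0) (p (nat_lit 0x160014) (nat_lit 0) (p (nat_lit 0x68612) (nat_lit 0) (p (nat_lit 0x50592) (nat_lit 0) (p (nat_lit 0x40512) (nat_lit 0) (p (nat_lit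 0x50312) (nat_lit 0) (p (nat_lit 0x38292) (nat_lit 0) (p (nat_lit 0x28212) (nat_lit 0) (p (nat_lit 0x38112) (nat_lit 0) (p (nat_lit 0x20092) (nat_lit 0) (p (nat_lit 0x10012) (nat_lit 0) pn))))))))))))))))))))))) :=
  Cl.node (nat_lit 0xc9) (nat_lit 2) (by decide +kernel) (ClAll.succ (ClAll.succ ClAll.zero s931) n518)

def n546 : Cl (O (nat_lit 3)) (R (nat_lit 143633))
    (p (nat_lit 0x101) (nat_lit 0) (p (nat_lit 0x119) (nat_lit 0) (p (nat_lit 0xc1) (nat_lit 0) (p (nat_lit 0x81) (nat_lit 1) (p (nat_lit 0x41) (nat_lit 1) (p (nat_lit 0x8a898a08881a) (nat_lit 0) (p (nat_lit 0xa090988079a) (nat_lit 0) (p (nat_lit 0x88088907871a) (nat_lit 0) (p (nat_lit 0x7880887069a) (nat_lit 0) (p (nat_lit 0x80000800088806860a) (nat_lit 0) (p (nat_lit 0x80000800068786058a) (nat_lit 0) (p (nat_lit 0x8687058502) (nat_lit 0) (p (nat_lit 0x606850482) (nat_lit 0) (p (nat_lit 0x160014) (nat_lit 0)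 (p (nat_lit 0x68612) (nat_lit 0) (p (nat_lit 0x50592) (nat_lit 0) (p (nat_lit 0x40512) (nat_lit 0) (p (nat_lit 0x50312) (nat_lit 0) (p (nat_lit 0x38292) (nat_lit 0) (p (nat_lit 0x28212) (nat_lit 0) (p (nat_lit 0x38112) (nat_lit 0) (p (nat_lit 0x20092) (nat_lit 0) (p (nat_lit 0x10012) (nat_lit 0) pn))))))))))))))))))))))) :=
  Cl.node (nat_lit 0x109) (nat_lit 2) (by decide +kernel) (ClAll.succ (ClAll.succ ClAll.zero n519) n520)

def n547 : Cl (O (nat_lit 3)) (R (nat_lit 143633))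
    (p (nat_lit 0x101) (nat_lit 1) (p (nat_lit 0x119) (nat_lit 0) (p (nat_lit 0xc1) (nat_lit 0) (p (nat_lit 0x81) (nat_lit 1) (p (nat_lit 0x41) (nat_lit 1) (p (nat_lit 0x8a898a08881a) (nat_lit 0) (p (nat_lit 0xa090988079a) (nat_lit 0) (p (nat_lit 0x88088907871a) (nat_lit 0) (p (nat_lit 0x7880887069a) (nat_lit 0) (p (nat_lit 0x80000800088806860a) (nat_lit 0) (p (nat_lit 0x80000800068786058a) (nat_lit 0) (p (nat_lit 0x8687058502) (nat_lit 0) (p (nat_lit 0x606850482) (nat_lit 0) (p (nat_lit 0x160014) (nat_lit 0) (p (nat_lit 0x68612) (nat_lit 0) (p (nat_lit 0x50592) (nat_lit 0) (p (nat_lit 0x40512) (nat_lit 0) (p (nat_lit 0x50312) (nat_lit 0) (p (nat_lit 0x38292) (nat_lit 0) (p (nat_lit 0x28212) (nat_lit 0) (p (nat_lit 0x38112) (nat_lit 0) (p (nat_lit 0x20092) (nat_lit 0) (p (nat_lit 0x10012) (nat_lit 0) pn))))))))))))))))))))))) :=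
  Cl.node (nat_lit 0xc9) (nat_lit 2) (by decide +kernel) (ClAll.succ (ClAll.succ ClAll.zero n521) s1067)

def n548 : Cl (O (nat_lit 3)) (R (nat_lit 143633))
    (p (nat_lit 0xc9) (nat_lit 0) (p (nat_lit 0x119) (nat_lit 1) (p (nat_lit 0xc1) (nat_lit 0) (p (nat_lit 0x81) (nat_lit 1) (p (nat_lit 0x41) (nat_lit 1) (p (nat_lit 0x8a898a08881a) (nat_lit 0) (p (nat_lit 0xa090988079a) (nat_lit 0) (p (nat_lit 0x88088907871a) (nat_lit 0) (p (nat_lit 0x7880887069a) (nat_lit 0) (p (nat_lit 0x80000800088806860a) (nat_lit 0) (p (nat_lit 0x80000800068786058a) (nat_lit 0) (p (nat_lit 0x8687058502) (nat_lit 0) (p (nat_lit 0x606850482) (nat_lit 0) (p (nat_lit 0x160014) (nat_lit 0) (p (nat_lit 0x68612) (nat_lit 0) (p (nat_lit 0x50592) (nat_lit 0) (p (nat_lit 0x40512) (nat_lit 0) (p (nat_lit 0x50312) (nat_lit 0) (p (nat_lit 0x38292) (nat_lit 0) (p (nat_lit 0x28212) (nat_lit 0) (p (nat_lit 0x38112)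 (nat_lit 0) (p (nat_lit 0x20092) (nat_lit 0) (p (nat_lit 0x10012) (nat_lit 0) pn))))))))))))))))))))))) :=
  Cl.node (nat_lit 0xd1) (nat_lit 2) (by decide +kernel) (ClAll.succ (ClAll.succ ClAll.zero s1068) n522)

def n549 : Cl (O (nat_lit 3)) (R (nat_lit 143633))
    (p (nat_lit 0xc9) (nat_lit 1) (p (nat_lit 0x119) (nat_lit 1) (p (nat_lit 0xc1) (nat_lit 0) (p (nat_lit 0x81) (nat_lit 1) (p (nat_lit 0x41) (nat_lit 1) (p (nat_lit 0x8a898a08881a) (nat_lit 0) (p (nat_lit 0xa090988079a) (nat_lit 0) (p (nat_lit 0x88088907871a) (nat_lit 0) (p (nat_lit 0x7880887069a) (nat_lit 0) (p (nat_lit 0x80000800088806860a) (nat_lit 0) (p (nat_lit 0x80000800068786058a) (nat_lit 0) (p (nat_lit 0x8687058502) (nat_lit 0) (p (nat_lit 0x606850482) (nat_lit 0) (p (nat_lit 0x160014) (nat_lit 0) (p (nat_lit 0x68612) (nat_lit 0) (p (nat_lit 0x50592) (nat_lit 0) (p (nat_lit 0x40512) (nat_lit 0) (p (nat_lit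 0x50312) (nat_lit 0) (p (nat_lit 0x38292) (nat_lit 0) (p (nat_lit 0x28212) (nat_lit 0) (p (nat_lit 0x38112) (nat_lit 0) (p (nat_lit 0x20092) (nat_lit 0) (p (nat_lit 0x10012) (nat_lit 0) pn))))))))))))))))))))))) :=
  Cl.node (nat_lit 0x109) (nat_lit 2) (by decide +kernel) (ClAll.succ (ClAll.succ ClAll.zero n523) n524)

def n550 : Cl (O (nat_lit 3)) (R (nat_lit 143633))
    (p (nat_lit 0x109) (nat_lit 0) (p (nat_lit 0x101) (nat_lit 0) (p (nat_lit 0xc1) (nat_lit 1) (p (nat_lit 0x81) (nat_lit 1) (p (nat_lit 0x41) (nat_lit 1) (p (nat_lit 0x8a898a08881a) (nat_lit 0) (p (nat_lit 0xa090988079a) (nat_lit 0) (p (nat_lit 0x88088907871a) (nat_lit 0) (p (nat_lit 0x7880887069a) (nat_lit 0) (p (nat_lit 0x80000800088806860a) (nat_lit 0) (p (nat_lit 0x80000800068786058a) (nat_lit 0) (p (nat_lit 0x8687058502) (nat_lit 0) (p (nat_lit 0x606850482) (nat_lit 0) (p (nat_lit 0x160014) (nat_lit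 0) (p (nat_lit 0x68612) (nat_lit 0) (p (nat_lit 0x50592) (nat_lit 0) (p (nat_lit 0x40512) (nat_lit 0) (p (nat_lit 0x50312) (nat_lit 0) (p (nat_lit 0x38292) (nat_lit 0) (p (nat_lit 0x28212) (nat_lit 0) (p (nat_lit 0x38112) (nat_lit 0) (p (nat_lit 0x20092) (nat_lit 0) (p (nat_lit 0x10012) (nat_lit 0) pn))))))))))))))))))))))) :=
  Cl.node (nat_lit 0x111) (nat_lit 2) (by decide +kernel) (ClAll.succ (ClAll.succ ClAll.zero n525) n526)

def n551 : Cl (O (nat_lit 3)) (R (nat_lit 143633))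
    (p (nat_lit 0x119) (nat_lit 0) (p (nat_lit 0xd1) (nat_lit 0) (p (nat_lit 0x89) (nat_lit 0) (p (nat_lit 0x41) (nat_lit 0) (p (nat_lit 0x8a898a08881a) (nat_lit 0) (p (nat_lit 0xa090988079a) (nat_lit 0) (p (nat_lit 0x88088907871a) (nat_lit 0) (p (nat_lit 0x7880887069a) (nat_lit 0) (p (nat_lit 0x80000800088806860a) (nat_lit 0) (p (nat_lit 0x80000800068786058a) (nat_lit 0) (p (nat_lit 0x8687058502) (nat_lit 0) (p (nat_lit 0x606850482) (nat_lit 0) (p (nat_lit 0x160014) (nat_lit 0) (p (nat_lit 0x68612) (nat_lit 0) (p (nat_lit 0x50592) (nat_lit 0) (p (nat_lit 0x40512) (nat_lit 0) (p (nat_lit 0x50312) (nat_lit 0) (p (nat_lit 0x38292) (nat_lit 0) (p (nat_lit 0x28212) (nat_lit 0) (p (nat_lit 0x38112) (nat_lit 0) (p (nat_lit 0x20092) (nat_lit 0) (p (nat_lit 0x10012) (nat_lit 0) pn)))))))))))))))))))))) :=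
  Cl.node (nat_lit 0x101) (nat_lit 2) (by decide +kernel) (ClAll.succ (ClAll.succ ClAll.zero n527) n528)

def n552 : Cl (O (nat_lit 3)) (R (nat_lit 143633))
    (p (nat_lit 0x119) (nat_lit 1) (p (nat_lit 0xd1) (nat_lit 0) (p (nat_lit 0x89) (nat_lit 0) (p (nat_lit 0x41) (nat_lit 0) (p (nat_lit 0x8a898a08881a) (nat_lit 0) (p (nat_lit 0xa090988079a) (nat_lit 0) (p (nat_lit 0x88088907871a) (nat_lit 0) (p (nat_lit 0x7880887069a) (nat_lit 0) (p (nat_lit 0x80000800088806860a) (nat_lit 0) (p (nat_lit 0x80000800068786058a) (nat_lit 0) (p (nat_lit 0x8687058502) (nat_lit 0) (p (nat_lit 0x606850482) (nat_lit 0) (p (nat_lit 0x160014) (nat_lit 0) (p (nat_lit 0x68612) (nat_lit 0) (p (nat_lit 0x50592) (nat_lit 0) (p (nat_lit 0x40512) (nat_lit 0) (p (nat_lit 0x50312) (nat_lit 0) (p (nat_lit 0x38292) (nat_lit 0) (p (nat_lit 0x28212) (nat_lit 0) (p (nat_lit 0x38112) (nat_lit 0) (p (nat_lit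 0x20092) (nat_lit 0) (p (nat_lit 0x10012) (nat_lit 0) pn)))))))))))))))))))))) :=
  Cl.node (nat_lit 0xc1) (nat_lit 2) (by decide +kernel) (ClAll.succ (ClAll.succ ClAll.zero n529) n530)

def n553 : Cl (O (nat_lit 3)) (R (nat_lit 143633))
    (p (nat_lit 0x111) (nat_lit 0) (p (nat_lit 0xd1) (nat_lit 1) (p (nat_lit 0x89) (nat_lit 0) (p (nat_lit 0x41) (nat_lit 0) (p (nat_lit 0x8a898a08881a) (nat_lit 0) (p (nat_lit 0xa090988079a) (nat_lit 0) (p (nat_lit 0x88088907871a) (nat_lit 0) (p (nat_lit 0x7880887069a) (nat_lit 0) (p (nat_lit 0x80000800088806860a) (nat_lit 0) (p (nat_lit 0x80000800068786058a) (nat_lit 0) (p (nat_lit 0x8687058502) (nat_lit 0) (p (nat_lit 0x606850482) (nat_lit 0) (p (nat_lit 0x160014) (nat_lit 0) (p (nat_lit 0x68612) (nat_lit 0) (p (nat_lit 0x50592) (nat_lit 0) (p (nat_lit 0x40512) (nat_lit 0) (p (nat_lit 0x50312) (nat_lit 0) (p (nat_lit 0x38292) (nat_lit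 0) (p (nat_lit 0x28212) (nat_lit 0) (p (nat_lit 0x38112) (nat_lit 0) (p (nat_lit 0x20092) (nat_lit 0) (p (nat_lit 0x10012) (nat_lit 0) pn)))))))))))))))))))))) :=
  Cl.node (nat_lit 0x101) (nat_lit 2) (by decide +kernel) (ClAll.succ (ClAll.succ ClAll.zero n531) n532)

def n554 : Cl (O (nat_lit 3)) (R (nat_lit 143633))
    (p (nat_lit 0x111) (nat_lit 1) (p (nat_lit 0xd1) (nat_lit 1) (p (nat_lit 0x89) (nat_lit 0) (p (nat_lit 0x41) (nat_lit 0) (p (nat_lit 0x8a898a08881a) (nat_lit 0) (p (nat_lit 0xa090988079a) (nat_lit 0) (p (nat_lit 0x88088907871a) (nat_lit 0) (p (nat_lit 0x7880887069a) (nat_lit 0) (p (nat_lit 0x80000800088806860a) (nat_lit 0) (p (nat_lit 0x80000800068786058a) (nat_lit 0) (p (nat_lit 0x8687058502) (nat_lit 0) (p (nat_lit 0x606850482) (nat_lit 0) (p (nat_lit 0x160014) (nat_lit 0) (p (nat_lit 0x68612) (nat_lit 0) (p (nat_lit 0x50592) (nat_lit 0) (p (nat_lit 0x40512)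 (nat_lit 0) (p (nat_lit 0x50312) (nat_lit 0) (p (nat_lit 0x38292) (nat_lit 0) (p (nat_lit 0x28212) (nat_lit 0) (p (nat_lit 0x38112) (nat_lit 0) (p (nat_lit 0x20092) (nat_lit 0) (p (nat_lit 0x10012) (nat_lit 0) pn)))))))))))))))))))))) :=
  Cl.node (nat_lit 0x81) (nat_lit 2) (by decide +kernel) (ClAll.succ (ClAll.succ ClAll.zero s310) n533)

def n555 : Cl (O (nat_lit 3)) (R (nat_lit 143633))
    (p (nat_lit 0x119) (nat_lit 0) (p (nat_lit 0xc9) (nat_lit 0) (p (nat_lit 0x89) (nat_lit 1) (p (nat_lit 0x41) (nat_lit 0) (p (nat_lit 0x8a898a08881a) (nat_lit 0) (p (nat_lit 0xa090988079a) (nat_lit 0) (p (nat_lit 0x88088907871a) (nat_lit 0) (p (nat_lit 0x7880887069a) (nat_lit 0) (p (nat_lit 0x80000800088806860a) (nat_lit 0) (p (nat_lit 0x80000800068786058a) (nat_lit 0) (p (nat_lit 0x8687058502) (nat_lit 0) (p (nat_lit 0x606850482) (nat_lit 0) (p (nat_lit 0x160014) (nat_lit 0) (p (nat_lit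 0x68612) (nat_lit 0) (p (nat_lit 0x50592) (nat_lit 0) (p (nat_lit 0x40512) (nat_lit 0) (p (nat_lit 0x50312) (nat_lit 0) (p (nat_lit 0x38292) (nat_lit 0) (p (nat_lit 0x28212) (nat_lit 0) (p (nat_lit 0x38112) (nat_lit 0) (p (nat_lit 0x20092) (nat_lit 0) (p (nat_lit 0x10012) (nat_lit 0) pn)))))))))))))))))))))) :=
  Cl.node (nat_lit 0x101) (nat_lit 2) (by decide +kernel) (ClAll.succ (ClAll.succ ClAll.zero n534) n535)

def n556 : Cl (O (nat_lit 3)) (R (nat_lit 143633))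
    (p (nat_lit 0x119) (nat_lit 1) (p (nat_lit 0xc9) (nat_lit 0) (p (nat_lit 0x89) (nat_lit 1) (p (nat_lit 0x41) (nat_lit 0) (p (nat_lit 0x8a898a08881a) (nat_lit 0) (p (nat_lit 0xa090988079a) (nat_lit 0) (p (nat_lit 0x88088907871a) (nat_lit 0) (p (nat_lit 0x7880887069a) (nat_lit 0) (p (nat_lit 0x80000800088806860a) (nat_lit 0) (p (nat_lit 0x80000800068786058a) (nat_lit 0) (p (nat_lit 0x8687058502) (nat_lit 0) (p (nat_lit 0x606850482) (nat_lit 0) (p (nat_lit 0x160014) (nat_lit 0) (p (nat_lit 0x68612) (nat_lit 0) (p (nat_lit 0x50592) (nat_lit 0) (p (nat_lit 0x40512) (nat_lit 0) (p (nat_lit 0x50312) (nat_lit 0) (p (nat_lit 0x38292) (nat_lit 0) (p (nat_lit 0x28212) (nat_lit 0) (p (nat_lit 0x38112) (nat_lit 0) (p (nat_lit 0x20092) (nat_lit 0) (p (nat_lit 0x10012) (nat_lit 0) pn)))))))))))))))))))))) :=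
  Cl.node (nat_lit 0xc1) (nat_lit 2) (by decide +kernel) (ClAll.succ (ClAll.succ ClAll.zero n536) n537)

def n557 : Cl (O (nat_lit 3)) (R (nat_lit 143633))
    (p (nat_lit 0x109) (nat_lit 0) (p (nat_lit 0xc9) (nat_lit 1) (p (nat_lit 0x89) (nat_lit 1) (p (nat_lit 0x41) (nat_lit 0) (p (nat_lit 0x8a898a08881a) (nat_lit 0) (p (nat_lit 0xa090988079a) (nat_lit 0) (p (nat_lit 0x88088907871a) (nat_lit 0) (p (nat_lit 0x7880887069a) (nat_lit 0) (p (nat_lit 0x80000800088806860a) (nat_lit 0) (p (nat_lit 0x80000800068786058a) (nat_lit 0) (p (nat_lit 0x8687058502) (nat_lit 0) (p (nat_lit 0x606850482) (nat_lit 0) (p (nat_lit 0x160014) (nat_lit 0) (p (nat_lit 0x68612) (nat_lit 0) (p (nat_lit 0x50592) (nat_lit 0) (p (nat_lit 0x40512) (nat_lit 0) (p (nat_lit 0x50312) (nat_lit 0) (p (nat_lit 0x38292) (nat_lit 0) (p (nat_lit 0x28212) (nat_lit 0) (p (nat_lit 0x38112) (nat_lit 0) (p (nat_lit 0x20092)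 (nat_lit 0) (p (nat_lit 0x10012) (nat_lit 0) pn)))))))))))))))))))))) :=
  Cl.node (nat_lit 0x101) (nat_lit 2) (by decide +kernel) (ClAll.succ (ClAll.succ ClAll.zero n538) s591)

def n558 : Cl (O (nat_lit 3)) (R (nat_lit 143633))
    (p (nat_lit 0x119) (nat_lit 0) (p (nat_lit 0xd1) (nat_lit 0) (p (nat_lit 0x81) (nat_lit 0) (p (nat_lit 0x41) (nat_lit 1) (p (nat_lit 0x8a898a08881a) (nat_lit 0) (p (nat_lit 0xa090988079a) (nat_lit 0) (p (nat_lit 0x88088907871a) (nat_lit 0) (p (nat_lit 0x7880887069a) (nat_lit 0) (p (nat_lit 0x80000800088806860a) (nat_lit 0) (p (nat_lit 0x80000800068786058a) (nat_lit 0) (p (nat_lit 0x8687058502) (nat_lit 0) (p (nat_lit 0x606850482) (nat_lit 0) (p (nat_lit 0x160014) (nat_lit 0) (p (nat_lit 0x68612) (nat_lit 0) (p (nat_lit 0x50592) (nat_lit 0) (p (nat_lit 0x40512) (nat_lit 0) (p (nat_lit 0x50312) (nat_lit 0) (p (nat_lit 0x38292) (nat_lit 0) (p (nat_lit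 0x28212) (nat_lit 0) (p (nat_lit 0x38112) (nat_lit 0) (p (nat_lit 0x20092) (nat_lit 0) (p (nat_lit 0x10012) (nat_lit 0) pn)))))))))))))))))))))) :=
  Cl.node (nat_lit 0x101) (nat_lit 2) (by decide +kernel) (ClAll.succ (ClAll.succ ClAll.zero n539) n540)

def n559 : Cl (O (nat_lit 3)) (R (nat_lit 143633))
    (p (nat_lit 0x119) (nat_lit 1) (p (nat_lit 0xd1) (nat_lit 0) (p (nat_lit 0x81) (nat_lit 0) (p (nat_lit 0x41) (nat_lit 1) (p (nat_lit 0x8a898a08881a) (nat_lit 0) (p (nat_lit 0xa090988079a) (nat_lit 0) (p (nat_lit 0x88088907871a) (nat_lit 0) (p (nat_lit 0x7880887069a) (nat_lit 0) (p (nat_lit 0x80000800088806860a) (nat_lit 0) (p (nat_lit 0x80000800068786058a) (nat_lit 0) (p (nat_lit 0x8687058502) (nat_lit 0) (p (nat_lit 0x606850482) (nat_lit 0) (p (nat_lit 0x160014) (nat_lit 0) (p (nat_lit 0x68612) (nat_lit 0) (p (nat_lit 0x50592) (nat_lit 0) (p (nat_lit 0x40512) (nat_lit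 0) (p (nat_lit 0x50312) (nat_lit 0) (p (nat_lit 0x38292) (nat_lit 0) (p (nat_lit 0x28212) (nat_lit 0) (p (nat_lit 0x38112) (nat_lit 0) (p (nat_lit 0x20092) (nat_lit 0) (p (nat_lit 0x10012) (nat_lit 0) pn)))))))))))))))))))))) :=
  Cl.node (nat_lit 0xc1) (nat_lit 2) (by decide +kernel) (ClAll.succ (ClAll.succ ClAll.zero n541) n542)

def n560 : Cl (O (nat_lit 3)) (R (nat_lit 143633))
    (p (nat_lit 0x111) (nat_lit 0) (p (nat_lit 0xd1) (nat_lit 1) (p (nat_lit 0x81) (nat_lit 0) (p (nat_lit 0x41) (nat_lit 1) (p (nat_lit 0x8a898a08881a) (nat_lit 0) (p (nat_lit 0xa090988079a) (nat_lit 0) (p (nat_lit 0x88088907871a) (nat_lit 0) (p (nat_lit 0x7880887069a) (nat_lit 0) (p (nat_lit 0x80000800088806860a) (nat_lit 0) (p (nat_lit 0x80000800068786058a) (nat_lit 0) (p (nat_lit 0x8687058502) (nat_lit 0) (p (nat_lit 0x606850482) (nat_lit 0) (p (nat_lit 0x160014) (nat_lit 0) (p (nat_lit 0x68612)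 (nat_lit 0) (p (nat_lit 0x50592) (nat_lit 0) (p (nat_lit 0x40512) (nat_lit 0) (p (nat_lit 0x50312) (nat_lit 0) (p (nat_lit 0x38292) (nat_lit 0) (p (nat_lit 0x28212) (nat_lit 0) (p (nat_lit 0x38112) (nat_lit 0) (p (nat_lit 0x20092) (nat_lit 0) (p (nat_lit 0x10012) (nat_lit 0) pn)))))))))))))))))))))) :=
  Cl.node (nat_lit 0x101) (nat_lit 2) (by decide +kernel) (ClAll.succ (ClAll.succ ClAll.zero n543) n544)

def n561 : Cl (O (nat_lit 3)) (R (nat_lit 143633))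
    (p (nat_lit 0x111) (nat_lit 1) (p (nat_lit 0xd1) (nat_lit 1) (p (nat_lit 0x81) (nat_lit 0) (p (nat_lit 0x41) (nat_lit 1) (p (nat_lit 0x8a898a08881a) (nat_lit 0) (p (nat_lit 0xa090988079a) (nat_lit 0) (p (nat_lit 0x88088907871a) (nat_lit 0) (p (nat_lit 0x7880887069a) (nat_lit 0) (p (nat_lit 0x80000800088806860a) (nat_lit 0) (p (nat_lit 0x80000800068786058a) (nat_lit 0) (p (nat_lit 0x8687058502) (nat_lit 0) (p (nat_lit 0x606850482) (nat_lit 0) (p (nat_lit 0x160014) (nat_lit 0) (p (nat_lit 0x68612) (nat_lit 0) (p (nat_lit 0x50592) (nat_lit 0) (p (nat_lit 0x40512) (nat_lit 0) (p (nat_lit 0x50312) (nat_lit 0) (p (nat_lit 0x38292) (nat_lit 0) (p (nat_lit 0x28212) (nat_lit 0) (p (nat_lit 0x38112) (nat_lit 0) (p (nat_lit 0x20092) (nat_lit 0) (p (nat_lit 0x10012) (nat_lit 0) pn)))))))))))))))))))))) :=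
  Cl.node (nat_lit 0x89) (nat_lit 2) (by decide +kernel) (ClAll.succ (ClAll.succ ClAll.zero s930) n545)

def n562 : Cl (O (nat_lit 3)) (R (nat_lit 143633))
    (p (nat_lit 0x119) (nat_lit 0) (p (nat_lit 0xc1) (nat_lit 0) (p (nat_lit 0x81) (nat_lit 1) (p (nat_lit 0x41) (nat_lit 1) (p (nat_lit 0x8a898a08881a) (nat_lit 0) (p (nat_lit 0xa090988079a) (nat_lit 0) (p (nat_lit 0x88088907871a) (nat_lit 0) (p (nat_lit 0x7880887069a) (nat_lit 0) (p (nat_lit 0x80000800088806860a) (nat_lit 0) (p (nat_lit 0x80000800068786058a) (nat_lit 0) (p (nat_lit 0x8687058502) (nat_lit 0) (p (nat_lit 0x606850482) (nat_lit 0) (p (nat_lit 0x160014) (nat_lit 0) (p (nat_lit 0x68612) (nat_lit 0) (p (nat_lit 0x50592) (nat_lit 0) (p (nat_lit 0x40512) (nat_lit 0) (p (nat_lit 0x50312) (nat_lit 0) (p (nat_lit 0x38292) (nat_lit 0) (p (nat_lit 0x28212) (nat_lit 0) (p (nat_lit 0x38112) (nat_lit 0) (p (nat_lit 0x20092)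 (nat_lit 0) (p (nat_lit 0x10012) (nat_lit 0) pn)))))))))))))))))))))) :=
  Cl.node (nat_lit 0x101) (nat_lit 2) (by decide +kernel) (ClAll.succ (ClAll.succ ClAll.zero n546) n547)

def n563 : Cl (O (nat_lit 3)) (R (nat_lit 143633))
    (p (nat_lit 0x119) (nat_lit 1) (p (nat_lit 0xc1) (nat_lit 0) (p (nat_lit 0x81) (nat_lit 1) (p (nat_lit 0x41) (nat_lit 1) (p (nat_lit 0x8a898a08881a) (nat_lit 0) (p (nat_lit 0xa090988079a) (nat_lit 0) (p (nat_lit 0x88088907871a) (nat_lit 0) (p (nat_lit 0x7880887069a) (nat_lit 0) (p (nat_lit 0x80000800088806860a) (nat_lit 0) (p (nat_lit 0x80000800068786058a) (nat_lit 0) (p (nat_lit 0x8687058502) (nat_lit 0) (p (nat_lit 0x606850482) (nat_lit 0) (p (nat_lit 0x160014) (nat_lit 0) (p (nat_lit 0x68612) (nat_lit 0) (p (nat_lit 0x50592) (nat_lit 0) (p (nat_lit 0x40512) (nat_lit 0) (p (nat_lit 0x50312) (nat_lit 0) (p (nat_lit 0x38292) (nat_lit 0) (p (nat_lit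 0x28212) (nat_lit 0) (p (nat_lit 0x38112) (nat_lit 0) (p (nat_lit 0x20092) (nat_lit 0) (p (nat_lit 0x10012) (nat_lit 0) pn)))))))))))))))))))))) :=
  Cl.node (nat_lit 0xc9) (nat_lit 2) (by decide +kernel) (ClAll.succ (ClAll.succ ClAll.zero n548) n549)

def n564 : Cl (O (nat_lit 3)) (R (nat_lit 143633))
    (p (nat_lit 0x101) (nat_lit 0) (p (nat_lit 0xc1) (nat_lit 1) (p (nat_lit 0x81) (nat_lit 1) (p (nat_lit 0x41) (nat_lit 1) (p (nat_lit 0x8a898a08881a) (nat_lit 0) (p (nat_lit 0xa090988079a) (nat_lit 0) (p (nat_lit 0x88088907871a) (nat_lit 0) (p (nat_lit 0x7880887069a) (nat_lit 0) (p (nat_lit 0x80000800088806860a) (nat_lit 0) (p (nat_lit 0x80000800068786058a) (nat_lit 0) (p (nat_lit 0x8687058502) (nat_lit 0) (p (nat_lit 0x606850482) (nat_lit 0) (p (nat_lit 0x160014) (nat_lit 0) (p (nat_lit 0x68612) (nat_lit 0) (p (nat_lit 0x50592) (nat_lit 0) (p (nat_lit 0x40512) (nat_lit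 0) (p (nat_lit 0x50312) (nat_lit 0) (p (nat_lit 0x38292) (nat_lit 0) (p (nat_lit 0x28212) (nat_lit 0) (p (nat_lit 0x38112) (nat_lit 0) (p (nat_lit 0x20092) (nat_lit 0) (p (nat_lit 0x10012) (nat_lit 0) pn)))))))))))))))))))))) :=
  Cl.node (nat_lit 0x109) (nat_lit 2) (by decide +kernel) (ClAll.succ (ClAll.succ ClAll.zero n550) s1185)

def n565 : Cl (O (nat_lit 3)) (R (nat_lit 143633))
    (p (nat_lit 0xd1) (nat_lit 0) (p (nat_lit 0x89) (nat_lit 0) (p (nat_lit 0x41) (nat_lit 0) (p (nat_lit 0x8a898a08881a) (nat_lit 0) (p (nat_lit 0xa090988079a) (nat_lit 0) (p (nat_lit 0x88088907871a) (nat_lit 0) (p (nat_lit 0x7880887069a) (nat_lit 0) (p (nat_lit 0x80000800088806860a) (nat_lit 0) (p (nat_lit 0x80000800068786058a) (nat_lit 0) (p (nat_lit 0x8687058502) (nat_lit 0) (p (nat_lit 0x606850482) (nat_lit 0) (p (nat_lit 0x160014) (nat_lit 0) (p (nat_lit 0x68612) (nat_lit 0) (p (nat_lit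 0x50592) (nat_lit 0) (p (nat_lit 0x40512) (nat_lit 0) (p (nat_lit 0x50312) (nat_lit 0) (p (nat_lit 0x38292) (nat_lit 0) (p (nat_lit 0x28212) (nat_lit 0) (p (nat_lit 0x38112) (nat_lit 0) (p (nat_lit 0x20092) (nat_lit 0) (p (nat_lit 0x10012) (nat_lit 0) pn))))))))))))))))))))) :=
  Cl.node (nat_lit 0x119) (nat_lit 2) (by decide +kernel) (ClAll.succ (ClAll.succ ClAll.zero n551) n552)

def n566 : Cl (O (nat_lit 3)) (R (nat_lit 143633))
    (p (nat_lit 0xd1) (nat_lit 1) (p (nat_lit 0x89) (nat_lit 0) (p (nat_lit 0x41) (nat_lit 0) (p (nat_lit 0x8a898a08881a) (nat_lit 0) (p (nat_lit 0xa090988079a) (nat_lit 0) (p (nat_lit 0x88088907871a) (nat_lit 0) (p (nat_lit 0x7880887069a) (nat_lit 0) (p (nat_lit 0x80000800088806860a) (nat_lit 0) (p (nat_lit 0x80000800068786058a) (nat_lit 0) (p (nat_lit 0x8687058502) (nat_lit 0) (p (nat_lit 0x606850482) (nat_lit 0) (p (nat_lit 0x160014) (nat_lit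 0) (p (nat_lit 0x68612) (nat_lit 0) (p (nat_lit 0x50592) (nat_lit 0) (p (nat_lit 0x40512) (nat_lit 0) (p (nat_lit 0x50312) (nat_lit 0) (p (nat_lit 0x38292) (nat_lit 0) (p (nat_lit 0x28212) (nat_lit 0) (p (nat_lit 0x38112) (nat_lit 0) (p (nat_lit 0x20092) (nat_lit 0) (p (nat_lit 0x10012) (nat_lit 0) pn))))))))))))))))))))) :=
  Cl.node (nat_lit 0x111) (nat_lit 2) (by decide +kernel) (ClAll.succ (ClAll.succ ClAll.zero n553) n554)

def n567 : Cl (O (nat_lit 3)) (R (nat_lit 143633))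
    (p (nat_lit 0xc9) (nat_lit 0) (p (nat_lit 0x89) (nat_lit 1) (p (nat_lit 0x41) (nat_lit 0) (p (nat_lit 0x8a898a08881a) (nat_lit 0) (p (nat_lit 0xa090988079a) (nat_lit 0) (p (nat_lit 0x88088907871a) (nat_lit 0) (p (nat_lit 0x7880887069a) (nat_lit 0) (p (nat_lit 0x80000800088806860a) (nat_lit 0) (p (nat_lit 0x80000800068786058a) (nat_lit 0) (p (nat_lit 0x8687058502) (nat_lit 0) (p (nat_lit 0x606850482) (nat_lit 0) (p (nat_lit 0x160014) (nat_lit 0) (p (nat_lit 0x68612) (nat_lit 0) (p (nat_lit 0x50592) (nat_lit 0) (p (nat_lit 0x40512) (nat_lit 0) (p (nat_lit 0x50312) (nat_lit 0) (p (nat_lit 0x38292) (nat_lit 0) (p (nat_lit 0x28212) (nat_lit 0) (p (nat_lit 0x38112) (nat_lit 0) (p (nat_lit 0x20092) (nat_lit 0) (p (nat_lit 0x10012) (nat_lit 0) pn))))))))))))))))))))) :=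
  Cl.node (nat_lit 0x119) (nat_lit 2) (by decide +kernel) (ClAll.succ (ClAll.succ ClAll.zero n555) n556)

def n568 : Cl (O (nat_lit 3)) (R (nat_lit 143633))
    (p (nat_lit 0xc9) (nat_lit 1) (p (nat_lit 0x89) (nat_lit 1) (p (nat_lit 0x41) (nat_lit 0) (p (nat_lit 0x8a898a08881a) (nat_lit 0) (p (nat_lit 0xa090988079a) (nat_lit 0) (p (nat_lit 0x88088907871a) (nat_lit 0) (p (nat_lit 0x7880887069a) (nat_lit 0) (p (nat_lit 0x80000800088806860a) (nat_lit 0) (p (nat_lit 0x80000800068786058a) (nat_lit 0) (p (nat_lit 0x8687058502) (nat_lit 0) (p (nat_lit 0x606850482) (nat_lit 0) (p (nat_lit 0x160014) (nat_lit 0) (p (nat_lit 0x68612) (nat_lit 0) (p (nat_lit 0x50592) (nat_lit 0) (p (nat_lit 0x40512) (nat_lit 0) (p (nat_lit 0x50312) (nat_lit 0) (p (nat_lit 0x38292) (nat_lit 0) (p (nat_lit 0x28212) (nat_lit 0) (p (nat_lit 0x38112) (nat_lit 0) (p (nat_lit 0x20092) (nat_lit 0) (p (nat_lit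 0x10012) (nat_lit 0) pn))))))))))))))))))))) :=
  Cl.node (nat_lit 0x109) (nat_lit 2) (by decide +kernel) (ClAll.succ (ClAll.succ ClAll.zero n557) s592)

def n569 : Cl (O (nat_lit 3)) (R (nat_lit 143633))
    (p (nat_lit 0xd1) (nat_lit 0) (p (nat_lit 0x81) (nat_lit 0) (p (nat_lit 0x41) (nat_lit 1) (p (nat_lit 0x8a898a08881a) (nat_lit 0) (p (nat_lit 0xa090988079a) (nat_lit 0) (p (nat_lit 0x88088907871a) (nat_lit 0) (p (nat_lit 0x7880887069a) (nat_lit 0) (p (nat_lit 0x80000800088806860a) (nat_lit 0) (p (nat_lit 0x80000800068786058a) (nat_lit 0) (p (nat_lit 0x8687058502) (nat_lit 0) (p (nat_lit 0x606850482) (nat_lit 0) (p (nat_lit 0x160014) (nat_lit 0) (p (nat_lit 0x68612) (nat_lit 0) (p (nat_lit 0x50592) (nat_lit 0) (p (nat_lit 0x40512) (nat_lit 0) (p (nat_lit 0x50312) (nat_lit 0) (p (nat_lit 0x38292) (nat_lit 0) (p (nat_lit 0x28212) (nat_lit 0) (p (nat_lit 0x38112) (nat_lit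 0) (p (nat_lit 0x20092) (nat_lit 0) (p (nat_lit 0x10012) (nat_lit 0) pn))))))))))))))))))))) :=
  Cl.node (nat_lit 0x119) (nat_lit 2) (by decide +kernel) (ClAll.succ (ClAll.succ ClAll.zero n558) n559)

def n570 : Cl (O (nat_lit 3)) (R (nat_lit 143633))
    (p (nat_lit 0xd1) (nat_lit 1) (p (nat_lit 0x81) (nat_lit 0) (p (nat_lit 0x41) (nat_lit 1) (p (nat_lit 0x8a898a08881a) (nat_lit 0) (p (nat_lit 0xa090988079a) (nat_lit 0) (p (nat_lit 0x88088907871a) (nat_lit 0) (p (nat_lit 0x7880887069a) (nat_lit 0) (p (nat_lit 0x80000800088806860a) (nat_lit 0) (p (nat_lit 0x80000800068786058a) (nat_lit 0) (p (nat_lit 0x8687058502) (nat_lit 0) (p (nat_lit 0x606850482) (nat_lit 0) (p (nat_lit 0x160014) (nat_lit 0) (p (nat_lit 0x68612) (nat_lit 0) (p (nat_lit 0x50592) (nat_lit 0) (p (nat_lit 0x40512) (nat_lit 0) (p (nat_lit 0x50312) (nat_lit 0) (p (nat_lit 0x38292) (nat_lit 0) (p (nat_lit 0x28212)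 (nat_lit 0) (p (nat_lit 0x38112) (nat_lit 0) (p (nat_lit 0x20092) (nat_lit 0) (p (nat_lit 0x10012) (nat_lit 0) pn))))))))))))))))))))) :=
  Cl.node (nat_lit 0x111) (nat_lit 2) (by decide +kernel) (ClAll.succ (ClAll.succ ClAll.zero n560) n561)

def n571 : Cl (O (nat_lit 3)) (R (nat_lit 143633))
    (p (nat_lit 0xc1) (nat_lit 0) (p (nat_lit 0x81) (nat_lit 1) (p (nat_lit 0x41) (nat_lit 1) (p (nat_lit 0x8a898a08881a) (nat_lit 0) (p (nat_lit 0xa090988079a) (nat_lit 0) (p (nat_lit 0x88088907871a) (nat_lit 0) (p (nat_lit 0x7880887069a) (nat_lit 0) (p (nat_lit 0x80000800088806860a) (nat_lit 0) (p (nat_lit 0x80000800068786058a) (nat_lit 0) (p (nat_lit 0x8687058502) (nat_lit 0) (p (nat_lit 0x606850482) (nat_lit 0) (p (nat_lit 0x160014) (nat_lit 0) (p (nat_lit 0x68612) (nat_lit 0) (p (nat_lit 0x50592) (nat_lit 0) (p (nat_lit 0x40512) (nat_lit 0) (p (nat_lit 0x50312) (nat_lit 0) (p (nat_lit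 0x38292) (nat_lit 0) (p (nat_lit 0x28212) (nat_lit 0) (p (nat_lit 0x38112) (nat_lit 0) (p (nat_lit 0x20092) (nat_lit 0) (p (nat_lit 0x10012) (nat_lit 0) pn))))))))))))))))))))) :=
  Cl.node (nat_lit 0x119) (nat_lit 2) (by decide +kernel) (ClAll.succ (ClAll.succ ClAll.zero n562) n563)

def n572 : Cl (O (nat_lit 3)) (R (nat_lit 143633))
    (p (nat_lit 0xc1) (nat_lit 1) (p (nat_lit 0x81) (nat_lit 1) (p (nat_lit 0x41) (nat_lit 1) (p (nat_lit 0x8a898a08881a) (nat_lit 0) (p (nat_lit 0xa090988079a) (nat_lit 0) (p (nat_lit 0x88088907871a) (nat_lit 0) (p (nat_lit 0x7880887069a) (nat_lit 0) (p (nat_lit 0x80000800088806860a) (nat_lit 0) (p (nat_lit 0x80000800068786058a) (nat_lit 0) (p (nat_lit 0x8687058502) (nat_lit 0) (p (nat_lit 0x606850482) (nat_lit 0) (p (nat_lit 0x160014) (nat_lit 0) (p (nat_lit 0x68612) (nat_lit 0) (p (nat_lit 0x50592) (nat_lit 0) (p (nat_lit 0x40512) (nat_lit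 0) (p (nat_lit 0x50312) (nat_lit 0) (p (nat_lit 0x38292) (nat_lit 0) (p (nat_lit 0x28212) (nat_lit 0) (p (nat_lit 0x38112) (nat_lit 0) (p (nat_lit 0x20092) (nat_lit 0) (p (nat_lit 0x10012) (nat_lit 0) pn))))))))))))))))))))) :=
  Cl.node (nat_lit 0x101) (nat_lit 2) (by decide +kernel) (ClAll.succ (ClAll.succ ClAll.zero n564) s1186)

def n573 : Cl (O (nat_lit 3)) (R (nat_lit 143633))
    (p (nat_lit 0x89) (nat_lit 0) (p (nat_lit 0x41) (nat_lit 0) (p (nat_lit 0x8a898a08881a) (nat_lit 0) (p (nat_lit 0xa090988079a) (nat_lit 0) (p (nat_lit 0x88088907871a) (nat_lit 0) (p (nat_lit 0x7880887069a) (nat_lit 0) (p (nat_lit 0x80000800088806860a) (nat_lit 0) (p (nat_lit 0x80000800068786058a) (nat_lit 0) (p (nat_lit 0x8687058502) (nat_lit 0) (p (nat_lit 0x606850482) (nat_lit 0) (p (nat_lit 0x160014) (nat_lit 0) (p (nat_lit 0x68612) (nat_lit 0) (p (nat_lit 0x50592) (nat_lit 0) (p (nat_lit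 0x40512) (nat_lit 0) (p (nat_lit 0x50312) (nat_lit 0) (p (nat_lit 0x38292) (nat_lit 0) (p (nat_lit 0x28212) (nat_lit 0) (p (nat_lit 0x38112) (nat_lit 0) (p (nat_lit 0x20092) (nat_lit 0) (p (nat_lit 0x10012) (nat_lit 0) pn)))))))))))))))))))) :=
  Cl.node (nat_lit 0xd1) (nat_lit 2) (by decide +kernel) (ClAll.succ (ClAll.succ ClAll.zero n565) n566)

def n574 : Cl (O (nat_lit 3)) (R (nat_lit 143633))
    (p (nat_lit 0x89) (nat_lit 1) (p (nat_lit 0x41) (nat_lit 0) (p (nat_lit 0x8a898a08881a) (nat_lit 0) (p (nat_lit 0xa090988079a) (nat_lit 0) (p (nat_lit 0x88088907871a) (nat_lit 0) (p (nat_lit 0x7880887069a) (nat_lit 0) (p (nat_lit 0x80000800088806860a) (nat_lit 0) (p (nat_lit 0x80000800068786058a) (nat_lit 0) (p (nat_lit 0x8687058502) (nat_lit 0) (p (nat_lit 0x606850482) (nat_lit 0) (p (nat_lit 0x160014) (nat_lit 0) (p (nat_lit 0x68612) (nat_lit 0) (p (nat_lit 0x50592) (nat_lit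 0) (p (nat_lit 0x40512) (nat_lit 0) (p (nat_lit 0x50312) (nat_lit 0) (p (nat_lit 0x38292) (nat_lit 0) (p (nat_lit 0x28212) (nat_lit 0) (p (nat_lit 0x38112) (nat_lit 0) (p (nat_lit 0x20092) (nat_lit 0) (p (nat_lit 0x10012) (nat_lit 0) pn)))))))))))))))))))) :=
  Cl.node (nat_lit 0xc9) (nat_lit 2) (by decide +kernel) (ClAll.succ (ClAll.succ ClAll.zero n567) n568)

def n575 : Cl (O (nat_lit 3)) (R (nat_lit 143633))
    (p (nat_lit 0x81) (nat_lit 0) (p (nat_lit 0x41) (nat_lit 1) (p (nat_lit 0x8a898a08881a) (nat_lit 0) (p (nat_lit 0xa090988079a) (nat_lit 0) (p (nat_lit 0x88088907871a) (nat_lit 0) (p (nat_lit 0x7880887069a) (nat_lit 0) (p (nat_lit 0x80000800088806860a) (nat_lit 0) (p (nat_lit 0x80000800068786058a) (nat_lit 0) (p (nat_lit 0x8687058502) (nat_lit 0) (p (nat_lit 0x606850482) (nat_lit 0) (p (nat_lit 0x160014) (nat_lit 0) (p (nat_lit 0x68612) (nat_lit 0) (p (nat_lit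 0x50592) (nat_lit 0) (p (nat_lit 0x40512) (nat_lit 0) (p (nat_lit 0x50312) (nat_lit 0) (p (nat_lit 0x38292) (nat_lit 0) (p (nat_lit 0x28212) (nat_lit 0) (p (nat_lit 0x38112) (nat_lit 0) (p (nat_lit 0x20092) (nat_lit 0) (p (nat_lit 0x10012) (nat_lit 0) pn)))))))))))))))))))) :=
  Cl.node (nat_lit 0xd1) (nat_lit 2) (by decide +kernel) (ClAll.succ (ClAll.succ ClAll.zero n569) n570)

def n576 : Cl (O (nat_lit 3)) (R (nat_lit 143633))
    (p (nat_lit 0x81) (nat_lit 1) (p (nat_lit 0x41) (nat_lit 1) (p (nat_lit 0x8a898a08881a) (nat_lit 0) (p (nat_lit 0xa090988079a) (nat_lit 0) (p (nat_lit 0x88088907871a) (nat_lit 0) (p (nat_lit 0x7880887069a) (nat_lit 0) (p (nat_lit 0x80000800088806860a) (nat_lit 0) (p (nat_lit 0x80000800068786058a) (nat_lit 0) (p (nat_lit 0x8687058502) (nat_lit 0) (p (nat_lit 0x606850482) (nat_lit 0) (p (nat_lit 0x160014) (nat_lit 0) (p (nat_lit 0x68612) (nat_lit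 0) (p (nat_lit 0x50592) (nat_lit 0) (p (nat_lit 0x40512) (nat_lit 0) (p (nat_lit 0x50312) (nat_lit 0) (p (nat_lit 0x38292) (nat_lit 0) (p (nat_lit 0x28212) (nat_lit 0) (p (nat_lit 0x38112) (nat_lit 0) (p (nat_lit 0x20092) (nat_lit 0) (p (nat_lit 0x10012) (nat_lit 0) pn)))))))))))))))))))) :=
  Cl.node (nat_lit 0xc1) (nat_lit 2) (by decide +kernel) (ClAll.succ (ClAll.succ ClAll.zero n571) n572)

def n577 : Cl (O (nat_lit 3)) (R (nat_lit 143633))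
    (p (nat_lit 0x41) (nat_lit 0) (p (nat_lit 0x8a898a08881a) (nat_lit 0) (p (nat_lit 0xa090988079a) (nat_lit 0) (p (nat_lit 0x88088907871a) (nat_lit 0) (p (nat_lit 0x7880887069a) (nat_lit 0) (p (nat_lit 0x80000800088806860a) (nat_lit 0) (p (nat_lit 0x80000800068786058a) (nat_lit 0) (p (nat_lit 0x8687058502) (nat_lit 0) (p (nat_lit 0x606850482) (nat_lit 0) (p (nat_lit 0x160014) (nat_lit 0) (p (nat_lit 0x68612) (nat_lit 0) (p (nat_lit 0x50592) (nat_lit 0) (p (nat_lit 0x40512) (nat_lit 0) (p (nat_lit 0x50312) (nat_lit 0) (p (nat_lit 0x38292) (nat_lit 0) (p (nat_lit 0x28212) (nat_lit 0) (p (nat_lit 0x38112) (nat_lit 0) (p (nat_lit 0x20092) (nat_lit 0) (p (nat_lit 0x10012) (nat_lit 0) pn))))))))))))))))))) :=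
  Cl.node (nat_lit 0x89) (nat_lit 2) (by decide +kernel) (ClAll.succ (ClAll.succ ClAll.zero n573) n574)

def n578 : Cl (O (nat_lit 3)) (R (nat_lit 143633))
    (p (nat_lit 0x41) (nat_lit 1) (p (nat_lit 0x8a898a08881a) (nat_lit 0) (p (nat_lit 0xa090988079a) (nat_lit 0) (p (nat_lit 0x88088907871a) (nat_lit 0) (p (nat_lit 0x7880887069a) (nat_lit 0) (p (nat_lit 0x80000800088806860a) (nat_lit 0) (p (nat_lit 0x80000800068786058a) (nat_lit 0) (p (nat_lit 0x8687058502) (nat_lit 0) (p (nat_lit 0x606850482) (nat_lit 0) (p (nat_lit 0x160014) (nat_lit 0) (p (nat_lit 0x68612) (nat_lit 0) (p (nat_lit 0x50592) (nat_lit 0) (p (nat_lit 0x40512) (nat_lit 0) (p (nat_lit 0x50312) (nat_lit 0) (p (nat_lit 0x38292) (nat_lit 0) (p (nat_lit 0x28212) (nat_lit 0) (p (nat_lit 0x38112) (nat_lit 0) (p (nat_lit 0x20092) (nat_lit 0) (p (nat_lit 0x10012) (nat_lit 0) pn))))))))))))))))))) :=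
  Cl.node (nat_lit 0x81) (nat_lit 2) (by decide +kernel) (ClAll.succ (ClAll.succ ClAll.zero n575) n576)

def n579 : Cl (O (nat_lit 3)) (R (nat_lit 143633))
    (p (nat_lit 0x8a898a08881a) (nat_lit 0) (p (nat_lit 0xa090988079a) (nat_lit 0) (p (nat_lit 0x88088907871a) (nat_lit 0) (p (nat_lit 0x7880887069a) (nat_lit 0) (p (nat_lit 0x80000800088806860a) (nat_lit 0) (p (nat_lit 0x80000800068786058a) (nat_lit 0) (p (nat_lit 0x8687058502) (nat_lit 0) (p (nat_lit 0x606850482) (nat_lit 0) (p (nat_lit 0x160014) (nat_lit 0) (p (nat_lit 0x68612) (nat_lit 0) (p (nat_lit 0x50592) (nat_lit 0) (p (nat_lit 0x40512) (nat_lit 0) (p (nat_lit 0x50312) (nat_lit 0) (p (nat_lit 0x38292) (nat_lit 0) (p (nat_lit 0x28212) (nat_lit 0) (p (nat_lit 0x38112) (nat_lit 0) (p (nat_lit 0x20092) (nat_lit 0) (p (nat_lit 0x10012) (nat_lit 0) pn)))))))))))))))))) :=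
  Cl.node (nat_lit 0x41) (nat_lit 2) (by decide +kernel) (ClAll.succ (ClAll.succ ClAll.zero n577) n578)

def n580 : Cl (O (nat_lit 3)) (R (nat_lit 143633))
    (p (nat_lit 0xa090988079a) (nat_lit 0) (p (nat_lit 0x88088907871a) (nat_lit 0) (p (nat_lit 0x7880887069a) (nat_lit 0) (p (nat_lit 0x80000800088806860a) (nat_lit 0) (p (nat_lit 0x80000800068786058a) (nat_lit 0) (p (nat_lit 0x8687058502) (nat_lit 0) (p (nat_lit 0x606850482) (nat_lit 0) (p (nat_lit 0x160014) (nat_lit 0) (p (nat_lit 0x68612) (nat_lit 0) (p (nat_lit 0x50592) (nat_lit 0) (p (nat_lit 0x40512) (nat_lit 0) (p (nat_lit 0x50312) (nat_lit 0) (p (nat_lit 0x38292) (nat_lit 0) (p (nat_lit 0x28212) (nat_lit 0) (p (nat_lit 0x38112) (nat_lit 0) (p (nat_lit 0x20092) (nat_lit 0) (p (nat_lit 0x10012) (nat_lit 0) pn))))))))))))))))) :=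
  Cl.node (nat_lit 0x8a898a08881a) (nat_lit 1) (by decide +kernel) (ClAll.succ ClAll.zero n579)

def n581 : Cl (O (nat_lit 3)) (R (nat_lit 143633))
    (p (nat_lit 0x88088907871a) (nat_lit 0) (p (nat_lit 0x7880887069a) (nat_lit 0) (p (nat_lit 0x80000800088806860a) (nat_lit 0) (p (nat_lit 0x80000800068786058a) (nat_lit 0) (p (nat_lit 0x8687058502) (nat_lit 0) (p (nat_lit 0x606850482) (nat_lit 0) (p (nat_lit 0x160014) (nat_lit 0) (p (nat_lit 0x68612) (nat_lit 0) (p (nat_lit 0x50592) (nat_lit 0) (p (nat_lit 0x40512) (nat_lit 0) (p (nat_lit 0x50312) (nat_lit 0) (p (nat_lit 0x38292) (nat_lit 0) (p (nat_lit 0x28212) (nat_lit 0) (p (nat_lit 0x38112) (nat_lit 0) (p (nat_lit 0x20092) (nat_lit 0) (p (nat_lit 0x10012) (nat_lit 0) pn)))))))))))))))) :=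
  Cl.node (nat_lit 0xa090988079a) (nat_lit 1) (by decide +kernel) (ClAll.succ ClAll.zero n580)

def n582 : Cl (O (nat_lit 3)) (R (nat_lit 143633))
    (p (nat_lit 0x7880887069a) (nat_lit 0) (p (nat_lit 0x80000800088806860a) (nat_lit 0) (p (nat_lit 0x80000800068786058a) (nat_lit 0) (p (nat_lit 0x8687058502) (nat_lit 0) (p (nat_lit 0x606850482) (nat_lit 0) (p (nat_lit 0x160014) (nat_lit 0) (p (nat_lit 0x68612) (nat_lit 0) (p (nat_lit 0x50592) (nat_lit 0) (p (nat_lit 0x40512) (nat_lit 0) (p (nat_lit 0x50312) (nat_lit 0) (p (nat_lit 0x38292) (nat_lit 0) (p (nat_lit 0x28212) (nat_lit 0) (p (nat_lit 0x38112) (nat_lit 0) (p (nat_lit 0x20092) (nat_lit 0) (p (nat_lit 0x10012) (nat_lit 0) pn))))))))))))))) :=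
  Cl.node (nat_lit 0x88088907871a) (nat_lit 1) (by decide +kernel) (ClAll.succ ClAll.zero n581)

def n583 : Cl (O (nat_lit 3)) (R (nat_lit 143633))
    (p (nat_lit 0x80000800088806860a) (nat_lit 0) (p (nat_lit 0x80000800068786058a) (nat_lit 0) (p (nat_lit 0x8687058502) (nat_lit 0) (p (nat_lit 0x606850482) (nat_lit 0) (p (nat_lit 0x160014) (nat_lit 0) (p (nat_lit 0x68612) (nat_lit 0) (p (nat_lit 0x50592) (nat_lit 0) (p (nat_lit 0x40512) (nat_lit 0) (p (nat_lit 0x50312) (nat_lit 0) (p (nat_lit 0x38292) (nat_lit 0) (p (nat_lit 0x28212) (nat_lit 0) (p (nat_lit 0x38112) (nat_lit 0) (p (nat_lit 0x20092) (nat_lit 0) (p (nat_lit 0x10012) (nat_lit 0) pn)))))))))))))) :=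
  Cl.node (nat_lit 0x7880887069a) (nat_lit 1) (by decide +kernel) (ClAll.succ ClAll.zero n582)

def n584 : Cl (O (nat_lit 3)) (R (nat_lit 143633))
    (p (nat_lit 0x80000800068786058a) (nat_lit 0) (p (nat_lit 0x8687058502) (nat_lit 0) (p (nat_lit 0x606850482) (nat_lit 0) (p (nat_lit 0x160014) (nat_lit 0) (p (nat_lit 0x68612) (nat_lit 0) (p (nat_lit 0x50592) (nat_lit 0) (p (nat_lit 0x40512) (nat_lit 0) (p (nat_lit 0x50312) (nat_lit 0) (p (nat_lit 0x38292) (nat_lit 0) (p (nat_lit 0x28212) (nat_lit 0) (p (nat_lit 0x38112) (nat_lit 0) (p (nat_lit 0x20092) (nat_lit 0) (p (nat_lit 0x10012) (nat_lit 0) pn))))))))))))) :=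
  Cl.node (nat_lit 0x80000800088806860a) (nat_lit 1) (by decide +kernel) (ClAll.succ ClAll.zero n583)

def n585 : Cl (O (nat_lit 3)) (R (nat_lit 143633))
    (p (nat_lit 0x8687058502) (nat_lit 0) (p (nat_lit 0x606850482) (nat_lit 0) (p (nat_lit 0x160014) (nat_lit 0) (p (nat_lit 0x68612) (nat_lit 0) (p (nat_lit 0x50592) (nat_lit 0) (p (nat_lit 0x40512) (nat_lit 0) (p (nat_lit 0x50312) (nat_lit 0) (p (nat_lit 0x38292) (nat_lit 0) (p (nat_lit 0x28212) (nat_lit 0) (p (nat_lit 0x38112) (nat_lit 0) (p (nat_lit 0x20092) (nat_lit 0) (p (nat_lit 0x10012) (nat_lit 0) pn)))))))))))) :=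
  Cl.node (nat_lit 0x80000800068786058a) (nat_lit 1) (by decide +kernel) (ClAll.succ ClAll.zero n584)

def n586 : Cl (O (nat_lit 3)) (R (nat_lit 143633))
    (p (nat_lit 0x606850482) (nat_lit 0) (p (nat_lit 0x160014) (nat_lit 0) (p (nat_lit 0x68612) (nat_lit 0) (p (nat_lit 0x50592) (nat_lit 0) (p (nat_lit 0x40512) (nat_lit 0) (p (nat_lit 0x50312) (nat_lit 0) (p (nat_lit 0x38292) (nat_lit 0) (p (nat_lit 0x28212) (nat_lit 0) (p (nat_lit 0x38112) (nat_lit 0) (p (nat_lit 0x20092) (nat_lit 0) (p (nat_lit 0x10012) (nat_lit 0) pn))))))))))) :=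
  Cl.node (nat_lit 0x8687058502) (nat_lit 1) (by decide +kernel) (ClAll.succ ClAll.zero n585)

def n587 : Cl (O (nat_lit 3)) (R (nat_lit 143633))
    (p (nat_lit 0x160014) (nat_lit 0) (p (nat_lit 0x68612) (nat_lit 0) (p (nat_lit 0x50592) (nat_lit 0) (p (nat_lit 0x40512) (nat_lit 0) (p (nat_lit 0x50312) (nat_lit 0) (p (nat_lit 0x38292) (nat_lit 0) (p (nat_lit 0x28212) (nat_lit 0) (p (nat_lit 0x38112) (nat_lit 0) (p (nat_lit 0x20092) (nat_lit 0) (p (nat_lit 0x10012) (nat_lit 0) pn)))))))))) :=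
  Cl.node (nat_lit 0x606850482) (nat_lit 1) (by decide +kernel) (ClAll.succ ClAll.zero n586)

def n588 : Cl (O (nat_lit 3)) (R (nat_lit 143633))
    (p (nat_lit 0x68612) (nat_lit 0) (p (nat_lit 0x50592) (nat_lit 0) (p (nat_lit 0x40512) (nat_lit 0) (p (nat_lit 0x50312) (nat_lit 0) (p (nat_lit 0x38292) (nat_lit 0) (p (nat_lit 0x28212) (nat_lit 0) (p (nat_lit 0x38112) (nat_lit 0) (p (nat_lit 0x20092) (nat_lit 0) (p (nat_lit 0x10012) (nat_lit 0) pn))))))))) :=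
  Cl.node (nat_lit 0x160014) (nat_lit 2) (by decide +kernel) (ClAll.succ (ClAll.succ ClAll.zero n587) s1187)

def n589 : Cl (O (nat_lit 3)) (R (nat_lit 143633))
    (p (nat_lit 0x50592) (nat_lit 0) (p (nat_lit 0x40512) (nat_lit 0) (p (nat_lit 0x50312) (nat_lit 0) (p (nat_lit 0x38292) (nat_lit 0) (p (nat_lit 0x28212) (nat_lit 0) (p (nat_lit 0x38112) (nat_lit 0) (p (nat_lit 0x20092) (nat_lit 0) (p (nat_lit 0x10012) (nat_lit 0) pn)))))))) :=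
  Cl.node (nat_lit 0x68612) (nat_lit 1) (by decide +kernel) (ClAll.succ ClAll.zero n588)

def n590 : Cl (O (nat_lit 3)) (R (nat_lit 143633))
    (p (nat_lit 0x40512) (nat_lit 0) (p (nat_lit 0x50312) (nat_lit 0) (p (nat_lit 0x38292) (nat_lit 0) (p (nat_lit 0x28212) (nat_lit 0) (p (nat_lit 0x38112) (nat_lit 0) (p (nat_lit 0x20092) (nat_lit 0) (p (nat_lit 0x10012) (nat_lit 0) pn))))))) :=
  Cl.node (nat_lit 0x50592) (nat_lit 1) (by decide +kernel) (ClAll.succ ClAll.zero n589)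

def n591 : Cl (O (nat_lit 3)) (R (nat_lit 143633))
    (p (nat_lit 0x50312) (nat_lit 0) (p (nat_lit 0x38292) (nat_lit 0) (p (nat_lit 0x28212) (nat_lit 0) (p (nat_lit 0x38112) (nat_lit 0) (p (nat_lit 0x20092) (nat_lit 0) (p (nat_lit 0x10012) (nat_lit 0) pn)))))) :=
  Cl.node (nat_lit 0x40512) (nat_lit 1) (by decide +kernel) (ClAll.succ ClAll.zero n590)

def n592 : Cl (O (nat_lit 3)) (R (nat_lit 143633))
    (p (nat_lit 0x38292) (nat_lit 0) (p (nat_lit 0x28212) (nat_lit 0) (p (nat_lit 0x38112) (nat_lit 0) (p (nat_lit 0x20092) (nat_lit 0) (p (nat_lit 0x10012) (nat_lit 0) pn))))) :=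
  Cl.node (nat_lit 0x50312) (nat_lit 1) (by decide +kernel) (ClAll.succ ClAll.zero n591)

def n593 : Cl (O (nat_lit 3)) (R (nat_lit 143633))
    (p (nat_lit 0x28212) (nat_lit 0) (p (nat_lit 0x38112) (nat_lit 0) (p (nat_lit 0x20092) (nat_lit 0) (p (nat_lit 0x10012) (nat_lit 0) pn)))) :=
  Cl.node (nat_lit 0x38292) (nat_lit 1) (by decide +kernel) (ClAll.succ ClAll.zero n592)

def n594 : Cl (O (nat_lit 3)) (R (nat_lit 143633))
    (p (nat_lit 0x38112) (nat_lit 0) (p (nat_lit 0x20092) (nat_lit 0) (p (nat_lit 0x10012) (nat_lit 0) pn))) :=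
  Cl.node (nat_lit 0x28212) (nat_lit 1) (by decide +kernel) (ClAll.succ ClAll.zero n593)

def n595 : Cl (O (nat_lit 3)) (R (nat_lit 143633))
    (p (nat_lit 0x20092) (nat_lit 0) (p (nat_lit 0x10012) (nat_lit 0) pn)) :=
  Cl.node (nat_lit 0x38112) (nat_lit 1) (by decide +kernel) (ClAll.succ ClAll.zero n594)

def n596 : Cl (O (nat_lit 3)) (R (nat_lit 143633))
    (p (nat_lit 0x10012) (nat_lit 0) pn) :=
  Cl.node (nat_lit 0x20092) (nat_lit 1) (by decide +kernel) (ClAll.succ ClAll.zero n595)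

def n597 : Cl (O (nat_lit 3)) (R (nat_lit 143633))
    pn :=
  Cl.node (nat_lit 0x10012) (nat_lit 1) (by decide +kernel) (ClAll.succ ClAll.zero n596)

theorem top : Cl (O (nat_lit 3)) (R (nat_lit 143633)) pn := n597

end Pool.Agent.Gen.F5.X12DC3Dm3
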